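import Pool.Agent.P.MP_c53d0e_pr.Defs

-- part Pool.Agent.P.MP_c53d0e_pr.Ex
section

set_option autoImplicit false
set_option linter.unusedSectionVars false

namespace Pool.Agent.SemiRandom

open Finset

variable {α β : Type} [Fintype α] [Fintype β] [Nonempty α] (S : Strategy α β)

lemma card_pos' : (0 : ℝ) < Fintype.card α := by exact_mod_cast Fintype.card_pos

lemma Ex_mono (t : ℕ) : ∀ (h : List (α × β)) (f g : List (α × β) → ℝ),
    (∀ l : List (α × β), l.length = t → f (h ++ l) ≤ g (h ++ l)) → Ex S t h f ≤ Ex S t h g := by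
  induction t with
  | zero => intro h f g H; simpa [Ex] using H [] rfl
  | succ t ih =>
    intro h f g H
    simp only [Ex]
    refine div_le_div_of_nonneg_right (sum_le_sum fun U _ => sum_le_sum fun V _ =>
      mul_le_mul_of_nonneg_left (ih _ _ _ fun l hl => ?_) (S.nonneg _ _ _)) card_pos'.le
    rw [List.append_assoc]
    exact H _ (by simp [hl])

lemma Ex_const (t : ℕ) : ∀ (h : List (α × β)) (c : ℝ), Ex S t h (fun _ => c) = c := by
  induction t with
  | zero => intro h c; rfl
  | succ t ih =>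
    intro h c
    simp only [Ex, ih, ← sum_mul, S.sum_one, one_mul, sum_const, card_univ, nsmul_eq_mul]
    exact mul_div_cancel_left₀ _ card_pos'.ne'

lemma Ex_add (t : ℕ) : ∀ (h : List (α × β)) (f g : List (α × β) → ℝ),
    Ex S t h (fun l => f l + g l) = Ex S t h f + Ex S t h g := by
  induction t with
  | zero => intro h f g; rfl
  | succ t ih =>
    intro h f g
    simp only [Ex, ih, mul_add, sum_add_distrib, add_div]

lemma Ex_mul (c : ℝ) (t : ℕ) : ∀ (h : List (α × β)) (f : List (α × β) → ℝ),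
    Ex S t h (fun l => c * f l) = c * Ex S t h f := by
  induction t with
  | zero => intro h f; rfl
  | succ t ih =>
    intro h f
    simp only [Ex, ih, mul_left_comm _ c, ← mul_sum, mul_div_assoc]

lemma Ex_sum {ι : Type*} (I : Finset ι) (t : ℕ) (h : List (α × β)) (f : ι → List (α × β) → ℝ) :
    Ex S t h (fun l => ∑ i ∈ I, f i l) = ∑ i ∈ I, Ex S t h (f i) := by
  classical
  induction I using Finset.induction_on with
  | empty => simpa using Ex_const S t h 0
  | insert a I ha ih => simp only [sum_insert ha, Ex_add, ih]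

lemma Ex_nonneg (t : ℕ) (h : List (α × β)) (f : List (α × β) → ℝ) (hf : ∀ l, 0 ≤ f l) :
    0 ≤ Ex S t h f := by
  rw [← Ex_const S t h 0]; exact Ex_mono S t h _ _ fun l _ => hf _

variable {γ : Type} [DecidableEq γ] (ι : α → γ)

/-- The multiset of random draws of a history. -/
def draws (l : List (α × β)) : Multiset γ := (l.map fun x => ι x.1 : List γ)

lemma draws_cons (x : α × β) (l : List (α × β)) : draws ι (x :: l) = ι x.1 ::ₘ draws ι l := rfl

lemma hit (hι : Function.Injective ι) (t : ℕ) : ∀ (h : List (α × β)) (w : Multiset γ),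
    Ex S t h (fun l => if w ≤ draws ι (l.drop h.length) then 1 else 0) ≤
      ((t : ℝ) / Fintype.card α) ^ w.card := by
  induction t with
  | zero =>
    intro h w
    simp only [Ex, List.drop_length, draws, List.map_nil, Multiset.coe_nil, Multiset.le_zero]
    split_ifs with hw
    · simp [hw]
    · positivity
  | succ t ih =>
    intro h w
    have hN : (0 : ℝ) < Fintype.card α := card_pos'
    set a : ℝ := t / Fintype.card α with ha
    have ha0 : 0 ≤ a := by positivity
    have step : ∀ U V, Ex S t (h ++ [(U, V)])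
        (fun l => if w ≤ draws ι (l.drop h.length) then 1 else 0) ≤
        a ^ w.card + if ι U ∈ w then a ^ (w.card - 1) else 0 := by
      intro U V
      refine (Ex_mono S t _ _ _ fun l _ => ?_).trans ((ih (h ++ [(U, V)]) (w.erase (ι U))).trans ?_)
      · rw [List.drop_left, List.append_assoc, List.drop_left]
        simp only [List.singleton_append, draws_cons, Multiset.erase_le_iff_le_cons]
        exact le_of_eq (by congr)
      · split_ifs with hU
        · rw [Multiset.card_erase_of_mem hU, Nat.pred_eq_sub_one]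
          linarith [pow_nonneg ha0 w.card]
        · rw [Multiset.erase_of_notMem hU, add_zero]
    simp only [Ex]
    rw [div_le_iff₀ hN]
    have h1 : ∑ U, ∑ V, S.w h U V * Ex S t (h ++ [(U, V)])
        (fun l => if w ≤ draws ι (l.drop h.length) then 1 else 0) ≤
        ∑ U, (a ^ w.card + if ι U ∈ w then a ^ (w.card - 1) else 0) := by
      refine sum_le_sum fun U _ => ?_
      refine (sum_le_sum fun V _ => mul_le_mul_of_nonneg_left (step U V) (S.nonneg _ _ _)).trans ?_
      rw [← sum_mul, S.sum_one, one_mul]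
    refine h1.trans ?_
    rw [sum_add_distrib, sum_const, card_univ, nsmul_eq_mul, ← sum_filter, sum_const, nsmul_eq_mul]
    have h2 : (#{U | ι U ∈ w} : ℝ) ≤ w.card := by
      have : #{U | ι U ∈ w} ≤ w.toFinset.card :=
        card_le_card_of_injOn ι (fun U hU => by simpa using hU) hι.injOn
      exact_mod_cast this.trans w.toFinset_card_le
    have h3 := pow_add_mul_le_add_pow ha0 (b := (1 : ℝ) / Fintype.card α) (by positivity) w.card
    have h4 : ((t + 1 : ℕ) : ℝ) / Fintype.card α = a + 1 / Fintype.card α := by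
      rw [ha]; push_cast; ring
    rw [h4]
    have h5 := mul_le_mul_of_nonneg_right h3 hN.le
    have h6 := mul_le_mul_of_nonneg_right h2 (pow_nonneg ha0 (w.card - 1))
    have h7 : (w.card : ℝ) * a ^ (w.card - 1) * (1 / Fintype.card α) * Fintype.card α =
        w.card * a ^ (w.card - 1) := by field_simp
    nlinarith

open Classical in
lemma stop (hι : Function.Injective ι) (C : List (α × β) → Prop)
    (hC : ∀ h l, C h → C (h ++ l)) (w : Multiset γ) (t : ℕ) : ∀ h : List (α × β),
    Ex S t h (fun l => if ∃ l1 l2, l = h ++ l1 ++ l2 ∧ C (h ++ l1) ∧ w ≤ draws ι l2 then 1 else 0)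
      ≤ ((t : ℝ) / Fintype.card α) ^ w.card * Ex S t h (fun l => if C l then 1 else 0) := by
  have yes : ∀ (t : ℕ) (h : List (α × β)), C h →
      Ex S t h (fun l => if ∃ l1 l2, l = h ++ l1 ++ l2 ∧ C (h ++ l1) ∧ w ≤ draws ι l2 then 1 else 0)
      ≤ ((t : ℝ) / Fintype.card α) ^ w.card * Ex S t h (fun l => if C l then 1 else 0) := by
    intro t h hh
    have h1 : (1 : ℝ) ≤ Ex S t h (fun l => if C l then 1 else 0) := by
      rw [← Ex_const S t h 1]
      exact (Ex_mono S t h _ _ fun l _ => by rw [Ex_const, if_pos (hC h l hh)])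
    refine le_trans ?_ (le_mul_of_one_le_right (by positivity) h1)
    refine (Ex_mono S t h _ _ fun l _ => ?_).trans (hit S ι hι t h w)
    rw [List.drop_left]
    split_ifs with a b
    · exact le_rfl
    · exfalso
      obtain ⟨l1, l2, e, -, hw⟩ := a
      rw [List.append_assoc, List.append_cancel_left_eq] at e
      refine b (hw.trans ?_)
      rw [e, draws, draws, List.map_append, ← Multiset.coe_add]
      exact Multiset.le_add_left _ _
    · exact zero_le_one
    · exact le_rfl
  induction t with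
  | zero =>
    intro h
    by_cases hh : C h
    · exact yes 0 h hh
    · simp only [Ex, if_neg hh, mul_zero]
      rw [if_neg]
      rintro ⟨l1, l2, e, hc, -⟩
      rw [List.append_assoc, List.self_eq_append_right, List.append_eq_nil_iff] at e
      rw [e.1, List.append_nil] at hc
      exact hh hc
  | succ t ih =>
    intro h
    by_cases hh : C h
    · exact yes _ h hh
    simp only [Ex]
    rw [← mul_div_assoc, mul_sum]
    refine div_le_div_of_nonneg_right (sum_le_sum fun U _ => ?_) card_pos'.le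
    rw [mul_sum]
    refine sum_le_sum fun V _ => ?_
    rw [mul_left_comm]
    refine mul_le_mul_of_nonneg_left ?_ (S.nonneg _ _ _)
    refine (Ex_mono S t _ _ _ fun l _ => ?_).trans ((ih (h ++ [(U, V)])).trans ?_)
    · split_ifs with a b
      · exact le_rfl
      · exfalso
        obtain ⟨l1, l2, e, hc, hw⟩ := a
        cases l1 with
        | nil => exact hh (by simpa using hc)
        | cons x l1 =>
          simp only [List.append_assoc, List.append_cancel_left_eq, List.cons_append,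
            List.nil_append, List.cons.injEq] at e
          obtain ⟨rfl, rfl⟩ := e
          exact b ⟨l1, l2, by simp, by simpa using hc, hw⟩
      · exact zero_le_one
      · exact le_rfl
    · refine mul_le_mul_of_nonneg_right (pow_le_pow_left₀ (by positivity) ?_ _)
        (Ex_nonneg S _ _ _ fun l => by positivity)
      refine div_le_div_of_nonneg_right ?_ card_pos'.le
      push_cast; linarith

/-- The value of the game for a player maximising the expectation of `f`. -/
noncomputable def val [Nonempty β] : ℕ → List (α × β) → (List (α × β) → ℝ) → ℝ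
  | 0, h, f => f h
  | t + 1, h, f => (∑ U, univ.sup' univ_nonempty fun V => val t (h ++ [(U, V)]) f) / Fintype.card α

lemma exists_strategy [Nonempty β] (T : ℕ) (f : List (α × β) → ℝ) :
    ∃ S : Strategy α β, Ex S T [] f = val T [] f := by
  classical
  have : ∀ (h : List (α × β)) (U : α), ∃ V, (univ.sup' univ_nonempty fun V =>
      val (T - h.length - 1) (h ++ [(U, V)]) f) = val (T - h.length - 1) (h ++ [(U, V)]) f :=
    fun h U => by
      obtain ⟨V, -, hV⟩ := exists_mem_eq_sup' univ_nonempty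
        fun V => val (T - h.length - 1) (h ++ [(U, V)]) f
      exact ⟨V, hV⟩
  choose σ hσ using this
  let S : Strategy α β := ⟨fun h U V => if V = σ h U then 1 else 0,
    fun h U V => by positivity, fun h U => by simp⟩
  have key : ∀ t (h : List (α × β)), h.length + t = T → Ex S t h f = val t h f := by
    intro t
    induction t with
    | zero => intro h _; rfl
    | succ t ih =>
      intro h hh
      simp only [Ex, val]
      congr 1
      refine sum_congr rfl fun U _ => ?_
      have e : T - h.length - 1 = t := by omega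
      have := hσ h U
      rw [e] at this
      rw [this]
      simp only [S, ite_mul, one_mul, zero_mul, sum_ite_eq', mem_univ, if_true]
      exact ih _ (by simp; omega)
  exact ⟨S, key T [] (by simp)⟩

lemma val_add [Nonempty β] (a b : ℕ) : ∀ (h : List (α × β)) (f : List (α × β) → ℝ),
    val (a + b) h f = val a h (fun l => val b l f) := by
  induction a with
  | zero => intro h f; simp [val]
  | succ a ih =>
    intro h f
    rw [Nat.add_right_comm]
    simp only [val, ih]

lemma val_mono [Nonempty β] (t : ℕ) : ∀ (h : List (α × β)) (f g : List (α × β) → ℝ),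
    (∀ l : List (α × β), f (h ++ l) ≤ g (h ++ l)) → val t h f ≤ val t h g := by
  induction t with
  | zero => intro h f g H; simpa [val] using H []
  | succ t ih =>
    intro h f g H
    simp only [val]
    refine div_le_div_of_nonneg_right (sum_le_sum fun U _ => ?_) card_pos'.le
    refine sup'_le _ _ fun V _ => le_trans (ih _ _ _ fun l => ?_)
      (le_sup' (fun V => val t (h ++ [(U, V)]) g) (mem_univ V))
    rw [List.append_assoc]
    exact H _

lemma val_sub_const [Nonempty β] (c : ℝ) (t : ℕ) : ∀ (h : List (α × β)) (f : List (α × β) → ℝ),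
    val t h f - c ≤ val t h (fun l => f l - c) := by
  induction t with
  | zero => intro h f; exact le_rfl
  | succ t ih =>
    intro h f
    simp only [val]
    have hN : (0 : ℝ) < Fintype.card α := card_pos'
    rw [le_div_iff₀ hN, sub_mul, div_mul_cancel₀ _ hN.ne']
    have : c * Fintype.card α = ∑ _U : α, c := by simp [mul_comm]
    rw [this, ← sum_sub_distrib]
    refine sum_le_sum fun U _ => ?_
    rw [sub_le_iff_le_add]
    refine sup'_le _ _ fun V _ => ?_
    have := (ih (h ++ [(U, V)]) f).trans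
      (le_sup' (fun V => val t (h ++ [(U, V)]) fun l => f l - c) (mem_univ V))
    linarith

lemma val_const_le [Nonempty β] (c : ℝ) (t : ℕ) : ∀ h : List (α × β),
    c ≤ val t h (fun _ => c) := by
  induction t with
  | zero => intro h; exact le_rfl
  | succ t ih =>
    intro h
    simp only [val]
    have hN : (0 : ℝ) < Fintype.card α := card_pos'
    rw [le_div_iff₀ hN]
    have : c * Fintype.card α = ∑ _U : α, c := by simp [mul_comm]
    rw [this]
    refine sum_le_sum fun U _ => ?_
    obtain ⟨V⟩ := ‹Nonempty β›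
    exact (ih _).trans (le_sup' (fun V => val t (h ++ [(U, V)]) fun _ => c) (mem_univ V))

end Pool.Agent.SemiRandom
end

-- part Pool.Agent.P.MP_c53d0e_pr.Moment
section

set_option autoImplicit false
set_option linter.unusedSectionVars false

namespace Pool.Agent.SemiRandom

open Finset

variable {α β : Type} [Fintype α] [Fintype β] [Nonempty α] (S : Strategy α β)
variable {n k : ℕ} (ι : α → Finset (Fin n))

def tgt (I : Finset (Finset (Fin k))) (u : Finset (Fin k) → Finset (Fin k)) (φ : Fin k → Fin n) :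
    Multiset (Finset (Fin n)) := I.val.map fun e => (u e).image φ

lemma card_tgt (I : Finset (Finset (Fin k))) (u : Finset (Fin k) → Finset (Fin k))
    (φ : Fin k → Fin n) : (tgt I u φ).card = I.card := by simp [tgt]

lemma tgt_mono {I J : Finset (Finset (Fin k))} (h : I ⊆ J) (u : Finset (Fin k) → Finset (Fin k))
    (φ : Fin k → Fin n) : tgt I u φ ≤ tgt J u φ := Multiset.map_le_map (val_le_iff.2 h)

def Ext (P : Finset (Finset (Fin k))) (u : Finset (Fin k) → Finset (Fin k)) (A : Finset (Fin k))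
    (ρ : Fin k → Fin n) (l : List (α × β)) : Finset (Fin k → Fin n) :=
  {φ | (∀ x ∈ A, φ x = ρ x) ∧ tgt P u φ ≤ draws ι l}

lemma sum_pow_le (P : Finset (Finset (Fin k))) (u : Finset (Fin k) → Finset (Fin k))
    (A : Finset (Fin k)) (ρ : Fin k → Fin n) {p M0 : ℝ} (hp : 0 ≤ p) (hM0 : 0 ≤ M0) {B : ℕ}
    (hB : 1 ≤ B)
    (hM : ∀ R, A ⊆ R → (n : ℝ) ^ (k - R.card) * p ^ #{e ∈ P | ¬ u e ⊆ R} ≤ M0)
    (W : Finset (Fin n)) (hW : W.card ≤ B) (hA : ∀ x ∈ A, ρ x ∈ W) :
    ∑ φ : Fin k → Fin n with (∀ x ∈ A, φ x = ρ x),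
      p ^ #{e ∈ P | ¬ u e ⊆ ({x | φ x ∈ W} : Finset (Fin k))} ≤ 2 ^ k * B ^ k * M0 := by
  rw [← sum_fiberwise_of_maps_to (t := univ) (g := fun φ : Fin k → Fin n =>
    ({x | φ x ∈ W} : Finset (Fin k))) (fun _ _ => mem_univ _)]
  have : (2 : ℝ) ^ k * B ^ k * M0 = ∑ _R : Finset (Fin k), B ^ k * M0 := by
    simp [mul_assoc]
  rw [this]
  refine sum_le_sum fun R _ => ?_
  by_cases hR : A ⊆ R
  · rw [sum_congr rfl (g := fun _ => p ^ #{e ∈ P | ¬ u e ⊆ R})
      (fun φ hφ => by rw [(mem_filter.1 hφ).2]), sum_const, nsmul_eq_mul]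
    have h1 : #{φ ∈ ({φ | ∀ x ∈ A, φ x = ρ x} : Finset (Fin k → Fin n)) |
        ({x | φ x ∈ W} : Finset (Fin k)) = R} ≤ B ^ k * n ^ (k - R.card) := by
      refine (card_le_card (t := Fintype.piFinset fun x => if x ∈ R then W else univ)
        fun φ hφ => ?_).trans ?_
      · rw [Fintype.mem_piFinset]
        intro x
        split_ifs with hx
        · rw [← (mem_filter.1 hφ).2] at hx
          simpa using hx
        · exact mem_univ _
      · rw [Fintype.card_piFinset]
        simp only [apply_ite Finset.card, card_univ, Fintype.card_fin]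
        rw [prod_ite, prod_const, prod_const]
        have e1 : #{x : Fin k | x ∈ R} = R.card := by simp
        have e2 : #{x : Fin k | x ∉ R} = k - R.card := by
          rw [filter_notMem_eq_sdiff, card_univ_sdiff, Fintype.card_fin]
        rw [e1, e2]
        refine Nat.mul_le_mul_right _ ((Nat.pow_le_pow_left hW _).trans
          (Nat.pow_le_pow_right hB ?_))
        simpa using card_le_univ R
    have h2 : (#{φ ∈ ({φ | ∀ x ∈ A, φ x = ρ x} : Finset (Fin k → Fin n)) |
        ({x | φ x ∈ W} : Finset (Fin k)) = R} : ℝ) ≤ B ^ k * n ^ (k - R.card) := by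
      exact_mod_cast h1
    refine (mul_le_mul_of_nonneg_right h2 (pow_nonneg hp _)).trans ?_
    rw [mul_assoc]
    exact mul_le_mul_of_nonneg_left (hM R hR) (by positivity)
  · rw [sum_eq_zero]
    · positivity
    · intro φ hφ
      exfalso
      obtain ⟨h1, h2⟩ := mem_filter.1 hφ
      refine hR fun x hx => ?_
      rw [← h2]
      simp only [mem_filter, mem_univ, true_and] at h1 ⊢
      rw [h1 x hx]
      exact hA x hx

lemma moment (hι : Function.Injective ι) (T : ℕ) (P : Finset (Finset (Fin k)))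
    (u : Finset (Fin k) → Finset (Fin k))
    (A : Finset (Fin k)) (ρ : Fin k → Fin n) {p M0 : ℝ} (hp : (T : ℝ) / Fintype.card α ≤ p)
    (hM0 : 0 ≤ M0) {B : ℕ} (hB : 1 ≤ B)
    (hM : ∀ R, A ⊆ R → (n : ℝ) ^ (k - R.card) * p ^ #{e ∈ P | ¬ u e ⊆ R} ≤ M0) (L : ℕ) :
    ∀ (W : Finset (Fin n)) (w0 : Multiset (Finset (Fin n))), W.card + k * L ≤ B →
      (∀ x ∈ A, ρ x ∈ W) → (∀ y ∈ w0, y ⊆ W) →
      Ex S T [] (fun l => (if w0 ≤ draws ι l then 1 else 0) * (#(Ext ι P u A ρ l) : ℝ) ^ L) ≤
        p ^ w0.card * (2 ^ k * B ^ k * M0) ^ L := by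
  have hp0 : 0 ≤ p := le_trans (by positivity) hp
  induction L with
  | zero =>
    intro W w0 _ _ _
    simp only [pow_zero, mul_one]
    exact (hit S ι hι T [] w0).trans (pow_le_pow_left₀ (by positivity) hp _)
  | succ L ih =>
    intro W w0 hW hA hw
    set M := (2 : ℝ) ^ k * B ^ k * M0 with hMdef
    have hM' : 0 ≤ M := by positivity
    let I : (Fin k → Fin n) → Finset (Finset (Fin k)) := fun φ => {e ∈ P | ¬ u e ⊆ ({x | φ x ∈ W} : Finset (Fin k))}
    have pt : ∀ l : List (α × β),
        (if w0 ≤ draws ι l then 1 else 0) * (#(Ext ι P u A ρ l) : ℝ) ^ (L + 1) ≤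
        ∑ φ : Fin k → Fin n with (∀ x ∈ A, φ x = ρ x),
          (if w0 + tgt (I φ) u φ ≤ draws ι l then 1 else 0) * (#(Ext ι P u A ρ l) : ℝ) ^ L := by
      intro l
      rw [← sum_mul, pow_succ', ← mul_assoc]
      refine mul_le_mul_of_nonneg_right ?_ (by positivity)
      split_ifs with h0
      · rw [one_mul, sum_boole]
        refine Nat.cast_le.2 (card_le_card fun φ hφ => ?_)
        simp only [Ext, mem_filter, mem_univ, true_and] at hφ ⊢
        refine ⟨hφ.1, ?_⟩
        have hd : Disjoint w0 (tgt (I φ) u φ) := by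
          rw [Multiset.disjoint_left]
          intro y hy hy2
          obtain ⟨e, he, rfl⟩ := Multiset.mem_map.1 hy2
          refine (mem_filter.1 he).2 fun x hx => ?_
          simpa using hw _ hy (mem_image_of_mem φ hx)
        rw [Multiset.add_eq_union_iff_disjoint.2 hd]
        exact Multiset.union_le h0 ((tgt_mono (filter_subset _ _) u φ).trans hφ.2)
      · rw [zero_mul]
        exact sum_nonneg fun _ _ => by positivity
    refine (Ex_mono S T [] _ (fun l => ∑ φ : Fin k → Fin n with (∀ x ∈ A, φ x = ρ x),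
          (if w0 + tgt (I φ) u φ ≤ draws ι l then 1 else 0) * (#(Ext ι P u A ρ l) : ℝ) ^ L)
          fun l _ => pt _).trans ?_
    rw [Ex_sum]
    have step : ∀ φ : Fin k → Fin n, Ex S T [] (fun l =>
        (if w0 + tgt (I φ) u φ ≤ draws ι l then 1 else 0) * (#(Ext ι P u A ρ l) : ℝ) ^ L) ≤
        p ^ w0.card * M ^ L * p ^ (I φ).card := by
      intro φ
      refine (ih (W ∪ univ.image φ) _ ?_ (fun x hx => mem_union_left _ (hA x hx)) ?_).trans ?_
      · have h1 := card_union_le W (univ.image φ)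
        have h2 : #(univ.image φ) ≤ k := by simpa using card_image_le (s := univ) (f := φ)
        rw [mul_add] at hW
        omega
      · intro y hy
        rcases Multiset.mem_add.1 hy with hy | hy
        · exact (hw y hy).trans subset_union_left
        · obtain ⟨e, -, rfl⟩ := Multiset.mem_map.1 hy
          exact (image_subset_image (subset_univ _)).trans subset_union_right
      · rw [Multiset.card_add, card_tgt, pow_add]
        exact le_of_eq (by ring)
    refine (sum_le_sum fun φ _ => step φ).trans ?_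
    rw [← mul_sum, pow_succ, ← mul_assoc]
    exact mul_le_mul_of_nonneg_left (sum_pow_le P u A ρ hp0 hM0 hB hM W (by omega) hA)
      (by positivity)

variable (ed : α × β → Multiset (Fin n))

/-- The edges of `P` are present in `l`, each with random part `u e`. -/
def Comp (P : Finset (Finset (Fin k))) (u : Finset (Fin k) → Finset (Fin k)) (φ : Fin k → Fin n)
    (l : List (α × β)) : Prop :=
  Function.Injective φ ∧ ∀ e ∈ P, ∃ x ∈ l, ed x = (e.image φ).val ∧ ι x.1 = (u e).image φ

lemma Comp.append {P : Finset (Finset (Fin k))} {u : Finset (Fin k) → Finset (Fin k)}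
    {φ : Fin k → Fin n} {l : List (α × β)} (h : Comp ι ed P u φ l) (l' : List (α × β)) :
    Comp ι ed P u φ (l ++ l') :=
  ⟨h.1, fun e he => (h.2 e he).imp fun _ hx => ⟨List.mem_append_left _ hx.1, hx.2⟩⟩

lemma Comp.tgt_le {P : Finset (Finset (Fin k))} {u : Finset (Fin k) → Finset (Fin k)}
    {φ : Fin k → Fin n} {l : List (α × β)} (h : Comp ι ed P u φ l) : tgt P u φ ≤ draws ι l := by
  obtain ⟨hφ, h⟩ := h
  choose x hx1 hx2 hx3 using h
  have nd : (P.attach.val.map fun e => x e.1 e.2).Nodup := by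
    refine Multiset.Nodup.map (fun e e' hh => ?_) P.attach.nodup
    have h1 := hx2 e.1 e.2
    have h2 := hx2 e'.1 e'.2
    rw [hh, h2] at h1
    exact Subtype.ext (image_injective hφ (val_injective h1)).symm
  have le : (P.attach.val.map fun e => x e.1 e.2) ≤ (l : Multiset (α × β)) := by
    rw [Multiset.le_iff_subset nd]
    intro y hy
    obtain ⟨e, -, rfl⟩ := Multiset.mem_map.1 hy
    exact hx1 e.1 e.2
  have := Multiset.map_le_map (f := fun x : α × β => ι x.1) le
  rw [Multiset.map_map, Multiset.map_coe] at this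
  refine le_trans (le_of_eq ?_) this
  rw [tgt, attach_val, ← Multiset.attach_map_val' P.val]
  exact Multiset.map_congr rfl fun e _ => (hx3 e.1 e.2).symm

/-- Vertices determined by `g` through one functional dependency. -/
def clo (P : Finset (Finset (Fin k))) (u : Finset (Fin k) → Finset (Fin k)) (g : Finset (Fin k)) :
    Finset (Fin k) := {x | x ∈ g ∨ ∃ e ∈ P, u e ⊆ g ∧ x ∈ e}

open Classical in
lemma count_comp (hn : 0 < n) {s C : ℕ} (hed : ∀ x, (ed x).card ≤ s) (hs : 1 ≤ s) (hC1 : 1 ≤ C)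
    (P : Finset (Finset (Fin k))) (u : Finset (Fin k) → Finset (Fin k)) (g : Finset (Fin k))
    (l : List (α × β)) (hC : ∀ y, (draws ι l).count y ≤ C) {Y : ℝ}
    (hY : ∀ ρ, (#(Ext ι P u (clo P u g) ρ l) : ℝ) ≤ Y) :
    (#{φ : Fin k → Fin n | Comp ι ed P u φ l} : ℝ) ≤ n ^ g.card * (C * s) ^ k * Y := by
  set A := clo P u g with hA
  let d : Fin n := ⟨0, hn⟩
  have ex : ∀ x, ∃ e, x ∈ A → x ∉ g → e ∈ P ∧ u e ⊆ g ∧ x ∈ e := by
    intro x
    by_cases hx : x ∈ A ∧ x ∉ g
    · obtain ⟨e, he⟩ := ((mem_filter.1 hx.1).2).resolve_left hx.2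
      exact ⟨e, fun _ _ => he⟩
    · exact ⟨∅, fun a b => absurd ⟨a, b⟩ hx⟩
  choose e he using ex
  let cand : Finset (Fin n) → Finset (Fin n) := fun y =>
    (l.toFinset.filter fun z => ι z.1 = y).biUnion fun z => (ed z).toFinset
  have hcand : ∀ y, (cand y).card ≤ C * s := by
    intro y
    refine (card_biUnion_le_card_mul _ _ s fun z _ => (ed z).toFinset_card_le.trans (hed z)).trans
      (Nat.mul_le_mul_right _ (le_trans ?_ (hC y)))
    rw [draws, Multiset.coe_count, List.count_eq_countP, List.countP_map, List.countP_eq_length_filter]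
    refine le_trans (card_le_card fun z hz => ?_) (List.toFinset_card_le _)
    simpa using hz
  let G1 : Finset (Fin k → Fin n) := Fintype.piFinset fun x => if x ∈ g then univ else {d}
  let G2 : (Fin k → Fin n) → Finset (Fin k → Fin n) := fun ρ => Fintype.piFinset fun x =>
    if x ∈ g then {ρ x} else if x ∈ A then cand ((u (e x)).image ρ) else {d}
  have c1 : G1.card = n ^ g.card := by
    rw [Fintype.card_piFinset]
    simp [apply_ite Finset.card]
  have hCs : 1 ≤ C * s := Nat.mul_pos hC1 hs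
  have c2 : ∀ ρ, (G2 ρ).card ≤ (C * s) ^ k := by
    intro ρ
    rw [Fintype.card_piFinset]
    refine (prod_le_pow_card _ _ (C * s) fun x _ => ?_).trans (by simp)
    split_ifs
    · simpa using hCs
    · exact hcand _
    · simpa using hCs
  have sub : ({φ : Fin k → Fin n | Comp ι ed P u φ l} : Finset _) ⊆
      G1.biUnion fun ρ => (G2 ρ).biUnion fun ρ' => Ext ι P u A ρ' l := by
    intro φ hφ
    have hc : Comp ι ed P u φ l := (mem_filter.1 hφ).2
    simp only [mem_biUnion]
    refine ⟨fun x => if x ∈ g then φ x else d, ?_, fun x => if x ∈ A then φ x else d, ?_, ?_⟩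
    · rw [Fintype.mem_piFinset]
      intro x
      split_ifs <;> simp
    · rw [Fintype.mem_piFinset]
      intro x
      by_cases hx : x ∈ g
      · have : x ∈ A := mem_filter.2 ⟨mem_univ _, Or.inl hx⟩
        simp [hx, this]
      · by_cases hxA : x ∈ A
        · simp only [hx, hxA, if_true, if_false]
          obtain ⟨h1, h2, h3⟩ := he x hxA hx
          obtain ⟨z, hz, h4, h5⟩ := hc.2 _ h1
          refine mem_biUnion.2 ⟨z, mem_filter.2 ⟨List.mem_toFinset.2 hz, ?_⟩, ?_⟩
          · rw [h5]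
            exact image_congr fun y hy => by simp [h2 hy]
          · rw [h4, val_toFinset]
            exact mem_image_of_mem φ h3
        · simp [hx, hxA]
    · simp only [Ext, mem_filter, mem_univ, true_and]
      exact ⟨fun x hx => by simp [hx], hc.tgt_le⟩
  have hY0 : 0 ≤ Y := le_trans (by positivity) (hY fun _ => d)
  calc (#{φ : Fin k → Fin n | Comp ι ed P u φ l} : ℝ)
      ≤ ∑ ρ ∈ G1, ∑ ρ' ∈ G2 ρ, (#(Ext ι P u A ρ' l) : ℝ) := by
        exact_mod_cast (card_le_card sub).trans
          (card_biUnion_le.trans (sum_le_sum fun ρ _ => card_biUnion_le))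
    _ ≤ ∑ _ρ ∈ G1, ((C * s : ℝ) ^ k * Y) := by
        refine sum_le_sum fun ρ _ => (sum_le_sum fun ρ' _ => hY ρ').trans ?_
        rw [sum_const, nsmul_eq_mul]
        exact mul_le_mul_of_nonneg_right (by exact_mod_cast c2 ρ) hY0
    _ = _ := by rw [sum_const, nsmul_eq_mul, c1]; push_cast; ring

end Pool.Agent.SemiRandom
end

-- part Pool.Agent.P.MP_c53d0e_pr.Lower
section

set_option autoImplicit false
set_option linter.unusedSectionVars false

namespace Pool.Agent.SemiRandom

open Finset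

variable {k : ℕ}

lemma Ex_le {α β : Type} [Fintype α] [Fintype β] [Nonempty α] (S : Strategy α β) (t : ℕ)
    (h : List (α × β)) {f g : List (α × β) → ℝ} (H : ∀ l, f l ≤ g l) : Ex S t h f ≤ Ex S t h g :=
  Ex_mono S t h f g fun _ _ => H _

def GoodT (E : Finset (Finset (Fin k))) (δ : ℝ) (P : Finset (Finset (Fin k)))
    (u : Finset (Fin k) → Finset (Fin k)) (g : Finset (Fin k)) : Prop :=
  ∀ R, clo P u g ⊆ R →
    (g.card + (k - R.card : ℕ) + 1 : ℝ) ≤ δ * (#{e ∈ P | ¬ u e ⊆ R} + #(E \ P))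

/-- Every time order of the edges and choice of random parts has a bottleneck. -/
def Bottleneck (E : Finset (Finset (Fin k))) (r : ℕ) (δ : ℝ) : Prop :=
  ∀ (j : Finset (Fin k) → ℕ) (u : Finset (Fin k) → Finset (Fin k)), Set.InjOn j E →
    (∀ e ∈ E, u e ⊆ e ∧ (u e).card = r) → ∃ θ g, GoodT E δ {e ∈ E | j e < θ} u g

open Classical in
lemma triple_bound {α β : Type} [Fintype α] [Fintype β] [Nonempty α] (S : Strategy α β) {n : ℕ}
    (ι : α → Finset (Fin n)) (hι : Function.Injective ι) (ed : α × β → Multiset (Fin n))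
    (hn : 0 < n) {r s C : ℕ} (hed : ∀ x, (ed x).card ≤ s) (hs : 1 ≤ s) (hC1 : 1 ≤ C)
    (hα : Fintype.card α ≤ n ^ r) {δ : ℝ} (hδ : 0 < δ) (hC : (r + k + 1 : ℝ) ≤ δ * (C + 1))
    (T : ℕ) (hT : (T : ℝ) / Fintype.card α ≤ (n : ℝ) ^ (-δ))
    {E P : Finset (Finset (Fin k))} {u : Finset (Fin k) → Finset (Fin k)} {g : Finset (Fin k)}
    (hg : GoodT E δ P u g) :
    ((n : ℝ) ^ (-δ)) ^ #(E \ P) *
      Ex S T [] (fun l => (#{φ : Fin k → Fin n | Comp ι ed P u φ l} : ℝ)) ≤
      ((C * s : ℝ) ^ k * (2 ^ k * (k + k * (4 * k + 2) + 1 : ℕ) ^ k) + 2) / √n := by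
  set p : ℝ := (n : ℝ) ^ (-δ) with hp
  have hn1 : (1 : ℝ) ≤ n := by exact_mod_cast hn
  have hn0 : (0 : ℝ) < n := by linarith
  have hp0 : 0 < p := Real.rpow_pos_of_pos hn0 _
  have hp1 : p ≤ 1 := Real.rpow_le_one_of_one_le_of_nonpos hn1 (by linarith)
  have pw : ∀ a b : ℕ, (a + 1 : ℝ) ≤ δ * b → (n : ℝ) ^ a * p ^ b ≤ 1 / n := by
    intro a b hab
    rw [hp, ← Real.rpow_natCast, ← Real.rpow_natCast, ← Real.rpow_mul hn0.le,
      ← Real.rpow_add hn0, one_div, ← Real.rpow_neg_one]
    exact Real.rpow_le_rpow_of_exponent_le hn1 (by linarith)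
  set B := k + k * (4 * k + 2) + 1 with hB
  set M0 := 1 / (n * n ^ g.card * p ^ #(E \ P)) with hM0
  have hM00 : 0 < M0 := by positivity
  set M := (2 : ℝ) ^ k * B ^ k * M0 with hM
  have hMp : 0 < M := by positivity
  have hsq : 0 < √(n : ℝ) := Real.sqrt_pos.2 hn0
  have hsq2 : √(n : ℝ) ^ 2 = n := Real.sq_sqrt hn0.le
  have hsq3 : 1 / (n : ℝ) ≤ 1 / √n := by
    refine one_div_le_one_div_of_le hsq ?_
    have : 1 ≤ √(n : ℝ) := Real.one_le_sqrt.2 hn1
    nlinarith
  set Y := √(n : ℝ) * M with hY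
  have hY0 : 0 < Y := by positivity
  have hMR : ∀ R, clo P u g ⊆ R → (n : ℝ) ^ (k - R.card) * p ^ #{e ∈ P | ¬ u e ⊆ R} ≤ M0 := by
    intro R hR
    have := pw (g.card + (k - R.card)) (#{e ∈ P | ¬ u e ⊆ R} + #(E \ P))
      (by push_cast; exact hg R hR)
    rw [hM0, le_div_iff₀ (by positivity)]
    rw [le_div_iff₀ hn0, pow_add, pow_add] at this
    linarith
  have pt : ∀ l : List (α × β), (#{φ : Fin k → Fin n | Comp ι ed P u φ l} : ℝ) ≤
      n ^ g.card * (C * s) ^ k * Y + n ^ k *
        (∑ U : α, (if Multiset.replicate (C + 1) (ι U) ≤ draws ι l then 1 else 0) +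
         ∑ ρ : Fin k → Fin n, (1 / Y ^ (4 * k + 2)) *
          ((if 0 ≤ draws ι l then 1 else 0) *
            (#(Ext ι P u (clo P u g) ρ l) : ℝ) ^ (4 * k + 2))) := by
    intro l
    have triv : (#{φ : Fin k → Fin n | Comp ι ed P u φ l} : ℝ) ≤ n ^ k := by
      have := card_le_univ ({φ : Fin k → Fin n | Comp ι ed P u φ l} : Finset _)
      rw [Fintype.card_fun, Fintype.card_fin, Fintype.card_fin] at this
      exact_mod_cast this
    have n1 : 0 ≤ ∑ U : α, (if Multiset.replicate (C + 1) (ι U) ≤ draws ι l then (1 : ℝ) else 0) :=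
      sum_nonneg fun _ _ => by positivity
    have n2 : 0 ≤ ∑ ρ : Fin k → Fin n, (1 / Y ^ (4 * k + 2)) * ((if 0 ≤ draws ι l then 1 else 0) *
        (#(Ext ι P u (clo P u g) ρ l) : ℝ) ^ (4 * k + 2)) := sum_nonneg fun _ _ => by positivity
    have n3 : (0 : ℝ) ≤ n ^ g.card * (C * s) ^ k * Y := by positivity
    have n4 : (0 : ℝ) ≤ n ^ k := by positivity
    by_cases h1 : ∀ y, (draws ι l).count y ≤ C
    · by_cases h2 : ∀ ρ, (#(Ext ι P u (clo P u g) ρ l) : ℝ) ≤ Y
      · have := count_comp ι ed hn hed hs hC1 P u g l h1 h2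
        nlinarith
      · push Not at h2
        obtain ⟨ρ, hρ⟩ := h2
        have a : (1 : ℝ) ≤ (1 / Y ^ (4 * k + 2)) * ((if 0 ≤ draws ι l then 1 else 0) *
            (#(Ext ι P u (clo P u g) ρ l) : ℝ) ^ (4 * k + 2)) := by
          rw [if_pos (Multiset.zero_le _), one_mul, one_div, ← div_eq_inv_mul,
            one_le_div (by positivity)]
          exact pow_le_pow_left₀ hY0.le hρ.le _
        have b := a.trans (single_le_sum (f := fun ρ : Fin k → Fin n => (1 / Y ^ (4 * k + 2)) *
          ((if 0 ≤ draws ι l then 1 else 0) * (#(Ext ι P u (clo P u g) ρ l) : ℝ) ^ (4 * k + 2)))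
          (fun _ _ => by positivity) (mem_univ ρ))
        nlinarith
    · push Not at h1
      obtain ⟨y, hy⟩ := h1
      have hm : y ∈ draws ι l := Multiset.count_pos.1 (by omega)
      obtain ⟨z, -, rfl⟩ := List.mem_map.1 (Multiset.mem_coe.1 hm)
      have b := single_le_sum (f := fun U : α =>
        (if Multiset.replicate (C + 1) (ι U) ≤ draws ι l then (1 : ℝ) else 0))
        (fun _ _ => by positivity) (mem_univ z.1)
      rw [if_pos (Multiset.le_count_iff_replicate_le.1 hy)] at b
      nlinarith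
  have e1 : ∑ U : α, Ex S T [] (fun l =>
      if Multiset.replicate (C + 1) (ι U) ≤ draws ι l then (1 : ℝ) else 0) ≤ n ^ r * p ^ (C + 1) := by
    refine (sum_le_sum fun U _ => (hit S ι hι T [] _).trans
      (pow_le_pow_left₀ (by positivity) hT _)).trans ?_
    simp only [Multiset.card_replicate, sum_const, card_univ, nsmul_eq_mul]
    exact mul_le_mul_of_nonneg_right (by exact_mod_cast hα) (by positivity)
  have e2 : ∑ ρ : Fin k → Fin n, Ex S T [] (fun l => (1 / Y ^ (4 * k + 2)) *
      ((if 0 ≤ draws ι l then 1 else 0) * (#(Ext ι P u (clo P u g) ρ l) : ℝ) ^ (4 * k + 2))) ≤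
      n ^ k * (1 / n ^ (2 * k + 1)) := by
    refine (sum_le_sum (g := fun _ => 1 / (n : ℝ) ^ (2 * k + 1)) fun ρ _ => ?_).trans (by simp)
    rw [Ex_mul]
    have := moment S ι hι T P u (clo P u g) ρ hT hM00.le (B := B) (by omega) hMR (4 * k + 2)
      (univ.image ρ) 0 (by
        have h2 : #(univ.image ρ) ≤ k := by simpa using card_image_le (s := univ) (f := ρ)
        omega) (fun x _ => mem_image_of_mem ρ (mem_univ x)) (by simp)
    refine (mul_le_mul_of_nonneg_left this (by positivity)).trans (le_of_eq ?_)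
    rw [Multiset.card_zero, pow_zero, one_mul, ← hM, hY, mul_pow,
      show 4 * k + 2 = 2 * (2 * k + 1) by ring, pow_mul √(n : ℝ), hsq2]
    field_simp
  have main := Ex_le S T [] pt
  rw [Ex_add, Ex_const, Ex_mul, Ex_add, Ex_sum, Ex_sum] at main
  have f1 : (n : ℝ) ^ k * (n ^ r * p ^ (C + 1)) ≤ 1 / √n := by
    have := pw (r + k) (C + 1) (by push_cast; exact hC)
    rw [pow_add] at this
    linarith
  have f2 : (n : ℝ) ^ k * (n ^ k * (1 / n ^ (2 * k + 1))) ≤ 1 / √n := by
    refine le_trans (le_of_eq ?_) hsq3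
    field_simp; ring
  have f3 : p ^ #(E \ P) * (n ^ g.card * (C * s) ^ k * Y) =
      (C * s : ℝ) ^ k * (2 ^ k * B ^ k) / √n := by
    rw [hY, hM, hM0]
    field_simp
    rw [hsq2, mul_comm]
  have hq : p ^ #(E \ P) ≤ 1 := pow_le_one₀ hp0.le hp1
  have hq0 : 0 ≤ p ^ #(E \ P) := by positivity
  have g1 := mul_le_mul_of_nonneg_left (add_le_add e1 e2) (show (0 : ℝ) ≤ n ^ k by positivity)
  have g2 := mul_le_mul_of_nonneg_left (main.trans (add_le_add le_rfl g1)) hq0
  have g3 : (n : ℝ) ^ k * (n ^ r * p ^ (C + 1) + n ^ k * (1 / n ^ (2 * k + 1))) ≤ 2 / √n := by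
    rw [mul_add, show (2 : ℝ) / √n = 1 / √n + 1 / √n by ring]; linarith
  have g4 := mul_le_mul hq g3 (by positivity) zero_le_one
  rw [add_div]
  linarith

lemma card_edge {n r s : ℕ} (hrs : r ≤ s) (x : RSet n r × Move n r s) : (edge x).card = s := by
  rw [edge, Multiset.card_add, x.2.2, ← Finset.card_def, x.1.2]; omega

open Classical in
lemma win_split {n r s : ℕ} [Nonempty (RSet n r)] {E : Finset (Finset (Fin k))} {δ : ℝ} (hb : Bottleneck E r δ)
    {l : List (RSet n r × Move n r s)} (h : Contains E l) :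
    ∃ P u g, GoodT E δ P u g ∧ ∃ φ : Fin k → Fin n, ∃ l1 l2, l = [] ++ l1 ++ l2 ∧
      Comp Subtype.val edge P u φ ([] ++ l1) ∧ tgt (E \ P) u φ ≤ draws Subtype.val l2 := by
  obtain ⟨φ, hφ⟩ := h
  have : ∀ e, ∃ j : ℕ, e ∈ E → ∃ hj : j < l.length, edge l[j] = (e.image φ).val := by
    intro e
    by_cases he : e ∈ E
    · obtain ⟨x, hx, h1⟩ := hφ e he
      obtain ⟨j, hj, rfl⟩ := List.mem_iff_getElem.1 hx
      exact ⟨j, fun _ => ⟨hj, by rw [h1, map_eq_image]⟩⟩
    · exact ⟨0, fun h => absurd h he⟩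
  choose j hj using this
  let u : Finset (Fin k) → Finset (Fin k) := fun e =>
    if he : e ∈ E then {x ∈ e | φ x ∈ (l[j e]'(hj e he).1).1.1} else ∅
  have hu : ∀ e (he : e ∈ E), (l[j e]'(hj e he).1).1.1 = (u e).image φ := by
    intro e he
    ext y
    simp only [u, dif_pos he, mem_image, mem_filter]
    constructor
    · intro hy
      have : y ∈ edge (l[j e]'(hj e he).1) := Multiset.mem_add.2 (Or.inl hy)
      rw [(hj e he).2] at this
      obtain ⟨x, hx, rfl⟩ := mem_image.1 this
      exact ⟨x, ⟨hx, hy⟩, rfl⟩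
    · rintro ⟨x, ⟨-, hx⟩, rfl⟩; exact hx
  obtain ⟨θ, g, hg⟩ := hb j u (fun e he e' he' hh => by
      have h1 := (hj e he).2
      have h2 := (hj e' he').2
      simp only [hh] at h1
      rw [h2] at h1
      exact (image_injective φ.injective (val_injective h1)).symm)
    (fun e he => ⟨by simp only [u, dif_pos he]; exact filter_subset _ _, by
      rw [← card_image_of_injective _ φ.injective, ← hu e he]
      exact (l[j e]'(hj e he).1).1.2⟩)
  refine ⟨_, u, g, hg, φ, l.take θ, l.drop θ, by simp, ⟨φ.injective, fun e he => ?_⟩, ?_⟩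
  · obtain ⟨he, hlt⟩ := mem_filter.1 he
    refine ⟨_, ?_, (hj e he).2, hu e he⟩
    rw [List.nil_append, List.mem_take_iff_getElem]
    exact ⟨j e, lt_min hlt (hj e he).1, rfl⟩
  · refine Comp.tgt_le Subtype.val edge ⟨φ.injective, fun e he => ?_⟩
    obtain ⟨he, hlt⟩ := mem_sdiff.1 he
    have hge : θ ≤ j e := not_lt.1 fun h => hlt (mem_filter.2 ⟨he, h⟩)
    refine ⟨_, ?_, (hj e he).2, hu e he⟩
    rw [List.mem_drop_iff_getElem]
    exact ⟨j e - θ, by have := (hj e he).1; omega, by simp [Nat.add_sub_cancel' hge]⟩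

theorem win_bound {r s : ℕ} (hrs : r < s) {E : Finset (Finset (Fin k))} {δ : ℝ} (hδ : 0 < δ)
    (hb : Bottleneck E r δ) :
    ∃ c : ℝ, ∀ n : ℕ, 0 < n → r ≤ n → ∀ (S : Strategy (RSet n r) (Move n r s)) (T : ℕ),
      (T : ℝ) / n.choose r ≤ (n : ℝ) ^ (-δ) → winProb E S T ≤ c / √n := by
  classical
  obtain ⟨C0, hC0⟩ := exists_nat_ge ((r + k + 1 : ℝ) / δ)
  set C := C0 + 1 with hCdef
  have hC : (r + k + 1 : ℝ) ≤ δ * (C + 1) := by
    rw [div_le_iff₀ hδ] at hC0
    rw [hCdef]; push_cast; nlinarith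
  set c0 : ℝ := (C * s : ℝ) ^ k * (2 ^ k * (k + k * (4 * k + 2) + 1 : ℕ) ^ k) + 2 with hc0
  let Tr := Finset (Finset (Fin k)) × (Finset (Fin k) → Finset (Fin k)) × Finset (Fin k)
  refine ⟨Fintype.card Tr * c0, fun n hn hrn S T hT => ?_⟩
  have hcard : Fintype.card (RSet n r) = n.choose r := by
    rw [Fintype.card_finset_len, Fintype.card_fin]
  have : Nonempty (RSet n r) := Fintype.card_pos_iff.1 (by rw [hcard]; exact Nat.choose_pos hrn)
  rw [← hcard] at hT
  have pt : ∀ l : List (RSet n r × Move n r s), (if Contains E l then (1 : ℝ) else 0) ≤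
      ∑ τ : Tr with GoodT E δ τ.1 τ.2.1 τ.2.2, ∑ φ : Fin k → Fin n,
        if ∃ l1 l2, l = [] ++ l1 ++ l2 ∧ Comp Subtype.val edge τ.1 τ.2.1 φ ([] ++ l1) ∧
          tgt (E \ τ.1) τ.2.1 φ ≤ draws Subtype.val l2 then 1 else 0 := by
    intro l
    split_ifs with h
    · obtain ⟨P, u, g, hg, φ, hφ⟩ := win_split hb h
      refine le_trans ?_ (single_le_sum (fun _ _ => sum_nonneg fun _ _ => by positivity)
        (mem_filter.2 ⟨mem_univ ((P, u, g) : Tr), hg⟩))
      refine le_trans ?_ (single_le_sum (fun _ _ => by positivity) (mem_univ φ))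
      rw [if_pos hφ]
    · exact sum_nonneg fun _ _ => sum_nonneg fun _ _ => by positivity
  refine (Ex_le S T [] pt).trans ?_
  rw [Ex_sum]
  have hc : 0 ≤ c0 / √n := by positivity
  refine (sum_le_sum (g := fun _ => c0 / √n) fun τ hτ => ?_).trans ?_
  · rw [Ex_sum]
    refine le_trans (sum_le_sum fun φ _ => (stop S Subtype.val Subtype.val_injective
      (Comp Subtype.val edge τ.1 τ.2.1 φ) (fun _ l h => h.append _ _ l) _ T []).trans
      (mul_le_mul_of_nonneg_right (pow_le_pow_left₀ (by positivity) hT _)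
        (Ex_nonneg S _ _ _ fun l => by positivity))) ?_
    simp only [card_tgt]
    rw [← mul_sum, ← Ex_sum]
    simp only [sum_boole]
    exact triple_bound S Subtype.val Subtype.val_injective edge hn
      (fun x => (card_edge hrs.le x).le) (by omega) (by omega)
      (by rw [hcard]; exact Nat.choose_le_pow n r) hδ hC T hT (mem_filter.1 hτ).2
  · rw [sum_const, nsmul_eq_mul, mul_div_assoc]
    exact mul_le_mul_of_nonneg_right (by exact_mod_cast card_le_univ _) hc

end Pool.Agent.SemiRandom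
end

-- part Pool.Agent.P.MP_c53d0e_pr.Clique
section

set_option autoImplicit false
set_option linter.unusedSectionVars false

namespace Pool.Agent.SemiRandom

open Finset Filter Topology

variable {k : ℕ}

lemma clo_mono (P : Finset (Finset (Fin k))) (u : Finset (Fin k) → Finset (Fin k))
    {g g' : Finset (Fin k)} (h : g ⊆ g') : clo P u g ⊆ clo P u g' := by
  intro x hx
  simp only [clo, mem_filter, mem_univ, true_and] at hx ⊢
  rcases hx with hx | ⟨e, he, h1, h2⟩
  · exact Or.inl (h hx)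
  · exact Or.inr ⟨e, he, h1.trans h, h2⟩

lemma greedy {r s : ℕ} (hrs : r < s) (hrk : r ≤ k) (hk : 0 < k) {P : Finset (Finset (Fin k))}
    {u : Finset (Fin k) → Finset (Fin k)} (hP : ∀ e ∈ P, e.card = s ∧ u e ⊆ e ∧ (u e).card = r)
    {η : ℝ} (hη : 0 ≤ η) (hη1 : η ≤ 1) {H : Finset (Fin k)}
    (hH : ∀ x ∈ H, η * (k : ℝ) ^ (s - 1) ≤ #{e ∈ P | x ∈ e ∧ x ∉ u e}) (M : ℕ) :
    ∃ g : Finset (Fin k), g.card ≤ r * M ∧ (#(H \ clo P u g) : ℝ) ≤ (1 - η) ^ M * k := by
  classical
  set 𝒮 : Finset (Finset (Fin k)) := univ.powersetCard r with h𝒮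
  have c𝒮 : 𝒮.card = k.choose r := by simp [h𝒮]
  have cov : ∀ x ∈ H, η * 𝒮.card ≤ #{U ∈ 𝒮 | ∃ e ∈ P, u e = U ∧ x ∈ e} := by
    intro x hx
    have h1 : #{e ∈ P | x ∈ e ∧ x ∉ u e} ≤
        k ^ (s - r - 1) * #{U ∈ 𝒮 | ∃ e ∈ P, u e = U ∧ x ∈ e} := by
      refine card_le_mul_card_image_of_maps_to (f := u) (fun e he => ?_) _ fun U _ => ?_
      · obtain ⟨h1, h2, -⟩ := mem_filter.1 he
        exact mem_filter.2 ⟨mem_powersetCard.2 ⟨subset_univ _, (hP e h1).2.2⟩, e, h1, rfl, h2⟩
      · refine le_trans (card_le_card_of_injOn (t := univ.powersetCard (s - r - 1))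
          (fun e => (e \ U).erase x) (fun e he => ?_) fun e he e' he' hh => ?_) ?_
        · simp only [coe_filter, mem_filter, Set.mem_ofPred_eq] at he
          obtain ⟨⟨h1, h2, h3⟩, rfl⟩ := he
          obtain ⟨a, b, c⟩ := hP e h1
          simp only [mem_coe, mem_powersetCard, subset_univ, true_and]
          rw [card_erase_of_mem (mem_sdiff.2 ⟨h2, h3⟩), card_sdiff_of_subset b, a, c]
        · simp only [coe_filter, mem_filter, Set.mem_ofPred_eq] at he he'
          obtain ⟨⟨h1, h2, h3⟩, h4⟩ := he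
          obtain ⟨⟨h1', h2', h3'⟩, h4'⟩ := he'
          have a := insert_erase (mem_sdiff.2 ⟨h2, h4 ▸ h3⟩ : x ∈ e \ U)
          have a' := insert_erase (mem_sdiff.2 ⟨h2', h4' ▸ h3'⟩ : x ∈ e' \ U)
          dsimp only at hh
          rw [hh, a'] at a
          rw [← sdiff_union_of_subset (h4 ▸ (hP e h1).2.1 : U ⊆ e), ← a,
            sdiff_union_of_subset (h4' ▸ (hP e' h1').2.1 : U ⊆ e')]
        · simp only [card_powersetCard, card_univ, Fintype.card_fin]
          exact Nat.choose_le_pow _ _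
    have h2 : (#{e ∈ P | x ∈ e ∧ x ∉ u e} : ℝ) ≤
        k ^ (s - r - 1) * #{U ∈ 𝒮 | ∃ e ∈ P, u e = U ∧ x ∈ e} := by exact_mod_cast h1
    have h3 := (hH x hx).trans h2
    have h4 : (k : ℝ) ^ (s - 1) = k ^ (s - r - 1) * k ^ r := by
      rw [← pow_add]; congr 1; omega
    have h5 : (0 : ℝ) < k ^ (s - r - 1) := by positivity
    rw [h4, mul_left_comm] at h3
    have h6 := le_of_mul_le_mul_left h3 h5
    have h7 : (𝒮.card : ℝ) ≤ k ^ r := by rw [c𝒮]; exact_mod_cast Nat.choose_le_pow k r
    exact (mul_le_mul_of_nonneg_left h7 hη).trans h6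
  have one : ∀ H' ⊆ H, ∃ U ∈ 𝒮, η * H'.card ≤ #{x ∈ H' | ∃ e ∈ P, u e = U ∧ x ∈ e} := by
    intro H' hH'
    refine exists_le_of_sum_le (card_pos.1 (by rw [c𝒮]; exact Nat.choose_pos hrk)) ?_
    have : ∑ U ∈ 𝒮, (#{x ∈ H' | ∃ e ∈ P, u e = U ∧ x ∈ e} : ℝ) =
        ∑ x ∈ H', (#{U ∈ 𝒮 | ∃ e ∈ P, u e = U ∧ x ∈ e} : ℝ) := by
      simp only [card_filter, Nat.cast_sum]
      exact sum_comm
    rw [this]
    refine le_trans (le_of_eq ?_) (sum_le_sum fun x hx => cov x (hH' hx))
    simp only [sum_const, nsmul_eq_mul]; ring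
  induction M with
  | zero =>
    refine ⟨∅, by simp, ?_⟩
    have := card_le_univ (H \ clo P u ∅)
    rw [Fintype.card_fin] at this
    simpa using this
  | succ M ih =>
    obtain ⟨g, hg, hc⟩ := ih
    obtain ⟨U, hU, h1⟩ := one (H \ clo P u g) sdiff_subset
    refine ⟨g ∪ U, ?_, ?_⟩
    · have := card_union_le g U
      rw [(mem_powersetCard.1 hU).2] at this
      rw [mul_add]; omega
    · have h2 : #(H \ clo P u (g ∪ U)) + #{x ∈ H \ clo P u g | ∃ e ∈ P, u e = U ∧ x ∈ e} ≤
          #(H \ clo P u g) := by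
        rw [← card_union_of_disjoint]
        · exact card_le_card (union_subset
            (sdiff_subset_sdiff Subset.rfl (clo_mono P u subset_union_left)) (filter_subset _ _))
        · rw [disjoint_left]
          intro x hx hx'
          obtain ⟨e, he, h3, h4⟩ := (mem_filter.1 hx').2
          exact (mem_sdiff.1 hx).2 (mem_filter.2 ⟨mem_univ _,
            Or.inr ⟨e, he, h3 ▸ subset_union_right, h4⟩⟩)
      have h3 : (#(H \ clo P u (g ∪ U)) : ℝ) + #{x ∈ H \ clo P u g | ∃ e ∈ P, u e = U ∧ x ∈ e} ≤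
          #(H \ clo P u g) := by exact_mod_cast h2
      have h4 := mul_le_mul_of_nonneg_left hc (sub_nonneg.2 hη1)
      rw [pow_succ]
      nlinarith

lemma count_F {s : ℕ} (hs : 1 ≤ s) {L L' : Finset (Fin k)} (h : L' ⊆ L) :
    L'.card * (k - L.card).choose (s - 1) ≤ #{e ∈ clique k s | ¬ Disjoint e L'} := by
  have : L'.card * (k - L.card).choose (s - 1) = #(L' ×ˢ Lᶜ.powersetCard (s - 1)) := by
    simp [card_compl]
  rw [this]
  have nm : ∀ p ∈ L' ×ˢ Lᶜ.powersetCard (s - 1), ∀ z ∈ L, z ∉ p.2 := fun p hp z hz hz' =>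
    mem_compl.1 ((mem_powersetCard.1 (mem_product.1 hp).2).1 hz') hz
  refine card_le_card_of_injOn (fun p => insert p.1 p.2) (fun p hp => ?_) fun p hp q hq hh => ?_
  · have hp' := mem_product.1 hp
    simp only [coe_filter, clique, mem_powersetCard, subset_univ, true_and, Set.mem_ofPred_eq]
    refine ⟨?_, not_disjoint_iff.2 ⟨p.1, mem_insert_self _ _, hp'.1⟩⟩
    rw [card_insert_of_notMem (nm p hp _ (h hp'.1)), (mem_powersetCard.1 hp'.2).2]; omega
  · dsimp only at hh
    have hp' := mem_product.1 hp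
    have hq' := mem_product.1 hq
    have e1 : p.1 = q.1 := by
      have : p.1 ∈ insert q.1 q.2 := hh ▸ mem_insert_self _ _
      exact (mem_insert.1 this).resolve_right (nm q hq _ (h hp'.1))
    refine Prod.ext e1 ?_
    rw [← erase_insert (nm p hp _ (h hp'.1)), hh, e1, erase_insert (nm q hq _ (h hq'.1))]

lemma bottleneck_of {r s l0 M : ℕ} (hrs : r < s) (hrk : r ≤ k) (hk : 0 < k) (hl : l0 ≤ k)
    {η δ : ℝ} (hη : 0 < η) (hη1 : η ≤ 1) (hδ : 0 ≤ δ)
    (hb : l0 * (η * (k : ℝ) ^ (s - 1)) < l0.choose s)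
    (hc : ∀ l' ≤ l0, r * M + (1 - η) ^ M * k + l' + 1 ≤
      δ * (l' * (k - l0).choose (s - 1) + (l0 - l').choose s - l0 * (η * (k : ℝ) ^ (s - 1) + 1))) :
    Bottleneck (clique k s) r δ := by
  classical
  intro j u hj hu
  set E := clique k s with hE
  have hEs : ∀ e ∈ E, e.card = s := fun e he => (mem_powersetCard.1 he).2
  let D : ℕ → Fin k → Finset (Finset (Fin k)) := fun θ x =>
    {e ∈ ({e ∈ E | j e < θ} : Finset _) | x ∈ e ∧ x ∉ u e}
  let Lt : ℕ → Finset (Fin k) := fun θ => {x | (#(D θ x) : ℝ) < η * (k : ℝ) ^ (s - 1)}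
  have out : ∀ e ∈ E, ∃ x ∈ e, x ∉ u e := fun e he =>
    exists_mem_notMem_of_card_lt_card (by rw [(hu e he).2, hEs e he]; exact hrs)
  have hex : ∃ θ, #(Lt θ) < l0 := by
    refine ⟨E.sup j + 1, ?_⟩
    by_contra hcon
    obtain ⟨L, hL, hcard⟩ := exists_subset_card_eq (not_lt.1 hcon)
    have h1 : L.powersetCard s ⊆ L.biUnion (D (E.sup j + 1)) := by
      intro e he
      obtain ⟨h1, h2⟩ := mem_powersetCard.1 he
      have heE : e ∈ E := mem_powersetCard.2 ⟨subset_univ _, h2⟩
      obtain ⟨x, hx, hx'⟩ := out e heE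
      exact mem_biUnion.2 ⟨x, h1 hx, mem_filter.2
        ⟨mem_filter.2 ⟨heE, Nat.lt_succ_of_le (le_sup heE)⟩, hx, hx'⟩⟩
    have h2 := (card_le_card h1).trans card_biUnion_le
    rw [card_powersetCard, hcard] at h2
    have h3 : (l0.choose s : ℝ) ≤ ∑ x ∈ L, (#(D (E.sup j + 1) x) : ℝ) := by exact_mod_cast h2
    have h4 := sum_le_sum fun x (hx : x ∈ L) => (mem_filter.1 (hL hx)).2.le
    rw [sum_const, hcard, nsmul_eq_mul] at h4
    linarith
  have h0 : ¬ #(Lt 0) < l0 := by
    have : Lt 0 = univ := by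
      ext x
      simp only [Lt, D, Nat.not_lt_zero, filter_false, filter_empty, card_empty, mem_filter,
        mem_univ, true_and, iff_true, Nat.cast_zero]
      positivity
    rw [this, card_univ, Fintype.card_fin]; omega
  obtain ⟨θ, hθ⟩ : ∃ θ, Nat.find hex = θ + 1 := Nat.exists_eq_succ_of_ne_zero fun h =>
    h0 (h ▸ Nat.find_spec hex)
  have a1 : #(Lt (θ + 1)) < l0 := hθ ▸ Nat.find_spec hex
  have a2 : l0 ≤ #(Lt θ) := not_lt.1 (Nat.find_min hex (by omega))
  have Dm : ∀ x, D θ x ⊆ D (θ + 1) x := fun x =>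
    filter_subset_filter _ (monotone_filter_right _ fun e _ h => Nat.lt_succ_of_lt h)
  have a3 : Lt (θ + 1) ⊆ Lt θ := fun x hx => mem_filter.2 ⟨mem_univ _,
    lt_of_le_of_lt (by exact_mod_cast card_le_card (Dm x)) (mem_filter.1 hx).2⟩
  obtain ⟨L, hL1, hL2, hLc⟩ := exists_subsuperset_card_eq a3 a1.le a2
  have D1 : ∀ x, #(D (θ + 1) x) ≤ #(D θ x) + 1 := by
    intro x
    have h1 : D (θ + 1) x ⊆ D θ x ∪ {e ∈ E | j e = θ} := by
      intro e he
      obtain ⟨h1, h2⟩ := mem_filter.1 he
      obtain ⟨h3, h4⟩ := mem_filter.1 h1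
      rcases Nat.lt_succ_iff_lt_or_eq.1 h4 with h | h
      · exact mem_union_left _ (mem_filter.2 ⟨mem_filter.2 ⟨h3, h⟩, h2⟩)
      · exact mem_union_right _ (mem_filter.2 ⟨h3, h⟩)
    have h2 : #{e ∈ E | j e = θ} ≤ 1 := card_le_one.2 fun a ha b hb =>
      hj (mem_filter.1 ha).1 (mem_filter.1 hb).1
        ((mem_filter.1 ha).2.trans (mem_filter.1 hb).2.symm)
    have := (card_le_card h1).trans (card_union_le _ _)
    omega
  set P : Finset (Finset (Fin k)) := {e ∈ E | j e < θ + 1} with hP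
  obtain ⟨g0, hg0, hg1⟩ := greedy hrs hrk hk (P := P) (u := u)
    (fun e he => ⟨hEs e (mem_filter.1 he).1, hu e (mem_filter.1 he).1⟩) hη.le hη1 (H := Lᶜ)
    (fun x hx => not_lt.1 fun h => mem_compl.1 hx (hL1 (mem_filter.2 ⟨mem_univ _, h⟩))) M
  refine ⟨θ + 1, g0 ∪ (Lᶜ \ clo P u g0), fun R hR => ?_⟩
  have hR' : Rᶜ ⊆ L := by
    rw [← compl_compl L, compl_subset_compl]
    refine Subset.trans (fun x hx => ?_) hR
    by_cases h : x ∈ clo P u g0
    · exact clo_mono P u subset_union_left h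
    · exact mem_filter.2 ⟨mem_univ _, Or.inl (mem_union_right _ (mem_sdiff.2 ⟨hx, h⟩))⟩
  have cR : #Rᶜ = k - #R := by rw [card_compl, Fintype.card_fin]
  have b1 := count_F (by omega : 1 ≤ s) hR'
  have b2 : {e ∈ E | ¬ Disjoint e Rᶜ} ∪ (L \ Rᶜ).powersetCard s ⊆
      ({e ∈ P | ¬ u e ⊆ R} ∪ (E \ P)) ∪ L.biUnion (D (θ + 1)) := by
    intro e he
    have heE : e ∈ E := by
      rcases mem_union.1 he with h | h
      · exact (mem_filter.1 h).1
      · exact mem_powersetCard.2 ⟨subset_univ _, (mem_powersetCard.1 h).2⟩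
    by_cases h1 : e ∈ P
    · by_cases h2 : u e ⊆ R
      · refine mem_union_right _ (mem_biUnion.2 ?_)
        rcases mem_union.1 he with h | h
        · obtain ⟨x, hx, hx'⟩ := not_disjoint_iff.1 (mem_filter.1 h).2
          exact ⟨x, hR' hx', mem_filter.2 ⟨h1, hx, fun hh => mem_compl.1 hx' (h2 hh)⟩⟩
        · obtain ⟨x, hx, hx'⟩ := out e heE
          exact ⟨x, (mem_sdiff.1 ((mem_powersetCard.1 h).1 hx)).1, mem_filter.2 ⟨h1, hx, hx'⟩⟩
      · exact mem_union_left _ (mem_union_left _ (mem_filter.2 ⟨h1, h2⟩))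
    · exact mem_union_left _ (mem_union_right _ (mem_sdiff.2 ⟨heE, h1⟩))
  have b3 : Disjoint {e ∈ E | ¬ Disjoint e Rᶜ} ((L \ Rᶜ).powersetCard s) := by
    rw [disjoint_left]
    intro e h1 h2
    exact (mem_filter.1 h1).2 (disjoint_of_subset_left (mem_powersetCard.1 h2).1 sdiff_disjoint)
  have b4 := (card_le_card b2).trans ((card_union_le _ _).trans
    (add_le_add (card_union_le _ _) card_biUnion_le))
  rw [card_union_of_disjoint b3, card_powersetCard, card_sdiff_of_subset hR', hLc] at b4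
  rw [hLc] at b1
  have b5 : (#Rᶜ * (k - l0).choose (s - 1) + (l0 - #Rᶜ).choose s : ℝ) ≤
      #{e ∈ P | ¬ u e ⊆ R} + #(E \ P) + ∑ x ∈ L, (#(D (θ + 1) x) : ℝ) := by
    exact_mod_cast (add_le_add_left b1 _).trans b4
  have b6 : ∑ x ∈ L, (#(D (θ + 1) x) : ℝ) ≤ l0 * (η * (k : ℝ) ^ (s - 1) + 1) := by
    rw [← hLc, ← nsmul_eq_mul, ← sum_const]
    refine sum_le_sum fun x hx => ?_
    have h1 : (#(D (θ + 1) x) : ℝ) ≤ #(D θ x) + 1 := by exact_mod_cast D1 x
    linarith [(mem_filter.1 (hL2 hx)).2]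
  have b7 := hc #Rᶜ (hLc ▸ card_le_card hR')
  have b8 : (#(g0 ∪ (Lᶜ \ clo P u g0)) : ℝ) ≤ r * M + #(Lᶜ \ clo P u g0) := by
    exact_mod_cast (card_union_le _ _).trans (add_le_add_left hg0 _)
  rw [← cR]
  refine le_trans (by linarith) (b7.trans (mul_le_mul_of_nonneg_left (by linarith) hδ))

end Pool.Agent.SemiRandom
end

-- part Pool.Agent.P.MP_c53d0e_pr.Asym
section

set_option autoImplicit false

namespace Pool.Agent.SemiRandom

open Finset Filter Topology

lemma choose_lim {a : ℕ → ℕ} {α : ℝ} (hα : 0 < α)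
    (ha : Tendsto (fun k : ℕ => (a k : ℝ) / k) atTop (𝓝 α)) (m : ℕ) :
    Tendsto (fun k : ℕ => ((a k).choose m : ℝ) / (k : ℝ) ^ m) atTop
      (𝓝 (α ^ m / m.factorial)) := by
  have h1 : Tendsto (fun k : ℕ => (a k : ℝ)) atTop atTop := by
    refine (ha.pos_mul_atTop hα tendsto_natCast_atTop_atTop).congr' ?_
    filter_upwards [eventually_gt_atTop 0] with k hk
    field_simp
  have h2 : Tendsto a atTop atTop := tendsto_natCast_atTop_iff.1 h1
  have h3 := ((isEquivalent_choose m).comp_tendsto h2).div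
    (Asymptotics.IsEquivalent.refl (u := fun k : ℕ => (k : ℝ) ^ m))
  refine h3.symm.tendsto_nhds (((ha.pow m).div_const (m.factorial : ℝ)).congr fun k => ?_)
  simp only [Pi.div_apply, Function.comp, div_pow]
  ring

lemma bottleneck_clique {r s : ℕ} (hrs : r < s) (hs : 2 ≤ s) {ε : ℝ} (hε : 0 < ε) :
    ∀ᶠ k : ℕ in atTop, Bottleneck (clique k s) r ((1 + ε) / (k - 1).choose (s - 1)) := by
  set d := s - 1 with hd
  have hsd : s = d + 1 := by omega
  have hd1 : d ≠ 0 := by omega
  -- choice of `lam`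
  obtain ⟨lam, hl0, hl1, hl2⟩ : ∃ lam : ℝ, 0 < lam ∧ lam < 1 / 2 ∧
      1 + ε / 2 < (1 + ε) * (1 - 2 * lam) ^ d := by
    have c : Continuous fun x : ℝ => (1 + ε) * (1 - 2 * x) ^ d := by fun_prop
    have e1 : ∀ᶠ x in 𝓝 (0 : ℝ), 1 + ε / 2 < (1 + ε) * (1 - 2 * x) ^ d :=
      (c.tendsto 0).eventually (lt_mem_nhds (by simp; linarith))
    have e2 : ∀ᶠ x in 𝓝 (0 : ℝ), x < 1 / 2 := gt_mem_nhds (by norm_num)
    obtain ⟨x, hx1, hx2⟩ := (((e1.and e2).filter_mono nhdsWithin_le_nhds).and
      (self_mem_nhdsWithin (a := (0 : ℝ)) (s := Set.Ioi 0))).exists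
    exact ⟨x, hx2, hx1.2, hx1.1⟩
  have hf : (0 : ℝ) < d.factorial := by exact_mod_cast d.factorial_pos
  have hfs : (0 : ℝ) < s.factorial := by exact_mod_cast s.factorial_pos
  set μ := min (ε * lam / 2) ((1 + ε) * (lam ^ s / s.factorial) / (1 / d.factorial)) with hμ
  have hμ0 : 0 < μ := lt_min (by positivity) (by positivity)
  obtain ⟨η, hη0, hη1, hη2⟩ : ∃ η : ℝ, 0 < η ∧ η ≤ 1 ∧
      (1 + ε) * (2 * lam) * η / (1 / d.factorial) ≤ μ / 3 := by
    set c := (1 + ε) * (2 * lam) / (1 / d.factorial) with hc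
    have hc0 : 0 < c := by positivity
    refine ⟨min 1 (μ / 3 / c), lt_min one_pos (by positivity), min_le_left _ _, ?_⟩
    have := min_le_right 1 (μ / 3 / c)
    rw [le_div_iff₀ hc0] at this
    refine le_trans (le_of_eq ?_) this
    rw [hc]; ring
  obtain ⟨M, hM⟩ := exists_pow_lt_of_lt_one (show 0 < μ / 3 by positivity)
    (show 1 - η < 1 by linarith)
  let h : ℕ → ℕ := fun k => ⌊lam * k⌋₊
  have t0 : Tendsto (fun k : ℕ => 1 / (k : ℝ)) atTop (𝓝 0) := tendsto_one_div_atTop_nhds_zero_nat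
  have t1 : Tendsto (fun k : ℕ => (h k : ℝ) / k) atTop (𝓝 lam) :=
    (tendsto_nat_floor_mul_div_atTop hl0.le).comp tendsto_natCast_atTop_atTop
  have h2k : ∀ k, 2 * h k ≤ k := fun k => by
    have a : (h k : ℝ) ≤ lam * k := Nat.floor_le (by positivity)
    have b : (0 : ℝ) ≤ k := k.cast_nonneg
    have : (2 * h k : ℝ) ≤ k := by nlinarith
    exact_mod_cast this
  have t2 : Tendsto (fun k : ℕ => ((k - 2 * h k : ℕ) : ℝ) / k) atTop (𝓝 (1 - 2 * lam)) := by
    refine ((t1.const_mul 2).const_sub 1).congr' ?_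
    filter_upwards [eventually_gt_atTop 0] with k hk
    rw [Nat.cast_sub (h2k k)]; push_cast; field_simp
  have t3 : Tendsto (fun k : ℕ => ((k - 1 : ℕ) : ℝ) / k) atTop (𝓝 1) := by
    have := t0.const_sub 1
    rw [sub_zero] at this
    refine this.congr' ?_
    filter_upwards [eventually_gt_atTop 0] with k hk
    rw [Nat.cast_sub hk]; push_cast; field_simp
  have c1 := choose_lim one_pos t3 d
  have c2 := choose_lim (by linarith) t2 d
  have c3 := choose_lim hl0 t1 s
  rw [one_pow] at c1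
  have ne1 : (1 : ℝ) / d.factorial ≠ 0 := by positivity
  have t4 : Tendsto (fun k : ℕ => (1 / (k : ℝ)) ^ d) atTop (𝓝 0) := by
    have := t0.pow d
    rwa [zero_pow hd1] at this
  have tX := (((t0.const_mul (r * M : ℝ)).add_const ((1 - η) ^ M)).add t0).add
    ((((t1.const_mul 2).const_mul (1 + ε)).mul (t4.const_add η)).div c1 ne1)
  have tI := (c2.const_mul (1 + ε)).div c1 ne1
  have tII := t1.const_mul (ε / 2)
  have tIII := (c3.const_mul (1 + ε)).div c1 ne1
  have lt1 : r * M * 0 + (1 - η) ^ M + 0 + (1 + ε) * (2 * lam) * (η + 0) / (1 / d.factorial)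
      < μ := by
    simp only [mul_zero, zero_add, add_zero]; linarith
  have eI := tI.eventually (lt_mem_nhds (show 1 + ε / 2 <
      (1 + ε) * ((1 - 2 * lam) ^ d / d.factorial) / (1 / d.factorial) by
    refine hl2.trans_le (le_of_eq ?_); field_simp))
  have eII := tX.eventually_lt tII (lt1.trans_le ((min_le_left _ _).trans (le_of_eq (by ring))))
  have eIII := tX.eventually_lt tIII (lt1.trans_le (min_le_right _ _))
  filter_upwards [eI, eII, eIII, eventually_ge_atTop s] with k eI eII eIII hk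
  have hk0 : (0 : ℝ) < k := by exact_mod_cast (by omega : 0 < k)
  have hC : (0 : ℝ) < (k - 1).choose d := by exact_mod_cast Nat.choose_pos (by omega)
  simp only [Pi.div_apply] at eI eII eIII
  set δ := (1 + ε) / ((k - 1).choose d : ℝ) with hδ
  have hδ0 : 0 < δ := by positivity
  set X := r * M + (1 - η) ^ M * k + 1 + δ * ((2 * h k : ℕ) * (η * (k : ℝ) ^ d + 1)) with hX
  have eX : (r * M : ℝ) * (1 / k) + (1 - η) ^ M + 1 / k + (1 + ε) * (2 * ((h k : ℝ) / k)) *
      (η + (1 / (k : ℝ)) ^ d) / (((k - 1).choose d : ℝ) / (k : ℝ) ^ d) = X / k := by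
    rw [hX, hδ, one_div_pow]; push_cast; field_simp
  rw [eX] at eII eIII
  have fI : 1 + ε / 2 ≤ δ * (k - 2 * h k).choose d := by
    refine eI.le.trans (le_of_eq ?_); rw [hδ]; field_simp
  have fII : X ≤ ε / 2 * h k := by
    rw [← mul_div_assoc, div_lt_div_iff_of_pos_right hk0] at eII
    exact eII.le
  have fIII : X ≤ δ * (h k).choose s := by
    rw [div_lt_iff₀ hk0] at eIII
    refine eIII.le.trans (le_of_eq ?_)
    rw [hδ]
    conv_lhs => rw [hsd, pow_succ, ← hsd]
    field_simp
  have p1 : 0 ≤ (1 - η) ^ M * k := by have : 0 ≤ 1 - η := by linarith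
                                      positivity
  have p2 : (0 : ℝ) ≤ r * M := by positivity
  have mono : ∀ l, h k ≤ l → δ * (h k).choose s ≤ δ * l.choose s := fun l hl =>
    mul_le_mul_of_nonneg_left (by exact_mod_cast Nat.choose_le_choose s hl) hδ0.le
  refine bottleneck_of (l0 := 2 * h k) (M := M) hrs (by omega) (by omega) (h2k k) hη0 hη1 hδ0.le
    ?_ fun l' hl' => ?_
  · refine lt_of_mul_lt_mul_left ?_ hδ0.le
    have a := fIII.trans (mono (2 * h k) (by omega))
    have b : 0 ≤ δ * (2 * h k : ℕ) := by positivity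
    rw [hX] at a
    rw [← hd]
    linarith
  · rw [← hd]
    have a := mul_le_mul_of_nonneg_left fI (l'.cast_nonneg (α := ℝ))
    have b : 0 ≤ δ * (2 * h k - l').choose s := by positivity
    have c : (0 : ℝ) ≤ ε / 2 * l' := by positivity
    rw [hX] at fII fIII
    rcases le_total (h k) l' with hh | hh
    · have : ε / 2 * h k ≤ ε / 2 * l' :=
        mul_le_mul_of_nonneg_left (by exact_mod_cast hh) (by positivity)
      linarith
    · have := mono (2 * h k - l') (by omega)
      linarith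

end Pool.Agent.SemiRandom
end

-- part Pool.Agent.P.MP_c53d0e_pr.Upper
section

set_option autoImplicit false
set_option linter.unusedSectionVars false

namespace Pool.Agent.SemiRandom

open Finset

section generic
variable {α β : Type} [Fintype α] [Fintype β] [Nonempty α] [Nonempty β]

lemma val_nonneg (t : ℕ) (h : List (α × β)) (f : List (α × β) → ℝ) (hf : ∀ l, 0 ≤ f l) :
    0 ≤ val t h f := (val_const_le 0 t h).trans (val_mono t h _ _ fun _ => hf _)

open Classical in
def Reach (T : ℕ) (A B : List (α × β) → Prop) (ε : ℝ) : Prop :=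
  ∀ h, A h → 1 - ε ≤ val T h (fun l => if B l then 1 else 0)

lemma Reach.trans {T T' : ℕ} {A B C : List (α × β) → Prop} {ε ε' : ℝ} (h1 : Reach T A B ε)
    (h2 : Reach T' B C ε') (hε : 0 ≤ ε') : Reach (T + T') A C (ε + ε') := by
  classical
  intro h hA
  rw [val_add]
  have a := h1 h hA
  have b := val_sub_const ε' T h (fun l => if B l then (1 : ℝ) else 0)
  refine le_trans (by linarith) (b.trans (val_mono T h _ _ fun l => ?_))
  split_ifs with hB
  · exact h2 _ hB
  · exact le_trans (by linarith) (val_nonneg _ _ _ fun _ => by positivity)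

lemma Reach.of_imp {A B : List (α × β) → Prop} (T : ℕ) {ε : ℝ} (hε : 0 ≤ ε)
    (H : ∀ h l, A h → B (h ++ l)) : Reach T A B ε := by
  intro h hA
  refine le_trans (by linarith) ((val_const_le 1 T h).trans (val_mono T h _ _ fun l => ?_))
  rw [if_pos (H h l hA)]

lemma Reach.post {T : ℕ} {h : List (α × β)} {B C : List (α × β) → Prop}
    {_ : DecidablePred B} {_ : DecidablePred C} (H : ∀ l, B (h ++ l) → C (h ++ l)) :
    val T h (fun l => if B l then (1 : ℝ) else 0) ≤ val T h (fun l => if C l then 1 else 0) := by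
  refine val_mono T h _ _ fun l => ?_
  split_ifs with a b
  · exact le_rfl
  · exact absurd (H l a) b
  · exact zero_le_one
  · exact le_rfl

open Classical in
lemma phase (N : List (α × β) → ℕ) (hN : ∀ h l, N h ≤ N (h ++ l)) (y : ℕ) {b : ℝ} (hb : 0 < b)
    (hb1 : b ≤ 1)
    (H : ∀ h, N h < y → b * Fintype.card α ≤ #{U | ∃ V, N h < N (h ++ [(U, V)])}) (T : ℕ) :
    ∀ h, 1 - (y - N h : ℕ) / (b * (T + 1)) ≤ val T h (fun l => if y ≤ N l then 1 else 0) := by
  have done : ∀ (T : ℕ) h, y ≤ N h →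
      1 - (y - N h : ℕ) / (b * (T + 1)) ≤ val T h (fun l => if y ≤ N l then 1 else 0) := by
    intro T h hy
    rw [Nat.sub_eq_zero_of_le hy, Nat.cast_zero, zero_div, sub_zero]
    refine (val_const_le 1 T h).trans (val_mono T h _ _ fun l => ?_)
    rw [if_pos (hy.trans (hN h l))]
  induction T with
  | zero =>
    intro h
    rcases le_or_gt y (N h) with hy | hy
    · exact done 0 h hy
    · refine le_trans ?_ (val_nonneg _ _ _ fun _ => by positivity)
      have : (1 : ℝ) ≤ (y - N h : ℕ) := by exact_mod_cast (by omega : 1 ≤ y - N h)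
      rw [sub_nonpos, one_le_div (by positivity)]
      simp only [Nat.cast_zero, zero_add, mul_one]; linarith
  | succ T ih =>
    intro h
    rcases le_or_gt y (N h) with hy | hy
    · exact done _ h hy
    set j : ℝ := ((y - N h : ℕ) : ℝ) with hj
    have hD : 0 < b * (T + 1) := by positivity
    by_cases hbig : b * ((T + 1 : ℕ) + 1) ≤ j
    · refine le_trans ?_ (val_nonneg _ _ _ fun _ => by positivity)
      rw [sub_nonpos, one_le_div (by positivity)]
      exact hbig
    simp only [val]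
    have hA : (0 : ℝ) < Fintype.card α := card_pos'
    have step : ∀ U, 1 - j / (b * (T + 1)) + (if ∃ V, N h < N (h ++ [(U, V)]) then
        1 / (b * (T + 1)) else 0) ≤ univ.sup' univ_nonempty fun V =>
          val T (h ++ [(U, V)]) (fun l => if y ≤ N l then 1 else 0) := by
      intro U
      split_ifs with hU
      · obtain ⟨V, hV⟩ := hU
        refine le_trans (le_trans ?_ (ih (h ++ [(U, V)]))) (le_sup' (fun V =>
          val T (h ++ [(U, V)]) (fun l => if y ≤ N l then 1 else 0)) (mem_univ V))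
        have : ((y - N (h ++ [(U, V)]) : ℕ) : ℝ) + 1 ≤ j := by
          rw [hj]; exact_mod_cast (by omega : y - N (h ++ [(U, V)]) + 1 ≤ y - N h)
        have := div_le_div_of_nonneg_right this hD.le
        rw [add_div] at this
        linarith
      · obtain ⟨V⟩ := ‹Nonempty β›
        refine le_trans (le_trans ?_ (ih (h ++ [(U, V)]))) (le_sup' (fun V =>
          val T (h ++ [(U, V)]) (fun l => if y ≤ N l then 1 else 0)) (mem_univ V))
        have : ((y - N (h ++ [(U, V)]) : ℕ) : ℝ) ≤ j := by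
          rw [hj]; exact_mod_cast Nat.sub_le_sub_left (hN h _) y
        have := div_le_div_of_nonneg_right this hD.le
        linarith
    rw [le_div_iff₀ hA]
    refine le_trans ?_ (sum_le_sum fun U _ => step U)
    rw [sum_add_distrib, sum_const, card_univ, nsmul_eq_mul, ← sum_filter, sum_const, nsmul_eq_mul]
    have a := mul_le_mul_of_nonneg_right (H h hy) (show 0 ≤ 1 / (b * (T + 1)) by positivity)
    have c : 1 - j / (b * ((T + 1 : ℕ) + 1)) ≤ 1 - j / (b * (T + 1)) + b * (1 / (b * (T + 1))) := by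
      push_cast at hbig ⊢
      have : (j - b) / (b * (T + 1)) ≤ j / (b * (T + 1 + 1)) := by
        rw [div_le_div_iff₀ hD (by positivity)]
        nlinarith
      rw [sub_div] at this
      rw [mul_one_div]
      linarith
    nlinarith

end generic

variable {n r s : ℕ} [Nonempty (RSet n r)] [Nonempty (Move n r s)]

def HasEdge (h : List (RSet n r × Move n r s)) (e : Finset (Fin n)) : Prop :=
  ∃ x ∈ h, edge x = e.val

lemma HasEdge.append {h : List (RSet n r × Move n r s)} {e : Finset (Fin n)} (H : HasEdge h e)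
    (l : List (RSet n r × Move n r s)) : HasEdge (h ++ l) e :=
  H.imp fun _ hx => ⟨List.mem_append_left _ hx.1, hx.2⟩

def Cl (A : Finset (Fin n)) (h : List (RSet n r × Move n r s)) : Prop :=
  ∀ e ⊆ A, e.card = s → HasEdge h e

def Star (A : Finset (Fin n)) (F : Finset (Finset (Fin n))) (y : ℕ)
    (h : List (RSet n r × Move n r s)) : Prop :=
  Cl A h ∧ ∃ Z : Finset (Fin n), Disjoint Z A ∧ y ≤ Z.card ∧
    ∀ z ∈ Z, ∀ f ∈ F, HasEdge h (insert z f)

lemma star_step (hr : 1 ≤ r) (hrs : r < s) {A : Finset (Fin n)} {F : Finset (Finset (Fin n))}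
    {f : Finset (Fin n)} (hfA : f ⊆ A) (hf : f.card = s - 1) {y m T : ℕ} (hy : 0 < y) (hm : 2 ≤ m)
    {ε : ℝ} (hT : 2 * (Fintype.card (RSet n r) : ℝ) ≤ ε * (m * (T + 1))) :
    Reach T (Star (r := r) (s := s) A F (y * m)) (Star A (insert f F) y) ε := by
  classical
  rintro h ⟨hA, Z, hZA, hZ, hZF⟩
  obtain ⟨a, haf, ha⟩ := exists_subset_card_eq (show r - 1 ≤ f.card by omega)
  have nz : ∀ z ∈ Z, z ∉ a := fun z hz hza => disjoint_left.1 hZA hz (hfA (haf hza))
  let U : Z → RSet n r := fun z => ⟨insert z.1 a, by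
    rw [card_insert_of_notMem (nz z.1 z.2), ha]; omega⟩
  have Uinj : Function.Injective U := fun z z' hh => by
    have h1 : insert z.1 a = insert z'.1 a := congrArg Subtype.val hh
    have h2 : z.1 ∈ insert z'.1 a := h1 ▸ mem_insert_self _ _
    exact Subtype.ext ((mem_insert.1 h2).resolve_right (nz _ z.2))
  let V : Move n r s := ⟨(f \ a).val, by
    rw [← Finset.card_def, card_sdiff_of_subset haf, hf, ha]; omega⟩
  have ed : ∀ z : Z, edge (U z, V) = (insert z.1 f).val := by
    intro z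
    have hzf : z.1 ∉ f := fun hh => disjoint_left.1 hZA z.2 (hfA hh)
    simp only [edge, U, V]
    rw [insert_val_of_notMem (nz z.1 z.2), insert_val_of_notMem hzf, Multiset.cons_add, sdiff_val,
      add_tsub_cancel_of_le (val_le_iff.2 haf)]
  let N : List (RSet n r × Move n r s) → ℕ := fun l => #{z ∈ Z | HasEdge l (insert z f)}
  have hN : ∀ h l, N h ≤ N (h ++ l) := fun h l =>
    card_le_card (monotone_filter_right _ fun z _ hz => hz.append l)
  have hc : (0 : ℝ) < Fintype.card (RSet n r) := card_pos'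
  have hZc : Z.card ≤ Fintype.card (RSet n r) := by
    simpa using Fintype.card_le_of_injective U Uinj
  have hym : (y * m : ℝ) ≤ Z.card := by exact_mod_cast hZ
  have hy0 : (0 : ℝ) < y := by exact_mod_cast hy
  have hm2 : (2 : ℝ) ≤ m := by exact_mod_cast hm
  have key := phase N hN y (b := y * m / (2 * Fintype.card (RSet n r))) (by positivity)
    (by
      rw [div_le_one (by positivity)]
      have : (Z.card : ℝ) ≤ Fintype.card (RSet n r) := by exact_mod_cast hZc
      linarith)
    (fun l hl => by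
      have h1 : #{z : Z | ¬ HasEdge l (insert z.1 f)} ≤ #{W | ∃ V, N l < N (l ++ [(W, V)])} := by
        refine card_le_card_of_injOn U (fun z hz => ?_) Uinj.injOn
        simp only [coe_filter, mem_univ, true_and, Set.mem_ofPred_eq] at hz ⊢
        refine ⟨V, card_lt_card ⟨monotone_filter_right _ fun z _ hz => hz.append _, fun hh => ?_⟩⟩
        have : z.1 ∈ ({w ∈ Z | HasEdge (l ++ [(U z, V)]) (insert w f)} : Finset _) :=
          mem_filter.2 ⟨z.2, (U z, V), by simp, ed z⟩
        exact hz (mem_filter.1 (hh this)).2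
      have h2 : #{z : Z | ¬ HasEdge l (insert z.1 f)} + N l = Z.card := by
        have := card_filter_add_card_filter_not (s := Z) fun z => HasEdge l (insert z f)
        rw [← this, add_comm]
        congr 1
        rw [univ_eq_attach, filter_attach (fun z => ¬ HasEdge l (insert z f))]
        simp
      have h3 : (Z.card : ℝ) ≤ #{W | ∃ V, N l < N (l ++ [(W, V)])} + y := by
        exact_mod_cast (by omega : Z.card ≤ #{W | ∃ V, N l < N (l ++ [(W, V)])} + y)
      have e : y * m / (2 * (Fintype.card (RSet n r) : ℝ)) * Fintype.card (RSet n r) =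
          y * m / 2 := by field_simp
      rw [e]
      nlinarith) T h
  refine le_trans (le_trans ?_ key) (Reach.post fun l hl => ?_)
  · have h1 : ((y - N h : ℕ) : ℝ) ≤ y := by exact_mod_cast Nat.sub_le _ _
    refine sub_le_sub_left ((div_le_div_of_nonneg_right h1 (by positivity)).trans ?_) 1
    rw [div_le_iff₀ (by positivity)]
    have e : ε * (y * m / (2 * (Fintype.card (RSet n r) : ℝ)) * (T + 1)) =
        y * (ε * (m * (T + 1)) / (2 * Fintype.card (RSet n r))) := by ring
    rw [e]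
    exact le_mul_of_one_le_right hy0.le ((one_le_div (by positivity)).2 hT)
  · refine ⟨fun e he hs => (hA e he hs).append l, {z ∈ Z | HasEdge (h ++ l) (insert z f)},
      hZA.mono_left (filter_subset _ _), hl, fun z hz f' hf' => ?_⟩
    rcases mem_insert.1 hf' with rfl | hf'
    · exact (mem_filter.1 hz).2
    · exact (hZF z (mem_filter.1 hz).1 f' hf').append l

lemma Star.append {A : Finset (Fin n)} {F : Finset (Finset (Fin n))} {y : ℕ}
    {h : List (RSet n r × Move n r s)} (H : Star A F y h) (l : List (RSet n r × Move n r s)) :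
    Star A F y (h ++ l) := by
  obtain ⟨hA, Z, h1, h2, h3⟩ := H
  exact ⟨fun e he hs => (hA e he hs).append l, Z, h1, h2, fun z hz f hf => (h3 z hz f hf).append l⟩

lemma star_all (hr : 1 ≤ r) (hrs : r < s) {A : Finset (Fin n)} {m T d : ℕ} (hm : 2 ≤ m)
    {ε : ℝ} (hε : 0 ≤ ε) (hT : 2 * (Fintype.card (RSet n r) : ℝ) ≤ ε * (m * (T + 1)))
    (hn : m ^ d + A.card ≤ n) (F : Finset (Finset (Fin n))) :
    F ⊆ A.powersetCard (s - 1) → F.card ≤ d →
    Reach (F.card * T) (Cl (r := r) (s := s) A) (Star A F (m ^ (d - F.card))) (F.card * ε) := by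
  induction F using Finset.induction_on with
  | empty =>
    intro _ _
    refine Reach.of_imp _ (by simp) fun h l hA => ⟨fun e he hs => (hA e he hs).append l, Aᶜ,
      disjoint_compl_left, ?_, by simp⟩
    rw [card_compl, Fintype.card_fin, card_empty, Nat.sub_zero]; omega
  | insert f F hf ih =>
    intro hsub hd
    rw [card_insert_of_notMem hf] at hd ⊢
    have h1 := ih ((subset_insert _ _).trans hsub) (by omega)
    obtain ⟨h2, h3⟩ := mem_powersetCard.1 (hsub (mem_insert_self _ _))
    have h4 := star_step hr hrs (F := F) h2 h3 (y := m ^ (d - (F.card + 1))) (by positivity) hm hT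
    rw [← pow_succ, show d - (F.card + 1) + 1 = d - F.card by omega] at h4
    have := h1.trans h4 hε
    rw [add_mul]; push_cast; rw [add_mul, one_mul, one_mul]
    exact this

lemma clique_all (hr : 1 ≤ r) (hrs : r < s) {k m T : ℕ} (hm : 2 ≤ m)
    {ε : ℝ} (hε : 0 ≤ ε) (hT : 2 * (Fintype.card (RSet n r) : ℝ) ≤ ε * (m * (T + 1)))
    (hn : m ^ (k - 1).choose (s - 1) + k ≤ n) (j : ℕ) (hj : j ≤ k) :
    Reach (j * ((k - 1).choose (s - 1) * T)) (fun _ => True)
      (fun h : List (RSet n r × Move n r s) => ∃ A : Finset (Fin n), A.card = j ∧ Cl A h)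
      (j * ((k - 1).choose (s - 1) * ε)) := by
  classical
  set d := (k - 1).choose (s - 1) with hd
  induction j with
  | zero =>
    refine Reach.of_imp _ (by simp) fun h l _ => ⟨∅, rfl, fun e he hs => ?_⟩
    rw [subset_empty.1 he, card_empty] at hs; omega
  | succ j ih =>
    have h2 : Reach (d * T)
        (fun h : List (RSet n r × Move n r s) => ∃ A : Finset (Fin n), A.card = j ∧ Cl A h)
        (fun h => ∃ A : Finset (Fin n), A.card = j + 1 ∧ Cl A h) (d * ε) := by
      rintro h ⟨A, hA, hc⟩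
      have hF : (A.powersetCard (s - 1)).card ≤ d := by
        rw [card_powersetCard, hA]; exact Nat.choose_le_choose _ (by omega)
      have h3 := star_all hr hrs hm hε hT (A := A) (d := d) (by omega) _ Subset.rfl hF
      obtain ⟨c, hc'⟩ := Nat.exists_eq_add_of_le hF
      have h4 := h3.trans (Reach.of_imp (c * T) (ε := c * ε) (by positivity)
        fun h l H => H.append l) (by positivity)
      rw [← add_mul, ← add_mul, ← Nat.cast_add, ← hc'] at h4
      refine (h4 h hc).trans (Reach.post ?_)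
      rintro l ⟨hA', Z, hZA, hZ, hZF⟩
      obtain ⟨z, hz⟩ := card_pos.1 (lt_of_lt_of_le (by positivity) hZ)
      have hzA : z ∉ A := disjoint_left.1 hZA hz
      refine ⟨insert z A, by rw [card_insert_of_notMem hzA, hA], fun e he hs => ?_⟩
      by_cases hze : z ∈ e
      · rw [← insert_erase hze]
        exact hZF z hz _ (mem_powersetCard.2 ⟨subset_insert_iff.1 he,
          by rw [card_erase_of_mem hze, hs]⟩)
      · exact hA' e ((subset_insert_iff_of_notMem hze).1 he) hs
    have := (ih (by omega)).trans h2 (by positivity)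
    rw [add_mul]; push_cast; rw [add_mul, one_mul, one_mul]
    exact this

lemma win_upper (hr : 1 ≤ r) (hrs : r < s) {k m T : ℕ} (hm : 2 ≤ m)
    {ε : ℝ} (hε : 0 ≤ ε) (hT : 2 * (Fintype.card (RSet n r) : ℝ) ≤ ε * (m * (T + 1)))
    (hn : m ^ (k - 1).choose (s - 1) + k ≤ n) :
    ∃ S : Strategy (RSet n r) (Move n r s), 1 - k * ((k - 1).choose (s - 1) * ε) ≤
      winProb (clique k s) S (k * ((k - 1).choose (s - 1) * T)) := by
  classical
  obtain ⟨S, hS⟩ := exists_strategy (k * ((k - 1).choose (s - 1) * T))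
    (fun h : List (RSet n r × Move n r s) => if Contains (clique k s) h then (1 : ℝ) else 0)
  refine ⟨S, ?_⟩
  rw [winProb]
  refine le_trans ((clique_all hr hrs hm hε hT hn k le_rfl [] trivial).trans (Reach.post ?_)) hS.ge
  rintro l ⟨A, hA, hc⟩
  refine ⟨(A.orderEmbOfFin hA).toEmbedding, fun e he => hc _ (fun x hx => ?_) ?_⟩
  · obtain ⟨y, -, rfl⟩ := mem_map.1 hx
    exact orderEmbOfFin_mem A hA y
  · rw [card_map]; exact (mem_powersetCard.1 he).2

end Pool.Agent.SemiRandom
end

-- part Pool.Agent.P.MP_c53d0e_pr.Main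
section

set_option autoImplicit false

namespace Pool.Agent.SemiRandom

open Finset Filter Topology

variable {k : ℕ}

lemma tauQ_mono (G : Finset (Finset (Fin k))) (r s : ℕ) : Monotone (tauQ G r s) := by
  intro q q' hq
  refine limsup_le_limsup ?_
  filter_upwards [eventually_ge_atTop 1] with n hn
  refine EReal.div_le_div_right_of_nonneg (by exact_mod_cast Real.log_natCast_nonneg n)
    (ENNReal.log_le_log (ENat.toENNReal_le.2 ?_))
  exact iInf_mono fun S => iInf_mono fun t => iInf_mono' fun h => ⟨hq.trans h, le_rfl⟩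

lemma tau_tendsto (G : Finset (Finset (Fin k))) (r s : ℕ) :
    Tendsto (tauQ G r s) (𝓝[<] 1) (𝓝 (tau G r s)) :=
  tendsto_nhds_limUnder ⟨_, (tauQ_mono G r s).tendsto_nhdsLT 1⟩

lemma tauQ_lower {r s : ℕ} (hrs : r < s) {G : Finset (Finset (Fin k))} {δ δ' : ℝ} (hδ : 0 < δ)
    (hδ' : δ < δ') (hb : Bottleneck G r δ) {q : ℝ} (hq : 0 < q) :
    ((r - δ' : ℝ) : EReal) ≤ tauQ G r s q := by
  obtain ⟨c, hc⟩ := win_bound hrs hδ hb
  have t1 : Tendsto (fun n : ℕ => c / √(n : ℝ)) atTop (𝓝 0) :=
    tendsto_const_nhds.div_atTop (Real.tendsto_sqrt_atTop.comp tendsto_natCast_atTop_atTop)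
  have t2 := choose_lim (a := id) one_pos (tendsto_const_nhds.congr' (by
    filter_upwards [eventually_gt_atTop 0] with n hn
    simp only [id]; field_simp)) r
  have t3 : Tendsto (fun n : ℕ => (n : ℝ) ^ (-(δ' - δ))) atTop (𝓝 0) :=
    (tendsto_rpow_neg_atTop (by linarith)).comp tendsto_natCast_atTop_atTop
  refine le_limsup_of_frequently_le (Eventually.frequently ?_)
  filter_upwards [t1.eventually (gt_mem_nhds hq), t3.eventually_lt t2 (by positivity),
    eventually_ge_atTop 2, eventually_ge_atTop r] with n h1 h2 hn hrn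
  have hn0 : (0 : ℝ) < n := by exact_mod_cast (by omega : 0 < n)
  have hlog : 0 < Real.log n := Real.log_pos (by exact_mod_cast (by omega : 1 < n))
  have hC : (0 : ℝ) < n.choose r := by exact_mod_cast Nat.choose_pos hrn
  have key : ENNReal.ofReal ((n : ℝ) ^ (r - δ')) ≤ tauN G r s q n := by
    rcases eq_or_ne (tauN G r s q n) ⊤ with h | h
    · rw [h]; exact le_top
    obtain ⟨⟨t, ⟨S, hS⟩⟩, ht⟩ : ∃ t : {t : ℕ // ∃ S : Strategy (RSet n r) (Move n r s),
        q ≤ winProb G S t}, ((t : ℕ) : ℕ∞) ≤ tauN G r s q n := by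
      by_contra hcon
      push Not at hcon
      have : tauN G r s q n + 1 ≤ tauN G r s q n :=
        le_iInf fun S => le_iInf₂ fun t ht => Order.add_one_le_of_lt (hcon ⟨t, S, ht⟩)
      exact absurd ((ENat.add_one_le_iff h).1 this) (lt_irrefl _)
    refine le_trans ?_ (ENat.toENNReal_le.2 ht)
    rw [ENat.toENNReal_coe, ← ENNReal.ofReal_natCast]
    refine ENNReal.ofReal_le_ofReal (not_lt.1 fun hlt => ?_)
    refine absurd (hS.trans (hc n (by omega) hrn S t ?_)) (not_le.2 h1)
    rw [div_le_iff₀ hC]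
    simp only [id] at h2
    rw [lt_div_iff₀ (by positivity)] at h2
    have e : (n : ℝ) ^ (r - δ') = (n : ℝ) ^ (-δ) * ((n : ℝ) ^ (-(δ' - δ)) * (n : ℝ) ^ r) := by
      rw [← Real.rpow_natCast, ← Real.rpow_add hn0, ← Real.rpow_add hn0]; congr 1; ring
    rw [e] at hlt
    exact hlt.le.trans (mul_le_mul_of_nonneg_left h2.le (by positivity))
  refine le_trans (le_of_eq ?_) (EReal.div_le_div_right_of_nonneg
    (by exact_mod_cast hlog.le) (ENNReal.log_le_log key))
  rw [ENNReal.log_ofReal_of_pos (by positivity), ← EReal.coe_div, Real.log_rpow hn0,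
    mul_div_cancel_right₀ _ hlog.ne']

lemma tauQ_upper {r s : ℕ} (hr : 1 ≤ r) (hrs : r < s) (hk : s ≤ k) {q : ℝ} (hq : q < 1) :
    tauQ (clique k s) r s q ≤ ((r - 1 / (k - 1).choose (s - 1) : ℝ) : EReal) := by
  set d := (k - 1).choose (s - 1) with hd
  have hd0 : 0 < d := Nat.choose_pos (by omega)
  have hdR : (1 : ℝ) ≤ d := by exact_mod_cast hd0
  have hkR : (1 : ℝ) ≤ k := by exact_mod_cast (by omega : 1 ≤ k)
  set ε := (1 - q) / (k * d) with hε
  have hε0 : 0 < ε := div_pos (by linarith) (by positivity)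
  set c : ℝ := k * d * (8 / ε) with hc
  have hc0 : 0 < c := by positivity
  have t1 : Tendsto (fun n : ℕ => Real.log c / Real.log n + (r - 1 / d : ℝ)) atTop
      (𝓝 (0 + (r - 1 / d : ℝ))) :=
    (tendsto_const_nhds.div_atTop
      (Real.tendsto_log_atTop.comp tendsto_natCast_atTop_atTop)).add_const _
  rw [zero_add] at t1
  rw [← (EReal.tendsto_coe.2 t1).limsup_eq]
  refine limsup_le_limsup ?_
  have t2 : Tendsto (fun n : ℕ => (n : ℝ) ^ (1 / d : ℝ)) atTop atTop :=
    (tendsto_rpow_atTop (by positivity)).comp tendsto_natCast_atTop_atTop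
  filter_upwards [t2.eventually_ge_atTop 4, eventually_ge_atTop (2 * k)] with n h4 hn
  have hn0 : (0 : ℝ) < n := by exact_mod_cast (by omega : 0 < n)
  have hlog : 0 < Real.log n := Real.log_pos (by exact_mod_cast (by omega : 1 < n))
  have hcard : Fintype.card (RSet n r) = n.choose r := by
    rw [Fintype.card_finset_len, Fintype.card_fin]
  have : Nonempty (RSet n r) :=
    Fintype.card_pos_iff.1 (by rw [hcard]; exact Nat.choose_pos (by omega))
  have : Nonempty (Move n r s) := ⟨Sym.replicate _ ⟨0, by omega⟩⟩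
  set x := (n : ℝ) ^ (1 / d : ℝ) with hx
  set m := ⌊x / 2⌋₊ with hm
  have m1 : (m : ℝ) ≤ x / 2 := Nat.floor_le (by linarith)
  have m2 : x / 2 < m + 1 := Nat.lt_floor_add_one _
  have m3 : 2 ≤ m := Nat.le_floor (by push_cast; linarith)
  have m4 : x / 4 ≤ m := by linarith
  have xd : x ^ d = n := by
    rw [hx, one_div, Real.rpow_inv_natCast_pow hn0.le hd0.ne']
  have m5 : m ^ d + k ≤ n := by
    have a : (m : ℝ) ^ d ≤ (x / 2) ^ d := pow_le_pow_left₀ (by positivity) m1 d
    have b : (2 : ℝ) ≤ 2 ^ d := le_self_pow₀ one_le_two hd0.ne'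
    rw [div_pow, xd] at a
    have c : (n : ℝ) / 2 ^ d ≤ n / 2 := div_le_div_of_nonneg_left hn0.le two_pos b
    have e : (2 * k : ℝ) ≤ n := by exact_mod_cast hn
    have : ((m : ℝ) ^ d + k) ≤ n := by linarith
    exact_mod_cast this
  have mp : (0 : ℝ) < m := by linarith
  set T := ⌊2 * (n : ℝ) ^ r / (ε * m)⌋₊ with hT
  have T1 : (T : ℝ) ≤ 2 * (n : ℝ) ^ r / (ε * m) := Nat.floor_le (by positivity)
  have T2 : 2 * (n : ℝ) ^ r / (ε * m) < T + 1 := Nat.lt_floor_add_one _
  obtain ⟨S, hS⟩ := win_upper (n := n) hr hrs (k := k) (T := T) m3 hε0.le (by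
    rw [div_lt_iff₀ (by positivity)] at T2
    have : (Fintype.card (RSet n r) : ℝ) ≤ n ^ r := by
      rw [hcard]; exact_mod_cast Nat.choose_le_pow n r
    linarith) m5
  rw [← hd] at hS
  have hq' : q ≤ winProb (clique k s) S (k * (d * T)) := by
    refine le_trans (le_of_eq ?_) hS
    rw [hε]; field_simp; ring
  have key : (tauN (clique k s) r s q n : ENNReal) ≤
      ENNReal.ofReal (c * (n : ℝ) ^ (r - 1 / d : ℝ)) := by
    have : tauN (clique k s) r s q n ≤ ((k * (d * T) : ℕ) : ℕ∞) :=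
      (iInf_le _ S).trans (iInf₂_le (k * (d * T)) hq')
    refine (ENat.toENNReal_le.2 this).trans ?_
    rw [ENat.toENNReal_coe, ← ENNReal.ofReal_natCast]
    refine ENNReal.ofReal_le_ofReal ?_
    rw [Real.rpow_sub hn0, Real.rpow_natCast, ← hx, hc]
    have a : 2 * (n : ℝ) ^ r / (ε * m) ≤ 2 * (n : ℝ) ^ r / (ε * (x / 4)) :=
      div_le_div_of_nonneg_left (by positivity) (by positivity)
        (mul_le_mul_of_nonneg_left m4 hε0.le)
    have b : 2 * (n : ℝ) ^ r / (ε * (x / 4)) = 8 / ε * ((n : ℝ) ^ r / x) := by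
      field_simp; ring
    push_cast
    rw [← mul_assoc, mul_assoc (k * d : ℝ)]
    exact mul_le_mul_of_nonneg_left (T1.trans (a.trans b.le)) (by positivity)
  refine (EReal.div_le_div_right_of_nonneg
    (by exact_mod_cast hlog.le) (ENNReal.log_le_log key)).trans (le_of_eq ?_)
  rw [ENNReal.log_ofReal_of_pos (by positivity), ← EReal.coe_div,
    Real.log_mul hc0.ne' (by positivity), Real.log_rpow hn0, add_div,
    mul_div_cancel_right₀ _ hlog.ne']

theorem main {r s : ℕ} (hr : 1 ≤ r) (hrs : r < s) {ε : ℝ} (hε : 0 < ε) :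
    ∃ k0 : ℕ, ∀ k ≥ k0,
      ((r - (1 + ε) / (k - 1).choose (s - 1) : ℝ) : EReal) ≤ tau (clique k s) r s ∧
      tau (clique k s) r s ≤ ((r - 1 / (k - 1).choose (s - 1) : ℝ) : EReal) := by
  obtain ⟨k0, hk0⟩ := eventually_atTop.1
    ((bottleneck_clique hrs (by omega) (half_pos hε)).and (eventually_ge_atTop s))
  refine ⟨k0, fun k hk => ?_⟩
  obtain ⟨hb, hks⟩ := hk0 k hk
  have hC : (0 : ℝ) < (k - 1).choose (s - 1) := by exact_mod_cast Nat.choose_pos (by omega)
  constructor
  · refine ge_of_tendsto (tau_tendsto _ r s) ?_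
    filter_upwards [Ioo_mem_nhdsLT (zero_lt_one' ℝ)] with q hq
    exact tauQ_lower hrs (by positivity) (div_lt_div_of_pos_right (by linarith) hC) hb hq.1
  · refine le_of_tendsto (tau_tendsto _ r s) ?_
    filter_upwards [self_mem_nhdsWithin] with q hq
    exact tauQ_upper hr hrs hks hq

end Pool.Agent.SemiRandom
end
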