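import Pool.Agent.K.MP_c53d0e_pr.C0

-- part Pool.Agent.P.MP_c53d0e_pr.U0
section

set_option autoImplicit false
set_option linter.unusedSectionVars false

/-! Static instances and the hypergraph built from them. -/

namespace Pool.Agent.SemiRandom.Und

open Finset

/-- A static instance: points, a basis, and lines (two sources and a target). -/
structure Inst (r : ℕ) (P Ln : Type) where
  bas : Fin r → P
  src : Ln → Fin 2 → P
  tgt : Ln → P

section
variable {r : ℕ} {P Ln : Type}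

def Inst.Exact (I : Inst r P Ln) {W : Type} (S : Finset (P → W)) : Prop :=
  ∀ e, ∀ x ∈ S, ∀ x' ∈ S, (∀ l, x (I.src e l) = x' (I.src e l)) → x (I.tgt e) = x' (I.tgt e)

def Inst.BasInj (I : Inst r P Ln) {W : Type} (S : Finset (P → W)) : Prop :=
  ∀ x ∈ S, ∀ x' ∈ S, (∀ b, x (I.bas b) = x' (I.bas b)) → x = x'

def Inst.Yes (I : Inst r P Ln) : Prop :=
  ∀ θ : ℝ, 0 < θ → ∃ (w : ℕ) (S : Finset (P → Fin w)), 2 ≤ w ∧ I.Exact S ∧ I.BasInj S ∧
    (w : ℝ) ^ ((r : ℝ) * (1 - θ)) ≤ S.card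

def Inst.Bound (I : Inst r P Ln) (η : ℝ) : Prop :=
  ∀ (w : ℕ) (S : Finset (P → Fin w)), 1 ≤ w → I.Exact S → (S.card : ℝ) ≤ (w : ℝ) ^ ((r : ℝ) - η)

def Inst.No (I : Inst r P Ln) : Prop := ∃ η : ℝ, 0 < η ∧ η ≤ 4 / 5 ∧ I.Bound η

end

/-- Proxies. -/
abbrev Px (r : ℕ) (Ln : Type) : Type := Fin r ⊕ (Ln × Fin 2)

def Inst.par {r : ℕ} {P Ln : Type} (I : Inst (r + r) P Ln) : Px r Ln → P :=
  Sum.elim (fun b => I.bas (Fin.castAdd r b)) fun x => I.src x.1 x.2

/-- Second parent of a basis proxy. -/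
def Inst.par2 {r : ℕ} {P Ln : Type} (I : Inst (r + r) P Ln) (b : Fin r) : P :=
  I.bas (Fin.natAdd r b)

/-- Vertices: constants, `y`-vertices, points, proxies, tokens. -/
inductive Vx (r s : ℕ) (P Ln : Type) : Type
  | c (j : Fin (s + 1))
  | y (i : Fin (2 * r))
  | pt (p : P)
  | z (x : Px r Ln)
  | tk (e : Ln) (l : Fin (r - 2))
  deriving DecidableEq, Fintype

/-- Groups of edges. -/
inductive Gp (r : ℕ) (P Ln : Type) : Type
  | Q
  | Y (i : Fin (2 * r))
  | U (p : P)
  | En (x : Px r Ln)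
  | W (b : Fin r)
  | L (e : Ln)
  | T
  deriving DecidableEq, Fintype

variable {r : ℕ} {P Ln : Type}

/-- Number of edges of a group. -/
def Gp.M : Gp r P Ln → ℕ
  | .Q => 2 * r + 2
  | .Y _ => 2
  | .U _ => 1
  | .En _ => 1
  | .W _ => 1
  | .L _ => 2 * r - 2
  | .T => 2 * r

/-- Number of non-constant vertices of an edge of the group. -/
def Gp.k (s : ℕ) : Gp r P Ln → ℕ
  | .Q => 0
  | .Y _ => 1
  | .U _ => 1
  | .En _ => 2
  | .W _ => 2
  | .L _ => r + 1
  | .T => s + 1 - 2 * r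

def Gp.isQp : Gp r P Ln → Prop
  | .Q => True
  | .Y _ => True
  | _ => False

abbrev Ed (r : ℕ) (P Ln : Type) : Type := Σ g : Gp r P Ln, Fin g.M

variable [Fintype P] [DecidableEq P] [Fintype Ln] [DecidableEq Ln] {s : ℕ}

def CC : Finset (Vx r s P Ln) := univ.image Vx.c
def YY : Finset (Vx r s P Ln) := univ.image Vx.y
def PP : Finset (Vx r s P Ln) := univ.image Vx.pt
def ZB : Finset (Vx r s P Ln) := univ.image fun b => Vx.z (Sum.inl b)
def ZL (e : Ln) : Finset (Vx r s P Ln) := univ.image fun l => Vx.z (Sum.inr (e, l))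
def TK (e : Ln) : Finset (Vx r s P Ln) := univ.image (Vx.tk e)
def DD : Finset (Vx r s P Ln) := univ.image fun x : Ln × Fin (r - 2) => Vx.tk x.1 x.2
def SRC (I : Inst (r + r) P Ln) (e : Ln) : Finset (Vx r s P Ln) :=
  univ.image fun l => Vx.pt (I.src e l)

/-- Non-constant part of the edges of a group. -/
def NN (I : Inst (r + r) P Ln) (s : ℕ) : Gp r P Ln → Finset (Vx r s P Ln)
  | .Q => ∅
  | .Y i => {Vx.y i}
  | .U p => {Vx.pt p}
  | .En x => {Vx.pt (I.par x), Vx.z x}
  | .W b => {Vx.pt (I.par2 b), Vx.z (Sum.inl b)}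
  | .L e => insert (Vx.pt (I.tgt e)) (ZL e ∪ TK e)
  | .T => univ \ CC

def cp (x i : ℕ) : Finset (Vx r s P Ln) :=
  (univ.filter fun j : Fin (s + 1) => (j : ℕ) < x ∧ (j : ℕ) ≠ i).image Vx.c

/-- The edges. -/
def ed (I : Inst (r + r) P Ln) (s : ℕ) (e : Ed r P Ln) : Finset (Vx r s P Ln) :=
  cp (s + 1 - e.1.k s) e.2 ∪ NN I s e.1

structure Ok (r s : ℕ) (P Ln : Type) [Fintype P] [Fintype Ln] : Prop where
  hr : 2 ≤ r
  hs : s + 1 = 5 * r + Fintype.card P + Fintype.card Ln * r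

section mem
@[simp] lemma mem_CC (v : Vx r s P Ln) : v ∈ CC ↔ ∃ j, v = Vx.c j := by simp [CC, eq_comm]
@[simp] lemma mem_YY (v : Vx r s P Ln) : v ∈ YY ↔ ∃ i, v = Vx.y i := by simp [YY, eq_comm]
@[simp] lemma mem_PP (v : Vx r s P Ln) : v ∈ PP ↔ ∃ p, v = Vx.pt p := by simp [PP, eq_comm]
@[simp] lemma mem_ZB (v : Vx r s P Ln) : v ∈ ZB ↔ ∃ b, v = Vx.z (Sum.inl b) := by
  simp [ZB, eq_comm]
@[simp] lemma mem_ZL (e : Ln) (v : Vx r s P Ln) : v ∈ ZL e ↔ ∃ l, v = Vx.z (Sum.inr (e, l)) := by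
  simp [ZL, eq_comm]
@[simp] lemma mem_TK (e : Ln) (v : Vx r s P Ln) : v ∈ TK e ↔ ∃ l, v = Vx.tk e l := by
  simp [TK, eq_comm]
@[simp] lemma mem_DD (v : Vx r s P Ln) : v ∈ DD ↔ ∃ e l, v = Vx.tk e l := by simp [DD, eq_comm]
@[simp] lemma mem_SRC (I : Inst (r + r) P Ln) (e : Ln) (v : Vx r s P Ln) :
    v ∈ SRC I e ↔ ∃ l, v = Vx.pt (I.src e l) := by simp [SRC, eq_comm]
@[simp] lemma mem_cp (x i : ℕ) (v : Vx r s P Ln) :
    v ∈ cp x i ↔ ∃ j : Fin (s + 1), v = Vx.c j ∧ (j : ℕ) < x ∧ (j : ℕ) ≠ i := by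
  simp only [cp, mem_image, mem_filter, mem_univ, true_and]
  exact ⟨fun ⟨j, h, e⟩ => ⟨j, e.symm, h⟩, fun ⟨j, e, h⟩ => ⟨j, h, e.symm⟩⟩
end mem

open Classical in
/-- Indicator of a proposition. -/
noncomputable def ind (p : Prop) : ℝ := if p then 1 else 0

lemma ind_eq (p : Prop) [Decidable p] : ind p = if p then 1 else 0 := by
  unfold ind; congr

lemma ind_nonneg (p : Prop) : 0 ≤ ind p := by unfold ind; split_ifs <;> norm_num
lemma ind_le_one (p : Prop) : ind p ≤ 1 := by unfold ind; split_ifs <;> norm_num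
lemma ind_pos {p : Prop} (h : p) : ind p = 1 := by unfold ind; exact if_pos h
lemma ind_neg {p : Prop} (h : ¬ p) : ind p = 0 := by unfold ind; exact if_neg h
lemma ind_mono {p q : Prop} (h : p → q) : ind p ≤ ind q := by
  by_cases hp : p
  · rw [ind_pos hp, ind_pos (h hp)]
  · rw [ind_neg hp]; exact ind_nonneg q

/-- Probability of an event after `T` rounds. -/
noncomputable def Pr {α β : Type} [Fintype α] [Fintype β] (S : Strategy α β) (T : ℕ)
    (A : List (α × β) → Prop) : ℝ := Ex S T [] fun h => ind (A h)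

lemma winProb_eq {n r s k : ℕ} (G : Finset (Finset (Fin k))) (S : Strategy (RSet n r) (Move n r s))
    (T : ℕ) : winProb G S T = Pr S T (Contains G) := rfl

/-- The history contains a copy of the hypergraph with edges `ed e`. -/
def ContainsV {V E : Type} (ed : E → Finset V) {n r s : ℕ} (h : List (RSet n r × Move n r s)) :
    Prop :=
  ∃ φ : V ↪ Fin n, ∀ e, ∃ x ∈ h, edge x = ((ed e).map φ).val

end Pool.Agent.SemiRandom.Und
end

-- part Pool.Agent.P.MP_c53d0e_pr.W0
section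

set_option autoImplicit false
set_option linter.unusedSectionVars false

/-! The hypergraph of a static instance for fixed `r < s`. -/

namespace Pool.Agent.SemiRandom.Fix

open Finset Und

/-- Number of edges owned by a vertex. -/
def al (r : ℕ) : ℕ := 30 * (r + 1)

/-- Cost of an edge in units, minus one. -/
def pm (r : ℕ) : ℕ := 8 * r - 1

/-- Capacity of a vertex in units. -/
def qq (r : ℕ) : ℕ := al r * (8 * r) + 1

/-- Functional edges: lines, destroyers, chain edges. -/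
inductive FD (N : ℕ) (Ln : Type) : Type
  | L (e : Ln)
  | D (j : Fin N)
  | E (j : Fin (N + 1))
  deriving DecidableEq, Fintype

/-- Compound vertices. -/
abbrev Cp (r N : ℕ) (Ln : Type) : Type := FD N Ln × Fin r

/-- Non-constant vertices: points, compound vertices, tokens. -/
inductive NV (r N : ℕ) (P Ln : Type) : Type
  | pt (p : P)
  | cv (z : Cp r N Ln)
  | tk (z : Cp r N Ln) (i : Fin 15)
  deriving DecidableEq, Fintype

/-- Constants: side, row, column. -/
abbrev Cn (r : ℕ) : Type := Fin 3 × Fin (al r + 1) × Fin (pm r + 1)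

inductive Vx (r s N : ℕ) (P Ln : Type) : Type
  | hub (j : Fin (s - r - 1))
  | eta
  | c (x : Cn r)
  | nv (v : NV r N P Ln)
  deriving DecidableEq, Fintype

/-- Edges among the constants. -/
abbrev QE (r : ℕ) : Type :=
  {x : Cn r × Fin (al r + 1) // (x.2 : ℕ) < al r ∨ (x.1.2.2 : ℕ) = 0}

abbrev Ed (r N : ℕ) (P Ln : Type) : Type := QE r ⊕ (NV r N P Ln × Fin (al r)) ⊕ FD N Ln

instance instDecQE (r : ℕ) : DecidableEq (QE r) := inferInstance

instance instDecEd (r N : ℕ) (P Ln : Type) [DecidableEq P] [DecidableEq Ln] :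
    DecidableEq (Ed r N P Ln) := inferInstance

/-- A static instance with a list of the line payers to destroy. -/
structure Dat (r N : ℕ) (P Ln : Type) where
  I : Inst 4 P Ln
  tg : Fin N → Ln × Fin r

variable {r s N : ℕ} {P Ln : Type}

@[match_pattern] abbrev eQ (x : QE r) : Ed r N P Ln := Sum.inl x
@[match_pattern] abbrev eO (v : NV r N P Ln) (t : Fin (al r)) : Ed r N P Ln := Sum.inr (Sum.inl (v, t))
@[match_pattern] abbrev eF (F : FD N Ln) : Ed r N P Ln := Sum.inr (Sum.inr F)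

def IsQ : Ed r N P Ln → Prop
  | .inl _ => True
  | .inr _ => False

instance : DecidablePred (IsQ : Ed r N P Ln → Prop) := fun e => by
  cases e <;> unfold IsQ <;> infer_instance

/-- The payers of a functional edge. -/
def pay : FD N Ln → Fin r → Cp r N Ln
  | .L e, i => (.L e, i)
  | .D j, i => if (i : ℕ) = 0 then (.E j.castSucc, i) else (.D j, i)
  | .E j, i => (.E j, i)

/-- Share of a payer, in units. -/
def lv : FD N Ln → Fin r → ℕ
  | .E j, i => if (j : ℕ) = N ∧ (i : ℕ) = 0 then 4 else 8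
  | _, _ => 8

/-- Number of attached tokens. -/
def npriv : Cp r N Ln → ℕ
  | (.L _, _) => 7
  | (.D _, i) => if (i : ℕ) = 0 then 0 else 7
  | (.E j, i) => if (i : ℕ) = 0 then (if (j : ℕ) = N then 3 else 15) else 7

/-- Real parents. -/
def rpar (I : Inst 4 P Ln) : Cp r N Ln → List P
  | (.L e, i) => [I.src e (if (i : ℕ) = 0 then 0 else 1)]
  | (.D _, _) => []
  | (.E _, i) => if (i : ℕ) = 0 then [I.bas 0, I.bas 1, I.bas 2, I.bas 3] else []

/-- Token parent of an owned edge. -/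
def ptk : NV r N P Ln → ℕ → Option (NV r N P Ln)
  | .cv z, t => if t < npriv z then some (.tk z (Fin.ofNat 15 t)) else none
  | _, _ => none

/-- Real parent of an owned edge. -/
def ppt (I : Inst 4 P Ln) : NV r N P Ln → ℕ → Option P
  | .cv z, t => if t < npriv z then none else (rpar I z)[t - npriv z]?
  | _, _ => none

/-- Parent of an owned edge. -/
def par (I : Inst 4 P Ln) (v : NV r N P Ln) (t : ℕ) : Option (NV r N P Ln) :=
  (ptk v t).orElse fun _ => (ppt I v t).map NV.pt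

def cc (a : Fin 3) (i j : ℕ) : Vx r s N P Ln :=
  .c (a, Fin.ofNat (al r + 1) i, Fin.ofNat (pm r + 1) j)

/-- The edge among constants has a parent. -/
def qbin (x : QE r) : Prop := (x.1.1.2.2 : ℕ) = 0 ∧ (x.1.2 : ℕ) < pm r

instance : DecidablePred (qbin : QE r → Prop) := fun x => by unfold qbin; infer_instance

def qpar (x : QE r) : Vx r s N P Ln := cc x.1.1.1 x.1.1.2.1 (x.1.2 + 1)

variable [NeZero r]

/-- The main vertex of block `j`. -/
def aa (j : Fin (N + 1)) : Cp r N Ln := (.E j, 0)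

/-- The vertex determined by a functional edge. -/
def tgtv (D : Dat r N P Ln) : FD N Ln → NV r N P Ln
  | .L e => .pt (D.I.tgt e)
  | .D j => .cv (.L (D.tg j).1, (D.tg j).2)
  | .E j => Fin.cases (.pt (D.I.bas 0)) (fun j' => .cv (aa j'.castSucc)) j

/-- The `r + 1` vertices of an edge besides the hubs. -/
def vtx (D : Dat r N P Ln) (s : ℕ) : Ed r N P Ln → ℕ → Vx r s N P Ln
  | .inl x, k => if k = 0 then .eta else if k = 1 then .c x.1.1 else
      if k = 2 ∧ qbin x then qpar x else cc (x.1.1.1 + 1) x.1.2 (k - 2)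
  | .inr (.inl (v, t)), k => if k = 0 then .nv v else
      if k = 1 then ((par D.I v t).elim (cc 0 t 0) Vx.nv) else cc 0 t (k - 1)
  | .inr (.inr F), k => if k = 0 then .nv (tgtv D F) else .nv (.cv (pay F (Fin.ofNat r (k - 1))))

variable [Fintype P] [DecidableEq P] [Fintype Ln] [DecidableEq Ln]

def HH : Finset (Vx r s N P Ln) := univ.image Vx.hub
def CN : Finset (Vx r s N P Ln) := univ.image Vx.c
def CC : Finset (Vx r s N P Ln) := HH ∪ insert Vx.eta CN
def pts (A : Finset P) : Finset (Vx r s N P Ln) := A.image fun p => Vx.nv (.pt p)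
def cvs (X : Finset (Cp r N Ln)) : Finset (Vx r s N P Ln) := X.image fun z => Vx.nv (.cv z)
def PY (r : ℕ) (F : FD N Ln) : Finset (Cp r N Ln) := univ.image (pay F)

/-- The edges. -/
def ed (D : Dat r N P Ln) (s : ℕ) (e : Ed r N P Ln) : Finset (Vx r s N P Ln) :=
  HH ∪ (range (r + 1)).image (vtx D s e)

/-- The random part used by the winning strategy. -/
def key0 (D : Dat r N P Ln) (s : ℕ) : Ed r N P Ln → Finset (Vx r s N P Ln)
  | .inl x => (Icc 1 r).image (vtx D s (.inl x))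
  | .inr (.inl y) => (range r).image (vtx D s (.inr (.inl y)))
  | .inr (.inr F) => cvs (PY r F)

/-- Duties, in units. -/
def dn : Ed r N P Ln → Vx r s N P Ln → ℕ
  | .inl x, w => if qbin x then (if w = .c x.1.1 then pm r else if w = qpar x then 1 else 0)
      else if w = .c x.1.1 then 8 * r else 0
  | .inr (.inl (v, t)), w => (ptk v t).elim (if w = .nv v then 8 * r else 0)
      fun τ => if w = .nv v then pm r else if w = .nv τ then 1 else 0
  | .inr (.inr F), w => ∑ i : Fin r, if w = .nv (.cv (pay F i)) then lv F i else 0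

/-- Total duty of a vertex. -/
def ld (w : Vx r s N P Ln) : ℕ := ∑ e : Ed r N P Ln, dn e w

def IsPay (z : Cp r N Ln) : Prop := ∃ F i, z = pay F i

/-- Points, compound vertices and their attached tokens. -/
def UU (X : Finset (Cp r N Ln)) (A : Finset P) : Finset (Vx r s N P Ln) :=
  pts A ∪ cvs X ∪ ((X ×ˢ (univ : Finset (Fin 15))).filter fun y => (y.2 : ℕ) < npriv y.1).image
    fun y => Vx.nv (.tk y.1 y.2)

def Bas (D : Dat r N P Ln) : Finset P := univ.image D.I.bas
def Src (D : Dat r N P Ln) (e : Ln) : Finset P := univ.image (D.I.src e)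

/-- The payers of block `j`. -/
def Blk (r : ℕ) (j : Fin (N + 1)) : Finset (Cp r N Ln) :=
  PY r (.E j) ∪ if h : (j : ℕ) < N then PY r (.D ⟨j, h⟩) else ∅

structure Ok (r s : ℕ) : Prop where
  hr : 2 ≤ r
  hs : r < s

/-- Side conditions on the instance. -/
structure Dat.Good (D : Dat r N P Ln) : Prop where
  surj : Function.Surjective D.tg
  cov1 : ∀ b, ∃ e, D.I.tgt e = D.I.bas b ∧ ∀ l b', D.I.src e l ≠ D.I.bas b'
  cov2 : ∀ p, (∃ b, p = D.I.bas b) ∨ ∃ e, D.I.tgt e = p ∧ ∀ l, ∃ b, D.I.src e l = D.I.bas b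

/-- Stage of a functional edge. -/
def stF : FD N Ln → ℕ
  | .L _ => 2
  | .D j => 3 + j
  | .E j => 3 + j

def stN : NV r N P Ln → ℕ
  | .pt _ => 1
  | .cv z => stF z.1
  | .tk z _ => stF z.1

def stV : Vx r s N P Ln → ℕ
  | .nv v => stN v
  | _ => 0

def stE : Ed r N P Ln → ℕ
  | .inl _ => 0
  | .inr (.inl y) => stN y.1
  | .inr (.inr F) => stF F

/-- The unit and the cost of an edge as reals. -/
noncomputable def hh (r : ℕ) : ℝ := 1 / (qq r : ℝ)
noncomputable def de (r : ℕ) : ℝ := 8 * r * hh r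

section mem
@[simp] lemma mem_HH (v : Vx r s N P Ln) : v ∈ HH ↔ ∃ j, v = .hub j := by simp [HH, eq_comm]
@[simp] lemma mem_CN (v : Vx r s N P Ln) : v ∈ CN ↔ ∃ x, v = .c x := by
  simp only [CN, mem_image, mem_univ, true_and, eq_comm]
@[simp] lemma mem_CC (v : Vx r s N P Ln) :
    v ∈ CC ↔ (∃ j, v = .hub j) ∨ v = .eta ∨ ∃ x, v = .c x := by
  simp only [CC, mem_union, mem_HH, mem_insert, mem_CN]
@[simp] lemma mem_pts (A : Finset P) (v : Vx r s N P Ln) :
    v ∈ pts A ↔ ∃ p ∈ A, v = .nv (.pt p) := by simp [pts, eq_comm]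
@[simp] lemma mem_cvs (X : Finset (Cp r N Ln)) (v : Vx r s N P Ln) :
    v ∈ cvs X ↔ ∃ z ∈ X, v = .nv (.cv z) := by
  simp only [cvs, mem_image, eq_comm]
@[simp] lemma mem_PY (F : FD N Ln) (z : Cp r N Ln) : z ∈ PY r F ↔ ∃ i, z = pay F i := by
  simp only [PY, mem_image, mem_univ, true_and, eq_comm]
@[simp] lemma mem_Bas (D : Dat r N P Ln) (p : P) : p ∈ Bas D ↔ ∃ b, p = D.I.bas b := by
  simp [Bas, eq_comm]
@[simp] lemma mem_Src (D : Dat r N P Ln) (e : Ln) (p : P) :
    p ∈ Src D e ↔ ∃ l, p = D.I.src e l := by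
  simp only [Src, mem_image, mem_univ, true_and, eq_comm]
lemma mem_UU (X : Finset (Cp r N Ln)) (A : Finset P) (v : Vx r s N P Ln) :
    v ∈ UU X A ↔ (∃ p ∈ A, v = .nv (.pt p)) ∨ (∃ z ∈ X, v = .nv (.cv z)) ∨
      ∃ z ∈ X, ∃ i : Fin 15, (i : ℕ) < npriv z ∧ v = .nv (.tk z i) := by
  simp only [UU, mem_union, mem_pts, mem_cvs, mem_image, mem_filter, mem_product, mem_univ,
    and_true, or_assoc, Prod.exists]
  refine or_congr Iff.rfl (or_congr Iff.rfl ⟨?_, ?_⟩)
  · rintro ⟨a, b, i, ⟨h1, h2⟩, rfl⟩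
    exact ⟨a, b, h1, i, h2, rfl⟩
  · rintro ⟨a, b, h1, i, h2, rfl⟩
    exact ⟨a, b, i, ⟨h1, h2⟩, rfl⟩
@[simp] lemma pt_mem_UU (X : Finset (Cp r N Ln)) (A : Finset P) (p : P) :
    (Vx.nv (.pt p) : Vx r s N P Ln) ∈ UU X A ↔ p ∈ A := by simp [mem_UU]
@[simp] lemma cv_mem_UU (X : Finset (Cp r N Ln)) (A : Finset P) (z : Cp r N Ln) :
    (Vx.nv (.cv z) : Vx r s N P Ln) ∈ UU X A ↔ z ∈ X := by simp [mem_UU]
@[simp] lemma tk_mem_UU (X : Finset (Cp r N Ln)) (A : Finset P) (z : Cp r N Ln) (i : Fin 15) :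
    (Vx.nv (.tk z i) : Vx r s N P Ln) ∈ UU X A ↔ z ∈ X ∧ (i : ℕ) < npriv z := by simp [mem_UU]
@[simp] lemma nv_notMem_CC (v : NV r N P Ln) : (Vx.nv v : Vx r s N P Ln) ∉ CC := by simp
end mem

end Pool.Agent.SemiRandom.Fix
end

-- part Pool.Agent.P.MP_c53d0e_pr.WA1
section

set_option autoImplicit false
set_option linter.unusedSectionVars false

namespace Pool.Agent.SemiRandom.Fix

open Finset Und

variable {r s N : ℕ} {P Ln : Type} [NeZero r] [Fintype P] [DecidableEq P] [Fintype Ln]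
  [DecidableEq Ln]

lemma pm_succ (hO : Ok r s) : pm r + 1 = 8 * r := by
  have := hO.hr
  unfold pm
  omega

lemma hh_pos (r : ℕ) : 0 < hh r := by
  unfold hh qq
  positivity

lemma qq_hh (r : ℕ) : (qq r : ℝ) * hh r = 1 := by
  have : (0 : ℝ) < qq r := by unfold qq; positivity
  unfold hh
  field_simp

lemma al_de (r : ℕ) : (al r : ℝ) * de r + hh r = 1 := by
  have h := qq_hh r
  unfold qq at h
  unfold de
  push_cast at h
  linarith

/-- `16 h ≤ δ` and `30 (r + 1) δ ≤ 1`. -/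
lemma de_bd (hO : Ok r s) : 16 * hh r ≤ de r ∧ 30 * ((r : ℝ) + 1) * de r ≤ 1 := by
  have h := al_de r
  have hp := hh_pos r
  have h2 : (2 : ℝ) ≤ r := by exact_mod_cast hO.hr
  refine ⟨by unfold de; nlinarith, ?_⟩
  unfold al at h
  push_cast at h
  linarith

lemma npriv_le (z : Cp r N Ln) : npriv z ≤ 15 := by
  rcases z with ⟨_ | _ | _, i⟩ <;> simp only [npriv] <;> (try split_ifs) <;> omega

lemma rpar_len (I : Inst 4 P Ln) (z : Cp r N Ln) : (rpar I z).length ≤ 4 := by
  rcases z with ⟨_ | _ | _, i⟩ <;> simp only [rpar] <;> (try split_ifs) <;> simp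

lemma par_big (I : Inst 4 P Ln) (v : NV r N P Ln) {t : ℕ} (ht : 20 ≤ t) : par I v t = none := by
  rcases v with p | z | ⟨z, i⟩
  · rfl
  · have h1 := npriv_le z
    have h2 := rpar_len I z
    have h3 : ¬ t < npriv z := by omega
    have h4 : (rpar I z)[t - npriv z]? = none := List.getElem?_eq_none (by omega)
    simp only [par, ptk, ppt, if_neg h3, h4]
    rfl
  · rfl

@[simp] lemma par_pt (I : Inst 4 P Ln) (p : P) (t : ℕ) :
    par I (.pt p : NV r N P Ln) t = none := by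
  rfl

@[simp] lemma par_tk (I : Inst 4 P Ln) (z : Cp r N Ln) (i : Fin 15) (t : ℕ) :
    par I (.tk z i : NV r N P Ln) t = none := by
  rfl

lemma ptk_cases {v τ : NV r N P Ln} {t : ℕ} (h : ptk v t = some τ) :
    ∃ (z : Cp r N Ln) (i : Fin 15), v = .cv z ∧ τ = .tk z i ∧ (i : ℕ) = t ∧ t < npriv z := by
  rcases v with p | z | ⟨z, i⟩
  · exact absurd h (by simp [ptk])
  · have h1 := npriv_le z
    simp only [ptk] at h
    split_ifs at h with h2
    refine ⟨z, Fin.ofNat 15 t, rfl, (Option.some.inj h).symm, ?_, h2⟩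
    exact Nat.mod_eq_of_lt (by omega)
  · exact absurd h (by simp [ptk])

lemma ppt_cases {I : Inst 4 P Ln} {v : NV r N P Ln} {t : ℕ} {p : P} (h : ppt I v t = some p) :
    ptk v t = none ∧ par I v t = some (.pt p) ∧ ∃ z, v = .cv z ∧ p ∈ rpar I z := by
  rcases v with q | z | ⟨z, i⟩
  · exact absurd h (by simp [ppt])
  · have h' := h
    simp only [ppt] at h
    split_ifs at h with h2
    have h3 : ptk (.cv z : NV r N P Ln) t = none := by simp only [ptk, if_neg h2]
    refine ⟨h3, ?_, z, rfl, List.mem_of_getElem? h⟩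
    simp only [par, h3, h']
    rfl
  · exact absurd h (by simp [ppt])

lemma par_cases {I : Inst 4 P Ln} {v π : NV r N P Ln} {t : ℕ} (h : par I v t = some π) :
    ptk v t = some π ∨ ∃ p, ppt I v t = some p ∧ π = .pt p := by
  unfold par at h
  rcases h1 : ptk v t with _ | τ
  · rw [h1] at h
    rcases h2 : ppt I v t with _ | p
    · rw [h2] at h
      exact absurd h (by simp)
    · rw [h2] at h
      exact Or.inr ⟨p, rfl, (Option.some.inj h).symm⟩
  · rw [h1] at h
    exact Or.inl h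

lemma par_of_ptk (I : Inst 4 P Ln) {v τ : NV r N P Ln} {t : ℕ} (h : ptk v t = some τ) :
    par I v t = some τ ∧ ppt I v t = none := by
  obtain ⟨z, i, rfl, -, -, h2⟩ := ptk_cases h
  refine ⟨?_, by simp only [ppt, if_pos h2]⟩
  unfold par
  rw [h]
  rfl

lemma exists_priv (z : Cp r N Ln) (i : Fin 15) (hi : (i : ℕ) < npriv z) :
    ∃ t : Fin (al r), ptk (.cv z : NV r N P Ln) t = some (.tk z i) := by
  have hi' := i.isLt
  refine ⟨⟨i, by unfold al; omega⟩, ?_⟩
  simp only [ptk, if_pos hi, Fin.ofNat_val_eq_self]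

lemma exists_real (I : Inst 4 P Ln) (z : Cp r N Ln) {p : P} (hp : p ∈ rpar I z) :
    ∃ t : Fin (al r), ppt I (.cv z : NV r N P Ln) t = some p := by
  obtain ⟨k, hk⟩ := List.mem_iff_getElem?.1 hp
  have h1 := npriv_le z
  have h2 := rpar_len I z
  have h3 : k < (rpar I z).length := (List.getElem?_eq_some_iff.1 hk).1
  refine ⟨⟨npriv z + k, by unfold al; omega⟩, ?_⟩
  simp only [ppt]
  rw [if_neg (by omega), Nat.add_sub_cancel_left, hk]

lemma cc_inj (hO : Ok r s) {a a' : Fin 3} {i i' j j' : ℕ} (hi : i ≤ al r) (hi' : i' ≤ al r)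
    (hj : j < 8 * r) (hj' : j' < 8 * r) :
    (cc a i j : Vx r s N P Ln) = cc a' i' j' ↔ a = a' ∧ i = i' ∧ j = j' := by
  have h := pm_succ hO
  simp only [cc, Vx.c.injEq, Prod.mk.injEq, Fin.ext_iff, Fin.val_ofNat]
  rw [Nat.mod_eq_of_lt (by omega : i < al r + 1), Nat.mod_eq_of_lt (by omega : i' < al r + 1),
    Nat.mod_eq_of_lt (by omega : j < pm r + 1), Nat.mod_eq_of_lt (by omega : j' < pm r + 1)]

lemma c_eq_cc (x : Cn r) : (Vx.c x : Vx r s N P Ln) = cc x.1 x.2.1 x.2.2 := by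
  simp only [cc, Fin.ofNat_val_eq_self]

lemma cc_mem_CN (a : Fin 3) (i j : ℕ) : (cc a i j : Vx r s N P Ln) ∈ CN := by
  exact (mem_CN _).2 ⟨_, rfl⟩

lemma mem_ed_Q (hO : Ok r s) (D : Dat r N P Ln) (x : QE r) (v : Vx r s N P Ln) :
    v ∈ ed D s (eQ x) ↔ v ∈ HH ∨ v = .eta ∨ v = .c x.1.1 ∨ (qbin x ∧ v = qpar x) ∨
      ∃ l, l + 2 ≤ r ∧ (l = 0 → ¬ qbin x) ∧ v = cc (x.1.1.1 + 1) x.1.2 l := by
  have hr := hO.hr
  simp only [ed, mem_union, mem_image, mem_range]
  refine or_congr Iff.rfl ⟨?_, ?_⟩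
  · rintro ⟨k, hk, rfl⟩
    simp only [vtx]
    split_ifs with h0 h1 h2
    · exact Or.inl rfl
    · exact Or.inr (Or.inl rfl)
    · exact Or.inr (Or.inr (Or.inl ⟨h2.2, rfl⟩))
    · exact Or.inr (Or.inr (Or.inr ⟨k - 2, by omega, fun h hb => h2 ⟨by omega, hb⟩, rfl⟩))
  · rintro (rfl | rfl | ⟨hb, rfl⟩ | ⟨l, h1, h2, rfl⟩)
    · exact ⟨0, by omega, rfl⟩
    · exact ⟨1, by omega, rfl⟩
    · exact ⟨2, by omega, by simp [vtx, hb]⟩
    · refine ⟨l + 2, by omega, ?_⟩
      simp only [vtx]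
      rw [if_neg (by omega), if_neg (by omega), if_neg (fun h => h2 (by omega) h.2),
        Nat.add_sub_cancel]

lemma mem_ed_O (hO : Ok r s) (D : Dat r N P Ln) (w : NV r N P Ln) (t : Fin (al r))
    (v : Vx r s N P Ln) :
    v ∈ ed D s (eO w t) ↔ v ∈ HH ∨ v = .nv w ∨ (∃ π, par D.I w t = some π ∧ v = .nv π) ∨
      ∃ l, l < r ∧ (l = 0 → par D.I w t = none) ∧ v = cc 0 t l := by
  have hr := hO.hr
  simp only [ed, mem_union, mem_image, mem_range]
  refine or_congr Iff.rfl ⟨?_, ?_⟩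
  · rintro ⟨k, hk, rfl⟩
    simp only [vtx]
    split_ifs with h0 h1
    · exact Or.inl rfl
    · rcases h : par D.I w t with _ | π
      · exact Or.inr (Or.inr ⟨0, by omega, fun _ => rfl, rfl⟩)
      · exact Or.inr (Or.inl ⟨π, rfl, rfl⟩)
    · exact Or.inr (Or.inr ⟨k - 1, by omega, fun h => by omega, rfl⟩)
  · rintro (rfl | ⟨π, h, rfl⟩ | ⟨l, h1, h2, rfl⟩)
    · exact ⟨0, by omega, rfl⟩
    · exact ⟨1, by omega, by simp [vtx, h]⟩
    · refine ⟨l + 1, by omega, ?_⟩
      simp only [vtx]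
      rw [if_neg (by omega)]
      split_ifs with h3
      · obtain rfl : l = 0 := by omega
        rw [h2 rfl]
        rfl
      · rw [Nat.add_sub_cancel]

lemma mem_ed_F (D : Dat r N P Ln) (F : FD N Ln) (v : Vx r s N P Ln) :
    v ∈ ed D s (eF F) ↔ v ∈ HH ∨ v = .nv (tgtv D F) ∨ ∃ i, v = .nv (.cv (pay F i)) := by
  simp only [ed, mem_union, mem_image, mem_range]
  refine or_congr Iff.rfl ⟨?_, ?_⟩
  · rintro ⟨k, hk, rfl⟩
    simp only [vtx]
    split_ifs with h0
    · exact Or.inl rfl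
    · exact Or.inr ⟨_, rfl⟩
  · rintro (rfl | ⟨i, rfl⟩)
    · exact ⟨0, by omega, rfl⟩
    · have := i.isLt
      refine ⟨i + 1, by omega, ?_⟩
      simp only [vtx]
      rw [if_neg (by omega), Nat.add_sub_cancel, Fin.ofNat_val_eq_self]

lemma pay_inj (F : FD N Ln) : Function.Injective (pay F : Fin r → Cp r N Ln) := by
  intro i i' h
  have h1 : ∀ k : Fin r, (pay F k).2 = k := fun k => by
    rcases F with e | j | j <;> simp only [pay]
    split_ifs <;> rfl
  rw [← h1 i, h, h1 i']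

lemma tgt_ne_pay (D : Dat r N P Ln) (F : FD N Ln) (i : Fin r) : tgtv D F ≠ .cv (pay F i) := by
  rcases F with e | j | j
  · simp [tgtv]
  · simp only [tgtv, pay]
    split_ifs <;> simp
  · refine Fin.cases ?_ (fun j' => ?_) j
    · simp [tgtv]
    · simp only [tgtv, Fin.cases_succ, pay, aa, ne_eq, NV.cv.injEq, Prod.mk.injEq, FD.E.injEq]
      exact fun h => (Fin.castSucc_lt_succ (i := j')).ne h.1

lemma aa_mem_E (j : Fin (N + 1)) : (aa j : Cp r N Ln) ∈ PY r (.E j) := by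
  exact (mem_PY _ _).2 ⟨0, rfl⟩

lemma aa_mem_D (j : Fin N) : (aa j.castSucc : Cp r N Ln) ∈ PY r (.D j) := by
  exact (mem_PY _ _).2 ⟨0, by simp [pay, aa]⟩

/-- Only the main vertex of a block pays in two edges. -/
lemma pay_eq {F F' : FD N Ln} {i i' : Fin r} (h : pay F i = pay F' i') :
    F = F' ∨ ∃ j : Fin N, pay F i = aa j.castSucc ∧
      ((F = .D j ∧ F' = .E j.castSucc) ∨ (F = .E j.castSucc ∧ F' = .D j)) := by
  have z : ∀ k : Fin r, (k : ℕ) = 0 → k = 0 := fun k hk => Fin.ext (by simpa using hk)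
  rcases F with e | j | j <;> rcases F' with e' | j' | j' <;> simp only [pay] at h ⊢
  · exact Or.inl (Prod.mk.inj h).1
  · split_ifs at h <;> exact absurd (Prod.mk.inj h).1 (by simp)
  · exact absurd (Prod.mk.inj h).1 (by simp)
  · split_ifs at h <;> exact absurd (Prod.mk.inj h).1 (by simp)
  · split_ifs at h
    · exact Or.inl (congrArg _ (Fin.castSucc_injective _ (FD.E.inj (Prod.mk.inj h).1)))
    · exact absurd (Prod.mk.inj h).1 (by simp)
    · exact absurd (Prod.mk.inj h).1 (by simp)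
    · exact Or.inl (Prod.mk.inj h).1
  · split_ifs at h with h0
    · refine Or.inr ⟨j, ?_, Or.inl ⟨rfl, (Prod.mk.inj h).1.symm⟩⟩
      rw [if_pos h0, z i h0]
      rfl
    · exact absurd (Prod.mk.inj h).1 (by simp)
  · exact absurd (Prod.mk.inj h).1 (by simp)
  · split_ifs at h with h0
    · refine Or.inr ⟨j', ?_, Or.inr ⟨(Prod.mk.inj h).1, rfl⟩⟩
      rw [h, z i' h0]
      rfl
    · exact absurd (Prod.mk.inj h).1 (by simp)
  · exact Or.inl (Prod.mk.inj h).1

lemma mem_Blk (j : Fin (N + 1)) (z : Cp r N Ln) :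
    z ∈ Blk r j ↔ z ∈ PY r (.E j) ∨ ∃ j' : Fin N, j = j'.castSucc ∧ z ∈ PY r (.D j') := by
  unfold Blk
  rw [mem_union]
  refine or_congr Iff.rfl ⟨fun h => ?_, ?_⟩
  · split_ifs at h with h1
    · exact ⟨⟨j, h1⟩, rfl, h⟩
    · exact absurd h (notMem_empty _)
  · rintro ⟨j', rfl, h⟩
    rw [dif_pos (show ((j'.castSucc : Fin (N + 1)) : ℕ) < N from j'.isLt)]
    exact h

/-- The edges in which a vertex of block `j` pays. -/
lemma role_Blk {j : Fin (N + 1)} {F : FD N Ln} {i : Fin r} (h : pay F i ∈ Blk r j) :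
    (F = .E j ∨ ∃ j' : Fin N, j = j'.castSucc ∧ F = .D j') ∧ PY r F ⊆ Blk r j := by
  have h1 : F = .E j ∨ ∃ j' : Fin N, j = j'.castSucc ∧ F = .D j' := by
    rcases (mem_Blk _ _).1 h with g | ⟨j', rfl, g⟩
    · obtain ⟨i', h⟩ := (mem_PY _ _).1 g
      rcases pay_eq h with h | ⟨k, -, ⟨h1, h2⟩ | ⟨-, h2⟩⟩
      · exact Or.inl h
      · exact Or.inr ⟨k, FD.E.inj h2, h1⟩
      · exact absurd h2 (by simp)
    · obtain ⟨i', h⟩ := (mem_PY _ _).1 g
      rcases pay_eq h with h | ⟨k, -, ⟨-, h2⟩ | ⟨h1, h2⟩⟩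
      · exact Or.inr ⟨j', rfl, h⟩
      · exact absurd h2 (by simp)
      · exact Or.inl (by rw [h1, FD.D.inj h2])
  refine ⟨h1, fun z hz => (mem_Blk _ _).2 ?_⟩
  rcases h1 with rfl | ⟨j', h1, rfl⟩
  exacts [Or.inl hz, Or.inr ⟨j', h1, hz⟩]

lemma role_L {e : Ln} {F : FD N Ln} {i : Fin r} (h : pay F i ∈ PY r (.L e : FD N Ln)) :
    F = .L e := by
  obtain ⟨i', h⟩ := (mem_PY _ _).1 h
  rcases pay_eq h with h | ⟨k, -, ⟨-, h2⟩ | ⟨-, h2⟩⟩
  · exact h
  · exact absurd h2 (by simp)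
  · exact absurd h2 (by simp)

lemma rpar_Blk (D : Dat r N P Ln) {j : Fin (N + 1)} {z : Cp r N Ln} (h : z ∈ Blk r j) :
    ∀ p ∈ rpar D.I z, p ∈ Bas D := by
  have hE : ∀ (k : Fin (N + 1)) (i : Fin r), ∀ p ∈ rpar D.I ((.E k, i) : Cp r N Ln), p ∈ Bas D := by
    intro k i p hp
    simp only [rpar] at hp
    split_ifs at hp
    · simp only [List.mem_cons, List.not_mem_nil, or_false] at hp
      rcases hp with rfl | rfl | rfl | rfl <;> exact (mem_Bas _ _).2 ⟨_, rfl⟩
    · exact absurd hp List.not_mem_nil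
  rcases (mem_Blk _ _).1 h with g | ⟨j', rfl, g⟩
  · obtain ⟨i, rfl⟩ := (mem_PY _ _).1 g
    exact hE j i
  · obtain ⟨i, rfl⟩ := (mem_PY _ _).1 g
    simp only [pay]
    split_ifs
    · exact hE _ i
    · exact fun p hp => absurd hp List.not_mem_nil

lemma rpar_L (D : Dat r N P Ln) {e : Ln} {z : Cp r N Ln} (h : z ∈ PY r (.L e)) :
    ∀ p ∈ rpar D.I z, p ∈ Src D e := by
  obtain ⟨i, rfl⟩ := (mem_PY _ _).1 h
  intro p hp
  simp only [pay, rpar, List.mem_singleton] at hp
  exact (mem_Src _ _ _).2 ⟨_, hp⟩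

lemma bas_mem_rpar (I : Inst 4 P Ln) (j : Fin (N + 1)) (b : Fin 4) :
    I.bas b ∈ rpar I (aa j : Cp r N Ln) := by
  simp only [aa, rpar, Fin.val_zero, if_true]
  fin_cases b <;> simp

lemma src_mem_rpar (hO : Ok r s) (I : Inst 4 P Ln) (e : Ln) (l : Fin 2) :
    ∃ i : Fin r, I.src e l ∈ rpar I ((.L e, i) : Cp r N Ln) := by
  have hr := hO.hr
  fin_cases l
  · exact ⟨0, by simp [rpar]⟩
  · exact ⟨⟨1, by omega⟩, by simp [rpar]⟩

lemma card_Bas (D : Dat r N P Ln) : (Bas D).card ≤ 4 := by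
  exact card_image_le.trans (by simp)

lemma card_Src (D : Dat r N P Ln) (e : Ln) : (Src D e).card ≤ 2 := by
  exact card_image_le.trans (by simp)

end Pool.Agent.SemiRandom.Fix
end

-- part Pool.Agent.P.MP_c53d0e_pr.WA2
section

set_option autoImplicit false
set_option linter.unusedSectionVars false

namespace Pool.Agent.SemiRandom.Fix

open Finset Und

variable {r s N : ℕ} {P Ln : Type} [NeZero r] [Fintype P] [DecidableEq P] [Fintype Ln]
  [DecidableEq Ln]

lemma side_ne_WA2 (a : Fin 3) : a + 1 ≠ a := by revert a; decide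

lemma par_ne_WA2 {I : Inst 4 P Ln} {v π : NV r N P Ln} {t : ℕ} (h : par I v t = some π) :
    π ≠ v := by
  rcases par_cases h with h1 | ⟨p, h1, rfl⟩
  · obtain ⟨z, i, rfl, rfl, -⟩ := ptk_cases h1
    exact fun h2 => nomatch h2
  · obtain ⟨-, -, z, rfl, -⟩ := ppt_cases h1
    exact fun h2 => nomatch h2

lemma cc_mem_CC_WA2 (a : Fin 3) (i j : ℕ) : (cc a i j : Vx r s N P Ln) ∈ CC :=
  (mem_CC _).2 (Or.inr (Or.inr ⟨_, rfl⟩))

lemma vtx_Q_WA2 (hO : Ok r s) (D : Dat r N P Ln) (x : QE r) {k : ℕ} (h0 : k ≠ 0) (hk : k ≤ r) :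
    ∃ a i j, vtx D s (eQ x) k = cc a i j ∧ i ≤ al r ∧ j < 8 * r ∧
      k = if a = x.1.1.1 then (if j = (x.1.1.2.2 : ℕ) then 1 else 2) else j + 2 := by
  have hi := x.1.1.2.1.is_lt
  have hj := x.1.1.2.2.is_lt
  have ht := x.1.2.is_lt
  have hp := pm_succ hO
  by_cases h1 : k = 1
  · refine ⟨x.1.1.1, x.1.1.2.1, x.1.1.2.2, ?_, by omega, by omega, by simp [h1]⟩
    simp only [vtx, if_neg h0, if_pos h1]
    exact c_eq_cc _
  · by_cases h2 : k = 2 ∧ qbin x
    · have h3 : (x.1.1.2.2 : ℕ) = 0 ∧ (x.1.2 : ℕ) < pm r := h2.2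
      refine ⟨x.1.1.1, x.1.1.2.1, x.1.2 + 1, ?_, by omega, by omega, ?_⟩
      · simp only [vtx, if_neg h0, if_neg h1, if_pos h2, qpar]
      · rw [if_pos rfl, if_neg (by omega)]
        exact h2.1
    · refine ⟨x.1.1.1 + 1, x.1.2, k - 2, ?_, by omega, by omega, ?_⟩
      · simp only [vtx, if_neg h0, if_neg h1, if_neg h2]
      · rw [if_neg (side_ne_WA2 _)]
        omega

lemma vtx_O_WA2 (D : Dat r N P Ln) (w : NV r N P Ln) (t : Fin (al r)) {k : ℕ} (h0 : k ≠ 0) :
    (k = 1 ∧ ∃ π, par D.I w t = some π ∧ vtx D s (eO w t) k = .nv π) ∨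
      vtx D s (eO w t) k = cc 0 t (k - 1) := by
  by_cases h1 : k = 1
  · subst h1
    cases h : par D.I w t with
    | none => exact Or.inr (by simp [vtx, h])
    | some π => exact Or.inl ⟨rfl, π, rfl, by simp [vtx, h]⟩
  · exact Or.inr (by simp only [vtx, if_neg h0, if_neg h1])

lemma vtx_inj (hO : Ok r s) (D : Dat r N P Ln) (e : Ed r N P Ln) {k k' : ℕ} (hk : k ≤ r)
    (hk' : k' ≤ r) (h : vtx D s e k = vtx D s e k') : k = k' := by
  wlog hlt : k < k' generalizing k k'
  · by_contra hne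
    exact hne (this hk' hk h.symm (by omega)).symm
  have h0' : k' ≠ 0 := by omega
  rcases e with x | ⟨w, t⟩ | F
  · obtain ⟨a', i', j', e', b1, b2, b3⟩ := vtx_Q_WA2 hO D x h0' hk'
    rw [e'] at h
    by_cases h0 : k = 0
    · subst h0
      simp [vtx, cc] at h
    · obtain ⟨a, i, j, e, c1, c2, c3⟩ := vtx_Q_WA2 hO D x h0 hk
      rw [e] at h
      obtain ⟨rfl, rfl, rfl⟩ := (cc_inj hO c1 b1 c2 b2).1 h
      exact c3.trans b3.symm
  · have ht := t.is_lt
    by_cases h0 : k = 0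
    · subst h0
      rcases vtx_O_WA2 (s := s) D w t h0' with ⟨-, π, h1, h2⟩ | h2
      · rw [h2] at h
        simp only [vtx, if_true, Vx.nv.injEq] at h
        exact (par_ne_WA2 h1 h.symm).elim
      · rw [h2] at h
        simp [vtx, cc] at h
    · rcases vtx_O_WA2 (s := s) D w t h0' with ⟨h1, -⟩ | h2
      · omega
      · rcases vtx_O_WA2 (s := s) D w t h0 with ⟨-, π, -, h3⟩ | h3
        · rw [h2, h3] at h
          simp [cc] at h
        · rw [h2, h3] at h
          have := (cc_inj hO (by omega) (by omega) (by omega) (by omega)).1 h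
          omega
  · by_cases h0 : k = 0
    · simp only [vtx, if_pos h0, if_neg h0', Vx.nv.injEq] at h
      exact (tgt_ne_pay D F _ h).elim
    · simp only [vtx, if_neg h0, if_neg h0', Vx.nv.injEq, NV.cv.injEq] at h
      have h1 := congrArg Fin.val (pay_inj F h)
      rw [Fin.val_ofNat, Fin.val_ofNat, Nat.mod_eq_of_lt (by omega),
        Nat.mod_eq_of_lt (by omega)] at h1
      omega

lemma vtx_notMem_HH (D : Dat r N P Ln) (e : Ed r N P Ln) (k : ℕ) : vtx D s e k ∉ HH := by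
  rw [mem_HH]
  rintro ⟨j, h⟩
  rcases e with x | ⟨w, t⟩ | F
  · simp only [vtx, qpar, cc] at h
    split_ifs at h
  · by_cases h0 : k = 0
    · simp [vtx, h0] at h
    · rcases vtx_O_WA2 (s := s) D w t h0 with ⟨-, π, -, h2⟩ | h2
      · rw [h2] at h
        exact nomatch h
      · rw [h2] at h
        simp [cc] at h
  · simp only [vtx] at h
    split_ifs at h

lemma card_HH : (HH : Finset (Vx r s N P Ln)).card = s - r - 1 := by
  rw [HH, card_image_of_injective _ (fun _ _ h => Vx.hub.inj h), card_univ, Fintype.card_fin]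

lemma HH_sub_ed (D : Dat r N P Ln) (e : Ed r N P Ln) : HH ⊆ ed D s e := subset_union_left

theorem card_ed (hO : Ok r s) (D : Dat r N P Ln) (e : Ed r N P Ln) : (ed D s e).card = s := by
  rw [ed, card_union_of_disjoint, card_HH, card_image_of_injOn, card_range]
  · have := hO.hs
    omega
  · intro k hk k' hk' h
    exact vtx_inj hO D e (Nat.lt_succ_iff.1 (mem_range.1 hk)) (Nat.lt_succ_iff.1 (mem_range.1 hk')) h
  · refine disjoint_right.2 fun v hv => ?_
    obtain ⟨k, -, rfl⟩ := mem_image.1 hv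
    exact vtx_notMem_HH D e k

lemma key0_sub (hO : Ok r s) (D : Dat r N P Ln) (e : Ed r N P Ln) : key0 D s e ⊆ ed D s e := by
  rcases e with x | y | F
  · refine (image_subset_image fun k hk => ?_).trans subset_union_right
    exact mem_range.2 (Nat.lt_succ_iff.2 (mem_Icc.1 hk).2)
  · refine (image_subset_image fun k hk => ?_).trans subset_union_right
    exact mem_range.2 (Nat.lt_succ_of_lt (mem_range.1 hk))
  · intro v hv
    obtain ⟨z, hz, rfl⟩ := (mem_cvs _ _).1 hv
    obtain ⟨i, rfl⟩ := (mem_PY _ _).1 hz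
    exact (mem_ed_F D F _).2 (Or.inr (Or.inr ⟨i, rfl⟩))

lemma card_cvs_PY (F : FD N Ln) : (cvs (PY r F) : Finset (Vx r s N P Ln)).card = r := by
  rw [cvs, card_image_of_injective _ (fun _ _ h => NV.cv.inj (Vx.nv.inj h)), PY,
    card_image_of_injective _ (pay_inj F), card_univ, Fintype.card_fin]

lemma card_key0 (hO : Ok r s) (D : Dat r N P Ln) (e : Ed r N P Ln) :
    (key0 D s e).card = r := by
  rcases e with x | y | F
  · rw [key0, card_image_of_injOn, Nat.card_Icc]
    · omega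
    · intro k hk k' hk' h
      exact vtx_inj hO D _ (mem_Icc.1 hk).2 (mem_Icc.1 hk').2 h
  · rw [key0, card_image_of_injOn, card_range]
    intro k hk k' hk' h
    exact vtx_inj hO D _ (mem_range.1 hk).le (mem_range.1 hk').le h
  · exact card_cvs_PY F

/-- Outside its key an edge among constants has only hubs and `eta`. -/
lemma ed_Q_key0 (hO : Ok r s) (D : Dat r N P Ln) (x : QE r) {v : Vx r s N P Ln}
    (hv : v ∈ ed D s (eQ x)) : v ∈ key0 D s (eQ x) ∨ v ∈ HH ∨ v = .eta := by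
  rcases mem_union.1 hv with h | h
  · exact Or.inr (Or.inl h)
  · obtain ⟨k, hk, rfl⟩ := mem_image.1 h
    by_cases h0 : k = 0
    · exact Or.inr (Or.inr (by simp only [vtx, if_pos h0]))
    · exact Or.inl (mem_image_of_mem _
        (mem_Icc.2 ⟨by omega, Nat.lt_succ_iff.1 (mem_range.1 hk)⟩))

/-- Outside its key an owned edge has only vertices of `CC`. -/
lemma ed_O_key0 (hO : Ok r s) (D : Dat r N P Ln) (w : NV r N P Ln) (t : Fin (al r))
    {v : Vx r s N P Ln} (hv : v ∈ ed D s (eO w t)) : v ∈ key0 D s (eO w t) ∨ v ∈ CC := by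
  rcases mem_union.1 hv with h | h
  · exact Or.inr (mem_union_left _ h)
  · obtain ⟨k, hk, rfl⟩ := mem_image.1 h
    have hr := hO.hr
    by_cases h0 : k < r
    · exact Or.inl (mem_image_of_mem _ (mem_range.2 h0))
    · rcases vtx_O_WA2 (s := s) D w t (k := k) (by omega) with ⟨h1, -⟩ | h1
      · omega
      · exact Or.inr (h1 ▸ cc_mem_CC_WA2 _ _ _)

lemma mem_key0_O (hO : Ok r s) (D : Dat r N P Ln) (w : NV r N P Ln) (t : Fin (al r)) :
    Vx.nv w ∈ key0 D s (eO w t) ∧ (∀ π, par D.I w t = some π → Vx.nv π ∈ key0 D s (eO w t)) ∧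
      ∀ v ∈ key0 D s (eO w t), v = .nv w ∨ (∃ π, par D.I w t = some π ∧ v = .nv π) ∨ v ∈ CC := by
  have hr := hO.hr
  refine ⟨mem_image.2 ⟨0, mem_range.2 (by omega), by simp [vtx]⟩,
    fun π h => mem_image.2 ⟨1, mem_range.2 (by omega), by simp [vtx, h]⟩, fun v hv => ?_⟩
  obtain ⟨k, -, rfl⟩ := mem_image.1 hv
  by_cases h0 : k = 0
  · exact Or.inl (by simp only [vtx, if_pos h0])
  · rcases vtx_O_WA2 (s := s) D w t h0 with ⟨-, h1⟩ | h1
    · exact Or.inr (Or.inl h1)
    · exact Or.inr (Or.inr (h1 ▸ cc_mem_CC_WA2 _ _ _))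

lemma ed_Q_sub (hO : Ok r s) (D : Dat r N P Ln) (x : QE r) : ed D s (eQ x) ⊆ CC := by
  intro v hv
  rcases (mem_ed_Q hO D x v).1 hv with h | rfl | rfl | ⟨-, rfl⟩ | ⟨l, -, -, rfl⟩
  · exact mem_union_left _ h
  · exact (mem_CC _).2 (Or.inr (Or.inl rfl))
  · exact (mem_CC _).2 (Or.inr (Or.inr ⟨_, rfl⟩))
  · exact cc_mem_CC_WA2 _ _ _
  · exact cc_mem_CC_WA2 _ _ _

lemma eta_mem_Q (hO : Ok r s) (D : Dat r N P Ln) (x : QE r) : Vx.eta ∈ ed D s (eQ x) :=
  (mem_ed_Q hO D x _).2 (Or.inr (Or.inl rfl))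

lemma card_CC : (CC : Finset (Vx r s N P Ln)).card =
    s - r - 1 + 1 + (CN : Finset (Vx r s N P Ln)).card := by
  rw [CC, card_union_of_disjoint, card_HH, card_insert_of_notMem (by simp)]
  · omega
  · refine disjoint_left.2 fun v hv h => ?_
    obtain ⟨j, rfl⟩ := (mem_HH _).1 hv
    simp at h

end Pool.Agent.SemiRandom.Fix
end

-- part Pool.Agent.P.MP_c53d0e_pr.WA4
section

set_option autoImplicit false
set_option linter.unusedSectionVars false

namespace Pool.Agent.SemiRandom.Fix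

open Finset Und

variable {r s N : ℕ} {P Ln : Type} [NeZero r] [Fintype P] [DecidableEq P] [Fintype Ln]
  [DecidableEq Ln]

lemma dnQ_WA4 {x : QE r} {v : Vx r s N P Ln} (h : dn (eQ x : Ed r N P Ln) v ≠ 0) :
    v = .c x.1.1 ∨ (qbin x ∧ v = qpar x) := by
  simp only [dn] at h
  split_ifs at h with h1 h2 h3 h4
  exacts [.inl h2, .inr ⟨h1, h3⟩, (h rfl).elim, .inl h4, (h rfl).elim]

lemma dn_Q {x : QE r} {v : Vx r s N P Ln} (h : dn (eQ x : Ed r N P Ln) v ≠ 0) : v ∈ CN := by
  rcases dnQ_WA4 h with rfl | ⟨-, rfl⟩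
  exacts [(mem_CN _).2 ⟨_, rfl⟩, cc_mem_CN _ _ _]

lemma dn_O {w : NV r N P Ln} {t : Fin (al r)} {v : Vx r s N P Ln} (h : dn (eO w t) v ≠ 0) :
    v = .nv w ∨ ∃ τ, ptk w t = some τ ∧ v = .nv τ := by
  simp only [dn] at h
  cases k : ptk w t with
  | none =>
    simp only [k, Option.elim] at h
    split_ifs at h with h1
    exacts [.inl h1, (h rfl).elim]
  | some τ =>
    simp only [k, Option.elim] at h
    split_ifs at h with h1 h2
    exacts [.inl h1, .inr ⟨τ, rfl, h2⟩, (h rfl).elim]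

lemma dn_F {F : FD N Ln} {v : Vx r s N P Ln} (h : dn (eF F : Ed r N P Ln) v ≠ 0) :
    ∃ i, v = .nv (.cv (pay F i)) := by
  by_contra k
  exact h (sum_eq_zero fun i _ => if_neg fun e => k ⟨i, e⟩)

lemma dn_notQ {e : Ed r N P Ln} (he : ¬ IsQ e) {v : Vx r s N P Ln} (h : dn e v ≠ 0) :
    ∃ w, v = .nv w := by
  rcases e with x | ⟨w, t⟩ | F
  · exact (he trivial).elim
  · rcases dn_O h with k | ⟨τ, -, k⟩
    exacts [⟨_, k⟩, ⟨_, k⟩]
  · obtain ⟨i, k⟩ := dn_F h
    exact ⟨_, k⟩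

lemma dn_key0 (hO : Ok r s) (D : Dat r N P Ln) {e : Ed r N P Ln} {v : Vx r s N P Ln}
    (h : dn e v ≠ 0) : v ∈ key0 D s e := by
  have hr := hO.hr
  rcases e with x | ⟨w, t⟩ | F
  · rcases dnQ_WA4 h with rfl | ⟨k, rfl⟩
    · exact mem_image.2 ⟨1, mem_Icc.2 ⟨le_rfl, by omega⟩, by simp [vtx]⟩
    · exact mem_image.2 ⟨2, mem_Icc.2 ⟨by omega, hr⟩, by simp [vtx, k]⟩
  · rcases dn_O h with rfl | ⟨τ, k, rfl⟩
    · exact (mem_key0_O hO D w t).1
    · exact (mem_key0_O hO D w t).2.1 τ (par_of_ptk D.I k).1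
  · obtain ⟨i, rfl⟩ := dn_F h
    exact (mem_cvs _ _).2 ⟨_, (mem_PY _ _).2 ⟨i, rfl⟩, rfl⟩

lemma sum_lv (hO : Ok r s) (F : FD N Ln) :
    ∑ i : Fin r, lv F i + (if F = .E (Fin.last N) then 4 else 0) = 8 * r := by
  have _ := hO
  cases F with
  | L e => simp [lv, mul_comm]
  | D j => simp [lv, mul_comm]
  | E j =>
    by_cases hj : j = Fin.last N
    · subst hj
      have : ∑ i : Fin r, (lv (.E (Fin.last N) : FD N Ln) i + if i = 0 then 4 else 0) =
          ∑ _i : Fin r, 8 := sum_congr rfl fun i _ => by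
        by_cases hi : i = 0 <;> simp [lv, hi]
      simpa [sum_add_distrib, mul_comm] using this
    · have : (j : ℕ) ≠ N := fun e => hj (Fin.ext e)
      simp [lv, hj, this, mul_comm]

lemma two_WA4 {X : Type} [Fintype X] [DecidableEq X] {a b : X} (h : a ≠ b) (m n : ℕ) :
    ∑ v, (if v = a then m else if v = b then n else 0) = m + n := by
  have : ∀ v, (if v = a then m else if v = b then n else 0) =
      (if v = a then m else 0) + if v = b then n else 0 := fun v => by
    split_ifs with h1 h2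
    exacts [(h (h1.symm.trans h2)).elim, rfl, (zero_add _).symm, rfl]
  simp [this, sum_add_distrib]

lemma dn_sum (hO : Ok r s) (e : Ed r N P Ln) :
    ∑ v : Vx r s N P Ln, dn e v + (if e = eF (.E (Fin.last N)) then 4 else 0) = 8 * r := by
  have hp := pm_succ hO
  rcases e with x | ⟨w, t⟩ | F
  · rw [if_neg (by simp), add_zero]
    by_cases k : qbin x
    · simp only [dn, if_pos k]
      rw [two_WA4, hp]
      rw [c_eq_cc, qpar, Ne, cc_inj hO (Nat.lt_succ_iff.1 (Fin.is_lt _))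
        (Nat.lt_succ_iff.1 (Fin.is_lt _)) (hp ▸ Fin.is_lt _) (by have := k.2; omega)]
      have := k.1
      omega
    · simp [dn, if_neg k]
  · rw [if_neg (by simp), add_zero]
    cases k : ptk w t with
    | none => simp [dn, k]
    | some τ =>
      obtain ⟨z, i, rfl, rfl, -⟩ := ptk_cases k
      simp only [dn, k, Option.elim]
      rw [two_WA4 (by simp), hp]
  · simp only [dn]
    rw [sum_comm, ← sum_lv hO F]
    simp

lemma dn_sum_le (hO : Ok r s) (e : Ed r N P Ln) (U : Finset (Vx r s N P Ln)) :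
    ∑ v ∈ U, dn e v ≤ 8 * r :=
  (sum_le_sum_of_subset (subset_univ U)).trans (dn_sum hO e ▸ Nat.le_add_right _ _)

lemma dn_F_pay (F : FD N Ln) (i : Fin r) :
    dn (eF F : Ed r N P Ln) (.nv (.cv (pay F i)) : Vx r s N P Ln) = lv F i := by
  simp [dn, (pay_inj F).eq_iff]

lemma dn_F_UU (F : FD N Ln) (X : Finset (Cp r N Ln)) (A : Finset P) :
    ∑ v ∈ (UU X A : Finset (Vx r s N P Ln)), dn (eF F : Ed r N P Ln) v =
      ∑ i : Fin r, if pay F i ∈ X then lv F i else 0 := by
  simp only [dn]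
  rw [sum_comm]
  simp only [sum_ite_eq', cv_mem_UU]

/-- A missing payer leaves a gap of eight units. -/
lemma gap_F (hO : Ok r s) (F : FD N Ln) (X : Finset (Cp r N Ln)) (A : Finset P) {i : Fin r}
    (hi : pay F i ∉ X) :
    ∑ v ∈ (UU X A : Finset (Vx r s N P Ln)), dn (eF F : Ed r N P Ln) v + 8 ≤ 8 * r := by
  have _ := hO
  have : ∑ j : Fin r, ((if pay F j ∈ X then lv F j else 0) + if j = i then 8 else 0) ≤
      ∑ _j : Fin r, 8 := sum_le_sum fun j _ => by
    have : lv F j ≤ 8 := by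
      cases F <;> simp only [lv, le_refl]
      split_ifs <;> omega
    by_cases hj : j = i
    · simp [hj, hi]
    · rw [if_neg hj]
      split_ifs <;> omega
  rw [dn_F_UU]
  simpa [sum_add_distrib, mul_comm] using this

/-- Edges in which a vertex of `UU X A` has a duty. -/
lemma dn_UU {X : Finset (Cp r N Ln)} {A : Finset P} {e : Ed r N P Ln} {v : Vx r s N P Ln}
    (hv : v ∈ UU X A) (h : dn e v ≠ 0) :
    (∃ w t, e = eO w t ∧ (Vx.nv w : Vx r s N P Ln) ∈ UU X A) ∨
      ∃ F i, e = eF F ∧ pay F i ∈ X := by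
  rcases e with x | ⟨w, t⟩ | F
  · obtain ⟨y, rfl⟩ := (mem_CN _).1 (dn_Q h)
    simp [mem_UU] at hv
  · refine .inl ⟨w, t, rfl, ?_⟩
    rcases dn_O h with rfl | ⟨τ, k, rfl⟩
    · exact hv
    · obtain ⟨z, i, rfl, rfl, -⟩ := ptk_cases k
      exact (cv_mem_UU _ _ _).2 ((tk_mem_UU _ _ _ _).1 hv).1
  · obtain ⟨i, rfl⟩ := dn_F h
    exact .inr ⟨F, i, rfl, (cv_mem_UU _ _ _).1 hv⟩

lemma ed_O_sub (hO : Ok r s) (D : Dat r N P Ln) {X : Finset (Cp r N Ln)} {A B : Finset P}
    (hX : ∀ z ∈ X, ∀ p ∈ rpar D.I z, p ∈ A ∨ p ∈ B) {w : NV r N P Ln}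
    (hw : (Vx.nv w : Vx r s N P Ln) ∈ UU X A) (t : Fin (al r)) :
    ed D s (eO w t) ⊆ CC ∪ pts B ∪ UU X A := by
  intro v hv
  rw [mem_union, mem_union]
  rcases (mem_ed_O hO D w t v).1 hv with k | rfl | ⟨π, k, rfl⟩ | ⟨l, -, -, rfl⟩
  · exact .inl (.inl (mem_union_left _ k))
  · exact .inr hw
  · rcases par_cases k with k | ⟨p, k', rfl⟩
    · obtain ⟨z, i, rfl, rfl, h1, h2⟩ := ptk_cases k
      exact .inr ((tk_mem_UU _ _ _ _).2 ⟨(cv_mem_UU _ _ _).1 hw, h1 ▸ h2⟩)
    · obtain ⟨-, -, z, rfl, h1⟩ := ppt_cases k'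
      rcases hX z ((cv_mem_UU _ _ _).1 hw) p h1 with h2 | h2
      · exact .inr ((pt_mem_UU _ _ _).2 h2)
      · exact .inl (.inr ((mem_pts _ _).2 ⟨p, h2, rfl⟩))
  · exact .inl (.inl (mem_union_right _ (mem_insert_of_mem (cc_mem_CN _ _ _))))

lemma stF_pay (F : FD N Ln) (i : Fin r) : stF (pay F i).1 = stF F := by
  cases F <;> simp only [pay]
  split_ifs <;> rfl

lemma stF_Blk {j : Fin (N + 1)} {z : Cp r N Ln} (h : z ∈ Blk r j) : stF z.1 = 3 + j := by
  rcases (mem_Blk j z).1 h with k | ⟨j', rfl, k⟩ <;> obtain ⟨i, rfl⟩ := (mem_PY _ _).1 k <;>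
    exact stF_pay _ i

lemma stN_tgt (D : Dat r N P Ln) (F : FD N Ln) : stN (tgtv D F) < stF F := by
  cases F with
  | L e => exact one_lt_two
  | D j => exact (by omega : 2 < 3 + (j : ℕ))
  | E j =>
    cases j using Fin.cases with
    | zero => exact (by omega : 1 < 3)
    | succ j => exact (by omega : 3 + (j : ℕ) < 3 + (j + 1))

lemma stV_le (hO : Ok r s) (D : Dat r N P Ln) {e : Ed r N P Ln} {v : Vx r s N P Ln}
    (hv : v ∈ ed D s e) : stV v ≤ stE e := by
  rcases e with x | ⟨w, t⟩ | F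
  · rcases (mem_CC v).1 (ed_Q_sub hO D x hv) with ⟨j, rfl⟩ | rfl | ⟨y, rfl⟩ <;> exact le_rfl
  · rcases (mem_ed_O hO D w t v).1 hv with k | rfl | ⟨π, k, rfl⟩ | ⟨l, -, -, rfl⟩
    · obtain ⟨j, rfl⟩ := (mem_HH v).1 k
      exact Nat.zero_le _
    · exact le_rfl
    · rcases par_cases k with k | ⟨p, k', rfl⟩
      · obtain ⟨z, i, rfl, rfl, -⟩ := ptk_cases k
        exact le_rfl
      · obtain ⟨-, -, ⟨F, i⟩, rfl, -⟩ := ppt_cases k'
        cases F <;> simp only [stV, stE, stN, stF] <;> omega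
    · exact Nat.zero_le _
  · rcases (mem_ed_F D F v).1 hv with k | rfl | ⟨i, rfl⟩
    · obtain ⟨j, rfl⟩ := (mem_HH v).1 k
      exact Nat.zero_le _
    · exact (stN_tgt D F).le
    · exact (stF_pay F i).le

lemma stV_dn {e : Ed r N P Ln} {v : Vx r s N P Ln} (h : dn e v ≠ 0) : stV v = stE e := by
  rcases e with x | ⟨w, t⟩ | F
  · obtain ⟨y, rfl⟩ := (mem_CN _).1 (dn_Q h)
    rfl
  · rcases dn_O h with rfl | ⟨τ, k, rfl⟩
    · rfl
    · obtain ⟨z, i, rfl, rfl, -⟩ := ptk_cases k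
      rfl
  · obtain ⟨i, rfl⟩ := dn_F h
    exact stF_pay F i

lemma stE_le (e : Ed r N P Ln) : stE e ≤ N + 3 := by
  have k : ∀ F : FD N Ln, stF F ≤ N + 3 := fun F => by
    cases F <;> simp only [stF] <;> omega
  rcases e with x | ⟨w, t⟩ | F
  · exact Nat.zero_le _
  · cases w
    exacts [(by omega : 1 ≤ N + 3), k _, k _]
  · exact k F

lemma stF_last {F : FD N Ln} : stF F = N + 3 ↔ F = .E (Fin.last N) := by
  cases F <;> simp only [stF, reduceCtorEq, iff_false, FD.E.injEq, Fin.ext_iff, Fin.val_last] <;>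
    omega

end Pool.Agent.SemiRandom.Fix
end

-- part Pool.Agent.P.MP_c53d0e_pr.WA5
section

set_option autoImplicit false
set_option linter.unusedSectionVars false

namespace Pool.Agent.SemiRandom.Fix

open Finset Und

variable {r s N : ℕ} {P Ln : Type} [NeZero r] [Fintype P] [DecidableEq P] [Fintype Ln]
  [DecidableEq Ln]

lemma sumQ_WA5 (f : Ed r N P Ln → ℕ) (h : ∀ e, ¬ IsQ e → f e = 0) :
    ∑ e, f e = ∑ y : QE r, f (eQ y) := by
  rw [Fintype.sum_sum_type, sum_eq_zero (s := univ) fun e _ => h (Sum.inr e) id, add_zero]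

lemma dn_c_WA5 {e : Ed r N P Ln} (he : ¬ IsQ e) (x : Cn r) : dn e (.c x : Vx r s N P Ln) = 0 := by
  by_contra h
  obtain ⟨w, hw⟩ := dn_notQ he h
  cases hw

lemma ite_WA5 {m n : ℕ} (h : m ≤ n) (a b : ℕ) :
    ∑ t : Fin n, (if (t : ℕ) < m then a else b) = m * a + (n - m) * b := by
  obtain ⟨k, rfl⟩ := Nat.exists_eq_add_of_le h
  rw [Fin.sum_univ_eq_sum_range fun t => if t < m then a else b, sum_range_add,
    sum_congr rfl fun t ht => if_pos (mem_range.1 ht),
    sum_congr (s₁ := range k) rfl fun t _ => if_neg (by omega)]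
  simp

lemma qpar_WA5 (hO : Ok r s) {y : QE r} (hy : qbin y) (x : Cn r) :
    (.c x : Vx r s N P Ln) = qpar y ↔
      x.1 = y.1.1.1 ∧ (x.2.1 : ℕ) = y.1.1.2.1 ∧ (x.2.2 : ℕ) = y.1.2 + 1 := by
  have h := pm_succ hO
  have h1 := hy.2
  have h2 := x.2.2.2
  rw [c_eq_cc, qpar, cc_inj hO (Nat.lt_succ_iff.1 x.2.1.2) (Nat.lt_succ_iff.1 y.1.1.2.1.2)
    (by omega) (by omega)]

lemma ld_c (hO : Ok r s) (x : Cn r) : ld (.c x : Vx r s N P Ln) = qq r := by
  have h := pm_succ hO
  have hp : pm r ≤ al r := by unfold al; omega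
  have h1 : ∀ y : QE r, dn (eQ y : Ed r N P Ln) (.c x : Vx r s N P Ln) =
      (if y.1.1 = x then (if (x.2.2 : ℕ) = 0 ∧ (y.1.2 : ℕ) < pm r then pm r else 8 * r) else 0) +
        if qbin y ∧ (.c x : Vx r s N P Ln) = qpar y then 1 else 0 := fun y => by
    by_cases e : y.1.1 = x
    · subst e
      by_cases b : qbin y
      · have k : ¬ (.c y.1.1 : Vx r s N P Ln) = qpar y := fun c => by
          have := ((qpar_WA5 hO b _).1 c).2.2
          have := b.1
          omega
        simp only [dn, b, k, if_true, and_false, if_false, add_zero]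
        exact (if_pos b).symm
      · simp only [dn, b, if_true, false_and, if_false, add_zero]
        exact (if_neg b).symm
    · have k : ¬ (.c x : Vx r s N P Ln) = .c y.1.1 := fun c => e (Vx.c.inj c).symm
      by_cases b : qbin y <;> simp only [dn, b, e, k, if_true, if_false, true_and, false_and, zero_add]
  rw [ld, sumQ_WA5 _ fun e he => dn_c_WA5 he x, sum_congr rfl fun y _ => h1 y, sum_add_distrib,
    ← sum_subtype (univ.filter fun z : Cn r × Fin (al r + 1) =>
      (z.2 : ℕ) < al r ∨ (z.1.2.2 : ℕ) = 0) (by simp) fun z => if z.1 = x then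
        (if (x.2.2 : ℕ) = 0 ∧ (z.2 : ℕ) < pm r then pm r else 8 * r) else 0,
    sum_filter, Fintype.sum_prod_type, sum_eq_single x (fun z _ hz => by simp [hz]) (by simp)]
  by_cases j : (x.2.2 : ℕ) = 0
  · rw [sum_eq_zero (s := (univ : Finset (QE r))) fun y _ => if_neg fun c => by
      have := ((qpar_WA5 hO c.1 _).1 c.2).2.2
      omega]
    simp only [j, or_true, if_true, true_and]
    rw [ite_WA5 (by omega), qq, ← h]
    obtain ⟨k, e⟩ := Nat.exists_eq_add_of_le hp
    rw [e, show pm r + k + 1 - pm r = k + 1 by omega]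
    ring
  · have h2 := x.2.2.2
    have h3 : qbin (⟨((x.1, x.2.1, 0), ⟨x.2.2 - 1, by omega⟩), Or.inr rfl⟩ : QE r) :=
      ⟨rfl, show (x.2.2 : ℕ) - 1 < pm r by omega⟩
    rw [sum_eq_single (s := (univ : Finset (QE r))) _ (fun y _ hy => if_neg fun c => hy ?_)
      (by simp), if_pos ⟨h3, (qpar_WA5 hO h3 x).2 ⟨rfl, rfl,
        show (x.2.2 : ℕ) = x.2.2 - 1 + 1 by omega⟩⟩]
    · simp only [j, or_false, if_true, false_and, if_false]
      rw [ite_WA5 (by omega), qq]
      simp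
    · obtain ⟨c1, c2, c3⟩ := (qpar_WA5 hO c.1 _).1 c.2
      exact Subtype.ext (Prod.ext (Prod.ext c1.symm (Prod.ext (Fin.ext c2.symm) (Fin.ext c.1.1)))
        (Fin.ext (show (y.1.2 : ℕ) = x.2.2 - 1 by omega)))

lemma ld_hub (j : Fin (s - r - 1)) : ld (.hub j : Vx r s N P Ln) = 0 := by
  refine sum_eq_zero fun e _ => by_contra fun h => ?_
  by_cases he : IsQ e
  · rcases e with x | e
    · simpa using dn_Q h
    · exact he
  · obtain ⟨w, hw⟩ := dn_notQ he h
    cases hw

lemma ld_eta : ld (.eta : Vx r s N P Ln) = 0 := by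
  refine sum_eq_zero fun e _ => by_contra fun h => ?_
  by_cases he : IsQ e
  · rcases e with x | e
    · simpa using dn_Q h
    · exact he
  · obtain ⟨w, hw⟩ := dn_notQ he h
    cases hw

/-- The duties of the constants add up to the cost of the edges among them. -/
lemma card_QE (hO : Ok r s) :
    Fintype.card (QE r) * (8 * r) = (CN : Finset (Vx r s N P Ln)).card * qq r := by
  have h1 : ∑ v ∈ (CN : Finset (Vx r s N P Ln)), ld v = _ := sum_const_nat fun v hv => by
    obtain ⟨x, rfl⟩ := (mem_CN v).1 hv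
    exact ld_c hO x
  rw [← h1]
  simp only [ld]
  rw [sum_comm, sumQ_WA5 _ fun e he => sum_eq_zero fun v hv => ?_]
  · refine (sum_const_nat fun y _ => ?_).symm
    have h2 := dn_sum (P := P) (Ln := Ln) (N := N) hO (eQ y)
    rw [if_neg (by simp), add_zero] at h2
    rw [← h2]
    exact sum_subset (subset_univ _) fun v _ hv => by_contra fun c => hv (dn_Q c)
  · obtain ⟨x, rfl⟩ := (mem_CN v).1 hv
    exact dn_c_WA5 he x

end Pool.Agent.SemiRandom.Fix
end

-- part Pool.Agent.P.MP_c53d0e_pr.WA6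
section

set_option autoImplicit false
set_option linter.unusedSectionVars false

namespace Pool.Agent.SemiRandom.Fix

open Finset Und

variable {r s N : ℕ} {P Ln : Type} [NeZero r] [Fintype P] [DecidableEq P] [Fintype Ln]
  [DecidableEq Ln]

lemma dnQ_WA6 (x : QE r) (w : NV r N P Ln) :
    dn (eQ x : Ed r N P Ln) (.nv w : Vx r s N P Ln) = 0 := by
  by_contra h
  have := dn_Q h
  simp at this

lemma dnO_WA6 (v w : NV r N P Ln) (t : Fin (al r)) :
    dn (eO v t : Ed r N P Ln) (.nv w : Vx r s N P Ln) =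
      (if v = w then (if (ptk v t).isSome then pm r else 8 * r) else 0) +
        (if ptk v t = some w then 1 else 0) := by
  show (ptk v t).elim (if (Vx.nv w : Vx r s N P Ln) = .nv v then 8 * r else 0)
      (fun τ => if (Vx.nv w : Vx r s N P Ln) = .nv v then pm r
        else if (Vx.nv w : Vx r s N P Ln) = .nv τ then 1 else 0) = _
  cases h : ptk v t with
  | none =>
    by_cases hv : v = w
    · subst hv; simp
    · have : w ≠ v := fun h => hv h.symm
      simp [hv, this]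
  | some τ =>
    obtain ⟨z, i, h1, h2, -, -⟩ := ptk_cases h
    have hne : τ ≠ v := by rw [h1, h2]; simp
    by_cases hv : v = w
    · subst hv; simp [hne]
    · have : w ≠ v := fun h => hv h.symm
      by_cases hτ : τ = w
      · subst hτ; simp [hv, this]
      · have h3 : w ≠ τ := fun h => hτ h.symm
        simp [hv, hτ, this, h3]

lemma pay_snd_WA6 (F : FD N Ln) (i : Fin r) : (pay F i).2 = i := by
  cases F <;> simp only [pay]
  split_ifs <;> rfl

lemma dnF_WA6 (F : FD N Ln) (z : Cp r N Ln) :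
    dn (eF F : Ed r N P Ln) (.nv (.cv z) : Vx r s N P Ln) =
      if z = pay F z.2 then lv F z.2 else 0 := by
  show (∑ i : Fin r, if (Vx.nv (.cv z) : Vx r s N P Ln) = .nv (.cv (pay F i)) then lv F i else 0)
    = _
  rw [Finset.sum_eq_single z.2]
  · simp
  · intro i _ hi
    rw [if_neg]
    intro h
    simp only [Vx.nv.injEq, NV.cv.injEq] at h
    apply hi
    rw [h, pay_snd_WA6]
  · simp

lemma ld_nv_WA6 (w : NV r N P Ln) :
    ld (.nv w : Vx r s N P Ln) =
      ∑ t : Fin (al r), (if (ptk w t).isSome then pm r else 8 * r) +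
        ∑ y : NV r N P Ln × Fin (al r), (if ptk y.1 y.2 = some w then 1 else 0) +
        ∑ F : FD N Ln, dn (eF F : Ed r N P Ln) (.nv w : Vx r s N P Ln) := by
  unfold ld
  rw [Fintype.sum_sum_type, Fintype.sum_sum_type]
  have h1 : ∑ x : QE r, dn (Sum.inl x : Ed r N P Ln) (.nv w : Vx r s N P Ln) = 0 :=
    Finset.sum_eq_zero fun x _ => dnQ_WA6 x w
  have h2 : ∑ y : NV r N P Ln × Fin (al r),
      dn (Sum.inr (Sum.inl y) : Ed r N P Ln) (.nv w : Vx r s N P Ln) =
      ∑ t : Fin (al r), (if (ptk w t).isSome then pm r else 8 * r) +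
        ∑ y : NV r N P Ln × Fin (al r), (if ptk y.1 y.2 = some w then 1 else 0) := by
    have : ∀ y : NV r N P Ln × Fin (al r),
        dn (Sum.inr (Sum.inl y) : Ed r N P Ln) (.nv w : Vx r s N P Ln) =
        (if y.1 = w then (if (ptk y.1 y.2).isSome then pm r else 8 * r) else 0) +
        (if ptk y.1 y.2 = some w then 1 else 0) := fun y => dnO_WA6 y.1 w y.2
    simp only [this, Finset.sum_add_distrib]
    congr 1
    rw [Fintype.sum_prod_type, Finset.sum_eq_single w]
    · simp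
    · intro v _ hv
      simp [hv]
    · simp
  rw [h1, h2, zero_add]

lemma own_none_WA6 (w : NV r N P Ln) (h : ∀ t, ptk w t = none) :
    ∑ t : Fin (al r), (if (ptk w t).isSome then pm r else 8 * r) = al r * (8 * r) := by
  simp [h]

lemma par_zero_WA6 (w : NV r N P Ln) (h : ∀ z i, w ≠ .tk z i) :
    ∑ y : NV r N P Ln × Fin (al r), (if ptk y.1 y.2 = some w then 1 else 0) = 0 := by
  refine Finset.sum_eq_zero fun y _ => ?_
  rw [if_neg]
  intro h'
  obtain ⟨z, i, -, h2, -, -⟩ := ptk_cases h'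
  exact h z i h2

lemma F_zero_WA6 (w : NV r N P Ln) (h : ∀ z, w ≠ .cv z) :
    ∑ F : FD N Ln, dn (eF F : Ed r N P Ln) (.nv w : Vx r s N P Ln) = 0 := by
  refine Finset.sum_eq_zero fun F _ => ?_
  by_contra h'
  obtain ⟨i, hi⟩ := dn_F h'
  simp only [Vx.nv.injEq] at hi
  exact h _ hi

lemma al_big_WA6 : 30 ≤ al r := by
  unfold al; omega

lemma own_cv_WA6 (hO : Ok r s) (z : Cp r N Ln) :
    ∑ t : Fin (al r), (if (ptk (.cv z : NV r N P Ln) t).isSome then pm r else 8 * r) + npriv z =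
      al r * (8 * r) := by
  have h1 : ∀ t : ℕ, (if (ptk (.cv z : NV r N P Ln) t).isSome then pm r else 8 * r) =
      if t < npriv z then pm r else 8 * r := by
    intro t
    by_cases ht : t < npriv z <;> simp [ptk, ht]
  simp only [h1]
  have h2 : ∑ t : Fin (al r), (if (t : ℕ) < npriv z then 1 else 0) = npriv z := by
    rw [Fin.sum_univ_eq_sum_range (fun t => if t < npriv z then 1 else 0)]
    rw [← Finset.card_filter]
    have : (range (al r)).filter (fun t => t < npriv z) = range (npriv z) := by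
      ext t
      have := npriv_le z
      have := al_big_WA6 (r := r)
      simp only [mem_filter, mem_range]
      omega
    rw [this, card_range]
  have h3 := pm_succ hO
  calc _ = ∑ t : Fin (al r), ((if (t : ℕ) < npriv z then pm r else 8 * r) +
        (if (t : ℕ) < npriv z then 1 else 0)) := by rw [Finset.sum_add_distrib, h2]
    _ = ∑ _t : Fin (al r), 8 * r := by
        refine Finset.sum_congr rfl fun t _ => ?_
        split_ifs <;> omega
    _ = _ := by simp

lemma F_cv_WA6 (z : Cp r N Ln) :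
    (∑ F : FD N Ln, if z = pay F z.2 then lv F z.2 else 0) =
      if (∃ j, z.1 = .D j) ∧ (z.2 : ℕ) = 0 then 0 else npriv z + 1 := by
  obtain ⟨F0, i⟩ := z
  cases F0 with
  | L e =>
    rw [Finset.sum_eq_single (FD.L e)]
    · simp [pay, lv, npriv]
    · intro F _ hF
      rw [if_neg]
      intro h
      cases F with
      | L e' => simp only [pay, Prod.mk.injEq, and_true] at h; exact hF h.symm
      | D j => simp only [pay] at h; split_ifs at h <;> simp at h
      | E j => simp [pay] at h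
    · simp
  | D j =>
    by_cases hi : (i : ℕ) = 0
    · rw [if_pos ⟨⟨j, rfl⟩, hi⟩]
      refine Finset.sum_eq_zero fun F _ => ?_
      rw [if_neg]
      intro h
      cases F <;> simp [pay, hi] at h
    · rw [Finset.sum_eq_single (FD.D j)]
      · simp [pay, lv, npriv, hi]
      · intro F _ hF
        rw [if_neg]
        intro h
        cases F with
        | L e' => simp [pay] at h
        | D j' =>
          simp only [pay, hi, if_false, Prod.mk.injEq, and_true] at h
          exact hF h.symm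
        | E j => simp [pay] at h
      · simp
  | E j =>
    rw [if_neg (by simp)]
    by_cases hi : (i : ℕ) = 0 ∧ (j : ℕ) < N
    · obtain ⟨hi, hj⟩ := hi
      rw [Finset.sum_eq_add (FD.E j) (FD.D ⟨j, hj⟩) (by simp)]
      · have e1 : (⟨j, hj⟩ : Fin N).castSucc = j := rfl
        have hj' : (j : ℕ) ≠ N := by omega
        simp only [pay, lv, npriv, hi, e1, hj', if_true, false_and, if_false]
      · intro F _ hF
        rw [if_neg]
        intro h
        cases F with
        | L e' => simp [pay] at h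
        | D j' =>
          simp only [pay, hi, if_true, Prod.mk.injEq, and_true, FD.E.injEq] at h
          apply hF.2
          subst h
          rfl
        | E j' =>
          simp only [pay, Prod.mk.injEq, and_true] at h
          exact hF.1 h.symm
      · simp
      · simp
    · rw [Finset.sum_eq_single (FD.E j)]
      · have := j.2
        simp only [pay, lv, npriv, if_true]
        split_ifs <;> omega
      · intro F _ hF
        rw [if_neg]
        intro h
        cases F with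
        | L e' => simp [pay] at h
        | D j' =>
          simp only [pay] at h
          split_ifs at h with h0
          · simp only [Prod.mk.injEq, and_true, FD.E.injEq] at h
            apply hi
            refine ⟨h0, ?_⟩
            rw [h]
            exact j'.2
          · simp at h
        | E j' =>
          simp only [pay, Prod.mk.injEq, and_true] at h
          exact hF h.symm
      · simp

lemma ld_cv_WA6 (hO : Ok r s) (z : Cp r N Ln) :
    ld (.nv (.cv z) : Vx r s N P Ln) + npriv z = al r * (8 * r) +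
      if (∃ j, z.1 = .D j) ∧ (z.2 : ℕ) = 0 then 0 else npriv z + 1 := by
  rw [ld_nv_WA6, par_zero_WA6 _ (by simp)]
  simp only [dnF_WA6]
  rw [F_cv_WA6]
  have := own_cv_WA6 (P := P) hO z
  omega

lemma ld_pt (hO : Ok r s) (p : P) : ld (.nv (.pt p) : Vx r s N P Ln) + 1 = qq r := by
  have _ := hO
  rw [ld_nv_WA6, own_none_WA6 _ (fun _ => rfl), par_zero_WA6 _ (by simp), F_zero_WA6 _ (by simp)]
  rfl

lemma ld_tk (hO : Ok r s) (z : Cp r N Ln) (i : Fin 15) :
    ld (.nv (.tk z i) : Vx r s N P Ln) + (if (i : ℕ) < npriv z then 0 else 1) = qq r := by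
  have _ := hO
  rw [ld_nv_WA6, own_none_WA6 _ (fun _ => rfl), F_zero_WA6 _ (by simp)]
  have hi : (i : ℕ) < al r := by
    have := al_big_WA6 (r := r)
    have := i.2
    omega
  rw [Finset.sum_eq_single ((.cv z : NV r N P Ln), (⟨i, hi⟩ : Fin (al r)))]
  · have e : Fin.ofNat 15 (i : ℕ) = i := by
      ext; simp
    unfold qq
    by_cases h : (i : ℕ) < npriv z
    · simp only [ptk, h, if_true, e]
    · simp [ptk, h]
  · intro y _ hy
    rw [if_neg]
    intro h
    obtain ⟨z', i', h1, h2, h3, -⟩ := ptk_cases h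
    simp only [NV.tk.injEq] at h2
    obtain ⟨rfl, rfl⟩ := h2
    apply hy
    exact Prod.ext h1 (Fin.ext h3.symm)
  · simp

lemma ld_cv (hO : Ok r s) {z : Cp r N Ln} (hz : IsPay z) :
    ld (.nv (.cv z) : Vx r s N P Ln) = qq r := by
  have h := ld_cv_WA6 (P := P) hO z
  rw [if_neg] at h
  · unfold qq; omega
  · rintro ⟨⟨j, hj⟩, h0⟩
    obtain ⟨F, i, rfl⟩ := hz
    rw [pay_snd_WA6] at h0
    cases F <;> simp [pay, h0] at hj

lemma ld_le (hO : Ok r s) (v : Vx r s N P Ln) : ld v ≤ qq r := by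
  cases v with
  | hub j => rw [ld_hub]; exact Nat.zero_le _
  | eta => rw [ld_eta]; exact Nat.zero_le _
  | c x => exact (ld_c hO x).le
  | nv w =>
    cases w with
    | pt p => have := ld_pt (N := N) (Ln := Ln) hO p; omega
    | cv z =>
      have h := ld_cv_WA6 (P := P) hO z
      unfold qq
      split_ifs at h <;> omega
    | tk z i => have := ld_tk (P := P) hO z i; omega

/-- Only the points have spare capacity. -/
lemma spare_UU (hO : Ok r s) {X : Finset (Cp r N Ln)} (hX : ∀ z ∈ X, IsPay z) (A : Finset P) :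
    ∑ v ∈ (UU X A : Finset (Vx r s N P Ln)), (qq r - ld v) = A.card := by
  have hsub : (pts A : Finset (Vx r s N P Ln)) ⊆ UU X A := by
    intro v hv
    rw [mem_UU]
    exact Or.inl ((mem_pts A v).1 hv)
  rw [← Finset.sum_subset hsub]
  · unfold pts
    rw [Finset.sum_image (by intro a _ b _ h; simpa using h), Finset.card_eq_sum_ones]
    refine Finset.sum_congr rfl fun p _ => ?_
    have := ld_pt (N := N) (Ln := Ln) hO p
    omega
  · intro v hv hn
    rcases (mem_UU X A v).1 hv with h | ⟨z, hz, rfl⟩ | ⟨z, -, i, hi, rfl⟩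
    · exact absurd ((mem_pts A v).2 h) hn
    · rw [ld_cv hO (hX z hz)]; omega
    · have := ld_tk (P := P) hO z i
      rw [if_pos hi] at this
      omega

end Pool.Agent.SemiRandom.Fix
end
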