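import Pool.Agent.K.MP_c53d0e_pr.C11
import Pool.Agent.K.MP_c53d0e_pr.C1

set_option autoImplicit false
set_option linter.unusedSectionVars false

namespace Pool.Agent.SemiRandom.Fix

open Finset Und

variable {r s N : ℕ} {P Ln : Type} [NeZero r] [Fintype P] [DecidableEq P] [Fintype Ln]
  [DecidableEq Ln] {n m w T sz : ℕ} {u L ε ka : ℝ} [Nonempty (RSet n r)] [Nonempty (Move n r s)]

/-- The real parent of an owned edge. -/
def BB (D : Dat r N P Ln) (s : ℕ) : Ed r N P Ln → Finset (Vx r s N P Ln)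
  | .inr (.inl (v, t)) => (ppt D.I v t).elim ∅ fun p => {.nv (.pt p)}
  | _ => ∅

/-- The owned edges of stage `k`. -/
def EO (k : ℕ) : Finset (Ed r N P Ln) := univ.filter fun e => (∃ v t, e = eO v t) ∧ stE e = k

lemma BB_sub (hO : Ok r s) (D : Dat r N P Ln) (e : Ed r N P Ln) : BB D s e ⊆ key0 D s e := by
  rcases e with x | ⟨v, t⟩ | F
  · exact empty_subset _
  · cases hp : ppt D.I v t with
    | none => simp [BB, hp]
    | some p =>
      have h1 : BB D s (eO v t) = {.nv (.pt p)} := by simp [BB, hp]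
      change BB D s (eO v t) ⊆ key0 D s (eO v t)
      rw [h1, singleton_subset_iff]
      exact (mem_key0_O hO D v t).2.1 _ (ppt_cases hp).2.1
  · exact empty_subset _

lemma dn_Nw (hO : Ok r s) {e : Ed r N P Ln} (he : e ≠ eF (.E (Fin.last N))) :
    ∑ v ∈ (Nw (stE e) : Finset (Vx r s N P Ln)), (dn e v : ℝ) * u = 8 * r * u := by
  have h1 := dn_sum (P := P) hO e
  rw [if_neg he, add_zero] at h1
  have h2 : ∑ v ∈ (Nw (stE e) : Finset (Vx r s N P Ln)), dn e v =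
      ∑ v : Vx r s N P Ln, dn e v := by
    refine sum_subset (subset_univ _) fun v _ hv => ?_
    by_contra hne
    exact hv (mem_Nw.2 (stV_dn hne))
  rw [← sum_mul, ← Nat.cast_sum, h2, h1]
  push_cast
  ring

section
variable {D : Dat r N P Ln} {κ : Vx r s N P Ln × Fin m ↪ Fin n} {ψ0 : Vx r s N P Ln → Fin m}
  {lab : P → Fin w → Fin m} {S : Finset (P → Fin w)} {Ψ : (P → Fin w) → Vx r s N P Ln → Fin m}
  {k : ℕ} {h : List (RSet n r × Move n r s)}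

lemma Inv.old_WY7 (H : Inv D κ ψ0 lab S Ψ k h) (hk : 2 ≤ k) {ψ : Vx r s N P Ln → Fin m}
    (hψ : ψ ∈ ext S Ψ (Nw k)) : ∃ x ∈ S, (∀ v ∉ (Nw k : Finset (Vx r s N P Ln)), ψ v = Ψ x v) ∧
      (∀ v ∈ (CC : Finset (Vx r s N P Ln)), ψ v = ψ0 v) ∧ ∀ p, ψ (.nv (.pt p)) = lab p (x p) := by
  obtain ⟨x, hx, h1⟩ := mem_ext.1 hψ
  refine ⟨x, hx, h1, fun v hv => ?_, fun p => ?_⟩
  · rw [h1 v, (H.2 x hx).1 v hv]
    rw [mem_Nw]
    have h0 : stV v = 0 := by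
      rcases (mem_CC v).1 hv with ⟨j, rfl⟩ | rfl | ⟨y, rfl⟩ <;> rfl
    omega
  · rw [h1 _, (H.2 x hx).2.1 p]
    rw [mem_Nw]
    change (1 : ℕ) ≠ k
    omega

lemma Inv.inj (H : Inv D κ ψ0 lab S Ψ k h) (hk : 2 ≤ k) :
    ∀ x ∈ S, ∀ x' ∈ S, (∀ v ∉ (Nw k : Finset (Vx r s N P Ln)), Ψ x v = Ψ x' v) → x = x' := by
  intro x hx x' hx' hag
  funext p
  have h1 : (Vx.nv (.pt p) : Vx r s N P Ln) ∉ Nw k := by
    rw [mem_Nw]
    change (1 : ℕ) ≠ k
    omega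
  have h2 := hag _ h1
  rw [(H.2 x hx).2.1 p, (H.2 x' hx').2.1 p] at h2
  exact H.1 p h2

lemma Inv.own (hO : Ok r s) (H : Inv D κ ψ0 lab S Ψ k h) (hk : 2 ≤ k) (w1 : 1 ≤ w)
    (hw : Real.log w ≤ u) (u0 : 0 < u) : ∀ e ∈ EO k,
      Det (ext S Ψ (Nw k)) (key0 D s e) (ed D s e) ∧
        (cnt (ext S Ψ (Nw k)) ∅ (BB D s e) : ℝ) ≤ Real.exp (8 * r * u) := by
  intro e he
  obtain ⟨⟨v, t, rfl⟩, -⟩ := (mem_filter.1 he).2
  have : Nonempty (Fin m) := ⟨ψ0 .eta⟩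
  refine ⟨fun ψ hψ ψ' hψ' hag y hy => ?_, ?_⟩
  · rcases ed_O_key0 hO D v t hy with h1 | h1
    · exact hag y h1
    · obtain ⟨x, -, -, h2, -⟩ := H.old_WY7 hk hψ
      obtain ⟨x', -, -, h3, -⟩ := H.old_WY7 hk hψ'
      rw [h2 y h1, h3 y h1]
  · have hr : (2 : ℝ) ≤ r := by exact_mod_cast hO.hr
    have hu : u ≤ 8 * r * u := by nlinarith
    have hw1 : (1 : ℝ) ≤ w := by exact_mod_cast w1
    have hwe : (w : ℝ) ≤ Real.exp (8 * r * u) := by
      calc (w : ℝ) = Real.exp (Real.log w) := (Real.exp_log (by linarith)).symm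
        _ ≤ _ := Real.exp_le_exp.2 (hw.trans hu)
    refine le_trans ?_ hwe
    cases hp : ppt D.I v t with
    | none =>
      have h1 : BB D s (eO v t) = ∅ := by simp [BB, hp]
      have h2 := cnt_cap (ext S Ψ (Nw k)) ∅ (∅ : Finset (Vx r s N P Ln))
      rw [sdiff_self, bot_eq_empty, card_empty, pow_zero] at h2
      rw [h1]
      exact_mod_cast h2.trans w1
    | some p =>
      have h1 : BB D s (eO v t) = {.nv (.pt p)} := by simp [BB, hp]
      have h2 := cnt_single (ext S Ψ (Nw k)) ∅ (.nv (.pt p)) (univ.image (lab p)) fun ψ hψ => by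
        obtain ⟨x, -, -, -, h3⟩ := H.old_WY7 hk hψ
        rw [h3 p]
        exact mem_image_of_mem _ (mem_univ _)
      have h3 : (univ.image (lab p)).card ≤ w := card_image_le.trans (by simp)
      rw [h1]
      exact_mod_cast h2.trans (max_le w1 h3)

/-- After the owned edges a compound vertex determines its real parents. -/
lemma Inv.parent (hO : Ok r s) (H : Inv D κ ψ0 lab S Ψ k h) (hk : 2 ≤ k)
    {F : Finset (Vx r s N P Ln → Fin m)} (hF : F ⊆ ext S Ψ (Nw k))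
    (hD : ∀ e ∈ EO k, Det F (key0 D s e \ BB D s e) (BB D s e)) {z : Cp r N Ln}
    (hz : stF z.1 = k) {p : P} (hp : p ∈ rpar D.I z) : Det F {.nv (.cv z)} {.nv (.pt p)} := by
  obtain ⟨t, ht⟩ := exists_real D.I z hp
  have he : (eO (.cv z) t : Ed r N P Ln) ∈ EO k :=
    mem_filter.2 ⟨mem_univ _, ⟨_, _, rfl⟩, hz⟩
  have h1 : BB D s (eO (.cv z) t) = {.nv (.pt p)} := by simp [BB, ht]
  have h2 := hD _ he
  rw [h1] at h2
  intro ψ hψ ψ' hψ' hag
  refine h2 ψ hψ ψ' hψ' fun y hy => ?_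
  obtain ⟨hy1, hy2⟩ := mem_sdiff.1 hy
  rcases (mem_key0_O hO D (.cv z) t).2.2 y hy1 with h3 | ⟨π, h3, h4⟩ | h3
  · exact hag y (mem_singleton.2 h3)
  · rw [(ppt_cases ht).2.1, Option.some.injEq] at h3
    exact absurd (mem_singleton.2 (h3 ▸ h4)) hy2
  · obtain ⟨x, -, -, h5, -⟩ := H.old_WY7 hk (hF hψ)
    obtain ⟨x', -, -, h6, -⟩ := H.old_WY7 hk (hF hψ')
    rw [h5 y h3, h6 y h3]

/-- The main vertex of a block determines all old vertices. -/
lemma Inv.main (hO : Ok r s) (H : Inv D κ ψ0 lab S Ψ k h) (hB : D.I.BasInj S)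
    {F : Finset (Vx r s N P Ln → Fin m)} (hF : F ⊆ ext S Ψ (Nw k))
    (hD : ∀ e ∈ EO k, Det F (key0 D s e \ BB D s e) (BB D s e)) {j : Fin (N + 1)}
    (hj : 3 + (j : ℕ) = k) : Det F {.nv (.cv (aa j))} (Nw k)ᶜ := by
  have hk : 2 ≤ k := by omega
  intro ψ hψ ψ' hψ' hag y hy
  obtain ⟨x, hx, h1, -, h2⟩ := H.old_WY7 hk (hF hψ)
  obtain ⟨x', hx', h3, -, h4⟩ := H.old_WY7 hk (hF hψ')
  have hxx : x = x' := by
    refine hB x hx x' hx' fun b => ?_
    have h5 := H.parent hO hk hF hD (z := aa j) hj (bas_mem_rpar D.I j b) ψ hψ ψ' hψ' hag _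
      (mem_singleton_self _)
    rw [h2, h4] at h5
    exact H.1 _ h5
  rw [h1 y (mem_compl.1 hy), h3 y (mem_compl.1 hy), hxx]

/-- The payers of a functional edge determine the edge. -/
lemma Inv.fd (hO : Ok r s) (H : Inv D κ ψ0 lab S Ψ k h) (hE : D.I.Exact S) (hB : D.I.BasInj S)
    {F : Finset (Vx r s N P Ln → Fin m)} (hF : F ⊆ ext S Ψ (Nw k))
    (hD : ∀ e ∈ EO k, Det F (key0 D s e \ BB D s e) (BB D s e)) {G : FD N Ln} (hG : stF G = k) :
    Det F (key0 D s (eF G)) (ed D s (eF G)) := by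
  have hk : 2 ≤ k := by
    rcases G with e | j | j <;> simp only [stF] at hG <;> omega
  intro ψ hψ ψ' hψ' hag y hy
  have hpay : ∀ z ∈ PY r G, ψ (.nv (.cv z)) = ψ' (.nv (.cv z)) := fun z hz =>
    hag _ ((mem_cvs _ _).2 ⟨z, hz, rfl⟩)
  have hone : ∀ z ∈ PY r G, ∀ v ∈ ({.nv (.cv z)} : Finset (Vx r s N P Ln)), ψ v = ψ' v :=
    fun z hz v hv => by rw [mem_singleton.1 hv]; exact hpay z hz
  obtain ⟨x, hx, -, h1, h2⟩ := H.old_WY7 hk (hF hψ)
  obtain ⟨x', hx', -, h3, h4⟩ := H.old_WY7 hk (hF hψ')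
  rcases (mem_ed_F D G y).1 hy with h5 | rfl | ⟨i, rfl⟩
  · have h6 : y ∈ (CC : Finset (Vx r s N P Ln)) := mem_union_left _ h5
    rw [h1 y h6, h3 y h6]
  · have ht : (Vx.nv (tgtv D G) : Vx r s N P Ln) ∈ (Nw k)ᶜ := by
      rw [mem_compl, mem_Nw, ← hG]
      exact (stN_tgt D G).ne
    rcases G with e | j | j
    · change ψ (.nv (.pt (D.I.tgt e))) = ψ' (.nv (.pt (D.I.tgt e)))
      rw [h2, h4, hE e x hx x' hx' fun l => ?_]
      obtain ⟨i, hi⟩ := src_mem_rpar (N := N) hO D.I e l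
      have h5 := H.parent hO hk hF hD (z := (.L e, i)) hG hi ψ hψ ψ' hψ'
        (hone _ ((mem_PY _ _).2 ⟨i, rfl⟩)) _ (mem_singleton_self _)
      rw [h2, h4] at h5
      exact H.1 _ h5
    · exact H.main hO hB hF hD (j := j.castSucc) hG ψ hψ ψ' hψ' (hone _ (aa_mem_D j)) _ ht
    · exact H.main hO hB hF hD (j := j) hG ψ hψ ψ' hψ' (hone _ (aa_mem_E j)) _ ht
  · exact hpay _ ((mem_PY _ _).2 ⟨i, rfl⟩)

end

end Pool.Agent.SemiRandom.Fix
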