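import Pool.Agent.K.MP_c53d0e_pr.C13

set_option autoImplicit false
set_option linter.unusedSectionVars false

namespace Pool.Agent.SemiRandom.Fix

open Finset Und

variable {r s N : ℕ} {P Ln : Type} [NeZero r] [Fintype P] [DecidableEq P] [Fintype Ln]
  [DecidableEq Ln] {n m w T sz : ℕ} {u L ε ka : ℝ} [Nonempty (RSet n r)] [Nonempty (Move n r s)]

lemma he_WY8 (hO : Ok r s) (D : Dat r N P Ln) (e : Ed r N P Ln) : (ed D s e).card = s ∧
    key0 D s e ⊆ ed D s e ∧ (key0 D s e).card = r ∧ BB D s e ⊆ key0 D s e :=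
  ⟨card_ed hO D e, key0_sub hO D e, card_key0 hO D e, BB_sub hO D e⟩

lemma ds_WY8 (hO : Ok r s) (D : Dat r N P Ln) (e : Ed r N P Ln) (v : Vx r s N P Ln)
    (h : (dn e v : ℝ) * u ≠ 0) : v ∈ key0 D s e :=
  dn_key0 hO D fun a => h (by rw [a, Nat.cast_zero, zero_mul])

lemma ld_WY8 (hO : Ok r s) (u0 : 0 < u) (hm : qq r * u + ka ≤ Real.log m) (v : Vx r s N P Ln) :
    ∑ e : Ed r N P Ln, (dn e v : ℝ) * u + ka ≤ Real.log m := by
  have a : ((ld v : ℕ) : ℝ) ≤ qq r := Nat.cast_le.2 (ld_le hO v)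
  rw [ld, Nat.cast_sum] at a
  rw [← sum_mul]
  linarith [mul_le_mul_of_nonneg_right a u0.le]

lemma old_WY8 (hO : Ok r s) {D : Dat r N P Ln} {κ : Vx r s N P Ln × Fin m ↪ Fin n} {k : ℕ}
    {h : List (RSet n r × Move n r s)} {e : Ed r N P Ln} {ψ ψ' : Vx r s N P Ln → Fin m}
    (H : Pres κ h (ed D s e) ψ) (he : stE e < k)
    (a : ∀ v ∉ (Nw k : Finset (Vx r s N P Ln)), ψ' v = ψ v) : Pres κ h (ed D s e) ψ' :=
  H.congr fun v hv => (a v fun b => ((stV_le hO D hv).trans_lt he).ne (mem_Nw.1 b)).symm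

theorem stageK (hO : Ok r s) (D : Dat r N P Ln) (κ : Vx r s N P Ln × Fin m ↪ Fin n)
    (hN : Nm (Fintype.card (Vx r s N P Ln)) (Fintype.card (Ed r N P Ln)) N n m r T w sz u L ε ka)
    (S : Finset (P → Fin w)) (hE : D.I.Exact S) (hB : D.I.BasInj S) {k : ℕ} (hk : 2 ≤ k)
    (hk' : k < N + 3) {y : ℝ} (hy : 0 < y) :
    Reach (2 * Fintype.card (Ed r N P Ln) * T) (Stg D κ S y k)
      (Stg D κ S (Real.exp (-(8 * lam L ε * Fintype.card (Ed r N P Ln))) * y) (k + 1))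
      (4 * Fintype.card (Ed r N P Ln) * ε) := by
  rintro h ⟨ψ0, lab, S', Ψ, s1, s2, H⟩
  have u0 := hN.u0
  have hE' : D.I.Exact S' := fun e x a x' b => hE e x (s1 a) x' (s1 b)
  have hB' : D.I.BasInj S' := fun x a x' b => hB x (s1 a) x' (s1 b)
  refine Und.Reach.frame (stage κ (EO k) (univ.filter fun e => (∃ G, e = eF G) ∧ stE e = k)
    (ed D s) (key0 D s) (BB D s) (he_WY8 hO D) hN.ph (Nw k) (fun e v => (dn e v : ℝ) * u)
    (fun e v => by positivity) (ds_WY8 hO D) (fun e he => ?_) ?_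
    (fun v _ => ld_WY8 hO u0 hN.hm v) hN.hka S' Ψ (card_pos.1 (Nat.cast_pos.1 (hy.trans_le s2)))
    (H.inj hk) (H.own hO hk hN.w1 hN.hw u0) fun F a b e he => ?_)
    (Inv_mono D κ ψ0 lab S' Ψ k) ?_ h H
  · have a : stE e = k := he.elim (fun a => (mem_filter.1 a).2.2) fun a => (mem_filter.1 a).2.2
    subst a
    refine dn_Nw hO ?_
    rintro rfl
    exact hk'.ne ((stF_last (Ln := Ln)).2 rfl)
  · refine disjoint_left.2 fun e a b => ?_
    obtain ⟨v, t, rfl⟩ := (mem_filter.1 a).2.1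
    obtain ⟨G, hG⟩ := (mem_filter.1 b).2.1
    cases hG
  · obtain ⟨-, ⟨G, rfl⟩, hG⟩ := mem_filter.1 he
    exact H.fd hO hE' hB' a b hG
  · rintro l ⟨i1, i2⟩ ⟨S₂, k1, Ψ', k2, k3⟩
    refine ⟨ψ0, lab, S₂, Ψ', k1.trans s1,
      (mul_le_mul_of_nonneg_left s2 (Real.exp_pos _).le).trans k3, i1, fun x hx => ?_⟩
    obtain ⟨j1, j2, j3⟩ := i2 x (k1 hx)
    obtain ⟨m1, m2⟩ := k2 x hx
    refine ⟨fun v hv => (m1 v fun b => ?_).trans (j1 v hv),
      fun p => (m1 _ fun b => ?_).trans (j2 p), fun e he => ?_⟩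
    · have := mem_Nw.1 b
      rcases (mem_CC v).1 hv with ⟨j, rfl⟩ | rfl | ⟨j, rfl⟩ <;> simp only [stV] at this <;> omega
    · have := mem_Nw.1 b
      simp only [stV, stN] at this
      omega
    · rcases Nat.lt_succ_iff_lt_or_eq.1 he with a | a
      · exact old_WY8 hO (j3 e a) a m1
      · refine m2 e ?_
        rcases e with x | ⟨v, t⟩ | G
        · simp only [stE] at a
          omega
        · exact Or.inl (mem_filter.2 ⟨mem_univ _, ⟨v, t, rfl⟩, a⟩)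
        · exact Or.inr (mem_filter.2 ⟨mem_univ _, ⟨G, rfl⟩, a⟩)

theorem stageF (hO : Ok r s) (D : Dat r N P Ln) (κ : Vx r s N P Ln × Fin m ↪ Fin n)
    (hN : Nm (Fintype.card (Vx r s N P Ln)) (Fintype.card (Ed r N P Ln)) N n m r T w sz u L ε ka)
    (S : Finset (P → Fin w)) (hE : D.I.Exact S) (hB : D.I.BasInj S) :
    Reach (2 * Fintype.card (Ed r N P Ln) * T)
      (Stg D κ S (Real.exp (-((N + 1) * (8 * lam L ε * Fintype.card (Ed r N P Ln)))) * sz) (N + 3))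
      (ContainsV (ed D s)) (4 * Fintype.card (Ed r N P Ln) * ε) := by
  rintro h ⟨ψ0, lab, S', Ψ, s1, s2, H⟩
  have : Nonempty (Fin m) := ⟨⟨0, hN.ph.m1⟩⟩
  have u0 := hN.u0
  have e0 := hN.ph.e0
  obtain ⟨l1, -, l0⟩ := hN.ph.lam_bd
  have hE' : D.I.Exact S' := fun e x a x' b => hE e x (s1 a) x' (s1 b)
  have hB' : D.I.BasInj S' := fun x a x' b => hB x (s1 a) x' (s1 b)
  have hz : (0 : ℝ) < sz := Nat.cast_pos.2 hN.s1
  have hS : (0 : ℝ) < S'.card := lt_of_lt_of_le (by positivity) s2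
  have t0 := St_ext S' Ψ (Nw (N + 3)) (card_pos.1 (Nat.cast_pos.1 hS)) (H.inj (by omega))
  rw [Fintype.card_fin] at t0
  have own := H.own hO (by omega) hN.w1 hN.hw u0
  have hka := hN.hka
  set M := Fintype.card (Ed r N P Ln)
  set e₀ : Ed r N P Ln := eF (.E (Fin.last N)) with he₀
  have n1 : (EO (N + 3) : Finset (Ed r N P Ln)).card ≤ M := card_le_univ _
  have n2 : 1 ≤ M := Fintype.card_pos_iff.2 ⟨e₀⟩
  have c1 : lam L ε * (EO (N + 3) : Finset (Ed r N P Ln)).card ≤ lam L ε * M :=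
    mul_le_mul_of_nonneg_left (Nat.cast_le.2 n1) l0
  have c2 : 0 ≤ lam L ε * M := by positivity
  have hn : e₀ ∉ EO (N + 3) := fun a => by
    obtain ⟨v, t, b⟩ := (mem_filter.1 a).2.1
    rw [he₀] at b
    cases b
  have w1 : ∀ v : Vx r s N P Ln, ∑ e ∈ EO (N + 3), (dn e v : ℝ) * u + (dn e₀ v : ℝ) * u + ka ≤
      Real.log m := fun v => by
    refine le_trans ?_ (ld_WY8 hO u0 hN.hm v)
    rw [add_comm _ ((dn e₀ v : ℝ) * u), ← sum_insert (f := fun e => (dn e v : ℝ) * u) hn]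
    exact add_le_add_left (sum_le_sum_of_subset_of_nonneg (subset_univ _)
      fun e _ _ => by positivity) _
  refine Reach.pad (A := Inv D κ ψ0 lab S' Ψ (N + 3)) (Reach.trans (T' := T) (ε' := 2 * ε)
    (Und.Reach.frame (run κ (EO (N + 3)) (ed D s) (key0 D s) (BB D s) (fun e _ => he_WY8 hO D e)
      hN.ph (Nw (N + 3)) (fun e v => (dn e v : ℝ) * u) (fun e v => by positivity)
      (fun e _ => ds_WY8 hO D e) (fun e he => ?_) (ka := ka) _ (fun e a => (own e a).1)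
      (fun e a => (own e a).2) t0 (fun v _ => ?_) le_rfl (by linarith))
      (Inv_mono D κ ψ0 lab S' Ψ _) fun _ a b => And.intro a b) ?_ (by positivity)) ?_ ?_ ?_ h H
  · rw [← (mem_filter.1 he).2.2]
    exact dn_Nw hO fun a => hn (he₀ ▸ a ▸ he)
  · have : 0 ≤ (dn e₀ v : ℝ) * u := by positivity
    linarith [w1 v]
  · rintro l ⟨i1, F, f1, f2, f3, f4⟩
    have hF : (0 : ℝ) < F.card := (Real.exp_pos _).trans_le f3.lo
    refine Und.Reach.frame (phaseU κ (card_ed hO D e₀) (key0_sub hO D e₀) (card_key0 hO D e₀) F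
      (i1.fd hO hE' hB' f1 f4 (stF_last.2 rfl)) hN.ph ?_)
      (A := fun l => Inv D κ ψ0 lab S' Ψ (N + 3) l ∧ ∀ ψ ∈ F, ∀ e ∈ EO (N + 3), Pres κ l (ed D s e) ψ)
      (fun _ l a => ⟨Inv_mono D κ ψ0 lab S' Ψ _ _ l a.1, fun ψ b e c => (a.2 ψ b e c).append l⟩)
      ?_ l ⟨i1, f2⟩
    · have a1 : Det F (key0 D s e₀) (Nw (N + 3))ᶜ := fun ψ a ψ' b c =>
        i1.main hO hB' f1 f4 (j := Fin.last N) (by simp [add_comm]) ψ a ψ' b fun v hv =>
          c v (mem_singleton.1 hv ▸ (mem_cvs _ _).2 ⟨_, aa_mem_E _, rfl⟩)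
      have a2 := f3.fib (key0 D s e₀) (Y := 0) (by rw [cnt_of_det a1]; simp)
      have a3 : Nw (N + 3) ∩ key0 D s e₀ = key0 D s e₀ := inter_eq_right.2 fun v hv => by
        obtain ⟨z, hz, rfl⟩ := (mem_cvs _ _).1 hv
        obtain ⟨i, rfl⟩ := (mem_PY _ _).1 hz
        exact mem_Nw.2 ((stF_pay (Ln := Ln) _ i).trans ((stF_last (Ln := Ln)).2 rfl))
      have a4 : ∑ v ∈ key0 D s e₀, (dn e₀ v : ℝ) + 4 = 8 * r := by
        have b := dn_sum (s := s) hO e₀
        rw [if_pos he₀, ← sum_subset (subset_univ (key0 D s e₀))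
          fun v _ c => by_contra fun a => c (dn_key0 hO D a)] at b
        exact_mod_cast b
      have a5 := sum_le_sum (s := key0 D s e₀) fun v _ => show (dn e₀ v : ℝ) * u + ka ≤
        Real.log m - ∑ e ∈ EO (N + 3), (dn e v : ℝ) * u by linarith [w1 v]
      rw [sum_add_distrib, ← sum_mul, sum_const, card_key0 hO, nsmul_eq_mul,
        eq_sub_of_add_eq a4] at a5
      have a6 := Real.log_le_log (by positivity) s2
      rw [Real.log_mul (Real.exp_pos _).ne' hz.ne', Real.log_exp] at a6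
      have a7 : ka ≤ r * ka := le_mul_of_one_le_left (by linarith)
        (Nat.one_le_cast.2 (le_trans one_le_two hO.hr))
      have a8 : Real.exp (8 * r * u) * (4 / ε) ≤ Real.exp (Real.log S'.card - 0 +
          ∑ v ∈ key0 D s e₀, (Real.log m - ∑ e ∈ EO (N + 3), (dn e v : ℝ) * u) -
            2 * (0 + 2 * lam L ε * (EO (N + 3) : Finset (Ed r N P Ln)).card)) := by
        rw [← Real.exp_log (show 0 < 4 / ε by positivity), ← Real.exp_add, Real.exp_le_exp]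
        have b := hN.fin
        have c : Real.log (4 / ε) ≤ lam L ε := le_add_of_nonneg_left l1
        linarith
      rw [a3] at a2
      have a9 := (mul_le_mul_of_nonneg_left a8 (Nat.cast_nonneg _)).trans a2
      rw [Real.exp_neg, show ε * (Real.exp (8 * r * u))⁻¹ * F.card / 4 =
        F.card / (Real.exp (8 * r * u) * (4 / ε)) by field_simp, le_div_iff₀ (by positivity)]
      exact a9
    · rintro l ⟨⟨-, i2⟩, i3⟩ ⟨G, g1, g2, g3, -⟩
      obtain ⟨ψ, hψ⟩ := card_pos.1 (Nat.cast_pos.1 (lt_of_lt_of_le (by positivity) g3))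
      obtain ⟨x, hx, a⟩ := mem_ext.1 (f1 (g1 hψ))
      refine ⟨emb κ ψ, fun e => ?_⟩
      rcases (stE_le e).lt_or_eq with b | b
      · exact old_WY8 hO ((i2 x hx).2.2 e b) b a
      · rcases e with x | ⟨v, t⟩ | G
        · simp only [stE] at b
          omega
        · exact i3 ψ (g1 hψ) _ (mem_filter.2 ⟨mem_univ _, ⟨v, t, rfl⟩, b⟩)
        · obtain rfl := stF_last.1 b
          exact g2 ψ hψ
  · rintro h l ⟨φ, a⟩
    exact ⟨φ, fun e => (a e).imp fun _ b => ⟨List.mem_append_left _ b.1, b.2⟩⟩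
  · rw [← add_one_mul]
    exact Nat.mul_le_mul_right _ (by omega)
  · have a1 : ((EO (N + 3) : Finset (Ed r N P Ln)).card : ℝ) ≤ M := Nat.cast_le.2 n1
    have a2 : (1 : ℝ) ≤ M := Nat.one_le_cast.2 n2
    nlinarith

end Pool.Agent.SemiRandom.Fix
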