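import Pool.Agent.K.MP_c53d0e_pr.C12
import Pool.Agent.K.MP_c53d0e_pr.C14

set_option autoImplicit false
set_option linter.unusedSectionVars false

namespace Pool.Agent.SemiRandom.Fix

open Finset Und

variable {r s N : ℕ} {P Ln : Type} [NeZero r] [Fintype P] [DecidableEq P] [Fintype Ln]
  [DecidableEq Ln] {n m w T sz : ℕ} {u L ε ka : ℝ} [Nonempty (RSet n r)] [Nonempty (Move n r s)]

theorem stages (hO : Ok r s) (D : Dat r N P Ln) (hm : Fintype.card (Vx r s N P Ln) * m ≤ n)
    (S : Finset (P → Fin w))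
    (hN : Nm (Fintype.card (Vx r s N P Ln)) (Fintype.card (Ed r N P Ln)) N n m r T w S.card
      u L ε ka) (hE : D.I.Exact S) (hB : D.I.BasInj S) :
    ∃ St : Strategy (RSet n r) (Move n r s),
      1 - (N + 4) * (4 * Fintype.card (Ed r N P Ln) * ε) ≤
        Pr St ((N + 4) * (2 * Fintype.card (Ed r N P Ln) * T)) (ContainsV (ed D s)) := by
  obtain ⟨κ⟩ : Nonempty (Vx r s N P Ln × Fin m ↪ Fin n) :=
    Function.Embedding.nonempty_of_card_le (by simpa using hm)
  have he := hN.ph.e0
  have hε : (0 : ℝ) ≤ 4 * Fintype.card (Ed r N P Ln) * ε := by positivity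
  have hS : (0 : ℝ) < S.card := by exact_mod_cast hN.s1
  have key : ∀ j : ℕ, j ≤ N + 1 → Reach ((j + 2) * (2 * Fintype.card (Ed r N P Ln) * T))
      (fun _ => True)
      (Stg D κ S (Real.exp (-(j * (8 * lam L ε * Fintype.card (Ed r N P Ln)))) * S.card) (j + 2))
      ((j + 2) * (4 * Fintype.card (Ed r N P Ln) * ε)) := by
    intro j
    induction j with
    | zero =>
      intro _
      have h := (stage0 hO D κ hN).trans (stage1 hO D κ hN S) hε
      rw [← two_mul, ← two_mul] at h
      simpa using h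
    | succ j ih =>
      intro hj
      have h := (ih (by omega)).trans (stageK hO D κ hN S hE hB (k := j + 2) (by omega) (by omega)
        (mul_pos (Real.exp_pos _) hS)) hε
      have e1 : (j + 1 + 2) * (2 * Fintype.card (Ed r N P Ln) * T) =
          (j + 2) * (2 * Fintype.card (Ed r N P Ln) * T) + 2 * Fintype.card (Ed r N P Ln) * T := by
        ring
      have e2 : (((j + 1 : ℕ) : ℝ) + 2) * (4 * Fintype.card (Ed r N P Ln) * ε) =
          ((j : ℝ) + 2) * (4 * Fintype.card (Ed r N P Ln) * ε) +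
            4 * Fintype.card (Ed r N P Ln) * ε := by
        push_cast
        ring
      have e3 : Real.exp (-(((j + 1 : ℕ) : ℝ) * (8 * lam L ε * Fintype.card (Ed r N P Ln)))) *
          (S.card : ℝ) = Real.exp (-(8 * lam L ε * Fintype.card (Ed r N P Ln))) *
            (Real.exp (-(j * (8 * lam L ε * Fintype.card (Ed r N P Ln)))) * S.card) := by
        rw [← mul_assoc (Real.exp _), ← Real.exp_add]
        refine congrArg (fun x => Real.exp x * (S.card : ℝ)) ?_
        push_cast
        ring
      rw [e1, e2, e3]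
      exact h
  have h0 := key (N + 1) le_rfl
  rw [Nat.cast_succ] at h0
  obtain ⟨St, hSt⟩ := Reach.strategy (h0.trans (stageF hO D κ hN S hE hB) hε)
  refine ⟨St, ?_⟩
  have e1 : (N + 4) * (2 * Fintype.card (Ed r N P Ln) * T) =
      (N + 1 + 2) * (2 * Fintype.card (Ed r N P Ln) * T) + 2 * Fintype.card (Ed r N P Ln) * T := by
    ring
  have e2 : ((N : ℝ) + 4) * (4 * Fintype.card (Ed r N P Ln) * ε) =
      ((N : ℝ) + 1 + 2) * (4 * Fintype.card (Ed r N P Ln) * ε) +
        4 * Fintype.card (Ed r N P Ln) * ε := by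
    ring
  rw [e1, e2]
  exact hSt

lemma powerG {K : ℕ} (I : Inst K P Ln) {w : ℕ} (S : Finset (P → Fin w)) (hS : I.Exact S)
    (hS' : I.BasInj S) (k : ℕ) :
    ∃ S' : Finset (P → Fin (w ^ k)), I.Exact S' ∧ I.BasInj S' ∧ S'.card = S.card ^ k := by
  classical
  let F : (Fin k → P → Fin w) → P → Fin (w ^ k) :=
    fun xs p => finFunctionFinEquiv (fun i => xs i p)
  have hF : ∀ xs ys p, F xs p = F ys p ↔ ∀ i, xs i p = ys i p := by
    intro xs ys p
    constructor
    · intro h i
      exact congrFun (finFunctionFinEquiv.injective h) i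
    · intro h
      exact congrArg finFunctionFinEquiv (funext h)
  have hinj : Function.Injective F := by
    intro xs ys h
    funext i p
    exact (hF xs ys p).1 (congrFun h p) i
  refine ⟨(Fintype.piFinset fun _ : Fin k => S).image F, ?_, ?_, ?_⟩
  · intro e x hx x' hx' h
    obtain ⟨xs, hxs, rfl⟩ := mem_image.1 hx
    obtain ⟨ys, hys, rfl⟩ := mem_image.1 hx'
    rw [Fintype.mem_piFinset] at hxs hys
    exact (hF _ _ _).2 fun i => hS e _ (hxs i) _ (hys i) fun l => (hF _ _ _).1 (h l) i
  · intro x hx x' hx' h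
    obtain ⟨xs, hxs, rfl⟩ := mem_image.1 hx
    obtain ⟨ys, hys, rfl⟩ := mem_image.1 hx'
    rw [Fintype.mem_piFinset] at hxs hys
    have : xs = ys := funext fun i => hS' _ (hxs i) _ (hys i) fun b => (hF _ _ _).1 (h b) i
    rw [this]
  · rw [card_image_of_injective _ hinj, Fintype.card_piFinset]
    simp

end Pool.Agent.SemiRandom.Fix
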