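import Pool.Agent.K.MP_c53d0e_pr.C1
import Pool.Agent.K.MP_c53d0e_pr.C2
import Pool.Agent.P.MP_c53d0e_pr.UDefs

-- part Pool.Agent.P.MP_c53d0e_pr.UF0
section

set_option autoImplicit false
set_option linter.unusedSectionVars false

namespace Pool.Agent.SemiRandom.Und

open Finset

abbrev Q4 : Type := ℕ × ℕ × ℕ × ℕ
abbrev Line : Type := ℕ × ℕ × ℕ
/-- A presentation: number of generators, relations, separations. -/
abbrev Prs : Type := ℕ × List Q4 × List Q4

def NProp {G : Type} (one zero : G) (Rel Sep : Set (G × G × G × G)) : Prop :=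
  ∀ (M : Type) (ρ : G → M → M) (Z : M → Prop), (∀ t, ρ one t = t) → (∀ t, Z (ρ zero t)) →
    (∀ x y, Z x → Z y → x = y) →
    (∀ a b c d, (a, b, c, d) ∈ Rel → ∀ t, ρ a (ρ b t) = ρ c (ρ d t)) →
    (∀ a b c d, (a, b, c, d) ∈ Sep → ∀ t, ρ a t = ρ b t → ρ c t = ρ d t → Z t) → ∀ t, Z t

def YProp {G : Type} (one zero : G) (Rel Sep : Set (G × G × G × G)) : Prop :=
  ∀ θ : ℝ, 0 < θ → ∃ (V : Type) (_ : AddCommGroup V) (_ : Fintype V) (V' : AddSubgroup V)
    (ρ : G → V →+ V), 2 ≤ Fintype.card V ∧ (Fintype.card V : ℝ) ^ (1 - θ) ≤ Nat.card V' ∧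
    (∀ t, ρ one t = t) ∧ (∀ t, ρ zero t = 0) ∧
    (∀ a b c d, (a, b, c, d) ∈ Rel → ∀ t, ρ a (ρ b t) = ρ c (ρ d t)) ∧
    ∀ a b c d, (a, b, c, d) ∈ Sep → ∀ t ∈ V', ρ a t = ρ b t → ρ c t = ρ d t → t = 0

def Prs.N (p : Prs) : Prop := NProp 0 1 {x | x ∈ p.2.1} {x | x ∈ p.2.2}
def Prs.Y (p : Prs) : Prop := YProp 0 1 {x | x ∈ p.2.1} {x | x ∈ p.2.2}

def Prs.WF (p : Prs) : Prop :=
  2 ≤ p.1 ∧ ∀ x, x ∈ p.2.1 ∨ x ∈ p.2.2 → x.1 < p.1 ∧ x.2.1 < p.1 ∧ x.2.2.1 < p.1 ∧ x.2.2.2 < p.1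

/-- Index of the point `A_i - g A_j`. -/
def ptP (K g i j : ℕ) : ℕ := K + (g * K + i) * K + j

/-- Auxiliary generator for the composite of `a` and `b`. -/
def cmpG (n a b : ℕ) : ℕ := n + (a * n + b)

/-- Auxiliary generator for the identity minus `a` plus `b`. -/
def difG (n a b : ℕ) : ℕ := n + n * n + (a * n + b)

/-- Number of generators, the auxiliary ones included. -/
def Prs.G (p : Prs) : ℕ := p.1 + p.1 * p.1 + p.1 * p.1

def relL (K n : ℕ) (c x : Q4) : List Line :=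
  [(ptP K x.2.1 c.1 c.2.1, ptP K x.1 c.2.2.1 c.1, ptP K (cmpG n x.1 x.2.1) c.2.2.1 c.2.1),
    (ptP K (cmpG n x.1 x.2.1) c.2.2.1 c.2.1, ptP K x.2.2.2 c.2.2.2 c.2.1,
      ptP K x.2.2.1 c.2.2.1 c.2.2.2)]

def sepL (K n : ℕ) (c x : Q4) : List Line :=
  [(ptP K x.1 c.1 c.2.1, ptP K x.2.1 c.1 c.2.1, ptP K (difG n x.1 x.2.1) c.2.1 c.2.1),
    (ptP K x.2.2.1 c.2.2.2 c.2.1, ptP K x.2.2.2 c.2.2.2 c.2.1,
      ptP K (difG n x.2.2.1 x.2.2.2) c.2.1 c.2.1),
    (ptP K (difG n x.1 x.2.1) c.2.1 c.2.1, ptP K (difG n x.2.2.1 x.2.2.2) c.2.1 c.2.1, c.2.1)]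

def genL (K : ℕ) (c : Q4) (g : ℕ) : List Line :=
  [(c.1, c.2.1, ptP K g c.1 c.2.1), (c.1, c.1, ptP K g c.1 c.1), (ptP K g c.1 c.2.1, c.2.1, c.1),
    (ptP K g c.1 c.2.1, ptP K 0 c.2.2.2 c.1, ptP K g c.2.2.2 c.2.1),
    (ptP K g c.1 c.2.1, ptP K 0 c.2.2.2 c.2.1, ptP K g c.1 c.2.2.2),
    (ptP K g c.1 c.2.1, ptP K g c.2.2.2 c.2.1, ptP K 0 c.1 c.2.2.2)]

def globL (K : ℕ) (c : Q4) : List Line :=
  [(ptP K 1 c.1 c.2.1, ptP K 1 c.1 c.2.1, c.1),
    (ptP K 0 c.1 c.2.1, ptP K 0 c.1 c.2.1, ptP K 0 c.2.1 c.1)]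

/-- Four different colours below `K`. -/
def Col (K : ℕ) (c : Q4) : Prop :=
  c.1 < K ∧ c.2.1 < K ∧ c.2.2.1 < K ∧ c.2.2.2 < K ∧ c.1 ≠ c.2.1 ∧ c.1 ≠ c.2.2.1 ∧ c.1 ≠ c.2.2.2 ∧
    c.2.1 ≠ c.2.2.1 ∧ c.2.1 ≠ c.2.2.2 ∧ c.2.2.1 ≠ c.2.2.2

instance (K : ℕ) : DecidablePred (Col K) := fun c => by unfold Col; infer_instance

def cols (K : ℕ) : List Q4 :=
  ((List.range K).flatMap fun a => (List.range K).flatMap fun b => (List.range K).flatMap fun c =>
    (List.range K).map fun d => (a, b, c, d)).filter fun c => Col K c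

lemma mem_cols {K : ℕ} {c : Q4} : c ∈ cols K ↔ Col K c := by
  obtain ⟨a, b, c, d⟩ := c
  simp only [cols, List.mem_filter, List.mem_flatMap, List.mem_map, List.mem_range, Prod.mk.injEq,
    decide_eq_true_eq, and_iff_right_iff_imp]
  intro h
  exact ⟨a, h.1, b, h.2.1, c, h.2.2.1, d, h.2.2.2.1, rfl, rfl, rfl, rfl⟩

def lines (K : ℕ) (p : Prs) : List Line :=
  (cols K).flatMap fun c => globL K c ++ (List.range p.G).flatMap (genL K c) ++
    p.2.1.flatMap (relL K p.1 c) ++ p.2.2.flatMap (sepL K p.1 c)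

lemma mem_lines {K : ℕ} {p : Prs} {ln : Line} : ln ∈ lines K p ↔ ∃ c, Col K c ∧
    (ln ∈ globL K c ∨ (∃ g < p.G, ln ∈ genL K c g) ∨ (∃ x ∈ p.2.1, ln ∈ relL K p.1 c x) ∨
      ∃ x ∈ p.2.2, ln ∈ sepL K p.1 c x) := by
  simp only [lines, List.mem_flatMap, mem_cols, List.mem_append, List.mem_range, or_assoc]

/-- Number of points minus one. -/
def npts (K : ℕ) (p : Prs) : ℕ := K + p.G * K * K - 1

def Line.src (ln : Line) : Fin 2 → ℕ := ![ln.1, ln.2.1]

/-- The instance given by a list of lines on the points `0, ..., np`. -/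
def instOf (r np : ℕ) (Ls : List Line) : Inst r (Fin (np + 1)) (Fin Ls.length) where
  bas b := Fin.ofNat (np + 1) b
  src e l := Fin.ofNat (np + 1) ((Ls.get e).src l)
  tgt e := Fin.ofNat (np + 1) (Ls.get e).2.2

/-- Value of an assignment at a numbered point. -/
def ev {np : ℕ} {W : Type} (x : Fin (np + 1) → W) (a : ℕ) : W := x (Fin.ofNat (np + 1) a)

lemma exact_iff {r np : ℕ} {Ls : List Line} {W : Type} (S : Finset (Fin (np + 1) → W)) :
    (instOf r np Ls).Exact S ↔ ∀ ln ∈ Ls, ∀ x ∈ S, ∀ x' ∈ S, ev x ln.1 = ev x' ln.1 →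
      ev x ln.2.1 = ev x' ln.2.1 → ev x ln.2.2 = ev x' ln.2.2 := by
  constructor
  · intro H ln hln x hx x' hx' h0 h1
    obtain ⟨e, rfl⟩ := List.mem_iff_get.1 hln
    refine H e x hx x' hx' fun l => ?_
    fin_cases l
    exacts [h0, h1]
  · intro H e x hx x' hx' h
    exact H _ (List.get_mem Ls e) x hx x' hx' (h 0) (h 1)

/-- The instance of a presentation. -/
abbrev Prs.inst (K : ℕ) (p : Prs) := instOf K (npts K p) (lines K p)

/-- The lines as Horn rules for vertices of `F` with different colours. -/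
structure Horn (K : ℕ) (p : Prs) {Vt : Type} (col : Vt → Fin K) (F : Set Vt) (eA : Vt → Prop)
    (eP : ℕ → Vt → Vt → Prop) : Prop where
  defP : ∀ g < p.1, ∀ u ∈ F, ∀ t ∈ F, col u ≠ col t → eA u → eA t → eP g u t
  invP : ∀ g < p.1, ∀ u ∈ F, ∀ t ∈ F, col u ≠ col t → eP g u t → eA t → eA u
  zero : ∀ u ∈ F, ∀ t ∈ F, col u ≠ col t → eP 1 u t → eA u
  symm : ∀ u ∈ F, ∀ t ∈ F, col u ≠ col t → eP 0 u t → eP 0 t u
  t1 : ∀ g < p.1, ∀ u ∈ F, ∀ t ∈ F, ∀ v ∈ F, col u ≠ col t → col u ≠ col v → col t ≠ col v →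
    eP g u t → eP 0 v u → eP g v t
  t2 : ∀ g < p.1, ∀ u ∈ F, ∀ t ∈ F, ∀ v ∈ F, col u ≠ col t → col u ≠ col v → col t ≠ col v →
    eP g u t → eP 0 v t → eP g u v
  fn : ∀ g < p.1, ∀ u ∈ F, ∀ t ∈ F, ∀ v ∈ F, col u ≠ col t → col u ≠ col v → col t ≠ col v →
    eP g u t → eP g v t → eP 0 u v
  rel : ∀ a b c d, (a, b, c, d) ∈ p.2.1 → ∀ u ∈ F, ∀ t ∈ F, ∀ s ∈ F, ∀ v ∈ F, col u ≠ col t →
    col u ≠ col s → col u ≠ col v → col t ≠ col s → col t ≠ col v → col s ≠ col v →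
    eP b u t → eP a s u → eP d v t → eP c s v
  sep : ∀ a b c d, (a, b, c, d) ∈ p.2.2 → ∀ u ∈ F, ∀ t ∈ F, ∀ v ∈ F, col u ≠ col t →
    col u ≠ col v → col t ≠ col v → eP a u t → eP b u t → eP c v t → eP d v t → eA t

/-- Formal vertices. -/
inductive Vt (K : ℕ) : Type
  | free (i : Fin K)
  | app (g : ℕ) (i : Fin K) (t : Vt K)
  deriving DecidableEq

def Vt.col {K : ℕ} : Vt K → Fin K
  | .free i => i
  | .app _ i _ => i

/-- `F` is a finite certificate that the free vertex of colour `i0` is determined. -/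
def Cert (K : ℕ) (p : Prs) (i0 : Fin K) (F : Finset (Vt K)) : Prop :=
  (∀ i, Vt.free i ∈ F) ∧ (∀ g i t, Vt.app g i t ∈ F → t ∈ F) ∧
    ∀ (eA : Vt K → Prop) (eP : ℕ → Vt K → Vt K → Prop), Horn K p Vt.col F eA eP →
      (∀ g i t, Vt.app g i t ∈ F → g < p.1 → i ≠ t.col → eP g (Vt.app g i t) t) → eA (Vt.free i0)

end Pool.Agent.SemiRandom.Und
end

-- part Pool.Agent.P.MP_c53d0e_pr.UH0
section

set_option autoImplicit false
set_option linter.unusedSectionVars false

namespace Pool.Agent.SemiRandom.Und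

open Finset

/-- Uniformity of the hypergraph. -/
def sOf (r np nl : ℕ) : ℕ := 5 * r + np + nl * r

/-- Number of vertices. -/
def kOf (r np nl : ℕ) : ℕ := sOf r np nl + 1 + 5 * (2 * r + (np + 1) + nl * (r + 2))

def srcN (ln : Line) (l : ℕ) : ℕ := [ln.1, ln.2.1].getD l 0

/-- All non-constant vertices; `o` is the offset. -/
def allL (r np nl o : ℕ) : List ℕ :=
  (List.range (2 * r)).map (fun i => o + 5 * i) ++
  (List.range (np + 1)).map (fun p => o + (5 * p + 1)) ++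
  (List.range r).map (fun b => o + (5 * b + 2)) ++
  (List.range nl).flatMap (fun e => (List.range 2).map fun l => o + (5 * (2 * e + l) + 3)) ++
  (List.range nl).flatMap (fun e => (List.range (r - 2)).map fun l => o + (5 * (r * e + l) + 4))

/-- Groups as lists: non-constant vertices and number of edges; `o` is the offset. -/
def groupsL (r np : ℕ) (Ls : List Line) (o : ℕ) : List (List ℕ × ℕ) :=
  [([], 2 * r + 2)] ++ (List.range (2 * r)).map (fun i => ([o + 5 * i], 2)) ++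
  (List.range (np + 1)).map (fun p => ([o + (5 * p + 1)], 1)) ++
  (List.range r).map (fun b => ([o + (5 * (b % (np + 1)) + 1), o + (5 * b + 2)], 1)) ++
  (List.range Ls.length).flatMap (fun e => (List.range 2).map fun l =>
    ([o + (5 * (srcN (Ls.getD e (0, 0, 0)) l % (np + 1)) + 1), o + (5 * (2 * e + l) + 3)], 1)) ++
  (List.range r).map (fun b => ([o + (5 * ((r + b) % (np + 1)) + 1), o + (5 * b + 2)], 1)) ++
  (List.range Ls.length).map (fun e =>
    ((o + (5 * ((Ls.getD e (0, 0, 0)).2.2 % (np + 1)) + 1)) ::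
      ((List.range 2).map (fun l => o + (5 * (2 * e + l) + 3)) ++
        (List.range (r - 2)).map fun l => o + (5 * (r * e + l) + 4)), 2 * r - 2)) ++
  [(allL r np Ls.length o, 2 * r)]

/-- The list of edges. -/
def edgeL (r np : ℕ) (Ls : List Line) : List (List ℕ) :=
  (groupsL r np Ls (sOf r np Ls.length + 1)).flatMap fun g => (List.range g.2).map fun i =>
    (List.range (sOf r np Ls.length + 1 - g.1.length)).filter (fun j => !decide (j = i)) ++ g.1

/-- Numbering of the vertices. -/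
def encN {r s np nl : ℕ} : Vx r s (Fin (np + 1)) (Fin nl) → ℕ
  | .c j => j
  | .y i => s + 1 + 5 * i
  | .pt p => s + 1 + (5 * p + 1)
  | .z (Sum.inl b) => s + 1 + (5 * b + 2)
  | .z (Sum.inr x) => s + 1 + (5 * (2 * x.1 + x.2) + 3)
  | .tk e l => s + 1 + (5 * (r * e + l) + 4)

lemma ok_sOf {r : ℕ} (hr : 2 ≤ r) (np nl : ℕ) : Ok r (sOf r np nl) (Fin (np + 1)) (Fin nl) :=
  ⟨hr, by rw [Fintype.card_fin, Fintype.card_fin, sOf]; omega⟩

end Pool.Agent.SemiRandom.Und
end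

-- part Pool.Agent.P.MP_c53d0e_pr.WH0
section

set_option autoImplicit false
set_option linter.unusedSectionVars false

namespace Pool.Agent.SemiRandom.Fix

open Finset Und

/-- The data of a list of lines. -/
def datOf (r np : ℕ) (Ls : List Line) :
    Dat r (Ls.length * r) (Fin (np + 1)) (Fin Ls.length) :=
  ⟨instOf 4 np Ls, finProdFinEquiv.symm⟩

def encC (r s a i j : ℕ) : ℕ := s + 1 + 4 * (a + 3 * (j % (pm r + 1) + 8 * r * (i % (al r + 1))))
def encP (s p : ℕ) : ℕ := s + 1 + (4 * p + 1)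
def encZ (s c : ℕ) : ℕ := s + 1 + (4 * c + 2)
def encT (s c k : ℕ) : ℕ := s + 1 + (4 * (15 * c + k) + 3)

/-- Code of the compound vertex `i` of the functional edge of kind `g` and index `a`. -/
def cz (r g a i : ℕ) : ℕ := r * (3 * a + g) + i

def kind {N nl : ℕ} : FD N (Fin nl) → ℕ × ℕ
  | .L e => (0, e)
  | .D j => (1, j)
  | .E j => (2, j)

def czOf {r N nl : ℕ} (z : Cp r N (Fin nl)) : ℕ := cz r (kind z.1).1 (kind z.1).2 z.2

/-- Numbering of the vertices. -/
def encN {r s N np nl : ℕ} : Vx r s N (Fin (np + 1)) (Fin nl) → ℕ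
  | .hub j => j
  | .eta => s
  | .c x => encC r s x.1 x.2.1 x.2.2
  | .nv (.pt p) => encP s p
  | .nv (.cv z) => encZ s (czOf z)
  | .nv (.tk z k) => encT s (czOf z) k

/-- Number of vertices. -/
def kF (r s np nl : ℕ) : ℕ :=
  s + 1 + 4 * (24 * r * (al r + 1) + (np + 1) + 16 * (r * (3 * (nl * r + nl + 1) + 3)))

def vq (r s : ℕ) (x : QE r) (k : ℕ) : ℕ :=
  if k = 0 then s else if k = 1 then encC r s x.1.1.1 x.1.1.2.1 x.1.1.2.2 else
    if k = 2 ∧ qbin x then encC r s x.1.1.1 x.1.1.2.1 (x.1.2 + 1)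
    else encC r s (x.1.1.1 + 1 : Fin 3) x.1.2 (k - 2)

/-- The edges among constants, without the hubs. -/
noncomputable def qL (r s : ℕ) : List (List ℕ) :=
  (univ : Finset (QE r)).toList.map fun x => (List.range (r + 1)).map (vq r s x)

/-- Kinds and indices of the functional edges. -/
def fdL (r nl : ℕ) : List (ℕ × ℕ) :=
  (List.range nl).map (fun e => (0, e)) ++ (List.range (nl * r)).map (fun j => (1, j)) ++
    (List.range (nl * r + 1)).map fun j => (2, j)

def nprivN (N g a i : ℕ) : ℕ :=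
  if g = 0 then 7 else if i = 0 then (if g = 1 then 0 else if a = N then 3 else 15) else 7

def rparN (np : ℕ) (Ls : List Line) (g a i : ℕ) : List ℕ :=
  if g = 0 then [srcN (Ls.getD a (0, 0, 0)) (if i = 0 then 0 else 1) % (np + 1)]
  else if g = 1 then [] else if i = 0 then
    [0 % (np + 1), 1 % (np + 1), 2 % (np + 1), 3 % (np + 1)] else []

/-- Non-constant vertices with the lists of their parents. -/
def ownL (r s np : ℕ) (Ls : List Line) : List (ℕ × List ℕ) :=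
  (List.range (np + 1)).map (fun p => (encP s p, [])) ++
  (fdL r Ls.length).flatMap (fun y => (List.range r).map fun i => (encZ s (cz r y.1 y.2 i),
    (List.range (nprivN (Ls.length * r) y.1 y.2 i)).map (encT s (cz r y.1 y.2 i)) ++
      (rparN np Ls y.1 y.2 i).map (encP s))) ++
  (fdL r Ls.length).flatMap fun y => (List.range r).flatMap fun i =>
    (List.range 15).map fun k => (encT s (cz r y.1 y.2 i) k, [])

def oL (r s np : ℕ) (Ls : List Line) : List (List ℕ) :=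
  (ownL r s np Ls).flatMap fun x => (List.range (al r)).map fun t =>
    x.1 :: x.2.getD t (encC r s 0 t 0) :: (List.range (r - 1)).map fun l => encC r s 0 t (l + 1)

def tgtN (r s np : ℕ) (Ls : List Line) (g a : ℕ) : ℕ :=
  if g = 0 then encP s ((Ls.getD a (0, 0, 0)).2.2 % (np + 1))
  else if g = 1 then encZ s (cz r 0 (a / r) (a % r))
  else if a = 0 then encP s (0 % (np + 1)) else encZ s (cz r 2 (a - 1) 0)

def fL (r s np : ℕ) (Ls : List Line) : List (List ℕ) :=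
  (fdL r Ls.length).map fun y => tgtN r s np Ls y.1 y.2 :: (List.range r).map fun i =>
    encZ s (cz r (if y.1 = 1 then (if i = 0 then 2 else 1) else y.1) y.2 i)

/-- The list of edges. -/
noncomputable def edgeF (r s np : ℕ) (Ls : List Line) : List (List ℕ) :=
  (qL r s ++ oL r s np Ls ++ fL r s np Ls).map fun e => List.range (s - r - 1) ++ e

end Pool.Agent.SemiRandom.Fix
end

-- part Pool.Agent.P.MP_c53d0e_pr.WH1
section

set_option autoImplicit false
set_option linter.unusedSectionVars false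

namespace Pool.Agent.SemiRandom.Fix

open Finset Und

variable {r s np : ℕ} [NeZero r]

lemma kind_lt_WH1 {N nl : ℕ} (F : FD N (Fin nl)) : (kind F).1 < 3 := by
  cases F <;> simp [kind]

lemma kind_inj_WH1 {N nl : ℕ} {F F' : FD N (Fin nl)} (h1 : (kind F).1 = (kind F').1)
    (h2 : (kind F).2 = (kind F').2) : F = F' := by
  cases F <;> cases F' <;> simp [kind] at h1 h2 ⊢ <;> exact Fin.ext h2

lemma mix_inj_WH1 {m a b a' b' : ℕ} (ha : a < m) (ha' : a' < m) (h : m * b + a = m * b' + a') :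
    a = a' ∧ b = b' := by
  have hm : 0 < m := by omega
  have h1 : (m * b + a) % m = (m * b' + a') % m := by rw [h]
  have h2 : (m * b + a) / m = (m * b' + a') / m := by rw [h]
  rw [Nat.mul_add_mod, Nat.mul_add_mod, Nat.mod_eq_of_lt ha, Nat.mod_eq_of_lt ha'] at h1
  rw [Nat.mul_add_div hm, Nat.mul_add_div hm, Nat.div_eq_of_lt ha, Nat.div_eq_of_lt ha'] at h2
  exact ⟨h1, by omega⟩

lemma czOf_inj_WH1 {N nl : ℕ} {z z' : Cp r N (Fin nl)} (h : czOf z = czOf z') : z = z' := by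
  obtain ⟨F, i⟩ := z
  obtain ⟨F', i'⟩ := z'
  simp only [czOf, cz] at h
  obtain ⟨h1, h2⟩ := mix_inj_WH1 i.2 i'.2 h
  have k1 := kind_lt_WH1 F
  have k2 := kind_lt_WH1 F'
  have : F = F' := kind_inj_WH1 (by omega) (by omega)
  exact Prod.ext this (Fin.ext h1)

lemma czOf_lt_WH1 {nl : ℕ} (z : Cp r (nl * r) (Fin nl)) :
    czOf z < r * (3 * (nl * r + nl + 1) + 3) := by
  obtain ⟨F, i⟩ := z
  have k1 := kind_lt_WH1 F
  have k2 : (kind F).2 ≤ nl * r + nl := by
    cases F with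
    | L e => have := e.2; simp only [kind]; omega
    | D j => have := j.2; simp only [kind]; omega
    | E j => have := j.2; simp only [kind]; omega
  have hi := i.2
  simp only [czOf, cz]
  have : r * (3 * (kind F).2 + (kind F).1 + 1) ≤ r * (3 * (nl * r + nl + 1) + 3) :=
    Nat.mul_le_mul_left _ (by omega)
  rw [Nat.mul_add_one] at this
  omega

lemma encC_eq_WH1 (x : Cn r) : encC r s x.1 x.2.1 x.2.2 =
    s + 1 + 4 * ((x.1 : ℕ) + 3 * ((x.2.2 : ℕ) + 8 * r * (x.2.1 : ℕ))) := by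
  unfold encC
  rw [Nat.mod_eq_of_lt x.2.1.2, Nat.mod_eq_of_lt x.2.2.2]

lemma encN_lt (hO : Ok r s) {nl : ℕ} (v : Vx r s (nl * r) (Fin (np + 1)) (Fin nl)) :
    encN v < kF r s np nl := by
  unfold kF
  rcases v with j | _ | x | v
  · have := j.2
    simp only [encN]; omega
  · simp only [encN]; omega
  · simp only [encN]
    rw [encC_eq_WH1]
    have h1 := x.1.2
    have h2 := x.2.1.2
    have h3 : (x.2.2 : ℕ) < 8 * r := lt_of_lt_of_eq x.2.2.2 (pm_succ hO)
    have h4 : 8 * r * ((x.2.1 : ℕ) + 1) ≤ 8 * r * (al r + 1) := Nat.mul_le_mul_left _ h2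
    rw [Nat.mul_add_one] at h4
    have h5 : 24 * r * (al r + 1) = 3 * (8 * r * (al r + 1)) := by ring
    omega
  · rcases v with p | z | ⟨z, k⟩
    · have := p.2
      simp only [encN, encP]; omega
    · have := czOf_lt_WH1 z
      simp only [encN, encZ]; omega
    · have := czOf_lt_WH1 z
      have := k.2
      simp only [encN, encT]; omega

lemma encN_inj (hO : Ok r s) {N nl : ℕ} :
    Function.Injective (encN : Vx r s N (Fin (np + 1)) (Fin nl) → ℕ) := by
  intro v w h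
  rcases v with j | _ | x | (p | z | ⟨z, k⟩) <;>
    rcases w with j' | _ | x' | (p' | z' | ⟨z', k'⟩) <;>
    simp only [encN, encC_eq_WH1, encP, encZ, encT] at h
  all_goals first
    | rfl
    | (exfalso; omega)
    | (exfalso; have := j.2; omega)
    | (exfalso; have := j'.2; omega)
    | skip
  · rw [Fin.ext h]
  · have h1 := x.1.2
    have h1' := x'.1.2
    have h3 : (x.2.2 : ℕ) < 8 * r := lt_of_lt_of_eq x.2.2.2 (pm_succ hO)
    have h3' : (x'.2.2 : ℕ) < 8 * r := lt_of_lt_of_eq x'.2.2.2 (pm_succ hO)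
    have e1 : (x.1 : ℕ) = x'.1 := by omega
    have e2 : 8 * r * (x.2.1 : ℕ) + (x.2.2 : ℕ) = 8 * r * (x'.2.1 : ℕ) + (x'.2.2 : ℕ) := by omega
    obtain ⟨e3, e4⟩ := mix_inj_WH1 h3 h3' e2
    have : x = x' := Prod.ext (Fin.ext e1) (Prod.ext (Fin.ext e4) (Fin.ext e3))
    rw [this]
  · have : p = p' := Fin.ext (by omega)
    rw [this]
  · have : z = z' := czOf_inj_WH1 (by omega)
    rw [this]
  · have h1 := k.2
    have h2 := k'.2
    have e1 : z = z' := czOf_inj_WH1 (by omega)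
    have e2 : k = k' := Fin.ext (by omega)
    rw [e1, e2]

lemma encN_cc {N nl : ℕ} (a : Fin 3) (i j : ℕ) :
    encN (cc a i j : Vx r s N (Fin (np + 1)) (Fin nl)) = encC r s a i j := by
  simp only [cc, encN, encC, Fin.val_ofNat, Nat.mod_mod]

lemma mem_fdL {nl : ℕ} (y : ℕ × ℕ) :
    y ∈ fdL r nl ↔ ∃ F : FD (nl * r) (Fin nl), y = kind F := by
  simp only [fdL, List.mem_append, List.mem_map, List.mem_range]
  constructor
  · rintro ((⟨e, he, rfl⟩ | ⟨j, hj, rfl⟩) | ⟨j, hj, rfl⟩)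
    · exact ⟨.L ⟨e, he⟩, rfl⟩
    · exact ⟨.D ⟨j, hj⟩, rfl⟩
    · exact ⟨.E ⟨j, hj⟩, rfl⟩
  · rintro ⟨F, rfl⟩
    cases F with
    | L e => exact Or.inl (Or.inl ⟨e, e.2, rfl⟩)
    | D j => exact Or.inl (Or.inr ⟨j, j.2, rfl⟩)
    | E j => exact Or.inr ⟨j, j.2, rfl⟩

lemma mem_qL (Ls : List Line) (x : List ℕ) : x ∈ qL r s ↔
    ∃ y : QE r, x = (List.range (r + 1)).map fun k => encN (vtx (datOf r np Ls) s (eQ y) k) := by
  have key : ∀ y : QE r, vq r s y = fun k => encN (vtx (datOf r np Ls) s (eQ y) k) := by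
    intro y
    funext k
    simp only [vq, vtx]
    split_ifs
    · rfl
    · rfl
    · rw [qpar, encN_cc]
    · rw [encN_cc]
  simp only [qL, List.mem_map, Finset.mem_toList, mem_univ, true_and, key]
  exact ⟨fun ⟨y, h⟩ => ⟨y, h.symm⟩, fun ⟨y, h⟩ => ⟨y, h.symm⟩⟩

lemma mem_fL (Ls : List Line) (x : List ℕ) : x ∈ fL r s np Ls ↔
    ∃ F, x = (List.range (r + 1)).map fun k => encN (vtx (datOf r np Ls) s (eF F) k) := by
  have key : ∀ F : FD (Ls.length * r) (Fin Ls.length),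
      (tgtN r s np Ls (kind F).1 (kind F).2 :: (List.range r).map fun i =>
        encZ s (cz r (if (kind F).1 = 1 then (if i = 0 then 2 else 1) else (kind F).1) (kind F).2 i)) =
      (List.range (r + 1)).map fun k => encN (vtx (datOf r np Ls) s (eF F) k) := by
    intro F
    rw [List.range_succ_eq_map, List.map_cons, List.map_map]
    congr 1
    · cases F with
      | L e =>
        simp [tgtN, kind, vtx, tgtv, encN, datOf, instOf, List.getD_eq_getElem?_getD]
      | D j =>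
        simp [tgtN, kind, vtx, tgtv, encN, datOf, czOf]
      | E j =>
        refine Fin.cases ?_ (fun j' => ?_) j
        · simp [tgtN, kind, vtx, tgtv, encN, datOf, instOf]
        · simp [tgtN, kind, vtx, tgtv, encN, czOf, aa]
    · refine List.map_congr_left fun i hi => ?_
      have hi' : i % r = i := Nat.mod_eq_of_lt (List.mem_range.1 hi)
      cases F with
      | L e => simp [kind, vtx, encN, pay, czOf, hi']
      | D j =>
        by_cases h0 : i = 0
        · simp [kind, vtx, encN, pay, czOf, h0]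
        · simp [kind, vtx, encN, pay, czOf, hi', h0]
      | E j => simp [kind, vtx, encN, pay, czOf, hi']
  simp only [fL, List.mem_map, mem_fdL]
  constructor
  · rintro ⟨y, ⟨F, rfl⟩, rfl⟩
    exact ⟨F, key F⟩
  · rintro ⟨F, rfl⟩
    exact ⟨kind F, ⟨F, rfl⟩, key F⟩

end Pool.Agent.SemiRandom.Fix
end
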