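import Pool.Agent.K.MP_c53d0e_pr.C18

set_option autoImplicit false
set_option linter.unusedSectionVars false

namespace Pool.Agent.SemiRandom.Fix

open Finset Und

variable {r s np : ℕ} [NeZero r]

/-- The entry of a non-constant vertex. -/
def ent_WH2 (s np : ℕ) (Ls : List Line) :
    NV r (Ls.length * r) (Fin (np + 1)) (Fin Ls.length) → ℕ × List ℕ
  | .pt p => (encP s p, [])
  | .cv z => (encZ s (czOf z),
      (List.range (nprivN (Ls.length * r) (kind z.1).1 (kind z.1).2 z.2)).map (encT s (czOf z)) ++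
        (rparN np Ls (kind z.1).1 (kind z.1).2 z.2).map (encP s))
  | .tk z k => (encT s (czOf z) k, [])

lemma mem_iff_WH2 (Ls : List Line) (x : ℕ × List ℕ) :
    x ∈ ownL r s np Ls ↔ ∃ v, x = ent_WH2 (r := r) s np Ls v := by
  simp only [ownL, List.mem_append, List.mem_map, List.mem_range, List.mem_flatMap, mem_fdL]
  constructor
  · rintro ((⟨p, hp, rfl⟩ | ⟨_, ⟨F, rfl⟩, i, hi, rfl⟩) | ⟨_, ⟨F, rfl⟩, i, hi, k, hk, rfl⟩)
    · exact ⟨.pt ⟨p, hp⟩, rfl⟩
    · exact ⟨.cv (F, ⟨i, hi⟩), rfl⟩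
    · exact ⟨.tk (F, ⟨i, hi⟩) ⟨k, hk⟩, rfl⟩
  · rintro ⟨p | z | ⟨z, k⟩, rfl⟩
    · exact Or.inl (Or.inl ⟨p, p.2, rfl⟩)
    · exact Or.inl (Or.inr ⟨_, ⟨z.1, rfl⟩, z.2, z.2.2, rfl⟩)
    · exact Or.inr ⟨_, ⟨z.1, rfl⟩, z.2, z.2.2, k, k.2, rfl⟩

lemma npriv_WH2 {N nl : ℕ} (z : Cp r N (Fin nl)) :
    nprivN N (kind z.1).1 (kind z.1).2 z.2 = npriv z := by
  rcases z with ⟨e | j | j, i⟩ <;> rfl

lemma rpar_WH2 (Ls : List Line) (z : Cp r (Ls.length * r) (Fin Ls.length)) :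
    rparN np Ls (kind z.1).1 (kind z.1).2 z.2 = (rpar (instOf 4 np Ls) z).map Fin.val := by
  rcases z with ⟨e | j | j, i⟩
  · change [srcN (Ls.getD e (0, 0, 0)) (if (i : ℕ) = 0 then 0 else 1) % (np + 1)] =
      [((instOf 4 np Ls).src e (if (i : ℕ) = 0 then 0 else 1) : ℕ)]
    rw [List.getD_eq_getElem _ _ e.2]
    split_ifs <;> rfl
  · rfl
  · change (if (i : ℕ) = 0 then _ else _) = List.map Fin.val (if (i : ℕ) = 0 then _ else _)
    split_ifs <;> rfl

lemma spec_WH2 (Ls : List Line) (v : NV r (Ls.length * r) (Fin (np + 1)) (Fin Ls.length)) :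
    (ent_WH2 s np Ls v).1 = encN (Vx.nv v : Vx r s _ _ _) ∧ ∀ t, (ent_WH2 s np Ls v).2[t]? =
      (par (datOf r np Ls).I v t).map fun π => encN (Vx.nv π : Vx r s _ _ _) := by
  rcases v with p | z | ⟨z, k⟩
  · exact ⟨rfl, fun _ => rfl⟩
  · refine ⟨rfl, fun t => ?_⟩
    have h := npriv_le z
    simp only [ent_WH2, npriv_WH2, rpar_WH2, List.getElem?_append, List.length_map,
      List.length_range, List.getElem?_map, par, ptk, ppt]
    split_ifs with ht
    · rw [List.getElem?_range ht]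
      change some (encT s _ t) = some (encT s _ (t % 15))
      rw [Nat.mod_eq_of_lt (by omega)]
    · change _ = Option.map _ (Option.map _ (rpar (instOf 4 np Ls) z)[t - npriv z]?)
      cases (rpar (instOf 4 np Ls) z)[t - npriv z]? <;> rfl
  · exact ⟨rfl, fun _ => rfl⟩

lemma row_WH2 (hO : Ok r s) (Ls : List Line)
    {v : NV r (Ls.length * r) (Fin (np + 1)) (Fin Ls.length)} {x : ℕ × List ℕ}
    (h : x.1 = encN (Vx.nv v : Vx r s _ _ _) ∧ ∀ t, x.2[t]? =
      (par (datOf r np Ls).I v t).map fun π => encN (Vx.nv π : Vx r s _ _ _)) (t : Fin (al r)) :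
    (x.1 :: x.2.getD t (encC r s 0 t 0) ::
        (List.range (r - 1)).map fun l => encC r s 0 t (l + 1)) =
      (List.range (r + 1)).map fun k => encN (vtx (datOf r np Ls) s (eO v t) k) := by
  have e : List.range (r + 1) = 0 :: 1 :: (List.range (r - 1)).map fun l => l + 2 := by
    conv_lhs => rw [show r + 1 = r - 1 + 1 + 1 by have := hO.hr; omega]
    rw [List.range_succ_eq_map, List.range_succ_eq_map, List.map_cons, List.map_map]
    rfl
  rw [e, List.map_cons, List.map_cons, List.map_map, h.1, List.getD_eq_getElem?_getD, h.2]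
  refine congrArg₂ _ rfl (congrArg₂ _ ?_ (List.map_congr_left fun l _ =>
    (encN_cc (np := np) (N := Ls.length * r) (nl := Ls.length) 0 t (l + 1)).symm))
  change _ = encN ((par (datOf r np Ls).I v t).elim (cc 0 t 0) Vx.nv)
  cases par (datOf r np Ls).I v t
  · exact (encN_cc (np := np) (N := Ls.length * r) (nl := Ls.length) 0 t 0).symm
  · rfl

lemma mem_ownL (Ls : List Line) (x : ℕ × List ℕ) : x ∈ ownL r s np Ls →
    ∃ v : NV r (Ls.length * r) (Fin (np + 1)) (Fin Ls.length),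
      x.1 = encN (Vx.nv v : Vx r s _ _ _) ∧
      ∀ t, x.2[t]? = (par (datOf r np Ls).I v t).map fun π => encN (Vx.nv π : Vx r s _ _ _) := by
  intro hx
  obtain ⟨v, rfl⟩ := (mem_iff_WH2 Ls x).1 hx
  exact ⟨v, spec_WH2 Ls v⟩

lemma ownL_mem (Ls : List Line) (v : NV r (Ls.length * r) (Fin (np + 1)) (Fin Ls.length)) :
    ∃ x ∈ ownL r s np Ls, x.1 = encN (Vx.nv v : Vx r s _ _ _) ∧
      ∀ t, x.2[t]? = (par (datOf r np Ls).I v t).map fun π => encN (Vx.nv π : Vx r s _ _ _) := by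
  exact ⟨_, (mem_iff_WH2 Ls _).2 ⟨v, rfl⟩, spec_WH2 Ls v⟩

lemma mem_oL (hO : Ok r s) (Ls : List Line) (x : List ℕ) : x ∈ oL r s np Ls ↔
    ∃ v t, x = (List.range (r + 1)).map fun k => encN (vtx (datOf r np Ls) s (eO v t) k) := by
  simp only [oL, List.mem_flatMap, List.mem_map, List.mem_range]
  constructor
  · rintro ⟨y, hy, t, ht, rfl⟩
    obtain ⟨v, hv⟩ := mem_ownL Ls y hy
    exact ⟨v, ⟨t, ht⟩, row_WH2 hO Ls hv ⟨t, ht⟩⟩
  · rintro ⟨v, t, rfl⟩
    obtain ⟨y, hy, hv⟩ := ownL_mem (s := s) Ls v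
    exact ⟨y, hy, t, t.2, row_WH2 hO Ls hv t⟩

theorem graphOf_edgeF (hO : Ok r s) (np : ℕ) (Ls : List Line) :
    ∃ enc : Vx r s (Ls.length * r) (Fin (np + 1)) (Fin Ls.length) ↪ Fin (kF r s np Ls.length),
      graphOf (kF r s np Ls.length) (edgeF r s np Ls) =
        univ.image fun e => (ed (datOf r np Ls) s e).map enc := by
  have h1 : ∀ x, x ∈ qL r s ++ oL r s np Ls ++ fL r s np Ls ↔
      ∃ e, x = (List.range (r + 1)).map fun k => encN (vtx (datOf r np Ls) s e k) := fun x => by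
    simp only [List.mem_append, mem_qL (np := np) Ls, mem_oL hO, mem_fL, Sum.exists, Prod.exists,
      or_assoc]
  let enc : Vx r s (Ls.length * r) (Fin (np + 1)) (Fin Ls.length) ↪ Fin (kF r s np Ls.length) :=
    ⟨fun v => ⟨encN v, encN_lt hO v⟩, fun _ _ e => encN_inj hO (congrArg Fin.val e)⟩
  have h2 : ∀ e, (univ.filter fun v : Fin (kF r s np Ls.length) => (v : ℕ) ∈
      List.range (s - r - 1) ++ (List.range (r + 1)).map fun k =>
        encN (vtx (datOf r np Ls) s e k)) = (ed (datOf r np Ls) s e).map enc := fun e => by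
    ext a
    simp only [mem_filter, mem_univ, true_and, List.mem_append, List.mem_map, List.mem_range,
      mem_map, ed, mem_union, mem_HH, mem_image, mem_range]
    constructor
    · rintro (h | ⟨k, hk, h⟩)
      · exact ⟨.hub ⟨a, h⟩, Or.inl ⟨_, rfl⟩, rfl⟩
      · exact ⟨_, Or.inr ⟨k, hk, rfl⟩, Fin.ext h⟩
    · rintro ⟨_, ⟨j, rfl⟩ | ⟨k, hk, rfl⟩, rfl⟩
      · exact Or.inl j.2
      · exact Or.inr ⟨k, hk, rfl⟩
  refine ⟨enc, Finset.ext fun A => ?_⟩
  simp only [graphOf, edgeF, List.mem_toFinset, List.mem_map, h1, mem_image, mem_univ, true_and]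
  constructor
  · rintro ⟨_, ⟨_, ⟨e, rfl⟩, rfl⟩, rfl⟩
    exact ⟨e, (h2 e).symm⟩
  · rintro ⟨e, rfl⟩
    exact ⟨_, ⟨_, ⟨e, rfl⟩, rfl⟩, h2 e⟩

end Pool.Agent.SemiRandom.Fix
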