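import Pool.Agent.K.MP_c53d0e_pr.C1

set_option autoImplicit false
set_option linter.unusedSectionVars false

namespace Pool.Agent.SemiRandom.Fix

open Finset Und

variable {r s N : ℕ} {P Ln : Type} [NeZero r] [Fintype P] [DecidableEq P] [Fintype Ln]
  [DecidableEq Ln]

lemma cc_ne_hub_WA3 (a : Fin 3) (i j : ℕ) (k : Fin (s - r - 1)) :
    (cc a i j : Vx r s N P Ln) ≠ .hub k := by
  intro h; unfold cc at h; cases h

lemma cc_ne_eta_WA3 (a : Fin 3) (i j : ℕ) : (cc a i j : Vx r s N P Ln) ≠ .eta := by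
  intro h; unfold cc at h; cases h

lemma cc_ne_nv_WA3 (a : Fin 3) (i j : ℕ) (v : NV r N P Ln) :
    (cc a i j : Vx r s N P Ln) ≠ .nv v := by
  intro h; unfold cc at h; cases h

lemma cc_notMem_HH_WA3 (a : Fin 3) (i j : ℕ) : (cc a i j : Vx r s N P Ln) ∉ HH := by
  rw [mem_HH]
  rintro ⟨k, hk⟩
  exact cc_ne_hub_WA3 a i j k hk

lemma fin3_ne_WA3 (a : Fin 3) : a ≠ a + 1 := by
  revert a; decide

lemma fin3_ne2_WA3 (a b : Fin 3) (h : a = b + 1) (h' : b = a + 1) : False := by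
  revert a b; decide

/-- Constants in an edge among constants. -/
lemma cc_mem_Q_WA3 (hO : Ok r s) (D : Dat r N P Ln) (x : QE r) {a : Fin 3} {i j : ℕ}
    (hi : i ≤ al r) (hj : j < 8 * r) (h : (cc a i j : Vx r s N P Ln) ∈ ed D s (eQ x)) :
    (a = x.1.1.1 ∧ i = x.1.1.2.1 ∧ j = x.1.1.2.2) ∨
      (qbin x ∧ a = x.1.1.1 ∧ i = x.1.1.2.1 ∧ j = x.1.2 + 1) ∨
      (a = x.1.1.1 + 1 ∧ i = x.1.2) := by
  have hp := pm_succ hO
  have h1 : (x.1.1.2.1 : ℕ) ≤ al r := Nat.lt_succ_iff.1 x.1.1.2.1.2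
  have h2 : (x.1.1.2.2 : ℕ) < 8 * r := hp ▸ x.1.1.2.2.2
  have h3 : (x.1.2 : ℕ) ≤ al r := Nat.lt_succ_iff.1 x.1.2.2
  rw [mem_ed_Q hO] at h
  rcases h with h | h | h | ⟨hb, h⟩ | ⟨l, hl, -, h⟩
  · exact absurd h (cc_notMem_HH_WA3 a i j)
  · exact absurd h (cc_ne_eta_WA3 a i j)
  · rw [c_eq_cc, cc_inj hO hi h1 hj h2] at h
    exact Or.inl h
  · have h4 : (x.1.2 : ℕ) + 1 < 8 * r := by have := hb.2; omega
    unfold qpar at h
    rw [cc_inj hO hi h1 hj h4] at h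
    exact Or.inr (Or.inl ⟨hb, h⟩)
  · rw [cc_inj hO hi h3 hj (by omega)] at h
    exact Or.inr (Or.inr ⟨h.1, h.2.1⟩)

lemma Q_inj_WA3 (hO : Ok r s) (D : Dat r N P Ln) {x y : QE r}
    (h : ed D s (eQ x) = ed D s (eQ y)) : x = y := by
  have hp := pm_succ hO
  have hr := hO.hr
  have self : ∀ z : QE r, (cc z.1.1.1 z.1.1.2.1 z.1.1.2.2 : Vx r s N P Ln) ∈ ed D s (eQ z) := by
    intro z
    rw [mem_ed_Q hO, ← c_eq_cc]
    exact Or.inr (Or.inr (Or.inl rfl))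
  have b1 : ∀ z : QE r, (z.1.1.2.1 : ℕ) ≤ al r := fun z => Nat.lt_succ_iff.1 z.1.1.2.1.2
  have b2 : ∀ z : QE r, (z.1.1.2.2 : ℕ) < 8 * r := fun z => hp ▸ z.1.1.2.2.2
  have b3 : ∀ z : QE r, (z.1.2 : ℕ) ≤ al r := fun z => Nat.lt_succ_iff.1 z.1.2.2
  have hx := cc_mem_Q_WA3 hO D y (b1 x) (b2 x) (h ▸ self x)
  have hy := cc_mem_Q_WA3 hO D x (b1 y) (b2 y) (h ▸ self y)
  have ha : x.1.1.1 = y.1.1.1 ∧ (x.1.1.2.1 : ℕ) = y.1.1.2.1 ∧
      (x.1.1.2.2 : ℕ) = y.1.1.2.2 := by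
    rcases hx with hx | hx | hx
    · exact hx
    · rcases hy with hy | hy | hy
      · exact ⟨hy.1.symm, hy.2.1.symm, hy.2.2.symm⟩
      · have := hy.1.1
        have := hx.2.2.2
        omega
      · exact absurd (hx.2.1.symm.trans (hx.2.1.trans (hy.1.trans (by rw [hx.2.1]))))
          (fin3_ne_WA3 _)
    · rcases hy with hy | hy | hy
      · exact ⟨hy.1.symm, hy.2.1.symm, hy.2.2.symm⟩
      · exact absurd (hy.2.1.trans hx.1) (fin3_ne_WA3 _)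
      · exact (fin3_ne2_WA3 _ _ hx.1 hy.1).elim
  have par : ∀ u v : QE r, ed D s (eQ u) = ed D s (eQ v) → u.1.1.1 = v.1.1.1 →
      (u.1.1.2.2 : ℕ) = v.1.1.2.2 → qbin u → (u.1.2 : ℕ) = v.1.2 := by
    intro u v huv h1 h2 hb
    have hm : (cc u.1.1.1 u.1.1.2.1 (u.1.2 + 1) : Vx r s N P Ln) ∈ ed D s (eQ u) := by
      rw [mem_ed_Q hO]
      exact Or.inr (Or.inr (Or.inr (Or.inl ⟨hb, rfl⟩)))
    have h4 : (u.1.2 : ℕ) + 1 < 8 * r := by have := hb.2; omega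
    rcases cc_mem_Q_WA3 hO D v (b1 u) h4 (huv ▸ hm) with h5 | h5 | h5
    · have := hb.1
      have := h5.2.2
      omega
    · have := h5.2.2.2
      omega
    · exact absurd (h1.symm.trans h5.1) (fin3_ne_WA3 _)
  have ht : (x.1.2 : ℕ) = y.1.2 := by
    by_cases hbx : qbin x
    · exact par x y h ha.1 ha.2.2 hbx
    by_cases hby : qbin y
    · exact (par y x h.symm ha.1.symm ha.2.2.symm hby).symm
    have hm : (cc (x.1.1.1 + 1) x.1.2 0 : Vx r s N P Ln) ∈ ed D s (eQ x) := by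
      rw [mem_ed_Q hO]
      exact Or.inr (Or.inr (Or.inr (Or.inr ⟨0, by omega, fun _ => hbx, rfl⟩)))
    rcases cc_mem_Q_WA3 hO D y (b3 x) (by omega) (h ▸ hm) with h5 | h5 | h5
    · exact absurd (ha.1.trans h5.1.symm) (fin3_ne_WA3 _)
    · exact absurd h5.1 hby
    · exact h5.2
  apply Subtype.ext
  exact Prod.ext (Prod.ext ha.1 (Prod.ext (Fin.ext ha.2.1) (Fin.ext ha.2.2))) (Fin.ext ht)

lemma last_mem_O_WA3 (hO : Ok r s) (D : Dat r N P Ln) (w : NV r N P Ln) (t : Fin (al r)) :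
    (cc 0 t (r - 1) : Vx r s N P Ln) ∈ ed D s (eO w t) := by
  have hr := hO.hr
  rw [mem_ed_O hO]
  exact Or.inr (Or.inr (Or.inr ⟨r - 1, by omega, fun h => by omega, rfl⟩))

lemma par_par_WA3 {I : Inst 4 P Ln} {v π : NV r N P Ln} {t : ℕ} (h : par I v t = some π)
    (t' : ℕ) : par I π t' = none := by
  rcases par_cases h with h | ⟨p, -, rfl⟩
  · obtain ⟨z, i, -, rfl, -⟩ := ptk_cases h
    exact par_tk I z i t'
  · exact par_pt I p t'

lemma nv_mem_O_WA3 (hO : Ok r s) (D : Dat r N P Ln) (w : NV r N P Ln) (t : Fin (al r))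
    {v : NV r N P Ln} (h : (Vx.nv v : Vx r s N P Ln) ∈ ed D s (eO w t)) :
    v = w ∨ par D.I w t = some v := by
  rw [mem_ed_O hO] at h
  rcases h with h | h | ⟨π, h1, h⟩ | ⟨l, -, -, h⟩
  · rw [mem_HH] at h
    obtain ⟨k, hk⟩ := h
    cases hk
  · cases h
    exact Or.inl rfl
  · cases h
    exact Or.inr h1
  · exact absurd h.symm (cc_ne_nv_WA3 _ _ _ _)

lemma O_inj_WA3 (hO : Ok r s) (D : Dat r N P Ln) {w w' : NV r N P Ln} {t t' : Fin (al r)}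
    (h : ed D s (eO w t) = ed D s (eO w' t')) : w = w' ∧ t = t' := by
  have hr := hO.hr
  have self : ∀ (u : NV r N P Ln) (k : Fin (al r)),
      (Vx.nv u : Vx r s N P Ln) ∈ ed D s (eO u k) := by
    intro u k
    rw [mem_ed_O hO]
    exact Or.inr (Or.inl rfl)
  constructor
  · rcases nv_mem_O_WA3 hO D w' t' (h ▸ self w t) with h1 | h1
    · exact h1
    rcases nv_mem_O_WA3 hO D w t (h ▸ self w' t') with h2 | h2
    · exact h2.symm
    rw [par_par_WA3 h1] at h2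
    cases h2
  · have hm := last_mem_O_WA3 hO D w t
    rw [h, mem_ed_O hO] at hm
    rcases hm with hm | hm | ⟨π, -, hm⟩ | ⟨l, hl, -, hm⟩
    · exact absurd hm (cc_notMem_HH_WA3 _ _ _)
    · exact absurd hm (cc_ne_nv_WA3 _ _ _ _)
    · exact absurd hm (cc_ne_nv_WA3 _ _ _ _)
    · rw [cc_inj hO t.2.le t'.2.le (by omega) (by omega)] at hm
      exact Fin.ext hm.2.1

lemma pay_snd_WA3 (F : FD N Ln) (i : Fin r) : (pay F i : Cp r N Ln).2 = i := by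
  cases F with
  | L e => rfl
  | D j => simp only [pay]; split_ifs <;> rfl
  | E j => rfl

lemma pay_one_WA3 (F : FD N Ln) {i : Fin r} (hi : (i : ℕ) ≠ 0) :
    (pay F i : Cp r N Ln) = (F, i) := by
  cases F with
  | L e => rfl
  | D j => simp only [pay, if_neg hi]
  | E j => rfl

lemma F_step_WA3 (D : Dat r N P Ln) {F F' : FD N Ln} {i : Fin r} (hi : (i : ℕ) ≠ 0)
    (h : ed D s (eF F) = ed D s (eF F')) : F = F' ∨ tgtv D F' = .cv (F, i) := by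
  have hm : (Vx.nv (.cv (pay F i)) : Vx r s N P Ln) ∈ ed D s (eF F) := by
    rw [mem_ed_F]
    exact Or.inr (Or.inr ⟨i, rfl⟩)
  rw [h, mem_ed_F, pay_one_WA3 F hi] at hm
  rcases hm with hm | hm | ⟨k, hm⟩
  · rw [mem_HH] at hm
    obtain ⟨k, hk⟩ := hm
    cases hk
  · exact Or.inr (Vx.nv.inj hm).symm
  · have h1 : ((F, i) : Cp r N Ln) = pay F' k := NV.cv.inj (Vx.nv.inj hm)
    have h2 : i = k := by rw [← pay_snd_WA3 F' k, ← h1]
    subst h2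
    rw [pay_one_WA3 F' hi] at h1
    exact Or.inl (Prod.ext_iff.1 h1).1

lemma tgt_cv_WA3 (D : Dat r N P Ln) {F F' : FD N Ln} {i : Fin r} (hi : (i : ℕ) ≠ 0)
    (h : tgtv D F' = .cv (F, i)) : ∃ e, F = .L e := by
  cases F' with
  | L e => cases h
  | D j => exact ⟨_, (Prod.ext_iff.1 (NV.cv.inj h)).1.symm⟩
  | E j =>
    induction j using Fin.cases with
    | zero => cases h
    | succ j =>
      have h1 : (0 : Fin r) = i := (Prod.ext_iff.1 (NV.cv.inj h)).2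
      rw [← h1] at hi
      exact absurd (Fin.val_zero r) hi

lemma F_inj_WA3 (hO : Ok r s) (D : Dat r N P Ln) {F F' : FD N Ln}
    (h : ed D s (eF F) = ed D s (eF F')) : F = F' := by
  have hr := hO.hr
  have hi : (((⟨1, by omega⟩ : Fin r)) : ℕ) ≠ 0 := one_ne_zero
  rcases F_step_WA3 D hi h with h1 | h1
  · exact h1
  rcases F_step_WA3 D hi h.symm with h2 | h2
  · exact h2.symm
  obtain ⟨e, rfl⟩ := tgt_cv_WA3 D hi h1
  cases h2

lemma eta_Q_WA3 (hO : Ok r s) (D : Dat r N P Ln) (x : QE r) :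
    (Vx.eta : Vx r s N P Ln) ∈ ed D s (eQ x) := by
  rw [mem_ed_Q hO]
  exact Or.inr (Or.inl rfl)

lemma eta_O_WA3 (hO : Ok r s) (D : Dat r N P Ln) (w : NV r N P Ln) (t : Fin (al r)) :
    (Vx.eta : Vx r s N P Ln) ∉ ed D s (eO w t) := by
  rw [mem_ed_O hO]
  rintro (h | h | ⟨π, -, h⟩ | ⟨l, -, -, h⟩)
  · rw [mem_HH] at h
    obtain ⟨k, hk⟩ := h
    cases hk
  · cases h
  · cases h
  · exact cc_ne_eta_WA3 _ _ _ h.symm

lemma eta_F_WA3 (D : Dat r N P Ln) (F : FD N Ln) :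
    (Vx.eta : Vx r s N P Ln) ∉ ed D s (eF F) := by
  rw [mem_ed_F]
  rintro (h | h | ⟨i, h⟩)
  · rw [mem_HH] at h
    obtain ⟨k, hk⟩ := h
    cases hk
  · cases h
  · cases h

lemma cc_F_WA3 (D : Dat r N P Ln) (F : FD N Ln) (a : Fin 3) (i j : ℕ) :
    (cc a i j : Vx r s N P Ln) ∉ ed D s (eF F) := by
  rw [mem_ed_F]
  rintro (h | h | ⟨k, h⟩)
  · exact cc_notMem_HH_WA3 _ _ _ h
  · exact cc_ne_nv_WA3 _ _ _ _ h
  · exact cc_ne_nv_WA3 _ _ _ _ h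

theorem ed_inj (hO : Ok r s) (D : Dat r N P Ln) : Function.Injective (ed D s) := by
  rintro (x | ⟨w, t⟩ | F) (y | ⟨w', t'⟩ | F') h
  · exact congrArg Sum.inl (Q_inj_WA3 hO D h)
  · exact absurd (h ▸ eta_Q_WA3 hO D x) (eta_O_WA3 hO D w' t')
  · exact absurd (h ▸ eta_Q_WA3 hO D x) (eta_F_WA3 D F')
  · exact absurd (h ▸ eta_Q_WA3 hO D y) (eta_O_WA3 hO D w t)
  · obtain ⟨rfl, rfl⟩ := O_inj_WA3 hO D h
    rfl
  · exact absurd (h ▸ last_mem_O_WA3 hO D w t) (cc_F_WA3 D F' _ _ _)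
  · exact absurd (h ▸ eta_Q_WA3 hO D y) (eta_F_WA3 D F)
  · exact absurd (h ▸ last_mem_O_WA3 hO D w' t') (cc_F_WA3 D F _ _ _)
  · rw [F_inj_WA3 hO D h]

end Pool.Agent.SemiRandom.Fix
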