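import Pool.Agent.K.MP_c53d0e_pr.C3
import Pool.Agent.K.MP_c53d0e_pr.C4
import Pool.Agent.K.MP_c53d0e_pr.C2

-- part Pool.Agent.P.MP_c53d0e_pr.UC3
section

set_option autoImplicit false
set_option linter.unusedSectionVars false

namespace Pool.Agent.SemiRandom.Und

open Finset

variable {r s : ℕ} {P Ln : Type} [Fintype P] [DecidableEq P] [Fintype Ln] [DecidableEq Ln]
  {I : Inst (r + r) P Ln} {δ ε ζ : ℝ}
  {ν : List (Ed r P Ln × Finset (Vx r s P Ln)) → Finset (Vx r s P Ln) → Finset (Vx r s P Ln) → ℝ}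

lemma y_bd (hP : Par δ ε ζ) (H : Calc (ed I s) r δ ε ν)
    (l : List (Ed r P Ln × Finset (Vx r s P Ln))) (hl : Valid (ed I s) r l) (i : Fin (2 * r)) :
    ν l CC {Vx.y i} ≤ δ * (2 - cg (.Y i) l) + 4 * ζ := by
  obtain ⟨e0, e1, d0, d1, z1⟩ := hP
  have hδ : 0 ≤ δ := by linarith
  have h := H.lemU hδ e0 (fun d : Ed r P Ln => d.1 = .Y i) CC {Vx.y i} (fun d hd => by
    have h1 := NN_subset_ed (s := s) I d
    have h2 := ed_subset (s := s) I d
    rw [hd] at h1 h2
    exact ⟨h1, h2⟩) l hl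
  have hc : cg (.Y i) l ≤ 2 := cg_le (.Y i) hl.1
  have hc' : (cg (.Y i) l : ℝ) ≤ 2 := by exact_mod_cast hc
  have hk : ((({Vx.y i} : Finset (Vx r s P Ln)) \ CC).card : ℝ) ≤ 1 := by
    have := card_le_card (sdiff_subset (s := ({Vx.y i} : Finset (Vx r s P Ln))) (t := CC))
    rw [card_singleton] at this
    exact_mod_cast this
  change ν l CC {Vx.y i} ≤ max 0 (_ - δ * cg (.Y i) l) + ε * cg (.Y i) l at h
  have h3 : ε * (cg (.Y i) l : ℝ) ≤ ε * 2 := mul_le_mul_of_nonneg_left hc' e0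
  have h4 : 0 ≤ δ * (2 - (cg (.Y i) l : ℝ)) := mul_nonneg hδ (by linarith)
  have h5 : max 0 (((({Vx.y i} : Finset (Vx r s P Ln)) \ CC).card : ℝ) - δ * cg (.Y i) l)
      ≤ δ * (2 - cg (.Y i) l) + 2 * ζ := max_le (by linarith) (by linarith)
  linarith

lemma ed_sub_UC3 (d : Ed r P Ln) (hd : d.1.isQp) : ed I s d ⊆ CC ∪ YY := by
  refine (ed_subset I d).trans (union_subset_union Subset.rfl ?_)
  obtain ⟨g, j⟩ := d
  cases g with
  | Q => simp [NN]
  | Y i => simp [NN]
  | U p => exact hd.elim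
  | En x => exact hd.elim
  | W b => exact hd.elim
  | L e => exact hd.elim
  | T => exact hd.elim

lemma k_le_UC3 (g : Gp r P Ln) (hg : g.isQp) : g.k s ≤ 1 := by
  cases g with
  | Q => simp [Gp.k]
  | Y i => simp [Gp.k]
  | U p => exact hg.elim
  | En x => exact hg.elim
  | W b => exact hg.elim
  | L e => exact hg.elim
  | T => exact hg.elim

lemma cn_mono_UC3 {V E : Type} (F G : E → Prop) (h : ∀ e, F e → G e) (l : List (E × Finset V)) :
    cn F l ≤ cn G l := by
  unfold cn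
  refine List.countP_mono_left fun p _ hp => ?_
  simp only [decide_eq_true_eq] at hp ⊢
  exact h _ hp

lemma cn_X_UC3 (X : Finset (Vx r s P Ln)) (hX : X ⊆ CC)
    (l : List (Ed r P Ln × Finset (Vx r s P Ln))) (hl : (l.map Prod.fst).Nodup) :
    cg .Q l ≤ cn (fun d : Ed r P Ln => d.1 = .Q ∧ X ⊆ ed I s d) l + X.card := by
  classical
  unfold cg
  rw [cn_eq_card _ hl, cn_eq_card _ hl]
  have hsub : ({e | e.1 = .Q ∧ e ∈ l.map Prod.fst} : Finset (Ed r P Ln)) ⊆
      ({e | (e.1 = .Q ∧ X ⊆ ed I s e) ∧ e ∈ l.map Prod.fst} : Finset (Ed r P Ln)) ∪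
      ({e | e.1 = .Q ∧ ¬X ⊆ ed I s e} : Finset (Ed r P Ln)) := by
    intro e he
    simp only [mem_filter, mem_univ, true_and, mem_union] at he ⊢
    tauto
  refine (card_le_card hsub).trans ((card_union_le _ _).trans (Nat.add_le_add_left ?_ _))
  let f : Vx r s P Ln → ℕ := fun v => match v with
    | .c j => j
    | _ => 0
  refine le_trans ?_ (card_image_le (s := X) (f := f))
  refine card_le_card_of_injOn (fun e => (e.2 : ℕ)) ?_ ?_
  · intro e he
    simp only [coe_filter, mem_univ, true_and, Set.mem_ofPred_eq] at he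
    obtain ⟨v, hv, hve⟩ := not_subset.1 he.2
    obtain ⟨j, rfl⟩ := (mem_CC _).1 (hX hv)
    rw [c_mem_ed] at hve
    have hk : e.1.k s = 0 := by rw [he.1]; rfl
    have hj := j.2
    simp only [coe_image, Set.mem_image, mem_coe]
    refine ⟨_, hv, ?_⟩
    show (j : ℕ) = e.2
    by_contra hne
    exact hve ⟨by omega, hne⟩
  · rintro ⟨g, a⟩ he ⟨g', a'⟩ he' h
    simp only [coe_filter, mem_univ, true_and, Set.mem_ofPred_eq] at he he'
    obtain rfl : g = .Q := he.1
    obtain rfl : g' = .Q := he'.1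
    have : a = a' := Fin.ext h
    rw [this]

lemma second_UC3 (hO : Ok r s P Ln) (hP : Par δ ε ζ) (H : Calc (ed I s) r δ ε ν)
    (p : Ed r P Ln × Finset (Vx r s P Ln)) (l : List (Ed r P Ln × Finset (Vx r s P Ln)))
    (hl : Valid (ed I s) r (p :: l)) (hp : p.1.1.isQp) :
    ν l (ed I s p.1) (CC ∪ YY) ≤ δ * (6 * r + 2 - cq (p :: l)) + 10 * r * ζ + ε * cq l := by
  have hP' := hP
  obtain ⟨e0, e1, d0, d1, z1⟩ := hP
  have hδ : 0 ≤ δ := by linarith
  have hr : (2 : ℝ) ≤ r := by exact_mod_cast hO.hr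
  set e := ed I s p.1 with he
  set X : Finset (Vx r s P Ln) := CC \ e with hX
  have hCC : (CC : Finset (Vx r s P Ln)) ⊆ e ∪ X := by
    rw [hX, union_sdiff_self_eq_union]; exact subset_union_right
  have hXc : X.card ≤ 2 := by
    rw [hX, he, card_CC_sdiff_ed hO]
    have := k_le_UC3 (s := s) _ hp
    omega
  have h1 : ν l e (CC ∪ YY) ≤ ν l e X + ν l (e ∪ X) YY := by
    refine (H.mono l e e _ (X ∪ YY) Subset.rfl ?_).trans (H.chain l e X YY)
    rw [← union_assoc]
    exact union_subset_union hCC Subset.rfl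
  have hYY : (YY : Finset (Vx r s P Ln)) = univ.biUnion fun i => {Vx.y i} := by
    ext v; simp
  have h2 : ν l (e ∪ X) YY ≤ ∑ i, (δ * (2 - cg (.Y i) (p :: l)) + 4 * ζ) := by
    rw [hYY]
    refine (H.subadd _ l _ _).trans (sum_le_sum fun i _ => ?_)
    by_cases hi : p.1.1 = .Y i
    · have hy : Vx.y i ∈ e := by
        apply NN_subset_ed I p.1
        rw [hi]; simp [NN]
      have hc := H.cap l (e ∪ X) {Vx.y i}
      rw [sdiff_eq_empty_iff_subset.2 (singleton_subset_iff.2 (mem_union_left _ hy))] at hc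
      have hc2 : cg (.Y i) (p :: l) ≤ 2 := cg_le (.Y i) hl.1
      have hc3 : (cg (.Y i) (p :: l) : ℝ) ≤ 2 := by exact_mod_cast hc2
      have h4 : 0 ≤ δ * (2 - (cg (.Y i) (p :: l) : ℝ)) := mul_nonneg hδ (by linarith)
      simp only [card_empty, Nat.cast_zero] at hc
      linarith
    · have hc : cg (.Y i) (p :: l) = cg (.Y i) l := cn_cons_neg l hi
      rw [hc]
      exact (H.mono l _ CC _ _ hCC subset_union_right).trans (y_bd hP' H l hl.tail i)
  have h3 := H.lemU hδ e0 (fun d : Ed r P Ln => d.1 = .Q ∧ X ⊆ ed I s d) e X (fun d hd => by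
    refine ⟨hd.2, (ed_subset I d).trans ?_⟩
    rw [hd.1]
    simpa [NN] using hCC) l hl.tail
  have h4 := cn_X_UC3 (I := I) X sdiff_subset l hl.tail.1
  set c := cn (fun d : Ed r P Ln => d.1 = .Q ∧ X ⊆ ed I s d) l with hc
  have h5 : c ≤ cq l := cn_mono_UC3 _ _ (fun d hd => by rw [hd.1]; trivial) l
  have h5' : ε * (c : ℝ) ≤ ε * cq l :=
    mul_le_mul_of_nonneg_left (by exact_mod_cast h5) e0
  have h6 : cg .Q (p :: l) ≤ 2 * r + 2 := cg_le .Q hl.1
  have h7 : cg .Q (p :: l) ≤ c + 2 := by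
    by_cases hq : p.1.1 = .Q
    · have h70 : cg .Q (p :: l) = cg .Q l + 1 := cn_cons_pos l hq
      have h71 : X.card = 1 := by
        rw [hX, he, card_CC_sdiff_ed hO, hq]
        rfl
      omega
    · have h70 : cg .Q (p :: l) = cg .Q l := cn_cons_neg l hq
      omega
  have h8 : ((X \ e).card : ℝ) ≤ 2 := by
    exact_mod_cast (card_le_card sdiff_subset).trans hXc
  have h6' : (cg .Q (p :: l) : ℝ) ≤ 2 * r + 2 := by exact_mod_cast h6
  have h9 : max 0 (((X \ e).card : ℝ) - δ * c) ≤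
      δ * (2 * r + 2 - cg .Q (p :: l)) + 2 * r * ζ := by
    have hζ : 0 ≤ ζ := e0.trans e1
    have h90 : 0 ≤ 2 * r * ζ := by positivity
    have h91 : 0 ≤ δ * (2 * r + 2 - (cg .Q (p :: l) : ℝ)) := mul_nonneg hδ (by linarith)
    refine max_le (by linarith) ?_
    have h10 : (cg .Q (p :: l) : ℝ) ≤ c + 2 := by exact_mod_cast h7
    have h11 : δ * (2 * r - c) ≤ δ * (2 * r + 2 - (cg .Q (p :: l) : ℝ)) :=
      mul_le_mul_of_nonneg_left (by linarith) hδ
    have h12 : (r : ℝ) * (1 / 2 - ζ) ≤ r * δ := mul_le_mul_of_nonneg_left d0 (by linarith)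
    linarith
  have h10 : (cq (p :: l) : ℝ) = cg .Q (p :: l) + ∑ i, (cg (.Y i) (p :: l) : ℝ) := by
    rw [cq_eq]; push_cast; rfl
  rw [sum_add_distrib, ← mul_sum, sum_sub_distrib] at h2
  simp only [sum_const, card_univ, Fintype.card_fin, nsmul_eq_mul, Nat.cast_mul,
    Nat.cast_ofNat] at h2
  rw [h10]
  linarith

lemma lemQ_UC3 (hO : Ok r s P Ln) (hP : Par δ ε ζ) (H : Calc (ed I s) r δ ε ν)
    (l : List (Ed r P Ln × Finset (Vx r s P Ln))) (hl : Valid (ed I s) r l) (h1 : 1 ≤ cq l) :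
    ν l ∅ (CC ∪ YY) ≤ δ * (6 * r + 2 - cq l) + 10 * r * ζ + ε * cq l := by
  have hP' := hP
  obtain ⟨e0, e1, d0, d1, z1⟩ := hP
  have hr : (2 : ℝ) ≤ r := by exact_mod_cast hO.hr
  have hζ : 0 ≤ ζ := e0.trans e1
  induction l with
  | nil => simp [cq] at h1
  | cons p l ih =>
    by_cases hp : p.1.1.isQp
    · have hc : cq (p :: l) = cq l + 1 := cn_cons_pos l hp
      have hsub := ed_sub_UC3 (I := I) (s := s) p.1 hp
      have hp2 := hl.2 p List.mem_cons_self
      rcases Nat.eq_zero_or_pos (cq l) with h0 | h0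
      · have ha := H.chain (p :: l) ∅ (ed I s p.1) (CC ∪ YY)
        rw [union_eq_right.2 hsub, empty_union] at ha
        have hb := H.step p l ∅ ∅ hl
        simp only [empty_union] at hb
        have hb1 := H.cap l ∅ p.2
        rw [sdiff_empty, hp2.2] at hb1
        have hb2 := H.cap l (ed I s p.1) ∅
        simp only [empty_sdiff, card_empty, Nat.cast_zero] at hb2
        have hb3 : max (ν l ∅ p.2 - δ) (ν l (ed I s p.1) ∅) ≤ r - δ :=
          max_le (by linarith) (by linarith)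
        have hd := H.cap (p :: l) (ed I s p.1) (CC ∪ YY)
        have hcard : ((CC ∪ YY : Finset (Vx r s P Ln)) \ ed I s p.1).card ≤ 2 * r + 1 := by
          rw [card_sdiff_of_subset hsub, card_ed hO]
          have := card_union_le (CC : Finset (Vx r s P Ln)) YY
          rw [card_CC, card_YY] at this
          omega
        have hcard' : (((CC ∪ YY : Finset (Vx r s P Ln)) \ ed I s p.1).card : ℝ) ≤ 2 * r + 1 := by
          exact_mod_cast hcard
        rw [hc, h0]
        have h2 : (1 / 2 - ζ) * (6 * r + 2) ≤ δ * (6 * r + 2) :=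
          mul_le_mul_of_nonneg_right d0 (by linarith)
        have h3 : 0 ≤ ζ * (r - 1) := mul_nonneg hζ (by linarith)
        push_cast
        linarith
      · have hb := H.step p l ∅ (CC ∪ YY) hl
        rw [union_eq_left.2 hsub, union_eq_left.2 (hp2.1.trans hsub), empty_union] at hb
        have h2 := ih hl.tail h0
        have h3 := second_UC3 hO hP' H p l hl hp
        rw [hc] at h3 ⊢
        push_cast at h3 ⊢
        have h4 : max (ν l ∅ (CC ∪ YY) - δ) (ν l (ed I s p.1) (CC ∪ YY))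
            ≤ δ * (6 * r + 2 - (cq l + 1)) + 10 * r * ζ + ε * cq l :=
          max_le (by linarith) h3
        linarith
    · have hc : cq (p :: l) = cq l := cn_cons_neg l hp
      rw [hc] at h1 ⊢
      exact (H.time p l _ _).trans (ih hl.tail h1)

lemma lemQ (hO : Ok r s P Ln) (hP : Par δ ε ζ) (H : Calc (ed I s) r δ ε ν)
    (l : List (Ed r P Ln × Finset (Vx r s P Ln))) (hl : Valid (ed I s) r l) (h1 : 1 ≤ cq l) :
    ν l ∅ (CC ∪ YY) ≤ δ * (6 * r + 2 - cq l) + 17 * r * ζ := by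
  have h := lemQ_UC3 hO hP H l hl h1
  obtain ⟨e0, e1, d0, d1, z1⟩ := hP
  have hr : (2 : ℝ) ≤ r := by exact_mod_cast hO.hr
  have hζ : 0 ≤ ζ := e0.trans e1
  have h2 : cq l ≤ 2 * r + 2 + 2 * r * 2 := by
    rw [cq_eq]
    refine Nat.add_le_add (cg_le .Q hl.1) ?_
    have := sum_le_card_nsmul univ (fun i : Fin (2 * r) => cg (.Y i) l) 2
      (fun i _ => cg_le (.Y i) hl.1)
    simpa using this
  have h3 : (cq l : ℝ) ≤ 2 * r + 2 + 2 * r * 2 := by exact_mod_cast h2
  have h4 : ε * (cq l : ℝ) ≤ ζ * (2 * r + 2 + 2 * r * 2) :=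
    mul_le_mul e1 h3 (Nat.cast_nonneg _) hζ
  have h5 : 0 ≤ ζ * (r - 2) := mul_nonneg hζ (by linarith)
  linarith

end Pool.Agent.SemiRandom.Und
end

-- part Pool.Agent.P.MP_c53d0e_pr.UC2
section

set_option autoImplicit false
set_option linter.unusedSectionVars false

namespace Pool.Agent.SemiRandom.Und

open Finset

variable {V E : Type} [DecidableEq V] {ed : E → Finset V} {r : ℕ} {δ ε : ℝ}
  {ν : List (E × Finset V) → Finset V → Finset V → ℝ}

open Classical in
/-- Elements of `W` whose unary edge has been played. -/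
noncomputable def pl_UC2 (W : Finset V) (un : V → E) (l : List (E × Finset V)) : Finset V :=
  W.filter fun y => un y ∈ l.map Prod.fst

lemma mem_pl_UC2 {W : Finset V} {un : V → E} {l : List (E × Finset V)} {y : V} :
    y ∈ pl_UC2 W un l ↔ y ∈ W ∧ un y ∈ l.map Prod.fst := by
  classical
  simp only [pl_UC2, mem_filter]

lemma pl_pos_UC2 {W : Finset V} {un : V → E} (hinj : Set.InjOn un W) {p : E × Finset V}
    {l : List (E × Finset V)} {y : V} (hy : y ∈ W) (hp : p.1 = un y) :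
    pl_UC2 W un (p :: l) = insert y (pl_UC2 W un l) := by
  ext x
  rw [mem_insert, mem_pl_UC2, mem_pl_UC2, List.map_cons, List.mem_cons, hp]
  constructor
  · rintro ⟨hx, h | h⟩
    · exact Or.inl (hinj hx hy h)
    · exact Or.inr ⟨hx, h⟩
  · rintro (rfl | ⟨hx, h⟩)
    · exact ⟨hy, Or.inl rfl⟩
    · exact ⟨hx, Or.inr h⟩

lemma pl_neg_UC2 {W : Finset V} {un : V → E} {p : E × Finset V}
    {l : List (E × Finset V)} (hp : ¬ ∃ y ∈ W, p.1 = un y) :
    pl_UC2 W un (p :: l) = pl_UC2 W un l := by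
  ext x
  rw [mem_pl_UC2, mem_pl_UC2, List.map_cons, List.mem_cons]
  constructor
  · rintro ⟨hx, h | h⟩
    · exact absurd ⟨x, hx, h.symm⟩ hp
    · exact ⟨hx, h⟩
  · rintro ⟨hx, h⟩
    exact ⟨hx, Or.inr h⟩

lemma empty_UC2 (H : Calc ed r δ ε ν) (l : List (E × Finset V)) (A : Finset V) :
    ν l A ∅ ≤ 0 := by
  simpa using H.cap l A ∅

lemma stepE_UC2 (H : Calc ed r δ ε ν) {p : E × Finset V} {l : List (E × Finset V)}
    (hl : Valid ed r (p :: l)) (A B : Finset V) (hB : B ⊆ ed p.1) :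
    ν (p :: l) A B ≤ ε + max (ν l A p.2 - δ) 0 := by
  have h1 := H.step p l A ∅ hl
  rw [empty_union, empty_union] at h1
  have h2 := H.mono (p :: l) A A B (ed p.1) subset_rfl (hB.trans subset_union_right)
  have h3 := empty_UC2 H l (A ∪ ed p.1)
  have h4 : max (ν l A p.2 - δ) (ν l (A ∪ ed p.1) ∅) ≤ max (ν l A p.2 - δ) 0 :=
    max_le_max le_rfl h3
  linarith

lemma one_UC2 (H : Calc ed r δ ε ν) (l : List (E × Finset V)) (A : Finset V) (v : V) :
    ν l A {v} ≤ 1 := by
  refine (H.cap l A {v}).trans ?_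
  have : ({v} \ A).card ≤ 1 := (card_le_card sdiff_subset).trans (card_singleton v).le
  exact_mod_cast this

lemma single_UC2 (H : Calc ed r δ ε ν) (hδ1 : δ ≤ 1) (A : Finset V) (v : V) (e : E)
    (h1 : v ∈ ed e) (h2 : ed e ⊆ insert v A) (l : List (E × Finset V)) (hl : Valid ed r l)
    (he : e ∈ l.map Prod.fst) : ν l A {v} ≤ 1 - δ + ε := by
  induction l with
  | nil => simp at he
  | cons p l ih =>
    by_cases hp : e = p.1
    · subst hp
      have h3 := stepE_UC2 H hl A {v} (singleton_subset_iff.2 h1)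
      have h4 : ν l A p.2 ≤ ν l A {v} := by
        refine H.mono l A A _ _ subset_rfl (((hl.2 p List.mem_cons_self).1.trans h2).trans ?_)
        intro x hx
        rcases mem_insert.1 hx with rfl | hx
        · exact mem_union_right _ (mem_singleton_self _)
        · exact mem_union_left _ hx
      have h5 := one_UC2 H l A v
      have h6 : max (ν l A p.2 - δ) 0 ≤ 1 - δ := max_le (by linarith) (by linarith)
      linarith
    · rw [List.map_cons, List.mem_cons] at he
      exact (H.time p l A {v}).trans (ih hl.tail (he.resolve_left hp))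

lemma stepU_UC2 (H : Calc ed r δ ε ν) {p : E × Finset V} {l : List (E × Finset V)}
    (hl : Valid ed r (p :: l)) (A A' N : Finset V) (y : V) (hy : y ∈ N) (hA : A ⊆ A')
    (h1 : y ∈ ed p.1) (h2 : ed p.1 ⊆ insert y A) :
    ν (p :: l) A' N ≤ ε + max (ν l A' N - δ) (ν l (insert y A') N) := by
  have h3 := H.step p l A' N hl
  have h4 := H.mono (p :: l) A' A' N (N ∪ ed p.1) subset_rfl
    (subset_union_left.trans subset_union_right)
  have h5 : ν l A' (N ∪ p.2) ≤ ν l A' N := by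
    refine H.mono l A' A' _ _ subset_rfl (union_subset subset_union_right ?_)
    intro x hx
    rcases mem_insert.1 (h2 ((hl.2 p List.mem_cons_self).1 hx)) with rfl | hx
    · exact mem_union_right _ hy
    · exact mem_union_left _ (hA hx)
  have h6 : ν l (A' ∪ ed p.1) N ≤ ν l (insert y A') N :=
    H.mono l _ _ _ _ (insert_subset (mem_union_right _ h1) subset_union_left) subset_union_right
  have h7 : max (ν l A' (N ∪ p.2) - δ) (ν l (A' ∪ ed p.1) N) ≤
      max (ν l A' N - δ) (ν l (insert y A') N) := max_le_max (by linarith) h6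
  linarith

lemma max_sub_UC2 {x y d : ℝ} (hd : 0 ≤ d) (h : x - d ≤ y) : max 0 x - d ≤ max 0 y := by
  rcases le_total 0 x with hx | hx
  · rw [max_eq_right hx]; exact h.trans (le_max_right _ _)
  · rw [max_eq_left hx]; have := le_max_left 0 y; linarith

lemma blkA_UC2 (H : Calc ed r δ ε ν) (hδ0 : 0 ≤ δ) (hδ1 : δ ≤ 1) (hε : 0 ≤ ε) (A N W : Finset V)
    (hW : W ⊆ N) (un : V → E)
    (hun : ∀ y ∈ W, y ∈ ed (un y) ∧ ed (un y) ⊆ insert y A) (hinj : Set.InjOn un W)
    (F : E → Prop) (hF : ∀ e, F e → N ⊆ ed e ∧ ed e ⊆ A ∪ N) (hFun : ∀ y ∈ W, ¬ F (un y))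
    (l : List (E × Finset V)) (hl : Valid ed r l) (R : Finset V) :
    ν l (A ∪ R) N ≤ max 0 (((N \ R).card : ℝ) - δ * (pl_UC2 W un l \ R).card - δ * cn F l) +
      ε * ((pl_UC2 W un l).card + cn F l) := by
  induction l generalizing R with
  | nil =>
    have h0 : pl_UC2 W un ([] : List (E × Finset V)) = ∅ := by
      ext x; simp [mem_pl_UC2]
    have h1 := H.cap [] (A ∪ R) N
    have h2 : ((N \ (A ∪ R)).card : ℝ) ≤ (N \ R).card := by
      exact_mod_cast card_le_card (sdiff_subset_sdiff subset_rfl subset_union_right)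
    have h3 := le_max_right 0 ((N \ R).card : ℝ)
    simp only [h0, empty_sdiff, card_empty, cn_nil, Nat.cast_zero, mul_zero, sub_zero, add_zero]
    linarith
  | cons p l ih =>
    by_cases h1 : ∃ y ∈ W, p.1 = un y
    · obtain ⟨y, hy, hp⟩ := h1
      have hn : y ∉ pl_UC2 W un l := fun h => hl.notMem (hp ▸ (mem_pl_UC2.1 h).2)
      rw [pl_pos_UC2 hinj hy hp, cn_cons_neg l (hp ▸ hFun y hy), card_insert_of_notMem hn]
      by_cases hR : y ∈ R
      · rw [insert_sdiff_of_mem _ hR]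
        have h2 := (H.time p l (A ∪ R) N).trans (ih hl.tail R)
        push_cast
        nlinarith
      · rw [insert_sdiff_of_notMem _ hR, card_insert_of_notMem (fun h => hn (mem_sdiff.1 h).1)]
        have h2 := stepU_UC2 H hl A (A ∪ R) N y (hW hy) subset_union_left
          (hp ▸ (hun y hy).1) (hp ▸ (hun y hy).2)
        have h3 := ih hl.tail R
        have h4 := ih hl.tail (insert y R)
        rw [union_insert, sdiff_insert_of_notMem hn] at h4
        have h5 : ((N \ insert y R).card : ℝ) + 1 = (N \ R).card := by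
          rw [sdiff_insert]
          exact_mod_cast card_erase_add_one (mem_sdiff.2 ⟨hW hy, hR⟩)
        have h6 := max_sub_UC2 (x := ((N \ R).card : ℝ) - δ * (pl_UC2 W un l \ R).card -
          δ * cn F l) (y := ((N \ R).card : ℝ) - δ * ((pl_UC2 W un l \ R).card + 1) -
          δ * cn F l) hδ0 (le_of_eq (by ring))
        have h7 : max 0 (((N \ insert y R).card : ℝ) - δ * (pl_UC2 W un l \ R).card -
            δ * cn F l) ≤ max 0 (((N \ R).card : ℝ) - δ * ((pl_UC2 W un l \ R).card + 1) -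
            δ * cn F l) := max_le_max le_rfl (by linarith)
        have h8 : max (ν l (A ∪ R) N - δ) (ν l (insert y (A ∪ R)) N) ≤
            max 0 (((N \ R).card : ℝ) - δ * ((pl_UC2 W un l \ R).card + 1) - δ * cn F l) +
              ε * ((pl_UC2 W un l).card + cn F l) := max_le (by linarith) (by linarith)
        push_cast
        linarith
    · rw [pl_neg_UC2 h1]
      by_cases h2 : F p.1
      · rw [cn_cons_pos l h2]
        have h3 := stepE_UC2 H hl (A ∪ R) N (hF _ h2).1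
        have h4 : ν l (A ∪ R) p.2 ≤ ν l (A ∪ R) N :=
          H.mono l _ _ _ _ subset_rfl (((hl.2 p List.mem_cons_self).1.trans (hF _ h2).2).trans
            (union_subset_union subset_union_left subset_rfl))
        have h5 := ih hl.tail R
        have h6 := max_sub_UC2 (x := ((N \ R).card : ℝ) - δ * (pl_UC2 W un l \ R).card -
          δ * cn F l) (y := ((N \ R).card : ℝ) - δ * (pl_UC2 W un l \ R).card -
          δ * (cn F l + 1)) hδ0 (le_of_eq (by ring))
        have h7 := le_max_left 0 (((N \ R).card : ℝ) - δ * (pl_UC2 W un l \ R).card -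
          δ * (cn F l + 1))
        have h9 : 0 ≤ ε * (((pl_UC2 W un l).card : ℝ) + cn F l) := by positivity
        have h8 : max (ν l (A ∪ R) p.2 - δ) 0 ≤
            max 0 (((N \ R).card : ℝ) - δ * (pl_UC2 W un l \ R).card - δ * (cn F l + 1)) +
              ε * ((pl_UC2 W un l).card + cn F l) := max_le (by linarith) (by linarith)
        push_cast
        linarith
      · rw [cn_cons_neg l h2]
        exact (H.time p l (A ∪ R) N).trans (ih hl.tail R)

lemma first_UC2 (H : Calc ed r δ ε ν) (hδ0 : 0 ≤ δ) (hδ1 : δ ≤ 1) (hε : 0 ≤ ε) (A N W : Finset V)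
    (hN : N.card = r + 1) (hW : W ⊆ N) (un : V → E)
    (hun : ∀ y ∈ W, y ∈ ed (un y) ∧ ed (un y) ⊆ insert y A)
    (l : List (E × Finset V)) (hl : Valid ed r l) (B : Finset V) (hB : B ⊆ A ∪ N)
    (hBc : B.card = r) :
    ν l A B ≤ (r : ℝ) - δ * ((pl_UC2 W un l).card - 1) + ε * r := by
  obtain ⟨x, hxN, hxB⟩ := exists_mem_notMem_of_card_lt_card (s := B) (t := N) (by omega)
  have h1 : ν l A B ≤ ν l A (N.erase x) := by
    refine H.mono l _ _ _ _ subset_rfl fun v hv => ?_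
    rcases mem_union.1 (hB hv) with h | h
    · exact mem_union_left _ h
    · exact mem_union_right _ (mem_erase.2 ⟨fun e => hxB (e ▸ hv), h⟩)
  have h2 := H.sub_le l A (N.erase x)
  have h3 : ∑ v ∈ N.erase x, ν l A {v} ≤
      ∑ v ∈ N.erase x, (1 + ε - if v ∈ pl_UC2 W un l then δ else 0) := by
    refine sum_le_sum fun v _ => ?_
    split_ifs with hv
    · obtain ⟨ha, hb⟩ := mem_pl_UC2.1 hv
      have := single_UC2 H hδ1 A v (un v) (hun v ha).1 (hun v ha).2 l hl hb
      linarith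
    · have := one_UC2 H l A v
      linarith
  have hc : (N.erase x).card = r := by rw [card_erase_of_mem hxN, hN]; rfl
  rw [sum_sub_distrib, sum_const, hc, ← sum_filter, sum_const, nsmul_eq_mul, nsmul_eq_mul] at h3
  have h4 : (pl_UC2 W un l).card ≤ ((N.erase x).filter fun v => v ∈ pl_UC2 W un l).card + 1 := by
    refine le_trans (card_le_card ?_) (card_insert_le x _)
    intro v hv
    by_cases e : v = x
    · exact mem_insert.2 (Or.inl e)
    · exact mem_insert_of_mem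
        (mem_filter.2 ⟨mem_erase.2 ⟨e, hW (mem_pl_UC2.1 hv).1⟩, hv⟩)
  have h5 : ((pl_UC2 W un l).card : ℝ) ≤
      ((N.erase x).filter fun v => v ∈ pl_UC2 W un l).card + 1 := by exact_mod_cast h4
  nlinarith

lemma blkB_UC2 (H : Calc ed r δ ε ν) (hδ0 : 0 ≤ δ) (hδ1 : δ ≤ 1) (hε : 0 ≤ ε) (A N W : Finset V)
    (hN : N.card = r + 1) (hW : W ⊆ N) (un : V → E)
    (hun : ∀ y ∈ W, y ∈ ed (un y) ∧ ed (un y) ⊆ insert y A) (hinj : Set.InjOn un W)
    (F : E → Prop) (hF : ∀ e, F e → N ⊆ ed e ∧ ed e ⊆ A ∪ N) (hFun : ∀ y ∈ W, ¬ F (un y))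
    (l : List (E × Finset V)) (hl : Valid ed r l) (hc : 1 ≤ cn F l) :
    ν l A N ≤ max 0 ((r : ℝ) - δ * ((pl_UC2 W un l).card - 1) - δ * cn F l) +
      ε * ((pl_UC2 W un l).card + cn F l + r) := by
  have hr : (0 : ℝ) ≤ ε * r := by positivity
  induction l with
  | nil => simp at hc
  | cons p l ih =>
    by_cases h1 : ∃ y ∈ W, p.1 = un y
    · obtain ⟨y, hy, hp⟩ := h1
      have hn : y ∉ pl_UC2 W un l := fun h => hl.notMem (hp ▸ (mem_pl_UC2.1 h).2)
      rw [cn_cons_neg l (hp ▸ hFun y hy)] at hc ⊢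
      rw [pl_pos_UC2 hinj hy hp, card_insert_of_notMem hn]
      have h2 := stepU_UC2 H hl A A N y (hW hy) subset_rfl
        (hp ▸ (hun y hy).1) (hp ▸ (hun y hy).2)
      have h3 := ih hl.tail hc
      have h4 := blkA_UC2 H hδ0 hδ1 hε A N W hW un hun hinj F hF hFun l hl.tail {y}
      rw [sdiff_singleton_eq_erase, sdiff_singleton_eq_erase, erase_eq_of_notMem hn,
        card_erase_of_mem (hW hy), hN, Nat.add_sub_cancel, union_comm, ← insert_eq] at h4
      have h6 := max_sub_UC2 (x := (r : ℝ) - δ * ((pl_UC2 W un l).card - 1) - δ * cn F l)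
        (y := (r : ℝ) - δ * (pl_UC2 W un l).card - δ * cn F l) hδ0 (le_of_eq (by ring))
      have h8 : max (ν l A N - δ) (ν l (insert y A) N) ≤
          max 0 ((r : ℝ) - δ * (pl_UC2 W un l).card - δ * cn F l) +
            ε * ((pl_UC2 W un l).card + cn F l + r) := max_le (by linarith) (by linarith)
      push_cast
      rw [add_sub_cancel_right]
      linarith
    · rw [pl_neg_UC2 h1]
      by_cases h2 : F p.1
      · rw [cn_cons_pos l h2]
        have h3 := stepE_UC2 H hl A N (hF _ h2).1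
        have hs := (hl.2 p List.mem_cons_self).1.trans (hF _ h2).2
        have h7 := le_max_left 0 ((r : ℝ) - δ * ((pl_UC2 W un l).card - 1) - δ * (cn F l + 1))
        have h9 : 0 ≤ ε * (((pl_UC2 W un l).card : ℝ) + cn F l) := by positivity
        have h8 : max (ν l A p.2 - δ) 0 ≤
            max 0 ((r : ℝ) - δ * ((pl_UC2 W un l).card - 1) - δ * (cn F l + 1)) +
              ε * ((pl_UC2 W un l).card + cn F l + r) := by
          refine max_le ?_ (by linarith)
          by_cases hc' : 1 ≤ cn F l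
          · have h4 : ν l A p.2 ≤ ν l A N := H.mono l _ _ _ _ subset_rfl hs
            have h5 := ih hl.tail hc'
            have h6 := max_sub_UC2 (x := (r : ℝ) - δ * ((pl_UC2 W un l).card - 1) - δ * cn F l)
              (y := (r : ℝ) - δ * ((pl_UC2 W un l).card - 1) - δ * (cn F l + 1)) hδ0
              (le_of_eq (by ring))
            linarith
          · have h0 : cn F l = 0 := by omega
            have h4 := first_UC2 H hδ0 hδ1 hε A N W hN hW un hun l hl.tail p.2 hs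
              (hl.2 p List.mem_cons_self).2
            have h5 := le_max_right 0
              ((r : ℝ) - δ * ((pl_UC2 W un l).card - 1) - δ * (cn F l + 1))
            rw [h0] at h5 h9 ⊢
            push_cast at h5 h9 ⊢
            linarith
        push_cast
        linarith
      · rw [cn_cons_neg l h2] at hc ⊢
        exact (H.time p l A N).trans (ih hl.tail hc)

/-- Block lemma. -/
lemma Calc.blk (H : Calc ed r δ ε ν) (hδ0 : 0 ≤ δ) (hδ1 : δ ≤ 1) (hε : 0 ≤ ε) (A N W : Finset V)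
    (hN : N.card = r + 1) (hW : W ⊆ N) (un : V → E)
    (hun : ∀ y ∈ W, y ∈ ed (un y) ∧ ed (un y) ⊆ insert y A) (hinj : Set.InjOn un W)
    (F : E → Prop) (hF : ∀ e, F e → N ⊆ ed e ∧ ed e ⊆ A ∪ N) (hFun : ∀ y ∈ W, ¬ F (un y))
    (l : List (E × Finset V)) (hl : Valid ed r l) (hall : ∀ y ∈ W, un y ∈ l.map Prod.fst)
    (hc : 1 ≤ cn F l) :
    ν l A N ≤ max 0 ((r : ℝ) - δ * (W.card - 1) - δ * cn F l) + ε * (W.card + cn F l + r) := by
  have h := blkB_UC2 H hδ0 hδ1 hε A N W hN hW un hun hinj F hF hFun l hl hc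
  have hW' : pl_UC2 W un l = W := by
    ext x
    rw [mem_pl_UC2]
    exact ⟨fun h => h.1, fun h => ⟨h, hall x h⟩⟩
  rwa [hW'] at h

end Pool.Agent.SemiRandom.Und
end

-- part Pool.Agent.P.MP_c53d0e_pr.UC4
section

set_option autoImplicit false
set_option linter.unusedSectionVars false

namespace Pool.Agent.SemiRandom.Und

open Finset

variable {r s : ℕ} {P Ln : Type} [Fintype P] [DecidableEq P] [Fintype Ln] [DecidableEq Ln]
  {I : Inst (r + r) P Ln} {δ ε ζ : ℝ}
  {ν : List (Ed r P Ln × Finset (Vx r s P Ln)) → Finset (Vx r s P Ln) → Finset (Vx r s P Ln) → ℝ}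

lemma grp_UC4 (g : Gp r P Ln) (A : Finset (Vx r s P Ln)) (hA : CC ⊆ A) (d : Ed r P Ln)
    (hd : d.1 = g) : NN I s g ⊆ ed I s d ∧ ed I s d ⊆ A ∪ NN I s g := by
  subst hd
  exact ⟨NN_subset_ed I d, (ed_subset I d).trans (union_subset_union_left hA)⟩

lemma test_bd (hP : Par δ ε ζ) (H : Calc (ed I s) r δ ε ν)
    (l : List (Ed r P Ln × Finset (Vx r s P Ln))) (hl : Valid (ed I s) r l) (h1 : 1 ≤ cg .T l) :
    ν l CC (NN I s .T) ≤ δ * (2 * r - cg .T l) + 4 * r * ζ := by
  obtain ⟨e0, e1, d0, d1, z1⟩ := hP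
  have hδ : 0 ≤ δ := by linarith
  have h2 := H.lemU' hδ e0 (fun d : Ed r P Ln => d.1 = .T) CC (NN I s .T)
    (grp_UC4 _ _ Subset.rfl) l hl h1
  have h3 : cg .T l ≤ 2 * r := cg_le .T hl.1
  have h4 : ((cg .T l : ℕ) : ℝ) ≤ 2 * r := by exact_mod_cast h3
  have h5 : (0 : ℝ) ≤ r := Nat.cast_nonneg _
  have h6 : (0 : ℝ) ≤ (cg .T l : ℕ) := Nat.cast_nonneg _
  change _ ≤ max 0 ((r : ℝ) - δ * cg .T l) + ε * cg .T l at h2
  have h7 : ε * cg .T l ≤ ζ * (2 * r) := mul_le_mul e1 h4 h6 (e0.trans e1)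
  have h8 : 0 ≤ δ * (2 * r - cg .T l) := mul_nonneg hδ (by linarith)
  have h9 : 0 ≤ r * ζ := mul_nonneg h5 (e0.trans e1)
  have h10 : r * (1 / 2 - ζ) ≤ r * δ := mul_le_mul_of_nonneg_left d0 h5
  have h11 : max 0 ((r : ℝ) - δ * cg .T l) ≤ δ * (2 * r - cg .T l) + 2 * r * ζ :=
    max_le (by linarith) (by linarith)
  linarith

lemma chain1 (H : Calc (ed I s) r δ ε ν)
    (l : List (Ed r P Ln × Finset (Vx r s P Ln))) (A0 : Finset (Vx r s P Ln)) (hA : CC ⊆ A0) :
    ν l ∅ univ ≤ ν l ∅ A0 + ν l CC (NN I s .T) := by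
  have h1 : (univ : Finset (Vx r s P Ln)) ⊆ ∅ ∪ (A0 ∪ NN I s .T) := by
    intro v _
    rw [empty_union, mem_union]
    by_cases h : v ∈ (CC : Finset (Vx r s P Ln))
    · exact Or.inl (hA h)
    · exact Or.inr (mem_sdiff.2 ⟨mem_univ _, h⟩)
  have h2 := H.mono l ∅ ∅ _ _ Subset.rfl h1
  have h4 := H.chain l ∅ A0 (NN I s .T)
  have h5 := H.mono l (∅ ∪ A0) CC (NN I s .T) (NN I s .T) (hA.trans subset_union_right)
    subset_union_right
  linarith

lemma const_bd (hO : Ok r s P Ln) (hP : Par δ ε ζ) (H : Calc (ed I s) r δ ε ν)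
    (l : List (Ed r P Ln × Finset (Vx r s P Ln))) (hl : Valid (ed I s) r l)
    (p : Ed r P Ln × Finset (Vx r s P Ln)) (hp : p ∈ l) (hT : p.1.1 ≠ .T) :
    ν l ∅ CC ≤ 2 * r + 2 + ζ := by
  obtain ⟨e0, e1, d0, d1, z1⟩ := hP
  have hr := hO.hr
  have hδ : 0 ≤ δ := by linarith
  have h1 := H.mono l ∅ ∅ CC (ed I s p.1 ∪ CC) Subset.rfl
    (subset_union_right.trans subset_union_right)
  have h2 := H.chain l ∅ (ed I s p.1) CC
  have h3 := H.played_le hδ e0 l hl p hp ∅
  have h4 := H.cap l (∅ ∪ ed I s p.1) CC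
  have h5 : (CC \ (∅ ∪ ed I s p.1)).card ≤ r + 2 := by
    rw [empty_union, card_CC_sdiff_ed hO]
    have h6 : ∀ g : Gp r P Ln, g ≠ .T → g.k s ≤ r + 1 := by
      intro g hg
      cases g with
      | T => exact absurd rfl hg
      | Q => simp [Gp.k]
      | Y i => simp [Gp.k]
      | U q => simp [Gp.k]
      | En x =>
        show 2 ≤ r + 1
        omega
      | W b =>
        show 2 ≤ r + 1
        omega
      | L e => exact le_rfl
    have := h6 _ hT
    omega
  have h6 : ((CC \ (∅ ∪ ed I s p.1)).card : ℝ) ≤ r + 2 := by exact_mod_cast h5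
  linarith

/-- The unary edge of a point or proxy. -/
def un_UC4 (q : P) : Vx r s P Ln → Ed r P Ln
  | .z x => ⟨.En x, ⟨0, Nat.one_pos⟩⟩
  | .pt p => ⟨.U p, ⟨0, Nat.one_pos⟩⟩
  | _ => ⟨.U q, ⟨0, Nat.one_pos⟩⟩

lemma blk_bd (hO : Ok r s P Ln) (hP : Par δ ε ζ) (H : Calc (ed I s) r δ ε ν)
    (l : List (Ed r P Ln × Finset (Vx r s P Ln))) (hl : Valid (ed I s) r l)
    (hall : ∀ e : Ed r P Ln, ¬ e.1.isQp → e.1 ≠ .T → e ∈ l.map Prod.fst) (e : Ln) :
    ν l (CC ∪ SRC I e) (NN I s (.L e)) ≤ 6 * r * ζ := by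
  obtain ⟨e0, e1, d0, d1, z1⟩ := hP
  have hr := hO.hr
  have hδ : 0 ≤ δ := by linarith
  have hW : ∀ y ∈ (insert (Vx.pt (I.tgt e)) (ZL e) : Finset (Vx r s P Ln)),
      y = Vx.pt (I.tgt e) ∨ ∃ k, y = Vx.z (Sum.inr (e, k)) := fun y hy => by
    rwa [mem_insert, mem_ZL] at hy
  have hc : cg (.L e) l = 2 * r - 2 := (cg_eq_iff (.L e) hl.1).2 fun d hd =>
    hall d (by rw [hd]; exact id) (by rw [hd]; exact fun h => by cases h)
  have hWc : (insert (Vx.pt (I.tgt e)) (ZL e) : Finset (Vx r s P Ln)).card = 3 := by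
    rw [card_insert_of_notMem (by simp), card_ZL]
  have h1 := H.blk hδ (by linarith) e0 (CC ∪ SRC I e) (NN I s (.L e))
    (insert (Vx.pt (I.tgt e)) (ZL e)) (card_NN hO I (.L e))
    (insert_subset_insert _ subset_union_left) (un_UC4 (I.tgt e))
    (fun y hy => by
      rcases hW y hy with rfl | ⟨k, rfl⟩
      · refine ⟨NN_subset_ed I _ (by simp [un_UC4, NN]), (ed_subset I _).trans fun v hv => ?_⟩
        simp only [un_UC4, NN, mem_union, mem_singleton, mem_insert] at hv ⊢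
        tauto
      · refine ⟨NN_subset_ed I _ (by simp [un_UC4, NN]), (ed_subset I _).trans fun v hv => ?_⟩
        simp only [un_UC4, NN, mem_union, mem_singleton, mem_insert] at hv ⊢
        rcases hv with h | h | h
        · exact Or.inr (Or.inl h)
        · exact Or.inr (Or.inr ((mem_SRC I e v).2 ⟨k, h⟩))
        · exact Or.inl h)
    (fun y hy y' hy' h => by
      have h' := congrArg Sigma.fst h
      rcases hW y hy with rfl | ⟨k, rfl⟩ <;> rcases hW y' hy' with rfl | ⟨k', rfl⟩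
      · rfl
      · cases h'
      · cases h'
      · simp only [un_UC4, Gp.En.injEq] at h'
        rw [h'])
    (fun d : Ed r P Ln => d.1 = .L e) (grp_UC4 _ _ subset_union_left)
    (fun y hy h => by rcases hW y hy with rfl | ⟨k, rfl⟩ <;> cases h) l hl
    (fun y hy => by
      rcases hW y hy with rfl | ⟨k, rfl⟩
      · exact hall _ id fun h => by cases h
      · exact hall _ id fun h => by cases h)
    (by
      change 1 ≤ cg (.L e) l
      omega)
  change _ ≤ max 0 ((r : ℝ) - δ * (_ - 1) - δ * cg (.L e) l) + ε * (_ + cg (.L e) l + r) at h1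
  have h2 : ((cg (.L e) l : ℕ) : ℝ) = 2 * r - 2 := by
    rw [hc, Nat.cast_sub (by omega)]
    push_cast
    ring
  rw [hWc, h2] at h1
  have h5 : (2 : ℝ) ≤ r := by exact_mod_cast hr
  have h9 : 0 ≤ r * ζ := mul_nonneg (by linarith) (e0.trans e1)
  have h10 : r * (1 / 2 - ζ) ≤ r * δ := mul_le_mul_of_nonneg_left d0 (by linarith)
  have h11 : max 0 ((r : ℝ) - δ * (((3 : ℕ) : ℝ) - 1) - δ * (2 * r - 2)) ≤ 2 * r * ζ :=
    max_le (by linarith) (by push_cast; linarith)
  have h12 : ε * (((3 : ℕ) : ℝ) + (2 * r - 2) + r) ≤ ζ * (4 * r) :=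
    mul_le_mul e1 (by push_cast; linarith) (by push_cast; linarith) (e0.trans e1)
  linarith

end Pool.Agent.SemiRandom.Und
end

-- part Pool.Agent.P.MP_c53d0e_pr.UC5
section

set_option autoImplicit false
set_option linter.unusedSectionVars false

namespace Pool.Agent.SemiRandom.Und

open Finset

variable {r s : ℕ} {P Ln : Type} [Fintype P] [DecidableEq P] [Fintype Ln] [DecidableEq Ln]
  {I : Inst (r + r) P Ln} {δ ε ζ η : ℝ}
  {ν : List (Ed r P Ln × Finset (Vx r s P Ln)) → Finset (Vx r s P Ln) → Finset (Vx r s P Ln) → ℝ}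

lemma one_UC5 (hP : Par δ ε ζ) (H : Calc (ed I s) r δ ε ν)
    (l : List (Ed r P Ln × Finset (Vx r s P Ln))) (hl : Valid (ed I s) r l) (g : Gp r P Ln)
    (hM : g.M = 1) (hg : ∀ e : Ed r P Ln, e.1 = g → e ∈ l.map Prod.fst)
    (A : Finset (Vx r s P Ln)) (v : Vx r s P Ln) (hv : v ∈ NN I s g)
    (hA : CC ∪ NN I s g ⊆ A ∪ {v}) : ν l A {v} ≤ 1 / 2 + 2 * ζ := by
  have hd0 := hP.d0
  have hd1 := hP.d1
  have hz1 := hP.z1
  have he0 := hP.e0
  have he1 := hP.e1
  have hδ : 0 ≤ δ := by linarith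
  have h1 := H.lemU hδ he0 (fun e : Ed r P Ln => e.1 = g) A {v} (by
    intro e he
    refine ⟨?_, ?_⟩
    · intro x hx
      rw [mem_singleton] at hx
      subst hx
      apply NN_subset_ed I e
      rw [he]; exact hv
    · refine (ed_subset I e).trans ?_
      rw [he]; exact hA) l hl
  have h2 : cn (fun e : Ed r P Ln => e.1 = g) l = 1 := by
    have := (cg_eq_iff g hl.1).2 hg
    rw [hM] at this
    exact this
  rw [h2] at h1
  have h3 : ((({v} : Finset (Vx r s P Ln)) \ A).card : ℝ) ≤ 1 := by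
    have : (({v} : Finset (Vx r s P Ln)) \ A).card ≤ 1 :=
      (card_le_card sdiff_subset).trans (card_singleton v).le
    exact_mod_cast this
  have h4 : max 0 (((({v} : Finset (Vx r s P Ln)) \ A).card : ℝ) - δ * ((1 : ℕ) : ℝ))
      ≤ 1 / 2 + ζ := by
    apply max_le
    · linarith
    · push_cast; linarith
  push_cast at h1 h4
  linarith

lemma cn_or_UC5 {V : Type} [DecidableEq V] (g g' : Gp r P Ln) (h : g ≠ g') (l : List (Ed r P Ln × Finset V)) :
    cn (fun e : Ed r P Ln => e.1 = g ∨ e.1 = g') l = cg g l + cg g' l := by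
  induction l with
  | nil => simp [cg]
  | cons p l ih =>
    unfold cg at ih ⊢
    by_cases h1 : p.1.1 = g
    · have h2 : ¬ p.1.1 = g' := fun h2 => h (h1.symm.trans h2)
      rw [cn_cons_pos (F := fun e : Ed r P Ln => e.1 = g ∨ e.1 = g') l (Or.inl h1),
        cn_cons_pos (F := fun e : Ed r P Ln => e.1 = g) l h1,
        cn_cons_neg (F := fun e : Ed r P Ln => e.1 = g') l h2, ih]
      omega
    · by_cases h2 : p.1.1 = g'
      · rw [cn_cons_pos (F := fun e : Ed r P Ln => e.1 = g ∨ e.1 = g') l (Or.inr h2),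
          cn_cons_neg (F := fun e : Ed r P Ln => e.1 = g) l h1,
          cn_cons_pos (F := fun e : Ed r P Ln => e.1 = g') l h2, ih]
        omega
      · rw [cn_cons_neg (F := fun e : Ed r P Ln => e.1 = g ∨ e.1 = g') l (not_or.2 ⟨h1, h2⟩),
          cn_cons_neg (F := fun e : Ed r P Ln => e.1 = g) l h1,
          cn_cons_neg (F := fun e : Ed r P Ln => e.1 = g') l h2, ih]

lemma two_UC5 (hP : Par δ ε ζ) (H : Calc (ed I s) r δ ε ν)
    (l : List (Ed r P Ln × Finset (Vx r s P Ln))) (hl : Valid (ed I s) r l)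
    (hall : ∀ e : Ed r P Ln, ¬ e.1.isQp → e.1 ≠ .T → e ∈ l.map Prod.fst) (b : Fin r)
    (A : Finset (Vx r s P Ln)) (hA : CC ∪ PP ⊆ A) : ν l A {Vx.z (Sum.inl b)} ≤ 4 * ζ := by
  have hd0 := hP.d0
  have hd1 := hP.d1
  have hz1 := hP.z1
  have he0 := hP.e0
  have he1 := hP.e1
  have hδ : 0 ≤ δ := by linarith
  have h1 := H.lemU hδ he0 (fun e : Ed r P Ln => e.1 = .En (Sum.inl b) ∨ e.1 = .W b) A
    {Vx.z (Sum.inl b)} (by
    intro e he
    refine ⟨?_, (ed_subset I e).trans fun v hv => ?_⟩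
    · refine singleton_subset_iff.2 (NN_subset_ed I e ?_)
      rcases he with he | he <;> rw [he] <;> simp [NN]
    · rcases mem_union.1 hv with hv | hv
      · exact mem_union_left _ (hA (mem_union_left _ hv))
      · rcases he with he | he <;> rw [he] at hv <;>
          simp only [NN, mem_insert, mem_singleton] at hv <;> rcases hv with rfl | rfl <;>
          first
            | exact mem_union_right _ (mem_singleton_self _)
            | exact mem_union_left _ (hA (mem_union_right _ (by simp)))) l hl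
  have h2 : cg (.En (Sum.inl b)) l = 1 := (cg_eq_iff (.En (Sum.inl b)) hl.1).2 fun d hd =>
    hall d (by rw [hd]; exact id) (by rw [hd]; exact fun h => by cases h)
  have h2' : cg (.W b) l = 1 := (cg_eq_iff (.W b) hl.1).2 fun d hd =>
    hall d (by rw [hd]; exact id) (by rw [hd]; exact fun h => by cases h)
  rw [cn_or_UC5 _ _ (fun h => by cases h), h2, h2'] at h1
  have h3 : ((({Vx.z (Sum.inl b)} : Finset (Vx r s P Ln)) \ A).card : ℝ) ≤ 1 := by
    have : (({Vx.z (Sum.inl b)} : Finset (Vx r s P Ln)) \ A).card ≤ 1 :=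
      (card_le_card sdiff_subset).trans (card_singleton _).le
    exact_mod_cast this
  have h4 : max 0 (((({Vx.z (Sum.inl b)} : Finset (Vx r s P Ln)) \ A).card : ℝ) -
      δ * ((1 + 1 : ℕ) : ℝ)) ≤ 2 * ζ := by
    apply max_le
    · linarith
    · push_cast; linarith
  push_cast at h1 h4
  linarith

lemma chain2 (hO : Ok r s P Ln) (hP : Par δ ε ζ) (H : Calc (ed I s) r δ ε ν) (hS : Stat I s η ν)
    (hη0 : 0 ≤ η) (hη1 : η ≤ 4 / 5)
    (l : List (Ed r P Ln × Finset (Vx r s P Ln))) (hl : Valid (ed I s) r l)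
    (hall : ∀ e : Ed r P Ln, ¬ e.1.isQp → e.1 ≠ .T → e ∈ l.map Prod.fst) :
    ν l ∅ univ ≤ ν l ∅ (CC ∪ YY) + r - η / 2 + (8 * r + 12 * r * Fintype.card Ln) * ζ := by
  have hz0 : 0 ≤ ζ := hP.e0.trans hP.e1
  have hr0 : (0 : ℝ) ≤ r := Nat.cast_nonneg r
  set A0 : Finset (Vx r s P Ln) := CC ∪ YY with hA0
  set BL : Finset (Vx r s P Ln) := (univ : Finset Ln).biUnion fun e => NN I s (.L e) with hBL
  have hcov : (univ : Finset (Vx r s P Ln)) ⊆ ∅ ∪ (((A0 ∪ PP) ∪ ZB) ∪ BL) := by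
    intro v _
    cases v with
    | c j => simp [hA0]
    | y i => simp [hA0]
    | pt p => simp [hA0]
    | z x =>
      rcases x with b | ⟨e, k⟩
      · simp [hA0]
      · refine mem_union_right _ (mem_union_right _ ?_)
        exact mem_biUnion.2 ⟨e, mem_univ _, by simp [NN]⟩
    | tk e k =>
      refine mem_union_right _ (mem_union_right _ ?_)
      exact mem_biUnion.2 ⟨e, mem_univ _, by simp [NN]⟩
  have c0 := H.mono l ∅ ∅ univ _ subset_rfl hcov
  have c1 := H.chain l ∅ ((A0 ∪ PP) ∪ ZB) BL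
  have c2 := H.chain l ∅ (A0 ∪ PP) ZB
  have c3 := H.chain l ∅ A0 PP
  have hU : ∀ p, ν l CC {Vx.pt p} ≤ 1 / 2 + 2 * ζ := by
    intro p
    refine one_UC5 hP H l hl (.U p) rfl ?_ CC _ (by simp [NN]) (by simp [NN])
    intro e he
    apply hall e
    · rw [he]; exact fun h => h
    · rw [he]; exact fun h => by cases h
  have hblk := blk_bd hO hP H l hl hall
  have hL : ∀ e, ν l (CC ∪ SRC I e) {Vx.pt (I.tgt e)} ≤ 6 * r * ζ := by
    intro e
    refine le_trans (H.mono l _ _ _ _ subset_rfl ?_) (hblk e)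
    intro v hv
    rw [mem_singleton] at hv
    subst hv
    exact mem_union_right _ (by simp [NN])
  have d3 : ν l (∅ ∪ A0) PP ≤ Fintype.card Ln * (6 * r * ζ) + (2 * r - η) * (1 / 2 + 2 * ζ) := by
    refine le_trans (H.mono l _ CC _ PP ?_ subset_union_right) ?_
    · intro v hv
      exact mem_union_right _ (mem_union_left _ hv)
    · exact hS l CC _ _ (by linarith) (by positivity) hU hL
  have d2 : ν l (∅ ∪ (A0 ∪ PP)) ZB ≤ r * (4 * ζ) := by
    refine le_trans (H.sub_le l _ _) ?_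
    have : ∀ v ∈ (ZB : Finset (Vx r s P Ln)), ν l (∅ ∪ (A0 ∪ PP)) {v} ≤ 4 * ζ := by
      intro v hv
      obtain ⟨b, rfl⟩ := (mem_ZB v).1 hv
      refine two_UC5 hP H l hl hall b _ ?_
      rw [empty_union]
      exact union_subset_union subset_union_left subset_rfl
    refine le_trans (sum_le_card_nsmul _ _ _ this) ?_
    rw [card_ZB, nsmul_eq_mul]
  have d1 : ν l (∅ ∪ ((A0 ∪ PP) ∪ ZB)) BL ≤ Fintype.card Ln * (6 * r * ζ) := by
    refine le_trans (H.subadd univ l _ _) ?_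
    have : ∀ e ∈ (univ : Finset Ln),
        ν l (∅ ∪ ((A0 ∪ PP) ∪ ZB)) (NN I s (.L e)) ≤ 6 * r * ζ := by
      intro e _
      refine le_trans (H.mono l _ _ _ _ ?_ subset_union_right) (hblk e)
      intro v hv
      rcases mem_union.1 hv with hv | hv
      · exact mem_union_right _ (mem_union_left _ (mem_union_left _ (mem_union_left _ hv)))
      · obtain ⟨k, rfl⟩ := (mem_SRC I e v).1 hv
        exact mem_union_right _ (mem_union_left _ (mem_union_right _ (by simp)))
    refine le_trans (sum_le_card_nsmul _ _ _ this) ?_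
    rw [card_univ, nsmul_eq_mul]
  have hηζ : 0 ≤ η * ζ := mul_nonneg hη0 hz0
  nlinarith

lemma exists_cut {X : Type} (p : List X → Prop) (ps : List X) (h0 : ¬ p []) (h1 : p ps) :
    ∃ qs x l, ps = qs ++ x :: l ∧ p (x :: l) ∧ ¬ p l := by
  induction ps with
  | nil => exact absurd h1 h0
  | cons x l ih =>
    by_cases h : p l
    · obtain ⟨qs, y, l', e, h2, h3⟩ := ih h
      exact ⟨x :: qs, y, l', by rw [e]; rfl, h2, h3⟩
    · exact ⟨[], x, l, rfl, h1, h⟩

end Pool.Agent.SemiRandom.Und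
end

-- part Pool.Agent.P.MP_c53d0e_pr.UC6
section

set_option autoImplicit false
set_option linter.unusedSectionVars false

namespace Pool.Agent.SemiRandom.Und

open Finset

variable {r s : ℕ} {P Ln : Type} [Fintype P] [DecidableEq P] [Fintype Ln] [DecidableEq Ln]
  {I : Inst (r + r) P Ln} {δ ε ζ η : ℝ}
  {ν : List (Ed r P Ln × Finset (Vx r s P Ln)) → Finset (Vx r s P Ln) → Finset (Vx r s P Ln) → ℝ}

lemma len_UC6 (hr : 2 ≤ r) {qs l : List (Ed r P Ln × Finset (Vx r s P Ln))}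
    (hl : ((qs ++ l).map Prod.fst).Nodup) (hall : ∀ e, e ∈ (qs ++ l).map Prod.fst) :
    (qs.length : ℝ) = (6 * r + 2 - cq l) + ∑ p, ((1 : ℝ) - cg (.U p) l) +
      ∑ x, ((1 : ℝ) - cg (.En x) l) + ∑ b, ((1 : ℝ) - cg (.W b) l) +
      ∑ e, ((2 * r - 2 : ℝ) - cg (.L e) l) + (2 * r - cg .T l) := by
  have h4 : ((2 * r - 2 : ℕ) : ℝ) = 2 * r - 2 := by
    rw [Nat.cast_sub (by omega)]; push_cast; ring
  rw [length_left hl hall, sum_Gp, cq_eq]
  simp only [Gp.M, h4, sum_sub_distrib]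
  simp only [sum_const, card_univ, Fintype.card_fin, nsmul_eq_mul]
  push_cast
  ring

lemma one_sub_UC6 (g : Gp r P Ln) (hg : g.M = 1) {l : List (Ed r P Ln × Finset (Vx r s P Ln))}
    (hl : (l.map Prod.fst).Nodup) : (0 : ℝ) ≤ 1 - cg g l := by
  have h := cg_le g hl
  rw [hg] at h
  have : (cg g l : ℝ) ≤ 1 := by exact_mod_cast h
  linarith

lemma miss_UC6 {l : List (Ed r P Ln × Finset (Vx r s P Ln))}
    (hl : (l.map Prod.fst).Nodup) (e : Ed r P Ln) (he : e ∉ l.map Prod.fst) :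
    cg e.1 l < e.1.M :=
  lt_of_le_of_ne (cg_le _ hl) fun h => he ((cg_eq_iff _ hl).1 h e rfl)

lemma line_sub_UC6 (hr : 2 ≤ r) (e : Ln) {l : List (Ed r P Ln × Finset (Vx r s P Ln))}
    (hl : (l.map Prod.fst).Nodup) : (0 : ℝ) ≤ (2 * r - 2 : ℝ) - cg (.L e) l := by
  have h := cg_le (.L e) hl
  have h' : cg (.L e) l + 2 ≤ 2 * r := by simp only [Gp.M] at h; omega
  have h'' : (cg (.L e) l : ℝ) + 2 ≤ 2 * r := by exact_mod_cast h'
  linarith

theorem claim (hO : Ok r s P Ln) (hP : Par δ ε ζ)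
    (H : Calc (ed I s) r δ ε ν) (hS : Stat I s η ν) (hη0 : 0 ≤ η) (hη1 : η ≤ 4 / 5)
    (ps : List (Ed r P Ln × Finset (Vx r s P Ln))) (hv : Valid (ed I s) r ps)
    (hall : ∀ e, e ∈ ps.map Prod.fst) :
    ∃ qs l, ps = qs ++ l ∧
      ν l ∅ univ ≤ δ * qs.length - η / 2 + 30 * r * (Fintype.card Ln + 1) * ζ := by
  have hr := hO.hr
  have hrR : (2 : ℝ) ≤ r := by exact_mod_cast hr
  have hz : 0 ≤ ζ := hP.e0.trans hP.e1
  have hd : 9 / 20 ≤ δ := by linarith [hP.d0, hP.z1]
  have hd0 : 0 ≤ δ := by linarith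
  have hnl : (0 : ℝ) ≤ Fintype.card Ln := Nat.cast_nonneg _
  have hrz : 0 ≤ (r : ℝ) * ζ := mul_nonneg (by linarith) hz
  have hzr : ζ ≤ (r : ℝ) * ζ := by nlinarith
  have hnz : 0 ≤ (Fintype.card Ln : ℝ) * (r * ζ) := mul_nonneg hnl hrz
  have hex : ∀ e, ∃ q ∈ ps, q.1 = e := fun e => List.mem_map.1 (hall e)
  obtain ⟨qs, x, l, rfl, ⟨hT, hN⟩, hnp⟩ := exists_cut
    (fun l : List (Ed r P Ln × Finset (Vx r s P Ln)) =>
      (∃ q ∈ l, q.1.1 = .T) ∧ ∃ q ∈ l, q.1.1 ≠ .T) ps (by simp) (by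
      obtain ⟨q, hq, h⟩ := hex ⟨.T, ⟨0, by simp only [Gp.M]; omega⟩⟩
      obtain ⟨q', hq', h'⟩ := hex ⟨.Q, ⟨0, by simp only [Gp.M]; omega⟩⟩
      exact ⟨⟨q, hq, by rw [h]⟩, ⟨q', hq', by rw [h']; simp⟩⟩)
  have hvL : Valid (ed I s) r (x :: l) := hv.right
  have hT1 : 1 ≤ cg .T (x :: l) := one_le_cn.2 hT
  have hlen := len_UC6 hr hv.1 hall
  have hU : ∀ p ∈ (univ : Finset P), (0 : ℝ) ≤ 1 - cg (.U p) (x :: l) :=
    fun p _ => one_sub_UC6 _ rfl hvL.1
  have hE : ∀ y ∈ (univ : Finset (Px r Ln)), (0 : ℝ) ≤ 1 - cg (.En y) (x :: l) :=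
    fun p _ => one_sub_UC6 _ rfl hvL.1
  have hW : ∀ y ∈ (univ : Finset (Fin r)), (0 : ℝ) ≤ 1 - cg (.W y) (x :: l) :=
    fun p _ => one_sub_UC6 _ rfl hvL.1
  have hI : ∀ e ∈ (univ : Finset Ln), (0 : ℝ) ≤ (2 * r - 2 : ℝ) - cg (.L e) (x :: l) :=
    fun e _ => line_sub_UC6 hr e hvL.1
  have hSU := mul_nonneg hd0 (sum_nonneg hU)
  have hSE := mul_nonneg hd0 (sum_nonneg hE)
  have hSW := mul_nonneg hd0 (sum_nonneg hW)
  have hSI := mul_nonneg hd0 (sum_nonneg hI)
  have htest := test_bd hP H _ hvL hT1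
  rcases Nat.eq_zero_or_pos (cq (x :: l)) with h0 | h1
  · refine ⟨qs, x :: l, rfl, ?_⟩
    obtain ⟨q, hq, hqT⟩ := hN
    have hc := const_bd hO hP H _ hvL q hq hqT
    have hch := chain1 H (x :: l) CC subset_rfl
    have hb : (3 * r + 1 - 6 * (r * ζ) - 2 * ζ : ℝ) ≤ δ * (6 * r + 2) := by nlinarith [hP.d0]
    rw [hlen, h0]
    push_cast
    nlinarith
  have hQ := lemQ hO hP H _ hvL h1
  by_cases hfull : ∀ e : Ed r P Ln, ¬ e.1.isQp → e.1 ≠ .T → e ∈ (x :: l).map Prod.fst
  · have hl1 : ∃ q ∈ l, q.1.1 ≠ .T := by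
      obtain ⟨q1, hq1, hq1'⟩ := one_le_cn.1 h1
      obtain ⟨q2, hq2, hq2'⟩ := List.mem_map.1
        (hfull ⟨.U (I.bas ⟨0, by omega⟩), ⟨0, by simp [Gp.M]⟩⟩ (by simp [Gp.isQp]) (by simp))
      rcases List.mem_cons.1 hq1 with h | h
      · rcases List.mem_cons.1 hq2 with h' | h'
        · rw [h, ← h', hq2'] at hq1'
          simp [Gp.isQp] at hq1'
        · exact ⟨q2, h', by rw [hq2']; simp⟩
      · refine ⟨q1, h, fun hh => ?_⟩
        rw [hh] at hq1'
        simp [Gp.isQp] at hq1'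
    have hl2 : ¬ ∃ q ∈ l, q.1.1 = .T := fun h => hnp ⟨h, hl1⟩
    have hx : x.1.1 = .T := by
      obtain ⟨q, hq, hqT⟩ := hT
      rcases List.mem_cons.1 hq with h | h
      · rw [← h]; exact hqT
      · exact absurd ⟨q, h, hqT⟩ hl2
    have hvl : Valid (ed I s) r l := hvL.tail
    have hcq : cq (x :: l) = cq l := cn_cons_neg l (by rw [hx]; simp [Gp.isQp])
    have hcT : cg .T l = 0 := by
      by_contra h
      exact hl2 (one_le_cn.1 (Nat.one_le_iff_ne_zero.2 h))
    have hfull' : ∀ e : Ed r P Ln, ¬ e.1.isQp → e.1 ≠ .T → e ∈ l.map Prod.fst := fun e h h' => by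
      have := hfull e h h'
      rw [List.map_cons] at this
      rcases List.mem_cons.1 this with h2 | h2
      · exact absurd (by rw [h2]; exact hx) h'
      · exact h2
    have happ : qs ++ x :: l = (qs ++ [x]) ++ l := by simp
    refine ⟨qs ++ [x], l, happ, ?_⟩
    have hlen' := len_UC6 (qs := qs ++ [x]) (l := l) hr (happ ▸ hv.1) (happ ▸ hall)
    have hQ' := lemQ hO hP H l hvl (hcq ▸ h1)
    have hch := chain2 hO hP H hS hη0 hη1 l hvl hfull'
    have hSU' := mul_nonneg hd0 (sum_nonneg fun p (_ : p ∈ (univ : Finset P)) =>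
      one_sub_UC6 (.U p) rfl hvl.1)
    have hSE' := mul_nonneg hd0 (sum_nonneg fun p (_ : p ∈ (univ : Finset (Px r Ln))) =>
      one_sub_UC6 (.En p) rfl hvl.1)
    have hSW' := mul_nonneg hd0 (sum_nonneg fun p (_ : p ∈ (univ : Finset (Fin r))) =>
      one_sub_UC6 (.W p : Gp r P Ln) rfl hvl.1)
    have hSL' := mul_nonneg hd0 (sum_nonneg fun e (_ : e ∈ (univ : Finset Ln)) =>
      line_sub_UC6 hr e hvl.1)
    have hb : (r : ℝ) - 2 * (r * ζ) ≤ δ * (2 * r) := by nlinarith [hP.d0]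
    rw [hlen', hcT]
    push_cast
    nlinarith
  · refine ⟨qs, x :: l, rfl, ?_⟩
    have hch := chain1 H (x :: l) (CC ∪ YY) subset_union_left
    have hsl : 2 / 5 ≤ δ * ∑ p, ((1 : ℝ) - cg (.U p) (x :: l)) +
        δ * ∑ y, ((1 : ℝ) - cg (.En y) (x :: l)) + δ * ∑ y, ((1 : ℝ) - cg (.W y) (x :: l)) +
        δ * ∑ e : Ln, ((2 * r - 2 : ℝ) - cg (.L e) (x :: l)) := by
      push Not at hfull
      obtain ⟨⟨g, j⟩, h2, h3, h4⟩ := hfull
      have hm := miss_UC6 hvL.1 _ h4
      cases g with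
      | Q => exact absurd trivial h2
      | Y i => exact absurd trivial h2
      | T => exact absurd rfl h3
      | U p =>
        have h5 : cg (.U p) (x :: l) = 0 := by simp only [Gp.M] at hm; omega
        have h6 := single_le_sum hU (mem_univ p)
        rw [h5] at h6
        have h7 := mul_le_mul_of_nonneg_left h6 hd0
        push_cast at h7
        linarith
      | En y =>
        have h5 : cg (.En y) (x :: l) = 0 := by simp only [Gp.M] at hm; omega
        have h6 := single_le_sum hE (mem_univ y)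
        rw [h5] at h6
        have h7 := mul_le_mul_of_nonneg_left h6 hd0
        push_cast at h7
        linarith
      | W y =>
        have h5 : cg (.W y) (x :: l) = 0 := by simp only [Gp.M] at hm; omega
        have h6 := single_le_sum hW (mem_univ y)
        rw [h5] at h6
        have h7 := mul_le_mul_of_nonneg_left h6 hd0
        push_cast at h7
        linarith
      | L e =>
        have h6 := single_le_sum hI (mem_univ e)
        have h5 : cg (.L e) (x :: l) + 3 ≤ 2 * r := by simp only [Gp.M] at hm; omega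
        have h5' : (cg (.L e) (x :: l) : ℝ) + 3 ≤ 2 * r := by exact_mod_cast h5
        have h7 := mul_le_mul_of_nonneg_left (le_trans (by linarith : (1 : ℝ) ≤ _) h6) hd0
        linarith
    rw [hlen]
    nlinarith

end Pool.Agent.SemiRandom.Und
end

-- part Pool.Agent.P.MP_c53d0e_pr.UD0
section

set_option autoImplicit false
set_option linter.unusedSectionVars false

namespace Pool.Agent.SemiRandom.Und

open Finset

section cnt
variable {V W : Type} [Fintype V] [DecidableEq V] [Fintype W] [DecidableEq W]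

/-- Restriction of a map to `B`. -/
def res (B : Finset V) (φ : V → W) : V → Option W := fun v => if v ∈ B then some (φ v) else none

lemma res_eq_iff {B : Finset V} {φ ψ : V → W} : res B φ = res B ψ ↔ ∀ v ∈ B, φ v = ψ v := by
  simp only [funext_iff, res]
  refine forall_congr' fun v => ?_
  by_cases h : v ∈ B <;> simp [h]

/-- Members of `X` that agree with `ρ` on `A`. -/
def fib (X : Finset (V → W)) (A : Finset V) (ρ : V → W) : Finset (V → W) :=
  X.filter fun φ => ∀ v ∈ A, φ v = ρ v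

lemma mem_fib {X : Finset (V → W)} {A : Finset V} {ρ φ : V → W} :
    φ ∈ fib X A ρ ↔ φ ∈ X ∧ ∀ v ∈ A, φ v = ρ v := mem_filter

/-- Largest number of values on `B` given the values on `A` (at least one). -/
def cnt (X : Finset (V → W)) (A B : Finset V) : ℕ :=
  max 1 (univ.sup fun ρ => ((fib X A ρ).image (res B)).card)

lemma one_le_cnt (X : Finset (V → W)) (A B : Finset V) : 1 ≤ cnt X A B := le_max_left _ _

lemma le_cnt (X : Finset (V → W)) (A B : Finset V) (ρ : V → W) :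
    ((fib X A ρ).image (res B)).card ≤ cnt X A B :=
  le_trans (le_sup (f := fun ρ => ((fib X A ρ).image (res B)).card) (mem_univ ρ)) (le_max_right _ _)

lemma cnt_le {X : Finset (V → W)} {A B : Finset V} {m : ℕ} (h1 : 1 ≤ m)
    (h : ∀ ρ, ((fib X A ρ).image (res B)).card ≤ m) : cnt X A B ≤ m :=
  max_le h1 (Finset.sup_le fun ρ _ => h ρ)

lemma cnt_cases (X : Finset (V → W)) (A B : Finset V) :
    cnt X A B = 1 ∨ ∃ ρ, cnt X A B = ((fib X A ρ).image (res B)).card := by
  by_cases h : (univ.sup fun ρ => ((fib X A ρ).image (res B)).card) ≤ 1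
  · exact Or.inl (max_eq_left h)
  · have hne : (univ : Finset (V → W)).Nonempty := by
      rw [nonempty_iff_ne_empty]
      intro e
      rw [e] at h
      simp at h
    obtain ⟨ρ, -, hρ⟩ := exists_mem_eq_sup univ hne fun ρ => ((fib X A ρ).image (res B)).card
    exact Or.inr ⟨ρ, (max_eq_right (not_le.1 h).le).trans hρ⟩

end cnt

section emb
variable {V E : Type} [Fintype V] [DecidableEq V] {n r s : ℕ}

/-- Round `x` realises the edge `p.1` with random part `p.2` under `φ`. -/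
def Mt (ed : E → Finset V) (p : E × Finset V) (φ : V → Fin n) (x : RSet n r × Move n r s) : Prop :=
  x.1.1 = p.2.image φ ∧ edge x = ((ed p.1).image φ).val

/-- The pattern (latest edge first) is realised in the history, in this order. -/
def Emb (ed : E → Finset V) :
    List (E × Finset V) → (V → Fin n) → List (RSet n r × Move n r s) → Prop
  | [], _, _ => True
  | p :: l, φ, h => ∃ h1 x h2, h = h1 ++ x :: h2 ∧ Emb ed l φ h1 ∧ Mt ed p φ x

open Classical in
noncomputable def XX (ed : E → Finset V) (l : List (E × Finset V))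
    (h : List (RSet n r × Move n r s)) : Finset (V → Fin n) := univ.filter fun φ => Emb ed l φ h

lemma mem_XX {ed : E → Finset V} {l : List (E × Finset V)} {h : List (RSet n r × Move n r s)}
    {φ : V → Fin n} : φ ∈ XX ed l h ↔ Emb ed l φ h := by simp [XX]

noncomputable def nu (ed : E → Finset V) (h : List (RSet n r × Move n r s))
    (l : List (E × Finset V)) (A B : Finset V) : ℝ :=
  Real.log (cnt (XX ed l h) A B) / Real.log n

/-- The probabilistic rule. -/
def RuleS (ed : E → Finset V) (L p : ℝ) (h : List (RSet n r × Move n r s)) : Prop :=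
  ∀ (q : E × Finset V) (l : List (E × Finset V)) (A B : Finset V), Valid ed r (q :: l) →
    (cnt (XX ed (q :: l) h) A (B ∪ ed q.1) : ℝ) ≤ L * (s : ℝ) ^ s *
      max (p * cnt (XX ed l h) A (B ∪ q.2)) (cnt (XX ed l h) (A ∪ ed q.1) B)

end emb

section acc
variable {X : Type}

/-- Accumulated increments along a history. -/
noncomputable def Acc (inc : List X → X → ℝ) (h : List X) : ℝ :=
  ∑ t ∈ range h.length, (h[t]?).elim 0 (inc (h.take t))

@[simp] lemma Acc_nil (inc : List X → X → ℝ) : Acc inc [] = 0 := by simp [Acc]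

lemma Acc_snoc (inc : List X → X → ℝ) (h : List X) (x : X) :
    Acc inc (h ++ [x]) = Acc inc h + inc h x := by
  simp only [Acc, List.length_append, List.length_singleton, sum_range_succ]
  congr 1
  · refine sum_congr rfl fun t ht => ?_
    have ht' := mem_range.1 ht
    rw [List.getElem?_append_left ht', List.take_append_of_le_length ht'.le]
  · simp

end acc

end Pool.Agent.SemiRandom.Und
end

-- part Pool.Agent.P.MP_c53d0e_pr.UD1
section

set_option autoImplicit false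
set_option linter.unusedSectionVars false

namespace Pool.Agent.SemiRandom.Und

open Finset

lemma card_image_le_UD1 {α β γ : Type} [DecidableEq β] (Y : Finset α) (f : α → β) (g : α → γ)
    (T : Finset γ) (hT : ∀ a ∈ Y, g a ∈ T)
    (h : ∀ a ∈ Y, ∀ b ∈ Y, g a = g b → f a = f b) : (Y.image f).card ≤ T.card := by
  refine card_le_card_of_forall_subsingleton (fun y t => ∃ a ∈ Y, f a = y ∧ g a = t) ?_ ?_
  · intro y hy
    obtain ⟨a, ha, rfl⟩ := mem_image.1 hy
    exact ⟨g a, hT a ha, a, ha, rfl, rfl⟩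
  · intro t _ y hy y' hy'
    obtain ⟨-, a, ha, rfl, hg⟩ := hy
    obtain ⟨-, b, hb, rfl, hg'⟩ := hy'
    exact h a ha b hb (hg.trans hg'.symm)

variable {V W : Type} [Fintype V] [DecidableEq V] [Fintype W] [DecidableEq W]

/-- Fibre count. -/
lemma image_res_union_le (Y : Finset (V → W)) (B B' : Finset V) (m : ℕ)
    (h : ∀ φ ∈ Y, ((fib Y B φ).image (res B')).card ≤ m) :
    (Y.image (res (B ∪ B'))).card ≤ (Y.image (res B)).card * m := by
  have hsub : Y.image (res (B ∪ B')) ⊆ (Y.image (res B)).biUnion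
      fun a => (Y.filter fun φ => res B φ = a).image (res (B ∪ B')) := by
    intro y hy
    obtain ⟨φ, hφ, rfl⟩ := mem_image.1 hy
    exact mem_biUnion.2 ⟨res B φ, mem_image_of_mem _ hφ,
      mem_image_of_mem _ (mem_filter.2 ⟨hφ, rfl⟩)⟩
  refine (card_le_card hsub).trans (card_biUnion_le_card_mul _ _ _ ?_)
  intro a ha
  obtain ⟨φ, hφ, rfl⟩ := mem_image.1 ha
  refine le_trans ?_ (h φ hφ)
  refine card_image_le_UD1 _ _ (res B') _ ?_ ?_
  · intro ψ hψ
    obtain ⟨h1, h2⟩ := mem_filter.1 hψ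
    exact mem_image_of_mem _ (mem_fib.2 ⟨h1, res_eq_iff.1 h2⟩)
  · intro ψ hψ χ hχ hg
    have h1 := res_eq_iff.1 (mem_filter.1 hψ).2
    have h2 := res_eq_iff.1 (mem_filter.1 hχ).2
    have h3 := res_eq_iff.1 hg
    refine res_eq_iff.2 fun v hv => ?_
    rcases mem_union.1 hv with hv | hv
    · exact (h1 v hv).trans (h2 v hv).symm
    · exact h3 v hv

lemma image_res_le_pow (Y : Finset (V → W)) (B : Finset V) (Z : Finset W)
    (h : ∀ φ ∈ Y, ∀ v ∈ B, φ v ∈ Z) : (Y.image (res B)).card ≤ Z.card ^ B.card := by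
  have key := card_image_le_UD1 Y (res B) (fun φ (v : {v // v ∈ B}) => φ v.1)
    (Fintype.piFinset fun _ : {v // v ∈ B} => Z)
    (fun φ hφ => Fintype.mem_piFinset.2 fun v => h φ hφ v.1 v.2)
    (fun φ _ ψ _ hg => res_eq_iff.2 fun v hv => congrFun hg ⟨v, hv⟩)
  rw [Fintype.card_piFinset, prod_const, card_univ, Fintype.card_coe] at key
  exact key

lemma cnt_cap [Nonempty W] (X : Finset (V → W)) (A B : Finset V) :
    cnt X A B ≤ Fintype.card W ^ (B \ A).card := by
  refine cnt_le (Nat.one_le_pow _ _ Fintype.card_pos) fun ρ => ?_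
  refine le_trans ?_ (image_res_le_pow (fib X A ρ) (B \ A) univ fun _ _ _ _ => mem_univ _)
  refine card_image_le_UD1 _ _ (res (B \ A)) _ (fun φ hφ => mem_image_of_mem _ hφ) ?_
  intro φ hφ ψ hψ hg
  have h1 := (mem_fib.1 hφ).2
  have h2 := (mem_fib.1 hψ).2
  have h3 := res_eq_iff.1 hg
  refine res_eq_iff.2 fun v hv => ?_
  by_cases hA : v ∈ A
  · exact (h1 v hA).trans (h2 v hA).symm
  · exact h3 v (mem_sdiff.2 ⟨hv, hA⟩)

lemma cnt_le_pow [Nonempty W] (X : Finset (V → W)) (A B : Finset V) :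
    cnt X A B ≤ Fintype.card W ^ Fintype.card V :=
  (cnt_cap X A B).trans (Nat.pow_le_pow_right Fintype.card_pos (card_le_univ _))

lemma cnt_mono_left {X X' : Finset (V → W)} (h : X ⊆ X') (A B : Finset V) :
    cnt X A B ≤ cnt X' A B := by
  refine cnt_le (one_le_cnt _ _ _) fun ρ => le_trans ?_ (le_cnt X' A B ρ)
  refine card_le_card (image_subset_image fun φ hφ => ?_)
  exact mem_fib.2 ⟨h (mem_fib.1 hφ).1, (mem_fib.1 hφ).2⟩

lemma cnt_mono (X : Finset (V → W)) {A A' B B' : Finset V} (hA : A' ⊆ A) (hB : B ⊆ A ∪ B') :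
    cnt X A B ≤ cnt X A' B' := by
  refine cnt_le (one_le_cnt _ _ _) fun ρ => le_trans ?_ (le_cnt X A' B' ρ)
  refine card_image_le_UD1 _ _ (res B') _ ?_ ?_
  · intro φ hφ
    exact mem_image_of_mem _ (mem_fib.2 ⟨(mem_fib.1 hφ).1, fun v hv => (mem_fib.1 hφ).2 v (hA hv)⟩)
  · intro φ hφ ψ hψ hg
    have h1 := (mem_fib.1 hφ).2
    have h2 := (mem_fib.1 hψ).2
    have h3 := res_eq_iff.1 hg
    refine res_eq_iff.2 fun v hv => ?_
    rcases mem_union.1 (hB hv) with hv | hv
    · exact (h1 v hv).trans (h2 v hv).symm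
    · exact h3 v hv

lemma cnt_chain (X : Finset (V → W)) (A B B' : Finset V) :
    cnt X A (B ∪ B') ≤ cnt X A B * cnt X (A ∪ B) B' := by
  refine cnt_le (Nat.mul_pos (one_le_cnt _ _ _) (one_le_cnt _ _ _)) fun ρ => ?_
  refine (image_res_union_le (fib X A ρ) B B' (cnt X (A ∪ B) B') ?_).trans
    (Nat.mul_le_mul_right _ (le_cnt X A B ρ))
  intro φ hφ
  refine le_trans ?_ (le_cnt X (A ∪ B) B' φ)
  refine card_le_card (image_subset_image fun ψ hψ => ?_)
  obtain ⟨h1, h2⟩ := mem_fib.1 hψ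
  obtain ⟨h3, h4⟩ := mem_fib.1 h1
  refine mem_fib.2 ⟨h3, fun v hv => ?_⟩
  rcases mem_union.1 hv with hv | hv
  · exact (h4 v hv).trans ((mem_fib.1 hφ).2 v hv).symm
  · exact h2 v hv

lemma card_le_cnt [Nonempty W] (X : Finset (V → W)) : X.card ≤ cnt X ∅ univ := by
  obtain ⟨w⟩ := ‹Nonempty W›
  refine le_trans ?_ (le_cnt X ∅ univ fun _ => w)
  have h1 : fib X ∅ (fun _ => w) = X := by
    ext φ
    simp [mem_fib]
  have h2 : Function.Injective (res (univ : Finset V) : (V → W) → V → Option W) :=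
    fun φ ψ h => funext fun v => res_eq_iff.1 h v (mem_univ v)
  rw [h1, card_image_of_injective _ h2]

end Pool.Agent.SemiRandom.Und
end

-- part Pool.Agent.P.MP_c53d0e_pr.UD2
section

set_option autoImplicit false
set_option linter.unusedSectionVars false

namespace Pool.Agent.SemiRandom.Und

open Finset

variable {V E : Type} [Fintype V] [DecidableEq V] {n r s : ℕ} {ed : E → Finset V}

lemma Emb.append {l : List (E × Finset V)} {φ : V → Fin n} {h : List (RSet n r × Move n r s)}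
    (H : Emb ed l φ h) (h' : List (RSet n r × Move n r s)) : Emb ed l φ (h ++ h') := by
  cases l with
  | nil => trivial
  | cons p l =>
    obtain ⟨h1, x, h2, rfl, h3, h4⟩ := H
    exact ⟨h1, x, h2 ++ h', by simp, h3, h4⟩

lemma Emb.tail {p : E × Finset V} {l : List (E × Finset V)} {φ : V → Fin n}
    {h : List (RSet n r × Move n r s)} (H : Emb ed (p :: l) φ h) : Emb ed l φ h := by
  obtain ⟨h1, x, h2, rfl, h3, -⟩ := H
  exact h3.append _

lemma Emb.snoc {p : E × Finset V} {l : List (E × Finset V)} {φ : V → Fin n}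
    {h : List (RSet n r × Move n r s)} {x : RSet n r × Move n r s}
    (H : Emb ed (p :: l) φ (h ++ [x])) : Emb ed (p :: l) φ h ∨ (Emb ed l φ h ∧ Mt ed p φ x) := by
  obtain ⟨h1, y, h2, e, h3, h4⟩ := H
  rcases List.eq_nil_or_concat h2 with rfl | ⟨h2, z, rfl⟩
  · obtain ⟨rfl, e2⟩ := List.append_inj' e rfl
    obtain rfl : x = y := List.singleton_inj.1 e2
    exact Or.inr ⟨h3, h4⟩
  · rw [List.concat_eq_append, ← List.cons_append, ← List.append_assoc] at e
    exact Or.inl ⟨h1, y, h2, (List.append_inj' e rfl).1, h3, h4⟩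

lemma XX_append (l : List (E × Finset V)) (h h' : List (RSet n r × Move n r s)) :
    XX ed l h ⊆ XX ed l (h ++ h') := fun _ hφ =>
  mem_XX.2 ((mem_XX.1 hφ).append h')

lemma XX_cons (p : E × Finset V) (l : List (E × Finset V)) (h : List (RSet n r × Move n r s)) :
    XX ed (p :: l) h ⊆ XX ed l h := fun _ hφ => mem_XX.2 (mem_XX.1 hφ).tail

lemma extract_UD2 [DecidableEq E] (hinj : Function.Injective ed) {φ : V → Fin n}
    (hφ : Function.Injective φ) (h : List (RSet n r × Move n r s)) :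
    ∀ F : Finset E, (∀ e ∈ F, ∃ x ∈ h, edge x = ((ed e).image φ).val) →
      ∃ ps : List (E × Finset V), Valid ed r ps ∧ (∀ e, e ∈ ps.map Prod.fst ↔ e ∈ F) ∧
        Emb ed ps φ h := by
  induction h using List.reverseRecOn with
  | nil =>
    intro F hF
    refine ⟨[], ⟨List.nodup_nil, fun _ hp => absurd hp List.not_mem_nil⟩, fun e => ?_, trivial⟩
    refine iff_of_false List.not_mem_nil fun he => ?_
    obtain ⟨x, hx, -⟩ := hF e he
    exact List.not_mem_nil hx
  | append_singleton h x ih =>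
    intro F hF
    by_cases hx : ∃ e ∈ F, edge x = ((ed e).image φ).val
    · obtain ⟨e, he, hx⟩ := hx
      obtain ⟨ps, h1, h2, h3⟩ := ih (F.erase e) fun e' he' => by
        obtain ⟨y, hy, h4⟩ := hF e' (mem_of_mem_erase he')
        rcases List.mem_append.1 hy with h5 | h5
        · exact ⟨y, h5, h4⟩
        · rw [List.mem_singleton.1 h5, hx] at h4
          exact absurd (hinj (image_injective hφ (val_injective h4))).symm (ne_of_mem_erase he')
      have hu : x.1.1 = ((ed e).filter fun v => φ v ∈ x.1.1).image φ := by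
        ext y
        simp only [mem_image, mem_filter]
        constructor
        · intro hy
          have h4 : y ∈ edge x := Multiset.mem_add.2 (Or.inl hy)
          rw [hx] at h4
          obtain ⟨v, hv, rfl⟩ := mem_image.1 h4
          exact ⟨v, ⟨hv, hy⟩, rfl⟩
        · rintro ⟨v, ⟨-, hv⟩, rfl⟩
          exact hv
      refine ⟨(e, (ed e).filter fun v => φ v ∈ x.1.1) :: ps,
        ⟨List.nodup_cons.2 ⟨fun h4 => notMem_erase e F ((h2 e).1 h4), h1.1⟩, fun p hp => ?_⟩,
        fun e' => ?_, h, x, [], rfl, h3, hu, hx⟩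
      · rcases List.mem_cons.1 hp with rfl | hp
        · refine ⟨filter_subset _ _, ?_⟩
          rw [← card_image_of_injective _ hφ, ← hu]
          exact x.1.2
        · exact h1.2 p hp
      · rw [List.map_cons, List.mem_cons, h2, mem_erase]
        by_cases h4 : e' = e
        · simp [h4, he]
        · simp [h4]
    · obtain ⟨ps, h1, h2, h3⟩ := ih F fun e he => by
        obtain ⟨y, hy, h4⟩ := hF e he
        rcases List.mem_append.1 hy with h5 | h5
        · exact ⟨y, h5, h4⟩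
        · exact absurd ⟨e, he, List.mem_singleton.1 h5 ▸ h4⟩ hx
      exact ⟨ps, h1, h2, h3.append _⟩

lemma extract [Fintype E] [DecidableEq E] (hinj : Function.Injective ed)
    {h : List (RSet n r × Move n r s)} (hC : ContainsV ed h) :
    ∃ (ps : List (E × Finset V)) (φ : V → Fin n),
      Valid ed r ps ∧ (∀ e, e ∈ ps.map Prod.fst) ∧ Emb ed ps φ h := by
  obtain ⟨φ, hφ⟩ := hC
  obtain ⟨ps, h1, h2, h3⟩ := extract_UD2 hinj φ.injective h univ fun e _ => by
    simpa only [map_eq_image] using hφ e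
  exact ⟨ps, φ, h1, fun e => (h2 e).2 (mem_univ e), h3⟩

lemma Emb.split {qs l : List (E × Finset V)} {φ : V → Fin n} {h : List (RSet n r × Move n r s)}
    (H : Emb ed (qs ++ l) φ h) : ∃ h1 h2, h = h1 ++ h2 ∧ Emb ed l φ h1 ∧
      ((qs.map fun p => p.2.image φ : List (Finset (Fin n))) : Multiset (Finset (Fin n))) ≤
        draws Subtype.val h2 := by
  induction qs generalizing h with
  | nil => exact ⟨h, [], by simp, H, by simp⟩
  | cons q qs ih =>
    obtain ⟨h1, x, h2, rfl, h3, h4⟩ := H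
    obtain ⟨k1, k2, rfl, h5, h6⟩ := ih h3
    refine ⟨k1, k2 ++ x :: h2, by simp, h5, ?_⟩
    have e : draws Subtype.val (k2 ++ x :: h2) =
        x.1.1 ::ₘ (draws Subtype.val k2 + draws Subtype.val h2) := by
      simp only [draws, List.map_append, List.map_cons, Multiset.coe_add, Multiset.cons_coe]
      exact Multiset.coe_eq_coe.2 List.perm_middle
    rw [e, List.map_cons, ← Multiset.cons_coe, h4.1]
    exact Multiset.cons_le_cons _ (h6.trans (Multiset.le_add_right _ _))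

/-- There are finitely many patterns. -/
lemma exists_patterns [Fintype E] [DecidableEq E] (ed : E → Finset V) (r : ℕ) :
    ∃ F : Finset (List (E × Finset V)), ∀ l, Valid ed r l → l ∈ F := by
  refine ⟨(List.finite_length_le (E × Finset V) (Fintype.card E)).toFinset, fun l hl => ?_⟩
  rw [Set.Finite.mem_toFinset, Set.mem_ofPred_eq]
  simpa only [List.length_map] using hl.1.length_le_card

end Pool.Agent.SemiRandom.Und
end

-- part Pool.Agent.P.MP_c53d0e_pr.UD3
section

set_option autoImplicit false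
set_option linter.unusedSectionVars false

namespace Pool.Agent.SemiRandom.Und

open Finset

variable {α β : Type} [Fintype α] [Fintype β] [Nonempty α]

lemma Pr_mono (S : Strategy α β) (T : ℕ) {A B : List (α × β) → Prop} (h : ∀ l, A l → B l) :
    Pr S T A ≤ Pr S T B := by
  refine Ex_mono S T [] _ _ fun l _ => ?_
  unfold ind
  split_ifs with a b
  · exact le_rfl
  · exact absurd (h _ a) b
  · exact zero_le_one
  · exact le_rfl

lemma Pr_or_le (S : Strategy α β) (T : ℕ) (A B : List (α × β) → Prop) :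
    Pr S T (fun l => A l ∨ B l) ≤ Pr S T A + Pr S T B := by
  unfold Pr
  rw [← Ex_add]
  refine Ex_mono S T [] _ _ fun l _ => ?_
  unfold ind
  by_cases a : A ([] ++ l) <;> by_cases b : B ([] ++ l) <;> simp only [a, b] <;> simp

lemma Pr_exists_le (S : Strategy α β) (T : ℕ) {ι : Type} (I : Finset ι)
    (A : ι → List (α × β) → Prop) :
    Pr S T (fun l => ∃ i ∈ I, A i l) ≤ ∑ i ∈ I, Pr S T (A i) := by
  unfold Pr
  rw [← Ex_sum]
  refine Ex_mono S T [] _ _ fun l _ => ?_
  have h0 : ∀ p : Prop, 0 ≤ ind p := fun p => by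
    unfold ind
    split_ifs
    exacts [zero_le_one, le_rfl]
  by_cases a : ∃ i ∈ I, A i ([] ++ l)
  · obtain ⟨i, hi, hA⟩ := a
    refine le_trans ?_ (single_le_sum (f := fun i => ind (A i ([] ++ l))) (fun j _ => h0 _) hi)
    unfold ind
    rw [if_pos hA, if_pos ⟨i, hi, hA⟩]
  · refine le_trans ?_ (sum_nonneg fun j _ => h0 _)
    unfold ind
    rw [if_neg a]

lemma Pr_nonneg (S : Strategy α β) (T : ℕ) (A : List (α × β) → Prop) : 0 ≤ Pr S T A := by
  refine Ex_nonneg S T [] _ fun l => ?_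
  unfold ind
  split_ifs
  exacts [zero_le_one, le_rfl]

lemma two_rpow_le_UD3 {x : ℝ} (h0 : 0 ≤ x) (h1 : x ≤ 1) : (2 : ℝ) ^ x ≤ 1 + x := by
  have := rpow_one_add_le_one_add_mul_self (s := 1) (by norm_num) h0 h1
  rwa [one_add_one_eq_two, mul_one] at this

lemma mgf_UD3 (S : Strategy α β) (inc : List (α × β) → α × β → ℝ) {W μ : ℝ}
    (hW : 0 < W) (hμ : 0 ≤ μ) (h0 : ∀ h x, 0 ≤ inc h x) (h1 : ∀ h x, inc h x ≤ W)
    (h2 : ∀ h, ∃ Y : α → ℝ, (∀ U V, inc h (U, V) ≤ Y U) ∧ ∑ U, Y U ≤ μ) (t : ℕ) :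
    ∀ h, Ex S t h (fun l => (2 : ℝ) ^ (Acc inc l / W)) ≤
      (2 : ℝ) ^ (Acc inc h / W) * (1 + μ / (Fintype.card α * W)) ^ t := by
  have hN : (0 : ℝ) < Fintype.card α := card_pos'
  induction t with
  | zero => intro h; simp [Ex]
  | succ t ih =>
    intro h
    obtain ⟨Y, hY, hs⟩ := h2 h
    simp only [Ex]
    rw [div_le_iff₀ hN]
    set c : ℝ := (2 : ℝ) ^ (Acc inc h / W) * (1 + μ / (Fintype.card α * W)) ^ t with hc
    have hc0 : 0 ≤ c := by positivity
    have step : ∀ U V, Ex S t (h ++ [(U, V)]) (fun l => (2 : ℝ) ^ (Acc inc l / W)) ≤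
        c * (1 + Y U / W) := by
      intro U V
      refine (ih _).trans ?_
      rw [Acc_snoc, add_div, Real.rpow_add two_pos, mul_right_comm, ← hc]
      refine mul_le_mul_of_nonneg_left ?_ hc0
      refine (two_rpow_le_UD3 (div_nonneg (h0 _ _) hW.le) ((div_le_one hW).2 (h1 _ _))).trans ?_
      have := div_le_div_of_nonneg_right (hY U V) hW.le
      linarith
    have k1 : ∑ U, ∑ V, S.w h U V * Ex S t (h ++ [(U, V)]) (fun l => (2 : ℝ) ^ (Acc inc l / W)) ≤
        ∑ U, c * (1 + Y U / W) := by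
      refine sum_le_sum fun U _ => ?_
      refine (sum_le_sum fun V _ => mul_le_mul_of_nonneg_left (step U V) (S.nonneg _ _ _)).trans ?_
      rw [← sum_mul, S.sum_one, one_mul]
    refine k1.trans ?_
    rw [← mul_sum, sum_add_distrib, sum_const, card_univ, nsmul_eq_mul, mul_one, ← sum_div,
      pow_succ, ← mul_assoc, ← hc, mul_assoc c]
    refine mul_le_mul_of_nonneg_left ?_ hc0
    have e : (1 + μ / (Fintype.card α * W)) * Fintype.card α = Fintype.card α + μ / W := by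
      field_simp
    rw [e]
    have := div_le_div_of_nonneg_right hs hW.le
    linarith

/-- Tail bound for sums of bounded increments with a predictable mean. -/
lemma tail_bound (S : Strategy α β) (T : ℕ) (inc : List (α × β) → α × β → ℝ) {W μ L p : ℝ}
    (hW : 0 < W) (hμ : 0 ≤ μ) (h0 : ∀ h x, 0 ≤ inc h x) (h1 : ∀ h x, inc h x ≤ W)
    (h2 : ∀ h, ∃ Y : α → ℝ, (∀ U V, inc h (U, V) ≤ Y U) ∧ ∑ U, Y U ≤ μ)
    (hp : (T : ℝ) / Fintype.card α ≤ p) (hL : 2 ≤ L) :
    Pr S T (fun h => L * max (p * μ) W ≤ Acc inc h) ≤ 3 / (2 : ℝ) ^ L := by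
  have hN : (0 : ℝ) < Fintype.card α := card_pos'
  set M : ℝ := max (p * μ / W) 1 with hM
  have hM1 : 1 ≤ M := le_max_right _ _
  have hMW : max (p * μ) W = M * W := by
    rw [hM, max_mul_of_nonneg _ _ hW.le, div_mul_cancel₀ _ hW.ne', one_mul]
  have hpos : (0 : ℝ) < (2 : ℝ) ^ (L * M) := by positivity
  have k1 : Pr S T (fun h => L * max (p * μ) W ≤ Acc inc h) ≤
      ((2 : ℝ) ^ (L * M))⁻¹ * Ex S T [] (fun l => (2 : ℝ) ^ (Acc inc l / W)) := by
    rw [← Ex_mul]
    refine Ex_mono S T [] _ _ fun l _ => ?_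
    unfold ind
    split_ifs with a
    · rw [← div_eq_inv_mul, one_le_div hpos]
      refine Real.rpow_le_rpow_of_exponent_le one_le_two ?_
      rw [le_div_iff₀ hW, mul_assoc, ← hMW]
      exact a
    · positivity
  have k2 := mgf_UD3 S inc hW hμ h0 h1 h2 T []
  rw [Acc_nil, zero_div, Real.rpow_zero, one_mul] at k2
  have hx : 0 ≤ μ / (Fintype.card α * W) := by positivity
  have k3 : (1 + μ / (Fintype.card α * W)) ^ T ≤ Real.exp M := by
    have a1 : 1 + μ / (Fintype.card α * W) ≤ Real.exp (μ / (Fintype.card α * W)) := by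
      have := Real.add_one_le_exp (μ / (Fintype.card α * W))
      linarith
    refine (pow_le_pow_left₀ (by positivity) a1 T).trans ?_
    rw [← Real.exp_nat_mul]
    refine Real.exp_le_exp.2 (le_trans ?_ (le_max_left _ _))
    have e : (T : ℝ) * (μ / (Fintype.card α * W)) = T / Fintype.card α * μ / W := by
      field_simp
    rw [e]
    exact div_le_div_of_nonneg_right (mul_le_mul_of_nonneg_right hp hμ) hW.le
  have hL2 : (0 : ℝ) < (2 : ℝ) ^ L := by positivity
  have h4 : (4 : ℝ) ≤ (2 : ℝ) ^ L := by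
    have := Real.rpow_le_rpow_of_exponent_le one_le_two hL
    rwa [show (2 : ℝ) ^ (2 : ℝ) = 4 by norm_num] at this
  have he : Real.exp 1 ≤ 3 := (Real.exp_one_lt_d9.trans (by norm_num)).le
  have k4 : ((2 : ℝ) ^ (L * M))⁻¹ * Real.exp M = (Real.exp 1 / (2 : ℝ) ^ L) ^ M := by
    rw [Real.div_rpow (Real.exp_pos 1).le hL2.le, ← Real.rpow_mul two_pos.le, Real.exp_one_rpow,
      div_eq_inv_mul]
  have k5 : (Real.exp 1 / (2 : ℝ) ^ L) ^ M ≤ Real.exp 1 / (2 : ℝ) ^ L := by
    have := Real.rpow_le_rpow_of_exponent_ge (x := Real.exp 1 / (2 : ℝ) ^ L) (by positivity)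
      ((div_le_one hL2).2 (by linarith)) hM1
    rwa [Real.rpow_one] at this
  calc _ ≤ _ := k1
    _ ≤ ((2 : ℝ) ^ (L * M))⁻¹ * Real.exp M :=
        mul_le_mul_of_nonneg_left (k2.trans k3) (by positivity)
    _ ≤ Real.exp 1 / (2 : ℝ) ^ L := k4 ▸ k5
    _ ≤ _ := div_le_div_of_nonneg_right he hL2.le

end Pool.Agent.SemiRandom.Und
end

-- part Pool.Agent.P.MP_c53d0e_pr.UD4
section

set_option autoImplicit false
set_option linter.unusedSectionVars false

namespace Pool.Agent.SemiRandom.Und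

open Finset

variable {V E : Type} [Fintype V] [DecidableEq V] {n r s : ℕ} {ed : E → Finset V}

open Classical in
/-- Maps of the fibre that realise `q` in round `x`. -/
noncomputable def hit_UD4 (ed : E → Finset V) (q : E × Finset V) (X : Finset (V → Fin n))
    (x : RSet n r × Move n r s) : Finset (V → Fin n) := X.filter fun φ => Mt ed q φ x

lemma mem_hit_UD4 {q : E × Finset V} {X : Finset (V → Fin n)} {x : RSet n r × Move n r s}
    {φ : V → Fin n} : φ ∈ hit_UD4 ed q X x ↔ φ ∈ X ∧ Mt ed q φ x := by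
  simp [hit_UD4]

lemma edge_le_UD4 (hrs : r ≤ s) (hcard : ∀ e, (ed e).card = s) (q : E × Finset V)
    (x : RSet n r × Move n r s) (Y : Finset (V → Fin n)) (hY : ∀ φ ∈ Y, Mt ed q φ x) :
    (Y.image (res (ed q.1))).card ≤ s ^ s := by
  have h1 := image_res_le_pow Y (ed q.1) (edge x).toFinset (fun φ hφ v hv => by
    rw [Multiset.mem_toFinset, (hY φ hφ).2]
    exact mem_image_of_mem φ hv)
  rw [hcard] at h1
  refine h1.trans (Nat.pow_le_pow_left ?_ s)
  exact (Multiset.toFinset_card_le _).trans (card_edge hrs x).le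

lemma hit_le_W_UD4 (hrs : r ≤ s) (hcard : ∀ e, (ed e).card = s) (q : E × Finset V)
    (x : RSet n r × Move n r s) (X : Finset (V → Fin n)) (A B : Finset V) (ρ : V → Fin n) :
    ((hit_UD4 ed q (fib X A ρ) x).image (res (B ∪ ed q.1))).card ≤
      s ^ s * cnt X (A ∪ ed q.1) B := by
  rw [union_comm B]
  refine (image_res_union_le _ (ed q.1) B (cnt X (A ∪ ed q.1) B) fun φ hφ => ?_).trans
    (Nat.mul_le_mul_right _ (edge_le_UD4 hrs hcard q x _ fun φ hφ => (mem_hit_UD4.1 hφ).2))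
  refine le_trans (card_le_card (image_subset_image ?_)) (le_cnt X (A ∪ ed q.1) B φ)
  intro ψ hψ
  obtain ⟨hψ1, hψ2⟩ := mem_fib.1 hψ
  obtain ⟨hψ3, hψ4⟩ := mem_fib.1 (mem_hit_UD4.1 hψ1).1
  obtain ⟨-, hφ4⟩ := mem_fib.1 (mem_hit_UD4.1 hφ).1
  refine mem_fib.2 ⟨hψ3, fun v hv => ?_⟩
  rcases mem_union.1 hv with hv | hv
  · rw [hψ4 v hv, hφ4 v hv]
  · exact hψ2 v hv

lemma hit_le_Y_UD4 (hrs : r ≤ s) (hcard : ∀ e, (ed e).card = s) (q : E × Finset V)
    (hq : q.2 ⊆ ed q.1) (x : RSet n r × Move n r s) (Z : Finset (V → Fin n)) (B : Finset V) :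
    ((hit_UD4 ed q Z x).image (res (B ∪ ed q.1))).card ≤
      s ^ s * ((Z.filter fun φ => q.2.image φ = x.1.1).image (res (B ∪ q.2))).card := by
  have e : B ∪ ed q.1 = (B ∪ q.2) ∪ ed q.1 := by
    rw [union_assoc, union_eq_right.2 hq]
  rw [e, mul_comm]
  refine (image_res_union_le _ (B ∪ q.2) (ed q.1) (s ^ s) fun φ _ => ?_).trans
    (Nat.mul_le_mul_right _ (card_le_card (image_subset_image ?_)))
  · exact edge_le_UD4 hrs hcard q x _ fun ψ hψ => (mem_hit_UD4.1 (mem_fib.1 hψ).1).2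
  · intro ψ hψ
    exact mem_filter.2 ⟨(mem_hit_UD4.1 hψ).1, (mem_hit_UD4.1 hψ).2.1.symm⟩

lemma sum_Y_UD4 (Z : Finset (V → Fin n)) (B C : Finset V) :
    ∑ U : RSet n r, ((Z.filter fun φ => C.image φ = U.1).image (res (B ∪ C))).card ≤
      (Z.image (res (B ∪ C))).card := by
  rw [← card_biUnion]
  · refine card_le_card (biUnion_subset.2 fun U _ => image_subset_image (filter_subset _ _))
  · intro U _ U' _ hne
    rw [Function.onFun, disjoint_left]
    intro y hy hy'
    obtain ⟨φ, hφ, rfl⟩ := mem_image.1 hy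
    obtain ⟨ψ, hψ, e⟩ := mem_image.1 hy'
    apply hne
    apply Subtype.ext
    rw [← (mem_filter.1 hφ).2, ← (mem_filter.1 hψ).2]
    exact image_congr fun v hv => (res_eq_iff.1 e v (mem_union_right _ (mem_coe.1 hv))).symm

open Classical in
/-- The increments. -/
noncomputable def inc_UD4 (ed : E → Finset V) (q : E × Finset V) (l : List (E × Finset V))
    (A B : Finset V) (ρ : V → Fin n) (μ W : ℕ) (h : List (RSet n r × Move n r s))
    (x : RSet n r × Move n r s) : ℝ :=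
  if cnt (XX ed l h) A (B ∪ q.2) ≤ μ ∧ cnt (XX ed l h) (A ∪ ed q.1) B ≤ W then
    (((hit_UD4 ed q (fib (XX ed l h) A ρ) x).image (res (B ∪ ed q.1))).card : ℝ) else 0

lemma le_Acc_UD4 (q : E × Finset V) (l : List (E × Finset V)) (A B : Finset V) (ρ : V → Fin n)
    (μ W : ℕ) (h : List (RSet n r × Move n r s))
    (hG : cnt (XX ed l h) A (B ∪ q.2) ≤ μ ∧ cnt (XX ed l h) (A ∪ ed q.1) B ≤ W) :
    (((fib (XX ed (q :: l) h) A ρ).image (res (B ∪ ed q.1))).card : ℝ) ≤
      Acc (inc_UD4 ed q l A B ρ μ W) h := by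
  induction h using List.reverseRecOn with
  | nil =>
    have e : fib (XX ed (q :: l) ([] : List (RSet n r × Move n r s))) A ρ = ∅ := by
      rw [eq_empty_iff_forall_notMem]
      intro φ hφ
      obtain ⟨h1, x, h2, e, -⟩ := mem_XX.1 (mem_fib.1 hφ).1
      simp at e
    rw [e]
    simp
  | append_singleton h x ih =>
    have hG' : cnt (XX ed l h) A (B ∪ q.2) ≤ μ ∧ cnt (XX ed l h) (A ∪ ed q.1) B ≤ W :=
      ⟨(cnt_mono_left (XX_append l h [x]) _ _).trans hG.1,
        (cnt_mono_left (XX_append l h [x]) _ _).trans hG.2⟩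
    have hsub : fib (XX ed (q :: l) (h ++ [x])) A ρ ⊆
        fib (XX ed (q :: l) h) A ρ ∪ hit_UD4 ed q (fib (XX ed l h) A ρ) x := by
      intro φ hφ
      obtain ⟨h1, h2⟩ := mem_fib.1 hφ
      rcases (mem_XX.1 h1).snoc with h3 | h3
      · exact mem_union_left _ (mem_fib.2 ⟨mem_XX.2 h3, h2⟩)
      · exact mem_union_right _ (mem_hit_UD4.2 ⟨mem_fib.2 ⟨mem_XX.2 h3.1, h2⟩, h3.2⟩)
    have h1 := card_le_card (image_subset_image (f := res (B ∪ ed q.1)) hsub)
    rw [image_union] at h1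
    have h2 := h1.trans (card_union_le _ _)
    have h3 : (((fib (XX ed (q :: l) (h ++ [x])) A ρ).image (res (B ∪ ed q.1))).card : ℝ) ≤
        (((fib (XX ed (q :: l) h) A ρ).image (res (B ∪ ed q.1))).card : ℝ) +
        (((hit_UD4 ed q (fib (XX ed l h) A ρ) x).image (res (B ∪ ed q.1))).card : ℝ) := by
      exact_mod_cast h2
    rw [Acc_snoc, inc_UD4, if_pos hG']
    linarith [ih hG']

lemma ruleS_one [Nonempty (RSet n r)] (hrs : r ≤ s) (hs : 1 ≤ s) (hcard : ∀ e, (ed e).card = s)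
    (S : Strategy (RSet n r) (Move n r s)) (T : ℕ) {L p : ℝ}
    (hp : (T : ℝ) / Fintype.card (RSet n r) ≤ p) (hL : 2 ≤ L)
    (q : E × Finset V) (hq : q.2 ⊆ ed q.1) (l : List (E × Finset V)) (A B : Finset V)
    (ρ : V → Fin n) (μ W : ℕ) (hW : 1 ≤ W) :
    Pr S T (fun h => cnt (XX ed l h) A (B ∪ q.2) ≤ μ ∧ cnt (XX ed l h) (A ∪ ed q.1) B ≤ W ∧
      L * (s : ℝ) ^ s * max (p * μ) W ≤
        (((fib (XX ed (q :: l) h) A ρ).image (res (B ∪ ed q.1))).card : ℝ)) ≤
      3 / (2 : ℝ) ^ L := by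
  have hs0 : (0 : ℝ) < (s : ℝ) ^ s := by
    have : (0 : ℝ) < s := by exact_mod_cast hs
    positivity
  have hW0 : (0 : ℝ) < W := by exact_mod_cast hW
  have key := tail_bound S T (inc_UD4 ed q l A B ρ μ W) (W := (s : ℝ) ^ s * W)
    (μ := (s : ℝ) ^ s * μ) (L := L) (p := p) (by positivity) (by positivity)
    (fun h x => by
      unfold inc_UD4
      split_ifs
      · positivity
      · exact le_rfl)
    (fun h x => by
      unfold inc_UD4
      split_ifs with hG
      · have h1 := (hit_le_W_UD4 hrs hcard q x (XX ed l h) A B ρ).trans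
          (Nat.mul_le_mul_left _ hG.2)
        exact_mod_cast h1
      · positivity)
    (fun h => by
      by_cases hG : cnt (XX ed l h) A (B ∪ q.2) ≤ μ ∧ cnt (XX ed l h) (A ∪ ed q.1) B ≤ W
      · refine ⟨fun U => (s : ℝ) ^ s * ((((fib (XX ed l h) A ρ).filter
          fun φ => q.2.image φ = U.1).image (res (B ∪ q.2))).card : ℝ), fun U M => ?_, ?_⟩
        · rw [inc_UD4, if_pos hG]
          have h1 := hit_le_Y_UD4 hrs hcard q hq (U, M) (fib (XX ed l h) A ρ) B
          beta_reduce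
          exact_mod_cast h1
        · rw [← mul_sum]
          refine mul_le_mul_of_nonneg_left ?_ hs0.le
          have h1 := ((sum_Y_UD4 (r := r) (fib (XX ed l h) A ρ) B q.2).trans
            (le_cnt _ A (B ∪ q.2) ρ)).trans hG.1
          exact_mod_cast h1
      · refine ⟨fun _ => 0, fun U M => ?_, ?_⟩
        · rw [inc_UD4, if_neg hG]
        · rw [sum_const_zero]
          positivity)
    hp hL
  refine le_trans (Pr_mono S T fun h hh => ?_) key
  have e : max (p * ((s : ℝ) ^ s * μ)) ((s : ℝ) ^ s * W) = (s : ℝ) ^ s * max (p * μ) W := by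
    rw [mul_max_of_nonneg _ _ hs0.le]
    congr 1
    ring
  rw [e, ← mul_assoc]
  exact hh.2.2.trans (le_Acc_UD4 q l A B ρ μ W h ⟨hh.1, hh.2.1⟩)

end Pool.Agent.SemiRandom.Und
end

-- part Pool.Agent.P.MP_c53d0e_pr.UD5
section

set_option autoImplicit false
set_option linter.unusedSectionVars false

namespace Pool.Agent.SemiRandom.Und

open Finset

variable {V E : Type} [Fintype V] [DecidableEq V] [Fintype E] [DecidableEq E] {r s : ℕ}
  {ed : E → Finset V}

theorem ruleS_prob (hrs : r ≤ s) (hs : 1 ≤ s) (hcard : ∀ e, (ed e).card = s) :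
    ∃ c : ℝ, ∀ (n : ℕ) [Nonempty (RSet n r)], 1 ≤ n →
      ∀ (S : Strategy (RSet n r) (Move n r s)) (T : ℕ) (L p : ℝ),
        (T : ℝ) / Fintype.card (RSet n r) ≤ p → 2 ≤ L →
        Pr S T (fun h => ¬ RuleS ed L p h) ≤
          c * (n : ℝ) ^ (3 * Fintype.card V) / (2 : ℝ) ^ L := by
  classical
  obtain ⟨F, hF⟩ := exists_patterns ed r
  set Q : Finset (E × Finset V) := univ.filter fun q => q.2 ⊆ ed q.1 with hQ
  set c0 : ℕ := (Q ×ˢ F ×ˢ (univ : Finset (Finset V)) ×ˢ (univ : Finset (Finset V))).card with hc0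
  refine ⟨6 * c0, fun n _ hn S T L p hp hL => ?_⟩
  have : Nonempty (Fin n) := ⟨⟨0, hn⟩⟩
  set k := Fintype.card V with hk
  set I : Finset (((E × Finset V) × List (E × Finset V) × Finset V × Finset V) ×
      (V → Fin n) × ℕ × ℕ) :=
    (Q ×ˢ F ×ˢ (univ : Finset (Finset V)) ×ˢ (univ : Finset (Finset V))) ×ˢ
      (univ : Finset (V → Fin n)) ×ˢ range (n ^ k + 1) ×ˢ Icc 1 (n ^ k) with hI
  have hpow : ∀ (X : Finset (V → Fin n)) (A B : Finset V), cnt X A B ≤ n ^ k := fun X A B => by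
    simpa using cnt_le_pow X A B
  have h1 : Pr S T (fun h => ¬ RuleS ed L p h) ≤ Pr S T (fun h => ∃ i ∈ I,
      cnt (XX ed i.1.2.1 h) i.1.2.2.1 (i.1.2.2.2 ∪ i.1.1.2) ≤ i.2.2.1 ∧
      cnt (XX ed i.1.2.1 h) (i.1.2.2.1 ∪ ed i.1.1.1) i.1.2.2.2 ≤ i.2.2.2 ∧
      L * (s : ℝ) ^ s * max (p * i.2.2.1) i.2.2.2 ≤
        (((fib (XX ed (i.1.1 :: i.1.2.1) h) i.1.2.2.1 i.2.1).image
          (res (i.1.2.2.2 ∪ ed i.1.1.1))).card : ℝ)) := by
    refine Pr_mono S T fun h hh => ?_
    unfold RuleS at hh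
    push Not at hh
    obtain ⟨q, l, A, B, hv, hlt⟩ := hh
    have hs1 : (1 : ℝ) ≤ (s : ℝ) ^ s := one_le_pow₀ (by exact_mod_cast hs)
    have hm : (1 : ℝ) ≤ max (p * cnt (XX ed l h) A (B ∪ q.2)) (cnt (XX ed l h) (A ∪ ed q.1) B) :=
      le_trans (by exact_mod_cast one_le_cnt _ _ _) (le_max_right _ _)
    rcases cnt_cases (XX ed (q :: l) h) A (B ∪ ed q.1) with e | ⟨ρ, e⟩
    · exfalso
      rw [e] at hlt
      have h2 : (2 : ℝ) ≤ L * (s : ℝ) ^ s := by nlinarith
      have h3 : (2 : ℝ) ≤ L * (s : ℝ) ^ s *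
          max (p * cnt (XX ed l h) A (B ∪ q.2)) (cnt (XX ed l h) (A ∪ ed q.1) B) := by nlinarith
      push_cast at hlt
      linarith
    · refine ⟨((q, l, A, B), ρ, cnt (XX ed l h) A (B ∪ q.2), cnt (XX ed l h) (A ∪ ed q.1) B),
        ?_, le_rfl, le_rfl, ?_⟩
      · simp only [hI, hQ, mem_product, mem_filter, mem_univ, true_and, and_true, mem_range,
          mem_Icc]
        exact ⟨⟨(hv.2 q List.mem_cons_self).1, hF l hv.tail⟩, Nat.lt_succ_of_le (hpow _ _ _),
          one_le_cnt _ _ _, hpow _ _ _⟩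
      · rw [e] at hlt
        exact hlt.le
  refine h1.trans ((Pr_exists_le S T I _).trans ?_)
  have h2 : ∀ i ∈ I, Pr S T (fun h =>
      cnt (XX ed i.1.2.1 h) i.1.2.2.1 (i.1.2.2.2 ∪ i.1.1.2) ≤ i.2.2.1 ∧
      cnt (XX ed i.1.2.1 h) (i.1.2.2.1 ∪ ed i.1.1.1) i.1.2.2.2 ≤ i.2.2.2 ∧
      L * (s : ℝ) ^ s * max (p * i.2.2.1) i.2.2.2 ≤
        (((fib (XX ed (i.1.1 :: i.1.2.1) h) i.1.2.2.1 i.2.1).image
          (res (i.1.2.2.2 ∪ ed i.1.1.1))).card : ℝ)) ≤ 3 / (2 : ℝ) ^ L := by
    intro i hi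
    simp only [hI, hQ, mem_product, mem_filter, mem_univ, true_and, and_true, mem_range,
      mem_Icc] at hi
    exact ruleS_one hrs hs hcard S T hp hL i.1.1 hi.1.1 i.1.2.1 i.1.2.2.1 i.1.2.2.2 i.2.1
      i.2.2.1 i.2.2.2 hi.2.2.1
  refine (sum_le_card_nsmul I _ _ h2).trans ?_
  have hcI : I.card = c0 * (n ^ k * ((n ^ k + 1) * n ^ k)) := by
    rw [hI, card_product, ← hc0, card_product, card_product, card_range, Nat.card_Icc, card_univ,
      Fintype.card_fun, Fintype.card_fin, Nat.add_sub_cancel]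
  have hx : (1 : ℝ) ≤ (n : ℝ) ^ k := one_le_pow₀ (by exact_mod_cast hn)
  have hL2 : (0 : ℝ) < (2 : ℝ) ^ L := by positivity
  rw [nsmul_eq_mul, hcI, ← mul_div_assoc]
  refine div_le_div_of_nonneg_right ?_ hL2.le
  push_cast
  have h3 : (n : ℝ) ^ (3 * k) = (n : ℝ) ^ k * ((n : ℝ) ^ k * (n : ℝ) ^ k) := by ring
  rw [h3]
  have hc : (0 : ℝ) ≤ c0 := Nat.cast_nonneg _
  have h4 : (n : ℝ) ^ k * (((n : ℝ) ^ k + 1) * (n : ℝ) ^ k) ≤
      2 * ((n : ℝ) ^ k * ((n : ℝ) ^ k * (n : ℝ) ^ k)) := by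
    have : (0 : ℝ) ≤ (n : ℝ) ^ k * (n : ℝ) ^ k := by positivity
    nlinarith
  nlinarith [mul_le_mul_of_nonneg_left h4 hc]

theorem calc_nu {n : ℕ} (hn : 2 ≤ n) {δ ε L p : ℝ} (hL0 : 0 ≤ L)
    (hL : L * (s : ℝ) ^ s ≤ (n : ℝ) ^ ε) (hp : p ≤ (n : ℝ) ^ (-δ))
    {h : List (RSet n r × Move n r s)} (hR : RuleS ed L p h) : Calc ed r δ ε (nu ed h) := by
  have : Nonempty (Fin n) := ⟨⟨0, by omega⟩⟩
  have hn1 : (1 : ℝ) < n := by exact_mod_cast hn
  have hn0 : (0 : ℝ) < n := by linarith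
  have hlog : 0 < Real.log n := Real.log_pos hn1
  have hc : ∀ (X : Finset (V → Fin n)) (A B : Finset V), (1 : ℝ) ≤ cnt X A B := fun X A B => by
    exact_mod_cast one_le_cnt X A B
  have hc0 : ∀ (X : Finset (V → Fin n)) (A B : Finset V), (0 : ℝ) < cnt X A B := fun X A B =>
    lt_of_lt_of_le one_pos (hc X A B)
  have hm : ∀ (X X' : Finset (V → Fin n)) (A B A' B' : Finset V), cnt X A B ≤ cnt X' A' B' →
      Real.log (cnt X A B) / Real.log n ≤ Real.log (cnt X' A' B') / Real.log n :=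
    fun X X' A B A' B' H => div_le_div_of_nonneg_right
      (Real.log_le_log (hc0 _ _ _) (by exact_mod_cast H)) hlog.le
  refine ⟨fun l A B => div_nonneg (Real.log_nonneg (hc _ _ _)) hlog.le, fun l A B => ?_,
    fun q l A B => hm _ _ _ _ _ _ (cnt_mono_left (XX_cons q l h) A B),
    fun l A A' B B' hA hB => hm _ _ _ _ _ _ (cnt_mono _ hA hB), fun l A B B' => ?_,
    fun q l A B hv => ?_⟩
  · unfold nu
    rw [div_le_iff₀ hlog, ← Real.log_pow]
    refine Real.log_le_log (hc0 _ _ _) ?_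
    have := cnt_cap (XX ed l h) A B
    rw [Fintype.card_fin] at this
    exact_mod_cast this
  · unfold nu
    rw [← add_div, ← Real.log_mul (hc0 _ _ _).ne' (hc0 _ _ _).ne']
    refine div_le_div_of_nonneg_right (Real.log_le_log (hc0 _ _ _) ?_) hlog.le
    exact_mod_cast cnt_chain (XX ed l h) A B B'
  · have H := hR q l A B hv
    unfold nu
    have a0 := hc0 (XX ed (q :: l) h) A (B ∪ ed q.1)
    have b0 := hc0 (XX ed l h) A (B ∪ q.2)
    have c0 := hc0 (XX ed l h) (A ∪ ed q.1) B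
    generalize (cnt (XX ed (q :: l) h) A (B ∪ ed q.1) : ℝ) = a at H a0 ⊢
    generalize (cnt (XX ed l h) A (B ∪ q.2) : ℝ) = b at H b0 ⊢
    generalize (cnt (XX ed l h) (A ∪ ed q.1) B : ℝ) = c at H c0 ⊢
    have he : (0 : ℝ) < (n : ℝ) ^ ε := Real.rpow_pos_of_pos hn0 _
    have hd : (0 : ℝ) < (n : ℝ) ^ (-δ) := Real.rpow_pos_of_pos hn0 _
    have hM : max (p * b) c ≤ max ((n : ℝ) ^ (-δ) * b) c :=
      max_le_max (mul_le_mul_of_nonneg_right hp b0.le) le_rfl
    have hM0 : 0 ≤ max (p * b) c := le_trans c0.le (le_max_right _ _)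
    have H2 : a ≤ (n : ℝ) ^ ε * max ((n : ℝ) ^ (-δ) * b) c :=
      H.trans (mul_le_mul hL hM hM0 he.le)
    rcases le_total ((n : ℝ) ^ (-δ) * b) c with h1 | h1
    · rw [max_eq_right h1] at H2
      have H3 := Real.log_le_log a0 H2
      rw [Real.log_mul he.ne' c0.ne', Real.log_rpow hn0] at H3
      refine le_trans ?_ (add_le_add le_rfl (le_max_right _ _))
      rw [div_le_iff₀ hlog, add_mul, div_mul_cancel₀ _ hlog.ne']
      exact H3
    · rw [max_eq_left h1] at H2
      have H3 := Real.log_le_log a0 H2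
      rw [Real.log_mul he.ne' (mul_pos hd b0).ne', Real.log_mul hd.ne' b0.ne',
        Real.log_rpow hn0, Real.log_rpow hn0] at H3
      refine le_trans ?_ (add_le_add le_rfl (le_max_left _ _))
      rw [div_le_iff₀ hlog, add_mul, sub_mul, div_mul_cancel₀ _ hlog.ne']
      linarith

end Pool.Agent.SemiRandom.Und
end

-- part Pool.Agent.P.MP_c53d0e_pr.UD6
section

set_option autoImplicit false
set_option linter.unusedSectionVars false

namespace Pool.Agent.SemiRandom.Und

open Finset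

variable {r s : ℕ} {P Ln : Type} [Fintype P] [DecidableEq P] [Fintype Ln] [DecidableEq Ln]

lemma exists_num_UD6 {W : Type} [DecidableEq W] (m : ℕ) (hm : 1 ≤ m) :
    ∃ j : Finset W → W → Fin m, ∀ A : Finset W, A.card ≤ m → Set.InjOn (j A) (A : Set W) := by
  have key : ∀ A : Finset W, ∃ f : W → Fin m, A.card ≤ m → Set.InjOn f (A : Set W) := by
    intro A
    by_cases h : A.card ≤ m
    · refine ⟨fun a => if ha : a ∈ A then Fin.castLE h (A.equivFin ⟨a, ha⟩) else ⟨0, hm⟩,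
        fun _ a ha b hb hab => ?_⟩
      have ha' : a ∈ A := ha
      have hb' : b ∈ A := hb
      simp only [dif_pos ha', dif_pos hb'] at hab
      have h1 := A.equivFin.injective (Fin.castLE_injective h hab)
      exact congrArg Subtype.val h1
    · exact ⟨fun _ => ⟨0, hm⟩, fun h' => absurd h' h⟩
  choose j hj using key
  exact ⟨j, hj⟩

lemma exact_bound_UD6 (I : Inst r P Ln) {η : ℝ} (hb : I.Bound η) {W : Type}
    [DecidableEq W] (S : Finset (P → W)) (w : ℕ) (hw : 1 ≤ w)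
    (hcap : ∀ p, (S.image fun x => x p).card ≤ w) (hS : I.Exact S) :
    (S.card : ℝ) ≤ (w : ℝ) ^ ((r : ℝ) - η) := by
  obtain ⟨j, hj⟩ := exists_num_UD6 (W := W) w hw
  set J : (P → W) → (P → Fin w) := fun x p => j (S.image fun y => y p) (x p) with hJ
  have hinj : ∀ x ∈ S, ∀ x' ∈ S, ∀ p, J x p = J x' p → x p = x' p := by
    intro x hx x' hx' p h
    exact hj _ (hcap p) (mem_coe.2 (mem_image_of_mem _ hx)) (mem_coe.2 (mem_image_of_mem _ hx')) h
  have hcard : (S.image J).card = S.card :=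
    card_image_of_injOn fun x hx x' hx' h =>
      funext fun p => hinj x hx x' hx' p (congrFun h p)
  rw [← hcard]
  refine hb w _ hw ?_
  intro e y hy y' hy' h
  obtain ⟨x, hx, rfl⟩ := mem_image.1 hy
  obtain ⟨x', hx', rfl⟩ := mem_image.1 hy'
  have h1 := hS e x hx x' hx' fun l => hinj x hx x' hx' _ (h l)
  simp only [hJ, h1]

/-- The static bound for families with few values and small multiplicities. -/
lemma approx_bound (I : Inst r P Ln) {η : ℝ} (hb : I.Bound η) {W : Type} [Fintype W]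
    [DecidableEq W] (S : Finset (P → W)) (w μ : ℕ) (hw : 1 ≤ w) (hμ : 1 ≤ μ)
    (hcap : ∀ p, (S.image fun x => x p).card ≤ w)
    (hfd : ∀ e, ∀ x ∈ S, ((S.filter fun x' => ∀ l, x' (I.src e l) = x (I.src e l)).image
      fun x' => x' (I.tgt e)).card ≤ μ) :
    (S.card : ℝ) ≤ (μ : ℝ) ^ Fintype.card Ln * (w : ℝ) ^ ((r : ℝ) - η) := by
  obtain ⟨j, hj⟩ := exists_num_UD6 (W := W) μ hμ
  set A : Ln → (P → W) → Finset W := fun e x =>
    (S.filter fun x' => ∀ l, x' (I.src e l) = x (I.src e l)).image fun x' => x' (I.tgt e) with hA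
  set idx : (P → W) → (Ln → Fin μ) := fun x e => j (A e x) (x (I.tgt e)) with hidx
  have hfib : ∀ c : Ln → Fin μ,
      ((S.filter fun x => idx x = c).card : ℝ) ≤ (w : ℝ) ^ ((r : ℝ) - η) := by
    intro c
    refine exact_bound_UD6 I hb _ w hw (fun p => ?_) ?_
    · exact le_trans (card_le_card (image_subset_image (filter_subset _ _))) (hcap p)
    · intro e x hx x' hx' h
      obtain ⟨hxS, hxc⟩ := mem_filter.1 hx
      obtain ⟨hxS', hxc'⟩ := mem_filter.1 hx'
      have hAe : A e x' = A e x := by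
        simp only [hA, h]
      have h1 : idx x e = idx x' e := by rw [hxc, hxc']
      simp only [hidx, hAe] at h1
      refine hj (A e x) (hfd e x hxS) (mem_coe.2 ?_) (mem_coe.2 ?_) h1
      · exact mem_image_of_mem _ (mem_filter.2 ⟨hxS, fun _ => rfl⟩)
      · exact mem_image_of_mem _ (mem_filter.2 ⟨hxS', fun l => (h l).symm⟩)
  have hsum : S.card = ∑ c : Ln → Fin μ, (S.filter fun x => idx x = c).card :=
    card_eq_sum_card_fiberwise fun x _ => mem_coe.2 (mem_univ (idx x))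
  calc (S.card : ℝ) = ∑ c : Ln → Fin μ, ((S.filter fun x => idx x = c).card : ℝ) := by
        rw [hsum]; push_cast; rfl
    _ ≤ ∑ _c : Ln → Fin μ, (w : ℝ) ^ ((r : ℝ) - η) := sum_le_sum fun c _ => hfib c
    _ = (μ : ℝ) ^ Fintype.card Ln * (w : ℝ) ^ ((r : ℝ) - η) := by
        simp [sum_const, card_univ, nsmul_eq_mul]

end Pool.Agent.SemiRandom.Und
end

-- part Pool.Agent.P.MP_c53d0e_pr.UD7
section

set_option autoImplicit false
set_option linter.unusedSectionVars false

namespace Pool.Agent.SemiRandom.Und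

open Finset

variable {r s : ℕ} {P Ln : Type} [Fintype P] [DecidableEq P] [Fintype Ln] [DecidableEq Ln]

lemma card_image_le_UD7 {α β γ : Type} [DecidableEq β] [DecidableEq γ] (Y : Finset α)
    (f : α → β) (g : α → γ) (h : ∀ a ∈ Y, ∀ b ∈ Y, g a = g b → f a = f b) :
    (Y.image f).card ≤ (Y.image g).card := by
  rcases Y.eq_empty_or_nonempty with rfl | ⟨a0, -⟩
  · simp
  have : Nonempty α := ⟨a0⟩
  refine le_trans (card_le_card ?_)
    (card_image_le (s := Y.image g) (f := fun c => f (Function.invFunOn g (Y : Set α) c)))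
  intro b hb
  obtain ⟨a, ha, rfl⟩ := mem_image.1 hb
  refine mem_image.2 ⟨g a, mem_image_of_mem _ ha, ?_⟩
  exact h _ (Function.invFunOn_apply_mem (f := g) (s := (Y : Set α)) ha) _ ha
    (Function.invFunOn_apply_eq (f := g) (s := (Y : Set α)) ha)

lemma val_le_cnt_UD7 {V W : Type} [Fintype V] [DecidableEq V] [Fintype W] [DecidableEq W]
    (X : Finset (V → W)) (A : Finset V) (ρ : V → W) (v : V) :
    ((fib X A ρ).image fun φ => φ v).card ≤ cnt X A {v} :=
  (card_image_le_UD7 _ _ (res {v}) fun _ _ _ _ h =>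
    res_eq_iff.1 h v (mem_singleton_self v)).trans (le_cnt X A {v} ρ)

lemma log_max_UD7 {ι : Type} [Fintype ι] (f : ι → ℕ) {t : ℝ} (ht : 0 ≤ t)
    (h : ∀ i, Real.log (f i) ≤ t) : Real.log ((max 1 (univ.sup f) : ℕ) : ℝ) ≤ t := by
  rcases le_total (univ.sup f) 1 with h1 | h1
  · rw [max_eq_left h1]
    simpa using ht
  · rw [max_eq_right h1]
    have hne : (univ : Finset ι).Nonempty := by
      rw [nonempty_iff_ne_empty]
      intro e
      rw [e] at h1
      simp at h1
    obtain ⟨i, -, hi⟩ := exists_mem_eq_sup univ hne f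
    rw [hi]
    exact h i

theorem stat_nu (I : Inst (r + r) P Ln) {η : ℝ} (hb : I.Bound η) (hη : η ≤ r) {n : ℕ} (hn : 2 ≤ n)
    (h : List (RSet n r × Move n r s)) : Stat I s η (nu (ed I s) h) := by
  intro l A x y hx hy h1 h2
  have hL : 0 < Real.log n := Real.log_pos (by exact_mod_cast hn)
  have hrη : 0 ≤ 2 * (r : ℝ) - η := by linarith [(Nat.cast_nonneg r : (0 : ℝ) ≤ r)]
  simp only [nu, div_le_iff₀ hL] at h1 h2 ⊢
  generalize XX (ed I s) l h = X at h1 h2 ⊢
  have hw := log_max_UD7 _ (mul_nonneg hx hL.le) h1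
  have hμ := log_max_UD7 _ (mul_nonneg hy hL.le) h2
  have hw1 : ∀ p, cnt X A {Vx.pt p} ≤ max 1 (univ.sup fun p => cnt X A {Vx.pt p}) := fun p =>
    le_trans (le_sup (f := fun p => cnt X A {Vx.pt p}) (mem_univ p)) (le_max_right _ _)
  have hμ1 : ∀ e, cnt X (A ∪ SRC I e) {Vx.pt (I.tgt e)} ≤
      max 1 (univ.sup fun e => cnt X (A ∪ SRC I e) {Vx.pt (I.tgt e)}) := fun e =>
    le_trans (le_sup (f := fun e => cnt X (A ∪ SRC I e) {Vx.pt (I.tgt e)}) (mem_univ e))
      (le_max_right _ _)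
  have hw0 : 1 ≤ max 1 (univ.sup fun p => cnt X A {Vx.pt p}) := le_max_left _ _
  have hμ0 : 1 ≤ max 1 (univ.sup fun e => cnt X (A ∪ SRC I e) {Vx.pt (I.tgt e)}) :=
    le_max_left _ _
  generalize max 1 (univ.sup fun p => cnt X A {Vx.pt p}) = w at hw hw1 hw0
  generalize max 1 (univ.sup fun e => cnt X (A ∪ SRC I e) {Vx.pt (I.tgt e)}) = μ at hμ hμ1 hμ0
  rcases cnt_cases X A PP with hc | ⟨ρ, hc⟩
  · rw [hc, Nat.cast_one, Real.log_one]
    positivity
  have hS := approx_bound I hb ((fib X A ρ).image fun φ p => φ (Vx.pt p)) w μ hw0 hμ0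
    (fun p => by
      rw [image_image]
      exact (val_le_cnt_UD7 X A ρ (Vx.pt p)).trans (hw1 p))
    (fun e x0 hx0 => by
      obtain ⟨φ0, hφ0, rfl⟩ := mem_image.1 hx0
      refine le_trans (card_le_card ?_)
        ((val_le_cnt_UD7 X (A ∪ SRC I e) φ0 (Vx.pt (I.tgt e))).trans (hμ1 e))
      intro b hb'
      obtain ⟨x', hx', rfl⟩ := mem_image.1 hb'
      obtain ⟨hx1, hx2⟩ := mem_filter.1 hx'
      obtain ⟨φ, hφ, rfl⟩ := mem_image.1 hx1
      refine mem_image.2 ⟨φ, mem_fib.2 ⟨(mem_fib.1 hφ).1, fun v hv => ?_⟩, rfl⟩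
      rcases mem_union.1 hv with hv | hv
      · rw [(mem_fib.1 hφ).2 v hv, (mem_fib.1 hφ0).2 v hv]
      · obtain ⟨l', rfl⟩ := (mem_SRC I e v).1 hv
        exact hx2 l')
  have hle : cnt X A PP ≤ ((fib X A ρ).image fun φ p => φ (Vx.pt p)).card := by
    rw [hc]
    refine card_image_le_UD7 _ _ _ fun a _ b _ hab => res_eq_iff.2 fun v hv => ?_
    obtain ⟨p, rfl⟩ := (mem_PP v).1 hv
    exact congrFun hab p
  have hpos : (0 : ℝ) < cnt X A PP := by exact_mod_cast one_le_cnt X A PP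
  have hwp : (0 : ℝ) < w := by exact_mod_cast hw0
  have hμp : (0 : ℝ) < μ := by exact_mod_cast hμ0
  have key := Real.log_le_log hpos (le_trans (by exact_mod_cast hle) hS)
  rw [Real.log_mul (by positivity) (by positivity), Real.log_pow, Real.log_rpow hwp] at key
  rw [Nat.cast_add, ← two_mul] at key
  have e1 := mul_le_mul_of_nonneg_left hμ (Nat.cast_nonneg (α := ℝ) (Fintype.card Ln))
  have e2 := mul_le_mul_of_nonneg_left hw hrη
  nlinarith

end Pool.Agent.SemiRandom.Und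
end

-- part Pool.Agent.P.MP_c53d0e_pr.UD8
section

set_option autoImplicit false
set_option linter.unusedSectionVars false

namespace Pool.Agent.SemiRandom.Und

open Finset

variable {V E : Type} [Fintype V] [DecidableEq V] [Fintype E] [DecidableEq E] {r s : ℕ}
  {ed : E → Finset V}

/-- The pattern `l` is realised by `φ` in an initial part with few realisations. -/
def Cst_UD8 {n : ℕ} (ed : E → Finset V) (l : List (E × Finset V)) (b : ℝ) (φ : V → Fin n)
    (h : List (RSet n r × Move n r s)) : Prop :=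
  ∃ h1 h2, h = h1 ++ h2 ∧ Emb ed l φ h1 ∧ ((XX ed l h1).card : ℝ) ≤ b

lemma Cst_append_UD8 {n : ℕ} (l : List (E × Finset V)) (b : ℝ) (φ : V → Fin n)
    (h h' : List (RSet n r × Move n r s)) (H : Cst_UD8 ed l b φ h) :
    Cst_UD8 ed l b φ (h ++ h') := by
  obtain ⟨h1, h2, e, a1, a2⟩ := H
  exact ⟨h1, h2 ++ h', by rw [e, List.append_assoc], a1, a2⟩

open Classical in
lemma Cst_card_UD8 {n : ℕ} (l : List (E × Finset V)) {b : ℝ} (hb : 0 ≤ b)
    (h : List (RSet n r × Move n r s)) :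
    (∑ φ : V → Fin n, if Cst_UD8 ed l b φ h then (1 : ℝ) else 0) ≤ b := by
  rw [sum_boole]
  by_cases hne : (univ.filter fun φ : V → Fin n => Cst_UD8 ed l b φ h).Nonempty
  · let P : ℕ → Prop := fun k => ((XX ed l (h.take k)).card : ℝ) ≤ b
    have key : ∀ φ : V → Fin n, Cst_UD8 ed l b φ h →
        ∃ k, k ≤ h.length ∧ P k ∧ Emb ed l φ (h.take k) := by
      rintro φ ⟨h1, h2, e, a1, a2⟩
      have e1 : h.take h1.length = h1 := by rw [e, List.take_left]
      refine ⟨h1.length, by rw [e]; simp, ?_, ?_⟩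
      · show ((XX ed l (h.take h1.length)).card : ℝ) ≤ b
        rw [e1]; exact a2
      · rw [e1]; exact a1
    obtain ⟨φ0, h0⟩ := hne
    obtain ⟨k0, hk0, hP0, -⟩ := key φ0 (mem_filter.1 h0).2
    have hK : P (Nat.findGreatest P h.length) := Nat.findGreatest_spec hk0 hP0
    refine le_trans ?_ hK
    refine Nat.cast_le.2 (card_le_card fun φ hφ => ?_)
    obtain ⟨k, hk, hP, hE⟩ := key φ (mem_filter.1 hφ).2
    have hle : k ≤ Nat.findGreatest P h.length := Nat.le_findGreatest hk hP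
    rw [mem_XX]
    have e : h.take (Nat.findGreatest P h.length) =
        h.take k ++ (h.take (Nat.findGreatest P h.length)).drop k := by
      conv_lhs => rw [← List.take_append_drop k (h.take (Nat.findGreatest P h.length))]
      rw [List.take_take, min_eq_left hle]
    rw [e]
    exact hE.append _
  · rw [not_nonempty_iff_eq_empty.1 hne]
    simpa using hb

theorem win_le (hinj : Function.Injective ed) :
    ∃ c : ℝ, ∀ (n : ℕ) [Nonempty (RSet n r)] (S : Strategy (RSet n r) (Move n r s)) (T : ℕ)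
      (p γ : ℝ) (bd : ℕ → ℝ) (Good : List (RSet n r × Move n r s) → Prop),
      (T : ℝ) / Fintype.card (RSet n r) ≤ p → (∀ j, 0 ≤ bd j) → (∀ j, p ^ j * bd j ≤ γ) →
      (∀ h, Good h → ∀ ps, Valid ed r ps → (∀ e, e ∈ ps.map Prod.fst) →
        ∃ qs l, ps = qs ++ l ∧ ((XX ed l h).card : ℝ) ≤ bd qs.length) →
      Pr S T (ContainsV ed) ≤ Pr S T (fun h => ¬ Good h) + c * γ := by
  classical
  obtain ⟨F, hF⟩ := exists_patterns ed r
  let I : Finset (List (E × Finset V) × List (E × Finset V)) :=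
    F.biUnion fun ps => (range (ps.length + 1)).image fun j => (ps.take j, ps.drop j)
  have hI : ∀ qs l, Valid ed r (qs ++ l) → (qs, l) ∈ I := by
    intro qs l hv
    refine mem_biUnion.2 ⟨qs ++ l, hF _ hv, mem_image.2 ⟨qs.length, ?_, ?_⟩⟩
    · rw [mem_range, List.length_append]; omega
    · rw [List.take_left, List.drop_left]
  refine ⟨I.card, fun n _ S T p γ bd Good hT hbd hγ hG => ?_⟩
  let w : List (E × Finset V) → (V → Fin n) → Multiset (Finset (Fin n)) := fun qs φ =>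
    ((qs.map fun p => p.2.image φ : List (Finset (Fin n))) : Multiset (Finset (Fin n)))
  have pt : ∀ h : List (RSet n r × Move n r s), ind (ContainsV ed h) ≤ ind (¬ Good h) +
      ∑ τ ∈ I, ∑ φ : V → Fin n,
        if ∃ l1 l2, h = [] ++ l1 ++ l2 ∧ Cst_UD8 ed τ.2 (bd τ.1.length) φ ([] ++ l1) ∧
          w τ.1 φ ≤ draws Subtype.val l2 then (1 : ℝ) else 0 := by
    intro h
    have h0 : (0 : ℝ) ≤ ∑ τ ∈ I, ∑ φ : V → Fin n,
        if ∃ l1 l2, h = [] ++ l1 ++ l2 ∧ Cst_UD8 ed τ.2 (bd τ.1.length) φ ([] ++ l1) ∧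
          w τ.1 φ ≤ draws Subtype.val l2 then (1 : ℝ) else 0 :=
      sum_nonneg fun _ _ => sum_nonneg fun _ _ => by positivity
    by_cases hC : ContainsV ed h
    · by_cases hg : Good h
      · rw [ind_pos hC, ind_neg (not_not.2 hg), zero_add]
        obtain ⟨ps, φ, hv, hall, hE⟩ := extract hinj hC
        obtain ⟨qs, l, rfl, hb⟩ := hG h hg ps hv hall
        obtain ⟨h1, h2, e, hE1, hw⟩ := hE.split
        refine le_trans ?_ (single_le_sum (fun _ _ => sum_nonneg fun _ _ => by positivity)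
          (hI qs l hv))
        refine le_trans ?_ (single_le_sum (fun _ _ => by positivity) (mem_univ φ))
        rw [if_pos]
        refine ⟨h1, h2, by simpa using e, ⟨h1, [], by simp, hE1, le_trans ?_ hb⟩, hw⟩
        rw [e]
        exact Nat.cast_le.2 (card_le_card (XX_append l h1 h2))
      · rw [ind_pos hC, ind_pos hg]; linarith
    · rw [ind_neg hC]; linarith [ind_nonneg (¬ Good h)]
  unfold Pr
  refine (Ex_le S T [] pt).trans ?_
  rw [Ex_add, Ex_sum]
  refine add_le_add le_rfl ?_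
  refine (sum_le_sum (g := fun _ => γ) fun τ _ => ?_).trans ?_
  · rw [Ex_sum]
    have hw : ∀ φ, (w τ.1 φ).card = τ.1.length := fun φ => by simp [w]
    have hp0 : (0 : ℝ) ≤ (T : ℝ) / Fintype.card (RSet n r) := by positivity
    refine le_trans (sum_le_sum fun φ _ => (stop S Subtype.val Subtype.val_injective
      (Cst_UD8 ed τ.2 (bd τ.1.length) φ) (fun h l H => Cst_append_UD8 _ _ _ h l H) (w τ.1 φ) T
        []).trans
      (mul_le_mul_of_nonneg_right (pow_le_pow_left₀ hp0 hT _)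
        (Ex_nonneg S _ _ _ fun l => by positivity))) ?_
    simp only [hw]
    rw [← mul_sum, ← Ex_sum]
    refine le_trans (mul_le_mul_of_nonneg_left ?_ (pow_nonneg (hp0.trans hT) _)) (hγ τ.1.length)
    exact (Ex_le S T [] fun h => Cst_card_UD8 τ.2 (hbd _) h).trans
      (Ex_const S T [] (bd τ.1.length)).le
  · rw [sum_const, nsmul_eq_mul]

end Pool.Agent.SemiRandom.Und
end

-- part Pool.Agent.P.MP_c53d0e_pr.UDZ
section

set_option autoImplicit false
set_option linter.unusedSectionVars false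

namespace Pool.Agent.SemiRandom.Und

open Finset

open Filter Topology

variable {r s : ℕ} {P Ln : Type} [Fintype P] [DecidableEq P] [Fintype Ln] [DecidableEq Ln]

lemma lim_UDZ (a : ℕ) {ε C : ℝ} (hε : 0 < ε) (hC : 0 < C) :
    Tendsto (fun n : ℕ => (n : ℝ) ^ a / (2 : ℝ) ^ ((n : ℝ) ^ ε / C)) atTop (𝓝 0) := by
  have hb : 0 < Real.log 2 / C := div_pos (Real.log_pos one_lt_two) hC
  have h1 := (tendsto_rpow_mul_exp_neg_mul_atTop_nhds_zero ((a : ℝ) / ε) _ hb).comp
    ((tendsto_rpow_atTop hε).comp tendsto_natCast_atTop_atTop)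
  refine h1.congr fun n => ?_
  simp only [Function.comp]
  have hn : (0 : ℝ) ≤ n := n.cast_nonneg
  rw [← Real.rpow_mul hn, mul_div_cancel₀ _ hε.ne', Real.rpow_natCast,
    Real.rpow_def_of_pos two_pos, div_eq_mul_inv _ (Real.exp _), ← Real.exp_neg]
  congr 2
  ring

theorem no_lose (hO : Ok r s P Ln) (I : Inst (r + r) P Ln) (hbi : Function.Injective I.bas)
    (hN : I.No) : ∃ δ : ℝ, δ < 1 / 2 ∧ ∀ q : ℝ, 0 < q → ∀ᶠ n : ℕ in atTop,
      ∀ (S : Strategy (RSet n r) (Move n r s)) (T : ℕ),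
        (T : ℝ) / n.choose r ≤ (n : ℝ) ^ (-δ) → Pr S T (ContainsV (ed I s)) < q := by
  obtain ⟨η, hη0, hη1, hb⟩ := hN
  have hr : (2 : ℝ) ≤ r := by exact_mod_cast hO.hr
  have hl : (0 : ℝ) ≤ Fintype.card Ln := Nat.cast_nonneg _
  have hrs : r < s := hO.lt
  have hs1 : 1 ≤ s := by omega
  have hs0 : (0 : ℝ) < s := by exact_mod_cast hs1
  have hss : (0 : ℝ) < (s : ℝ) ^ s := pow_pos hs0 s
  have hD : (0 : ℝ) < 120 * r * (Fintype.card Ln + 1) := by positivity
  set ζ : ℝ := η / (120 * r * (Fintype.card Ln + 1)) with hζ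
  have hζ0 : 0 < ζ := div_pos hη0 hD
  have hζe : 30 * r * (Fintype.card Ln + 1) * ζ = η / 4 := by
    rw [hζ]; field_simp; ring
  have hζ1 : ζ ≤ 1 / 20 := by
    rw [hζ, div_le_iff₀ hD]
    nlinarith [mul_nonneg (by linarith : (0 : ℝ) ≤ r) hl]
  have hP : Par (1 / 2 - ζ) ζ ζ := ⟨hζ0.le, le_rfl, le_rfl, by linarith, hζ1⟩
  obtain ⟨c1, hc1⟩ := ruleS_prob (ed := ed I s) (r := r) hrs.le hs1 (card_ed hO I)
  obtain ⟨c2, hc2⟩ := win_le (ed := ed I s) (r := r) (s := s) (ed_inj hO I hbi)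
  refine ⟨1 / 2 - ζ, by linarith, fun q hq => ?_⟩
  have t1 := (lim_UDZ (3 * Fintype.card (Vx r s P Ln)) hζ0 hss).const_mul c1
  have t2 : Tendsto (fun n : ℕ => c2 * (n : ℝ) ^ (-(η / 4))) atTop (𝓝 (c2 * 0)) :=
    ((tendsto_rpow_neg_atTop (by linarith : 0 < η / 4)).comp
      tendsto_natCast_atTop_atTop).const_mul c2
  have t3 := (t1.add t2).eventually (gt_mem_nhds (show c1 * 0 + c2 * 0 < q by simpa using hq))
  have t4 : Tendsto (fun n : ℕ => (n : ℝ) ^ ζ / (s : ℝ) ^ s) atTop atTop :=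
    ((tendsto_rpow_atTop hζ0).comp tendsto_natCast_atTop_atTop).atTop_div_const hss
  filter_upwards [t3, t4.eventually_ge_atTop 2, eventually_ge_atTop 2, eventually_ge_atTop r]
    with n h3 h4 hn2 hnr S T hT
  have hcard : Fintype.card (RSet n r) = n.choose r := by
    rw [Fintype.card_finset_len, Fintype.card_fin]
  haveI : Nonempty (RSet n r) := by
    rw [← Fintype.card_pos_iff, hcard]; exact Nat.choose_pos hnr
  haveI : Nonempty (Fin n) := ⟨⟨0, by omega⟩⟩
  have hn0 : (0 : ℝ) < n := by exact_mod_cast (by omega : 0 < n)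
  have hn1 : (1 : ℝ) < n := by exact_mod_cast (by omega : 1 < n)
  have hT' : (T : ℝ) / Fintype.card (RSet n r) ≤ (n : ℝ) ^ (-(1 / 2 - ζ)) := by
    rw [hcard]; exact hT
  have a1 := hc1 n (by omega) S T _ _ hT' h4
  have a2 := hc2 n S T ((n : ℝ) ^ (-(1 / 2 - ζ))) ((n : ℝ) ^ (-(η / 4)))
    (fun j => (n : ℝ) ^ ((1 / 2 - ζ) * j - η / 4))
    (RuleS (ed I s) ((n : ℝ) ^ ζ / (s : ℝ) ^ s) ((n : ℝ) ^ (-(1 / 2 - ζ)))) hT'
    (fun j => by positivity) (fun j => by
      rw [← Real.rpow_natCast, ← Real.rpow_mul hn0.le, ← Real.rpow_add hn0]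
      exact le_of_eq (by congr 1; ring)) (fun h hh ps hv hall => by
      have hC := calc_nu (ε := ζ) (δ := 1 / 2 - ζ) hn2 (by linarith)
        (le_of_eq (div_mul_cancel₀ _ hss.ne')) le_rfl hh
      obtain ⟨qs, l, e, hν⟩ := claim hO hP hC (stat_nu I hb (by linarith) hn2 h) hη0.le hη1
        ps hv hall
      refine ⟨qs, l, e, ?_⟩
      have b1 : ((XX (ed I s) l h).card : ℝ) ≤ cnt (XX (ed I s) l h) ∅ univ := by
        exact_mod_cast card_le_cnt _
      refine b1.trans ?_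
      have b2 : (0 : ℝ) < cnt (XX (ed I s) l h) ∅ univ := by
        exact_mod_cast one_le_cnt _ _ _
      rw [hζe, nu, div_le_iff₀ (Real.log_pos hn1)] at hν
      rw [Real.le_rpow_iff_log_le b2 hn0]
      refine hν.trans (le_of_eq ?_)
      ring)
  rw [mul_div_assoc] at a1
  linarith

end Pool.Agent.SemiRandom.Und
end

-- part Pool.Agent.P.MP_c53d0e_pr.GB
section

set_option autoImplicit false
set_option linter.unusedSectionVars false

namespace Pool.Agent.SemiRandom.Und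

open Finset

open Filter Topology

variable {V E : Type} [Fintype V] [DecidableEq V] [Fintype E] [DecidableEq E] {r s : ℕ}
  {ed : E → Finset V}

/-- Number of edges of a pattern whose random part lies in `W`. -/
def inW (W : Finset V) (qs : List (E × Finset V)) : ℕ := (qs.filter fun q => q.2 ⊆ W).length

/-- `ψ` is the restriction to `W` of a realisation of `l` in an initial part with few
restrictions. -/
def Cst_GB {n : ℕ} (ed : E → Finset V) (l : List (E × Finset V)) (W : Finset V) (b : ℝ)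
    (ψ : V → Option (Fin n)) (h : List (RSet n r × Move n r s)) : Prop :=
  ∃ h1 h2, h = h1 ++ h2 ∧ ψ ∈ (XX ed l h1).image (res W) ∧
    (((XX ed l h1).image (res W)).card : ℝ) ≤ b

lemma Cst_append_GB {n : ℕ} (l : List (E × Finset V)) (W : Finset V) (b : ℝ)
    (ψ : V → Option (Fin n)) (h h' : List (RSet n r × Move n r s)) (H : Cst_GB ed l W b ψ h) :
    Cst_GB ed l W b ψ (h ++ h') := by
  obtain ⟨h1, h2, e, a1, a2⟩ := H
  exact ⟨h1, h2 ++ h', by rw [e, List.append_assoc], a1, a2⟩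

open Classical in
lemma Cst_card_GB {n : ℕ} (l : List (E × Finset V)) (W : Finset V) {b : ℝ} (hb : 0 ≤ b)
    (h : List (RSet n r × Move n r s)) :
    (∑ ψ : V → Option (Fin n), if Cst_GB ed l W b ψ h then (1 : ℝ) else 0) ≤ b := by
  rw [sum_boole]
  by_cases hne : (univ.filter fun ψ : V → Option (Fin n) => Cst_GB ed l W b ψ h).Nonempty
  · let P : ℕ → Prop := fun k => (((XX ed l (h.take k)).image (res W)).card : ℝ) ≤ b
    have key : ∀ ψ : V → Option (Fin n), Cst_GB ed l W b ψ h →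
        ∃ k, k ≤ h.length ∧ P k ∧ ψ ∈ (XX ed l (h.take k)).image (res W) := by
      rintro ψ ⟨h1, h2, e, a1, a2⟩
      have e1 : h.take h1.length = h1 := by rw [e, List.take_left]
      refine ⟨h1.length, by rw [e]; simp, ?_, ?_⟩
      · show (((XX ed l (h.take h1.length)).image (res W)).card : ℝ) ≤ b
        rw [e1]; exact a2
      · rw [e1]; exact a1
    obtain ⟨φ0, h0⟩ := hne
    obtain ⟨k0, hk0, hP0, -⟩ := key φ0 (mem_filter.1 h0).2
    have hK : P (Nat.findGreatest P h.length) := Nat.findGreatest_spec hk0 hP0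
    refine le_trans ?_ hK
    refine Nat.cast_le.2 (card_le_card fun φ hφ => ?_)
    obtain ⟨k, hk, hP, hE⟩ := key φ (mem_filter.1 hφ).2
    have hle : k ≤ Nat.findGreatest P h.length := Nat.le_findGreatest hk hP
    have e : h.take (Nat.findGreatest P h.length) =
        h.take k ++ (h.take (Nat.findGreatest P h.length)).drop k := by
      conv_lhs => rw [← List.take_append_drop k (h.take (Nat.findGreatest P h.length))]
      rw [List.take_take, min_eq_left hle]
    rw [e]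
    exact image_subset_image (XX_append l _ _) hE
  · rw [not_nonempty_iff_eq_empty.1 hne]
    simpa using hb

/-- The values of a restricted map on a set. -/
def img_GB {n : ℕ} (ψ : V → Option (Fin n)) (u : Finset V) : Finset (Fin n) :=
  u.biUnion fun v => (ψ v).toFinset

lemma img_res_GB {n : ℕ} {W u : Finset V} (hu : u ⊆ W) (φ : V → Fin n) :
    img_GB (res W φ) u = u.image φ := by
  ext y
  simp only [img_GB, mem_biUnion, mem_image, Option.mem_toFinset]
  refine exists_congr fun v => and_congr_right fun hv => ?_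
  simp [res, hu hv]

lemma image_res_le_cnt {n : ℕ} (X : Finset (V → Fin n)) (W : Finset V) :
    (X.image (res W)).card ≤ cnt X ∅ W := by
  rcases X.eq_empty_or_nonempty with rfl | ⟨φ, -⟩
  · simp
  · refine le_trans (le_of_eq ?_) (le_cnt X ∅ W φ)
    congr 2
    ext ψ
    simp [mem_fib]

/-- Bottleneck bound in projection form. -/
theorem win_le_proj (hinj : Function.Injective ed) :
    ∃ c : ℝ, ∀ (n : ℕ) [Nonempty (RSet n r)] (S : Strategy (RSet n r) (Move n r s)) (T : ℕ)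
      (p γ : ℝ) (bd : ℕ → ℝ) (Good : List (RSet n r × Move n r s) → Prop),
      (T : ℝ) / Fintype.card (RSet n r) ≤ p → (∀ j, 0 ≤ bd j) → (∀ j, p ^ j * bd j ≤ γ) →
      (∀ h, Good h → ∀ ps, Valid ed r ps → (∀ e, e ∈ ps.map Prod.fst) →
        ∃ qs l W, ps = qs ++ l ∧ (cnt (XX ed l h) ∅ W : ℝ) ≤ bd (inW W qs)) →
      Pr S T (ContainsV ed) ≤ Pr S T (fun h => ¬ Good h) + c * γ := by
  classical
  obtain ⟨F, hF⟩ := exists_patterns ed r
  let I0 : Finset (List (E × Finset V) × List (E × Finset V)) :=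
    F.biUnion fun ps => (range (ps.length + 1)).image fun j => (ps.take j, ps.drop j)
  have hI0 : ∀ qs l, Valid ed r (qs ++ l) → (qs, l) ∈ I0 := by
    intro qs l hv
    refine mem_biUnion.2 ⟨qs ++ l, hF _ hv, mem_image.2 ⟨qs.length, ?_, ?_⟩⟩
    · rw [mem_range, List.length_append]; omega
    · rw [List.take_left, List.drop_left]
  let I : Finset ((List (E × Finset V) × List (E × Finset V)) × Finset V) := I0 ×ˢ univ
  refine ⟨I.card, fun n _ S T p γ bd Good hT hbd hγ hG => ?_⟩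
  let w : List (E × Finset V) → Finset V → (V → Option (Fin n)) → Multiset (Finset (Fin n)) :=
    fun qs W ψ => (((qs.filter fun q => q.2 ⊆ W).map fun q => img_GB ψ q.2 :
      List (Finset (Fin n))) : Multiset (Finset (Fin n)))
  have pt : ∀ h : List (RSet n r × Move n r s), ind (ContainsV ed h) ≤ ind (¬ Good h) +
      ∑ τ ∈ I, ∑ ψ : V → Option (Fin n),
        if ∃ l1 l2, h = [] ++ l1 ++ l2 ∧ Cst_GB ed τ.1.2 τ.2 (bd (inW τ.2 τ.1.1)) ψ ([] ++ l1) ∧
          w τ.1.1 τ.2 ψ ≤ draws Subtype.val l2 then (1 : ℝ) else 0 := by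
    intro h
    have h0 : (0 : ℝ) ≤ ∑ τ ∈ I, ∑ ψ : V → Option (Fin n),
        if ∃ l1 l2, h = [] ++ l1 ++ l2 ∧ Cst_GB ed τ.1.2 τ.2 (bd (inW τ.2 τ.1.1)) ψ ([] ++ l1) ∧
          w τ.1.1 τ.2 ψ ≤ draws Subtype.val l2 then (1 : ℝ) else 0 :=
      sum_nonneg fun _ _ => sum_nonneg fun _ _ => by positivity
    by_cases hC : ContainsV ed h
    · by_cases hg : Good h
      · rw [ind_pos hC, ind_neg (not_not.2 hg), zero_add]
        obtain ⟨ps, φ, hv, hall, hE⟩ := extract hinj hC
        obtain ⟨qs, l, W, rfl, hb⟩ := hG h hg ps hv hall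
        obtain ⟨h1, h2, e, hE1, hw⟩ := hE.split
        refine le_trans ?_ (single_le_sum (fun _ _ => sum_nonneg fun _ _ => by positivity)
          (mem_product.2 ⟨hI0 qs l hv, mem_univ W⟩ : ((qs, l), W) ∈ I))
        refine le_trans ?_ (single_le_sum (fun _ _ => by positivity) (mem_univ (res W φ)))
        rw [if_pos]
        refine ⟨h1, h2, by simpa using e, ⟨h1, [], by simp,
          mem_image_of_mem _ (mem_XX.2 hE1), le_trans ?_ hb⟩, le_trans ?_ hw⟩
        · rw [e]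
          exact Nat.cast_le.2 ((image_res_le_cnt _ W).trans
            (cnt_mono_left (XX_append l h1 h2) _ _))
        · have e2 : ((qs.filter fun q => q.2 ⊆ W).map fun q => img_GB (res W φ) q.2) =
              (qs.filter fun q => q.2 ⊆ W).map fun q => q.2.image φ :=
            List.map_congr_left fun q hq => img_res_GB (by simpa using (List.mem_filter.1 hq).2) φ
          simp only [w]
          rw [e2]
          exact Multiset.coe_le.2 (List.filter_sublist.map _).subperm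
      · rw [ind_pos hC, ind_pos hg]; linarith
    · rw [ind_neg hC]; linarith [ind_nonneg (¬ Good h)]
  unfold Pr
  refine (Ex_le S T [] pt).trans ?_
  rw [Ex_add, Ex_sum]
  refine add_le_add le_rfl ?_
  refine (sum_le_sum (g := fun _ => γ) fun τ _ => ?_).trans ?_
  · rw [Ex_sum]
    have hw : ∀ ψ, (w τ.1.1 τ.2 ψ).card = inW τ.2 τ.1.1 := fun φ => by simp [w, inW]
    have hp0 : (0 : ℝ) ≤ (T : ℝ) / Fintype.card (RSet n r) := by positivity
    refine le_trans (sum_le_sum fun ψ _ => (stop S Subtype.val Subtype.val_injective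
      (Cst_GB ed τ.1.2 τ.2 (bd (inW τ.2 τ.1.1)) ψ) (fun h l H => Cst_append_GB _ _ _ _ h l H)
        (w τ.1.1 τ.2 ψ) T []).trans
      (mul_le_mul_of_nonneg_right (pow_le_pow_left₀ hp0 hT _)
        (Ex_nonneg S _ _ _ fun l => by positivity))) ?_
    simp only [hw]
    rw [← mul_sum, ← Ex_sum]
    refine le_trans (mul_le_mul_of_nonneg_left ?_ (pow_nonneg (hp0.trans hT) _))
      (hγ (inW τ.2 τ.1.1))
    exact (Ex_le S T [] fun h => Cst_card_GB τ.1.2 τ.2 (hbd _) h).trans
      (Ex_const S T [] (bd (inW τ.2 τ.1.1))).le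
  · rw [sum_const, nsmul_eq_mul]

/-- If every complete pattern has a bottleneck, the player loses. -/
theorem lose_of_bottleneck (hrs : r < s) (hcard : ∀ e, (ed e).card = s)
    (hinj : Function.Injective ed) {δ ε γ : ℝ} (hε : 0 < ε) (hγ : 0 < γ)
    (R : (List (E × Finset V) → Finset V → Finset V → ℝ) → Prop)
    (hR : ∀ n, 2 ≤ n → ∀ h : List (RSet n r × Move n r s), R (nu ed h))
    (H : ∀ ν, Calc ed r δ ε ν → R ν → ∀ ps, Valid ed r ps → (∀ e, e ∈ ps.map Prod.fst) →
      ∃ qs l W, ps = qs ++ l ∧ ν l ∅ W ≤ δ * inW W qs - γ) :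
    ∀ q : ℝ, 0 < q → ∀ᶠ n : ℕ in atTop, ∀ (S : Strategy (RSet n r) (Move n r s)) (T : ℕ),
      (T : ℝ) / n.choose r ≤ (n : ℝ) ^ (-δ) → Pr S T (ContainsV ed) < q := by
  have hs1 : 1 ≤ s := by omega
  have hs0 : (0 : ℝ) < s := by exact_mod_cast hs1
  have hss : (0 : ℝ) < (s : ℝ) ^ s := pow_pos hs0 s
  obtain ⟨c1, hc1⟩ := ruleS_prob (ed := ed) (r := r) hrs.le hs1 hcard
  obtain ⟨c2, hc2⟩ := win_le_proj (ed := ed) (r := r) (s := s) hinj
  intro q hq
  have t1 := (lim_UDZ (3 * Fintype.card V) hε hss).const_mul c1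
  have t2 : Tendsto (fun n : ℕ => c2 * (n : ℝ) ^ (-γ)) atTop (𝓝 (c2 * 0)) :=
    ((tendsto_rpow_neg_atTop hγ).comp tendsto_natCast_atTop_atTop).const_mul c2
  have t3 := (t1.add t2).eventually (gt_mem_nhds (show c1 * 0 + c2 * 0 < q by simpa using hq))
  have t4 : Tendsto (fun n : ℕ => (n : ℝ) ^ ε / (s : ℝ) ^ s) atTop atTop :=
    ((tendsto_rpow_atTop hε).comp tendsto_natCast_atTop_atTop).atTop_div_const hss
  filter_upwards [t3, t4.eventually_ge_atTop 2, eventually_ge_atTop 2, eventually_ge_atTop r]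
    with n h3 h4 hn2 hnr S T hT
  have hcard' : Fintype.card (RSet n r) = n.choose r := by
    rw [Fintype.card_finset_len, Fintype.card_fin]
  have : Nonempty (RSet n r) := by
    rw [← Fintype.card_pos_iff, hcard']; exact Nat.choose_pos hnr
  have hn0 : (0 : ℝ) < n := by exact_mod_cast (by omega : 0 < n)
  have hn1 : (1 : ℝ) < n := by exact_mod_cast (by omega : 1 < n)
  have hT' : (T : ℝ) / Fintype.card (RSet n r) ≤ (n : ℝ) ^ (-δ) := by
    rw [hcard']; exact hT
  have a1 := hc1 n (by omega) S T _ _ hT' h4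
  have a2 := hc2 n S T ((n : ℝ) ^ (-δ)) ((n : ℝ) ^ (-γ))
    (fun j => (n : ℝ) ^ (δ * j - γ))
    (RuleS ed ((n : ℝ) ^ ε / (s : ℝ) ^ s) ((n : ℝ) ^ (-δ))) hT'
    (fun j => by positivity) (fun j => by
      rw [← Real.rpow_natCast, ← Real.rpow_mul hn0.le, ← Real.rpow_add hn0]
      exact le_of_eq (by congr 1; ring)) (fun h hh ps hv hall => by
      have hC := calc_nu (ε := ε) (δ := δ) hn2 (by linarith)
        (le_of_eq (div_mul_cancel₀ _ hss.ne')) le_rfl hh
      obtain ⟨qs, l, W, e, hν⟩ := H _ hC (hR n hn2 h) ps hv hall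
      refine ⟨qs, l, W, e, ?_⟩
      have b2 : (0 : ℝ) < cnt (XX ed l h) ∅ W := by
        exact_mod_cast one_le_cnt _ _ _
      rw [nu, div_le_iff₀ (Real.log_pos hn1)] at hν
      rw [Real.le_rpow_iff_log_le b2 hn0]
      exact hν)
  rw [mul_div_assoc] at a1
  linarith

end Pool.Agent.SemiRandom.Und
end

-- part Pool.Agent.P.MP_c53d0e_pr.WG4
section

set_option autoImplicit false
set_option linter.unusedSectionVars false

namespace Pool.Agent.SemiRandom.Fix

open Finset Und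

open Filter Topology

variable {V E : Type} [Fintype V] [DecidableEq V] [Fintype E] [DecidableEq E] {r s : ℕ}
  {ed : E → Finset V} {K : ℕ} {P Ln : Type} [Fintype P] [DecidableEq P] [Fintype Ln]
  [DecidableEq Ln]

theorem stat_nuG (I : Inst K P Ln) (pt : P → V) {η : ℝ} (hb : I.Bound η) (hη : η ≤ K) {n : ℕ}
    (hn : 2 ≤ n) (h : List (RSet n r × Move n r s)) : StatG I pt η (nu ed h) := by
  intro l A x y hx hy h1 h2
  have hL : 0 < Real.log n := Real.log_pos (by exact_mod_cast hn)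
  have hrη : 0 ≤ (K : ℝ) - η := by linarith
  simp only [nu, div_le_iff₀ hL] at h1 h2 ⊢
  generalize XX ed l h = X at h1 h2 ⊢
  have hw := log_max_UD7 _ (mul_nonneg hx hL.le) h1
  have hμ := log_max_UD7 _ (mul_nonneg hy hL.le) h2
  have hw1 : ∀ p, cnt X A {pt p} ≤ max 1 (univ.sup fun p => cnt X A {pt p}) := fun p =>
    le_trans (le_sup (f := fun p => cnt X A {pt p}) (mem_univ p)) (le_max_right _ _)
  have hμ1 : ∀ e, cnt X (A ∪ univ.image fun i => pt (I.src e i)) {pt (I.tgt e)} ≤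
      max 1 (univ.sup fun e => cnt X (A ∪ univ.image fun i => pt (I.src e i)) {pt (I.tgt e)}) :=
    fun e => le_trans (le_sup (f := fun e =>
      cnt X (A ∪ univ.image fun i => pt (I.src e i)) {pt (I.tgt e)}) (mem_univ e))
      (le_max_right _ _)
  have hw0 : 1 ≤ max 1 (univ.sup fun p => cnt X A {pt p}) := le_max_left _ _
  have hμ0 : 1 ≤ max 1 (univ.sup fun e =>
      cnt X (A ∪ univ.image fun i => pt (I.src e i)) {pt (I.tgt e)}) := le_max_left _ _
  generalize max 1 (univ.sup fun p => cnt X A {pt p}) = w at hw hw1 hw0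
  generalize max 1 (univ.sup fun e =>
    cnt X (A ∪ univ.image fun i => pt (I.src e i)) {pt (I.tgt e)}) = μ at hμ hμ1 hμ0
  rcases cnt_cases X A (univ.image pt) with hc | ⟨ρ, hc⟩
  · rw [hc, Nat.cast_one, Real.log_one]
    positivity
  have hS := approx_bound I hb ((fib X A ρ).image fun φ p => φ (pt p)) w μ hw0 hμ0
    (fun p => by
      rw [image_image]
      exact (val_le_cnt_UD7 X A ρ (pt p)).trans (hw1 p))
    (fun e x0 hx0 => by
      obtain ⟨φ0, hφ0, rfl⟩ := mem_image.1 hx0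
      refine le_trans (card_le_card ?_) ((val_le_cnt_UD7 X
        (A ∪ univ.image fun i => pt (I.src e i)) φ0 (pt (I.tgt e))).trans (hμ1 e))
      intro b hb'
      obtain ⟨x', hx', rfl⟩ := mem_image.1 hb'
      obtain ⟨hx1, hx2⟩ := mem_filter.1 hx'
      obtain ⟨φ, hφ, rfl⟩ := mem_image.1 hx1
      refine mem_image.2 ⟨φ, mem_fib.2 ⟨(mem_fib.1 hφ).1, fun v hv => ?_⟩, rfl⟩
      rcases mem_union.1 hv with hv | hv
      · rw [(mem_fib.1 hφ).2 v hv, (mem_fib.1 hφ0).2 v hv]
      · obtain ⟨l', -, rfl⟩ := mem_image.1 hv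
        exact hx2 l')
  have hle : cnt X A (univ.image pt) ≤ ((fib X A ρ).image fun φ p => φ (pt p)).card := by
    rw [hc]
    refine card_image_le_UD7 _ _ _ fun a _ b _ hab => res_eq_iff.2 fun v hv => ?_
    obtain ⟨p, -, rfl⟩ := mem_image.1 hv
    exact congrFun hab p
  have hpos : (0 : ℝ) < cnt X A (univ.image pt) := by exact_mod_cast one_le_cnt X A _
  have hwp : (0 : ℝ) < w := by exact_mod_cast hw0
  have hμp : (0 : ℝ) < μ := by exact_mod_cast hμ0
  have key := Real.log_le_log hpos (le_trans (by exact_mod_cast hle) hS)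
  rw [Real.log_mul (by positivity) (by positivity), Real.log_pow, Real.log_rpow hwp] at key
  have e1 := mul_le_mul_of_nonneg_left hμ (Nat.cast_nonneg (α := ℝ) (Fintype.card Ln))
  have e2 := mul_le_mul_of_nonneg_left hw hrη
  nlinarith

/-- If no complete play without bottleneck exists, the player loses. -/
theorem lose_of_no_play (hrs : r < s) (hinj : Function.Injective ed)
    (hcard : ∀ e, (ed e).card = s) (I : Inst K P Ln) (pt : P → V) {η δ ζ : ℝ} (hb : I.Bound η)
    (hη : η ≤ K) (hζ : 0 < ζ) (hζδ : ζ ≤ δ)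
    (H : ∀ G : Play ed r δ ζ, StatG I pt η G.ν → False) (q : ℝ) (hq : 0 < q) :
    ∀ᶠ n : ℕ in atTop, ∀ (S : Strategy (RSet n r) (Move n r s)) (T : ℕ),
      (T : ℝ) / n.choose r ≤ (n : ℝ) ^ (-(δ - ζ)) → Pr S T (ContainsV ed) < q := by
  refine lose_of_bottleneck hrs hcard hinj (δ := δ - ζ) hζ hζ (StatG I pt η)
    (fun n hn h => stat_nuG I pt hb hη hn h) (fun ν hC hR ps hv hall => ?_) q hq
  by_contra hno
  have k : ∀ e, ∃ u, (e, u) ∈ ps := fun e => by
    obtain ⟨p, hp, rfl⟩ := List.mem_map.1 (hall e)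
    exact ⟨p.2, hp⟩
  choose key hkey using k
  have hk : ∀ p ∈ ps, p.2 = key p.1 := fun p hp =>
    congrArg Prod.snd (List.inj_on_of_nodup_map hv.1 hp (hkey p.1) rfl)
  refine H ⟨ν, ps, key, hζ, hζδ, hC, hv, fun e => mem_pl.2 ⟨_, hkey e, rfl⟩, hk, ?_⟩ hR
  rintro l W ⟨qs, rfl⟩
  by_contra hlt
  refine hno ⟨qs, l, W, rfl, (not_lt.1 hlt).trans (le_of_eq ?_)⟩
  have nd := hv.1
  rw [List.map_append] at nd
  have nd1 : ((qs.filter fun q => q.2 ⊆ W).map Prod.fst).Nodup :=
    (List.filter_sublist.map _).nodup nd.of_append_left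
  have e1 : (univ.filter fun e => e ∉ pl l ∧ key e ⊆ W) =
      ((qs.filter fun q => q.2 ⊆ W).map Prod.fst).toFinset := by
    ext e
    simp only [mem_filter, mem_univ, true_and, List.mem_toFinset, List.mem_map, List.mem_filter,
      decide_eq_true_eq]
    constructor
    · rintro ⟨a, b⟩
      rcases List.mem_append.1 (hkey e) with h | h
      · exact ⟨_, ⟨h, b⟩, rfl⟩
      · exact absurd (mem_pl.2 ⟨_, h, rfl⟩) a
    · rintro ⟨p, ⟨a, b⟩, rfl⟩
      refine ⟨fun h => ?_, by rwa [← hk p (List.mem_append_left _ a)]⟩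
      exact List.disjoint_of_nodup_append nd (List.mem_map_of_mem a) (List.mem_toFinset.1 h)
  rw [e1, List.toFinset_card_of_nodup nd1, List.length_map, inW]

end Pool.Agent.SemiRandom.Fix
end

-- part Pool.Agent.P.MP_c53d0e_pr.WN8
section

set_option autoImplicit false
set_option linter.unusedSectionVars false

namespace Pool.Agent.SemiRandom.Fix

open Finset Und

open Filter Topology

variable {r s N : ℕ} {P Ln : Type} [NeZero r] [Fintype P] [DecidableEq P] [Fintype Ln]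
  [DecidableEq Ln] {D : Dat r N P Ln} {ζ : ℝ}

theorem no_lose (hO : Ok r s) (D : Dat r N P Ln) (hG : D.Good) (hN : D.I.No) :
    ∃ δ : ℝ, δ < de r ∧ ∀ q : ℝ, 0 < q → ∀ᶠ n : ℕ in atTop,
      ∀ (S : Strategy (RSet n r) (Move n r s)) (T : ℕ),
        (T : ℝ) / n.choose r ≤ (n : ℝ) ^ (-δ) → Pr S T (ContainsV (ed D s)) < q := by
  obtain ⟨η, hη0, hη1, hb⟩ := hN
  have hh0 := hh_pos r
  have hc : (0 : ℝ) < 100 * (Fintype.card Ln + 1) * (Fintype.card (Ed r N P Ln) + 1) := by
    positivity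
  have hc1 : (1 : ℝ) ≤ 100 * (Fintype.card Ln + 1) * (Fintype.card (Ed r N P Ln) + 1) := by
    have a : (0 : ℝ) ≤ Fintype.card Ln := Nat.cast_nonneg _
    have b : (0 : ℝ) ≤ Fintype.card (Ed r N P Ln) := Nat.cast_nonneg _
    nlinarith [mul_nonneg a b]
  set ζ : ℝ := η * hh r / (100 * (Fintype.card Ln + 1) * (Fintype.card (Ed r N P Ln) + 1))
    with hζ
  have z0 : 0 < ζ := div_pos (mul_pos hη0 hh0) hc
  have z1 : ζ ≤ de r := by
    have a : ζ ≤ η * hh r := div_le_self (mul_pos hη0 hh0).le hc1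
    have b := (de_bd hO).1
    nlinarith
  refine ⟨de r - ζ, by linarith, fun q hq => ?_⟩
  refine lose_of_no_play hO.hs (ed_inj hO D) (card_ed hO D) D.I (fun p => Vx.nv (.pt p)) hb
    (by push_cast; linarith) z0 z1 (fun G hst => no_play hO hG hη0 (by linarith) ?_ G hst) q hq
  rw [er, hζ]
  exact le_of_eq (by field_simp)

end Pool.Agent.SemiRandom.Fix
end

-- part Pool.Agent.P.MP_c53d0e_pr.UE0
section

set_option autoImplicit false
set_option linter.unusedSectionVars false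

namespace Pool.Agent.SemiRandom.Und

open Finset

section reach
variable {α β : Type} [Fintype α] [Fintype β] [Nonempty α] [Nonempty β]

/-- Properties of histories that persist. -/
def Mono {X : Type} (A : List X → Prop) : Prop := ∀ h l, A h → A (h ++ l)

lemma Reach.ex {T : ℕ} {ι : Type} {A : ι → List (α × β) → Prop} {B : List (α × β) → Prop} {ε : ℝ}
    (H : ∀ i, Reach T (A i) B ε) : Reach T (fun h => ∃ i, A i h) B ε :=
  fun h ⟨i, hi⟩ => H i h hi

lemma Reach.of_forall {T : ℕ} {A B : List (α × β) → Prop} {ε : ℝ}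
    (H : ∀ h0, A h0 → Reach T (fun h => h = h0) B ε) : Reach T A B ε :=
  fun h hA => H h hA h rfl

lemma Reach.pre {T : ℕ} {A A' B : List (α × β) → Prop} {ε : ℝ} (H : Reach T A B ε)
    (h : ∀ l, A' l → A l) : Reach T A' B ε := fun l hl => H l (h l hl)

lemma Reach.imp {T : ℕ} {A B B' : List (α × β) → Prop} {ε : ℝ} (H : Reach T A B ε)
    (h : ∀ l, B l → B' l) : Reach T A B' ε :=
  fun l hl => (H l hl).trans (Reach.post fun _ => h _)

/-- Frame rule: run a phase that needs no precondition, keep what persists. -/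
lemma Reach.frame {T : ℕ} {A B C : List (α × β) → Prop} {ε : ℝ}
    (H : Reach T (fun _ => True) B ε) (hA : Mono A) (h : ∀ l, A l → B l → C l) :
    Reach T A C ε :=
  fun l hl => (H l trivial).trans (Reach.post fun l' hB => h _ (hA l l' hl) hB)

lemma Reach.refl (A : List (α × β) → Prop) : Reach 0 A A 0 := by
  intro h hA
  simp [val, hA]

lemma Reach.finset {T : ℕ} {ι : Type} [DecidableEq ι] (I : Finset ι)
    (J : Finset ι → List (α × β) → Prop) {ε : ℝ} (hε : 0 ≤ ε)
    (H : ∀ D ⊆ I, ∀ a ∈ I, a ∉ D → Reach T (J D) (J (insert a D)) ε) :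
    Reach (I.card * T) (J ∅) (J I) (I.card * ε) := by
  have key : ∀ D, D ⊆ I → Reach (D.card * T) (J ∅) (J D) (D.card * ε) := by
    intro D
    induction D using Finset.induction_on with
    | empty => intro _; simpa using Reach.refl (J ∅)
    | insert a D ha ih =>
      intro hD
      have h1 := (ih ((subset_insert _ _).trans hD)).trans
        (H D ((subset_insert _ _).trans hD) a (hD (mem_insert_self _ _)) ha) hε
      rw [card_insert_of_notMem ha, add_mul, one_mul]
      push_cast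
      rw [add_mul, one_mul]
      exact h1
  exact key I Subset.rfl

lemma Reach.strategy {T : ℕ} {B : List (α × β) → Prop} {ε : ℝ}
    (H : Reach T (fun _ => True) B ε) : ∃ S : Strategy α β, 1 - ε ≤ Pr S T B := by
  obtain ⟨S, hS⟩ := exists_strategy T (fun h => ind (B h))
  exact ⟨S, (H [] trivial).trans hS.ge⟩

end reach

section pres
variable {V : Type} [DecidableEq V] {n m r s : ℕ}

/-- Vertex `v` takes its value in its own block. -/
def emb (κ : V × Fin m ↪ Fin n) (ψ : V → Fin m) : V ↪ Fin n :=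
  ⟨fun v => κ (v, ψ v), fun _ _ h => (Prod.mk.inj (κ.injective h)).1⟩

/-- The edge `e` is present under the placement `ψ`. -/
def Pres (κ : V × Fin m ↪ Fin n) (h : List (RSet n r × Move n r s)) (e : Finset V)
    (ψ : V → Fin m) : Prop := ∃ x ∈ h, edge x = (e.map (emb κ ψ)).val

lemma Pres.append {κ : V × Fin m ↪ Fin n} {h : List (RSet n r × Move n r s)} {e : Finset V}
    {ψ : V → Fin m} (H : Pres κ h e ψ) (l : List (RSet n r × Move n r s)) :
    Pres κ (h ++ l) e ψ := H.imp fun _ hx => ⟨List.mem_append_left _ hx.1, hx.2⟩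

lemma map_emb_congr (κ : V × Fin m ↪ Fin n) {e : Finset V} {ψ ψ' : V → Fin m}
    (H : ∀ v ∈ e, ψ v = ψ' v) : e.map (emb κ ψ) = e.map (emb κ ψ') := by
  ext y
  simp only [mem_map]
  exact exists_congr fun v => and_congr_right fun hv => by
    change κ (v, ψ v) = y ↔ κ (v, ψ' v) = y
    rw [H v hv]

lemma Pres.congr {κ : V × Fin m ↪ Fin n} {h : List (RSet n r × Move n r s)} {e : Finset V}
    {ψ ψ' : V → Fin m} (H : Pres κ h e ψ) (hψ : ∀ v ∈ e, ψ v = ψ' v) : Pres κ h e ψ' := by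
  unfold Pres at *
  rwa [← map_emb_congr κ hψ]

lemma agree_of_map_eq (κ : V × Fin m ↪ Fin n) {u : Finset V} {ψ ψ' : V → Fin m}
    (H : u.map (emb κ ψ) = u.map (emb κ ψ')) : ∀ v ∈ u, ψ v = ψ' v := by
  intro v hv
  have : emb κ ψ v ∈ u.map (emb κ ψ') := H ▸ mem_map_of_mem _ hv
  obtain ⟨v', -, h⟩ := mem_map.1 this
  obtain ⟨rfl, h2⟩ := Prod.mk.inj (κ.injective h)
  exact h2.symm

end pres

/-- Numeric side conditions of the strategy. -/
structure Num (r nl n m w f T : ℕ) (γ ε : ℝ) : Prop where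
  hf : 2 ≤ f
  hw : 1 ≤ w
  m1 : 2 * f ^ 2 ≤ m
  m2 : 2 ^ (r + nl * 2 + 3) * w * w ≤ m
  fw : f ≤ w
  g0 : 0 < γ
  g1 : γ * (2 * r) ≤ 1 / 2
  g2 : γ * (nl * (2 * r - 2 : ℕ)) ≤ 1 / 4
  e0 : 0 ≤ ε
  hT : 2 * (Fintype.card (RSet n r) : ℝ) ≤ ε * (γ * f * (T + 1))

section inv
open Function
variable {r s : ℕ} {P Ln : Type} [Fintype P] [DecidableEq P] [Fintype Ln] [DecidableEq Ln]
  {n m w : ℕ} (I : Inst (r + r) P Ln) (κ : Vx r s P Ln × Fin m ↪ Fin n)

/-- All edges of group `g` are present. -/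
def PG (g : Gp r P Ln) (ψ : Vx r s P Ln → Fin m) (h : List (RSet n r × Move n r s)) : Prop :=
  ∀ i : Fin g.M, Pres κ h (ed I s ⟨g, i⟩) ψ

def I2 (ψ : Vx r s P Ln → Fin m) (h : List (RSet n r × Move n r s)) : Prop :=
  PG I κ .Q ψ h ∧ ∀ i, PG I κ (.Y i) ψ h

def I3 (ψ : Vx r s P Ln → Fin m) (A : P → Finset (Fin m)) (h : List (RSet n r × Move n r s)) :
    Prop :=
  I2 I κ ψ h ∧ ∀ p, ∀ a ∈ A p, PG I κ (.U p) (update ψ (Vx.pt p) a) h

def Base (f : ℕ) (ψ : Vx r s P Ln → Fin m) (lab : P → Fin w → Fin m)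
    (Zs : Px r Ln → Fin w → Finset (Fin m)) (h : List (RSet n r × Move n r s)) : Prop :=
  I2 I κ ψ h ∧ (∀ p a, PG I κ (.U p) (update ψ (Vx.pt p) (lab p a)) h) ∧
    (∀ x a, f ≤ (Zs x a).card) ∧ (∀ x a a', a ≠ a' → Disjoint (Zs x a) (Zs x a')) ∧
    (∀ x a, ∀ b ∈ Zs x a,
      PG I κ (.En x) (update (update ψ (Vx.pt (I.par x)) (lab (I.par x) a)) (Vx.z x) b) h) ∧
    ∀ p, Injective (lab p)

def Lines (ψ : Vx r s P Ln → Fin m) (lab : P → Fin w → Fin m)
    (Zs : Px r Ln → Fin w → Finset (Fin m)) (S' : Finset (P → Fin w))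
    (Ψ : (P → Fin w) → Vx r s P Ln → Fin m) (D : Finset Ln)
    (h : List (RSet n r × Move n r s)) : Prop :=
  ∀ x ∈ S', (∀ j, Ψ x (Vx.c j) = ψ (Vx.c j)) ∧ (∀ i, Ψ x (Vx.y i) = ψ (Vx.y i)) ∧
    (∀ p, Ψ x (Vx.pt p) = lab p (x p)) ∧
    ∀ e ∈ D, (∀ l, Ψ x (Vx.z (Sum.inr (e, l))) ∈ Zs (Sum.inr (e, l)) (x (I.src e l))) ∧
      PG I κ (.L e) (Ψ x) h

def Tops (Zs : Px r Ln → Fin w → Finset (Fin m)) (S' : Finset (P → Fin w))
    (Ψ : (P → Fin w) → Vx r s P Ln → Fin m) (D : Finset (Fin r))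
    (h : List (RSet n r × Move n r s)) : Prop :=
  (∀ x ∈ S', ∀ b ∈ D, Ψ x (Vx.z (Sum.inl b)) ∈ Zs (Sum.inl b) (x (I.par (Sum.inl b))) ∧
    PG I κ (.W b) (Ψ x) h) ∧
  ∀ b ∈ D, ∀ x ∈ S', ∀ x' ∈ S', Ψ x (Vx.z (Sum.inl b)) = Ψ x' (Vx.z (Sum.inl b)) →
    x (I.par2 b) = x' (I.par2 b)

variable {I κ}

lemma PG.append {g : Gp r P Ln} {ψ : Vx r s P Ln → Fin m} {h : List (RSet n r × Move n r s)}
    (H : PG I κ g ψ h) (l : List (RSet n r × Move n r s)) : PG I κ g ψ (h ++ l) :=
  fun i => (H i).append l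

lemma PG.congr {g : Gp r P Ln} {ψ ψ' : Vx r s P Ln → Fin m} {h : List (RSet n r × Move n r s)}
    (H : PG I κ g ψ h) (hc : ∀ j, ψ (Vx.c j) = ψ' (Vx.c j)) (hN : ∀ v ∈ NN I s g, ψ v = ψ' v) :
    PG I κ g ψ' h := fun i => (H i).congr fun v hv => by
  rcases mem_union.1 (ed_subset I ⟨g, i⟩ hv) with h1 | h1
  · obtain ⟨j, rfl⟩ := (mem_CC v).1 h1
    exact hc j
  · exact hN v h1

lemma I2_mono (ψ : Vx r s P Ln → Fin m) : Mono (I2 (n := n) I κ ψ) :=
  fun _ l H => ⟨H.1.append l, fun i => (H.2 i).append l⟩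

lemma I3_mono (ψ : Vx r s P Ln → Fin m) (A : P → Finset (Fin m)) : Mono (I3 (n := n) I κ ψ A) :=
  fun h l H => ⟨I2_mono ψ h l H.1, fun p a ha => (H.2 p a ha).append l⟩

lemma Base_mono (f : ℕ) (ψ : Vx r s P Ln → Fin m) (lab : P → Fin w → Fin m)
    (Zs : Px r Ln → Fin w → Finset (Fin m)) : Mono (Base (n := n) I κ f ψ lab Zs) :=
  fun h l H => ⟨I2_mono ψ h l H.1, fun p a => (H.2.1 p a).append l, H.2.2.1, H.2.2.2.1,
    fun x a b hb => (H.2.2.2.2.1 x a b hb).append l, H.2.2.2.2.2⟩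

lemma Lines_mono (ψ : Vx r s P Ln → Fin m) (lab : P → Fin w → Fin m)
    (Zs : Px r Ln → Fin w → Finset (Fin m)) (S' : Finset (P → Fin w))
    (Ψ : (P → Fin w) → Vx r s P Ln → Fin m) (D : Finset Ln) :
    Mono (Lines (n := n) I κ ψ lab Zs S' Ψ D) :=
  fun _ l H x hx => ⟨(H x hx).1, (H x hx).2.1, (H x hx).2.2.1,
    fun e he => ⟨((H x hx).2.2.2 e he).1, ((H x hx).2.2.2 e he).2.append l⟩⟩

lemma Tops_mono (Zs : Px r Ln → Fin w → Finset (Fin m)) (S' : Finset (P → Fin w))
    (Ψ : (P → Fin w) → Vx r s P Ln → Fin m) (D : Finset (Fin r)) :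
    Mono (Tops (n := n) I κ Zs S' Ψ D) :=
  fun _ l H => ⟨fun x hx b hb => ⟨(H.1 x hx b hb).1, (H.1 x hx b hb).2.append l⟩, H.2⟩

end inv

end Pool.Agent.SemiRandom.Und
end

-- part Pool.Agent.P.MP_c53d0e_pr.UE1
section

set_option autoImplicit false
set_option linter.unusedSectionVars false

namespace Pool.Agent.SemiRandom.Und

open Finset

variable {α β : Type} [Fintype α] [Fintype β] [Nonempty α] [Nonempty β]

lemma drift (Φ : List (α × β) → ℝ) (D : List (α × β) → Prop) (hD : Mono D) {y b : ℝ} (hb : 0 < b)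
    (hy : ∀ h, Φ h ≤ y)
    (H : ∀ h, ¬ D h → ∃ σ : α → β, b * Fintype.card α ≤ ∑ U, (Φ (h ++ [(U, σ U)]) - Φ h))
    (T : ℕ) : ∀ h, 1 - (y - Φ h) / (b * (T + 1)) ≤ val T h (fun l => ind (D l)) := by
  have hA : (0 : ℝ) < Fintype.card α := card_pos'
  have done : ∀ (T : ℕ) h, D h →
      1 - (y - Φ h) / (b * (T + 1)) ≤ val T h (fun l => ind (D l)) := by
    intro T h hh
    have h1 : 0 ≤ (y - Φ h) / (b * (T + 1)) := div_nonneg (sub_nonneg.2 (hy h)) (by positivity)
    refine le_trans (by linarith) ((val_const_le 1 T h).trans (val_mono T h _ _ fun l => ?_))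
    rw [ind_pos (hD h l hh)]
  induction T with
  | zero =>
    intro h
    by_cases hh : D h
    · exact done 0 h hh
    obtain ⟨σ, hσ⟩ := H h hh
    refine le_trans ?_ (val_nonneg _ _ _ fun _ => ind_nonneg _)
    have h1 : ∑ U, (Φ (h ++ [(U, σ U)]) - Φ h) ≤ ∑ _U : α, (y - Φ h) :=
      sum_le_sum fun U _ => sub_le_sub_right (hy _) _
    rw [sum_const, card_univ, nsmul_eq_mul, mul_comm] at h1
    have h2 : b ≤ y - Φ h := le_of_mul_le_mul_right (hσ.trans h1) hA
    rw [sub_nonpos, one_le_div (by positivity)]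
    simp only [Nat.cast_zero, zero_add, mul_one]
    exact h2
  | succ T ih =>
    intro h
    by_cases hh : D h
    · exact done _ h hh
    obtain ⟨σ, hσ⟩ := H h hh
    set j : ℝ := y - Φ h with hj
    have hDp : 0 < b * (T + 1) := by positivity
    by_cases hbig : b * ((T + 1 : ℕ) + 1) ≤ j
    · refine le_trans ?_ (val_nonneg _ _ _ fun _ => ind_nonneg _)
      rw [sub_nonpos, one_le_div (by positivity)]
      exact hbig
    simp only [val]
    have step : ∀ U, 1 - j / (b * (T + 1)) + (Φ (h ++ [(U, σ U)]) - Φ h) * (1 / (b * (T + 1))) ≤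
        univ.sup' univ_nonempty fun V => val T (h ++ [(U, V)]) (fun l => ind (D l)) := by
      intro U
      refine le_trans (le_trans (le_of_eq ?_) (ih (h ++ [(U, σ U)]))) (le_sup' (fun V =>
        val T (h ++ [(U, V)]) (fun l => ind (D l))) (mem_univ (σ U)))
      rw [hj]
      ring
    rw [le_div_iff₀ hA]
    refine le_trans ?_ (sum_le_sum fun U _ => step U)
    rw [sum_add_distrib, sum_const, card_univ, nsmul_eq_mul, ← sum_mul]
    have a := mul_le_mul_of_nonneg_right hσ (show 0 ≤ 1 / (b * (T + 1)) by positivity)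
    have c : 1 - j / (b * ((T + 1 : ℕ) + 1)) ≤ 1 - j / (b * (T + 1)) + b * (1 / (b * (T + 1))) := by
      push_cast at hbig ⊢
      have : (j - b) / (b * (T + 1)) ≤ j / (b * (T + 1 + 1)) := by
        rw [div_le_div_iff₀ hDp (by positivity)]
        nlinarith
      rw [sub_div] at this
      rw [mul_one_div]
      linarith
    nlinarith

lemma drift_reach (Φ : List (α × β) → ℝ) (D : List (α × β) → Prop) (hD : Mono D) {y b ε : ℝ}
    (hb : 0 < b) (h0 : ∀ h, 0 ≤ Φ h) (hy : ∀ h, Φ h ≤ y)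
    (H : ∀ h, ¬ D h → ∃ σ : α → β, b * Fintype.card α ≤ ∑ U, (Φ (h ++ [(U, σ U)]) - Φ h))
    (T : ℕ) (hε : y ≤ ε * (b * (T + 1))) : Reach T (fun _ => True) D ε := by
  intro h _
  have h1 := drift Φ D hD hb hy H T h
  have h2 : (y - Φ h) / (b * (T + 1)) ≤ ε := by
    rw [div_le_iff₀ (by positivity)]
    linarith [h0 h]
  exact le_trans (by linarith) h1

lemma hit_phase [DecidableEq α] [DecidableEq β] {ι : Type} (σ : α → β) (J : Finset ι)
    (Λ : ι → Finset α) (f q T : ℕ) (hf : 2 ≤ f) (hΛ : ∀ j ∈ J, f * q ≤ (Λ j).card) {γ ε : ℝ}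
    (hγ : 0 < γ) (hT : 2 * (Fintype.card α : ℝ) ≤ ε * (γ * f * (T + 1))) :
    Reach T (fun _ => True) (fun h : List (α × β) => ∃ J' ⊆ J, (1 - γ) * J.card ≤ J'.card ∧
      ∀ j ∈ J', q ≤ #{U ∈ Λ j | (U, σ U) ∈ h}) ε := by
  classical
  have hA : (0 : ℝ) < Fintype.card α := card_pos'
  have hf' : (2 : ℝ) ≤ f := by exact_mod_cast hf
  have hP : 0 < γ * f * (T + 1) := by positivity
  have hε : 0 ≤ ε := by
    by_contra hn
    have := mul_neg_of_neg_of_pos (not_le.1 hn) hP
    linarith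
  have hJ0 : (0 : ℝ) ≤ J.card := Nat.cast_nonneg _
  by_cases h0 : q = 0 ∨ J = ∅
  · refine Reach.of_imp T hε fun h l _ => ⟨J, Subset.rfl, by nlinarith, fun j hj => ?_⟩
    rcases h0 with rfl | rfl
    · exact Nat.zero_le _
    · exact absurd hj (notMem_empty j)
  obtain ⟨hq, hJ⟩ := not_or.1 h0
  have hq' : (0 : ℝ) < q := by exact_mod_cast Nat.pos_of_ne_zero hq
  have hJ' : (0 : ℝ) < J.card := by exact_mod_cast card_pos.2 (nonempty_iff_ne_empty.2 hJ)
  let N : ι → List (α × β) → ℕ := fun j h => #{U ∈ Λ j | (U, σ U) ∈ h}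
  have hN : ∀ j h l, N j h ≤ N j (h ++ l) := fun j h l =>
    card_le_card (monotone_filter_right _ fun U _ hU => List.mem_append_left _ hU)
  refine drift_reach (fun h => ∑ j ∈ J, ((min q (N j h) : ℕ) : ℝ)) _ ?_ (y := J.card * q)
    (b := γ * J.card * f * q / (2 * Fintype.card α)) (by positivity)
    (fun h => sum_nonneg fun j _ => Nat.cast_nonneg _) (fun h => ?_) (fun h hh => ⟨σ, ?_⟩) T ?_
  · rintro h l ⟨J', h1, h2, h3⟩
    exact ⟨J', h1, h2, fun j hj => (h3 j hj).trans (hN j h l)⟩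
  · rw [← nsmul_eq_mul, ← sum_const]
    exact sum_le_sum fun j _ => by exact_mod_cast min_le_left _ _
  · have hc : (#{j ∈ J | q ≤ N j h} : ℝ) < (1 - γ) * J.card := by
      by_contra hn
      exact hh ⟨_, filter_subset _ _, not_lt.1 hn, fun j hj => (mem_filter.1 hj).2⟩
    have hc2 : (#{j ∈ J | q ≤ N j h} : ℝ) + #{j ∈ J | ¬ q ≤ N j h} = J.card := by
      exact_mod_cast card_filter_add_card_filter_not (s := J) (fun j => q ≤ N j h)
    have key : ∀ j ∈ J, (if ¬ q ≤ N j h then (f * q / 2 : ℝ) else 0) ≤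
        ∑ U, (((min q (N j (h ++ [(U, σ U)])) : ℕ) : ℝ) - ((min q (N j h) : ℕ) : ℝ)) := by
      intro j hj
      have hm : ∀ U, (0 : ℝ) ≤
          ((min q (N j (h ++ [(U, σ U)])) : ℕ) : ℝ) - ((min q (N j h) : ℕ) : ℝ) := fun U =>
        sub_nonneg.2 (by exact_mod_cast min_le_min_left q (hN j h _))
      split_ifs with hu
      · exact sum_nonneg fun U _ => hm U
      · have hu' : N j h < q := not_le.1 hu
        have h1 : ∀ U ∈ (Λ j).filter (fun U => ¬ (U, σ U) ∈ h), (1 : ℝ) ≤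
            ((min q (N j (h ++ [(U, σ U)])) : ℕ) : ℝ) - ((min q (N j h) : ℕ) : ℝ) := by
          intro U hU
          obtain ⟨hU1, hU2⟩ := mem_filter.1 hU
          have : N j h < N j (h ++ [(U, σ U)]) := by
            refine card_lt_card ⟨monotone_filter_right _ fun U _ hU => List.mem_append_left _ hU,
              fun hs => hU2 ?_⟩
            exact (mem_filter.1 (hs (mem_filter.2 ⟨hU1, by simp⟩))).2
          have h2 : min q (N j h) + 1 ≤ min q (N j (h ++ [(U, σ U)])) := by omega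
          have h3 : ((min q (N j h) : ℕ) : ℝ) + 1 ≤ ((min q (N j (h ++ [(U, σ U)])) : ℕ) : ℝ) := by
            exact_mod_cast h2
          linarith
        have h2 := card_nsmul_le_sum _ _ _ h1
        rw [nsmul_eq_mul, mul_one] at h2
        have h3 : (N j h : ℝ) + #((Λ j).filter (fun U => ¬ (U, σ U) ∈ h)) = (Λ j).card := by
          exact_mod_cast card_filter_add_card_filter_not (s := Λ j) (fun U => (U, σ U) ∈ h)
        have h4 : (f * q : ℝ) ≤ (Λ j).card := by exact_mod_cast hΛ j hj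
        have h5 : (N j h : ℝ) ≤ q := by exact_mod_cast hu'.le
        refine le_trans ?_ (h2.trans (sum_le_sum_of_subset_of_nonneg (subset_univ _)
          fun U _ _ => hm U))
        nlinarith
    have h6 := sum_le_sum key
    rw [← sum_filter, sum_const, nsmul_eq_mul, sum_comm] at h6
    simp only [← sum_sub_distrib]
    refine le_trans ?_ h6
    have h7 : γ * J.card * f * q / (2 * Fintype.card α) * Fintype.card α =
        γ * J.card * (f * q / 2) := by field_simp
    rw [h7]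
    exact mul_le_mul_of_nonneg_right (by linarith) (by positivity)
  · have h7 : ε * (γ * J.card * f * q / (2 * Fintype.card α) * (T + 1)) =
        J.card * q * (ε * (γ * f * (T + 1)) / (2 * Fintype.card α)) := by field_simp
    rw [h7]
    exact le_mul_of_one_le_right (by positivity) ((one_le_div (by positivity)).2 hT)

end Pool.Agent.SemiRandom.Und
end

-- part Pool.Agent.P.MP_c53d0e_pr.UE2
section

set_option autoImplicit false
set_option linter.unusedSectionVars false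

namespace Pool.Agent.SemiRandom.Und

open Finset

variable {α β : Type} [Fintype α] [Fintype β] [Nonempty α] [Nonempty β]

def Val_UE2 {ι κ : Type} [DecidableEq ι] (σ : α → β) (u : ι → κ → α) (f : ℕ)
    (h : List (α × β)) (G : Finset (ι × κ)) : Prop :=
  (∀ p ∈ G, (u p.1 p.2, σ (u p.1 p.2)) ∈ h) ∧ (∀ p ∈ G, ∀ q ∈ G, p.2 = q.2 → p = q) ∧
    ∀ x, #{p ∈ G | p.1 = x} ≤ f

open Classical in
noncomputable def Mx_UE2 {ι κ : Type} [DecidableEq ι] (σ : α → β) (u : ι → κ → α) (f : ℕ)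
    (S : Finset (ι × κ)) (h : List (α × β)) : ℕ :=
  (S.powerset.filter (Val_UE2 σ u f h)).sup card

lemma le_Mx_UE2 {ι κ : Type} [DecidableEq ι] {σ : α → β} {u : ι → κ → α} {f : ℕ}
    {S : Finset (ι × κ)} {h : List (α × β)} {G : Finset (ι × κ)} (hG : G ⊆ S)
    (hv : Val_UE2 σ u f h G) : G.card ≤ Mx_UE2 σ u f S h := by
  classical
  unfold Mx_UE2
  exact le_sup (f := card) (mem_filter.2 ⟨mem_powerset.2 hG, hv⟩)

lemma ex_Mx_UE2 {ι κ : Type} [DecidableEq ι] (σ : α → β) (u : ι → κ → α) (f : ℕ)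
    (S : Finset (ι × κ)) (h : List (α × β)) :
    ∃ G ⊆ S, Val_UE2 σ u f h G ∧ Mx_UE2 σ u f S h = G.card := by
  classical
  have hne : (S.powerset.filter (Val_UE2 σ u f h)).Nonempty :=
    ⟨∅, mem_filter.2 ⟨mem_powerset.2 (empty_subset _), by simp [Val_UE2]⟩⟩
  obtain ⟨G, hG, e⟩ := exists_mem_eq_sup _ hne card
  refine ⟨G, mem_powerset.1 (mem_filter.1 hG).1, (mem_filter.1 hG).2, ?_⟩
  unfold Mx_UE2
  convert e

lemma Val_append_UE2 {ι κ : Type} [DecidableEq ι] {σ : α → β} {u : ι → κ → α} {f : ℕ}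
    {h : List (α × β)} {G : Finset (ι × κ)} (hv : Val_UE2 σ u f h G) (l : List (α × β)) :
    Val_UE2 σ u f (h ++ l) G :=
  ⟨fun p hp => List.mem_append_left _ (hv.1 p hp), hv.2⟩

lemma match_phase {ι κ : Type} [DecidableEq ι] [DecidableEq κ] (σ : α → β) (A : Finset ι)
    (Z : Finset κ) (u : ι → κ → α)
    (hu : ∀ x ∈ A, ∀ x' ∈ A, ∀ z ∈ Z, ∀ z' ∈ Z, u x z = u x' z' → x = x' ∧ z = z')
    (a f T : ℕ) (hf : 1 ≤ f) (hA : 2 * a ≤ A.card) (hZ1 : 4 * a * f ≤ Z.card)
    (hZ2 : 2 * f ^ 2 ≤ Z.card) {ε : ℝ}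
    (hT : 2 * (Fintype.card α : ℝ) ≤ ε * (f * (T + 1))) :
    Reach T (fun _ => True) (fun h : List (α × β) => ∃ A' ⊆ A, a ≤ A'.card ∧
      ∃ Zs : ι → Finset κ, (∀ x ∈ A', f ≤ (Zs x).card ∧ ∀ z ∈ Zs x, z ∈ Z ∧ (u x z, σ (u x z)) ∈ h) ∧
        ∀ x ∈ A', ∀ x' ∈ A', x ≠ x' → Disjoint (Zs x) (Zs x')) ε := by
  classical
  have hc : (0 : ℝ) < Fintype.card α := card_pos'
  have hf0 : (0 : ℝ) < f := by exact_mod_cast hf
  have hε : 0 ≤ ε := by
    by_contra hneg
    have h1 : ε * (f * (T + 1)) ≤ 0 :=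
      mul_nonpos_of_nonpos_of_nonneg (le_of_lt (not_le.1 hneg)) (by positivity)
    linarith
  rcases Nat.eq_zero_or_pos a with rfl | ha
  · exact Reach.of_imp T hε fun h l _ => ⟨∅, empty_subset _, le_rfl, fun _ => ∅, by simp, by simp⟩
  obtain ⟨A0, hA0, hcard⟩ := exists_subset_card_eq hA
  have ha0 : (0 : ℝ) < a := by exact_mod_cast ha
  have hZ0 : (0 : ℝ) < Z.card := by
    have : 0 < Z.card := lt_of_lt_of_le (by positivity) hZ2
    exact_mod_cast this
  have bound : ∀ h (G : Finset (ι × κ)), G ⊆ A0 ×ˢ Z → Val_UE2 σ u f h G → G.card ≤ 2 * a * f := by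
    intro h G hG hv
    have := card_le_mul_card_image_of_maps_to (s := G) (t := A0) (f := Prod.fst)
      (fun p hp => (mem_product.1 (hG hp)).1) f (fun x _ => hv.2.2 x)
    rw [hcard] at this
    linarith [mul_comm f (2 * a)]
  refine drift_reach (fun h => (Mx_UE2 σ u f (A0 ×ˢ Z) h : ℝ)) _ ?_ (y := (2 * a * f : ℕ))
    (b := a * Z.card / (2 * Fintype.card α)) (by positivity) (fun h => by positivity) ?_ ?_ T ?_
  · rintro h l ⟨A', h1, h2, Zs, h3, h4⟩
    exact ⟨A', h1, h2, Zs, fun x hx => ⟨(h3 x hx).1, fun z hz =>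
      ⟨((h3 x hx).2 z hz).1, List.mem_append_left _ ((h3 x hx).2 z hz).2⟩⟩, h4⟩
  · intro h
    obtain ⟨G, hG, hv, e⟩ := ex_Mx_UE2 σ u f (A0 ×ˢ Z) h
    have := bound h G hG hv
    rw [← e] at this
    exact_mod_cast this
  · intro h hD
    refine ⟨σ, ?_⟩
    obtain ⟨G, hG, hv, e⟩ := ex_Mx_UE2 σ u f (A0 ×ˢ Z) h
    have hGb := bound h G hG hv
    set Full := A0.filter (fun x => f ≤ #{p ∈ G | p.1 = x}) with hFull
    have hlt : Full.card < a := by
      by_contra hge
      apply hD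
      refine ⟨Full, (filter_subset _ _).trans hA0, not_lt.1 hge,
        fun x => (G.filter (fun p => p.1 = x)).image Prod.snd, fun x hx => ⟨?_, ?_⟩, ?_⟩
      · rw [card_image_of_injOn fun p hp q hq hpq =>
          hv.2.1 p (mem_filter.1 hp).1 q (mem_filter.1 hq).1 hpq]
        exact (mem_filter.1 hx).2
      · intro z hz
        obtain ⟨p, hp, rfl⟩ := mem_image.1 hz
        obtain ⟨hp1, rfl⟩ := mem_filter.1 hp
        exact ⟨(mem_product.1 (hG hp1)).2, hv.1 p hp1⟩
      · intro x _ x' _ hne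
        rw [disjoint_left]
        intro z hz hz'
        obtain ⟨p, hp, rfl⟩ := mem_image.1 hz
        obtain ⟨q, hq, hqp⟩ := mem_image.1 hz'
        have := hv.2.1 q (mem_filter.1 hq).1 p (mem_filter.1 hp).1 hqp
        subst this
        exact hne ((mem_filter.1 hp).2.symm.trans (mem_filter.1 hq).2)
    set NF := A0 \ Full with hNF
    set Fr := Z \ G.image Prod.snd with hFr
    have c1 : a ≤ NF.card := by
      have : A0.card - Full.card ≤ NF.card := le_card_sdiff Full A0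
      omega
    have c2 : Z.card ≤ 2 * Fr.card := by
      have h1 : Z.card - (G.image Prod.snd).card ≤ Fr.card := le_card_sdiff (G.image Prod.snd) Z
      have h2 : (G.image Prod.snd).card ≤ G.card := card_image_le
      have h3 : 4 * a * f = 2 * (2 * a * f) := by ring
      omega
    set W := (NF ×ˢ Fr).image (fun p => u p.1 p.2) with hW
    have c3 : W.card = NF.card * Fr.card := by
      rw [hW, card_image_of_injOn, card_product]
      intro p hp q hq hpq
      have hp' := mem_product.1 (mem_coe.1 hp)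
      have hq' := mem_product.1 (mem_coe.1 hq)
      have := hu p.1 (hA0 (mem_sdiff.1 hp'.1).1) q.1 (hA0 (mem_sdiff.1 hq'.1).1) p.2
        (mem_sdiff.1 hp'.2).1 q.2 (mem_sdiff.1 hq'.2).1 hpq
      exact Prod.ext this.1 this.2
    have step : ∀ U, (if U ∈ W then (1 : ℝ) else 0) ≤
        (Mx_UE2 σ u f (A0 ×ˢ Z) (h ++ [(U, σ U)]) : ℝ) - Mx_UE2 σ u f (A0 ×ˢ Z) h := by
      intro U
      split_ifs with hU
      · obtain ⟨p, hp, rfl⟩ := mem_image.1 hU
        obtain ⟨hp1, hp2⟩ := mem_product.1 hp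
        obtain ⟨hp1a, hp1b⟩ := mem_sdiff.1 hp1
        obtain ⟨hp2a, hp2b⟩ := mem_sdiff.1 hp2
        have hnf : #{q ∈ G | q.1 = p.1} < f := by
          by_contra hge
          exact hp1b (mem_filter.2 ⟨hp1a, not_lt.1 hge⟩)
        have hns : ∀ q ∈ G, q.2 ≠ p.2 := fun q hq hqp => hp2b (mem_image.2 ⟨q, hq, hqp⟩)
        have hpG : p ∉ G := fun hh => hns p hh rfl
        have hv' : Val_UE2 σ u f (h ++ [(u p.1 p.2, σ (u p.1 p.2))]) (insert p G) := by
          refine ⟨fun q hq => ?_, fun q hq q' hq' hqq => ?_, fun x => ?_⟩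
          · rcases mem_insert.1 hq with rfl | hq
            · simp
            · exact List.mem_append_left _ (hv.1 q hq)
          · rcases mem_insert.1 hq with hq | hq <;> rcases mem_insert.1 hq' with hq' | hq'
            · rw [hq, hq']
            · exact absurd (hq ▸ hqq.symm) (hns q' hq')
            · exact absurd (hq' ▸ hqq) (hns q hq)
            · exact hv.2.1 q hq q' hq' hqq
          · rw [filter_insert]
            split_ifs with hx
            · subst hx
              exact (card_insert_le _ _).trans hnf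
            · exact hv.2.2 x
        have := le_Mx_UE2 (S := A0 ×ˢ Z) (insert_subset (mem_product.2 ⟨hp1a, hp2a⟩) hG) hv'
        rw [card_insert_of_notMem hpG, ← e] at this
        have h2 : ((Mx_UE2 σ u f (A0 ×ˢ Z) h + 1 : ℕ) : ℝ) ≤
            Mx_UE2 σ u f (A0 ×ˢ Z) (h ++ [(u p.1 p.2, σ (u p.1 p.2))]) := by exact_mod_cast this
        push_cast at h2
        linarith
      · have := le_Mx_UE2 (S := A0 ×ˢ Z) hG (Val_append_UE2 hv [(U, σ U)])
        rw [← e] at this
        have h2 : (Mx_UE2 σ u f (A0 ×ˢ Z) h : ℝ) ≤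
            Mx_UE2 σ u f (A0 ×ˢ Z) (h ++ [(U, σ U)]) := by exact_mod_cast this
        linarith
    refine le_trans ?_ (sum_le_sum fun U _ => step U)
    rw [← sum_filter, sum_const, nsmul_eq_mul, mul_one, filter_mem_eq_inter, univ_inter, c3]
    have e2 : a * Z.card / (2 * (Fintype.card α : ℝ)) * Fintype.card α = a * Z.card / 2 := by
      field_simp
    rw [e2]
    have d1 : (a : ℝ) ≤ NF.card := by exact_mod_cast c1
    have d2 : (Z.card : ℝ) ≤ 2 * Fr.card := by exact_mod_cast c2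
    push_cast
    have d3 : (0 : ℝ) ≤ Fr.card := by positivity
    nlinarith
  · have d1 : (2 * f ^ 2 : ℝ) ≤ Z.card := by exact_mod_cast hZ2
    have e2 : ε * (a * Z.card / (2 * (Fintype.card α : ℝ)) * (T + 1)) =
        a * (Z.card * (ε * (T + 1))) / (2 * Fintype.card α) := by ring
    rw [e2, le_div_iff₀ (by positivity)]
    push_cast
    have d2 : 0 ≤ ε * (T + 1) := by positivity
    have d3 : 2 * f ^ 2 * (ε * (T + 1)) ≤ Z.card * (ε * (T + 1)) :=
      mul_le_mul_of_nonneg_right d1 d2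
    have d4 : 2 * f * (2 * (Fintype.card α : ℝ)) ≤ 2 * f * (ε * (f * (T + 1))) :=
      mul_le_mul_of_nonneg_left hT (by positivity)
    have d5 : 2 * f * (2 * (Fintype.card α : ℝ)) ≤ Z.card * (ε * (T + 1)) := by nlinarith
    have := mul_le_mul_of_nonneg_left d5 ha0.le
    nlinarith

end Pool.Agent.SemiRandom.Und
end

-- part Pool.Agent.P.MP_c53d0e_pr.UE3
section

set_option autoImplicit false
set_option linter.unusedSectionVars false

namespace Pool.Agent.SemiRandom.Und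

open Finset

open Function

variable {V : Type} [Fintype V] [DecidableEq V] {n m r s : ℕ} [Nonempty (RSet n r)]
  [Nonempty (Move n r s)]

/-- An answer rule that completes `e` for every placement of a family in which the values on
`u` determine the values on `e`. -/
lemma exists_answer (κ : V × Fin m ↪ Fin n) {e u : Finset V} (he : e.card = s) (hu : u ⊆ e)
    (hur : u.card = r) (F : Set (V → Fin m))
    (hFD : ∀ ψ ∈ F, ∀ ψ' ∈ F, (∀ v ∈ u, ψ v = ψ' v) → ∀ v ∈ e, ψ v = ψ' v) :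
    ∃ (σ : RSet n r → Move n r s) (U : (V → Fin m) → RSet n r),
      (∀ ψ, (U ψ).1 = u.map (emb κ ψ)) ∧
      ∀ ψ ∈ F, edge (U ψ, σ (U ψ)) = (e.map (emb κ ψ)).val := by
  classical
  let U : (V → Fin m) → RSet n r := fun ψ => ⟨u.map (emb κ ψ), by rw [card_map, hur]⟩
  let W : (V → Fin m) → Move n r s := fun ψ => ⟨((e \ u).map (emb κ ψ)).val, by
    rw [← Finset.card_def, card_map, card_sdiff_of_subset hu, he, hur]⟩
  refine ⟨fun X => if h : ∃ ψ ∈ F, U ψ = X then W h.choose else Classical.arbitrary _, U,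
    fun _ => rfl, fun ψ hψ => ?_⟩
  have hex : ∃ ψ' ∈ F, U ψ' = U ψ := ⟨ψ, hψ, rfl⟩
  obtain ⟨h1, h2⟩ := hex.choose_spec
  have h3 := hFD _ h1 _ hψ (agree_of_map_eq κ (congrArg Subtype.val h2))
  have h4 : (e \ u).map (emb κ hex.choose) = (e \ u).map (emb κ ψ) :=
    map_emb_congr κ fun v hv => h3 v (mem_sdiff.1 hv).1
  change (u.map (emb κ ψ)).val + (dite _ _ _ : Move n r s).1 = _
  rw [dif_pos hex]
  change (u.map (emb κ ψ)).val + ((e \ u).map (emb κ hex.choose)).val = _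
  rw [h4, map_val, map_val, map_val, ← Multiset.map_add, sdiff_val,
    add_tsub_cancel_of_le (val_le_iff.2 hu)]

open Classical in
lemma one_hit (κ : V × Fin m ↪ Fin n) (hrs : r ≤ s) {e K : Finset V} (he : e.card = s)
    (hK : K ⊆ e) (hKr : K.card ≤ r) {ι : Type} (J : Finset ι) (F : ι → Finset (V → Fin m))
    (hFD : ∀ j ∈ J, ∀ j' ∈ J, ∀ ψ ∈ F j, ∀ ψ' ∈ F j', (∀ v ∈ K, ψ v = ψ' v) → ∀ v ∈ e, ψ v = ψ' v)
    (hinj : ∀ j ∈ J, ∀ ψ ∈ F j, ∀ ψ' ∈ F j, (∀ v ∈ K, ψ v = ψ' v) → ψ = ψ')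
    (f q T : ℕ) (hf : 2 ≤ f) (hF : ∀ j ∈ J, f * q ≤ (F j).card) {γ ε : ℝ} (hγ : 0 < γ)
    (hT : 2 * (Fintype.card (RSet n r) : ℝ) ≤ ε * (γ * f * (T + 1))) :
    Reach T (fun _ => True) (fun h : List (RSet n r × Move n r s) =>
      ∃ J' ⊆ J, (1 - γ) * J.card ≤ J'.card ∧ ∀ j ∈ J', q ≤ #{ψ ∈ F j | Pres κ h e ψ}) ε := by
  obtain ⟨u, hKu, hue, hur⟩ := exists_subsuperset_card_eq hK hKr (he ▸ hrs)
  obtain ⟨σ, U, hU, hσ⟩ := exists_answer (n := n) κ he hue hur {ψ | ∃ j ∈ J, ψ ∈ F j} (by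
    rintro ψ ⟨j, hj, h1⟩ ψ' ⟨j', hj', h2⟩ h3
    exact hFD j hj j' hj' ψ h1 ψ' h2 fun v hv => h3 v (hKu hv))
  refine Reach.imp (hit_phase σ J (fun j => (F j).image U) f q T hf (fun j hj => ?_) hγ hT) ?_
  · rw [card_image_of_injOn]
    · exact hF j hj
    · intro ψ h1 ψ' h2 h3
      have h4 : u.map (emb κ ψ) = u.map (emb κ ψ') := by rw [← hU, ← hU, h3]
      exact hinj j hj ψ h1 ψ' h2 fun v hv => agree_of_map_eq κ h4 v (hKu hv)
  · rintro h ⟨J', h1, h2, h3⟩
    refine ⟨J', h1, h2, fun j hj => (h3 j hj).trans (le_trans (card_le_card ?_)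
      (card_image_le (f := U)))⟩
    intro X hX
    simp only [mem_filter] at hX
    obtain ⟨h4, h5⟩ := hX
    obtain ⟨ψ, h6, rfl⟩ := mem_image.1 h4
    exact mem_image_of_mem _ (mem_filter.2 ⟨h6, _, h5, hσ ψ ⟨j, h1 hj, h6⟩⟩)

lemma one_match (κ : V × Fin m ↪ Fin n) (hr : 2 ≤ r) (hrs : r ≤ s) {e : Finset V} (he : e.card = s)
    {p z : V} (hp : p ∈ e) (hz : z ∈ e) (hpz : p ≠ z) (ψ : V → Fin m) (A : Finset (Fin m))
    (a f T : ℕ) (hf : 1 ≤ f) (hA : 2 * a ≤ A.card) (h1 : 4 * a * f ≤ m) (h2 : 2 * f ^ 2 ≤ m) {ε : ℝ}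
    (hT : 2 * (Fintype.card (RSet n r) : ℝ) ≤ ε * (f * (T + 1))) :
    Reach T (fun _ => True) (fun h : List (RSet n r × Move n r s) => ∃ A' ⊆ A, a ≤ A'.card ∧
      ∃ Zs : Fin m → Finset (Fin m),
        (∀ x ∈ A', f ≤ (Zs x).card ∧ ∀ b ∈ Zs x, Pres κ h e (update (update ψ p x) z b)) ∧
        ∀ x ∈ A', ∀ x' ∈ A', x ≠ x' → Disjoint (Zs x) (Zs x')) ε := by
  have hK : ({p, z} : Finset V) ⊆ e := insert_subset hp (singleton_subset_iff.2 hz)
  obtain ⟨u, hKu, hue, hur⟩ := exists_subsuperset_card_eq hK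
    (by rw [card_pair hpz]; exact hr) (he ▸ hrs)
  have hpu : p ∈ u := hKu (mem_insert_self _ _)
  have hzu : z ∈ u := hKu (mem_insert_of_mem (mem_singleton_self _))
  have key : ∀ x b x' b' : Fin m, (∀ v ∈ u, update (update ψ p x) z b v =
      update (update ψ p x') z b' v) → x = x' ∧ b = b' := fun x b x' b' h => by
    have h1 := h p hpu
    have h2 := h z hzu
    rw [update_of_ne hpz, update_of_ne hpz, update_self, update_self] at h1
    rw [update_self, update_self] at h2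
    exact ⟨h1, h2⟩
  obtain ⟨σ, U, hU, hσ⟩ := exists_answer (n := n) κ he hue hur
    {φ | ∃ x b, φ = update (update ψ p x) z b} (by
      rintro _ ⟨x, b, rfl⟩ _ ⟨x', b', rfl⟩ h3
      obtain ⟨rfl, rfl⟩ := key x b x' b' h3
      exact fun _ _ => rfl)
  refine Reach.imp (match_phase σ A univ (fun x b => U (update (update ψ p x) z b))
    (fun x _ x' _ b _ b' _ h => key x b x' b' (agree_of_map_eq κ ?_)) a f T hf hA
    (by rwa [card_univ, Fintype.card_fin]) (by rwa [card_univ, Fintype.card_fin]) hT) ?_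
  · rw [← hU, ← hU, h]
  · rintro h ⟨A', h3, h4, Zs, h5, h6⟩
    exact ⟨A', h3, h4, Zs, fun x hx => ⟨(h5 x hx).1, fun b hb =>
      ⟨_, ((h5 x hx).2 b hb).2, hσ _ ⟨x, b, rfl⟩⟩⟩, h6⟩

end Pool.Agent.SemiRandom.Und
end
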