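import Pool.Agent.K.MP_c53d0e_pr.C18
import Pool.Agent.Lib.MRDP.Basic
import Pool.Agent.Lib.PrimrecProp.Basic
import Pool.Agent.K.MP_c53d0e_pr.C1
import Pool.Agent.K.MP_c53d0e_pr.C5
import Pool.Agent.K.MP_c53d0e_pr.C17
import Pool.Agent.K.MP_c53d0e_pr.C19

-- part Pool.Agent.P.MP_c53d0e_pr.UG0
section

set_option autoImplicit false
set_option linter.unusedSectionVars false

namespace Pool.Agent.SemiRandom.Und

open Finset

abbrev Fn (k : ℕ) : Type := (Fin k → ℕ) → ℕ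

variable {k : ℕ}

/-- Shift of a coordinate. -/
def sh (j : Fin k) (f : Fn k) : Fn k := fun a => f (Function.update a j (a j + 1))
/-- Reset of a coordinate. -/
def rs (j : Fin k) (f : Fn k) : Fn k := fun a => f (Function.update a j 0)

/-- Functions whose iterated differences are nonnegative and vanish after `d` steps. -/
def Pos : ℕ → Fn k → Prop
  | 0, f => f = 0
  | d + 1, f => ∀ j, ∃ g, Pos d g ∧ sh j f = f + g

def Closed (FF : Finset (Fn k)) : Prop :=
  ∀ f ∈ FF, ∀ j, (∃ g ∈ FF, sh j f = f + g) ∧ rs j f ∈ FF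

def Rich (FF GG : Finset (Fn k)) : Prop :=
  0 ∈ GG ∧ 1 ∈ GG ∧ ∀ f ∈ FF, f ∈ GG ∧ f + 1 ∈ GG ∧ (∀ j, sh j f ∈ GG) ∧
    ∀ c ≤ f 0, (fun _ => c) ∈ GG

/-- Names of generators. -/
inductive Gn (k : ℕ) : Type
  | zero
  | z (f : Fn k)
  | q (j : Fin k) (i : Bool)
  | r (j : Fin k) (i : Bool)
  | c (i : ℕ)

def RelF (GG : Finset (Fn k)) : Set (Gn k × Gn k × Gn k × Gn k) :=
  {x | (∃ f ∈ GG, ∃ g ∈ GG, f + g ∈ GG ∧ x = (.z f, .z g, .z (f + g), .z 0)) ∨
    (∃ f ∈ GG, ∃ j i, sh j f ∈ GG ∧ x = (.z f, .q j i, .q j i, .z (sh j f))) ∨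
    ∃ f ∈ GG, ∃ j i, rs j f ∈ GG ∧ x = (.z f, .r j i, .r j i, .z (rs j f))}

def RelS (GG : Finset (Fn k)) (n : ℕ) : Set (Gn k × Gn k × Gn k × Gn k) :=
  {x | x ∈ RelF GG ∨ x = (.c 0, .z 0, .z 0, .z 0) ∨ ∃ i < n, x = (.c (i + 1), .z 0, .c i, .z 1)}

def SepF (k : ℕ) : Set (Gn k × Gn k × Gn k × Gn k) :=
  {x | ∃ j, x = (.q j false, .zero, .q j true, .zero) ∨ x = (.r j false, .zero, .r j true, .zero)}

def SepS (fp fm x0 : Fn k) (n : ℕ) : Set (Gn k × Gn k × Gn k × Gn k) :=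
  {x | x = (.z fp, .z fm, .z x0, .c n) ∨ x ∈ SepF k}

/-- The numbered presentation for the input `n`. -/
def prsOf (g0 : ℕ) (R0 S0 : List Q4) (y a b x : ℕ) (n : ℕ) : Prs :=
  (g0 + n + 1, R0 ++ (g0, 0, 0, 0) :: (List.range n).map (fun i => (g0 + i + 1, 0, g0 + i, y)),
    (a, b, x, g0 + n) :: S0)

end Pool.Agent.SemiRandom.Und
end

-- part Pool.Agent.P.MP_c53d0e_pr.UH3
section

set_option autoImplicit false
set_option linter.unusedSectionVars false

namespace Pool.Agent.SemiRandom.Und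

open Finset

open Pool.Agent.Lib.PrimrecProp

section aux
variable {α : Type} [Primcodable α]

@[fun_prop] theorem p_mod_UH3 {f g : α → ℕ} (hf : Primrec f) (hg : Primrec g) :
    Primrec (fun a => f a % g a) := Primrec.nat_mod.comp hf hg

@[fun_prop] theorem p_ptP_UH3 (K : ℕ) {g i j : α → ℕ} (hg : Primrec g) (hi : Primrec i)
    (hj : Primrec j) : Primrec (fun a => ptP K (g a) (i a) (j a)) := by
  unfold ptP; fun_prop

@[fun_prop] theorem p_cmpG_UH3 {g i j : α → ℕ} (hg : Primrec g) (hi : Primrec i)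
    (hj : Primrec j) : Primrec (fun a => cmpG (g a) (i a) (j a)) := by
  unfold cmpG; fun_prop

@[fun_prop] theorem p_difG_UH3 {g i j : α → ℕ} (hg : Primrec g) (hi : Primrec i)
    (hj : Primrec j) : Primrec (fun a => difG (g a) (i a) (j a)) := by
  unfold difG; fun_prop

@[fun_prop] theorem p_G_UH3 {p : α → Prs} (hp : Primrec p) : Primrec (fun a => Prs.G (p a)) := by
  unfold Prs.G; fun_prop

@[fun_prop] theorem p_relL_UH3 (K : ℕ) {n : α → ℕ} {c x : α → Q4} (hn : Primrec n)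
    (hc : Primrec c) (hx : Primrec x) : Primrec (fun a => relL K (n a) (c a) (x a)) := by
  unfold relL; fun_prop

@[fun_prop] theorem p_sepL_UH3 (K : ℕ) {n : α → ℕ} {c x : α → Q4} (hn : Primrec n)
    (hc : Primrec c) (hx : Primrec x) : Primrec (fun a => sepL K (n a) (c a) (x a)) := by
  unfold sepL; fun_prop

@[fun_prop] theorem p_genL_UH3 (K : ℕ) {c : α → Q4} {g : α → ℕ} (hc : Primrec c)
    (hg : Primrec g) : Primrec (fun a => genL K (c a) (g a)) := by
  unfold genL; fun_prop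

@[fun_prop] theorem p_globL_UH3 (K : ℕ) {c : α → Q4} (hc : Primrec c) :
    Primrec (fun a => globL K (c a)) := by
  unfold globL; fun_prop

@[fun_prop] theorem p_srcN_UH3 {x : α → Line} {l : α → ℕ} (hx : Primrec x) (hl : Primrec l) :
    Primrec (fun a => srcN (x a) (l a)) := by
  unfold srcN; fun_prop

@[fun_prop] theorem p_sOf_UH3 (r : ℕ) {x y : α → ℕ} (hx : Primrec x) (hy : Primrec y) :
    Primrec (fun a => sOf r (x a) (y a)) := by
  unfold sOf; fun_prop

@[fun_prop] theorem p_allL_UH3 (r : ℕ) {x y o : α → ℕ} (hx : Primrec x) (hy : Primrec y)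
    (ho : Primrec o) : Primrec (fun a => allL r (x a) (y a) (o a)) := by
  unfold allL; fun_prop

@[fun_prop] theorem p_groupsL_UH3 (r : ℕ) {x o : α → ℕ} {l : α → List Line} (hx : Primrec x)
    (hl : Primrec l) (ho : Primrec o) : Primrec (fun a => groupsL r (x a) (l a) (o a)) := by
  unfold groupsL; fun_prop

end aux

theorem primrec_prsOf (g0 : ℕ) (R0 S0 : List Q4) (y a b x : ℕ) :
    Primrec (prsOf g0 R0 S0 y a b x) := by
  unfold prsOf; fun_prop

theorem primrec_lines (K : ℕ) : Primrec (lines K) := by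
  unfold lines; fun_prop

theorem primrec_npts (K : ℕ) : Primrec (npts K) := by
  unfold npts; fun_prop

theorem primrec_graph (r : ℕ) : Primrec fun x : ℕ × List Line =>
    (kOf r x.1 x.2.length, sOf r x.1 x.2.length, edgeL r x.1 x.2) := by
  have h : Primrec fun x : ℕ × List Line => (groupsL r x.1 x.2 (sOf r x.1 x.2.length + 1)).flatMap
      fun g => (List.range g.2).map fun i =>
        (List.range (sOf r x.1 x.2.length + 1 - g.1.length)).filter (fun j => !eqb j i) ++ g.1 := by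
    fun_prop
  have h2 : Primrec fun x : ℕ × List Line => kOf r x.1 x.2.length := by
    unfold kOf; fun_prop
  exact h2.pair (Primrec.pair (by fun_prop) h)

end Pool.Agent.SemiRandom.Und
end

-- part Pool.Agent.P.MP_c53d0e_pr.UF1
section

set_option autoImplicit false
set_option linter.unusedSectionVars false

namespace Pool.Agent.SemiRandom.Und

open Finset

variable {K : ℕ} {p : Prs}

lemma lt_G {g : ℕ} (hg : g < p.1) : g < p.G := by
  unfold Prs.G; omega

lemma pair_lt_UF1 {n a b : ℕ} (ha : a < n) (hb : b < n) : a * n + b < n * n := by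
  have : (a + 1) * n ≤ n * n := Nat.mul_le_mul_right n ha
  rw [Nat.add_mul, Nat.one_mul] at this
  omega

lemma cmpG_lt {a b : ℕ} (ha : a < p.1) (hb : b < p.1) : cmpG p.1 a b < p.G := by
  have := pair_lt_UF1 ha hb
  unfold cmpG Prs.G; omega

lemma difG_lt {a b : ℕ} (ha : a < p.1) (hb : b < p.1) : difG p.1 a b < p.G := by
  have := pair_lt_UF1 ha hb
  unfold difG Prs.G; omega

lemma ptP_le (hW : p.WF) {g i j : ℕ} (hg : g < p.G) (hi : i < K) (hj : j < K) :
    ptP K g i j ≤ npts K p := by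
  have h1 : g * K + i + 1 ≤ p.G * K := by
    have : (g + 1) * K ≤ p.G * K := Nat.mul_le_mul_right K hg
    rw [Nat.add_mul, Nat.one_mul] at this
    omega
  have h2 : (g * K + i + 1) * K ≤ p.G * K * K := Nat.mul_le_mul_right K h1
  rw [Nat.add_mul, Nat.one_mul] at h2
  unfold ptP npts
  omega

lemma lt_npts (hW : p.WF) {i : ℕ} (hi : i < K) : i ≤ npts K p := by
  unfold npts
  omega

lemma ptP_decode {g i j : ℕ} (hi : i < K) (hj : j < K) :
    K ≤ ptP K g i j ∧ (ptP K g i j - K) / (K * K) = g ∧ (ptP K g i j - K) / K % K = i ∧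
      (ptP K g i j - K) % K = j := by
  have hK : 0 < K := by omega
  have h0 : ptP K g i j - K = j + (g * K + i) * K := by unfold ptP; omega
  have h1 : (j + (g * K + i) * K) / K = g * K + i := by
    rw [Nat.add_mul_div_right _ _ hK, Nat.div_eq_of_lt hj, Nat.zero_add]
  refine ⟨by unfold ptP; omega, ?_, ?_, ?_⟩
  · rw [h0, ← Nat.div_div_eq_div_mul, h1, Nat.add_comm, Nat.add_mul_div_right _ _ hK,
      Nat.div_eq_of_lt hi, Nat.zero_add]
  · rw [h0, h1, Nat.add_comm, Nat.add_mul_mod_self_right, Nat.mod_eq_of_lt hi]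
  · rw [h0, Nat.add_mul_mod_self_right, Nat.mod_eq_of_lt hj]

lemma point_cases (hK : 1 ≤ K) {a : ℕ} (ha : a ≤ npts K p) :
    a < K ∨ ∃ g < p.G, ∃ i < K, ∃ j < K, a = ptP K g i j := by
  by_cases h : a < K
  · exact Or.inl h
  · right
    have hK' : 0 < K := hK
    have h1 : a - K < p.G * K * K := by unfold npts at ha; omega
    have h2 : (a - K) / K < p.G * K := (Nat.div_lt_iff_lt_mul hK').2 h1
    refine ⟨(a - K) / K / K, (Nat.div_lt_iff_lt_mul hK').2 h2, (a - K) / K % K,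
      Nat.mod_lt _ hK', (a - K) % K, Nat.mod_lt _ hK', ?_⟩
    unfold ptP
    rw [Nat.div_add_mod' ((a - K) / K) K, Nat.add_assoc, Nat.div_add_mod' (a - K) K]
    omega

lemma fresh_UF1 (i j l : ℕ) : ∃ a, a < 4 ∧ a ≠ i ∧ a ≠ j ∧ a ≠ l := by
  by_cases h0 : i ≠ 0 ∧ j ≠ 0 ∧ l ≠ 0
  · exact ⟨0, by omega, by omega, by omega, by omega⟩
  by_cases h1 : i ≠ 1 ∧ j ≠ 1 ∧ l ≠ 1
  · exact ⟨1, by omega, by omega, by omega, by omega⟩
  by_cases h2 : i ≠ 2 ∧ j ≠ 2 ∧ l ≠ 2
  · exact ⟨2, by omega, by omega, by omega, by omega⟩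
  exact ⟨3, by omega, by omega, by omega, by omega⟩

lemma exists_col2 (hK : 4 ≤ K) {i j : ℕ} (hi : i < K) (hj : j < K) (hij : i ≠ j) :
    ∃ a b, Col K (i, j, a, b) := by
  obtain ⟨l, hl, h1, h2⟩ : ∃ l, l < 3 ∧ l ≠ i ∧ l ≠ j := by
    by_cases h0 : i ≠ 0 ∧ j ≠ 0
    · exact ⟨0, by omega, by omega, by omega⟩
    by_cases h1 : i ≠ 1 ∧ j ≠ 1
    · exact ⟨1, by omega, by omega, by omega⟩
    exact ⟨2, by omega, by omega, by omega⟩
  obtain ⟨a, ha, h3, h4, h5⟩ := fresh_UF1 i j l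
  refine ⟨a, l, ?_⟩
  unfold Col
  dsimp only
  omega

lemma exists_col3 (hK : 4 ≤ K) {i j l : ℕ} (hi : i < K) (hj : j < K) (hl : l < K) (hij : i ≠ j)
    (hil : i ≠ l) (hjl : j ≠ l) : ∃ a, Col K (i, j, a, l) := by
  obtain ⟨a, ha, h3, h4, h5⟩ := fresh_UF1 i j l
  refine ⟨a, ?_⟩
  unfold Col
  dsimp only
  omega

lemma ofNat_UF1 {n : ℕ} (x : Fin (n + 1)) : Fin.ofNat (n + 1) (x : ℕ) = x :=
  Fin.ext (Nat.mod_eq_of_lt x.2)

lemma other_UF1 (hK : 4 ≤ K) {i : ℕ} (hi : i < K) : ∃ j a b, Col K (i, j, a, b) := by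
  obtain ⟨j, hj, h1, -, -⟩ := fresh_UF1 i i i
  obtain ⟨a, b, h⟩ := exists_col2 hK hi (j := j) (by omega) h1.symm
  exact ⟨j, a, b, h⟩

lemma lineP_UF1 (hK : 4 ≤ K) {g i j : ℕ} (hg : g < p.G) (hi : i < K) (hj : j < K) :
    ∃ ln ∈ lines K p, ln.1 < K ∧ ln.2.1 < K ∧ ln.2.2 = ptP K g i j := by
  by_cases hij : i = j
  · subst hij
    obtain ⟨j, a, b, h⟩ := other_UF1 hK hi
    exact ⟨(i, i, ptP K g i i),
      mem_lines.2 ⟨_, h, Or.inr (Or.inl ⟨g, hg, by simp [genL]⟩)⟩, hi, hi, rfl⟩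
  · obtain ⟨a, b, h⟩ := exists_col2 hK hi hj hij
    exact ⟨(i, j, ptP K g i j),
      mem_lines.2 ⟨_, h, Or.inr (Or.inl ⟨g, hg, by simp [genL]⟩)⟩, hi, hj, rfl⟩

theorem bas_inj {np : ℕ} (hK : K ≤ np + 1) (Ls : List Line) :
    Function.Injective (instOf K np Ls).bas := by
  intro b b' h
  have h1 := congrArg Fin.val h
  have h2 := b.2
  have h3 := b'.2
  simp only [instOf, Fin.val_ofNat] at h1
  rw [Nat.mod_eq_of_lt (by omega), Nat.mod_eq_of_lt (by omega)] at h1
  exact Fin.ext h1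

lemma le_npts : K ≤ npts K p + 1 := by
  unfold npts
  omega

theorem basInj_of_exact (hK : 4 ≤ K) (hW : p.WF) {W : Type}
    {S : Finset (Fin (npts K p + 1) → W)} (hS : (p.inst K).Exact S) : (p.inst K).BasInj S := by
  intro x hx x' hx' hb
  have hax : ∀ i < K, ev x i = ev x' i := fun i hi => hb ⟨i, hi⟩
  have hE := (exact_iff S).1 hS
  funext a
  have ha : ev x a = ev x' a := by
    rcases point_cases (p := p) (by omega) (Nat.lt_succ_iff.1 a.2) with h | ⟨g, hg, i, hi, j, hj, h⟩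
    · exact hax _ h
    · rw [h]
      obtain ⟨ln, hln, h1, h2, h5⟩ := lineP_UF1 hK hg hi hj
      rw [← h5]
      exact hE ln hln x hx x' hx' (hax _ h1) (hax _ h2)
  simpa only [ev, ofNat_UF1] using ha

end Pool.Agent.SemiRandom.Und
end

-- part Pool.Agent.P.MP_c53d0e_pr.WH3
section

set_option autoImplicit false
set_option linter.unusedSectionVars false

namespace Pool.Agent.SemiRandom.Fix

open Finset Und

open Pool.Agent.Lib.PrimrecProp

section aux
variable {α : Type} [Primcodable α]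

@[fun_prop] theorem p_ite_WH3 {σ : Type} [Primcodable σ] {a b : α → ℕ} {f g : α → σ}
    (ha : Primrec a) (hb : Primrec b) (hf : Primrec f) (hg : Primrec g) :
    Primrec (fun x => if a x = b x then f x else g x) :=
  Primrec.ite (Primrec.eq.comp ha hb) hf hg

@[fun_prop] theorem p_div_WH3 {f g : α → ℕ} (hf : Primrec f) (hg : Primrec g) :
    Primrec (fun a => f a / g a) := Primrec.nat_div.comp hf hg

theorem p_getD_WH3 {f : α → List ℕ} {g d : α → ℕ} (hf : Primrec f) (hg : Primrec g)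
    (hd : Primrec d) : Primrec (fun a => (f a).getD (g a) (d a)) :=
  (Primrec.option_getD.comp (Primrec.list_getElem?.comp hf hg) hd).of_eq fun _ =>
    (List.getD_eq_getElem?_getD ..).symm

@[fun_prop] theorem p_encC_WH3 (r s : ℕ) {a i j : α → ℕ} (ha : Primrec a) (hi : Primrec i)
    (hj : Primrec j) : Primrec (fun x => encC r s (a x) (i x) (j x)) := by
  unfold encC; fun_prop

@[fun_prop] theorem p_encP_WH3 (s : ℕ) {a : α → ℕ} (ha : Primrec a) :
    Primrec (fun x => encP s (a x)) := by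
  unfold encP; fun_prop

@[fun_prop] theorem p_encZ_WH3 (s : ℕ) {a : α → ℕ} (ha : Primrec a) :
    Primrec (fun x => encZ s (a x)) := by
  unfold encZ; fun_prop

@[fun_prop] theorem p_encT_WH3 (s : ℕ) {a b : α → ℕ} (ha : Primrec a) (hb : Primrec b) :
    Primrec (fun x => encT s (a x) (b x)) := by
  unfold encT; fun_prop

@[fun_prop] theorem p_cz_WH3 (r : ℕ) {g a i : α → ℕ} (hg : Primrec g) (ha : Primrec a)
    (hi : Primrec i) : Primrec (fun x => cz r (g x) (a x) (i x)) := by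
  unfold cz; fun_prop

@[fun_prop] theorem p_fdL_WH3 (r : ℕ) {a : α → ℕ} (ha : Primrec a) :
    Primrec (fun x => fdL r (a x)) := by
  unfold fdL; fun_prop

theorem p_nprivN_WH3 {n g a i : α → ℕ} (hn : Primrec n) (hg : Primrec g) (ha : Primrec a)
    (hi : Primrec i) : Primrec (fun x => nprivN (n x) (g x) (a x) (i x)) := by
  unfold nprivN
  refine p_ite_WH3 hg (.const _) (.const _) (p_ite_WH3 hi (.const _) ?_ (.const _))
  exact p_ite_WH3 hg (.const _) (.const _) (p_ite_WH3 ha hn (.const _) (.const _))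

attribute [fun_prop] p_nprivN_WH3

theorem p_rparN_WH3 {n g a i : α → ℕ} {l : α → List Line} (hn : Primrec n) (hl : Primrec l)
    (hg : Primrec g) (ha : Primrec a) (hi : Primrec i) :
    Primrec (fun x => rparN (n x) (l x) (g x) (a x) (i x)) := by
  unfold rparN
  have h1 : Primrec (fun x => if i x = 0 then 0 else 1) :=
    p_ite_WH3 hi (.const _) (.const _) (.const _)
  have h2 : Primrec (fun x => srcN ((l x).getD (a x) (0, 0, 0)) (if i x = 0 then 0 else 1)) :=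
    p_srcN_UH3 (by fun_prop) h1
  refine p_ite_WH3 hg (.const _) (p_cons (p_mod_UH3 h2 (by fun_prop)) (.const _)) ?_
  exact p_ite_WH3 hg (.const _) (.const _) (p_ite_WH3 hi (.const _) (by fun_prop) (.const _))

attribute [fun_prop] p_rparN_WH3

theorem p_tgtN_WH3 (r s : ℕ) {n g a : α → ℕ} {l : α → List Line} (hn : Primrec n)
    (hl : Primrec l) (hg : Primrec g) (ha : Primrec a) :
    Primrec (fun x => tgtN r s (n x) (l x) (g x) (a x)) := by
  unfold tgtN
  refine p_ite_WH3 hg (.const _) (by fun_prop) (p_ite_WH3 hg (.const _) (by fun_prop) ?_)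
  exact p_ite_WH3 ha (.const _) (by fun_prop) (by fun_prop)

theorem p_ownL_WH3 (r s : ℕ) {n : α → ℕ} {l : α → List Line} (hn : Primrec n)
    (hl : Primrec l) : Primrec (fun x => ownL r s (n x) (l x)) := by
  unfold ownL; fun_prop

theorem p_oL_WH3 (r s : ℕ) {n : α → ℕ} {l : α → List Line} (hn : Primrec n)
    (hl : Primrec l) : Primrec (fun x => oL r s (n x) (l x)) := by
  unfold oL
  refine p_flatMap (p_ownL_WH3 r s hn hl) (p_map (.const _) ?_)
  exact p_cons (by fun_prop) (p_cons (p_getD_WH3 (by fun_prop) (by fun_prop) (by fun_prop))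
    (by fun_prop))

theorem p_fL_WH3 (r s : ℕ) {n : α → ℕ} {l : α → List Line} (hn : Primrec n)
    (hl : Primrec l) : Primrec (fun x => fL r s (n x) (l x)) := by
  unfold fL
  refine p_map (by fun_prop) (p_cons ?_ (p_map (.const _) (p_encZ_WH3 s (p_cz_WH3 r ?_ ?_ ?_))))
  · exact p_tgtN_WH3 r s (by fun_prop) (by fun_prop) (by fun_prop) (by fun_prop)
  · exact p_ite_WH3 (by fun_prop) (.const _)
      (p_ite_WH3 (by fun_prop) (.const _) (.const _) (.const _)) (by fun_prop)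
  · fun_prop
  · fun_prop

end aux

theorem primrec_graphF (r s : ℕ) : Primrec fun x : ℕ × List Line =>
    (kF r s x.1 x.2.length, edgeF r s x.1 x.2) := by
  have h1 : Primrec fun x : ℕ × List Line => kF r s x.1 x.2.length := by
    unfold kF; fun_prop
  have h2 : Primrec fun x : ℕ × List Line => edgeF r s x.1 x.2 := by
    unfold edgeF
    exact p_map (p_append (p_append (.const _) (p_oL_WH3 r s Primrec.fst Primrec.snd))
      (p_fL_WH3 r s Primrec.fst Primrec.snd)) (by fun_prop)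
  exact h1.pair h2

theorem good_datOf (r : ℕ) [NeZero r] {p : Prs} (hW : p.WF) :
    (datOf r (npts 4 p) (lines 4 p)).Good := by
  refine ⟨finProdFinEquiv.symm.surjective, fun b => ?_, fun a => ?_⟩
  · obtain ⟨j, c, d, h⟩ := other_UF1 (K := 4) le_rfl b.2
    have hm : (ptP 4 1 b j, ptP 4 1 b j, (b : ℕ)) ∈ lines 4 p :=
      mem_lines.2 ⟨_, h, Or.inl (by simp [globL])⟩
    obtain ⟨e, he⟩ := List.mem_iff_get.1 hm
    have hG : 1 < p.G := lt_G hW.1
    have hj : j < 4 := h.2.1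
    have h1 := ptP_le hW hG b.2 hj
    have h2 := (ptP_decode (g := 1) b.2 hj).1
    refine ⟨e, ?_, fun l b' hb => ?_⟩
    · show Fin.ofNat _ ((lines 4 p).get e).2.2 = Fin.ofNat _ (b : ℕ)
      rw [he]
    · have h3 : ((lines 4 p).get e).src l = ptP 4 1 b j := by
        rw [he]
        fin_cases l <;> rfl
      have h4 : Fin.ofNat (npts 4 p + 1) (((lines 4 p).get e).src l) =
        Fin.ofNat (npts 4 p + 1) (b' : ℕ) := hb
      have h5 := congrArg Fin.val h4
      have h6 := b'.2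
      rw [h3, Fin.val_ofNat, Fin.val_ofNat, Nat.mod_eq_of_lt (by omega),
        Nat.mod_eq_of_lt (by omega)] at h5
      omega
  · rcases point_cases (K := 4) (p := p) (by omega) (Nat.lt_succ_iff.1 a.2) with
      h | ⟨g, hg, i, hi, j, hj, h⟩
    · exact Or.inl ⟨⟨a, h⟩, (ofNat_UF1 a).symm⟩
    · obtain ⟨ln, hln, h1, h2, h3⟩ := lineP_UF1 (K := 4) le_rfl hg hi hj
      obtain ⟨e, rfl⟩ := List.mem_iff_get.1 hln
      refine Or.inr ⟨e, ?_, fun l => ?_⟩
      · show Fin.ofNat _ ((lines 4 p).get e).2.2 = a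
        rw [h3, ← h, ofNat_UF1]
      · fin_cases l
        · exact ⟨⟨_, h1⟩, rfl⟩
        · exact ⟨⟨_, h2⟩, rfl⟩

end Pool.Agent.SemiRandom.Fix
end

-- part Pool.Agent.P.MP_c53d0e_pr.UD9
section

set_option autoImplicit false
set_option linter.unusedSectionVars false

namespace Pool.Agent.SemiRandom.Und

open Finset

open Filter Topology

variable {k : ℕ}

theorem tau_ge (G : Finset (Finset (Fin k))) (r s : ℕ) {δ δ' : ℝ} (hδ : δ < δ')
    (H : ∀ q : ℝ, 0 < q → ∀ᶠ n : ℕ in atTop, ∀ (S : Strategy (RSet n r) (Move n r s)) (T : ℕ),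
      (T : ℝ) / n.choose r ≤ (n : ℝ) ^ (-δ) → winProb G S T < q) :
    ((r - δ' : ℝ) : EReal) ≤ tau G r s := by
  refine ge_of_tendsto (tau_tendsto G r s) ?_
  filter_upwards [Ioo_mem_nhdsLT (zero_lt_one' ℝ)] with q hq'
  have hq : 0 < q := hq'.1
  have t2 := choose_lim (a := id) one_pos (tendsto_const_nhds.congr' (by
    filter_upwards [eventually_gt_atTop 0] with n hn
    simp only [id]; field_simp)) r
  have t3 : Tendsto (fun n : ℕ => (n : ℝ) ^ (-(δ' - δ))) atTop (𝓝 0) :=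
    (tendsto_rpow_neg_atTop (by linarith)).comp tendsto_natCast_atTop_atTop
  refine le_limsup_of_frequently_le (Eventually.frequently ?_)
  filter_upwards [H q hq, t3.eventually_lt t2 (by positivity),
    eventually_ge_atTop 2, eventually_ge_atTop r] with n h1 h2 hn hrn
  have hn0 : (0 : ℝ) < n := by exact_mod_cast (by omega : 0 < n)
  have hlog : 0 < Real.log n := Real.log_pos (by exact_mod_cast (by omega : 1 < n))
  have hC : (0 : ℝ) < n.choose r := by exact_mod_cast Nat.choose_pos hrn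
  have key : ENNReal.ofReal ((n : ℝ) ^ (r - δ')) ≤ tauN G r s q n := by
    rcases eq_or_ne (tauN G r s q n) ⊤ with h | h
    · rw [h]; exact le_top
    obtain ⟨⟨t, ⟨S, hS⟩⟩, ht⟩ : ∃ t : {t : ℕ // ∃ S : Strategy (RSet n r) (Move n r s),
        q ≤ winProb G S t}, ((t : ℕ) : ℕ∞) ≤ tauN G r s q n := by
      by_contra hcon
      push Not at hcon
      have : tauN G r s q n + 1 ≤ tauN G r s q n :=
        le_iInf fun S => le_iInf₂ fun t ht => Order.add_one_le_of_lt (hcon ⟨t, S, ht⟩)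
      exact absurd ((ENat.add_one_le_iff h).1 this) (lt_irrefl _)
    refine le_trans ?_ (ENat.toENNReal_le.2 ht)
    rw [ENat.toENNReal_coe, ← ENNReal.ofReal_natCast]
    refine ENNReal.ofReal_le_ofReal (not_lt.1 fun hlt => ?_)
    refine absurd hS (not_le.2 (h1 S t ?_))
    rw [div_le_iff₀ hC]
    simp only [id] at h2
    rw [lt_div_iff₀ (by positivity)] at h2
    have e : (n : ℝ) ^ (r - δ') = (n : ℝ) ^ (-δ) * ((n : ℝ) ^ (-(δ' - δ)) * (n : ℝ) ^ r) := by
      rw [← Real.rpow_natCast, ← Real.rpow_add hn0, ← Real.rpow_add hn0]; congr 1; ring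
    rw [e] at hlt
    exact hlt.le.trans (mul_le_mul_of_nonneg_left h2.le (by positivity))
  refine le_trans (le_of_eq ?_) (EReal.div_le_div_right_of_nonneg
    (by exact_mod_cast hlog.le) (ENNReal.log_le_log key))
  rw [ENNReal.log_ofReal_of_pos (by positivity), ← EReal.coe_div, Real.log_rpow hn0,
    mul_div_cancel_right₀ _ hlog.ne']

theorem tau_le (G : Finset (Finset (Fin k))) (r s : ℕ) (x : ℝ)
    (H : ∀ q : ℝ, q < 1 → ∃ c : ℝ, 0 < c ∧ ∀ᶠ n : ℕ in atTop,
      ∃ (S : Strategy (RSet n r) (Move n r s)) (T : ℕ),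
        q ≤ winProb G S T ∧ (T : ℝ) ≤ c * (n : ℝ) ^ x) :
    tau G r s ≤ (x : EReal) := by
  refine le_of_tendsto (tau_tendsto G r s) ?_
  filter_upwards [self_mem_nhdsWithin] with q hq
  obtain ⟨c, hc0, hev⟩ := H q hq
  have t1 : Tendsto (fun n : ℕ => Real.log c / Real.log n + x) atTop (𝓝 (0 + x)) :=
    (tendsto_const_nhds.div_atTop
      (Real.tendsto_log_atTop.comp tendsto_natCast_atTop_atTop)).add_const _
  rw [zero_add] at t1
  rw [← (EReal.tendsto_coe.2 t1).limsup_eq]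
  refine limsup_le_limsup ?_
  filter_upwards [hev, eventually_ge_atTop 2] with n hST hn
  obtain ⟨S, T, hq', hT⟩ := hST
  have hn0 : (0 : ℝ) < n := by exact_mod_cast (by omega : 0 < n)
  have hlog : 0 < Real.log n := Real.log_pos (by exact_mod_cast (by omega : 1 < n))
  have key : (tauN G r s q n : ENNReal) ≤ ENNReal.ofReal (c * (n : ℝ) ^ x) := by
    have : tauN G r s q n ≤ ((T : ℕ) : ℕ∞) := (iInf_le _ S).trans (iInf₂_le T hq')
    refine (ENat.toENNReal_le.2 this).trans ?_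
    rw [ENat.toENNReal_coe, ← ENNReal.ofReal_natCast]
    exact ENNReal.ofReal_le_ofReal hT
  refine (EReal.div_le_div_right_of_nonneg
    (by exact_mod_cast hlog.le) (ENNReal.log_le_log key)).trans (le_of_eq ?_)
  rw [ENNReal.log_ofReal_of_pos (by positivity), ← EReal.coe_div,
    Real.log_mul hc0.ne' (by positivity), Real.log_rpow hn0, add_div,
    mul_div_cancel_right₀ _ hlog.ne']

lemma contains_iff {V E : Type} [Fintype V] [DecidableEq V] [Fintype E] (ed : E → Finset V)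
    (enc : V ↪ Fin k) {n r s : ℕ} (hn : k ≤ n) (h : List (RSet n r × Move n r s)) :
    Contains (univ.image fun e => (ed e).map enc) h ↔ ContainsV ed h := by
  constructor
  · rintro ⟨φ, hφ⟩
    refine ⟨enc.trans φ, fun e => ?_⟩
    obtain ⟨x, hx, hx'⟩ := hφ _ (mem_image_of_mem _ (mem_univ e))
    exact ⟨x, hx, by rw [hx', Finset.map_map]⟩
  · rintro ⟨φ, hφ⟩
    obtain ⟨σ, hσ⟩ := Equiv.Perm.exists_extending_pair _ _
      (enc.trans (Fin.castLEEmb hn)).injective φ.injective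
    refine ⟨(Fin.castLEEmb hn).trans σ.toEmbedding, fun e he => ?_⟩
    obtain ⟨e', -, rfl⟩ := mem_image.1 he
    obtain ⟨x, hx, hx'⟩ := hφ e'
    refine ⟨x, hx, ?_⟩
    have : enc.trans ((Fin.castLEEmb hn).trans σ.toEmbedding) = φ :=
      Function.Embedding.ext fun v => hσ v
    rw [hx', Finset.map_map, this]

end Pool.Agent.SemiRandom.Und
end

-- part Pool.Agent.P.MP_c53d0e_pr.UE4
section

set_option autoImplicit false
set_option linter.unusedSectionVars false

namespace Pool.Agent.SemiRandom.Und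

open Finset

variable {V : Type} [Fintype V] [DecidableEq V] {n m r s : ℕ} [Nonempty (RSet n r)]
  [Nonempty (Move n r s)]

open Classical in
lemma multi_hit (κ : V × Fin m ↪ Fin n) (hrs : r ≤ s) {E : Type} (Es : Finset E)
    (ed key : E → Finset V) (he : ∀ e ∈ Es, (ed e).card = s ∧ key e ⊆ ed e ∧ (key e).card ≤ r)
    {ι : Type} (J : Finset ι) (F : ι → Finset (V → Fin m))
    (hFD : ∀ e ∈ Es, ∀ j ∈ J, ∀ j' ∈ J, ∀ ψ ∈ F j, ∀ ψ' ∈ F j',
      (∀ v ∈ key e, ψ v = ψ' v) → ∀ v ∈ ed e, ψ v = ψ' v)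
    (hinj : ∀ e ∈ Es, ∀ j ∈ J, ∀ ψ ∈ F j, ∀ ψ' ∈ F j, (∀ v ∈ key e, ψ v = ψ' v) → ψ = ψ')
    (f q T : ℕ) (hf : 2 ≤ f) (hF : ∀ j ∈ J, f ^ Es.card * q ≤ (F j).card) {γ ε : ℝ} (hγ : 0 < γ)
    (hT : 2 * (Fintype.card (RSet n r) : ℝ) ≤ ε * (γ * f * (T + 1))) :
    Reach (Es.card * T) (fun _ => True) (fun h : List (RSet n r × Move n r s) =>
      ∃ J' ⊆ J, (1 - Es.card * γ) * J.card ≤ J'.card ∧
        ∀ j ∈ J', ∃ F' ⊆ F j, q ≤ F'.card ∧ ∀ ψ ∈ F', ∀ e ∈ Es, Pres κ h (ed e) ψ)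
      (Es.card * ε) := by
  have hε : 0 ≤ ε := by
    by_contra hn
    have h1 : (0 : ℝ) < Fintype.card (RSet n r) := by exact_mod_cast Fintype.card_pos
    have h2 : (0 : ℝ) ≤ γ * f * (T + 1) := by positivity
    nlinarith [mul_nonneg (neg_nonneg.2 (not_le.1 hn).le) h2]
  have key1 := Reach.finset (T := T) Es (fun D (h : List (RSet n r × Move n r s)) =>
      ∃ J' ⊆ J, (1 - D.card * γ) * J.card ≤ J'.card ∧
        ∀ j ∈ J', ∃ F' ⊆ F j, f ^ (Es.card - D.card) * q ≤ F'.card ∧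
          ∀ ψ ∈ F', ∀ e ∈ D, Pres κ h (ed e) ψ) hε ?_
  · refine Reach.imp (Reach.pre key1 fun l _ => ⟨J, Subset.rfl, by simp, fun j hj =>
      ⟨F j, Subset.rfl, by simpa using hF j hj, by simp⟩⟩) ?_
    rintro l ⟨J', hJ', hc, H⟩
    exact ⟨J', hJ', hc, fun j hj => by simpa using H j hj⟩
  · intro D hD a ha haD h hh
    obtain ⟨J', hJ', hc, H⟩ := hh
    choose! F' hF' hcard hP using H
    have hlt : D.card + 1 ≤ Es.card := by
      rw [← card_insert_of_notMem haD]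
      exact card_le_card (insert_subset ha hD)
    have H1 := one_hit κ hrs (he a ha).1 (he a ha).2.1 (he a ha).2.2 J' F'
      (fun j hj j' hj' ψ hψ ψ' hψ' =>
        hFD a ha j (hJ' hj) j' (hJ' hj') ψ (hF' j hj hψ) ψ' (hF' j' hj' hψ'))
      (fun j hj ψ hψ ψ' hψ' => hinj a ha j (hJ' hj) ψ (hF' j hj hψ) ψ' (hF' j hj hψ'))
      f (f ^ (Es.card - (D.card + 1)) * q) T hf (fun j hj => by
        refine le_trans (le_of_eq ?_) (hcard j hj)
        have : Es.card - D.card = Es.card - (D.card + 1) + 1 := by omega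
        rw [this, pow_succ]; ring) hγ hT
    refine Reach.frame (A := fun l => ∀ j ∈ J', ∀ ψ ∈ F' j, ∀ e ∈ D, Pres κ l (ed e) ψ) H1
      (fun l l' hl j hj ψ hψ e he => (hl j hj ψ hψ e he).append l') ?_ h hP
    rintro l hl ⟨J'', hJ'', hc', H'⟩
    refine ⟨J'', hJ''.trans hJ', ?_, fun j hj => ⟨{ψ ∈ F' j | Pres κ l (ed a) ψ},
      (filter_subset _ _).trans (hF' j (hJ'' hj)), ?_, fun ψ hψ e he => ?_⟩⟩
    · rw [card_insert_of_notMem haD]
      have h1 : (J'.card : ℝ) ≤ J.card := by exact_mod_cast card_le_card hJ'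
      have h2 := mul_le_mul_of_nonneg_left h1 hγ.le
      push_cast
      linarith
    · rw [card_insert_of_notMem haD]
      exact H' j hj
    · obtain ⟨h1, h2⟩ := mem_filter.1 hψ
      rcases mem_insert.1 he with rfl | he
      · exact h2
      · exact hl j (hJ'' hj) ψ h1 e he

/-- One family. -/
lemma multi_hit_one (κ : V × Fin m ↪ Fin n) (hrs : r ≤ s) {E : Type} (Es : Finset E)
    (ed key : E → Finset V) (he : ∀ e ∈ Es, (ed e).card = s ∧ key e ⊆ ed e ∧ (key e).card ≤ r)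
    (F : Finset (V → Fin m))
    (hinj : ∀ e ∈ Es, ∀ ψ ∈ F, ∀ ψ' ∈ F, (∀ v ∈ key e, ψ v = ψ' v) → ψ = ψ')
    (f q T : ℕ) (hf : 2 ≤ f) (hF : f ^ Es.card * q ≤ F.card) {γ ε : ℝ} (hγ : 0 < γ)
    (hγ1 : Es.card * γ < 1)
    (hT : 2 * (Fintype.card (RSet n r) : ℝ) ≤ ε * (γ * f * (T + 1))) :
    Reach (Es.card * T) (fun _ => True) (fun h : List (RSet n r × Move n r s) =>
      ∃ F' ⊆ F, q ≤ F'.card ∧ ∀ ψ ∈ F', ∀ e ∈ Es, Pres κ h (ed e) ψ) (Es.card * ε) := by
  refine Reach.imp (multi_hit κ hrs Es ed key he (univ : Finset Unit) (fun _ => F)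
    (fun e he _ _ _ _ ψ hψ ψ' hψ' H v _ => by rw [hinj e he ψ hψ ψ' hψ' H])
    (fun e he _ _ => hinj e he) f q T hf (fun _ _ => hF) hγ hT) ?_
  rintro l ⟨J', -, hc, H⟩
  have h1 : (0 : ℝ) < J'.card := by
    refine lt_of_lt_of_le ?_ hc
    simp only [card_univ, Fintype.card_unit, Nat.cast_one, mul_one]
    linarith
  obtain ⟨j, hj⟩ := card_pos.1 (by exact_mod_cast h1 : 0 < J'.card)
  exact H j hj

end Pool.Agent.SemiRandom.Und
end

-- part Pool.Agent.P.MP_c53d0e_pr.UE5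
section

set_option autoImplicit false
set_option linter.unusedSectionVars false

namespace Pool.Agent.SemiRandom.Und

open Finset

variable {r s : ℕ} {P Ln : Type} [Fintype P] [DecidableEq P] [Fintype Ln] [DecidableEq Ln]
  {n m w f T : ℕ} {γ ε : ℝ} [Nonempty (RSet n r)] [Nonempty (Move n r s)]

lemma exK_UE5 (hO : Ok r s P Ln) : ∃ K : Finset (Vx r s P Ln), K.card = r ∧
    (∀ j : Fin (s + 1), (j : ℕ) < 2 → Vx.c j ∈ K) ∧
    ∀ v ∈ K, ∃ j : Fin (s + 1), v = Vx.c j ∧ (j : ℕ) < s ∧ ((j : ℕ) < 2 ∨ 2 * r + 2 ≤ (j : ℕ)) := by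
  have h8 := hO.hr
  have hs : 5 * r ≤ s + 1 := by have := hO.hs; omega
  let g : Fin r → Vx r s P Ln := fun b =>
    Vx.c ⟨if (b : ℕ) < 2 then b else b + 2 * r, by have := b.2; split_ifs <;> omega⟩
  have hg : Function.Injective g := by
    intro a b hab
    simp only [g, Vx.c.injEq, Fin.mk.injEq] at hab
    apply Fin.ext
    split_ifs at hab <;> omega
  refine ⟨univ.image g, by rw [card_image_of_injective _ hg]; simp, ?_, ?_⟩
  · intro j hj
    refine mem_image.2 ⟨⟨j, by omega⟩, mem_univ _, ?_⟩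
    simp only [g, Vx.c.injEq]
    apply Fin.ext
    simp [hj]
  · intro v hv
    obtain ⟨b, -, rfl⟩ := mem_image.1 hv
    refine ⟨_, rfl, ?_, ?_⟩
    · have := b.2
      dsimp only
      split_ifs <;> omega
    · dsimp only
      split_ifs <;> omega

lemma pow_UE5 {r m f : ℕ} (hr : 1 ≤ r) (hm : 2 * f ^ 2 ≤ m) : 2 * f ^ (2 * r) ≤ m ^ r := by
  calc 2 * f ^ (2 * r) ≤ 2 ^ r * f ^ (2 * r) := by
        gcongr
        calc 2 = 2 ^ 1 := rfl
          _ ≤ 2 ^ r := Nat.pow_le_pow_right (by norm_num) hr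
    _ = (2 * f ^ 2) ^ r := by rw [mul_pow, ← pow_mul]
    _ ≤ m ^ r := Nat.pow_le_pow_left hm r

theorem stage_Q (hO : Ok r s P Ln) (I : Inst (r + r) P Ln) (κ : Vx r s P Ln × Fin m ↪ Fin n)
    (hN : Num r (Fintype.card Ln) n m w f T γ ε) :
    Reach ((2 * r + 2) * T) (fun _ => True) (fun h => ∃ ψ, PG I κ .Q ψ h)
      ((2 * r + 2 : ℕ) * ε) := by
  classical
  have h8 := hO.hr
  have hrs : r < s := hO.lt
  obtain ⟨K, hKc, hK2, hK⟩ := exK_UE5 (P := P) hO
  have hf := hN.hf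
  have hm0 : 0 < m := lt_of_lt_of_le (by positivity) hN.m1
  let z0 : Fin m := ⟨0, hm0⟩
  let cs : Vx r s P Ln := Vx.c (Fin.last s)
  have hcs : cs ∉ K := by
    intro h
    obtain ⟨j, hj, hlt, -⟩ := hK _ h
    simp only [cs, Vx.c.injEq] at hj
    rw [← hj] at hlt
    simp at hlt
  let eq : Fin (2 * r + 2) → Finset (Vx r s P Ln) := fun i => ed I s ⟨.Q, i⟩
  have hmem : ∀ (i : Fin (2 * r + 2)) (j : Fin (s + 1)), Vx.c j ∈ eq i ↔ (j : ℕ) ≠ i := by
    intro i j
    have := c_mem_ed I (⟨.Q, i⟩ : Ed r P Ln) j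
    refine this.trans ⟨fun h => h.2, fun h => ⟨?_, h⟩⟩
    exact j.2
  have hs5 : 5 * r ≤ s + 1 := by have := hO.hs; omega
  have hcse : ∀ i, cs ∈ eq i := by
    intro i
    rw [hmem]
    have := i.2
    simp only [Fin.val_last]
    omega
  have hcard : ∀ i, (eq i).card = s := fun i => card_ed hO I _
  let E1 : Finset (Fin (2 * r + 2)) := univ.filter fun i => (i : ℕ) < 2
  let E2 : Finset (Fin (2 * r + 2)) := univ.filter fun i => ¬ (i : ℕ) < 2
  have hE1 : E1.card = 2 := by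
    simp only [E1]
    rw [Fin.card_filter_val_lt]
    omega
  have hE2 : E2.card = 2 * r := by
    have := card_filter_add_card_filter_not (s := (univ : Finset (Fin (2 * r + 2))))
      (fun i => (i : ℕ) < 2)
    rw [card_univ, Fintype.card_fin] at this
    change E1.card + E2.card = _ at this
    omega
  let J : Finset (Vx r s P Ln → Fin m) := Fintype.piFinset fun v => if v ∈ K then univ else {z0}
  have hJ : ∀ j ∈ J, ∀ v, v ∉ K → j v = z0 := by
    intro j hj v hv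
    have := Fintype.mem_piFinset.1 hj v
    rw [if_neg hv] at this
    exact mem_singleton.1 this
  have hJc : J.card = m ^ r := by
    rw [Fintype.card_piFinset]
    have : ∀ v : Vx r s P Ln, (if v ∈ K then (univ : Finset (Fin m)) else {z0}).card =
        if v ∈ K then m else 1 := by
      intro v
      split_ifs <;> simp
    simp only [this]
    rw [prod_ite_mem, univ_inter, prod_const, hKc]
  let F : (Vx r s P Ln → Fin m) → Finset (Vx r s P Ln → Fin m) := fun j =>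
    univ.image (Function.update j cs)
  have hF : ∀ j ψ, ψ ∈ F j → ∃ a, ψ = Function.update j cs a := by
    intro j ψ h
    obtain ⟨a, -, rfl⟩ := mem_image.1 h
    exact ⟨a, rfl⟩
  have S1 := multi_hit (n := n) κ hrs.le E1 eq (fun i => insert cs K ∩ eq i) ?he J F ?hFD ?hinj
    f 1 T hf ?hF hN.g0 hN.hT
  case he =>
    intro i hi
    refine ⟨hcard i, inter_subset_right, ?_⟩
    have hi2 : (i : ℕ) < 2 := (mem_filter.1 hi).2
    have hin : Vx.c (⟨i, by omega⟩ : Fin (s + 1)) ∈ insert cs K :=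
      mem_insert_of_mem (hK2 _ hi2)
    have hsub : insert cs K ∩ eq i ⊆ (insert cs K).erase (Vx.c ⟨i, by omega⟩) := by
      intro v hv
      refine mem_erase.2 ⟨?_, (mem_inter.1 hv).1⟩
      rintro rfl
      exact (hmem _ _).1 (mem_inter.1 hv).2 rfl
    have := card_le_card hsub
    rw [card_erase_of_mem hin, card_insert_of_notMem hcs, hKc] at this
    omega
  case hFD =>
    intro i _ j hj j' hj' ψ hψ ψ' hψ' H v hv
    by_cases hvK : v ∈ insert cs K
    · exact H v (mem_inter.2 ⟨hvK, hv⟩)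
    · obtain ⟨a, rfl⟩ := hF _ _ hψ
      obtain ⟨a', rfl⟩ := hF _ _ hψ'
      rw [mem_insert, not_or] at hvK
      rw [Function.update_of_ne hvK.1, Function.update_of_ne hvK.1, hJ j hj v hvK.2,
        hJ j' hj' v hvK.2]
  case hinj =>
    intro i _ j _ ψ hψ ψ' hψ' H
    obtain ⟨a, rfl⟩ := hF _ _ hψ
    obtain ⟨a', rfl⟩ := hF _ _ hψ'
    have := H cs (mem_inter.2 ⟨mem_insert_self _ _, hcse i⟩)
    rw [Function.update_self, Function.update_self] at this
    rw [this]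
  case hF =>
    intro j _
    rw [card_image_of_injective _ (Function.update_injective j cs), hE1]
    have := hN.m1
    simp only [card_univ, Fintype.card_fin]
    omega
  have S2 : Reach (E2.card * T) (fun h : List (RSet n r × Move n r s) =>
      ∃ J' ⊆ J, (1 - E1.card * γ) * J.card ≤ J'.card ∧
        ∀ j ∈ J', ∃ F' ⊆ F j, 1 ≤ F'.card ∧ ∀ ψ ∈ F', ∀ e ∈ E1, Pres κ h (eq e) ψ)
      (fun h => ∃ ψ, PG I κ .Q ψ h) (E2.card * ε) := by
    refine Reach.of_forall fun h0 hA => ?_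
    obtain ⟨J', hJ', hc, hP⟩ := hA
    have hP' : ∀ j ∈ J', ∃ a, ∀ e ∈ E1, Pres κ h0 (eq e) (Function.update j cs a) := by
      intro j hj
      obtain ⟨F', hF', h1, h2⟩ := hP j hj
      obtain ⟨ψ, hψ⟩ := card_pos.1 h1
      obtain ⟨a, rfl⟩ := hF _ _ (hF' hψ)
      exact ⟨a, h2 _ hψ⟩
    have : Nonempty (Fin m) := ⟨z0⟩
    choose! a ha using hP'
    have hinj : ∀ j ∈ J', ∀ j' ∈ J', (∀ v ∈ K, Function.update j cs (a j) v =
        Function.update j' cs (a j') v) → j = j' := by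
      intro j hj j' hj' H
      funext v
      by_cases hv : v ∈ K
      · have := H v hv
        have hne : v ≠ cs := fun h => hcs (h ▸ hv)
        rwa [Function.update_of_ne hne, Function.update_of_ne hne] at this
      · rw [hJ j (hJ' hj) v hv, hJ j' (hJ' hj') v hv]
    let G : Finset (Vx r s P Ln → Fin m) := J'.image fun j => Function.update j cs (a j)
    have hGc : G.card = J'.card := by
      refine card_image_of_injOn fun j hj j' hj' H => hinj j hj j' hj' fun v _ => ?_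
      exact congrFun H v
    have hr1 : (1 : ℝ) ≤ r := by exact_mod_cast (by omega : 1 ≤ r)
    have hg0 := hN.g0
    have hg1 := hN.g1
    have hGf : f ^ E2.card * 1 ≤ G.card := by
      rw [hE2, mul_one, hGc]
      have h1 := pow_UE5 (by omega : 1 ≤ r) hN.m1
      rw [hE1, hJc] at hc
      have h2 : (2 : ℝ) * ((f ^ (2 * r) : ℕ) : ℝ) ≤ ((m ^ r : ℕ) : ℝ) := by exact_mod_cast h1
      have h3 : (1 / 2 : ℝ) ≤ 1 - (2 : ℕ) * γ := by push_cast; nlinarith
      have h4 : (1 / 2 : ℝ) * ((m ^ r : ℕ) : ℝ) ≤ (1 - (2 : ℕ) * γ) * ((m ^ r : ℕ) : ℝ) :=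
        mul_le_mul_of_nonneg_right h3 (Nat.cast_nonneg _)
      have h6 := h4.trans hc
      have h5 : ((f ^ (2 * r) : ℕ) : ℝ) ≤ (J'.card : ℝ) := by
        generalize ((f ^ (2 * r) : ℕ) : ℝ) = A at h2 ⊢
        generalize ((m ^ r : ℕ) : ℝ) = B at h2 h6
        linarith
      exact_mod_cast h5
    have S := multi_hit_one (n := n) κ hrs.le E2 eq (fun _ => K) ?he G ?hinj f 1 T hf hGf hN.g0
      ?hg hN.hT
    case he =>
      intro i hi
      refine ⟨hcard i, fun v hv => ?_, hKc.le⟩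
      obtain ⟨j, rfl, -, hj⟩ := hK v hv
      rw [hmem]
      have h1 : ¬ (i : ℕ) < 2 := (mem_filter.1 hi).2
      have := i.2
      omega
    case hinj =>
      intro i _ ψ hψ ψ' hψ' H
      obtain ⟨j, hj, rfl⟩ := mem_image.1 hψ
      obtain ⟨j', hj', rfl⟩ := mem_image.1 hψ'
      rw [hinj j hj j' hj' H]
    case hg =>
      rw [hE2]
      push_cast
      linarith
    refine Reach.pre (Reach.frame (A := fun h => ∀ ψ ∈ G, ∀ e ∈ E1, Pres κ h (eq e) ψ) S
      (fun h l H ψ hψ e he => (H ψ hψ e he).append l) ?_) ?_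
    · rintro l H ⟨F', hF', h1, h2⟩
      obtain ⟨ψ, hψ⟩ := card_pos.1 h1
      refine ⟨ψ, fun i => ?_⟩
      by_cases hi : (i : ℕ) < 2
      · exact H ψ (hF' hψ) i (mem_filter.2 ⟨mem_univ _, hi⟩)
      · exact h2 ψ hψ i (mem_filter.2 ⟨mem_univ _, hi⟩)
    · rintro l rfl ψ hψ e he
      obtain ⟨j, hj, rfl⟩ := mem_image.1 hψ
      exact ha j hj e he
  have := S1.trans S2 (mul_nonneg (Nat.cast_nonneg _) hN.e0)
  rw [hE1, hE2] at this
  convert this using 1
  · ring
  · push_cast; ring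

end Pool.Agent.SemiRandom.Und
end

-- part Pool.Agent.P.MP_c53d0e_pr.UE6
section

set_option autoImplicit false
set_option linter.unusedSectionVars false

namespace Pool.Agent.SemiRandom.Und

open Finset

variable {r s : ℕ} {P Ln : Type} [Fintype P] [DecidableEq P] [Fintype Ln] [DecidableEq Ln]
  {n m w f T : ℕ} {γ ε : ℝ} [Nonempty (RSet n r)] [Nonempty (Move n r s)]

open Function in
lemma unary_UE6 (hO : Ok r s P Ln) (I : Inst (r + r) P Ln) (κ : Vx r s P Ln × Fin m ↪ Fin n)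
    (hN : Num r (Fintype.card Ln) n m w f T γ ε) (g : Gp r P Ln) (v : Vx r s P Ln)
    (hg : NN I s g = {v}) (hM : g.M ≤ 2) (ψ : Vx r s P Ln → Fin m) (q : ℕ)
    (hq : f ^ g.M * q ≤ m) :
    Reach (g.M * T) (fun _ => True) (fun h : List (RSet n r × Move n r s) =>
      ∃ A : Finset (Fin m), q ≤ A.card ∧ ∀ a ∈ A, PG I κ g (update ψ v a) h) (g.M * ε) := by
  have hr := hO.hr
  have hrR : (2 : ℝ) ≤ r := by exact_mod_cast hr
  have hMR : (g.M : ℝ) ≤ 2 := by exact_mod_cast hM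
  have hc : (univ : Finset (Fin g.M)).card = g.M := by simp
  have H := multi_hit_one κ hO.lt.le (univ : Finset (Fin g.M)) (fun i => ed I s ⟨g, i⟩)
    (fun _ => {v}) (fun i _ => ⟨card_ed hO I _, hg ▸ NN_subset_ed I ⟨g, i⟩, by
      rw [card_singleton]; omega⟩)
    (univ.image (update ψ v)) (fun _ _ φ hφ φ' hφ' hv => by
      obtain ⟨a, -, rfl⟩ := mem_image.1 hφ
      obtain ⟨a', -, rfl⟩ := mem_image.1 hφ'
      have := hv v (mem_singleton_self v)
      rw [update_self, update_self] at this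
      rw [this]) f q T hN.hf (by
      rw [hc, card_image_of_injective _ (update_injective ψ v)]
      simpa using hq) hN.g0 (by
      rw [hc]
      nlinarith [hN.g1, hN.g0]) hN.hT
  rw [hc] at H
  refine Reach.imp H fun h ⟨F', hF', hq', hP⟩ => ⟨univ.filter fun a => update ψ v a ∈ F', ?_, ?_⟩
  · refine hq'.trans (le_trans (card_le_card (t := (univ.filter
      fun a => update ψ v a ∈ F').image (update ψ v)) fun φ hφ => ?_) card_image_le)
    obtain ⟨a, -, rfl⟩ := mem_image.1 (hF' hφ)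
    exact mem_image_of_mem _ (mem_filter.2 ⟨mem_univ _, hφ⟩)
  · exact fun a ha i => hP _ (mem_filter.1 ha).2 i (mem_univ _)

theorem stage_Y (hO : Ok r s P Ln) (I : Inst (r + r) P Ln) (κ : Vx r s P Ln × Fin m ↪ Fin n)
    (hN : Num r (Fintype.card Ln) n m w f T γ ε) :
    Reach (2 * r * (2 * T)) (fun h => ∃ ψ, PG I κ .Q ψ h) (fun h => ∃ ψ, I2 I κ ψ h)
      ((2 * r : ℕ) * (2 * ε)) := by
  have H := Reach.finset (T := 2 * T) (ε := 2 * ε) (univ : Finset (Fin (2 * r)))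
    (fun D (h : List (RSet n r × Move n r s)) =>
      ∃ ψ, PG I κ .Q ψ h ∧ ∀ i ∈ D, PG I κ (.Y i) ψ h) (by linarith [hN.e0]) (by
      intro D _ i _ hi
      refine Reach.ex fun ψ => ?_
      have h1 := unary_UE6 hO I κ hN (.Y i) (Vx.y i) rfl le_rfl ψ 1 (by
        have := hN.m1
        simp only [Gp.M]
        omega)
      have h2 : (((Gp.Y i : Gp r P Ln).M : ℕ) : ℝ) = 2 := by simp [Gp.M]
      rw [h2] at h1
      refine Reach.frame h1
        (fun h l H => ⟨H.1.append l, fun j hj => (H.2 j hj).append l⟩) ?_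
      rintro h ⟨hQ, hY⟩ ⟨A, hA, hP⟩
      obtain ⟨a, ha⟩ := card_pos.1 hA
      refine ⟨Function.update ψ (Vx.y i) a, hQ.congr (fun j => by simp) (by simp [NN]),
        fun j hj => ?_⟩
      rcases mem_insert.1 hj with rfl | hj
      · exact hP a ha
      · have hne : j ≠ i := fun hh => hi (hh ▸ hj)
        exact (hY j hj).congr (fun j => by simp) (by simp [NN, hne]))
  rw [card_univ, Fintype.card_fin] at H
  exact Reach.imp (Reach.pre H fun h ⟨ψ, hψ⟩ => ⟨ψ, hψ, by simp⟩)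
    fun h ⟨ψ, h1, h2⟩ => ⟨ψ, h1, fun i => h2 i (mem_univ _)⟩

theorem stage_U (hO : Ok r s P Ln) (I : Inst (r + r) P Ln) (κ : Vx r s P Ln × Fin m ↪ Fin n)
    (hN : Num r (Fintype.card Ln) n m w f T γ ε) :
    Reach (Fintype.card P * T) (fun h => ∃ ψ, I2 I κ ψ h)
      (fun h => ∃ ψ A, I3 I κ ψ A h ∧ ∀ p, 2 ^ (r + Fintype.card Ln * 2) * w ≤ (A p).card)
      (Fintype.card P * ε) := by
  refine Reach.ex fun ψ => ?_
  have H := Reach.finset (T := T) (ε := ε) (univ : Finset P)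
    (fun D (h : List (RSet n r × Move n r s)) => ∃ A : P → Finset (Fin m),
      I3 I κ ψ A h ∧ ∀ p ∈ D, 2 ^ (r + Fintype.card Ln * 2) * w ≤ (A p).card) hN.e0 (by
      intro D _ p _ _
      refine Reach.ex fun A => ?_
      have h1 := unary_UE6 hO I κ hN (.U p) (Vx.pt p) rfl (by simp [Gp.M]) ψ
        (2 ^ (r + Fintype.card Ln * 2) * w) (by
        refine le_trans ?_ hN.m2
        simp only [Gp.M, pow_one]
        rw [mul_comm f]
        exact Nat.mul_le_mul (Nat.mul_le_mul_right _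
          (Nat.pow_le_pow_right (by norm_num) (by omega))) hN.fw)
      have h2 : (Gp.U p : Gp r P Ln).M = 1 := rfl
      rw [h2, one_mul, Nat.cast_one, one_mul] at h1
      refine Reach.frame h1 (fun h l H => ⟨I3_mono ψ A h l H.1, H.2⟩) ?_
      rintro h ⟨⟨hI, hU⟩, hA⟩ ⟨A0, hA0, hP⟩
      refine ⟨Function.update A p A0, ⟨hI, fun p' a ha => ?_⟩, fun p' hp' => ?_⟩
      · by_cases hp : p' = p
        · subst hp
          rw [Function.update_self] at ha
          exact hP a ha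
        · rw [Function.update_of_ne hp] at ha
          exact hU p' a ha
      · by_cases hp : p' = p
        · subst hp
          rwa [Function.update_self]
        · rw [Function.update_of_ne hp]
          exact hA p' ((mem_insert.1 hp').resolve_left hp))
  rw [card_univ] at H
  exact Reach.imp (Reach.pre H fun h hψ => ⟨fun _ => ∅, ⟨hψ, by simp⟩, by simp⟩)
    fun h ⟨A, h1, h2⟩ => ⟨ψ, A, h1, fun p => h2 p (mem_univ _)⟩

end Pool.Agent.SemiRandom.Und
end

-- part Pool.Agent.P.MP_c53d0e_pr.UE7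
section

set_option autoImplicit false
set_option linter.unusedSectionVars false

namespace Pool.Agent.SemiRandom.Und

open Finset

variable {r s : ℕ} {P Ln : Type} [Fintype P] [DecidableEq P] [Fintype Ln] [DecidableEq Ln]
  {n m w f T : ℕ} {γ ε : ℝ} [Nonempty (RSet n r)] [Nonempty (Move n r s)]

/-- Matching data of the proxy `x` on a set `B` of values of its parent. -/
def MD_UE7 (I : Inst (r + r) P Ln) (κ : Vx r s P Ln × Fin m ↪ Fin n) (f : ℕ)
    (ψ : Vx r s P Ln → Fin m) (x : Px r Ln) (B : Finset (Fin m)) (Z : Fin m → Finset (Fin m))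
    (h : List (RSet n r × Move n r s)) : Prop :=
  (∀ a ∈ B, f ≤ (Z a).card ∧ ∀ b ∈ Z a,
      PG I κ (.En x) (Function.update (Function.update ψ (Vx.pt (I.par x)) a) (Vx.z x) b) h) ∧
    ∀ a ∈ B, ∀ a' ∈ B, a ≠ a' → Disjoint (Z a) (Z a')

lemma MD_sub_UE7 {I : Inst (r + r) P Ln} {κ : Vx r s P Ln × Fin m ↪ Fin n} {f : ℕ}
    {ψ : Vx r s P Ln → Fin m} {x : Px r Ln} {B B' : Finset (Fin m)} {Z : Fin m → Finset (Fin m)}
    {h : List (RSet n r × Move n r s)} (H : MD_UE7 I κ f ψ x B Z h) (hB : B' ⊆ B) :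
    MD_UE7 I κ f ψ x B' Z h :=
  ⟨fun a ha => H.1 a (hB ha), fun a ha a' ha' => H.2 a (hB ha) a' (hB ha')⟩

lemma MD_mono_UE7 (I : Inst (r + r) P Ln) (κ : Vx r s P Ln × Fin m ↪ Fin n) (f : ℕ)
    (ψ : Vx r s P Ln → Fin m) (x : Px r Ln) (B : Finset (Fin m)) (Z : Fin m → Finset (Fin m)) :
    Mono (MD_UE7 I κ f ψ x B Z) :=
  fun _ l H => ⟨fun a ha => ⟨(H.1 a ha).1, fun b hb => ((H.1 a ha).2 b hb).append l⟩, H.2⟩

/-- State after the proxies in `D` have been matched. -/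
def St_UE7 (I : Inst (r + r) P Ln) (κ : Vx r s P Ln × Fin m ↪ Fin n) (f w : ℕ) (D : Finset (Px r Ln))
    (ψ : Vx r s P Ln → Fin m) (A : P → Finset (Fin m))
    (Zs : Px r Ln → Fin m → Finset (Fin m)) (h : List (RSet n r × Move n r s)) : Prop :=
  I3 I κ ψ A h ∧ (∀ p, 2 ^ (r + Fintype.card Ln * 2 - D.card) * w ≤ (A p).card) ∧
    ∀ x ∈ D, MD_UE7 I κ f ψ x (A (I.par x)) (Zs x) h

lemma St_mono_UE7 (I : Inst (r + r) P Ln) (κ : Vx r s P Ln × Fin m ↪ Fin n) (f w : ℕ)
    (D : Finset (Px r Ln)) (ψ : Vx r s P Ln → Fin m) (A : P → Finset (Fin m))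
    (Zs : Px r Ln → Fin m → Finset (Fin m)) : Mono (St_UE7 I κ f w D ψ A Zs) :=
  fun h l H => ⟨I3_mono ψ A h l H.1, H.2.1, fun x hx => MD_mono_UE7 I κ f ψ x _ _ h l (H.2.2 x hx)⟩

lemma card_Px_UE7 : (univ : Finset (Px r Ln)).card = r + Fintype.card Ln * 2 := by
  simp [Px]

lemma step_UE7 (hO : Ok r s P Ln) (I : Inst (r + r) P Ln) (κ : Vx r s P Ln × Fin m ↪ Fin n)
    (hN : Num r (Fintype.card Ln) n m w f T γ ε) (D : Finset (Px r Ln)) (x : Px r Ln)
    (hx : x ∉ D) :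
    Reach T (fun h => ∃ ψ A Zs, St_UE7 I κ (2 * w) w D ψ A Zs h)
      (fun h => ∃ ψ A Zs, St_UE7 I κ (2 * w) w (insert x D) ψ A Zs h) ε := by
  classical
  refine Reach.ex fun ψ => Reach.ex fun A => Reach.ex fun Zs => ?_
  by_cases hc : ∀ p, 2 ^ (r + Fintype.card Ln * 2 - D.card) * w ≤ (A p).card
  swap
  · intro h hS
    exact absurd hS.2.1 hc
  have hr := hO.hr
  have hD : D.card + 1 ≤ r + Fintype.card Ln * 2 := by
    rw [← card_insert_of_notMem hx, ← card_Px_UE7]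
    exact card_le_card (subset_univ _)
  obtain ⟨k, hk⟩ : ∃ k, r + Fintype.card Ln * 2 = D.card + 1 + k := Nat.exists_eq_add_of_le hD
  have hk1 : r + Fintype.card Ln * 2 - D.card = k + 1 := by omega
  have hk2 : r + Fintype.card Ln * 2 - (insert x D).card = k := by
    rw [card_insert_of_notMem hx]; omega
  have hA : 2 * (2 ^ k * w) ≤ (A (I.par x)).card := by
    have := hc (I.par x)
    rw [hk1, pow_succ] at this
    calc 2 * (2 ^ k * w) = 2 ^ k * 2 * w := by ring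
      _ ≤ _ := this
  have h1 : 4 * (2 ^ k * w) * (2 * w) ≤ m := by
    refine le_trans ?_ hN.m2
    have : 2 ^ (k + 3) ≤ 2 ^ (r + Fintype.card Ln * 2 + 3) :=
      Nat.pow_le_pow_right (by norm_num) (by omega)
    calc 4 * (2 ^ k * w) * (2 * w) = 2 ^ (k + 3) * w * w := by ring
      _ ≤ _ := Nat.mul_le_mul_right _ (Nat.mul_le_mul_right _ this)
  have h2 : 2 * (2 * w) ^ 2 ≤ m := by
    refine le_trans ?_ hN.m2
    have : 2 ^ 3 ≤ 2 ^ (r + Fintype.card Ln * 2 + 3) :=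
      Nat.pow_le_pow_right (by norm_num) (by omega)
    calc 2 * (2 * w) ^ 2 = 2 ^ 3 * w * w := by ring
      _ ≤ _ := Nat.mul_le_mul_right _ (Nat.mul_le_mul_right _ this)
  have hγ : γ ≤ 1 := by
    have h8 : (2 : ℝ) ≤ r := by exact_mod_cast hr
    have := hN.g1
    have := hN.g0
    nlinarith
  have hT : 2 * (Fintype.card (RSet n r) : ℝ) ≤ ε * ((2 * w : ℕ) * (T + 1)) := by
    refine hN.hT.trans (mul_le_mul_of_nonneg_left ?_ hN.e0)
    have h3 : (f : ℝ) ≤ (2 * w : ℕ) := by exact_mod_cast (by have := hN.fw; omega : f ≤ 2 * w)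
    have h4 : γ * f ≤ (2 * w : ℕ) :=
      (mul_le_of_le_one_left (Nat.cast_nonneg f) hγ).trans h3
    exact mul_le_mul_of_nonneg_right h4 (by positivity)
  let e0 : Ed r P Ln := ⟨.En x, (⟨0, Nat.one_pos⟩ : Fin 1)⟩
  have hp : Vx.pt (I.par x) ∈ ed I s e0 := NN_subset_ed I e0 (by simp [e0, NN])
  have hz : Vx.z x ∈ ed I s e0 := NN_subset_ed I e0 (by simp [e0, NN])
  have H := one_match κ (by omega) hO.lt.le (card_ed hO I e0) hp hz (by simp) ψ (A (I.par x))
    (2 ^ k * w) (2 * w) T (by have := hN.hw; omega) hA h1 h2 hT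
  refine Reach.frame H (St_mono_UE7 I κ (2 * w) w D ψ A Zs) ?_
  rintro h ⟨h3, -, hM⟩ ⟨A', hA', hcard, Z, hZ1, hZ2⟩
  have hsub : ∀ p, Function.update A (I.par x) A' p ⊆ A p := by
    intro p
    by_cases hp : p = I.par x
    · subst hp; simpa using hA'
    · rw [Function.update_of_ne hp]
  refine ⟨ψ, Function.update A (I.par x) A', Function.update Zs x Z,
    ⟨h3.1, fun p a ha => h3.2 p a (hsub p ha)⟩, ?_, ?_⟩
  · intro p
    rw [hk2]
    by_cases hp : p = I.par x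
    · subst hp; simpa using hcard
    · rw [Function.update_of_ne hp]
      have := hc p
      rw [hk1, pow_succ] at this
      refine le_trans ?_ this
      exact Nat.mul_le_mul_right _ (Nat.le_mul_of_pos_right _ (by norm_num))
  · intro y hy
    by_cases hyx : y = x
    · subst hyx
      rw [Function.update_self, Function.update_self]
      refine ⟨fun a ha => ⟨(hZ1 a ha).1, fun b hb i => ?_⟩, hZ2⟩
      have hi : i = (⟨0, Nat.one_pos⟩ : Fin 1) := Subsingleton.elim (α := Fin 1) _ _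
      subst hi
      exact (hZ1 a ha).2 b hb
    · rw [Function.update_of_ne hyx]
      exact MD_sub_UE7 (hM y ((mem_insert.1 hy).resolve_left hyx)) (hsub _)

theorem stage_E (hO : Ok r s P Ln) (I : Inst (r + r) P Ln) (κ : Vx r s P Ln × Fin m ↪ Fin n)
    (hN : Num r (Fintype.card Ln) n m w f T γ ε) :
    Reach ((r + Fintype.card Ln * 2) * T)
      (fun h => ∃ ψ A, I3 I κ ψ A h ∧ ∀ p, 2 ^ (r + Fintype.card Ln * 2) * w ≤ (A p).card)
      (fun h => ∃ ψ, ∃ (lab : P → Fin w → Fin m), ∃ Zs, Base I κ (2 * w) ψ lab Zs h)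
      ((r + Fintype.card Ln * 2 : ℕ) * ε) := by
  classical
  have H := Reach.finset (univ : Finset (Px r Ln))
    (fun D h => ∃ ψ A Zs, St_UE7 I κ (2 * w) w D ψ A Zs h) hN.e0
    (fun D _ x _ hx => step_UE7 hO I κ hN D x hx)
  rw [card_Px_UE7] at H
  refine Reach.imp (Reach.pre H ?_) ?_
  · rintro h ⟨ψ, A, h3, hc⟩
    exact ⟨ψ, A, fun _ _ => ∅, h3, by simpa using hc, by simp⟩
  · rintro h ⟨ψ, A, Zs, h3, hc, hM⟩
    have hw : ∀ p, w ≤ (A p).card := fun p => by
      have := hc p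
      rw [card_Px_UE7, Nat.sub_self, pow_zero, one_mul] at this
      exact this
    let lab : P → Fin w → Fin m := fun p => (A p).orderEmbOfCardLe (hw p)
    have hlab : ∀ p a, lab p a ∈ A p := fun p a => orderEmbOfCardLe_mem _ _ a
    have hinj : ∀ p, Function.Injective (lab p) := fun p =>
      ((A p).orderEmbOfCardLe (hw p)).injective
    refine ⟨ψ, lab, fun x a => Zs x (lab (I.par x) a), h3.1,
      fun p a => h3.2 p _ (hlab p a), fun x a => ((hM x (mem_univ _)).1 _ (hlab _ a)).1,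
      fun x a a' haa => (hM x (mem_univ _)).2 _ (hlab _ a) _ (hlab _ a') fun e => haa (hinj _ e),
      fun x a b hb => ((hM x (mem_univ _)).1 _ (hlab _ a)).2 b hb, hinj⟩

end Pool.Agent.SemiRandom.Und
end

-- part Pool.Agent.P.MP_c53d0e_pr.UE8
section

set_option autoImplicit false
set_option linter.unusedSectionVars false

namespace Pool.Agent.SemiRandom.Und

open Finset

variable {r s : ℕ} {P Ln : Type} [Fintype P] [DecidableEq P] [Fintype Ln] [DecidableEq Ln]
  {n m w f T : ℕ} {γ ε : ℝ} [Nonempty (RSet n r)] [Nonempty (Move n r s)]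

/-- The values allowed at each vertex while line `e` is built. -/
def fam_UE8 (e : Ln) (Z : Fin 2 → Finset (Fin m)) (ψ : Vx r s P Ln → Fin m) :
    Vx r s P Ln → Finset (Fin m)
  | .z (.inr (e', l)) => if e' = e then Z l else {ψ (.z (.inr (e', l)))}
  | .tk e' l => if e' = e then univ else {ψ (.tk e' l)}
  | v => {ψ v}

lemma fam_z_UE8 (e : Ln) (Z : Fin 2 → Finset (Fin m)) (ψ : Vx r s P Ln → Fin m) (l : Fin 2) :
    fam_UE8 e Z ψ (.z (.inr (e, l))) = Z l := by simp [fam_UE8]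

lemma fam_tk_UE8 (e : Ln) (Z : Fin 2 → Finset (Fin m)) (ψ : Vx r s P Ln → Fin m)
    (l : Fin (r - 2)) : fam_UE8 e Z ψ (.tk e l) = univ := by simp [fam_UE8]

lemma fam_else_UE8 (e : Ln) (Z : Fin 2 → Finset (Fin m)) (ψ : Vx r s P Ln → Fin m)
    {v : Vx r s P Ln} (hv : v ∉ ZL e ∪ TK e) : fam_UE8 e Z ψ v = {ψ v} := by
  rcases v with j | i | p | (b | ⟨e', l⟩) | ⟨e', l⟩
  · rfl
  · rfl
  · rfl
  · rfl
  · have : e' ≠ e := by rintro rfl; simp at hv
    simp [fam_UE8, this]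
  · have : e' ≠ e := by rintro rfl; simp at hv
    simp [fam_UE8, this]

lemma fam_eq_UE8 {e : Ln} {Z : Fin 2 → Finset (Fin m)} {ψ φ : Vx r s P Ln → Fin m}
    (h : φ ∈ Fintype.piFinset (fam_UE8 e Z ψ)) {v : Vx r s P Ln} (hv : v ∉ ZL e ∪ TK e) :
    φ v = ψ v := by
  have := Fintype.mem_piFinset.1 h v
  rwa [fam_else_UE8 e Z ψ hv, mem_singleton] at this

lemma fam_mem_UE8 {e : Ln} {Z : Fin 2 → Finset (Fin m)} {ψ φ : Vx r s P Ln → Fin m}
    (h : φ ∈ Fintype.piFinset (fam_UE8 e Z ψ)) (l : Fin 2) : φ (.z (.inr (e, l))) ∈ Z l := by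
  have := Fintype.mem_piFinset.1 h (.z (.inr (e, l)))
  rwa [fam_z_UE8] at this

lemma disj_UE8 (e : Ln) : Disjoint (ZL e : Finset (Vx r s P Ln)) (TK e) := by
  rw [disjoint_left]
  intro v h1 h2
  obtain ⟨l, rfl⟩ := (mem_ZL e v).1 h1
  simp at h2

lemma fam_card_UE8 (hr : 2 ≤ r) (hm : 2 * f ^ 2 ≤ m) (e : Ln)
    (Z : Fin 2 → Finset (Fin m)) (hZ : ∀ l, f ≤ (Z l).card) (ψ : Vx r s P Ln → Fin m) :
    f ^ (2 * r - 2) ≤ (Fintype.piFinset (fam_UE8 e Z ψ)).card := by
  rw [Fintype.card_piFinset]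
  have h1 : f ^ 2 ≤ ∏ v ∈ ZL e, (fam_UE8 e Z ψ v).card := by
    rw [← card_ZL (r := r) (s := s) (P := P) e]
    refine pow_card_le_prod _ _ _ fun v hv => ?_
    obtain ⟨l, rfl⟩ := (mem_ZL e v).1 hv
    rw [fam_z_UE8]; exact hZ l
  have h2 : (f ^ 2) ^ (r - 2) ≤ ∏ v ∈ TK e, (fam_UE8 e Z ψ v).card := by
    rw [← card_TK (r := r) (s := s) (P := P) e]
    refine pow_card_le_prod _ _ _ fun v hv => ?_
    obtain ⟨l, rfl⟩ := (mem_TK e v).1 hv
    rw [fam_tk_UE8, card_univ, Fintype.card_fin]; omega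
  have h3 : ∏ v ∈ ZL e ∪ TK e, (fam_UE8 e Z ψ v).card ≤ ∏ v, (fam_UE8 e Z ψ v).card :=
    prod_le_prod_of_subset_of_one_le' (subset_univ _) fun v _ hv => by
      rw [fam_else_UE8 e Z ψ hv, card_singleton]
  rw [prod_union (disj_UE8 e)] at h3
  refine le_trans ?_ ((Nat.mul_le_mul h1 h2).trans h3)
  rw [← pow_mul, ← pow_add]
  exact le_of_eq (by congr 1; omega)

theorem line_step (hO : Ok r s P Ln) (I : Inst (r + r) P Ln) (κ : Vx r s P Ln × Fin m ↪ Fin n)
    (hN : Num r (Fintype.card Ln) n m w f T γ ε) (ψ : Vx r s P Ln → Fin m)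
    (lab : P → Fin w → Fin m) (Zs : Px r Ln → Fin w → Finset (Fin m))
    (hZ1 : ∀ x a, f ≤ (Zs x a).card) (hZ2 : ∀ x a a', a ≠ a' → Disjoint (Zs x a) (Zs x a'))
    (S' : Finset (P → Fin w)) (hS : I.Exact S') (Ψ : (P → Fin w) → Vx r s P Ln → Fin m)
    (D : Finset Ln) (e : Ln) (he : e ∉ D) :
    Reach ((2 * r - 2) * T) (Lines I κ ψ lab Zs S' Ψ D)
      (fun h => ∃ S'' ⊆ S', (1 - (2 * r - 2 : ℕ) * γ) * S'.card ≤ S''.card ∧
        ∃ Ψ', Lines I κ ψ lab Zs S'' Ψ' (insert e D) h) ((2 * r - 2 : ℕ) * ε) := by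
  have hr := hO.hr
  refine Reach.of_forall fun h0 hL => ?_
  have H := multi_hit κ hO.lt.le (univ : Finset (Fin (2 * r - 2)))
    (fun i => ed I s ⟨.L e, i⟩) (fun _ => ZL e ∪ TK e)
    (fun i _ => ⟨card_ed hO I _, (subset_insert _ _).trans (NN_subset_ed I ⟨.L e, i⟩), by
      rw [card_union_of_disjoint (disj_UE8 e), card_ZL, card_TK]; omega⟩)
    S' (fun x => Fintype.piFinset
      (fam_UE8 e (fun l => Zs (.inr (e, l)) (x (I.src e l))) (Ψ x)))
    (fun i _ x hx x' hx' φ hφ φ' hφ' hk v hv => by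
      rcases mem_union.1 (ed_subset I ⟨.L e, i⟩ hv) with h1 | h1
      · obtain ⟨j, rfl⟩ := (mem_CC v).1 h1
        rw [fam_eq_UE8 hφ (by simp), fam_eq_UE8 hφ' (by simp), (hL x hx).1, (hL x' hx').1]
      · rcases mem_insert.1 h1 with rfl | h1
        · rw [fam_eq_UE8 hφ (by simp), fam_eq_UE8 hφ' (by simp), (hL x hx).2.2.1,
            (hL x' hx').2.2.1, hS e x hx x' hx' fun l => ?_]
          by_contra hne
          have h2 := fam_mem_UE8 hφ l
          rw [hk _ (by simp)] at h2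
          exact disjoint_left.1 (hZ2 _ _ _ hne) h2 (fam_mem_UE8 hφ' l)
        · exact hk v h1)
    (fun i _ x _ φ hφ φ' hφ' hk => by
      funext v
      by_cases hv : v ∈ ZL e ∪ TK e
      · exact hk v hv
      · rw [fam_eq_UE8 hφ hv, fam_eq_UE8 hφ' hv])
    f 1 T hN.hf (fun x _ => by
      rw [card_univ, Fintype.card_fin, mul_one]
      exact fam_card_UE8 (by omega) hN.m1 e _ (fun l => hZ1 _ _) _) hN.g0 hN.hT
  rw [card_univ, Fintype.card_fin] at H
  refine Reach.pre (Reach.frame H (Lines_mono ψ lab Zs S' Ψ D) ?_) fun l hl => hl ▸ hL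
  rintro h hA ⟨J, hJ, hc, hF⟩
  have hch : ∀ x, ∃ φ, x ∈ J → φ ∈ Fintype.piFinset
      (fam_UE8 e (fun l => Zs (.inr (e, l)) (x (I.src e l))) (Ψ x)) ∧ PG I κ (.L e) φ h := by
    intro x
    by_cases hx : x ∈ J
    · obtain ⟨F', hF', h1, h2⟩ := hF x hx
      obtain ⟨φ, hφ⟩ := card_pos.1 h1
      exact ⟨φ, fun _ => ⟨hF' hφ, fun i => h2 φ hφ i (mem_univ _)⟩⟩
    · exact ⟨Ψ x, fun h => absurd h hx⟩
  choose Φ hΦ using hch
  refine ⟨J, hJ, hc, Φ, fun x hx => ?_⟩
  obtain ⟨hφ, hP⟩ := hΦ x hx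
  obtain ⟨a1, a2, a3, a4⟩ := hA x (hJ hx)
  refine ⟨fun j => by rw [fam_eq_UE8 hφ (by simp), a1], fun i => by
    rw [fam_eq_UE8 hφ (by simp), a2], fun p => by rw [fam_eq_UE8 hφ (by simp), a3],
    fun e' he' => ?_⟩
  rcases mem_insert.1 he' with rfl | he'
  · exact ⟨fun l => fam_mem_UE8 hφ l, hP⟩
  have hne : e' ≠ e := fun h => he (h ▸ he')
  refine ⟨fun l => ?_, (a4 e' he').2.congr (fun j => (fam_eq_UE8 hφ (by simp)).symm)
    fun v hv => (fam_eq_UE8 hφ ?_).symm⟩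
  · rw [fam_eq_UE8 hφ (by simp [hne])]
    exact (a4 e' he').1 l
  · rcases mem_insert.1 hv with rfl | hv
    · simp
    · rcases mem_union.1 hv with hv | hv
      · obtain ⟨l, rfl⟩ := (mem_ZL e' v).1 hv
        simp [hne]
      · obtain ⟨l, rfl⟩ := (mem_TK e' v).1 hv
        simp [hne]

/-- The first placement of a configuration. -/
def start_UE8 (ψ : Vx r s P Ln → Fin m) (a : P → Fin m) : Vx r s P Ln → Fin m
  | .pt p => a p
  | v => ψ v

theorem stage_L (hO : Ok r s P Ln) (I : Inst (r + r) P Ln) (κ : Vx r s P Ln × Fin m ↪ Fin n)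
    (hN : Num r (Fintype.card Ln) n m w f T γ ε) (S : Finset (P → Fin w)) (hS : I.Exact S) :
    Reach (Fintype.card Ln * ((2 * r - 2) * T))
      (fun h => ∃ ψ, ∃ (lab : P → Fin w → Fin m), ∃ Zs, Base I κ (2 * w) ψ lab Zs h)
      (fun h => ∃ ψ, ∃ (lab : P → Fin w → Fin m), ∃ Zs S' Ψ, Base I κ (2 * w) ψ lab Zs h ∧ S' ⊆ S ∧
        3 * S.card ≤ 4 * S'.card ∧ Lines I κ ψ lab Zs S' Ψ univ h)
      (Fintype.card Ln * ((2 * r - 2 : ℕ) * ε)) := by
  refine Reach.ex fun ψ => Reach.ex fun lab => Reach.ex fun Zs => ?_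
  have hg : (0 : ℝ) ≤ (2 * r - 2 : ℕ) * γ := mul_nonneg (Nat.cast_nonneg _) hN.g0.le
  have H := Reach.finset (T := (2 * r - 2) * T) (univ : Finset Ln)
    (fun D (h : List (RSet n r × Move n r s)) => Base I κ (2 * w) ψ lab Zs h ∧ ∃ S' ⊆ S,
      (1 - D.card * ((2 * r - 2 : ℕ) * γ)) * S.card ≤ S'.card ∧
        ∃ Ψ, Lines I κ ψ lab Zs S' Ψ D h)
    (mul_nonneg (Nat.cast_nonneg (2 * r - 2)) hN.e0) (by
      rintro D - e - he h ⟨hB, S', hS', hc, Ψ, hL⟩
      refine (line_step hO I κ hN ψ lab Zs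
        (fun x a => le_trans (by have := hN.fw; omega) (hB.2.2.1 x a)) hB.2.2.2.1 S'
        (fun e x hx x' hx' => hS e x (hS' hx) x' (hS' hx')) Ψ D e he h hL).trans
        (Reach.post fun l hl => ?_)
      obtain ⟨S'', h1, h2, h3⟩ := hl
      refine ⟨Base_mono (2 * w) ψ lab Zs h l hB, S'', h1.trans hS', le_trans ?_ h2, h3⟩
      have h4 : (S'.card : ℝ) ≤ S.card := Nat.cast_le.2 (card_le_card hS')
      rw [card_insert_of_notMem he, Nat.cast_add, Nat.cast_one]
      nlinarith [mul_le_mul_of_nonneg_left h4 hg])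
  rw [card_univ] at H
  refine Reach.imp (Reach.pre H fun h hB => ⟨hB, S, Subset.rfl, by simp,
    fun x => start_UE8 ψ fun p => lab p (x p), fun x _ =>
      ⟨fun _ => rfl, fun _ => rfl, fun _ => rfl, fun e he => absurd he (notMem_empty e)⟩⟩) ?_
  rintro h ⟨hB, S', hS', hc, Ψ, hL⟩
  refine ⟨ψ, lab, Zs, S', Ψ, hB, hS', ?_, hL⟩
  have h1 := hN.g2
  have h2 : 3 * (S.card : ℝ) ≤ 4 * S'.card := by
    nlinarith [(Nat.cast_nonneg S.card : (0 : ℝ) ≤ S.card)]
  exact_mod_cast h2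

end Pool.Agent.SemiRandom.Und
end

-- part Pool.Agent.P.MP_c53d0e_pr.UE9
section

set_option autoImplicit false
set_option linter.unusedSectionVars false

namespace Pool.Agent.SemiRandom.Und

open Finset

variable {r s : ℕ} {P Ln : Type} [Fintype P] [DecidableEq P] [Fintype Ln] [DecidableEq Ln]
  {n m w f T : ℕ} {γ ε : ℝ} [Nonempty (RSet n r)] [Nonempty (Move n r s)]

lemma same_UE9 {I : Inst (r + r) P Ln} {κ : Vx r s P Ln × Fin m ↪ Fin n}
    {Zs : Px r Ln → Fin w → Finset (Fin m)}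
    (hZ : ∀ x a a', a ≠ a' → Disjoint (Zs x a) (Zs x a')) {S' : Finset (P → Fin w)}
    (hS : I.BasInj S') {Ψ : (P → Fin w) → Vx r s P Ln → Fin m}
    {h : List (RSet n r × Move n r s)} (hT : Tops I κ Zs S' Ψ univ h) {x x' : P → Fin w}
    (hx : x ∈ S') (hx' : x' ∈ S') (he : ∀ v ∈ (ZB : Finset (Vx r s P Ln)), Ψ x v = Ψ x' v) :
    x = x' := by
  refine hS x hx x' hx' fun b => ?_
  refine Fin.addCases (fun b => ?_) (fun b => ?_) b
  · by_contra hne
    have h1 := (hT.1 x hx b (mem_univ b)).1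
    have h2 := (hT.1 x' hx' b (mem_univ b)).1
    rw [← he _ ((mem_ZB _).2 ⟨b, rfl⟩)] at h2
    exact disjoint_left.1 (hZ _ _ _ hne) h1 h2
  · exact hT.2 b (mem_univ b) x hx x' hx' (he _ ((mem_ZB _).2 ⟨b, rfl⟩))

theorem stage_T (hO : Ok r s P Ln) (I : Inst (r + r) P Ln) (κ : Vx r s P Ln × Fin m ↪ Fin n)
    (hN : Num r (Fintype.card Ln) n m w f T γ ε) (S : Finset (P → Fin w)) (hS : I.BasInj S)
    (hc : 2 * f ^ (r + r) ≤ S.card) :
    Reach (2 * r * T)
      (fun h => ∃ ψ, ∃ (lab : P → Fin w → Fin m), ∃ Zs S' Ψ, Base I κ (2 * w) ψ lab Zs h ∧ S' ⊆ S ∧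
        S.card ≤ 2 * S'.card ∧ Lines I κ ψ lab Zs S' Ψ univ h ∧ Tops I κ Zs S' Ψ univ h)
      (ContainsV (ed I s)) ((2 * r : ℕ) * ε) := by
  classical
  refine Reach.of_forall fun h0 hh => ?_
  obtain ⟨ψ, lab, Zs, S', Ψ, hB0, hS', hcard, hL0, hT0⟩ := hh
  have hZ2 := hB0.2.2.2.1
  have hS1 : I.BasInj S' := fun x hx x' hx' => hS x (hS' hx) x' (hS' hx')
  have hE : (univ.filter fun e : Ed r P Ln => e.1 = Gp.T).card = 2 * r := card_group Gp.T
  have hFc : f ^ (univ.filter fun e : Ed r P Ln => e.1 = Gp.T).card * 1 ≤ (S'.image Ψ).card := by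
    rw [hE, card_image_of_injOn fun x hx x' hx' he =>
      same_UE9 hZ2 hS1 hT0 hx hx' fun v _ => congrFun he v, mul_one, two_mul]
    omega
  have H := multi_hit_one κ hO.lt.le (univ.filter fun e : Ed r P Ln => e.1 = Gp.T) (ed I s)
    (fun _ => ZB) (fun e he => ?_) (S'.image Ψ)
    (fun e _ φ hφ φ' hφ' hk => ?_) f 1 T hN.hf hFc (ε := ε) hN.g0 ?_ hN.hT
  · rw [hE] at H
    refine Reach.pre (Reach.frame
      (A := fun h => Base I κ (2 * w) ψ lab Zs h ∧ Lines I κ ψ lab Zs S' Ψ univ h ∧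
        Tops I κ Zs S' Ψ univ h) H
      (fun h l hh => ⟨Base_mono _ ψ lab Zs h l hh.1, Lines_mono ψ lab Zs S' Ψ univ h l hh.2.1,
        Tops_mono Zs S' Ψ univ h l hh.2.2⟩)
      ?_) fun l hl => hl ▸ ⟨hB0, hL0, hT0⟩
    rintro h ⟨hB, hL, hT⟩ ⟨F', hF', h1, hP⟩
    obtain ⟨φ, hφ⟩ := card_pos.1 h1
    obtain ⟨x, hx, rfl⟩ := mem_image.1 (hF' hφ)
    obtain ⟨ec, ey, ep, ll⟩ := hL x hx
    have ez : ∀ y, Ψ x (Vx.z y) ∈ Zs y (x (I.par y)) := by
      rintro (b | ⟨e, l⟩)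
      · exact (hT.1 x hx b (mem_univ b)).1
      · exact (ll e (mem_univ e)).1 l
    have key : ∀ g, PG I κ g (Ψ x) h := by
      intro g
      cases g with
      | Q => exact hB.1.1.congr (fun j => (ec j).symm) (by simp [NN])
      | Y i => exact (hB.1.2 i).congr (fun j => (ec j).symm) (by simp [NN, ey])
      | U p => exact (hB.2.1 p (x p)).congr (fun j => by simp [ec]) (by simp [NN, ep])
      | En y =>
        exact (hB.2.2.2.2.1 y (x (I.par y)) _ (ez y)).congr (fun j => by simp [ec])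
          (by simp [NN, ep])
      | W b => exact (hT.1 x hx b (mem_univ b)).2
      | L e => exact (ll e (mem_univ e)).2
      | T => exact fun i => hP _ hφ ⟨Gp.T, i⟩ (by simp)
    exact ⟨emb κ (Ψ x), fun e => key e.1 e.2⟩
  · have h1 : e.1 = Gp.T := (mem_filter.1 he).2
    refine ⟨card_ed hO I e, subset_trans ?_ (NN_subset_ed I e), card_ZB.le⟩
    rw [h1]
    intro v hv
    obtain ⟨b, rfl⟩ := (mem_ZB v).1 hv
    simp [NN]
  · obtain ⟨x, hx, rfl⟩ := mem_image.1 hφ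
    obtain ⟨x', hx', rfl⟩ := mem_image.1 hφ'
    rw [same_UE9 hZ2 hS1 hT0 hx hx' hk]
  · rw [hE]
    have := hN.g1
    push_cast
    linarith

end Pool.Agent.SemiRandom.Und
end

-- part Pool.Agent.P.MP_c53d0e_pr.UEV
section

set_option autoImplicit false
set_option linter.unusedSectionVars false

namespace Pool.Agent.SemiRandom.Und

open Finset

variable {α β : Type} [Fintype α] [Fintype β] [Nonempty α] [Nonempty β]

def Val_UEV {ι κ1 κ2 κ3 : Type} (σ : α → β) (a : ι → κ1) (a' : ι → κ2) (Z : κ1 → Finset κ3)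
    (u : κ2 → κ3 → α) (h : List (α × β)) (X' : Finset ι) : Prop :=
  ∃ ζ : κ1 → κ2 → κ3, (∀ x ∈ X', ζ (a x) (a' x) ∈ Z (a x) ∧
    (u (a' x) (ζ (a x) (a' x)), σ (u (a' x) (ζ (a x) (a' x)))) ∈ h) ∧
    ∀ x ∈ X', ∀ x' ∈ X', ζ (a x) (a' x) = ζ (a x') (a' x') → a' x = a' x'

open Classical in
noncomputable def Mx_UEV {ι : Type} (V : Finset ι → Prop) (X : Finset ι) : ℕ :=
  (X.powerset.filter V).sup card

lemma le_Mx_UEV {ι : Type} {V : Finset ι → Prop} {X G : Finset ι} (hG : G ⊆ X) (hv : V G) :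
    G.card ≤ Mx_UEV V X := by
  classical
  unfold Mx_UEV
  exact le_sup (f := card) (mem_filter.2 ⟨mem_powerset.2 hG, hv⟩)

lemma ex_Mx_UEV {ι : Type} {V : Finset ι → Prop} (X : Finset ι) (h0 : V ∅) :
    ∃ G ⊆ X, V G ∧ Mx_UEV V X = G.card := by
  classical
  have hne : (X.powerset.filter V).Nonempty :=
    ⟨∅, mem_filter.2 ⟨mem_powerset.2 (empty_subset _), h0⟩⟩
  obtain ⟨G, hG, e⟩ := exists_mem_eq_sup _ hne card
  exact ⟨G, mem_powerset.1 (mem_filter.1 hG).1, (mem_filter.1 hG).2, e⟩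

lemma Val_append_UEV {ι κ1 κ2 κ3 : Type} {σ : α → β} {a : ι → κ1} {a' : ι → κ2}
    {Z : κ1 → Finset κ3} {u : κ2 → κ3 → α} {h : List (α × β)} {G : Finset ι}
    (hv : Val_UEV σ a a' Z u h G) (l : List (α × β)) : Val_UEV σ a a' Z u (h ++ l) G := by
  obtain ⟨ζ, h1, h2⟩ := hv
  exact ⟨ζ, fun x hx => ⟨(h1 x hx).1, List.mem_append_left _ (h1 x hx).2⟩, h2⟩

/-- Weighted matching phase. -/
lemma wmatch_phase {ι κ1 κ2 κ3 : Type} [Fintype κ2] [DecidableEq κ1] [DecidableEq κ2]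
    [DecidableEq κ3] [Nonempty κ3] (σ : α → β) (X : Finset ι) (a : ι → κ1) (a' : ι → κ2)
    (Z : κ1 → Finset κ3) (hZ : ∀ i i', i ≠ i' → Disjoint (Z i) (Z i'))
    (hZc : ∀ i, 2 * Fintype.card κ2 ≤ (Z i).card) (u : κ2 → κ3 → α)
    (hu : ∀ j j' z z', u j z = u j' z' → j = j' ∧ z = z') (f T : ℕ) (hf1 : 1 ≤ f)
    (hf : f ≤ 2 * Fintype.card κ2) {γ ε : ℝ} (hγ : 0 < γ)
    (hT : 2 * (Fintype.card α : ℝ) ≤ ε * (γ * f * (T + 1))) :
    Reach T (fun _ => True) (fun h : List (α × β) => ∃ X' ⊆ X, (1 - γ) * X.card ≤ X'.card ∧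
      ∃ ζ : κ1 → κ2 → κ3, (∀ x ∈ X', ζ (a x) (a' x) ∈ Z (a x) ∧
        (u (a' x) (ζ (a x) (a' x)), σ (u (a' x) (ζ (a x) (a' x)))) ∈ h) ∧
        ∀ x ∈ X', ∀ x' ∈ X', ζ (a x) (a' x) = ζ (a x') (a' x') → a' x = a' x') ε := by
  classical
  have hc : (0 : ℝ) < Fintype.card α := card_pos'
  have hf0 : (0 : ℝ) < f := by exact_mod_cast hf1
  have hP : 0 < γ * f * (T + 1) := by positivity
  have hε : 0 ≤ ε := by
    by_contra hn
    have := mul_neg_of_neg_of_pos (not_le.1 hn) hP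
    linarith
  have v0 : ∀ h, Val_UEV σ a a' Z u h (∅ : Finset ι) := fun h =>
    ⟨fun _ _ => Classical.arbitrary κ3, by simp, by simp⟩
  rcases X.eq_empty_or_nonempty with rfl | hX
  · exact Reach.of_imp T hε fun h l _ => ⟨∅, Subset.rfl, by simp, v0 _⟩
  have hX0 : (0 : ℝ) < X.card := by exact_mod_cast card_pos.2 hX
  have hw0 : (0 : ℝ) < Fintype.card κ2 := by exact_mod_cast (by omega : 0 < Fintype.card κ2)
  have same : ∀ i i' z, z ∈ Z i → z ∈ Z i' → i = i' := fun i i' z h1 h2 => by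
    by_contra hn
    exact disjoint_left.1 (hZ i i' hn) h1 h2
  refine drift_reach (fun h => (Mx_UEV (Val_UEV σ a a' Z u h) X : ℝ)) _ ?_ (y := X.card)
    (b := γ * X.card * Fintype.card κ2 / Fintype.card α) (by positivity)
    (fun h => by positivity) ?_ ?_ T ?_
  · rintro h l ⟨X', h1, h2, h3⟩
    exact ⟨X', h1, h2, Val_append_UEV h3 l⟩
  · intro h
    obtain ⟨G, hG, -, e⟩ := ex_Mx_UEV X (v0 h)
    have := card_le_card hG
    rw [← e] at this
    exact_mod_cast this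
  · intro h hD
    refine ⟨σ, ?_⟩
    obtain ⟨G, hG, hv, e⟩ := ex_Mx_UEV X (v0 h)
    have hlt : (G.card : ℝ) < (1 - γ) * X.card := by
      by_contra hge
      exact hD ⟨G, hG, not_lt.1 hge, hv⟩
    obtain ⟨ζ, z1, z2⟩ := hv
    let Fr : ι → Finset α := fun x => (Z (a x) \ univ.image (ζ (a x))).image (u (a' x))
    have cF : ∀ x, Fintype.card κ2 ≤ (Fr x).card := by
      intro x
      have h1 := le_card_sdiff (univ.image (ζ (a x))) (Z (a x))
      have h2 : (univ.image (ζ (a x))).card ≤ Fintype.card κ2 :=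
        card_image_le.trans (card_univ (α := κ2)).le
      have h3 := hZc (a x)
      have h4 : (Fr x).card = (Z (a x) \ univ.image (ζ (a x))).card :=
        card_image_of_injective _ fun z z' hz => (hu _ _ _ _ hz).2
      omega
    have step : ∀ U, (#{x ∈ X \ G | U ∈ Fr x} : ℝ) ≤
        (Mx_UEV (Val_UEV σ a a' Z u (h ++ [(U, σ U)])) X : ℝ) -
          Mx_UEV (Val_UEV σ a a' Z u h) X := by
      intro U
      have hv' : Val_UEV σ a a' Z u (h ++ [(U, σ U)]) (G ∪ {x ∈ X \ G | U ∈ Fr x}) := by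
        rcases ({x ∈ X \ G | U ∈ Fr x} : Finset ι).eq_empty_or_nonempty with h0 | ⟨x1, hx1⟩
        · rw [h0, union_empty]
          exact Val_append_UEV ⟨ζ, z1, z2⟩ _
        obtain ⟨z, hz, rfl⟩ := mem_image.1 (mem_filter.1 hx1).2
        obtain ⟨hz1, hz2⟩ := mem_sdiff.1 hz
        have old : ∀ x ∈ G ∪ {x ∈ X \ G | u (a' x1) z ∈ Fr x},
            ¬ (a x = a x1 ∧ a' x = a' x1) → x ∈ G := by
          intro x hx hn
          rcases mem_union.1 hx with hx | hx
          · exact hx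
          · obtain ⟨z', hz', e'⟩ := mem_image.1 (mem_filter.1 hx).2
            obtain ⟨e1, rfl⟩ := hu _ _ _ _ e'
            exact absurd ⟨same _ _ _ (mem_sdiff.1 hz').1 hz1, e1⟩ hn
        have fresh : ∀ x ∈ G, ζ (a x) (a' x) ≠ z := by
          intro x hx e'
          have e1 : a x = a x1 := same _ _ z (e' ▸ (z1 x hx).1) hz1
          exact hz2 (mem_image.2 ⟨a' x, mem_univ _, e1 ▸ e'⟩)
        refine ⟨fun i j => if i = a x1 ∧ j = a' x1 then z else ζ i j, fun x hx => ?_,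
          fun x hx x' hx' => ?_⟩
        · by_cases c : a x = a x1 ∧ a' x = a' x1
          · simp only [if_pos c]
            rw [c.1, c.2]
            exact ⟨hz1, List.mem_append_right _ (List.mem_singleton_self _)⟩
          · simp only [if_neg c]
            exact ⟨(z1 x (old x hx c)).1, List.mem_append_left _ (z1 x (old x hx c)).2⟩
        · by_cases c : a x = a x1 ∧ a' x = a' x1 <;> by_cases c' : a x' = a x1 ∧ a' x' = a' x1
          · exact fun _ => c.2.trans c'.2.symm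
          · simp only [if_pos c, if_neg c']
            exact fun e' => absurd e'.symm (fresh x' (old x' hx' c'))
          · simp only [if_neg c, if_pos c']
            exact fun e' => absurd e' (fresh x (old x hx c))
          · simp only [if_neg c, if_neg c']
            exact z2 x (old x hx c) x' (old x' hx' c')
      have h1 := le_Mx_UEV (X := X)
        (union_subset hG ((filter_subset _ _).trans sdiff_subset)) hv'
      rw [card_union_of_disjoint (disjoint_left.2 fun x hx hx' =>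
        (mem_sdiff.1 (mem_filter.1 hx').1).2 hx), ← e] at h1
      have h2 : ((Mx_UEV (Val_UEV σ a a' Z u h) X + #{x ∈ X \ G | U ∈ Fr x} : ℕ) : ℝ) ≤
          Mx_UEV (Val_UEV σ a a' Z u (h ++ [(U, σ U)])) X := by exact_mod_cast h1
      push_cast at h2
      linarith
    refine le_trans ?_ (sum_le_sum fun U _ => step U)
    have c1 : ∑ U, #{x ∈ X \ G | U ∈ Fr x} = ∑ x ∈ X \ G, (Fr x).card := by
      simp only [card_filter]
      rw [sum_comm]
      refine sum_congr rfl fun x _ => ?_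
      rw [← card_filter, filter_mem_eq_inter, univ_inter]
    have c2 : (X \ G).card * Fintype.card κ2 ≤ ∑ x ∈ X \ G, (Fr x).card := by
      have := card_nsmul_le_sum (X \ G) (fun x => (Fr x).card) _ fun x _ => cF x
      rwa [smul_eq_mul] at this
    have c3 : (X \ G).card + G.card = X.card := card_sdiff_add_card_eq_card hG
    have d1 : ((X \ G).card : ℝ) * Fintype.card κ2 ≤ ∑ U, (#{x ∈ X \ G | U ∈ Fr x} : ℝ) := by
      rw [← c1] at c2
      exact_mod_cast c2
    have d2 : ((X \ G).card : ℝ) + G.card = X.card := by exact_mod_cast c3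
    refine le_trans ?_ d1
    rw [div_mul_cancel₀ _ hc.ne']
    exact mul_le_mul_of_nonneg_right (by linarith) hw0.le
  · have d1 : (f : ℝ) ≤ 2 * Fintype.card κ2 := by exact_mod_cast hf
    have e2 : ε * (γ * X.card * Fintype.card κ2 / (Fintype.card α : ℝ) * (T + 1)) =
        X.card * (ε * (γ * (2 * Fintype.card κ2) * (T + 1)) / (2 * Fintype.card α)) := by
      field_simp
    rw [e2]
    refine le_mul_of_one_le_right hX0.le ((one_le_div (by positivity)).2 (hT.trans ?_))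
    gcongr

end Pool.Agent.SemiRandom.Und
end

-- part Pool.Agent.P.MP_c53d0e_pr.UEW
section

set_option autoImplicit false
set_option linter.unusedSectionVars false

namespace Pool.Agent.SemiRandom.Und

open Finset

open Function

variable {V : Type} [Fintype V] [DecidableEq V] {n m r s : ℕ} [Nonempty (RSet n r)]
  [Nonempty (Move n r s)]

lemma one_wmatch (κ : V × Fin m ↪ Fin n) (hr : 2 ≤ r) (hrs : r ≤ s) {e : Finset V}
    (he : e.card = s) {p z : V} (hp : p ∈ e) (hz : z ∈ e) (hpz : p ≠ z) (ψ : V → Fin m)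
    {w : ℕ} (lab : Fin w → Fin m) (hlab : Injective lab) {ι : Type} (X : Finset ι)
    (a a' : ι → Fin w) (Z : Fin w → Finset (Fin m)) (hZ : ∀ i i', i ≠ i' → Disjoint (Z i) (Z i'))
    (hZc : ∀ i, 2 * w ≤ (Z i).card) (f T : ℕ) (hf1 : 1 ≤ f) (hf : f ≤ 2 * w) {γ ε : ℝ}
    (hγ : 0 < γ) (hT : 2 * (Fintype.card (RSet n r) : ℝ) ≤ ε * (γ * f * (T + 1))) :
    Reach T (fun _ => True) (fun h : List (RSet n r × Move n r s) =>
      ∃ X' ⊆ X, (1 - γ) * X.card ≤ X'.card ∧ ∃ ζ : ι → Fin m,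
        (∀ x ∈ X', ζ x ∈ Z (a x) ∧ Pres κ h e (update (update ψ p (lab (a' x))) z (ζ x))) ∧
        ∀ x ∈ X', ∀ x' ∈ X', ζ x = ζ x' → a' x = a' x') ε := by
  have hK : ({p, z} : Finset V) ⊆ e := insert_subset hp (singleton_subset_iff.2 hz)
  obtain ⟨u, hKu, hue, hur⟩ := exists_subsuperset_card_eq hK
    (by rw [card_pair hpz]; exact hr) (he ▸ hrs)
  have hpu : p ∈ u := hKu (mem_insert_self _ _)
  have hzu : z ∈ u := hKu (mem_insert_of_mem (mem_singleton_self _))
  have key : ∀ x b x' b' : Fin m, (∀ v ∈ u, update (update ψ p x) z b v =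
      update (update ψ p x') z b' v) → x = x' ∧ b = b' := fun x b x' b' h => by
    have h1 := h p hpu
    have h2 := h z hzu
    rw [update_of_ne hpz, update_of_ne hpz, update_self, update_self] at h1
    rw [update_self, update_self] at h2
    exact ⟨h1, h2⟩
  obtain ⟨σ, U, hU, hσ⟩ := exists_answer (n := n) κ he hue hur
    {φ | ∃ x b, φ = update (update ψ p x) z b} (by
      rintro _ ⟨x, b, rfl⟩ _ ⟨x', b', rfl⟩ h3
      obtain ⟨rfl, rfl⟩ := key x b x' b' h3
      exact fun _ _ => rfl)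
  have : Nonempty (Fin m) := ⟨ψ p⟩
  refine Reach.imp (wmatch_phase σ X a a' Z hZ (by rwa [Fintype.card_fin])
    (fun j b => U (update (update ψ p (lab j)) z b)) (fun j j' b b' h => ?_) f T hf1
    (by rwa [Fintype.card_fin]) hγ hT) ?_
  · have h1 := key (lab j) b (lab j') b' (agree_of_map_eq κ (by rw [← hU, ← hU, h]))
    exact ⟨hlab h1.1, h1.2⟩
  · rintro h ⟨X', h3, h4, ζ, h5, h6⟩
    exact ⟨X', h3, h4, fun x => ζ (a x) (a' x), fun x hx =>
      ⟨(h5 x hx).1, _, (h5 x hx).2, hσ _ ⟨_, _, rfl⟩⟩, h6⟩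

end Pool.Agent.SemiRandom.Und
end

-- part Pool.Agent.P.MP_c53d0e_pr.UEX
section

set_option autoImplicit false
set_option linter.unusedSectionVars false

namespace Pool.Agent.SemiRandom.Und

open Finset

variable {r s : ℕ} {P Ln : Type} [Fintype P] [DecidableEq P] [Fintype Ln] [DecidableEq Ln]
  {n m w f T : ℕ} {γ ε : ℝ} [Nonempty (RSet n r)] [Nonempty (Move n r s)]

open Function in
theorem top_step_UEX (hO : Ok r s P Ln) (I : Inst (r + r) P Ln)
    (κ : Vx r s P Ln × Fin m ↪ Fin n) (hN : Num r (Fintype.card Ln) n m w f T γ ε)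
    (ψ : Vx r s P Ln → Fin m) (lab : P → Fin w → Fin m) (hlab : ∀ p, Injective (lab p))
    (Zs : Px r Ln → Fin w → Finset (Fin m)) (hZ1 : ∀ x a, 2 * w ≤ (Zs x a).card)
    (hZ2 : ∀ x a a', a ≠ a' → Disjoint (Zs x a) (Zs x a')) (S' : Finset (P → Fin w))
    (Ψ : (P → Fin w) → Vx r s P Ln → Fin m) (D : Finset (Fin r)) (b : Fin r) (hb : b ∉ D) :
    Reach T (fun h => Lines I κ ψ lab Zs S' Ψ univ h ∧ Tops I κ Zs S' Ψ D h)
      (fun h => ∃ S'' ⊆ S', (1 - γ) * S'.card ≤ S''.card ∧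
        ∃ Ψ', Lines I κ ψ lab Zs S'' Ψ' univ h ∧ Tops I κ Zs S'' Ψ' (insert b D) h) ε := by
  have z1 : (0 : ℕ) < (Gp.W b : Gp r P Ln).M := Nat.one_pos
  have H := one_wmatch (n := n) κ hO.hr hO.lt.le (card_ed hO I ⟨.W b, ⟨0, z1⟩⟩)
    (p := Vx.pt (I.par2 b)) (z := Vx.z (Sum.inl b))
    (NN_subset_ed I ⟨.W b, ⟨0, z1⟩⟩ (by simp [NN])) (NN_subset_ed I ⟨.W b, ⟨0, z1⟩⟩ (by simp [NN]))
    (by simp) ψ (lab (I.par2 b)) (hlab _) S' (fun x => x (I.par (Sum.inl b)))
    (fun x => x (I.par2 b)) (Zs (Sum.inl b)) (hZ2 _) (hZ1 _) f T (by have := hN.hf; omega)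
    (by have := hN.fw; omega) hN.g0 hN.hT
  refine Reach.frame H (fun h l hA => ⟨Lines_mono ψ lab Zs S' Ψ univ h l hA.1,
    Tops_mono Zs S' Ψ D h l hA.2⟩) ?_
  rintro h ⟨hL, hT⟩ ⟨X, hX, hc, ζ, h1, h2⟩
  obtain ⟨Φ, hΦ⟩ : ∃ Φ : (P → Fin w) → Vx r s P Ln → Fin m,
      ∀ x, Φ x = update (Ψ x) (Vx.z (Sum.inl b)) (ζ x) := ⟨_, fun _ => rfl⟩
  refine ⟨X, hX, hc, Φ, fun x hx => ?_,
    fun x hx b' hb' => ?_, fun b' hb' x hx x' hx' hq => ?_⟩
  · obtain ⟨a1, a2, a3, a4⟩ := hL x (hX hx)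
    rw [hΦ]
    refine ⟨fun j => by rw [update_of_ne (by simp), a1], fun i => by rw [update_of_ne (by simp), a2],
      fun p => by rw [update_of_ne (by simp), a3], fun e he => ⟨fun l => ?_,
        (a4 e he).2.congr (fun j => by rw [update_of_ne (by simp)]) fun v hv => ?_⟩⟩
    · rw [update_of_ne (by simp)]
      exact (a4 e he).1 l
    · rw [update_of_ne]
      rintro rfl
      simp [NN] at hv
  · obtain ⟨a1, a2, a3, a4⟩ := hL x (hX hx)
    rw [hΦ]
    rcases mem_insert.1 hb' with rfl | hb'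
    · refine ⟨by rw [update_self]; exact (h1 x hx).1, fun i => ?_⟩
      obtain rfl : i = ⟨0, z1⟩ := Fin.ext (Nat.lt_one_iff.1 i.2)
      refine (h1 x hx).2.congr fun v hv => ?_
      rcases mem_union.1 (ed_subset I ⟨.W b', ⟨0, z1⟩⟩ hv) with h3 | h3
      · obtain ⟨j, rfl⟩ := (mem_CC v).1 h3
        rw [update_of_ne (by simp), update_of_ne (by simp), update_of_ne (by simp), a1]
      · rcases mem_insert.1 h3 with rfl | h3
        · rw [update_of_ne (by simp), update_self, update_of_ne (by simp), a3]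
        · rw [mem_singleton.1 h3, update_self, update_self]
    · have hne : b' ≠ b := fun e => hb (e ▸ hb')
      obtain ⟨c1, c2⟩ := hT.1 x (hX hx) b' hb'
      refine ⟨by rw [update_of_ne (by simp [hne])]; exact c1,
        c2.congr (fun j => by rw [update_of_ne (by simp)]) fun v hv => ?_⟩
      rw [update_of_ne]
      rintro rfl
      simp [NN, hne.symm] at hv
  · rcases mem_insert.1 hb' with rfl | hb'
    · rw [hΦ, hΦ, update_self, update_self] at hq
      exact h2 x hx x' hx' hq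
    · have hne : b' ≠ b := fun e => hb (e ▸ hb')
      rw [hΦ, hΦ, update_of_ne (by simp [hne]), update_of_ne (by simp [hne])] at hq
      exact hT.2 b' hb' x (hX hx) x' (hX hx') hq

theorem stage_W (hO : Ok r s P Ln) (I : Inst (r + r) P Ln) (κ : Vx r s P Ln × Fin m ↪ Fin n)
    (hN : Num r (Fintype.card Ln) n m w f T γ ε) (S : Finset (P → Fin w)) :
    Reach (r * T)
      (fun h => ∃ ψ, ∃ (lab : P → Fin w → Fin m), ∃ Zs S' Ψ, Base I κ (2 * w) ψ lab Zs h ∧ S' ⊆ S ∧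
        3 * S.card ≤ 4 * S'.card ∧ Lines I κ ψ lab Zs S' Ψ univ h)
      (fun h => ∃ ψ, ∃ (lab : P → Fin w → Fin m), ∃ Zs S' Ψ, Base I κ (2 * w) ψ lab Zs h ∧ S' ⊆ S ∧
        S.card ≤ 2 * S'.card ∧ Lines I κ ψ lab Zs S' Ψ univ h ∧ Tops I κ Zs S' Ψ univ h)
      (r * ε) := by
  refine Reach.ex fun ψ => Reach.ex fun lab => Reach.ex fun Zs => Reach.ex fun S' =>
    Reach.ex fun Ψ => ?_
  have hg := hN.g0.le
  have H := Reach.finset (T := T) (univ : Finset (Fin r))
    (fun D (h : List (RSet n r × Move n r s)) => Base I κ (2 * w) ψ lab Zs h ∧ S' ⊆ S ∧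
      3 * S.card ≤ 4 * S'.card ∧ ∃ S'' ⊆ S', (1 - D.card * γ) * S'.card ≤ S''.card ∧
        ∃ Ψ', Lines I κ ψ lab Zs S'' Ψ' univ h ∧ Tops I κ Zs S'' Ψ' D h)
    hN.e0 (by
      rintro D - b - hb h ⟨hB, hS, h34, S'', hS'', hc, Ψ', hL⟩
      refine (top_step_UEX hO I κ hN ψ lab hB.2.2.2.2.2 Zs hB.2.2.1 hB.2.2.2.1 S'' Ψ' D b hb
        h hL).trans (Reach.post fun l hl => ?_)
      obtain ⟨S3, h1, h2, h3⟩ := hl
      refine ⟨Base_mono (2 * w) ψ lab Zs h l hB, hS, h34, S3, h1.trans hS'', le_trans ?_ h2, h3⟩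
      have h4 : (S''.card : ℝ) ≤ S'.card := Nat.cast_le.2 (card_le_card hS'')
      rw [card_insert_of_notMem hb, Nat.cast_add, Nat.cast_one]
      nlinarith [mul_le_mul_of_nonneg_left h4 hg])
  rw [card_univ, Fintype.card_fin] at H
  refine Reach.imp (Reach.pre H fun h hB => ⟨hB.1, hB.2.1, hB.2.2.1, S', Subset.rfl, by simp, Ψ,
    hB.2.2.2, fun x _ b hb => absurd hb (notMem_empty b),
    fun b hb => absurd hb (notMem_empty b)⟩) ?_
  rintro h ⟨hB, hS, h34, S'', hS'', hc, Ψ', hL, hT⟩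
  refine ⟨ψ, lab, Zs, S'', Ψ', hB, hS''.trans hS, ?_, hL, hT⟩
  have h1 := hN.g1
  have h3 : 3 * (S.card : ℝ) ≤ 4 * S'.card := by exact_mod_cast h34
  have h2 : (S.card : ℝ) ≤ 2 * S''.card := by
    nlinarith [(Nat.cast_nonneg S'.card : (0 : ℝ) ≤ S'.card),
      (Nat.cast_nonneg S.card : (0 : ℝ) ≤ S.card)]
  exact_mod_cast h2

end Pool.Agent.SemiRandom.Und
end

-- part Pool.Agent.P.MP_c53d0e_pr.UEY
section

set_option autoImplicit false
set_option linter.unusedSectionVars false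

namespace Pool.Agent.SemiRandom.Und

open Finset

variable {r s : ℕ} {P Ln : Type} [Fintype P] [DecidableEq P] [Fintype Ln] [DecidableEq Ln]

theorem stages {n m w f T : ℕ} {γ ε : ℝ} [Nonempty (RSet n r)] [Nonempty (Move n r s)]
    (hO : Ok r s P Ln) (I : Inst (r + r) P Ln) (hm : Fintype.card (Vx r s P Ln) * m ≤ n)
    (hN : Num r (Fintype.card Ln) n m w f T γ ε) (S : Finset (P → Fin w)) (hS : I.Exact S)
    (hS' : I.BasInj S) (hc : 2 * f ^ (r + r) ≤ S.card) :
    ∃ St : Strategy (RSet n r) (Move n r s),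
      1 - (∑ g : Gp r P Ln, g.M : ℕ) * ε ≤ Pr St ((∑ g : Gp r P Ln, g.M) * T) (ContainsV (ed I s)) := by
  obtain ⟨κ⟩ : Nonempty (Vx r s P Ln × Fin m ↪ Fin n) :=
    Function.Embedding.nonempty_of_card_le (by simpa using hm)
  have he := hN.e0
  have h1 := stage_Q hO I κ hN
  have h2 := h1.trans (stage_Y hO I κ hN) (by positivity)
  have h3 := h2.trans (stage_U hO I κ hN) (by positivity)
  have h4 := h3.trans (stage_E hO I κ hN) (by positivity)
  have h5 := h4.trans (stage_L hO I κ hN S hS) (by positivity)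
  have h5' := h5.trans (stage_W hO I κ hN S) (by have := he; positivity)
  have h6 := h5'.trans (stage_T hO I κ hN S hS' hc) (by positivity)
  obtain ⟨St, hSt⟩ := Reach.strategy h6
  refine ⟨St, ?_⟩
  have eT : (∑ g : Gp r P Ln, g.M) * T = (2 * r + 2) * T + 2 * r * (2 * T) + Fintype.card P * T +
      (r + Fintype.card Ln * 2) * T + Fintype.card Ln * ((2 * r - 2) * T) + r * T +
      2 * r * T := by
    rw [sum_M]; ring
  have eE : ((∑ g : Gp r P Ln, g.M : ℕ) : ℝ) * ε = ((2 * r + 2 : ℕ) : ℝ) * ε +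
      ((2 * r : ℕ) : ℝ) * (2 * ε) + (Fintype.card P : ℝ) * ε +
      ((r + Fintype.card Ln * 2 : ℕ) : ℝ) * ε +
      (Fintype.card Ln : ℝ) * (((2 * r - 2 : ℕ) : ℝ) * ε) + (r : ℝ) * ε +
      ((2 * r : ℕ) : ℝ) * ε := by
    rw [sum_M]
    generalize 2 * r - 2 = u
    push_cast
    ring
  rw [eT, eE]
  exact hSt

lemma power (I : Inst (r + r) P Ln) {w : ℕ} (S : Finset (P → Fin w)) (hS : I.Exact S) (hS' : I.BasInj S)
    (N : ℕ) : ∃ S' : Finset (P → Fin (w ^ N)), I.Exact S' ∧ I.BasInj S' ∧ S'.card = S.card ^ N := by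
  classical
  let F : (Fin N → P → Fin w) → P → Fin (w ^ N) :=
    fun xs p => finFunctionFinEquiv (fun i => xs i p)
  have hF : ∀ xs ys p, F xs p = F ys p ↔ ∀ i, xs i p = ys i p := by
    intro xs ys p
    constructor
    · intro h i
      exact congrFun (finFunctionFinEquiv.injective h) i
    · intro h
      exact congrArg finFunctionFinEquiv (funext h)
  have hinj : Function.Injective F := by
    intro xs ys h
    funext i p
    exact (hF xs ys p).1 (congrFun h p) i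
  refine ⟨(Fintype.piFinset fun _ : Fin N => S).image F, ?_, ?_, ?_⟩
  · intro e x hx x' hx' h
    obtain ⟨xs, hxs, rfl⟩ := mem_image.1 hx
    obtain ⟨ys, hys, rfl⟩ := mem_image.1 hx'
    rw [Fintype.mem_piFinset] at hxs hys
    exact (hF _ _ _).2 fun i => hS e _ (hxs i) _ (hys i) fun l => (hF _ _ _).1 (h l) i
  · intro x hx x' hx' h
    obtain ⟨xs, hxs, rfl⟩ := mem_image.1 hx
    obtain ⟨ys, hys, rfl⟩ := mem_image.1 hx'
    rw [Fintype.mem_piFinset] at hxs hys
    have : xs = ys := funext fun i => hS' _ (hxs i) _ (hys i) fun b => (hF _ _ _).1 (h b) i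
    rw [this]
  · rw [card_image_of_injective _ hinj, Fintype.card_piFinset]
    simp

end Pool.Agent.SemiRandom.Und
end

-- part Pool.Agent.P.MP_c53d0e_pr.UEZ
section

set_option autoImplicit false
set_option linter.unusedSectionVars false

namespace Pool.Agent.SemiRandom.Und

open Finset

open Filter Topology

variable {r s : ℕ} {P Ln : Type} [Fintype P] [DecidableEq P] [Fintype Ln] [DecidableEq Ln]

/-- Choice of the parameters. -/
lemma params (r C : ℕ) (hr : 1 ≤ r) (hC : 1 ≤ C) {w : ℕ} (hw : 2 ≤ w) {θ : ℝ} (hθ : 0 < θ)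
    (hθ1 : θ < 1) : ∃ c : ℝ, 0 < c ∧ ∀ᶠ n : ℕ in atTop, ∃ N f : ℕ, 2 ≤ f ∧ f ≤ w ^ N ∧
      C * (w ^ N * w ^ N) ≤ n ∧ (2 * f ^ r : ℝ) ≤ ((w : ℝ) ^ ((r : ℝ) * (1 - θ))) ^ N ∧
      c * (n : ℝ) ^ ((1 - θ) / 2) ≤ f := by
  have hw1 : (1 : ℝ) ≤ w := by exact_mod_cast (by omega : 1 ≤ w)
  have hC1 : (1 : ℝ) ≤ C := by exact_mod_cast hC
  set A : ℝ := C * (w * w) with hA
  have hA1 : 1 ≤ A := one_le_mul_of_one_le_of_one_le hC1 (one_le_mul_of_one_le_of_one_le hw1 hw1)
  have hA0 : 0 < A := by linarith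
  refine ⟨1 / (4 * A), by positivity, ?_⟩
  have ht : Tendsto (fun n : ℕ => (n : ℝ) ^ ((1 - θ) / 2)) atTop atTop :=
    (tendsto_rpow_atTop (by linarith)).comp tendsto_natCast_atTop_atTop
  filter_upwards [ht.eventually_ge_atTop (4 * A), eventually_ge_atTop C] with n h4 hn
  have hww : 1 < w * w := by nlinarith
  have hq : n / C ≠ 0 := (Nat.div_pos hn hC).ne'
  set N := Nat.log (w * w) (n / C) with hN
  have l1 : (w * w) ^ N ≤ n / C := Nat.pow_log_le_self _ hq
  have l2 : n / C < (w * w) ^ (N + 1) := Nat.lt_pow_succ_log_self hww _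
  have l3 : n ≤ C * (w * w) ^ (N + 1) :=
    (Nat.lt_mul_div_succ n hC).le.trans (Nat.mul_le_mul_left _ l2)
  set y : ℝ := (w : ℝ) ^ N with hy
  have hy1 : 1 ≤ y := one_le_pow₀ hw1
  have hy0 : 0 ≤ y := by linarith
  have l4 : (n : ℝ) ≤ A * y ^ 2 := by
    have : (n : ℝ) ≤ (C * (w * w) ^ (N + 1) : ℕ) := by exact_mod_cast l3
    refine this.trans (le_of_eq ?_)
    push_cast; rw [hA, hy]; ring
  set x : ℝ := y ^ (1 - θ) with hx
  have l5 : (n : ℝ) ^ ((1 - θ) / 2) ≤ A * x := by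
    refine (Real.rpow_le_rpow (by positivity) l4 (by linarith)).trans ?_
    rw [Real.mul_rpow hA0.le (by positivity), ← Real.rpow_natCast, ← Real.rpow_mul hy0]
    have e : ((2 : ℕ) : ℝ) * ((1 - θ) / 2) = 1 - θ := by push_cast; ring
    rw [e]
    exact mul_le_mul_of_nonneg_right (Real.rpow_le_self_of_one_le hA1 (by linarith))
      (Real.rpow_nonneg hy0 _)
  have x4 : 4 ≤ x := le_of_mul_le_mul_left (by linarith) hA0
  have hxy : x ≤ y := Real.rpow_le_self_of_one_le hy1 (by linarith)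
  have f1 : (⌊x / 2⌋₊ : ℝ) ≤ x / 2 := Nat.floor_le (by linarith)
  have f2 : x / 2 < ⌊x / 2⌋₊ + 1 := Nat.lt_floor_add_one _
  refine ⟨N, ⌊x / 2⌋₊, Nat.le_floor (by push_cast; linarith), ?_, ?_, ?_, ?_⟩
  · have : (⌊x / 2⌋₊ : ℝ) ≤ (w ^ N : ℕ) := by push_cast; linarith
    exact_mod_cast this
  · rw [← mul_pow]
    exact (Nat.mul_le_mul_left _ l1).trans (Nat.mul_div_le n C)
  · have e : ((w : ℝ) ^ ((r : ℝ) * (1 - θ))) ^ N = x ^ r := by
      have w0 : (0 : ℝ) ≤ w := by linarith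
      rw [hx, hy, ← Real.rpow_natCast_mul w0, ← Real.rpow_mul_natCast w0,
        ← Real.rpow_mul_natCast w0]
      congr 1; ring
    rw [e]
    have h2 : (2 : ℝ) ≤ 2 ^ r := le_self_pow₀ one_le_two (by omega)
    calc (2 * (⌊x / 2⌋₊ : ℝ) ^ r) ≤ 2 ^ r * (x / 2) ^ r := by gcongr
      _ = x ^ r := by rw [← mul_pow]; congr 1; ring
  · rw [div_mul_eq_mul_div, one_mul, div_le_iff₀ (by positivity)]
    nlinarith

theorem yes_win (hO : Ok r s P Ln) (I : Inst (r + r) P Ln) (hY : I.Yes) {θ : ℝ} (hθ : 0 < θ) (q : ℝ)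
    (hq : q < 1) : ∃ c : ℝ, 0 < c ∧ ∀ᶠ n : ℕ in atTop,
      ∃ (S : Strategy (RSet n r) (Move n r s)) (T : ℕ),
        q ≤ Pr S T (ContainsV (ed I s)) ∧ (T : ℝ) ≤ c * (n : ℝ) ^ ((r : ℝ) - 1 / 2 + θ) := by
  have hr := hO.hr
  set θ' : ℝ := min θ (1 / 2) with hθ'
  have t0 : 0 < θ' := lt_min hθ (by norm_num)
  have t1 : θ' < 1 := (min_le_right _ _).trans_lt (by norm_num)
  have t2 : θ' ≤ θ := min_le_left _ _
  obtain ⟨w, S, hw, hE, hB, hS⟩ := hY θ' t0
  set cV := Fintype.card (Vx r s P Ln) with hcV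
  have cV0 : 0 < cV := Fintype.card_pos_iff.2 ⟨Vx.c 0⟩
  set nl := Fintype.card Ln with hnl
  set e2 := 2 ^ (r + nl * 2 + 3) with he2
  have e22 : 2 ≤ e2 := Nat.le_self_pow (by omega) 2
  obtain ⟨c, hc, hev⟩ := params (r + r) (cV * e2) (by omega) (Nat.mul_pos cV0 (by omega)) hw t0 t1
  set M : ℕ := ∑ g : Gp r P Ln, g.M with hM
  have M0 : 0 < M := by rw [hM, sum_M]; omega
  have M0' : (0 : ℝ) < M := by exact_mod_cast M0
  have r0 : (0 : ℝ) < r := by exact_mod_cast (by omega : 0 < r)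
  set L : ℝ := nl * (2 * r - 2 : ℕ) with hL
  have L0 : 0 ≤ L := by positivity
  set γ : ℝ := 1 / (4 * r + 4 * L) with hγ
  have γ0 : 0 < γ := by positivity
  set ε : ℝ := (1 - q) / M with hε
  have ε0 : 0 < ε := div_pos (by linarith) M0'
  refine ⟨M * 2 / (ε * γ * c), by positivity, ?_⟩
  filter_upwards [hev, eventually_ge_atTop r] with n ⟨N, f, f2, fw, hn, hf, hcf⟩ hrn
  have hcard : Fintype.card (RSet n r) = n.choose r := by
    rw [Fintype.card_finset_len, Fintype.card_fin]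
  have : Nonempty (RSet n r) := Fintype.card_pos_iff.1 (by rw [hcard]; exact Nat.choose_pos hrn)
  have : Nonempty (Move n r s) := ⟨Sym.replicate _ ⟨0, by omega⟩⟩
  have f0 : (0 : ℝ) < f := by exact_mod_cast (by omega : 0 < f)
  have n1 : (1 : ℝ) ≤ n := by exact_mod_cast (by omega : 1 ≤ n)
  have n0 : (0 : ℝ) < n := by linarith
  have hm : e2 * (w ^ N * w ^ N) ≤ n / cV :=
    (Nat.le_div_iff_mul_le cV0).2 (le_of_eq_of_le (by ring) hn)
  set R : ℝ := 2 * (Fintype.card (RSet n r) : ℝ) / (ε * (γ * f)) with hR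
  have R0 : 0 ≤ R := by positivity
  have hN : Num r nl n (n / cV) (w ^ N) f ⌊R⌋₊ γ ε :=
    { hf := f2
      hw := Nat.one_le_pow _ _ (by omega)
      m1 := le_trans (by rw [sq]; exact Nat.mul_le_mul e22 (Nat.mul_le_mul fw fw)) hm
      m2 := by rw [mul_assoc]; exact hm
      fw := fw
      g0 := γ0
      g1 := by rw [hγ, div_mul_eq_mul_div, div_le_iff₀ (by positivity)]; linarith
      g2 := by rw [hγ, div_mul_eq_mul_div, div_le_iff₀ (by positivity)]; linarith
      e0 := ε0.le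
      hT := by
        have := (Nat.lt_floor_add_one R).le
        rw [hR, div_le_iff₀ (by positivity)] at this
        exact this.trans (le_of_eq (by rw [← hR]; ring)) }
  obtain ⟨S', hE', hB', hS'⟩ := power I S hE hB N
  have hc2 : 2 * f ^ (r + r) ≤ S'.card := by
    have : (2 * f ^ (r + r) : ℝ) ≤ (S.card : ℝ) ^ N :=
      hf.trans (pow_le_pow_left₀ (by positivity) hS N)
    rw [hS']; exact_mod_cast this
  obtain ⟨St, hSt⟩ := stages hO I (Nat.mul_div_le n cV) hN S' hE' hB' hc2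
  refine ⟨St, M * ⌊R⌋₊, le_of_eq_of_le ?_ hSt, ?_⟩
  · rw [← hM, hε]; field_simp; ring
  · have c1 : (Fintype.card (RSet n r) : ℝ) ≤ (n : ℝ) ^ (r : ℝ) := by
      rw [hcard, Real.rpow_natCast]; exact_mod_cast Nat.choose_le_pow n r
    have p0 : 0 < (n : ℝ) ^ ((1 - θ') / 2) := Real.rpow_pos_of_pos n0 _
    have c2 : (n : ℝ) ^ (r : ℝ) ≤ (n : ℝ) ^ ((r : ℝ) - 1 / 2 + θ) * (n : ℝ) ^ ((1 - θ') / 2) := by
      rw [← Real.rpow_add n0]
      exact Real.rpow_le_rpow_of_exponent_le n1 (by linarith)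
    have c3 : R ≤ 2 / (ε * γ * c) * (n : ℝ) ^ ((r : ℝ) - 1 / 2 + θ) := by
      calc R ≤ 2 * ((n : ℝ) ^ ((r : ℝ) - 1 / 2 + θ) * (n : ℝ) ^ ((1 - θ') / 2)) /
            (ε * (γ * (c * (n : ℝ) ^ ((1 - θ') / 2)))) := by
            rw [hR]; gcongr; exact c1.trans c2
        _ = _ := by field_simp
    push_cast
    calc (M : ℝ) * ⌊R⌋₊ ≤ M * (2 / (ε * γ * c) * (n : ℝ) ^ ((r : ℝ) - 1 / 2 + θ)) :=
          mul_le_mul_of_nonneg_left ((Nat.floor_le R0).trans c3) M0'.le
      _ = _ := by ring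

end Pool.Agent.SemiRandom.Und
end

-- part Pool.Agent.P.MP_c53d0e_pr.UF2
section

set_option autoImplicit false
set_option linter.unusedSectionVars false

namespace Pool.Agent.SemiRandom.Und

open Finset

/-- The value of the numbered point `a` for basis values `X`. -/
def val_UF2 {V : Type} [AddCommGroup V] (K : ℕ) (ρ : ℕ → V →+ V) (X : ℕ → V) (a : ℕ) : V :=
  if a < K then X a else X ((a - K) / K % K) - ρ ((a - K) / (K * K)) (X ((a - K) % K))

lemma val_lt_UF2 {V : Type} [AddCommGroup V] {K : ℕ} (ρ : ℕ → V →+ V) (X : ℕ → V) {a : ℕ}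
    (ha : a < K) : val_UF2 K ρ X a = X a := by
  simp [val_UF2, ha]

lemma val_ptP_UF2 {V : Type} [AddCommGroup V] {K : ℕ} (ρ : ℕ → V →+ V) (X : ℕ → V) {g i j : ℕ}
    (hi : i < K) (hj : j < K) : val_UF2 K ρ X (ptP K g i j) = X i - ρ g (X j) := by
  obtain ⟨h0, h1, h2, h3⟩ := ptP_decode (g := g) hi hj
  rw [val_UF2, if_neg (not_lt.2 h0), h1, h2, h3]

lemma ev_UF2 {np : ℕ} {W : Type} (f : ℕ → W) {a : ℕ} (ha : a ≤ np) :
    ev (fun b : Fin (np + 1) => f b) a = f a := by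
  simp only [ev, Fin.val_ofNat]
  rw [Nat.mod_eq_of_lt (Nat.lt_succ_of_le ha)]

/-- Extension of basis values by zero. -/
def ext_UF2 {V : Type} [AddCommGroup V] {K : ℕ} {V' : AddSubgroup V} (X : Fin K → V') (a : ℕ) :
    V :=
  if h : a < K then (X ⟨a, h⟩ : V) else 0

lemma ext_mem_UF2 {V : Type} [AddCommGroup V] {K : ℕ} {V' : AddSubgroup V} (X : Fin K → V')
    (a : ℕ) : ext_UF2 X a ∈ V' := by
  unfold ext_UF2
  split_ifs with h
  · exact (X ⟨a, h⟩).2
  · exact V'.zero_mem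

/-- The model of the auxiliary generators. -/
def aux_UF2 {V : Type} [AddCommGroup V] (n : ℕ) (ρ : ℕ → V →+ V) (g : ℕ) : V →+ V :=
  if g < n then ρ g else if g < n + n * n then (ρ ((g - n) / n)).comp (ρ ((g - n) % n))
  else AddMonoidHom.id V - ρ ((g - (n + n * n)) / n) + ρ ((g - (n + n * n)) % n)

lemma dm_UF2 {n a b : ℕ} (hb : b < n) : (a * n + b) / n = a ∧ (a * n + b) % n = b := by
  have hn : 0 < n := by omega
  constructor
  · rw [Nat.add_comm, Nat.add_mul_div_right _ _ hn, Nat.div_eq_of_lt hb, Nat.zero_add]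
  · rw [Nat.add_comm, Nat.add_mul_mod_self_right, Nat.mod_eq_of_lt hb]

lemma aux_lt_UF2 {V : Type} [AddCommGroup V] {n : ℕ} (ρ : ℕ → V →+ V) {g : ℕ} (hg : g < n) :
    aux_UF2 n ρ g = ρ g := if_pos hg

lemma aux_cmp_UF2 {V : Type} [AddCommGroup V] {n : ℕ} (ρ : ℕ → V →+ V) {a b : ℕ} (ha : a < n)
    (hb : b < n) (t : V) : aux_UF2 n ρ (cmpG n a b) t = ρ a (ρ b t) := by
  have := pair_lt_UF1 ha hb
  unfold aux_UF2 cmpG
  rw [if_neg (by omega), if_pos (by omega), Nat.add_sub_cancel_left, (dm_UF2 hb).1, (dm_UF2 hb).2]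
  rfl

lemma aux_dif_UF2 {V : Type} [AddCommGroup V] {n : ℕ} (ρ : ℕ → V →+ V) {a b : ℕ}
    (hb : b < n) (t : V) : t = aux_UF2 n ρ (difG n a b) t ↔ ρ a t = ρ b t := by
  unfold aux_UF2 difG
  rw [if_neg (by omega), if_neg (by omega), Nat.add_sub_cancel_left, (dm_UF2 hb).1, (dm_UF2 hb).2]
  change t = t - ρ a t + ρ b t ↔ _
  rw [sub_add, eq_comm, sub_eq_self, sub_eq_zero]

lemma horn_UF2 {V : Type} [AddCommGroup V] {K : ℕ} {p : Prs} (hW : p.WF) (ρ : ℕ → V →+ V)
    (V' : AddSubgroup V) (D : ℕ → V) (hD : ∀ a, D a ∈ V') (E : ℕ → Prop)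
    (EA : ∀ i < K, E i ↔ D i = 0)
    (EP : ∀ g < p.G, ∀ i < K, ∀ j < K, E (ptP K g i j) ↔ D i = aux_UF2 p.1 ρ g (D j))
    (h1 : ∀ t, ρ 0 t = t) (h0 : ∀ t, ρ 1 t = 0)
    (hR : ∀ a b c d, (a, b, c, d) ∈ p.2.1 → ∀ t, ρ a (ρ b t) = ρ c (ρ d t))
    (hS : ∀ a b c d, (a, b, c, d) ∈ p.2.2 → ∀ t ∈ V', ρ a t = ρ b t → ρ c t = ρ d t → t = 0)
    {ln : Line} (hln : ln ∈ lines K p) : E ln.1 → E ln.2.1 → E ln.2.2 := by
  obtain ⟨⟨c1, c2, c3, c4⟩, hc, hl⟩ := mem_lines.1 hln
  obtain ⟨k1, k2, k3, k4, -⟩ := hc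
  simp only at k1 k2 k3 k4
  have g0 : 0 < p.1 := lt_of_lt_of_le (by norm_num) hW.1
  have g1 : 1 < p.1 := lt_of_lt_of_le (by norm_num) hW.1
  have EQ : ∀ g < p.1, ∀ i < K, ∀ j < K, E (ptP K g i j) ↔ D i = ρ g (D j) := by
    intro g hg i hi j hj
    rw [EP g (lt_G hg) i hi j hj, aux_lt_UF2 ρ hg]
  have E0 : ∀ i < K, ∀ j < K, E (ptP K 0 i j) ↔ D i = D j := by
    intro i hi j hj
    rw [EQ 0 g0 i hi j hj, h1]
  rcases hl with hl | ⟨g, hg, hl⟩ | ⟨⟨a, b, c, d⟩, hx, hl⟩ | ⟨⟨a, b, c, d⟩, hx, hl⟩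
  · simp only [globL, List.mem_cons, List.not_mem_nil, or_false] at hl
    rcases hl with rfl | rfl
    · simp only
      rw [EQ 1 g1 c1 k1 c2 k2, EA c1 k1, h0]
      exact fun h _ => h
    · simp only
      rw [E0 c1 k1 c2 k2, E0 c2 k2 c1 k1]
      exact fun h _ => h.symm
  · simp only [genL, List.mem_cons, List.not_mem_nil, or_false] at hl
    rcases hl with rfl | rfl | rfl | rfl | rfl | rfl
    · simp only
      rw [EA c1 k1, EA c2 k2, EP g hg c1 k1 c2 k2]
      intro h h'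
      rw [h, h', map_zero]
    · simp only
      rw [EA c1 k1, EP g hg c1 k1 c1 k1]
      intro h _
      rw [h, map_zero]
    · simp only
      rw [EA c1 k1, EA c2 k2, EP g hg c1 k1 c2 k2]
      intro h h'
      rw [h, h', map_zero]
    · simp only
      rw [EP g hg c1 k1 c2 k2, E0 c4 k4 c1 k1, EP g hg c4 k4 c2 k2]
      exact fun h h' => h'.trans h
    · simp only
      rw [EP g hg c1 k1 c2 k2, E0 c4 k4 c2 k2, EP g hg c1 k1 c4 k4]
      intro h h'
      rw [h', ← h]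
    · simp only
      rw [EP g hg c1 k1 c2 k2, E0 c1 k1 c4 k4, EP g hg c4 k4 c2 k2]
      exact fun h h' => h.trans h'.symm
  · obtain ⟨ha, hb, hc, hd⟩ := hW.2 _ (Or.inl hx)
    simp only at ha hb hc hd
    simp only [relL, List.mem_cons, List.not_mem_nil, or_false] at hl
    rcases hl with rfl | rfl
    · simp only
      rw [EQ b hb c1 k1 c2 k2, EQ a ha c3 k3 c1 k1, EP _ (cmpG_lt ha hb) c3 k3 c2 k2,
        aux_cmp_UF2 ρ ha hb]
      intro e1 e2
      rw [e2, e1]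
    · simp only
      rw [EQ d hd c4 k4 c2 k2, EQ c hc c3 k3 c4 k4, EP _ (cmpG_lt ha hb) c3 k3 c2 k2,
        aux_cmp_UF2 ρ ha hb]
      intro e1 e2
      rw [e1, e2, hR a b c d hx]
  · obtain ⟨ha, hb, hc, hd⟩ := hW.2 _ (Or.inr hx)
    simp only at ha hb hc hd
    simp only [sepL, List.mem_cons, List.not_mem_nil, or_false] at hl
    rcases hl with rfl | rfl | rfl
    · simp only
      rw [EQ a ha c1 k1 c2 k2, EQ b hb c1 k1 c2 k2, EP _ (difG_lt ha hb) c2 k2 c2 k2,
        aux_dif_UF2 ρ hb]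
      exact fun e1 e2 => e1.symm.trans e2
    · simp only
      rw [EQ c hc c4 k4 c2 k2, EQ d hd c4 k4 c2 k2, EP _ (difG_lt hc hd) c2 k2 c2 k2,
        aux_dif_UF2 ρ hd]
      exact fun e1 e2 => e1.symm.trans e2
    · simp only
      rw [EP _ (difG_lt ha hb) c2 k2 c2 k2, EP _ (difG_lt hc hd) c2 k2 c2 k2, aux_dif_UF2 ρ hb,
        aux_dif_UF2 ρ hd, EA c2 k2]
      exact hS a b c d hx _ (hD c2)

theorem yes_of_Y {K : ℕ} {p : Prs} (hK : 4 ≤ K) (hW : p.WF) (hY : p.Y) : (p.inst K).Yes := by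
  classical
  intro θ hθ
  obtain ⟨V, iV, fV, V', ρ, h2, hc, h1, h0, hR, hS⟩ := hY θ hθ
  have : Fintype V' := Fintype.ofFinite _
  let eqv := Fintype.equivFin V
  let f : (Fin K → V') → (Fin (npts K p + 1) → Fin (Fintype.card V)) :=
    fun X b => eqv (val_UF2 K (aux_UF2 p.1 ρ) (ext_UF2 X) b)
  have hev : ∀ X a, a ≤ npts K p → ev (f X) a = eqv (val_UF2 K (aux_UF2 p.1 ρ) (ext_UF2 X) a) :=
    fun X a ha => ev_UF2 (fun b => eqv (val_UF2 K (aux_UF2 p.1 ρ) (ext_UF2 X) b)) ha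
  have EA : ∀ X X' : Fin K → V', ∀ i < K, ev (f X) i = ev (f X') i ↔
      ext_UF2 X i - ext_UF2 X' i = 0 := by
    intro X X' i hi
    rw [hev X i (lt_npts hW hi), hev X' i (lt_npts hW hi), eqv.apply_eq_iff_eq,
      val_lt_UF2 _ _ hi, val_lt_UF2 _ _ hi, sub_eq_zero]
  have EP : ∀ X X' : Fin K → V', ∀ g < p.G, ∀ i < K, ∀ j < K,
      ev (f X) (ptP K g i j) = ev (f X') (ptP K g i j) ↔
      ext_UF2 X i - ext_UF2 X' i = aux_UF2 p.1 ρ g (ext_UF2 X j - ext_UF2 X' j) := by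
    intro X X' g hg i hi j hj
    rw [hev X _ (ptP_le hW hg hi hj), hev X' _ (ptP_le hW hg hi hj), eqv.apply_eq_iff_eq,
      val_ptP_UF2 _ _ hi hj, val_ptP_UF2 _ _ hi hj, map_sub, sub_eq_sub_iff_sub_eq_sub]
  have hinj : Function.Injective f := by
    intro X X' h
    funext i
    have h3 := (EA X X' i i.2).1 (by rw [h])
    rw [sub_eq_zero] at h3
    simp only [ext_UF2, i.2, dif_pos] at h3
    exact Subtype.ext h3
  have hex : (p.inst K).Exact (univ.image f) := by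
    refine (exact_iff _).2 fun ln hln x hx x' hx' => ?_
    obtain ⟨X, -, rfl⟩ := mem_image.1 hx
    obtain ⟨X', -, rfl⟩ := mem_image.1 hx'
    exact horn_UF2 hW ρ V' (fun a => ext_UF2 X a - ext_UF2 X' a)
      (fun a => V'.sub_mem (ext_mem_UF2 X a) (ext_mem_UF2 X' a))
      (fun a => ev (f X) a = ev (f X') a) (EA X X') (EP X X') h1 h0 hR hS hln
  refine ⟨Fintype.card V, univ.image f, h2, hex, basInj_of_exact hK hW hex, ?_⟩
  rw [card_image_of_injective _ hinj, card_univ, Fintype.card_fun, Fintype.card_fin,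
    ← Nat.card_eq_fintype_card (α := V'), mul_comm, Real.rpow_mul (Nat.cast_nonneg _),
    Real.rpow_natCast]
  push_cast
  exact pow_le_pow_left₀ (Real.rpow_nonneg (Nat.cast_nonneg _) _) hc K

end Pool.Agent.SemiRandom.Und
end

-- part Pool.Agent.P.MP_c53d0e_pr.UF3
section

set_option autoImplicit false
set_option linter.unusedSectionVars false

namespace Pool.Agent.SemiRandom.Und

open Finset

section Aux

variable {ι W : Type} [Fintype ι] [DecidableEq ι] [Fintype W] [DecidableEq W]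

theorem avg_UF3 (v : ι) (g : (ι → W) → ℝ) :
    ∑ ω : ι → W, ∑ a : W, g (Function.update ω v a) = Fintype.card W * ∑ ω, g ω := by
  have hinv : Function.Involutive
      fun p : (ι → W) × W => (Function.update p.1 v p.2, p.1 v) := fun p => by
    simp
  rw [← Fintype.sum_prod_type', ← (Equiv.sum_comp hinv.toPerm _)]
  simp only [Function.Involutive.coe_toPerm, Function.update_idem, Function.update_eq_self]
  rw [Fintype.sum_prod_type, mul_sum]
  simp

theorem cs_UF3 {v v' : ι} (hv : v ≠ v') (f : (ι → W) → ℝ)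
    (hf : ∀ ω b, f (Function.update ω v' b) = f ω) :
    (Fintype.card W * ∑ ω, f ω) ^ 2 ≤ (Fintype.card W : ℝ) ^ Fintype.card ι *
      (Fintype.card W * (Fintype.card W * ∑ ω, f ω * f (Function.update ω v (ω v')))) := by
  have h1 : Fintype.card W * ∑ ω, f ω * f (Function.update ω v (ω v')) =
      ∑ ω : ι → W, f ω * ∑ b : W, f (Function.update ω v b) := by
    rw [← avg_UF3 v']
    refine sum_congr rfl fun ω _ => ?_
    rw [mul_sum]
    refine sum_congr rfl fun b _ => ?_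
    rw [hf, Function.update_self, Function.update_comm hv.symm, hf]
  have h2 : Fintype.card W * ∑ ω : ι → W, f ω * ∑ b : W, f (Function.update ω v b) =
      ∑ ω : ι → W, (∑ b : W, f (Function.update ω v b)) ^ 2 := by
    rw [← avg_UF3 v]
    refine sum_congr rfl fun ω _ => ?_
    simp only [Function.update_idem]
    rw [← sum_mul, sq]
  rw [h1, h2, ← avg_UF3 v]
  refine sq_sum_le_card_mul_sum_sq.trans (le_of_eq ?_)
  rw [card_univ, Fintype.card_fun, Nat.cast_pow]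

open Classical in
theorem cs_card_UF3 [Nonempty W] {v v' : ι} (hv : v ≠ v') (P Q : (ι → W) → Prop)
    (hP : ∀ ω b, P (Function.update ω v' b) ↔ P ω)
    (hQ : ∀ ω, P ω → P (Function.update ω v (ω v')) → Q ω) :
    (#{ω : ι → W | P ω} : ℝ) ^ 2 ≤
      (Fintype.card W : ℝ) ^ Fintype.card ι * #{ω : ι → W | Q ω} := by
  have hw : (0 : ℝ) < Fintype.card W := Nat.cast_pos.2 Fintype.card_pos
  have h := cs_UF3 hv (fun ω => if P ω then (1 : ℝ) else 0) fun ω b => by simp only [hP]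
  have h1 : ∑ ω : ι → W, (if P ω then (1 : ℝ) else 0) *
      (if P (Function.update ω v (ω v')) then (1 : ℝ) else 0) ≤ #{ω : ι → W | Q ω} := by
    rw [← sum_boole]
    refine sum_le_sum fun ω _ => ?_
    by_cases h2 : P ω
    · by_cases h3 : P (Function.update ω v (ω v'))
      · simp [h2, h3, hQ ω h2 h3]
      · simp only [if_neg h3, mul_zero]
        positivity
    · simp only [if_neg h2, zero_mul]
      positivity
  rw [sum_boole] at h
  have h2 := h.trans (mul_le_mul_of_nonneg_left (mul_le_mul_of_nonneg_left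
    (mul_le_mul_of_nonneg_left h1 hw.le) hw.le) (by positivity))
  refine le_of_mul_le_mul_left (le_of_eq_of_le ?_ (h2.trans (le_of_eq ?_))) (mul_pos hw hw)
  · ring
  · ring

/-- all colourful choices from a set of vertices and the base lie in the target -/
def Om_UF3 {K : ℕ} (col : ι → Fin K) (base : Fin K → ι) (B : Finset (Fin K → W)) (G : Finset ι)
    (ω : ι → W) : Prop :=
  ∀ τ : Fin K → ι, (∀ i, col (τ i) = i) → (∀ i, τ i ∈ G ∨ τ i = base i) → (fun i => ω (τ i)) ∈ B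

open Classical in
theorem base_UF3 {K : ℕ} (col : ι → Fin K) (base : Fin K → ι) (hb : ∀ i, col (base i) = i)
    (B : Finset (Fin K → W)) :
    B.card * Fintype.card W ^ Fintype.card ι ≤
      #{ω : ι → W | Om_UF3 col base B ∅ ω} * Fintype.card W ^ K := by
  have hi : Function.Injective base := Function.LeftInverse.injective hb
  have h := card_le_card_of_injOn (s := B ×ˢ (univ : Finset (ι → W)))
    (t := ({ω : ι → W | Om_UF3 col base B ∅ ω} : Finset (ι → W)) ×ˢ (univ : Finset (Fin K → W)))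
    (fun p => (Function.extend base p.1 p.2, fun i => p.2 (base i))) (fun p hp => by
      refine mem_coe.2 (mem_product.2 ⟨mem_filter.2 ⟨mem_univ _, fun τ _ h2 => ?_⟩, mem_univ _⟩)
      have h3 : (fun i => Function.extend base p.1 p.2 (τ i)) = p.1 := funext fun i => by
        rw [(h2 i).resolve_left (notMem_empty _), hi.extend_apply]
      rw [h3]
      exact (mem_product.1 (mem_coe.1 hp)).1) (fun p _ q _ h => by
      obtain ⟨h1, h2⟩ := Prod.mk.inj h
      refine Prod.ext (funext fun i => ?_) (funext fun x => ?_)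
      · simpa only [hi.extend_apply] using congrFun h1 (base i)
      · by_cases hx : ∃ i, base i = x
        · obtain ⟨i, rfl⟩ := hx
          exact congrFun h2 i
        · simpa only [Function.extend_apply' _ _ _ hx] using congrFun h1 x)
  simpa only [card_product, card_univ, Fintype.card_fun, Fintype.card_fin] using h

open Classical in
theorem ind_UF3 [Nonempty W] {K : ℕ} (col : ι → Fin K) (base : Fin K → ι)
    (hb : ∀ i, col (base i) = i) (B : Finset (Fin K → W)) (G : Finset ι) :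
    ((B.card : ℝ) / (Fintype.card W : ℝ) ^ K) ^ (2 ^ G.card) *
        (Fintype.card W : ℝ) ^ Fintype.card ι ≤ #{ω : ι → W | Om_UF3 col base B G ω} := by
  have hw : (0 : ℝ) < Fintype.card W := Nat.cast_pos.2 Fintype.card_pos
  have a0 : 0 ≤ (B.card : ℝ) / (Fintype.card W : ℝ) ^ K := by positivity
  have a1 : (B.card : ℝ) / (Fintype.card W : ℝ) ^ K ≤ 1 := by
    rw [div_le_one (by positivity)]
    have h := card_le_univ B
    rw [Fintype.card_fun, Fintype.card_fin] at h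
    exact_mod_cast h
  induction G using Finset.induction_on with
  | empty =>
    rw [card_empty, pow_zero, pow_one, div_mul_eq_mul_div, div_le_iff₀ (by positivity)]
    exact_mod_cast base_UF3 col base hb B
  | insert v' G hG ih =>
    rw [card_insert_of_notMem hG]
    by_cases hv : base (col v') = v'
    · refine le_trans (mul_le_mul_of_nonneg_right (pow_le_pow_of_le_one a0 a1
        (Nat.pow_le_pow_right two_pos (Nat.le_succ _))) (by positivity)) (ih.trans ?_)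
      refine Nat.cast_le.2 (card_le_card fun ω hω => mem_filter.2 ⟨mem_univ _, fun τ h1 h2 => ?_⟩)
      refine (mem_filter.1 hω).2 τ h1 fun i => ?_
      rcases h2 i with h3 | h3
      · rcases mem_insert.1 h3 with h4 | h4
        · right
          rw [h4, ← hv, ← h4, h1]
        · exact Or.inl h4
      · exact Or.inr h3
    · have key : ∀ (ω : ι → W) (b : W) (τ : Fin K → ι), (∀ i, τ i ∈ G ∨ τ i = base i) →
          (fun i => Function.update ω v' b (τ i)) = fun i => ω (τ i) := fun ω b τ h2 =>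
        funext fun i => by
          refine Function.update_of_ne (fun h3 => ?_) _ _
          rcases h2 i with h4 | h4
          · exact hG (h3 ▸ h4)
          · exact hv (by rw [← h3, h4, hb])
      have h := cs_card_UF3 hv (Om_UF3 col base B G) (Om_UF3 col base B (insert v' G))
        (fun ω b => forall_congr' fun τ => forall_congr' fun _ => forall_congr' fun h2 => by
          rw [key ω b τ h2])
        (fun ω h1 h2 τ h3 h4 => by
          by_cases h5 : τ (col v') = v'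
          · have h6 := h2 (Function.update τ (col v') (base (col v'))) (fun i => by
              by_cases h7 : i = col v'
              · rw [h7, Function.update_self, hb]
              · rw [Function.update_of_ne h7, h3]) (fun i => by
              by_cases h7 : i = col v'
              · rw [h7, Function.update_self]
                exact Or.inr rfl
              · rw [Function.update_of_ne h7]
                refine (h4 i).imp_left fun h8 => (mem_insert.1 h8).resolve_left fun h9 => h7 ?_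
                rw [← h9, h3])
            refine (congrArg (· ∈ B) (funext fun i => ?_)).mp h6
            by_cases h7 : i = col v'
            · rw [h7, Function.update_self, Function.update_self, h5]
            · rw [Function.update_of_ne h7]
              refine Function.update_of_ne (fun h8 => h7 ?_) _ _
              rw [← h3 i, h8, hb]
          · refine h1 τ h3 fun i => (h4 i).imp_left fun h8 =>
              (mem_insert.1 h8).resolve_left fun h9 => h5 ?_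
            rw [← h9, h3])
      refine le_of_mul_le_mul_left (le_trans (le_of_eq ?_)
        ((pow_le_pow_left₀ (by positivity) ih 2).trans h))
        (pow_pos hw (Fintype.card ι))
      rw [pow_succ 2, pow_mul]
      ring

end Aux

open Classical in
/-- Counting complete multipartite blow-ups. -/
theorem blowup {ι W : Type} [Fintype ι] [DecidableEq ι] [Fintype W] [DecidableEq W] [Nonempty W]
    {K : ℕ} (col : ι → Fin K) (base : Fin K → ι) (hb : ∀ i, col (base i) = i)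
    (B : Finset (Fin K → W)) :
    ((B.card : ℝ) / (Fintype.card W : ℝ) ^ K) ^ (2 ^ Fintype.card ι) *
        (Fintype.card W : ℝ) ^ Fintype.card ι ≤
      #{ω : ι → W | ∀ τ : Fin K → ι, (∀ i, col (τ i) = i) → (fun i => ω (τ i)) ∈ B} := by
  refine (ind_UF3 col base hb B univ).trans (Nat.cast_le.2 (card_le_card fun ω hω => ?_))
  exact mem_filter.2 ⟨mem_univ _, fun τ h => (mem_filter.1 hω).2 τ h fun _ => Or.inl (mem_univ _)⟩

end Pool.Agent.SemiRandom.Und
end

-- part Pool.Agent.P.MP_c53d0e_pr.UF4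
section

set_option autoImplicit false
set_option linter.unusedSectionVars false

namespace Pool.Agent.SemiRandom.Und

open Finset

theorem fresh_UF4 {K : ℕ} (hK : 4 ≤ K) (a b c : Fin K) : ∃ i, i ≠ a ∧ i ≠ b ∧ i ≠ c := by
  have h : ({a, b, c} : Finset (Fin K)).card < (univ : Finset (Fin K)).card := by
    rw [card_univ, Fintype.card_fin]
    exact lt_of_le_of_lt card_le_three (by omega)
  obtain ⟨i, -, hi⟩ := exists_mem_notMem_of_card_lt_card h
  exact ⟨i, by simpa only [mem_insert, mem_singleton, not_or] using hi⟩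

/-- two vertices are copies of a common third one -/
def Eq_UF4 {K : ℕ} {V : Type} (col : V → Fin K) (eP : ℕ → V → V → Prop) (x y : V) : Prop :=
  ∃ u, col u ≠ col x ∧ col u ≠ col y ∧ eP 0 x u ∧ eP 0 y u

theorem Eq_UF4.symm {K : ℕ} {V : Type} {col : V → Fin K} {eP : ℕ → V → V → Prop} {x y : V}
    (h : Eq_UF4 col eP x y) : Eq_UF4 col eP y x := by
  obtain ⟨u, h1, h2, h3, h4⟩ := h
  exact ⟨u, h2, h1, h4, h3⟩

section
variable {K : ℕ} {p : Prs} (hK : 4 ≤ K) (h0 : 0 < p.1) {V : Type}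
  {col : V → Fin K} {eA : V → Prop} {eP : ℕ → V → V → Prop} (H : Horn K p col Set.univ eA eP)
  (hex : ∀ g < p.1, ∀ t i, i ≠ col t → ∃ u, col u = i ∧ eP g u t)

include H in
theorem sy_UF4 {u t : V} (h : col u ≠ col t) (e : eP 0 u t) : eP 0 t u :=
  H.symm u trivial t trivial h e

include h0 H in
theorem tr_UF4 {u t v : V} (h1 : col u ≠ col t) (h2 : col u ≠ col v) (h3 : col t ≠ col v)
    (e : eP 0 u t) (e' : eP 0 v t) : eP 0 u v :=
  H.fn 0 h0 u trivial t trivial v trivial h1 h2 h3 e e'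

include hK hex in
theorem new_UF4 {g : ℕ} (hg : g < p.1) (t a b : V) :
    ∃ u, col u ≠ col t ∧ col u ≠ col a ∧ col u ≠ col b ∧ eP g u t := by
  obtain ⟨i, h1, h2, h3⟩ := fresh_UF4 hK (col t) (col a) (col b)
  obtain ⟨u, rfl, hu⟩ := hex g hg t i h1
  exact ⟨u, h1, h2, h3, hu⟩

include hK h0 H hex in
theorem of_P_UF4 {x y : V} (h : col x ≠ col y) (e : eP 0 x y) : Eq_UF4 col eP x y := by
  obtain ⟨u, h1, h2, -, hu⟩ := new_UF4 hK hex h0 y x x
  exact ⟨u, h2, h1, tr_UF4 h0 H h h2.symm h1.symm e hu, sy_UF4 H h1 hu⟩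

include hK h0 H hex in
theorem rfl_UF4 (x : V) : Eq_UF4 col eP x x := by
  obtain ⟨u, h1, -, -, hu⟩ := new_UF4 hK hex h0 x x x
  exact ⟨u, h1, h1, sy_UF4 H h1 hu, sy_UF4 H h1 hu⟩

include hK h0 H hex in
theorem mv_UF4 {x y w : V} (h : Eq_UF4 col eP x y) (hx : col w ≠ col x) (hy : col w ≠ col y)
    (e : eP 0 x w) : eP 0 y w := by
  obtain ⟨u, h1, h2, h3, h4⟩ := h
  by_cases hw : col w = col u
  · obtain ⟨z, z1, z2, z3, hz⟩ := new_UF4 hK hex h0 x y u
    have z4 : col z ≠ col w := hw ▸ z3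
    have a1 : eP 0 z u := tr_UF4 h0 H z1 z3 h1.symm hz (sy_UF4 H h1.symm h3)
    have a2 : eP 0 y z := tr_UF4 h0 H h2.symm z2.symm z3.symm h4 a1
    have a3 : eP 0 w z := tr_UF4 h0 H hx z4.symm z1.symm (sy_UF4 H hx.symm e) hz
    exact tr_UF4 h0 H z2.symm hy.symm z4 a2 a3
  · have a1 : eP 0 w u := tr_UF4 h0 H hx hw h1.symm (sy_UF4 H hx.symm e) (sy_UF4 H h1.symm h3)
    exact tr_UF4 h0 H h2.symm hy.symm (Ne.symm hw) h4 a1

include hK h0 H hex in
theorem trans_UF4 {x y z : V} (h : Eq_UF4 col eP x y) (h' : Eq_UF4 col eP y z) :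
    Eq_UF4 col eP x z := by
  obtain ⟨w, w1, w2, w3, hw⟩ := new_UF4 hK hex h0 y x z
  have a := sy_UF4 H w1 hw
  exact ⟨w, w2, w3, mv_UF4 hK h0 H hex h.symm w1 w2 a, mv_UF4 hK h0 H hex h' w1 w3 a⟩

include hK h0 H hex in
theorem mvL_UF4 {g : ℕ} (hg : g < p.1) {u t u' : V} (e : eP g u' t) (h' : col u' ≠ col t)
    (hu : Eq_UF4 col eP u' u) (h : col u ≠ col t) : eP g u t := by
  obtain ⟨s, s1, s2, s3, hs⟩ := new_UF4 hK hex h0 u' t u
  have a1 : eP g s t := H.t1 g hg u' trivial t trivial s trivial h' s1.symm s2.symm e hs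
  have a2 : eP 0 u s := mv_UF4 hK h0 H hex hu s1 s3 (sy_UF4 H s1 hs)
  exact H.t1 g hg s trivial t trivial u trivial s2 s3 h.symm a1 a2

include hK h0 H hex in
theorem mvR_UF4 {g : ℕ} (hg : g < p.1) {u t t' : V} (e : eP g u t') (h' : col u ≠ col t')
    (ht : Eq_UF4 col eP t' t) (h : col u ≠ col t) : eP g u t := by
  obtain ⟨v, v1, v2, v3, hv⟩ := new_UF4 hK hex h0 t' u t
  have a1 : eP g u v := H.t2 g hg u trivial t' trivial v trivial h' v2.symm v1.symm e hv
  have a2 : eP 0 t v := mv_UF4 hK h0 H hex ht v1 v3 (sy_UF4 H v1 hv)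
  exact H.t2 g hg u trivial v trivial t trivial v2.symm h v3 a1 a2

include hK h0 H hex in
theorem fun0_UF4 {g : ℕ} (hg : g < p.1) {u t v : V} (h1 : col u ≠ col t) (h2 : col v ≠ col t)
    (h3 : col u ≠ col v) (e : eP g u t) (e' : eP g v t) : Eq_UF4 col eP u v :=
  of_P_UF4 hK h0 H hex h3 (H.fn g hg u trivial t trivial v trivial h1 h3 h2.symm e e')

include hK h0 H hex in
theorem fun_UF4 {g : ℕ} (hg : g < p.1) {u t v : V} (h1 : col u ≠ col t) (h2 : col v ≠ col t)
    (e : eP g u t) (e' : eP g v t) : Eq_UF4 col eP u v := by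
  obtain ⟨w, w1, w2, w3, hw⟩ := new_UF4 hK hex hg t u v
  exact trans_UF4 hK h0 H hex (fun0_UF4 hK h0 H hex hg h1 w1 w2.symm e hw)
    (fun0_UF4 hK h0 H hex hg w1 h2 w3 hw e')

include h0 H in
theorem inv_UF4 {x y : V} (h : Eq_UF4 col eP x y) (e : eA y) : eA x := by
  obtain ⟨u, h1, h2, h3, h4⟩ := h
  exact H.invP 0 h0 x trivial u trivial h1.symm h3
    (H.invP 0 h0 u trivial y trivial h2 (sy_UF4 H h2.symm h4) e)

end

/-- The quotient construction. -/
theorem horn_quot {K : ℕ} {p : Prs} (hK : 4 ≤ K) (hW : p.WF) (hN : p.N) {V : Type}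
    {col : V → Fin K} {eA : V → Prop} {eP : ℕ → V → V → Prop} (H : Horn K p col Set.univ eA eP)
    (hex : ∀ g < p.1, ∀ t i, i ≠ col t → ∃ u, col u = i ∧ eP g u t) : ∀ t, eA t := by
  have h1 : 1 < p.1 := hW.1
  have h0 : 0 < p.1 := by omega
  let S : Setoid V := ⟨Eq_UF4 col eP, rfl_UF4 hK h0 H hex, Eq_UF4.symm, trans_UF4 hK h0 H hex⟩
  have hf : ∀ g t, ∃ u, (g < p.1 → col u ≠ col t ∧ eP g u t) ∧ (¬g < p.1 → u = t) := by
    intro g t
    by_cases hg : g < p.1
    · obtain ⟨u, u1, -, -, hu⟩ := new_UF4 hK hex hg t t t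
      exact ⟨u, fun _ => ⟨u1, hu⟩, fun h => absurd hg h⟩
    · exact ⟨t, fun h => absurd h hg, fun _ => rfl⟩
  choose f hf hf' using hf
  have hc : ∀ g t t', Eq_UF4 col eP t t' → Eq_UF4 col eP (f g t) (f g t') := by
    intro g t t' h
    by_cases hg : g < p.1
    · obtain ⟨w, w1, w2, -, hw⟩ := new_UF4 hK hex hg t t' t
      have a := mvR_UF4 hK h0 H hex hg hw w1 h w2
      exact trans_UF4 hK h0 H hex (fun_UF4 hK h0 H hex hg (hf g t hg).1 w1 (hf g t hg).2 hw)
        (fun_UF4 hK h0 H hex hg w2 (hf g t' hg).1 a (hf g t' hg).2)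
    · rw [hf' g t hg, hf' g t' hg]; exact h
  let ρ : ℕ → Quotient S → Quotient S := fun g => Quotient.map (f g) (hc g)
  have k1 : ∀ g < p.1, ∀ u t, col u ≠ col t → eP g u t →
      ρ g (Quotient.mk S t) = Quotient.mk S u := fun g hg u t h e =>
    Quotient.sound (fun_UF4 hK h0 H hex hg (hf g t hg).1 h (hf g t hg).2 e)
  have k2 : ∀ g < p.1, ∀ u t, col u ≠ col t → ρ g (Quotient.mk S t) = Quotient.mk S u →
      eP g u t := fun g hg u t h e =>
    mvL_UF4 hK h0 H hex hg (hf g t hg).2 (hf g t hg).1 (Quotient.exact e) h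
  have key := hN (Quotient S) ρ (fun m => ∃ x, Quotient.mk S x = m ∧ eA x) ?_ ?_ ?_ ?_ ?_
  · intro t
    obtain ⟨x, hx, e⟩ := key (Quotient.mk S t)
    exact inv_UF4 h0 H (Eq_UF4.symm (Quotient.exact hx)) e
  · intro m
    induction m using Quotient.inductionOn with
    | _ t => exact Quotient.sound (of_P_UF4 hK h0 H hex (hf 0 t h0).1 (hf 0 t h0).2)
  · intro m
    induction m using Quotient.inductionOn with
    | _ t => exact ⟨f 1 t, rfl, H.zero _ trivial t trivial (hf 1 t h1).1 (hf 1 t h1).2⟩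
  · rintro _ _ ⟨a, rfl, ha⟩ ⟨b, rfl, hb⟩
    obtain ⟨w, w1, w2, -, hw⟩ := new_UF4 hK hex h0 a b b
    have e := H.defP 0 h0 w trivial b trivial w2 (H.invP 0 h0 w trivial a trivial w1 hw ha) hb
    exact Quotient.sound (trans_UF4 hK h0 H hex (of_P_UF4 hK h0 H hex w1 hw).symm
      (of_P_UF4 hK h0 H hex w2 e))
  · intro a b c d hx m
    obtain ⟨ha, hb, hc', hd⟩ := hW.2 _ (Or.inl hx)
    induction m using Quotient.inductionOn with
    | _ t =>
      obtain ⟨u, u1, -, -, hu⟩ := new_UF4 hK hex hb t t t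
      obtain ⟨s, s1, s2, -, hs⟩ := new_UF4 hK hex ha u t t
      obtain ⟨v, v1, v2, v3, hv⟩ := new_UF4 hK hex hd t u s
      have e := H.rel a b c d hx u trivial t trivial s trivial v trivial u1 s1.symm
        v2.symm s2.symm v1.symm v3.symm hu hs hv
      rw [k1 b hb u t u1 hu, k1 a ha s u s1 hs, k1 d hd v t v1 hv, k1 c hc' s v v3.symm e]
  · intro a b c d hx m
    obtain ⟨ha, hb, hc', hd⟩ := hW.2 _ (Or.inr hx)
    induction m using Quotient.inductionOn with
    | _ t =>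
      intro e1 e2
      obtain ⟨u, u1, -, -, hu⟩ := new_UF4 hK hex ha t t t
      obtain ⟨v, v1, v2, -, hv⟩ := new_UF4 hK hex hc' t u u
      exact ⟨t, rfl, H.sep a b c d hx u trivial t trivial v trivial u1 v2.symm v1.symm hu
        (k2 b hb u t u1 (e1.symm.trans (k1 a ha u t u1 hu))) hv
        (k2 d hd v t v1 (e2.symm.trans (k1 c hc' v t v1 hv)))⟩

end Pool.Agent.SemiRandom.Und
end

-- part Pool.Agent.P.MP_c53d0e_pr.UF5
section

set_option autoImplicit false
set_option linter.unusedSectionVars false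

namespace Pool.Agent.SemiRandom.Und

open Finset

lemma horn_anti_UF5 {K : ℕ} {p : Prs} {V : Type} {col : V → Fin K} {F G : Set V} (hFG : F ⊆ G)
    {eA : V → Prop} {eP : ℕ → V → V → Prop} (H : Horn K p col G eA eP) : Horn K p col F eA eP where
  defP g hg u hu t ht := H.defP g hg u (hFG hu) t (hFG ht)
  invP g hg u hu t ht := H.invP g hg u (hFG hu) t (hFG ht)
  zero u hu t ht := H.zero u (hFG hu) t (hFG ht)
  symm u hu t ht := H.symm u (hFG hu) t (hFG ht)
  t1 g hg u hu t ht v hv := H.t1 g hg u (hFG hu) t (hFG ht) v (hFG hv)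
  t2 g hg u hu t ht v hv := H.t2 g hg u (hFG hu) t (hFG ht) v (hFG hv)
  fn g hg u hu t ht v hv := H.fn g hg u (hFG hu) t (hFG ht) v (hFG hv)
  rel a b c d h u hu t ht s hs v hv :=
    H.rel a b c d h u (hFG hu) t (hFG ht) s (hFG hs) v (hFG hv)
  sep a b c d h u hu t ht v hv := H.sep a b c d h u (hFG hu) t (hFG ht) v (hFG hv)

/-- The statement `φ` is derivable from finitely many vertices. -/
def Der_UF5 (K : ℕ) (p : Prs) (φ : (Vt K → Prop) → (ℕ → Vt K → Vt K → Prop) → Prop) : Prop :=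
  ∃ F : Finset (Vt K), ∀ eA eP, Horn K p Vt.col F eA eP →
    (∀ g i t, Vt.app g i t ∈ F → g < p.1 → i ≠ t.col → eP g (Vt.app g i t) t) → φ eA eP

lemma and_UF5 {K : ℕ} {p : Prs} {φ ψ : (Vt K → Prop) → (ℕ → Vt K → Vt K → Prop) → Prop}
    (h1 : Der_UF5 K p φ) (h2 : Der_UF5 K p ψ) : Der_UF5 K p fun eA eP => φ eA eP ∧ ψ eA eP := by
  obtain ⟨F, hF⟩ := h1
  obtain ⟨G, hG⟩ := h2
  refine ⟨F ∪ G, fun eA eP H D => ⟨hF eA eP (horn_anti_UF5 ?_ H) fun g i t h => D g i t ?_,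
    hG eA eP (horn_anti_UF5 ?_ H) fun g i t h => D g i t ?_⟩⟩
  · exact coe_subset.2 subset_union_left
  · exact mem_union_left _ h
  · exact coe_subset.2 subset_union_right
  · exact mem_union_right _ h

/-- One application of a Horn rule on the vertices of `G`. -/
lemma rule_UF5 {K : ℕ} {p : Prs} {φ ψ : (Vt K → Prop) → (ℕ → Vt K → Vt K → Prop) → Prop}
    (G : Finset (Vt K)) (h1 : Der_UF5 K p φ)
    (h : ∀ eA eP, Horn K p Vt.col G eA eP → φ eA eP → ψ eA eP) : Der_UF5 K p ψ := by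
  obtain ⟨F, hF⟩ := h1
  refine ⟨F ∪ G, fun eA eP H D => h eA eP (horn_anti_UF5 ?_ H)
    (hF eA eP (horn_anti_UF5 ?_ H) fun g i t h => D g i t ?_)⟩
  · exact coe_subset.2 subset_union_right
  · exact coe_subset.2 subset_union_left
  · exact mem_union_left _ h

lemma horn_der_UF5 (K : ℕ) (p : Prs) : Horn K p Vt.col Set.univ
    (fun v => Der_UF5 K p fun eA _ => eA v) (fun g u t => Der_UF5 K p fun _ eP => eP g u t) where
  defP g hg u _ t _ hc h1 h2 := rule_UF5 {u, t} (and_UF5 h1 h2) fun _ _ H a =>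
    H.defP g hg u (by simp) t (by simp) hc a.1 a.2
  invP g hg u _ t _ hc h1 h2 := rule_UF5 {u, t} (and_UF5 h1 h2) fun _ _ H a =>
    H.invP g hg u (by simp) t (by simp) hc a.1 a.2
  zero u _ t _ hc h1 := rule_UF5 {u, t} h1 fun _ _ H a => H.zero u (by simp) t (by simp) hc a
  symm u _ t _ hc h1 := rule_UF5 {u, t} h1 fun _ _ H a => H.symm u (by simp) t (by simp) hc a
  t1 g hg u _ t _ v _ c1 c2 c3 h1 h2 := rule_UF5 {u, t, v} (and_UF5 h1 h2) fun _ _ H a =>
    H.t1 g hg u (by simp) t (by simp) v (by simp) c1 c2 c3 a.1 a.2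
  t2 g hg u _ t _ v _ c1 c2 c3 h1 h2 := rule_UF5 {u, t, v} (and_UF5 h1 h2) fun _ _ H a =>
    H.t2 g hg u (by simp) t (by simp) v (by simp) c1 c2 c3 a.1 a.2
  fn g hg u _ t _ v _ c1 c2 c3 h1 h2 := rule_UF5 {u, t, v} (and_UF5 h1 h2) fun _ _ H a =>
    H.fn g hg u (by simp) t (by simp) v (by simp) c1 c2 c3 a.1 a.2
  rel a b c d h u _ t _ s _ v _ c1 c2 c3 c4 c5 c6 h1 h2 h3 :=
    rule_UF5 {u, t, s, v} (and_UF5 h1 (and_UF5 h2 h3)) fun _ _ H x =>
      H.rel a b c d h u (by simp) t (by simp) s (by simp) v (by simp) c1 c2 c3 c4 c5 c6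
        x.1 x.2.1 x.2.2
  sep a b c d h u _ t _ v _ c1 c2 c3 h1 h2 h3 h4 :=
    rule_UF5 {u, t, v} (and_UF5 (and_UF5 h1 h2) (and_UF5 h3 h4)) fun _ _ H x =>
      H.sep a b c d h u (by simp) t (by simp) v (by simp) c1 c2 c3 x.1.1 x.1.2 x.2.1 x.2.2

/-- Subterms. -/
def sub_UF5 {K : ℕ} : Vt K → Finset (Vt K)
  | .free i => {Vt.free i}
  | .app g i t => insert (Vt.app g i t) (sub_UF5 t)

lemma self_mem_sub_UF5 {K : ℕ} (v : Vt K) : v ∈ sub_UF5 v := by
  cases v <;> simp [sub_UF5]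

lemma sub_closed_UF5 {K : ℕ} {g : ℕ} {i : Fin K} {t : Vt K} (v : Vt K)
    (h : Vt.app g i t ∈ sub_UF5 v) : t ∈ sub_UF5 v := by
  induction v with
  | free j => simp [sub_UF5] at h
  | app g' j u ih =>
    rw [sub_UF5, mem_insert] at h ⊢
    rcases h with h | h
    · obtain ⟨-, -, rfl⟩ := Vt.app.inj h
      exact Or.inr (self_mem_sub_UF5 _)
    · exact Or.inr (ih h)

theorem exists_cert {K : ℕ} {p : Prs} (hK : 4 ≤ K) (hW : p.WF) (hN : p.N) (i0 : Fin K) :
    ∃ F, Cert K p i0 F := by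
  obtain ⟨F, hF⟩ := horn_quot hK hW hN (horn_der_UF5 K p) (fun g hg t i hi =>
    ⟨Vt.app g i t, rfl, {Vt.app g i t}, fun _ _ _ D => D g i t (mem_singleton_self _) hg hi⟩)
    (Vt.free i0)
  have hsub : F ⊆ F.biUnion sub_UF5 ∪ univ.image Vt.free := fun v hv =>
    mem_union_left _ (mem_biUnion.2 ⟨v, hv, self_mem_sub_UF5 v⟩)
  refine ⟨F.biUnion sub_UF5 ∪ univ.image Vt.free, fun i => ?_, fun g i t h => ?_,
    fun eA eP H D => hF eA eP (horn_anti_UF5 (coe_subset.2 hsub) H) fun g i t h => D g i t (hsub h)⟩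
  · exact mem_union_right _ (mem_image_of_mem _ (mem_univ i))
  · rcases mem_union.1 h with h | h
    · obtain ⟨v, hv, h⟩ := mem_biUnion.1 h
      exact mem_union_left _ (mem_biUnion.2 ⟨v, hv, sub_closed_UF5 v h⟩)
    · simp at h

end Pool.Agent.SemiRandom.Und
end

-- part Pool.Agent.P.MP_c53d0e_pr.UF6
section

set_option autoImplicit false
set_option linter.unusedSectionVars false

namespace Pool.Agent.SemiRandom.Und

open Finset

variable {K : ℕ} {p : Prs}

lemma exists_fP_UF6 (hK : 4 ≤ K) {W : Type} [Nonempty W]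
    {S : Finset (Fin (npts K p + 1) → W)} (hS : (p.inst K).Exact S) :
    ∃ fP : ℕ → Fin K → Fin K → W → W → W, ∀ g < p.1, ∀ i j : Fin K, i ≠ j → ∀ x ∈ S,
      fP g i j (ev x i) (ev x j) = ev x (ptP K g i j) := by
  classical
  refine ⟨fun g i j a b => if h : ∃ x ∈ S, ev x i = a ∧ ev x j = b then
    ev h.choose (ptP K g i j) else Classical.arbitrary W, fun g hg i j hij x hx => ?_⟩
  have h : ∃ y ∈ S, ev y i = ev x i ∧ ev y j = ev x j := ⟨x, hx, rfl, rfl⟩
  simp only [dif_pos h]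
  obtain ⟨a, b, hc⟩ := exists_col2 hK i.2 j.2 (fun e => hij (Fin.ext e))
  obtain ⟨h1, h2, h3⟩ := h.choose_spec
  exact (exact_iff S).1 hS ((i : ℕ), (j : ℕ), ptP K g i j)
    (mem_lines.2 ⟨_, hc, Or.inr (Or.inl ⟨g, lt_G hg, by simp [genL]⟩)⟩) _ h1 x hx h2 h3

lemma exists_tau_UF6 {V : Type} (col : V → Fin K) (F : Set V) (hF : ∀ i, ∃ v ∈ F, col v = i)
    (L : Set V) (hL : ∀ u ∈ L, u ∈ F) (hi : ∀ u ∈ L, ∀ v ∈ L, col u = col v → u = v) :
    ∃ τ : Fin K → V, (∀ i, τ i ∈ F ∧ col (τ i) = i) ∧ ∀ u ∈ L, τ (col u) = u := by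
  have h : ∀ i, ∃ v, (v ∈ F ∧ col v = i) ∧ ∀ u ∈ L, col u = i → v = u := fun i => by
    by_cases h : ∃ u ∈ L, col u = i
    · obtain ⟨u, hu, e⟩ := h
      exact ⟨u, ⟨hL u hu, e⟩, fun w hw e' => hi u hu w hw (e.trans e'.symm)⟩
    · obtain ⟨v, hv, e⟩ := hF i
      exact ⟨v, ⟨hv, e⟩, fun w hw e' => absurd ⟨w, hw, e'⟩ h⟩
  choose τ h1 h2 using h
  exact ⟨τ, h1, fun u hu => h2 _ u hu rfl⟩

/-- Two colourful configurations give a model of the Horn rules. -/
theorem horn_pair (hK : 4 ≤ K) (hW : p.WF) {W : Type} [Nonempty W]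
    {S : Finset (Fin (npts K p + 1) → W)} (hS : (p.inst K).Exact S) :
    ∃ fP : ℕ → Fin K → Fin K → W → W → W, ∀ {V : Type} (col : V → Fin K) (F : Set V),
      (∀ i, ∃ v ∈ F, col v = i) → ∀ ω ω' : V → W,
      (∀ τ : Fin K → V, (∀ i, τ i ∈ F ∧ col (τ i) = i) → ∃ x ∈ S, ∀ i : Fin K, ev x i = ω (τ i)) →
      (∀ τ : Fin K → V, (∀ i, τ i ∈ F ∧ col (τ i) = i) → ∃ x ∈ S, ∀ i : Fin K, ev x i = ω' (τ i)) →
      Horn K p col F (fun v => ω v = ω' v)
        (fun g u t => fP g (col u) (col t) (ω u) (ω t) = fP g (col u) (col t) (ω' u) (ω' t)) := by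
  obtain ⟨fP, hf⟩ := exists_fP_UF6 hK hS
  refine ⟨fP, fun {V} col F hF ω ω' h h' => ?_⟩
  have E := (exact_iff S).1 hS
  have g0 : 0 < p.1 := lt_of_lt_of_le (by norm_num) hW.1
  have g1 : 1 < p.1 := hW.1
  have ne : ∀ {i j : Fin K}, i ≠ j → (i : ℕ) ≠ j := fun hij e => hij (Fin.ext e)
  have key : ∀ L : Set V, (∀ u ∈ L, u ∈ F) → (∀ u ∈ L, ∀ v ∈ L, col u = col v → u = v) →
      ∃ x ∈ S, ∃ x' ∈ S, (∀ u ∈ L, ω u = ω' u ↔ ev x (col u) = ev x' (col u)) ∧
        ∀ g < p.1, ∀ u ∈ L, ∀ t ∈ L, col u ≠ col t →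
          (fP g (col u) (col t) (ω u) (ω t) = fP g (col u) (col t) (ω' u) (ω' t) ↔
            ev x (ptP K g (col u) (col t)) = ev x' (ptP K g (col u) (col t))) := by
    intro L hL hi
    obtain ⟨τ, hτ, e⟩ := exists_tau_UF6 col F hF L hL hi
    obtain ⟨x, hx, ex⟩ := h τ hτ
    obtain ⟨x', hx', ex'⟩ := h' τ hτ
    have a : ∀ u ∈ L, ω u = ev x (col u) := fun u hu => by rw [ex, e u hu]
    have a' : ∀ u ∈ L, ω' u = ev x' (col u) := fun u hu => by rw [ex', e u hu]
    refine ⟨x, hx, x', hx', fun u hu => by rw [a u hu, a' u hu], fun g hg u hu t ht hut => ?_⟩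
    rw [a u hu, a t ht, a' u hu, a' t ht, hf g hg _ _ hut x hx, hf g hg _ _ hut x' hx']
  have key2 : ∀ u ∈ F, ∀ t ∈ F, col u ≠ col t →
      (∀ w ∈ ({u, t} : Set V), w ∈ F) ∧
        ∀ w ∈ ({u, t} : Set V), ∀ z ∈ ({u, t} : Set V), col w = col z → w = z := by
    intro u hu t ht hut
    refine ⟨?_, ?_⟩
    · rintro w (rfl | rfl) <;> assumption
    · rintro w (rfl | rfl) z (rfl | rfl) e <;>
        first | rfl | exact absurd e ‹_› | exact absurd e.symm ‹_›
  have key3 : ∀ u ∈ F, ∀ t ∈ F, ∀ v ∈ F, col u ≠ col t → col u ≠ col v → col t ≠ col v →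
      (∀ w ∈ ({u, t, v} : Set V), w ∈ F) ∧
        ∀ w ∈ ({u, t, v} : Set V), ∀ z ∈ ({u, t, v} : Set V), col w = col z → w = z := by
    intro u hu t ht v hv hut huv htv
    refine ⟨?_, ?_⟩
    · rintro w (rfl | rfl | rfl) <;> assumption
    · rintro w (rfl | rfl | rfl) z (rfl | rfl | rfl) e <;>
        first | rfl | exact absurd e ‹_› | exact absurd e.symm ‹_›
  refine ⟨?_, ?_, ?_, ?_, ?_, ?_, ?_, ?_, ?_⟩
  · intro g _ u _ t _ _ hu ht
    simp only [hu, ht]
  · intro g hg u hu t ht hut e1 e2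
    obtain ⟨x, hx, x', hx', A, P⟩ := key _ (key2 u hu t ht hut).1 (key2 u hu t ht hut).2
    obtain ⟨a, b, hc⟩ := exists_col2 hK (col u).2 (col t).2 (ne hut)
    have e1' := (P g hg u (by simp) t (by simp) hut).1 e1
    have e2' := (A t (by simp)).1 e2
    exact (A u (by simp)).2 (E (ptP K g (col u) (col t), (col t : ℕ), (col u : ℕ))
      (mem_lines.2 ⟨_, hc, Or.inr (Or.inl ⟨g, lt_G hg, by simp [genL]⟩)⟩) x hx x' hx' e1' e2')
  · intro u hu t ht hut e1
    obtain ⟨x, hx, x', hx', A, P⟩ := key _ (key2 u hu t ht hut).1 (key2 u hu t ht hut).2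
    obtain ⟨a, b, hc⟩ := exists_col2 hK (col u).2 (col t).2 (ne hut)
    have e1' := (P 1 g1 u (by simp) t (by simp) hut).1 e1
    exact (A u (by simp)).2 (E (ptP K 1 (col u) (col t), ptP K 1 (col u) (col t), (col u : ℕ))
      (mem_lines.2 ⟨_, hc, Or.inl (by simp [globL])⟩) x hx x' hx' e1' e1')
  · intro u hu t ht hut e1
    obtain ⟨x, hx, x', hx', A, P⟩ := key _ (key2 u hu t ht hut).1 (key2 u hu t ht hut).2
    obtain ⟨a, b, hc⟩ := exists_col2 hK (col u).2 (col t).2 (ne hut)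
    have e1' := (P 0 g0 u (by simp) t (by simp) hut).1 e1
    exact (P 0 g0 t (by simp) u (by simp) hut.symm).2 (E (ptP K 0 (col u) (col t),
      ptP K 0 (col u) (col t), ptP K 0 (col t) (col u))
      (mem_lines.2 ⟨_, hc, Or.inl (by simp [globL])⟩) x hx x' hx' e1' e1')
  · intro g hg u hu t ht v hv hut huv htv e1 e2
    obtain ⟨x, hx, x', hx', A, P⟩ := key _ (key3 u hu t ht v hv hut huv htv).1
      (key3 u hu t ht v hv hut huv htv).2
    obtain ⟨a, hc⟩ := exists_col3 hK (col u).2 (col t).2 (col v).2 (ne hut) (ne huv) (ne htv)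
    have e1' := (P g hg u (by simp) t (by simp) hut).1 e1
    have e2' := (P 0 g0 v (by simp) u (by simp) huv.symm).1 e2
    exact (P g hg v (by simp) t (by simp) htv.symm).2 (E (ptP K g (col u) (col t),
      ptP K 0 (col v) (col u), ptP K g (col v) (col t))
      (mem_lines.2 ⟨_, hc, Or.inr (Or.inl ⟨g, lt_G hg, by simp [genL]⟩)⟩) x hx x' hx' e1' e2')
  · intro g hg u hu t ht v hv hut huv htv e1 e2
    obtain ⟨x, hx, x', hx', A, P⟩ := key _ (key3 u hu t ht v hv hut huv htv).1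
      (key3 u hu t ht v hv hut huv htv).2
    obtain ⟨a, hc⟩ := exists_col3 hK (col u).2 (col t).2 (col v).2 (ne hut) (ne huv) (ne htv)
    have e1' := (P g hg u (by simp) t (by simp) hut).1 e1
    have e2' := (P 0 g0 v (by simp) t (by simp) htv.symm).1 e2
    exact (P g hg u (by simp) v (by simp) huv).2 (E (ptP K g (col u) (col t),
      ptP K 0 (col v) (col t), ptP K g (col u) (col v))
      (mem_lines.2 ⟨_, hc, Or.inr (Or.inl ⟨g, lt_G hg, by simp [genL]⟩)⟩) x hx x' hx' e1' e2')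
  · intro g hg u hu t ht v hv hut huv htv e1 e2
    obtain ⟨x, hx, x', hx', A, P⟩ := key _ (key3 u hu t ht v hv hut huv htv).1
      (key3 u hu t ht v hv hut huv htv).2
    obtain ⟨a, hc⟩ := exists_col3 hK (col u).2 (col t).2 (col v).2 (ne hut) (ne huv) (ne htv)
    have e1' := (P g hg u (by simp) t (by simp) hut).1 e1
    have e2' := (P g hg v (by simp) t (by simp) htv.symm).1 e2
    exact (P 0 g0 u (by simp) v (by simp) huv).2 (E (ptP K g (col u) (col t),
      ptP K g (col v) (col t), ptP K 0 (col u) (col v))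
      (mem_lines.2 ⟨_, hc, Or.inr (Or.inl ⟨g, lt_G hg, by simp [genL]⟩)⟩) x hx x' hx' e1' e2')
  · intro a b c d hr u hu t ht s hs v hv hut hus huv hts htv hsv e1 e2 e3
    obtain ⟨x, hx, x', hx', A, P⟩ := key {u, t, s, v}
      (by rintro w (rfl | rfl | rfl | rfl) <;> assumption)
      (by
        rintro w (rfl | rfl | rfl | rfl) z (rfl | rfl | rfl | rfl) e <;>
          first | rfl | exact absurd e ‹_› | exact absurd e.symm ‹_›)
    have hc : Col K ((col u : ℕ), (col t : ℕ), (col s : ℕ), (col v : ℕ)) :=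
      ⟨(col u).2, (col t).2, (col s).2, (col v).2, ne hut, ne hus, ne huv, ne hts, ne htv, ne hsv⟩
    obtain ⟨ha, hb', hc', hd⟩ := hW.2 _ (Or.inl hr)
    have hl : ∀ ln ∈ relL K p.1 ((col u : ℕ), (col t : ℕ), (col s : ℕ), (col v : ℕ)) (a, b, c, d),
        ln ∈ lines K p := fun ln h => mem_lines.2 ⟨_, hc, Or.inr (Or.inr (Or.inl ⟨_, hr, h⟩))⟩
    have e1' := (P b hb' u (by simp) t (by simp) hut).1 e1
    have e2' := (P a ha s (by simp) u (by simp) hus.symm).1 e2
    have e3' := (P d hd v (by simp) t (by simp) htv.symm).1 e3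
    have e4 := E _ (hl _ List.mem_cons_self) x hx x' hx' e1' e2'
    exact (P c hc' s (by simp) v (by simp) hsv).2
      (E _ (hl _ (List.mem_cons_of_mem _ List.mem_cons_self)) x hx x' hx' e4 e3')
  · intro a b c d hr u hu t ht v hv hut huv htv e1 e2 e3 e4
    obtain ⟨x, hx, x', hx', A, P⟩ := key _ (key3 u hu t ht v hv hut huv htv).1
      (key3 u hu t ht v hv hut huv htv).2
    obtain ⟨z, hc⟩ := exists_col3 hK (col u).2 (col t).2 (col v).2 (ne hut) (ne huv) (ne htv)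
    obtain ⟨ha, hb, hc', hd⟩ := hW.2 _ (Or.inr hr)
    have e1' := (P a ha u (by simp) t (by simp) hut).1 e1
    have e2' := (P b hb u (by simp) t (by simp) hut).1 e2
    have e3' := (P c hc' v (by simp) t (by simp) htv.symm).1 e3
    have e4' := (P d hd v (by simp) t (by simp) htv.symm).1 e4
    have hl : ∀ ln ∈ sepL K p.1 ((col u : ℕ), (col t : ℕ), z, (col v : ℕ)) (a, b, c, d),
        ln ∈ lines K p := fun ln h => mem_lines.2 ⟨_, hc, Or.inr (Or.inr (Or.inr ⟨_, hr, h⟩))⟩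
    have e5 := E _ (hl _ List.mem_cons_self) x hx x' hx' e1' e2'
    have e6 := E _ (hl _ (List.mem_cons_of_mem _ List.mem_cons_self)) x hx x' hx' e3' e4'
    exact (A t (by simp)).2 (E _ (hl _ (List.mem_cons_of_mem _
      (List.mem_cons_of_mem _ List.mem_cons_self))) x hx x' hx' e5 e6)

end Pool.Agent.SemiRandom.Und
end

-- part Pool.Agent.P.MP_c53d0e_pr.UF7
section

set_option autoImplicit false
set_option linter.unusedSectionVars false

namespace Pool.Agent.SemiRandom.Und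

open Finset

/-- The recoded configuration. -/
def psi_UF7 {K : ℕ} {W : Type} (n : ℕ) (fP : ℕ → Fin K → Fin K → W → W → W) (ω : Vt K → W) :
    Vt K → W
  | .free i => ω (.free i)
  | .app g i t =>
    if g < n ∧ i ≠ t.col then fP g i t.col (ω (.app g i t)) (ω t) else ω (.app g i t)

lemma agree_UF7 {K : ℕ} {p : Prs} {i0 : Fin K} {F : Finset (Vt K)} (hF : Cert K p i0 F)
    {W : Type} (fP : ℕ → Fin K → Fin K → W → W → W) (ω ω' : Vt K → W)
    (H : Horn K p Vt.col (F : Set (Vt K)) (fun v => ω v = ω' v)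
      (fun g u t => fP g u.col t.col (ω u) (ω t) = fP g u.col t.col (ω' u) (ω' t)))
    (h : ∀ v ∈ F, v ≠ Vt.free i0 → psi_UF7 p.1 fP ω v = psi_UF7 p.1 fP ω' v) :
    ∀ v ∈ F, ω v = ω' v := by
  have hP : ∀ g i t, Vt.app g i t ∈ F → g < p.1 → i ≠ t.col →
      fP g (Vt.app g i t).col t.col (ω (Vt.app g i t)) (ω t) =
        fP g (Vt.app g i t).col t.col (ω' (Vt.app g i t)) (ω' t) := by
    intro g i t hv hg hi
    have := h _ hv (by simp)
    simp only [psi_UF7, if_pos (And.intro hg hi)] at this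
    exact this
  have h0 : ω (Vt.free i0) = ω' (Vt.free i0) := hF.2.2 _ _ H hP
  intro v
  induction v with
  | free i =>
    intro hv
    by_cases hi : i = i0
    · rw [hi]; exact h0
    · exact h _ hv (by simpa using hi)
  | app g i t ih =>
    intro hv
    have ht := hF.2.1 g i t hv
    by_cases hg : g < p.1 ∧ i ≠ t.col
    · exact H.invP g hg.1 _ (by simpa using hv) t (by simpa using ht) hg.2
        (hP g i t hv hg.1 hg.2) (ih ht)
    · have := h _ hv (by simp)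
      simp only [psi_UF7, if_neg hg] at this
      exact this

lemma arith_UF7 {a w : ℝ} {K n : ℕ} (ha : 0 ≤ a) (hw : 1 ≤ w) (hn : 1 ≤ n)
    (h : (a / w ^ K) ^ (2 ^ n) * w ^ n ≤ w ^ (n - 1)) :
    a ≤ w ^ ((K : ℝ) - 1 / (2 : ℝ) ^ n) := by
  have hw0 : 0 < w := by linarith
  obtain ⟨m, rfl⟩ : ∃ m, n = m + 1 := ⟨n - 1, by omega⟩
  have hm : 0 < w ^ m := by positivity
  have h1 : (a / w ^ K) ^ (2 ^ (m + 1)) ≤ w⁻¹ := by
    rw [Nat.add_sub_cancel, pow_succ w m] at h
    rw [← one_div, le_div_iff₀ hw0]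
    have : (a / w ^ K) ^ (2 ^ (m + 1)) * w * w ^ m ≤ 1 * w ^ m := by linarith
    exact le_of_mul_le_mul_right this hm
  have h2 : (w ^ (-(1 / (2 : ℝ) ^ (m + 1)))) ^ (2 ^ (m + 1)) = w⁻¹ := by
    rw [← Real.rpow_natCast, ← Real.rpow_mul hw0.le, ← Real.rpow_neg_one]
    congr 1
    push_cast
    field_simp
  rw [← h2] at h1
  have h3 : a / w ^ K ≤ w ^ (-(1 / (2 : ℝ) ^ (m + 1))) :=
    le_of_pow_le_pow_left₀ (by positivity) (by positivity) h1
  rw [div_le_iff₀ (by positivity)] at h3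
  rw [sub_eq_add_neg, Real.rpow_add hw0, Real.rpow_natCast]
  linarith

theorem no_of_cert {K : ℕ} {p : Prs} (hK : 4 ≤ K) (hW : p.WF) {i0 : Fin K} {F : Finset (Vt K)}
    (hF : Cert K p i0 F) : (p.inst K).No := by
  classical
  have hF1 : 1 ≤ F.card := card_pos.2 ⟨_, hF.1 i0⟩
  refine ⟨1 / (2 : ℝ) ^ F.card, by positivity, ?_, ?_⟩
  · have : (2 : ℝ) ^ 1 ≤ 2 ^ F.card := pow_le_pow_right₀ (by norm_num) hF1
    rw [div_le_iff₀ (by positivity)]
    linarith
  intro w S hw hS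
  haveI : Nonempty (Fin w) := ⟨⟨0, hw⟩⟩
  obtain ⟨fP, hfP⟩ := horn_pair hK hW hS
  have hinj := basInj_of_exact hK hW hS
  set B : Finset (Fin K → Fin w) := S.image fun x i => ev x (i : ℕ) with hB
  have hcard : B.card = S.card := by
    refine card_image_of_injOn fun x hx x' hx' hxx => ?_
    exact hinj x hx x' hx' fun b => congrFun hxx b
  have hbl := blowup (ι := F) (W := Fin w) (fun v => v.1.col) (fun i => ⟨Vt.free i, hF.1 i⟩)
    (fun i => rfl) B
  let ext : (F → Fin w) → Vt K → Fin w := fun ω v => if h : v ∈ F then ω ⟨v, h⟩ else ⟨0, hw⟩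
  have hext : ∀ ω (v : F), ext ω v.1 = ω v := fun ω v => by simp only [ext, v.2, dif_pos]
  have hcol : ∀ ω : F → Fin w,
      (∀ τ : Fin K → F, (∀ i, (τ i).1.col = i) → (fun i => ω (τ i)) ∈ B) →
      ∀ τ : Fin K → Vt K, (∀ i, τ i ∈ (F : Set (Vt K)) ∧ (τ i).col = i) →
        ∃ x ∈ S, ∀ i : Fin K, ev x i = ext ω (τ i) := by
    intro ω hω τ hτ
    obtain ⟨x, hx, hxe⟩ := mem_image.1 (hω (fun i => ⟨τ i, (hτ i).1⟩) fun i => (hτ i).2)
    exact ⟨x, hx, fun i => (congrFun hxe i).trans (hext ω ⟨τ i, (hτ i).1⟩).symm⟩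
  have key : ∀ Om : Finset (F → Fin w),
      (∀ ω ∈ Om, ∀ τ : Fin K → F, (∀ i, (τ i).1.col = i) → (fun i => ω (τ i)) ∈ B) →
      Om.card ≤ w ^ (F.card - 1) := by
    intro Om hOm
    have h1 : Om.card ≤ (univ : Finset (↥(F.erase (Vt.free i0)) → Fin w)).card := by
      refine card_le_card_of_injOn (fun ω v => psi_UF7 p.1 fP (ext ω) v.1)
        (fun _ _ => mem_coe.2 (mem_univ _)) fun ω hω ω' hω' hh => ?_
      have H := hfP Vt.col (F : Set (Vt K)) (fun i => ⟨Vt.free i, hF.1 i, rfl⟩) (ext ω) (ext ω')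
        (hcol ω (hOm ω hω)) (hcol ω' (hOm ω' hω'))
      have := agree_UF7 hF fP (ext ω) (ext ω') H fun v hv hne =>
        congrFun hh ⟨v, mem_erase.2 ⟨hne, hv⟩⟩
      funext v
      rw [← hext ω v, ← hext ω' v]
      exact this v.1 v.2
    simpa [card_erase_of_mem (hF.1 i0)] using h1
  have h2 := hbl.trans (Nat.cast_le.2 (key _ fun ω hω => (mem_filter.1 hω).2))
  simp only [Fintype.card_fin, Fintype.card_coe, hcard, Nat.cast_pow] at h2
  exact arith_UF7 (Nat.cast_nonneg _) (by exact_mod_cast hw) hF1 h2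

theorem no_of_N {K : ℕ} {p : Prs} (hK : 4 ≤ K) (hW : p.WF) (hN : p.N) : (p.inst K).No := by
  obtain ⟨F, hF⟩ := exists_cert hK hW hN ⟨0, by omega⟩
  exact no_of_cert (by omega) hW hF

end Pool.Agent.SemiRandom.Und
end

-- part Pool.Agent.P.MP_c53d0e_pr.UG1
section

set_option autoImplicit false
set_option linter.unusedSectionVars false

namespace Pool.Agent.SemiRandom.Und

open Finset

variable {k : ℕ}

lemma pos_zero_UG1 (d : ℕ) : Pos d (0 : Fn k) := by
  induction d with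
  | zero => rfl
  | succ d ih => exact fun j => ⟨0, ih, by funext a; simp [sh]⟩

lemma Pos.succ {d : ℕ} {f : Fn k} (h : Pos d f) : Pos (d + 1) f := by
  induction d generalizing f with
  | zero => rw [show f = 0 from h]; exact pos_zero_UG1 _
  | succ d ih =>
    intro j
    obtain ⟨g, hg, e⟩ := h j
    exact ⟨g, ih hg, e⟩

lemma Pos.le {d d' : ℕ} {f : Fn k} (h : Pos d f) (hd : d ≤ d') : Pos d' f := by
  induction hd with
  | refl => exact h
  | step _ ih => exact ih.succ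

lemma Pos.add {d : ℕ} {f g : Fn k} (hf : Pos d f) (hg : Pos d g) : Pos d (f + g) := by
  induction d generalizing f g with
  | zero => rw [show f = 0 from hf, show g = 0 from hg, add_zero]; rfl
  | succ d ih =>
    intro j
    obtain ⟨f', hf', e⟩ := hf j
    obtain ⟨g', hg', e'⟩ := hg j
    refine ⟨f' + g', ih hf' hg', ?_⟩
    have : sh j (f + g) = sh j f + sh j g := rfl
    rw [this, e, e']; ring

lemma Pos.mul {d e : ℕ} {f g : Fn k} (hf : Pos d f) (hg : Pos e g) : Pos (d + e) (f * g) := by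
  induction hn : d + e using Nat.strong_induction_on generalizing d e f g with
  | _ n ih =>
    rcases d with _ | d
    · rw [show f = 0 from hf, zero_mul]; exact pos_zero_UG1 _
    rcases e with _ | e
    · rw [show g = 0 from hg, mul_zero]; exact pos_zero_UG1 _
    obtain rfl : n = d + e + 1 + 1 := by omega
    intro j
    obtain ⟨f', hf', e1⟩ := hf j
    obtain ⟨g', hg', e2⟩ := hg j
    refine ⟨f' * g + f * g' + f' * g',
      ((ih (d + e + 1) (by omega) hf' hg (by omega)).add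
        (ih (d + e + 1) (by omega) hf hg' (by omega))).add
        (ih (d + e) (by omega) hf' hg' rfl).succ, ?_⟩
    have : sh j (f * g) = sh j f * sh j g := rfl
    rw [this, e1, e2]; ring

lemma pos_const (c : ℕ) : Pos 1 (fun _ => c : Fn k) := fun j =>
  ⟨0, rfl, by funext a; simp [sh]⟩

lemma pos_proj (i : Fin k) : Pos 2 (fun a => a i : Fn k) := fun j =>
  ⟨fun _ => if i = j then 1 else 0, pos_const _, by
    funext a
    by_cases h : i = j
    · subst h; simp [sh]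
    · simp [sh, h]⟩

theorem poly_split {P : (ℕ → ℕ) → ℤ} (hP : IsPoly P) (k : ℕ) : ∃ (d : ℕ) (f g : Fn k),
    Pos d f ∧ Pos d g ∧
      ∀ a, P (fun i => if h : i < k then a ⟨i, h⟩ else 0) = (f a : ℤ) - g a := by
  induction hP with
  | proj i =>
    by_cases h : i < k
    · exact ⟨2, fun a => a ⟨i, h⟩, 0, pos_proj _, pos_zero_UG1 _, fun a => by simp [h]⟩
    · exact ⟨0, 0, 0, rfl, rfl, fun a => by simp [h]⟩
  | const c =>
    exact ⟨1, fun _ => c.toNat, fun _ => (-c).toNat, pos_const _, pos_const _,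
      fun a => (Int.toNat_sub_toNat_neg c).symm⟩
  | sub _ _ ih ih' =>
    obtain ⟨d, f, g, hf, hg, h⟩ := ih
    obtain ⟨d', f', g', hf', hg', h'⟩ := ih'
    refine ⟨d + d', f + g', g + f', (hf.le (by omega)).add (hg'.le (by omega)),
      (hg.le (by omega)).add (hf'.le (by omega)), fun a => ?_⟩
    simp only [h, h', Pi.add_apply]
    push_cast
    ring
  | mul _ _ ih ih' =>
    obtain ⟨d, f, g, hf, hg, h⟩ := ih
    obtain ⟨d', f', g', hf', hg', h'⟩ := ih'
    refine ⟨d + d', f * f' + g * g', f * g' + g * f', (hf.mul hf').add (hg.mul hg'),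
      (hf.mul hg').add (hg.mul hf'), fun a => ?_⟩
    simp only [h, h', Pi.add_apply, Pi.mul_apply]
    push_cast
    ring

end Pool.Agent.SemiRandom.Und
end

-- part Pool.Agent.P.MP_c53d0e_pr.UG2
section

set_option autoImplicit false
set_option linter.unusedSectionVars false

namespace Pool.Agent.SemiRandom.Und

open Finset

variable {k : ℕ}

/-- Reset of a set of coordinates. -/
def rz_UG2 (J : Finset (Fin k)) (f : Fn k) : Fn k := fun a => f fun i => if i ∈ J then 0 else a i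

lemma rz_empty_UG2 (f : Fn k) : rz_UG2 ∅ f = f := by
  funext a; simp [rz_UG2]

lemma rz_insert_UG2 (j : Fin k) (J : Finset (Fin k)) (f : Fn k) :
    rz_UG2 (insert j J) f = rs j (rz_UG2 J f) := by
  funext a
  simp only [rz_UG2, rs]
  congr 1
  funext i
  by_cases h : i = j
  · subst h; simp
  · simp [h]

lemma rz_mem_UG2 {FF : Finset (Fn k)} (hC : Closed FF) {f : Fn k} (hf : f ∈ FF)
    (J : Finset (Fin k)) : rz_UG2 J f ∈ FF := by
  induction J using Finset.induction_on with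
  | empty => rwa [rz_empty_UG2]
  | insert j J _ ih => rw [rz_insert_UG2]; exact (hC _ ih j).2

lemma sh_rz_mem_UG2 {j : Fin k} {J : Finset (Fin k)} (h : j ∈ J) (f : Fn k) :
    sh j (rz_UG2 J f) = rz_UG2 J f := by
  funext a
  simp only [rz_UG2, sh]
  congr 1
  funext i
  by_cases hi : i = j
  · subst hi; simp [h]
  · simp [hi]

lemma sh_rz_notMem_UG2 {j : Fin k} {J : Finset (Fin k)} (h : j ∉ J) (f : Fn k) :
    sh j (rz_UG2 J f) = rz_UG2 J (sh j f) := by
  funext a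
  simp only [rz_UG2, sh]
  congr 1
  funext i
  by_cases hi : i = j
  · subst hi; simp [h]
  · simp [hi]

theorem exists_closed {d : ℕ} {f : Fn k} (h : Pos d f) : ∃ FF, f ∈ FF ∧ Closed FF := by
  classical
  induction d generalizing f with
  | zero =>
    have h0 : f = 0 := h
    subst h0
    refine ⟨{0}, mem_singleton_self _, fun f hf j => ?_⟩
    rw [mem_singleton.1 hf]
    exact ⟨⟨0, mem_singleton_self _, rfl⟩, mem_singleton.2 rfl⟩
  | succ d ih =>
    choose g hg1 hg2 using (show ∀ j, ∃ g, Pos d g ∧ sh j f = f + g from h)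
    choose G hG1 hG2 using fun j => ih (hg1 j)
    refine ⟨insert 0 ((univ.image fun J => rz_UG2 J f) ∪ univ.biUnion G), ?_, fun f' hf' j => ?_⟩
    · exact mem_insert_of_mem (mem_union_left _ (mem_image.2 ⟨∅, mem_univ _, rz_empty_UG2 f⟩))
    have hG : ∀ i, ∀ x ∈ G i, x ∈ insert 0 ((univ.image fun J => rz_UG2 J f) ∪ univ.biUnion G) :=
      fun i x hx => mem_insert_of_mem (mem_union_right _ (mem_biUnion.2 ⟨i, mem_univ _, hx⟩))
    rcases mem_insert.1 hf' with rfl | hf'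
    · exact ⟨⟨0, mem_insert_self _ _, rfl⟩, mem_insert_self _ _⟩
    rcases mem_union.1 hf' with hf' | hf'
    · obtain ⟨J, -, rfl⟩ := mem_image.1 hf'
      refine ⟨?_, mem_insert_of_mem (mem_union_left _
        (mem_image.2 ⟨insert j J, mem_univ _, rz_insert_UG2 j J f⟩))⟩
      by_cases hj : j ∈ J
      · exact ⟨0, mem_insert_self _ _, by rw [sh_rz_mem_UG2 hj, add_zero]⟩
      · refine ⟨rz_UG2 J (g j), hG j _ (rz_mem_UG2 (hG2 j) (hG1 j) J), ?_⟩
        rw [sh_rz_notMem_UG2 hj, hg2 j]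
        rfl
    · obtain ⟨i, -, hi⟩ := mem_biUnion.1 hf'
      obtain ⟨⟨g', h1, h2⟩, h3⟩ := hG2 i f' hi j
      exact ⟨⟨g', hG i _ h1, h2⟩, hG i _ h3⟩

theorem exists_rich (FF : Finset (Fn k)) : ∃ GG, Rich FF GG := by
  classical
  refine ⟨insert 0 (insert 1 (FF.biUnion fun f => insert f (insert (f + 1)
    ((univ.image fun j => sh j f) ∪ (range (f 0 + 1)).image fun c => fun _ => c)))),
    mem_insert_self _ _, mem_insert_of_mem (mem_insert_self _ _), fun f hf => ?_⟩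
  have key : ∀ x ∈ insert f (insert (f + 1)
      ((univ.image fun j => sh j f) ∪ (range (f 0 + 1)).image fun c => (fun _ => c : Fn k))),
      x ∈ insert 0 (insert 1 (FF.biUnion fun f => insert f (insert (f + 1)
        ((univ.image fun j => sh j f) ∪ (range (f 0 + 1)).image fun c => (fun _ => c : Fn k))))) :=
    fun x hx => mem_insert_of_mem (mem_insert_of_mem (mem_biUnion.2 ⟨f, hf, hx⟩))
  refine ⟨key _ (mem_insert_self _ _), key _ (mem_insert_of_mem (mem_insert_self _ _)),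
    fun j => key _ (mem_insert_of_mem (mem_insert_of_mem (mem_union_left _
      (mem_image.2 ⟨j, mem_univ _, rfl⟩)))),
    fun c hc => key _ (mem_insert_of_mem (mem_insert_of_mem (mem_union_right _
      (mem_image.2 ⟨c, mem_range.2 (Nat.lt_succ_of_le hc), rfl⟩))))⟩

lemma closed_union_UG2 [DecidableEq (Fn k)] {F G : Finset (Fn k)} (hF : Closed F)
    (hG : Closed G) : Closed (F ∪ G) := by
  intro f hf j
  rcases mem_union.1 hf with hf | hf
  · obtain ⟨⟨g, h1, h2⟩, h3⟩ := hF f hf j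
    exact ⟨⟨g, mem_union_left _ h1, h2⟩, mem_union_left _ h3⟩
  · obtain ⟨⟨g, h1, h2⟩, h3⟩ := hG f hf j
    exact ⟨⟨g, mem_union_right _ h1, h2⟩, mem_union_right _ h3⟩

theorem dioph_form {p : ℕ → Prop} (hp : REPred p) : ∃ (k : ℕ) (FF : Finset (Fn (k + 1)))
    (fp fm : Fn (k + 1)), Closed FF ∧ fp ∈ FF ∧ fm ∈ FF ∧ (fun a => a 0) ∈ FF ∧
      ∀ n, p n ↔ ∃ a, a 0 = n ∧ fp a = fm a := by
  classical
  obtain ⟨P, hP⟩ := Pool.Agent.Lib.MRDP.re_poly hp
  obtain ⟨l, hl⟩ := Pool.Agent.Lib.MRDP.isPoly_modEq P.isPoly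
  obtain ⟨d, f, g, hf, hg, hfg⟩ := poly_split P.isPoly (l.toFinset.sup id + 1)
  obtain ⟨F1, a1, b1⟩ := exists_closed hf
  obtain ⟨F2, a2, b2⟩ := exists_closed hg
  obtain ⟨F3, a3, b3⟩ := exists_closed (pos_proj (0 : Fin (l.toFinset.sup id + 1)))
  refine ⟨l.toFinset.sup id, F1 ∪ F2 ∪ F3, f, g, closed_union_UG2 (closed_union_UG2 b1 b2) b3,
    mem_union_left _ (mem_union_left _ a1), mem_union_left _ (mem_union_right _ a2),
    mem_union_right _ a3, fun n => (hP n).trans ⟨?_, ?_⟩⟩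
  · rintro ⟨t, h0, ht⟩
    refine ⟨fun i => t i, h0, ?_⟩
    have h1 := hfg fun i => t i
    have h2 := hl 0 (fun i => if h : i < l.toFinset.sup id + 1 then
      (fun i : Fin (l.toFinset.sup id + 1) => t i) ⟨i, h⟩ else 0) t fun i hi => by
        have : i ≤ l.toFinset.sup id := le_sup (f := id) (List.mem_toFinset.2 hi)
        rw [dif_pos (Nat.lt_succ_of_le this)]
    have h3 : ∀ a b : ℤ, a ≡ b [ZMOD ((0 : ℕ) : ℤ)] → a = b := fun a b h => by
      simpa [Int.ModEq] using h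
    have h4 := h3 _ _ h2
    have h5 : ((f fun i => t i : ℕ) : ℤ) - (g fun i => t i : ℕ) = 0 := by
      rw [← h1]; exact h4.trans ht
    exact_mod_cast sub_eq_zero.1 h5
  · rintro ⟨a, h0, ha⟩
    refine ⟨fun i => if h : i < l.toFinset.sup id + 1 then a ⟨i, h⟩ else 0, ?_, ?_⟩
    · exact (dif_pos (Nat.succ_pos _)).trans h0
    · exact (hfg a).trans (by rw [ha, sub_self])

end Pool.Agent.SemiRandom.Und
end

-- part Pool.Agent.P.MP_c53d0e_pr.UG3
section

set_option autoImplicit false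
set_option linter.unusedSectionVars false

namespace Pool.Agent.SemiRandom.Und

open Finset

theorem const_of_rs_UG3 {k : ℕ} (f : Fn k) (h : ∀ j, rs j f = f) (a : Fin k → ℕ) : f a = f 0 := by
  classical
  have key : ∀ s : Finset (Fin k), f a = f (fun j => if j ∈ s then 0 else a j) := by
    intro s
    induction s using Finset.induction_on with
    | empty => simp
    | insert i s _ ih =>
      rw [ih, ← congrFun (h i) (fun j => if j ∈ s then 0 else a j)]
      unfold rs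
      congr 1
      funext j
      by_cases hj : j = i
      · subst hj; simp
      · simp [hj]
  rw [key univ]
  congr 1
  funext j
  simp

theorem down_UG3 {k : ℕ} (K : (Fin k → ℕ) → Prop)
    (hK : ∀ b j, K (Function.update b j (b j + 1)) → K b) :
    ∀ (s : ℕ) (b : Fin k → ℕ), ∑ j, b j = s → K b → K 0 := by
  intro s
  induction s with
  | zero =>
    intro b hb h
    have : b = 0 := by
      funext j
      exact (Finset.sum_eq_zero_iff.1 hb) j (mem_univ _)
    exact this ▸ h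
  | succ s ih =>
    intro b hb h
    obtain ⟨j, -, hj⟩ := Finset.exists_ne_zero_of_sum_ne_zero (s := univ) (f := b) (by omega)
    refine ih (Function.update b j (b j - 1)) ?_ (hK _ j ?_)
    · rw [Finset.sum_update_of_mem (mem_univ j)]
      have := Finset.add_sum_erase univ b (mem_univ j)
      rw [Finset.sdiff_singleton_eq_erase]
      omega
    · have : Function.update (Function.update b j (b j - 1)) j
          (Function.update b j (b j - 1) j + 1) = b := by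
        funext i
        by_cases hi : i = j
        · subst hi; simp; omega
        · simp [hi]
      rw [this]
      exact h

theorem nprop_of_sol {k : ℕ} {FF GG : Finset (Fn k)} (hC : Closed FF) (hR : Rich FF GG)
    {fp fm x0 : Fn k} (hp : fp ∈ FF) (hm : fm ∈ FF) (hx : x0 ∈ FF) {n : ℕ} (a : Fin k → ℕ)
    (h1 : x0 a = n) (h2 : fp a = fm a) :
    NProp (Gn.z 0) Gn.zero (RelS GG n) (SepS fp fm x0 n) := by
  intro M ρ Z h0 hz hu hrel hsep
  obtain ⟨-, hG1, hG⟩ := hR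
  have hadd : ∀ f ∈ GG, ∀ g ∈ GG, f + g ∈ GG → ∀ t,
      ρ (.z f) (ρ (.z g) t) = ρ (.z (f + g)) t := by
    intro f hf g hg hfg t
    have := hrel _ _ _ _ (Or.inl (Or.inl ⟨f, hf, g, hg, hfg, rfl⟩)) t
    rwa [h0] at this
  have hq : ∀ f ∈ GG, ∀ j i, sh j f ∈ GG → ∀ t,
      ρ (.z f) (ρ (.q j i) t) = ρ (.q j i) (ρ (.z (sh j f)) t) :=
    fun f hf j i hs t => hrel _ _ _ _ (Or.inl (Or.inr (Or.inl ⟨f, hf, j, i, hs, rfl⟩))) t
  have hr : ∀ f ∈ GG, ∀ j i, rs j f ∈ GG → ∀ t,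
      ρ (.z f) (ρ (.r j i) t) = ρ (.r j i) (ρ (.z (rs j f)) t) :=
    fun f hf j i hs t => hrel _ _ _ _ (Or.inl (Or.inr (Or.inr ⟨f, hf, j, i, hs, rfl⟩))) t
  have cq : ∀ j i, Function.Commute (ρ (.z 1)) (ρ (.q j i)) :=
    fun j i t => hq 1 hG1 j i hG1 t
  have cr : ∀ j i, Function.Commute (ρ (.z 1)) (ρ (.r j i)) :=
    fun j i t => hr 1 hG1 j i hG1 t
  have cz : ∀ f ∈ FF, Function.Commute (ρ (.z 1)) (ρ (.z f)) := by
    intro f hf t
    obtain ⟨g1, g2, -⟩ := hG f hf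
    rw [hadd f g1 1 hG1 g2, hadd 1 hG1 f g1 (add_comm f 1 ▸ g2), add_comm]
  have hc : ∀ i, i ≤ n → ∀ t, ρ (.c i) t = (ρ (.z 1))^[i] t := by
    intro i
    induction i with
    | zero =>
      intro _ t
      have := hrel _ _ _ _ (Or.inr (Or.inl rfl)) t
      simpa [h0] using this
    | succ i ih =>
      intro hi t
      have := hrel _ _ _ _ (Or.inr (Or.inr ⟨i, hi, rfl⟩)) t
      rw [h0, ih (by omega)] at this
      rw [this, Function.iterate_succ_apply]
  let K : (Fin k → ℕ) → Prop := fun b =>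
    ∀ t, (∀ f ∈ FF, ρ (.z f) t = (ρ (.z 1))^[f b] t) → Z t
  have Ka : K a := by
    intro t ht
    refine hsep _ _ _ _ (Or.inl rfl) t ?_ ?_
    · rw [ht fp hp, ht fm hm, h2]
    · rw [ht x0 hx, h1, hc n le_rfl]
  have Kstep : ∀ b j, K (Function.update b j (b j + 1)) → K b := by
    intro b j hk t ht
    have hZ : ∀ i, Z (ρ (.q j i) t) := by
      intro i
      refine hk _ fun f hf => ?_
      obtain ⟨⟨g, hg, e⟩, -⟩ := hC f hf j
      have hs := (hG f hf).2.2.1 j
      have e' : f (Function.update b j (b j + 1)) = g b + f b := by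
        have := congrFun e b
        simp only [sh, Pi.add_apply] at this
        omega
      rw [hq f (hG f hf).1 j i hs, e, ← hadd f (hG f hf).1 g (hG g hg).1 (e ▸ hs), ht g hg,
        ← ((cz f hf).iterate_left (g b)).eq, ht f hf, ← Function.iterate_add_apply, e',
        ((cq j i).iterate_left _).eq]
    exact hsep _ _ _ _ (Or.inr ⟨j, Or.inl rfl⟩) t (hu _ _ (hZ _) (hz t)) (hu _ _ (hZ _) (hz t))
  have K0 : K 0 := down_UG3 K Kstep _ a rfl Ka
  let P : ℕ → M → Prop := fun i t =>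
    ∀ f ∈ FF, (∀ j : Fin k, i ≤ j.val → rs j f = f) → ρ (.z f) t = (ρ (.z 1))^[f 0] t
  have P0 : ∀ t, P 0 t := by
    intro t f hf hj
    have e : f = fun _ => f 0 := funext (const_of_rs_UG3 f fun j => hj j (Nat.zero_le _))
    have key : ∀ c, c ≤ f 0 → ∀ t, ρ (.z (fun _ => c)) t = (ρ (.z 1))^[c] t := by
      intro c
      induction c with
      | zero => intro _ t; exact h0 t
      | succ c ih =>
        intro hc' t
        have := hadd (fun _ => c) ((hG f hf).2.2.2 c (by omega)) 1 hG1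
          ((hG f hf).2.2.2 (c + 1) hc') t
        rw [ih (by omega)] at this
        rw [Function.iterate_succ_apply]
        exact this.symm
    have := key (f 0) le_rfl t
    rwa [← e] at this
  have Pstep : ∀ (i : Fin k) b t, P i t → P (i + 1) (ρ (.r i b) t) := by
    intro i b t ht f hf hj
    have hm' := (hC f hf i).2
    have e0 : rs i f 0 = f 0 := by simp [rs]
    rw [hr f (hG f hf).1 i b (hG _ hm').1, ht _ hm' ?_, e0, ((cr i b).iterate_left _).eq]
    intro j hij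
    funext c
    by_cases hji : j = i
    · subst hji; simp [rs]
    · have hlt : i.val + 1 ≤ j.val := by
        have : j.val ≠ i.val := fun e => hji (Fin.ext e)
        omega
      have := congrFun (hj j hlt) (Function.update c i 0)
      simp only [rs] at this ⊢
      rw [Function.update_comm hji]
      exact this
  have PK : ∀ d, d ≤ k → ∀ t, P (k - d) t → Z t := by
    intro d
    induction d with
    | zero =>
      intro _ t ht
      exact K0 t fun f hf => ht f hf fun j hj => absurd j.2 (by omega)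
    | succ d ih =>
      intro hd t ht
      have hZ : ∀ b, Z (ρ (.r ⟨k - (d + 1), by omega⟩ b) t) := by
        intro b
        refine ih (by omega) _ ?_
        have := Pstep ⟨k - (d + 1), by omega⟩ b t ht
        have e : k - (d + 1) + 1 = k - d := by omega
        simpa only [e] using this
      exact hsep _ _ _ _ (Or.inr ⟨_, Or.inr rfl⟩) t (hu _ _ (hZ _) (hz t)) (hu _ _ (hZ _) (hz t))
  intro t
  exact PK k le_rfl t (by simpa only [Nat.sub_self] using P0 t)

end Pool.Agent.SemiRandom.Und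
end

-- part Pool.Agent.P.MP_c53d0e_pr.UG4
section

set_option autoImplicit false
set_option linter.unusedSectionVars false

namespace Pool.Agent.SemiRandom.Und

open Finset

variable {k : ℕ}

/-- Basis of the model. -/
abbrev Bs (k L : ℕ) : Type := Fin k → Fin (2 ^ (L + 1))

def lv {L : ℕ} (b : Bs k L) : Fin k → ℕ := fun j => L - Nat.log 2 (b j)

/-- Weighted composition operator. -/
def wop {B R : Type} [CommRing R] (c : B → R) (g : B → B) : (B → R) →+ (B → R) where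
  toFun v b := c b * v (g b)
  map_zero' := by ext; simp
  map_add' v v' := by ext; simp [mul_add]

@[simp] lemma wop_apply {B R : Type} [CommRing R] (c : B → R) (g : B → B) (v : B → R) (b : B) :
    wop c g v b = c b * v (g b) := rfl

def setc {L : ℕ} (b : Bs k L) (j : Fin k) (x : ℕ) : Bs k L :=
  Function.update b j ⟨x % 2 ^ (L + 1), Nat.mod_lt _ (by positivity)⟩

/-- The model. -/
def mdl (L : ℕ) (R : Type) [CommRing R] : Gn k → (Bs k L → R) →+ (Bs k L → R)
  | .zero => 0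
  | .z f => wop (fun b => 2 ^ f (lv b)) id
  | .q j i => wop (fun b => if 1 ≤ (b j : ℕ) ∧ (b j : ℕ) < 2 ^ L then 1 else 0)
      fun b => setc b j (2 * b j + i.toNat)
  | .r j i => wop (fun b => if 2 ^ L ≤ (b j : ℕ) then 1 else 0)
      fun b => setc b j (b j - i.toNat * 2 ^ L)
  | .c i => wop (fun _ => 2 ^ i) id

lemma setc_val_UG4 {L : ℕ} (b : Bs k L) (j : Fin k) {x : ℕ} (hx : x < 2 ^ (L + 1)) :
    (setc b j x j : ℕ) = x := by
  simp [setc, Nat.mod_eq_of_lt hx]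

lemma setc_ne_UG4 {L : ℕ} (b : Bs k L) {j j' : Fin k} (x : ℕ) (h : j' ≠ j) :
    setc b j x j' = b j' := by
  simp [setc, Function.update_of_ne h]

lemma setc_setc_UG4 {L : ℕ} (b : Bs k L) (j : Fin k) (y : ℕ) {x : ℕ} (hx : x = b j) :
    setc (setc b j y) j x = b := by
  funext j'
  by_cases h : j' = j
  · subst h
    exact Fin.ext ((setc_val_UG4 _ _ (hx ▸ (b j').2)).trans hx)
  · rw [setc_ne_UG4 _ _ h, setc_ne_UG4 _ _ h]

lemma setc_self_UG4 {L : ℕ} (b : Bs k L) (j : Fin k) {x : ℕ} (hx : x = b j) :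
    setc b j x = b := by
  funext j'
  by_cases h : j' = j
  · subst h
    exact Fin.ext ((setc_val_UG4 _ _ (hx ▸ (b j').2)).trans hx)
  · rw [setc_ne_UG4 _ _ h]

lemma log_two_UG4 {x i : ℕ} (hx : 1 ≤ x) (hi : i ≤ 1) :
    Nat.log 2 (2 * x + i) = Nat.log 2 x + 1 := by
  rw [Nat.log_of_one_lt_of_le (by norm_num) (by omega : 2 ≤ 2 * x + i)]
  congr 2
  omega

lemma lv_q_UG4 {L : ℕ} (b : Bs k L) (j : Fin k) {i : ℕ} (hi : i ≤ 1) (h1 : 1 ≤ (b j : ℕ))
    (h2 : (b j : ℕ) < 2 ^ L) :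
    Function.update (lv (setc b j (2 * b j + i))) j (lv (setc b j (2 * b j + i)) j + 1) = lv b := by
  funext j'
  by_cases h : j' = j
  · subst h
    have hl : Nat.log 2 (b j') < L := Nat.log_lt_of_lt_pow (by omega) h2
    rw [Function.update_self]
    unfold lv
    have hp : 2 ^ (L + 1) = 2 * 2 ^ L := by rw [pow_succ]; ring
    rw [setc_val_UG4 _ _ (by omega), log_two_UG4 h1 hi]
    omega
  · rw [Function.update_of_ne h]
    unfold lv
    rw [setc_ne_UG4 _ _ h]

lemma lv_r_UG4 {L : ℕ} (b : Bs k L) (j : Fin k) (x : ℕ) (h2 : 2 ^ L ≤ (b j : ℕ)) :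
    Function.update (lv (setc b j x)) j 0 = lv b := by
  funext j'
  by_cases h : j' = j
  · subst h
    have hl : L ≤ Nat.log 2 (b j') := Nat.le_log_of_pow_le (by norm_num) h2
    rw [Function.update_self]
    unfold lv
    omega
  · rw [Function.update_of_ne h]
    unfold lv
    rw [setc_ne_UG4 _ _ h]

theorem mdl_rel (L : ℕ) (R : Type) [CommRing R] (GG : Finset (Fn k)) (n : ℕ) (a b c d : Gn k)
    (h : (a, b, c, d) ∈ RelS GG n) (v : Bs k L → R) :
    mdl L R a (mdl L R b v) = mdl L R c (mdl L R d v) := by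
  funext x
  rcases h with (⟨f, -, g, -, -, e⟩ | ⟨f, -, j, i, -, e⟩ | ⟨f, -, j, i, -, e⟩) | e | ⟨i, -, e⟩ <;>
    simp only [Prod.mk.injEq] at e <;> obtain ⟨rfl, rfl, rfl, rfl⟩ := e <;>
    simp only [mdl, wop_apply, id]
  · simp only [Pi.add_apply, Pi.zero_apply, pow_add, pow_zero]
    ring
  · split_ifs with hx
    · unfold sh
      rw [lv_q_UG4 x j (Bool.toNat_le i) hx.1 hx.2]
      ring
    · ring
  · split_ifs with hx
    · unfold rs
      rw [lv_r_UG4 x j _ hx]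
      ring
    · ring
  · simp
  · simp only [Pi.zero_apply, Pi.one_apply, pow_zero, pow_succ]
    ring

theorem mdl_sep (L : ℕ) (R : Type) [CommRing R] (a b c d : Gn k) (h : (a, b, c, d) ∈ SepF k)
    (v : Bs k L → R) (hv : ∀ x : Bs k L, (∃ j, (x j : ℕ) ≤ 1) → v x = 0)
    (h1 : mdl L R a v = mdl L R b v) (h2 : mdl L R c v = mdl L R d v) : v = 0 := by
  funext x
  have hp : 2 ^ (L + 1) = 2 * 2 ^ L := by rw [pow_succ]; ring
  have h0 : 0 < 2 ^ L := by positivity
  obtain ⟨j, e | e⟩ := h <;> simp only [Prod.mk.injEq] at e <;> obtain ⟨rfl, rfl, rfl, rfl⟩ := e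
  · have hx := (x j).2
    by_cases hj : (x j : ℕ) ≤ 1
    · exact hv x ⟨j, hj⟩
    have hy : (setc x j (x j / 2) j : ℕ) = x j / 2 := setc_val_UG4 _ _ (by omega)
    have a1 := congrFun h1 (setc x j (x j / 2))
    have a2 := congrFun h2 (setc x j (x j / 2))
    simp only [mdl, wop_apply, hy, AddMonoidHom.zero_apply, Pi.zero_apply] at a1 a2
    rw [if_pos (by omega), one_mul] at a1 a2
    rcases Nat.mod_two_eq_zero_or_one (x j) with hm | hm
    · rwa [setc_setc_UG4 _ _ _ (by simp only [Bool.toNat_false]; omega)] at a1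
    · rwa [setc_setc_UG4 _ _ _ (by simp only [Bool.toNat_true]; omega)] at a2
  · have hx := (x j).2
    by_cases hj : 2 ^ L ≤ (x j : ℕ)
    · have a1 := congrFun h1 x
      simp only [mdl, wop_apply, AddMonoidHom.zero_apply, Pi.zero_apply] at a1
      rwa [if_pos hj, one_mul, setc_self_UG4 _ _ (by simp)] at a1
    · have hy : (setc x j (x j + 2 ^ L) j : ℕ) = x j + 2 ^ L := setc_val_UG4 _ _ (by omega)
      have a2 := congrFun h2 (setc x j (x j + 2 ^ L))
      simp only [mdl, wop_apply, hy, AddMonoidHom.zero_apply, Pi.zero_apply] at a2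
      rwa [if_pos (by omega), one_mul, setc_setc_UG4 _ _ _ (by simp)] at a2

end Pool.Agent.SemiRandom.Und
end

-- part Pool.Agent.P.MP_c53d0e_pr.UG5
section

set_option autoImplicit false
set_option linter.unusedSectionVars false

namespace Pool.Agent.SemiRandom.Und

open Finset

/-- Functions on the basis that vanish wherever some coordinate is at most one. -/
def subV_UG5 (k L : ℕ) (R : Type) [CommRing R] : AddSubgroup (Bs k L → R) where
  carrier := {v | ∀ x : Bs k L, (∃ j, (x j : ℕ) ≤ 1) → v x = 0}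
  add_mem' := by
    intro a b ha hb x hx
    simp [ha x hx, hb x hx]
  zero_mem' := by
    intro x _
    rfl
  neg_mem' := by
    intro a ha x hx
    simp [ha x hx]

lemma two_le_UG5 (L : ℕ) : 2 ≤ 2 ^ (L + 1) := by
  have : 1 ≤ 2 ^ L := Nat.one_le_two_pow
  rw [pow_succ]; omega

def up_UG5 (k L : ℕ) (y : Fin k → Fin (2 ^ (L + 1) - 2)) : Bs k L :=
  fun j => ⟨(y j : ℕ) + 2, by have := (y j).2; have := two_le_UG5 L; omega⟩

lemma up_inj_UG5 (k L : ℕ) : Function.Injective (up_UG5 k L) := by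
  intro y y' h
  funext j
  have := congrArg (fun z : Bs k L => (z j : ℕ)) h
  simp only [up_UG5] at this
  exact Fin.ext (by omega)

lemma card_subV_UG5 (k L q : ℕ) [NeZero q] :
    q ^ ((2 ^ (L + 1) - 2) ^ k) ≤ Nat.card (subV_UG5 k L (ZMod q)) := by
  classical
  let Φ : ((Fin k → Fin (2 ^ (L + 1) - 2)) → ZMod q) → subV_UG5 k L (ZMod q) := fun w =>
    ⟨Function.extend (up_UG5 k L) w 0, by
      intro x hx
      rw [Function.extend_apply' _ _ _ ?_]
      · rfl
      · rintro ⟨y, rfl⟩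
        obtain ⟨j, hj⟩ := hx
        simp only [up_UG5] at hj
        omega⟩
  have hΦ : Function.Injective Φ := by
    intro w w' h
    funext y
    have h1 : Function.extend (up_UG5 k L) w 0 = Function.extend (up_UG5 k L) w' 0 :=
      congrArg Subtype.val h
    have h2 := congrFun h1 (up_UG5 k L y)
    rwa [(up_inj_UG5 k L).extend_apply, (up_inj_UG5 k L).extend_apply] at h2
  have := Nat.card_le_card_of_injective Φ hΦ
  rwa [Nat.card_eq_fintype_card, Fintype.card_fun, ZMod.card, Fintype.card_fun, Fintype.card_fin,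
    Fintype.card_fin] at this

lemma exp_le_UG5 (k L : ℕ) (θ : ℝ) (h : (k : ℝ) ≤ θ * 2 ^ L) :
    (((2 ^ (L + 1)) ^ k : ℕ) : ℝ) * (1 - θ) ≤ (((2 ^ (L + 1) - 2) ^ k : ℕ) : ℝ) := by
  have hP : (0 : ℝ) < 2 ^ L := by positivity
  have hP1 : (1 : ℝ) ≤ 2 ^ L := one_le_pow₀ (by norm_num)
  have hc : ((2 ^ (L + 1) - 2 : ℕ) : ℝ) = 2 ^ (L + 1) * (1 + (-(1 / 2 ^ L))) := by
    rw [Nat.cast_sub (two_le_UG5 L)]
    push_cast
    rw [pow_succ]
    field_simp
    ring
  have hb : 1 + (k : ℝ) * (-(1 / 2 ^ L)) ≤ (1 + (-(1 / 2 ^ L) : ℝ)) ^ k := by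
    apply one_add_mul_le_pow
    have : (1 : ℝ) / 2 ^ L ≤ 1 := by rw [div_le_one hP]; exact hP1
    linarith
  have hk : (k : ℝ) * (1 / 2 ^ L) ≤ θ := by
    rw [mul_one_div, div_le_iff₀ hP]; exact h
  rw [Nat.cast_pow (2 ^ (L + 1) - 2), hc, mul_pow]
  push_cast
  apply mul_le_mul_of_nonneg_left _ (by positivity)
  linarith

lemma cancel_UG5 {q : ℕ} [Fact q.Prime] {a b : ℕ} (ha : 2 ^ a < q) (hb : 2 ^ b < q) (hab : a ≠ b)
    {t : ZMod q} (h : (2 : ZMod q) ^ a * t = 2 ^ b * t) : t = 0 := by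
  by_contra ht
  have h1 : (2 : ZMod q) ^ a = 2 ^ b := mul_right_cancel₀ ht h
  have h2 : ((2 ^ a : ℕ) : ZMod q) = ((2 ^ b : ℕ) : ZMod q) := by push_cast; exact h1
  have h3 := congrArg ZMod.val h2
  rw [ZMod.val_cast_of_lt ha, ZMod.val_cast_of_lt hb] at h3
  exact hab (Nat.pow_right_injective (le_refl 2) h3)

theorem yprop_of_nosol {k : ℕ} (GG : Finset (Fn k)) (fp fm x0 : Fn k) (n : ℕ)
    (h : ¬ ∃ a, x0 a = n ∧ fp a = fm a) :
    YProp (Gn.z 0) Gn.zero (RelS GG n) (SepS fp fm x0 n) := by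
  classical
  intro θ hθ
  obtain ⟨L, hL⟩ : ∃ L : ℕ, (k : ℝ) / θ < 2 ^ L := pow_unbounded_of_one_lt _ (by norm_num)
  have hL' : (k : ℝ) ≤ θ * 2 ^ L := by
    rw [div_lt_iff₀ hθ] at hL
    linarith
  let B : ℕ := (univ : Finset (Bs k L)).sup fun b => fp (lv b) + fm (lv b) + x0 (lv b) + n
  have hB : ∀ b : Bs k L, fp (lv b) + fm (lv b) + x0 (lv b) + n ≤ B := fun b =>
    Finset.le_sup (f := fun b : Bs k L => fp (lv b) + fm (lv b) + x0 (lv b) + n) (mem_univ b)
  obtain ⟨q, hq, hp⟩ := Nat.exists_infinite_primes (2 ^ B + 1)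
  have : Fact q.Prime := ⟨hp⟩
  have : NeZero q := ⟨hp.ne_zero⟩
  have hlt : ∀ a, a ≤ B → 2 ^ a < q := fun a ha =>
    lt_of_le_of_lt (Nat.pow_le_pow_right (by norm_num) ha) (by omega)
  have hcard : Fintype.card (Bs k L → ZMod q) = q ^ ((2 ^ (L + 1)) ^ k) := by
    rw [Fintype.card_fun, ZMod.card, Fintype.card_fun, Fintype.card_fin, Fintype.card_fin]
  refine ⟨Bs k L → ZMod q, inferInstance, inferInstance, subV_UG5 k L (ZMod q), mdl L (ZMod q),
    ?_, ?_, ?_, ?_, ?_, ?_⟩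
  · rw [hcard]
    exact hp.two_le.trans (Nat.le_self_pow (by positivity) q)
  · have hq1 : (1 : ℝ) ≤ q := by exact_mod_cast hp.one_lt.le
    rw [hcard, Nat.cast_pow, ← Real.rpow_natCast, ← Real.rpow_mul (by positivity)]
    refine (Real.rpow_le_rpow_of_exponent_le hq1 (exp_le_UG5 k L θ hL')).trans ?_
    rw [Real.rpow_natCast]
    exact_mod_cast card_subV_UG5 k L q
  · intro t
    funext b
    simp [mdl]
  · intro t
    simp [mdl]
  · intro a b c d hr t
    exact mdl_rel L (ZMod q) GG n a b c d hr t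
  · intro a b c d hs t ht h1 h2
    rcases hs with hs | hs
    · simp only [Prod.mk.injEq] at hs
      obtain ⟨rfl, rfl, rfl, rfl⟩ := hs
      funext b
      have e1 := congrFun h1 b
      have e2 := congrFun h2 b
      simp only [mdl, wop_apply, id] at e1 e2
      have hb := hB b
      by_cases hx : x0 (lv b) = n
      · have hne : fp (lv b) ≠ fm (lv b) := fun he => h ⟨lv b, hx, he⟩
        exact cancel_UG5 (hlt _ (by omega)) (hlt _ (by omega)) hne e1
      · exact cancel_UG5 (hlt _ (by omega)) (hlt _ (by omega)) hx e2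
    · exact mdl_sep L (ZMod q) a b c d hs t ht h1 h2

end Pool.Agent.SemiRandom.Und
end

-- part Pool.Agent.P.MP_c53d0e_pr.UG6
section

set_option autoImplicit false
set_option linter.unusedSectionVars false

namespace Pool.Agent.SemiRandom.Und

open Finset

lemma NProp.map {G G' : Type} {one zero : G} {Rel Sep : Set (G × G × G × G)}
    (h : NProp one zero Rel Sep) (φ : G → G') {Rel' Sep' : Set (G' × G' × G' × G')}
    (h1 : ∀ a b c d, (a, b, c, d) ∈ Rel → (φ a, φ b, φ c, φ d) ∈ Rel')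
    (h2 : ∀ a b c d, (a, b, c, d) ∈ Sep → (φ a, φ b, φ c, φ d) ∈ Sep') :
    NProp (φ one) (φ zero) Rel' Sep' := fun M ρ Z k1 k2 k3 k4 k5 =>
  h M (fun g => ρ (φ g)) Z k1 k2 k3 (fun a b c d hx => k4 _ _ _ _ (h1 a b c d hx))
    fun a b c d hx => k5 _ _ _ _ (h2 a b c d hx)

lemma YProp.comap {G G' : Type} {one zero : G'} {Rel Sep : Set (G × G × G × G)} (ψ : G' → G)
    (h : YProp (ψ one) (ψ zero) Rel Sep) {Rel' Sep' : Set (G' × G' × G' × G')}
    (h1 : ∀ a b c d, (a, b, c, d) ∈ Rel' → (ψ a, ψ b, ψ c, ψ d) ∈ Rel)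
    (h2 : ∀ a b c d, (a, b, c, d) ∈ Sep' → (ψ a, ψ b, ψ c, ψ d) ∈ Sep) :
    YProp one zero Rel' Sep' := by
  intro θ hθ
  obtain ⟨V, i1, i2, V', ρ, k1, k2, k3, k4, k5, k6⟩ := h θ hθ
  exact ⟨V, i1, i2, V', fun g => ρ (ψ g), k1, k2, k3, k4,
    fun a b c d hx => k5 _ _ _ _ (h1 a b c d hx), fun a b c d hx => k6 _ _ _ _ (h2 a b c d hx)⟩

/-- The names that occur for the input `n`. -/
def Good_UG6 {k : ℕ} (GG : Finset (Fn k)) (n : ℕ) : Gn k → Prop
  | .z f => f ∈ GG
  | .c i => i ≤ n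
  | _ => True

lemma numbering_UG6 {k : ℕ} (GG : Finset (Fn k)) : ∃ (g0 : ℕ) (φ : Gn k → ℕ) (ψ : ℕ → Gn k),
    2 ≤ g0 ∧ φ (.z 0) = 0 ∧ φ .zero = 1 ∧ (∀ i, φ (.c i) = g0 + i) ∧
      ∀ n t, Good_UG6 GG n t → φ t < g0 + n + 1 ∧ ψ (φ t) = t := by
  classical
  let T : Finset (Gn k) := GG.image .z ∪ (univ.image fun x : Fin k × Bool => .q x.1 x.2) ∪
    univ.image fun x : Fin k × Bool => .r x.1 x.2
  let l : List (Gn k) := .z 0 :: .zero :: T.toList
  have hl : ∀ t ∈ l, l.idxOf t < l.length ∧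
      (if l.idxOf t < l.length then l.getD (l.idxOf t) .zero else .c (l.idxOf t - l.length)) = t := by
    intro t ht
    have h := List.idxOf_lt_length_iff.2 ht
    exact ⟨h, by rw [if_pos h, List.getD_eq_getElem _ _ h, List.getElem_idxOf]⟩
  refine ⟨l.length, fun t => match t with | .c i => l.length + i | t => l.idxOf t,
    fun m => if m < l.length then l.getD m .zero else .c (m - l.length), by simp [l],
    by simp [l], by simp [l], fun _ => rfl, fun n t ht => ?_⟩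
  cases t with
  | c i =>
    have hi : i ≤ n := ht
    exact ⟨by dsimp only; omega, by simp⟩
  | zero => exact (hl _ (by simp [l])).imp_left fun h => by dsimp only; omega
  | z f =>
    have hf : f ∈ GG := ht
    exact (hl _ (by simp [l, T, hf])).imp_left fun h => by dsimp only; omega
  | q j i => exact (hl _ (by simp [l, T])).imp_left fun h => by dsimp only; omega
  | r j i => exact (hl _ (by simp [l, T])).imp_left fun h => by dsimp only; omega

lemma good_finite_UG6 {k : ℕ} (GG : Finset (Fn k)) : {t | Good_UG6 GG 0 t}.Finite := by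
  obtain ⟨g0, φ, ψ, -, -, -, -, h⟩ := numbering_UG6 GG
  refine ((Set.finite_lt_nat (g0 + 0 + 1)).image ψ).subset fun t ht => ⟨φ t, (h 0 t ht).1, (h 0 t ht).2⟩

/-- All four names occur. -/
def Good4_UG6 {k : ℕ} (GG : Finset (Fn k)) (n : ℕ) (x : Gn k × Gn k × Gn k × Gn k) : Prop :=
  Good_UG6 GG n x.1 ∧ Good_UG6 GG n x.2.1 ∧ Good_UG6 GG n x.2.2.1 ∧ Good_UG6 GG n x.2.2.2

lemma list_UG6 {k : ℕ} (GG : Finset (Fn k)) (φ : Gn k → ℕ) (A : Set (Gn k × Gn k × Gn k × Gn k))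
    (hA : ∀ x ∈ A, Good4_UG6 GG 0 x) : ∃ R0 : List Q4, ∀ x, x ∈ R0 ↔
      ∃ y ∈ A, (φ y.1, φ y.2.1, φ y.2.2.1, φ y.2.2.2) = x := by
  have h := good_finite_UG6 GG
  have hf : A.Finite := (h.prod (h.prod (h.prod h))).subset hA
  exact ⟨(hf.image fun y => (φ y.1, φ y.2.1, φ y.2.2.1, φ y.2.2.2)).toFinset.toList, by simp⟩

lemma relF_good_UG6 {k : ℕ} {GG : Finset (Fn k)} (h0 : 0 ∈ GG) (n : ℕ) :
    ∀ x ∈ RelF GG, Good4_UG6 GG n x := by
  rintro x (⟨f, hf, g, hg, h, rfl⟩ | ⟨f, hf, j, i, h, rfl⟩ | ⟨f, hf, j, i, h, rfl⟩)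
  exacts [⟨hf, hg, h, h0⟩, ⟨hf, trivial, trivial, h⟩, ⟨hf, trivial, trivial, h⟩]

lemma sepF_good_UG6 {k : ℕ} (GG : Finset (Fn k)) (n : ℕ) : ∀ x ∈ SepF k, Good4_UG6 GG n x := by
  rintro x ⟨j, rfl | rfl⟩ <;> exact ⟨trivial, trivial, trivial, trivial⟩

theorem exists_prs {p : ℕ → Prop} (hp : REPred p) : ∃ g0 R0 S0 y a b x, ∀ n,
    (prsOf g0 R0 S0 y a b x n).WF ∧ (p n → (prsOf g0 R0 S0 y a b x n).N) ∧
      (¬ p n → (prsOf g0 R0 S0 y a b x n).Y) := by
  obtain ⟨k, FF, fp, fm, hC, hfp, hfm, hx, hd⟩ := dioph_form hp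
  obtain ⟨GG, hR⟩ := exists_rich FF
  obtain ⟨g0, φ, ψ, h2, p0, p1, pc, hφ⟩ := numbering_UG6 GG
  obtain ⟨R0, hR0⟩ := list_UG6 GG φ _ (relF_good_UG6 hR.1 0)
  obtain ⟨S0, hS0⟩ := list_UG6 GG φ _ (sepF_good_UG6 GG 0)
  refine ⟨g0, R0, S0, φ (.z 1), φ (.z fp), φ (.z fm), φ (.z fun a => a 0), fun n => ?_⟩
  set P := prsOf g0 R0 S0 (φ (.z 1)) (φ (.z fp)) (φ (.z fm)) (φ (.z fun a => a 0)) n with hP
  have gR : ∀ x ∈ RelS GG n, Good4_UG6 GG n x := by
    rintro x (h | rfl | ⟨i, hi, rfl⟩)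
    exacts [relF_good_UG6 hR.1 n x h, ⟨Nat.zero_le n, hR.1, hR.1, hR.1⟩,
      ⟨hi, hR.1, hi.le, hR.2.1⟩]
  have gS : ∀ x ∈ SepS fp fm (fun a => a 0) n, Good4_UG6 GG n x := by
    rintro x (rfl | h)
    exacts [⟨(hR.2.2 _ hfp).1, (hR.2.2 _ hfm).1, (hR.2.2 _ hx).1, le_refl n⟩,
      sepF_good_UG6 GG n x h]
  have eR : ∀ x, x ∈ P.2.1 ↔ ∃ y ∈ RelS GG n, (φ y.1, φ y.2.1, φ y.2.2.1, φ y.2.2.2) = x := by
    intro x
    simp only [hP, prsOf, List.mem_append, List.mem_cons, List.mem_map, List.mem_range, hR0]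
    constructor
    · rintro (⟨y, hy, rfl⟩ | rfl | ⟨i, hi, rfl⟩)
      · exact ⟨y, Or.inl hy, rfl⟩
      · exact ⟨_, Or.inr (Or.inl rfl), by simp [pc, p0]⟩
      · exact ⟨_, Or.inr (Or.inr ⟨i, hi, rfl⟩), by simp [pc, p0, add_assoc]⟩
    · rintro ⟨y, hy | rfl | ⟨i, hi, rfl⟩, rfl⟩
      · exact Or.inl ⟨y, hy, rfl⟩
      · exact Or.inr (Or.inl (by simp [pc, p0]))
      · exact Or.inr (Or.inr ⟨i, hi, by simp [pc, p0, add_assoc]⟩)
  have eS : ∀ x, x ∈ P.2.2 ↔ ∃ y ∈ SepS fp fm (fun a => a 0) n,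
      (φ y.1, φ y.2.1, φ y.2.2.1, φ y.2.2.2) = x := by
    intro x
    simp only [hP, prsOf, List.mem_cons, hS0]
    constructor
    · rintro (rfl | ⟨y, hy, rfl⟩)
      · exact ⟨_, Or.inl rfl, by simp [pc]⟩
      · exact ⟨y, Or.inr hy, rfl⟩
    · rintro ⟨y, rfl | hy, rfl⟩
      · exact Or.inl (by simp [pc])
      · exact Or.inr ⟨y, hy, rfl⟩
  have back : ∀ (A : Set (Gn (k + 1) × Gn (k + 1) × Gn (k + 1) × Gn (k + 1))),
      (∀ x ∈ A, Good4_UG6 GG n x) → ∀ a b c d : ℕ,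
      (∃ y ∈ A, (φ y.1, φ y.2.1, φ y.2.2.1, φ y.2.2.2) = (a, b, c, d)) →
        (ψ a, ψ b, ψ c, ψ d) ∈ A := by
    rintro A hA a b c d ⟨y, hy, h⟩
    obtain ⟨k1, k2, k3, k4⟩ := hA y hy
    obtain ⟨rfl, rfl, rfl, rfl⟩ : φ y.1 = a ∧ φ y.2.1 = b ∧ φ y.2.2.1 = c ∧ φ y.2.2.2 = d := by
      simpa using h
    rwa [(hφ n _ k1).2, (hφ n _ k2).2, (hφ n _ k3).2, (hφ n _ k4).2]
  refine ⟨⟨(by omega : 2 ≤ g0 + n + 1), fun x hx' => ?_⟩, fun h => ?_, fun h => ?_⟩
  · obtain ⟨y, ⟨k1, k2, k3, k4⟩, rfl⟩ : ∃ y, Good4_UG6 GG n y ∧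
        (φ y.1, φ y.2.1, φ y.2.2.1, φ y.2.2.2) = x := by
      rcases hx' with h | h
      · obtain ⟨y, hy, e⟩ := (eR x).1 h
        exact ⟨y, gR y hy, e⟩
      · obtain ⟨y, hy, e⟩ := (eS x).1 h
        exact ⟨y, gS y hy, e⟩
    exact ⟨(hφ n _ k1).1, (hφ n _ k2).1, (hφ n _ k3).1, (hφ n _ k4).1⟩
  · obtain ⟨a, h1, h3⟩ := (hd n).1 h
    have := (nprop_of_sol hC hR hfp hfm hx a h1 h3).map φ (Rel' := {x | x ∈ P.2.1})
      (Sep' := {x | x ∈ P.2.2}) (fun a b c d hy => (eR _).2 ⟨_, hy, rfl⟩)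
      fun a b c d hy => (eS _).2 ⟨_, hy, rfl⟩
    rwa [p0, p1] at this
  · have q0 : ψ 0 = .z 0 := p0 ▸ (hφ n (.z 0) hR.1).2
    have q1 : ψ 1 = .zero := (congrArg ψ p1).symm.trans (hφ n .zero trivial).2
    refine YProp.comap ψ (Rel := RelS GG n) (Sep := SepS fp fm (fun a => a 0) n) ?_
      (fun a b c d hy => back _ gR a b c d ((eR _).1 hy))
      fun a b c d hy => back _ gS a b c d ((eS _).1 hy)
    rw [q0, q1]
    exact yprop_of_nosol GG fp fm _ n fun h' => h ((hd n).2 h')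

end Pool.Agent.SemiRandom.Und
end

-- part Pool.Agent.P.MP_c53d0e_pr.UH1
section

set_option autoImplicit false
set_option linter.unusedSectionVars false

namespace Pool.Agent.SemiRandom.Und

open Finset

lemma mul_add_inj_UH1 {r a b c d : ℕ} (hb : b < r) (hd : d < r) (h : r * a + b = r * c + d) :
    a = c ∧ b = d := by
  have h1 : (r * a + b) % r = (r * c + d) % r := by rw [h]
  rw [Nat.mul_add_mod, Nat.mul_add_mod, Nat.mod_eq_of_lt hb, Nat.mod_eq_of_lt hd] at h1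
  subst h1
  exact ⟨Nat.eq_of_mul_eq_mul_left (by omega) (Nat.add_right_cancel h), rfl⟩

lemma encN_inj {r s np nl : ℕ} :
    Function.Injective (encN : Vx r s (Fin (np + 1)) (Fin nl) → ℕ) := by
  rintro (j | i | p | (b | ⟨e, l⟩) | ⟨e, l⟩) (j' | i' | p' | (b' | ⟨e', l'⟩) | ⟨e', l'⟩) h <;>
    simp only [encN] at h <;> first
    | omega
    | (congr 1; ext; omega)
    | (congr 2; ext; omega)
    | (have h1 : e = e' := by ext; omega
       have h2 : l = l' := by ext; omega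
       rw [h1, h2])
    | (obtain ⟨h1, h2⟩ := mul_add_inj_UH1 (r := r) (a := e) (b := l) (c := e') (d := l')
        (by omega) (by omega) (by omega)
       rw [Fin.ext h1, Fin.ext h2])

lemma encN_lt {r np nl : ℕ} (v : Vx r (sOf r np nl) (Fin (np + 1)) (Fin nl)) :
    encN v < kOf r np nl := by
  rcases v with j | i | p | (b | ⟨e, l⟩) | ⟨e, l⟩ <;> simp only [encN, kOf]
  · omega
  · omega
  · omega
  · omega
  · have h1 : (e + 1) * 2 ≤ nl * (r + 2) := Nat.mul_le_mul e.2 (by omega)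
    omega
  · have h1 : (e + 1) * r ≤ nl * (r + 2) := Nat.mul_le_mul e.2 (by omega)
    have h2 : (e + 1) * r = r * e + r := by ring
    omega

lemma src_UH1 (r np : ℕ) (Ls : List Line) (e : Fin Ls.length) (l : Fin 2) :
    (((instOf r np Ls).src e l : Fin (np + 1)) : ℕ) =
      srcN (Ls.getD e (0, 0, 0)) l % (np + 1) := by
  rw [List.getD_eq_getElem _ _ e.2]
  fin_cases l <;> rfl

lemma tgt_UH1 (r np : ℕ) (Ls : List Line) (e : Fin Ls.length) :
    (((instOf r np Ls).tgt e : Fin (np + 1)) : ℕ) =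
      (Ls.getD e (0, 0, 0)).2.2 % (np + 1) := by
  rw [List.getD_eq_getElem _ _ e.2]
  rfl

/-- The list entry of a group. -/
def entry_UH1 (r np : ℕ) (Ls : List Line) (o : ℕ) :
    Gp r (Fin (np + 1)) (Fin Ls.length) → List ℕ × ℕ
  | .Q => ([], 2 * r + 2)
  | .Y i => ([o + 5 * i], 2)
  | .U p => ([o + (5 * p + 1)], 1)
  | .En (Sum.inl b) => ([o + (5 * (b % (np + 1)) + 1), o + (5 * b + 2)], 1)
  | .En (Sum.inr x) => ([o + (5 * (srcN (Ls.getD x.1 (0, 0, 0)) x.2 % (np + 1)) + 1),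
      o + (5 * (2 * x.1 + x.2) + 3)], 1)
  | .W b => ([o + (5 * ((r + b) % (np + 1)) + 1), o + (5 * b + 2)], 1)
  | .L e => ((o + (5 * ((Ls.getD e (0, 0, 0)).2.2 % (np + 1)) + 1)) ::
      ((List.range 2).map (fun l => o + (5 * (2 * e + l) + 3)) ++
        (List.range (r - 2)).map fun l => o + (5 * (r * e + l) + 4)), 2 * r - 2)
  | .T => (allL r np Ls.length o, 2 * r)

lemma mem_iff_UH1 (r np : ℕ) (Ls : List Line) (o : ℕ) (x : List ℕ × ℕ) :
    x ∈ groupsL r np Ls o ↔ ∃ g, entry_UH1 r np Ls o g = x := by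
  simp only [groupsL, List.mem_append, List.mem_singleton, List.mem_map, List.mem_range,
    List.mem_flatMap]
  constructor
  · rintro (((((((rfl | ⟨i, hi, rfl⟩) | ⟨p, hp, rfl⟩) | ⟨b, hb, rfl⟩) | ⟨e, he, l, hl, rfl⟩) |
      ⟨b, hb, rfl⟩) | ⟨e, he, rfl⟩) | rfl)
    · exact ⟨.Q, rfl⟩
    · exact ⟨.Y ⟨i, hi⟩, rfl⟩
    · exact ⟨.U ⟨p, hp⟩, rfl⟩
    · exact ⟨.En (Sum.inl ⟨b, hb⟩), rfl⟩
    · exact ⟨.En (Sum.inr (⟨e, he⟩, ⟨l, hl⟩)), rfl⟩
    · exact ⟨.W ⟨b, hb⟩, rfl⟩
    · exact ⟨.L ⟨e, he⟩, rfl⟩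
    · exact ⟨.T, rfl⟩
  · rintro ⟨(_ | i | p | (b | ⟨e, l⟩) | b | e | _), rfl⟩
    · exact Or.inl (Or.inl (Or.inl (Or.inl (Or.inl (Or.inl (Or.inl rfl))))))
    · exact Or.inl (Or.inl (Or.inl (Or.inl (Or.inl (Or.inl (Or.inr ⟨i, i.2, rfl⟩))))))
    · exact Or.inl (Or.inl (Or.inl (Or.inl (Or.inl (Or.inr ⟨p, p.2, rfl⟩)))))
    · exact Or.inl (Or.inl (Or.inl (Or.inl (Or.inr ⟨b, b.2, rfl⟩))))
    · exact Or.inl (Or.inl (Or.inl (Or.inr ⟨e, e.2, l, l.2, rfl⟩)))
    · exact Or.inl (Or.inl (Or.inr ⟨b, b.2, rfl⟩))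
    · exact Or.inl (Or.inr ⟨e, e.2, rfl⟩)
    · exact Or.inr rfl

lemma entry_spec_UH1 (r np : ℕ) (Ls : List Line) (s : ℕ) (hO : Ok r s (Fin (np + 1)) (Fin Ls.length))
    (g : Gp r (Fin (np + 1)) (Fin Ls.length)) :
    (entry_UH1 r np Ls (s + 1) g).2 = g.M ∧ (entry_UH1 r np Ls (s + 1) g).1.length = g.k s ∧
      ∀ a, a ∈ (entry_UH1 r np Ls (s + 1) g).1 ↔
        ∃ v ∈ NN (instOf (r + r) np Ls) s g, encN v = a := by
  have h8 := hO.hr
  have hs := hO.hs
  rw [Fintype.card_fin, Fintype.card_fin] at hs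
  rcases g with _ | i | p | (b | ⟨e, l⟩) | b | e | _
  · simp [entry_UH1, Gp.M, Gp.k, NN]
  · simp [entry_UH1, Gp.M, Gp.k, NN, encN, eq_comm]
  · simp [entry_UH1, Gp.M, Gp.k, NN, encN, eq_comm]
  · refine ⟨rfl, rfl, fun a => ?_⟩
    simp only [entry_UH1, NN, List.mem_cons, List.not_mem_nil, or_false, mem_insert,
      mem_singleton, exists_eq_or_imp, exists_eq_left, eq_comm (a := a)]
    rfl
  · refine ⟨rfl, rfl, fun a => ?_⟩
    simp only [entry_UH1, NN, List.mem_cons, List.not_mem_nil, or_false, mem_insert,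
      mem_singleton, exists_eq_or_imp, exists_eq_left, eq_comm (a := a), ← src_UH1 (r + r)]
    rfl
  · refine ⟨rfl, rfl, fun a => ?_⟩
    simp only [entry_UH1, NN, List.mem_cons, List.not_mem_nil, or_false, mem_insert,
      mem_singleton, exists_eq_or_imp, exists_eq_left, eq_comm (a := a)]
    rfl
  · refine ⟨rfl, by simp [entry_UH1, Gp.k]; omega, fun a => ?_⟩
    simp only [entry_UH1, NN, List.mem_cons, List.mem_append, List.mem_map, List.mem_range,
      mem_insert, mem_union, mem_ZL, mem_TK, ← tgt_UH1 (r + r)]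
    constructor
    · rintro (rfl | ⟨l, hl, rfl⟩ | ⟨l, hl, rfl⟩)
      · exact ⟨_, Or.inl rfl, rfl⟩
      · exact ⟨_, Or.inr (Or.inl ⟨⟨l, hl⟩, rfl⟩), rfl⟩
      · exact ⟨_, Or.inr (Or.inr ⟨⟨l, hl⟩, rfl⟩), rfl⟩
    · rintro ⟨v, rfl | ⟨l, rfl⟩ | ⟨l, rfl⟩, rfl⟩
      · exact Or.inl rfl
      · exact Or.inr (Or.inl ⟨l, l.2, rfl⟩)
      · exact Or.inr (Or.inr ⟨l, l.2, rfl⟩)
  · refine ⟨rfl, ?_, fun a => ?_⟩
    · obtain ⟨t, rfl⟩ := Nat.exists_eq_add_of_le h8
      simp [entry_UH1, allL, Gp.k, List.length_flatMap]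
      rw [mul_add Ls.length] at hs
      omega
    · simp only [entry_UH1, allL, List.mem_append, List.mem_map, List.mem_range, List.mem_flatMap,
        mem_NN_T]
      constructor
      · rintro ((((⟨i, hi, rfl⟩ | ⟨p, hp, rfl⟩) | ⟨b, hb, rfl⟩) | ⟨e, he, l, hl, rfl⟩) |
          ⟨e, he, l, hl, rfl⟩)
        · exact ⟨.y ⟨i, hi⟩, by simp, rfl⟩
        · exact ⟨.pt ⟨p, hp⟩, by simp, rfl⟩
        · exact ⟨.z (.inl ⟨b, hb⟩), by simp, rfl⟩
        · exact ⟨.z (.inr (⟨e, he⟩, ⟨l, hl⟩)), by simp, rfl⟩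
        · exact ⟨.tk ⟨e, he⟩ ⟨l, hl⟩, by simp, rfl⟩
      · rintro ⟨j | i | p | (b | ⟨e, l⟩) | ⟨e, l⟩, hv, rfl⟩
        · exact absurd rfl (hv j)
        · exact Or.inl (Or.inl (Or.inl (Or.inl ⟨i, i.2, rfl⟩)))
        · exact Or.inl (Or.inl (Or.inl (Or.inr ⟨p, p.2, rfl⟩)))
        · exact Or.inl (Or.inl (Or.inr ⟨b, b.2, rfl⟩))
        · exact Or.inl (Or.inr ⟨e, e.2, l, l.2, rfl⟩)
        · exact Or.inr ⟨e, e.2, l, l.2, rfl⟩

/-- The lists of `groupsL` are the groups. -/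
lemma mem_groupsL (r np : ℕ) (Ls : List Line) (s : ℕ) (hO : Ok r s (Fin (np + 1)) (Fin Ls.length)) :
    (∀ x ∈ groupsL r np Ls (s + 1), ∃ g : Gp r (Fin (np + 1)) (Fin Ls.length),
      x.2 = g.M ∧ x.1.length = g.k s ∧
        ∀ a, a ∈ x.1 ↔ ∃ v ∈ NN (instOf (r + r) np Ls) s g, encN v = a) ∧
    ∀ g : Gp r (Fin (np + 1)) (Fin Ls.length), ∃ x ∈ groupsL r np Ls (s + 1),
      x.2 = g.M ∧ x.1.length = g.k s ∧
        ∀ a, a ∈ x.1 ↔ ∃ v ∈ NN (instOf (r + r) np Ls) s g, encN v = a := by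
  refine ⟨fun x hx => ?_, fun g => ⟨_, (mem_iff_UH1 _ _ _ _ _).2 ⟨g, rfl⟩,
    entry_spec_UH1 r np Ls s hO g⟩⟩
  obtain ⟨g, rfl⟩ := (mem_iff_UH1 _ _ _ _ _).1 hx
  exact ⟨g, entry_spec_UH1 r np Ls s hO g⟩

end Pool.Agent.SemiRandom.Und
end

-- part Pool.Agent.P.MP_c53d0e_pr.UH2
section

set_option autoImplicit false
set_option linter.unusedSectionVars false

namespace Pool.Agent.SemiRandom.Und

open Finset

lemma edge_eq_UH2 {r np : ℕ} {Ls : List Line} {s k : ℕ}
    (enc : Vx r s (Fin (np + 1)) (Fin Ls.length) ↪ Fin k) (henc : ∀ v, (enc v : ℕ) = encN v)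
    (g : Gp r (Fin (np + 1)) (Fin Ls.length)) (i : Fin g.M) (x : List ℕ × ℕ)
    (h2 : x.1.length = g.k s)
    (h3 : ∀ a, a ∈ x.1 ↔ ∃ v ∈ NN (instOf (r + r) np Ls) s g, encN v = a) :
    (univ.filter fun v : Fin k => (v : ℕ) ∈
      (List.range (s + 1 - x.1.length)).filter (fun j => !decide (j = (i : ℕ))) ++ x.1) =
      (ed (instOf (r + r) np Ls) s ⟨g, i⟩).map enc := by
  ext v
  simp only [mem_filter, mem_univ, true_and, List.mem_append, List.mem_filter, List.mem_range,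
    Bool.not_eq_true', decide_eq_false_iff_not, mem_map, ed, mem_union, mem_cp, h2, h3]
  constructor
  · rintro (⟨h, h'⟩ | ⟨u, hu, h⟩)
    · exact ⟨Vx.c ⟨v, by omega⟩, Or.inl ⟨_, rfl, h, h'⟩, Fin.ext (henc _)⟩
    · exact ⟨u, Or.inr hu, Fin.ext ((henc _).trans h)⟩
  · rintro ⟨u, ⟨j, rfl, h, h'⟩ | hu, rfl⟩
    · left
      rw [henc]
      exact ⟨h, h'⟩
    · exact Or.inr ⟨u, hu, (henc u).symm⟩

theorem graphOf_edgeL {r : ℕ} (hr : 2 ≤ r) (np : ℕ) (Ls : List Line) :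
    ∃ enc : Vx r (sOf r np Ls.length) (Fin (np + 1)) (Fin Ls.length) ↪ Fin (kOf r np Ls.length),
      graphOf (kOf r np Ls.length) (edgeL r np Ls) =
        univ.image fun e => (ed (instOf (r + r) np Ls) (sOf r np Ls.length) e).map enc := by
  let enc : Vx r (sOf r np Ls.length) (Fin (np + 1)) (Fin Ls.length) ↪ Fin (kOf r np Ls.length) :=
    ⟨fun v => ⟨encN v, encN_lt v⟩, fun v v' h => encN_inj (congrArg Fin.val h)⟩
  refine ⟨enc, ?_⟩
  obtain ⟨H1, H2⟩ := mem_groupsL r np Ls _ (ok_sOf hr np Ls.length)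
  ext e
  simp only [graphOf, edgeL, List.mem_toFinset, List.mem_map, List.mem_flatMap, List.mem_range,
    mem_image, mem_univ, true_and]
  constructor
  · rintro ⟨_, ⟨x, hx, i, hi, rfl⟩, rfl⟩
    obtain ⟨g, h1, h2, h3⟩ := H1 x hx
    exact ⟨⟨g, ⟨i, h1 ▸ hi⟩⟩, (edge_eq_UH2 enc (fun _ => rfl) g ⟨i, h1 ▸ hi⟩ x h2 h3).symm⟩
  · rintro ⟨⟨g, i⟩, rfl⟩
    obtain ⟨x, hx, h1, h2, h3⟩ := H2 g
    exact ⟨_, ⟨x, hx, i, i.2.trans_eq h1.symm, rfl⟩, edge_eq_UH2 enc (fun _ => rfl) g i x h2 h3⟩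

end Pool.Agent.SemiRandom.Und
end

-- part Pool.Agent.P.MP_c53d0e_pr.UZ
section

set_option autoImplicit false
set_option linter.unusedSectionVars false

namespace Pool.Agent.SemiRandom.Und

open Finset

open Filter Topology

theorem tau_inst {r : ℕ} (hr : 2 ≤ r) (np : ℕ) (Ls : List Line)
    (hnp : r + r ≤ np + 1) :
    (∀ e ∈ graphOf (kOf r np Ls.length) (edgeL r np Ls), e.card = sOf r np Ls.length) ∧
    ((instOf (r + r) np Ls).Yes → tau (graphOf (kOf r np Ls.length) (edgeL r np Ls)) r (sOf r np Ls.length) ≤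
      ((r - 1 / 2 : ℝ) : EReal)) ∧
    ((instOf (r + r) np Ls).No → ¬ tau (graphOf (kOf r np Ls.length) (edgeL r np Ls)) r
      (sOf r np Ls.length) ≤ ((r - 1 / 2 : ℝ) : EReal)) := by
  obtain ⟨enc, henc⟩ := graphOf_edgeL hr np Ls
  have hO := ok_sOf hr np Ls.length
  rw [henc]
  have hw : ∀ n, kOf r np Ls.length ≤ n →
      ∀ (S : Strategy (RSet n r) (Move n r (sOf r np Ls.length))) (T : ℕ),
      winProb (univ.image fun e => (ed (instOf (r + r) np Ls) (sOf r np Ls.length) e).map enc) S T =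
        Pr S T (ContainsV (ed (instOf (r + r) np Ls) (sOf r np Ls.length))) := by
    intro n hn S T
    rw [winProb_eq]
    congr 1
    funext h
    exact propext (contains_iff _ enc hn h)
  refine ⟨fun e he => ?_, fun hY => ?_, fun hN => ?_⟩
  · obtain ⟨d, -, rfl⟩ := mem_image.1 he
    rw [card_map, card_ed hO]
  · refine EReal.le_of_forall_lt_iff_le.1 fun x hx => ?_
    have hx' : (r - 1 / 2 : ℝ) < x := EReal.coe_lt_coe_iff.1 hx
    refine tau_le _ _ _ x fun q hq => ?_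
    obtain ⟨c, hc, H⟩ := yes_win hO _ hY (θ := x - (r - 1 / 2)) (by linarith) q hq
    refine ⟨c, hc, ?_⟩
    filter_upwards [H, eventually_ge_atTop (kOf r np Ls.length)] with n ⟨S, T, h1, h2⟩ hn
    refine ⟨S, T, by rwa [hw n hn], ?_⟩
    rwa [show (r : ℝ) - 1 / 2 + (x - (r - 1 / 2)) = x by ring] at h2
  · obtain ⟨δ, hδ, H⟩ := no_lose hO _ (bas_inj hnp Ls) hN
    have := tau_ge (univ.image fun e => (ed (instOf (r + r) np Ls) (sOf r np Ls.length) e).map enc) r
      (sOf r np Ls.length) (δ := δ) (δ' := (δ + 1 / 2) / 2) (by linarith) fun q hq => by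
        filter_upwards [H q hq, eventually_ge_atTop (kOf r np Ls.length)] with n h1 hn S T hT
        rw [hw n hn]
        exact h1 S T hT
    intro h
    have h2 := EReal.coe_le_coe_iff.1 (this.trans h)
    linarith

theorem undecidable (r : ℕ) (hr : 2 ≤ r) :
    ¬ ∃ f : ℕ × ℕ × List (List ℕ) → Bool, Computable f ∧ ∀ (k s : ℕ) (L : List (List ℕ)), r < s →
      (∀ e ∈ graphOf k L, e.card = s) →
      (f (k, s, L) = true ↔ tau (graphOf k L) r s ≤ ((r - 1 / 2 : ℝ) : EReal)) := by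
  rintro ⟨f, hf, H⟩
  let p : ℕ → Prop := fun n => (Nat.Partrec.Code.eval (Denumerable.ofNat _ n) 0).Dom
  have hp : REPred p := (ComputablePred.halting_problem_re 0).comp (Computable.ofNat _)
  obtain ⟨g0, R0, S0, y, a, b, x, hprs⟩ := exists_prs hp
  let π := prsOf g0 R0 S0 y a b x
  let red : ℕ → ℕ × ℕ × List (List ℕ) := fun n =>
    (kOf r (npts (r + r) (π n)) (lines (r + r) (π n)).length, sOf r (npts (r + r) (π n)) (lines (r + r) (π n)).length,
      edgeL r (npts (r + r) (π n)) (lines (r + r) (π n)))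
  have hred : Primrec red := (primrec_graph r).comp
    (((primrec_npts (r + r)).comp (primrec_prsOf g0 R0 S0 y a b x)).pair
      ((primrec_lines (r + r)).comp (primrec_prsOf g0 R0 S0 y a b x)))
  have key : ∀ n, p n ↔ (!f (red n)) = true := by
    intro n
    obtain ⟨hW, hN, hY⟩ := hprs n
    obtain ⟨h1, h2, h3⟩ := tau_inst hr (npts (r + r) (π n)) (lines (r + r) (π n)) le_npts
    have h4 := H _ _ _ (ok_sOf hr (npts (r + r) (π n)) (lines (r + r) (π n)).length).lt h1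
    rw [Bool.not_eq_true', ← Bool.not_eq_true]
    constructor
    · exact fun h h' => h3 (no_of_N (by omega) hW (hN h)) (h4.1 h')
    · intro h
      by_contra hn
      exact h (h4.2 (h2 (yes_of_Y (by omega) hW (hY hn))))
  refine ComputablePred.halting_problem 0 (ComputablePred.computable_iff.2
    ⟨fun c => !f (red (Encodable.encode c)), ?_, ?_⟩)
  · exact Primrec.not.to_comp.comp (hf.comp (hred.to_comp.comp Computable.encode))
  · funext c
    rw [← key]
    simp [p]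

end Pool.Agent.SemiRandom.Und
end

-- part Pool.Agent.P.MP_c53d0e_pr.WZ
section

set_option autoImplicit false
set_option linter.unusedSectionVars false

namespace Pool.Agent.SemiRandom.Fix

open Finset Und

open Filter Topology

theorem tau_dat {r s : ℕ} [NeZero r] (hO : Ok r s) (np : ℕ) (Ls : List Line)
    (hG : (datOf r np Ls).Good) :
    ((graphOf (kF r s np Ls.length) (edgeF r s np Ls)).Nonempty ∧
      ∀ e ∈ graphOf (kF r s np Ls.length) (edgeF r s np Ls), e.card = s) ∧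
    ((instOf 4 np Ls).Yes →
      tau (graphOf (kF r s np Ls.length) (edgeF r s np Ls)) r s ≤ ((r - de r : ℝ) : EReal)) ∧
    ((instOf 4 np Ls).No →
      ¬ tau (graphOf (kF r s np Ls.length) (edgeF r s np Ls)) r s ≤ ((r - de r : ℝ) : EReal)) := by
  obtain ⟨enc, henc⟩ := graphOf_edgeF hO np Ls
  rw [henc]
  have hw : ∀ n, kF r s np Ls.length ≤ n → ∀ (S : Strategy (RSet n r) (Move n r s)) (T : ℕ),
      winProb (univ.image fun e => (ed (datOf r np Ls) s e).map enc) S T =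
        Pr S T (ContainsV (ed (datOf r np Ls) s)) := by
    intro n hn S T
    rw [winProb_eq]
    congr 1
    funext h
    exact propext (contains_iff _ enc hn h)
  refine ⟨⟨⟨_, mem_image_of_mem _ (mem_univ (eF (.E 0)))⟩, fun e he => ?_⟩, fun hY => ?_,
    fun hN => ?_⟩
  · obtain ⟨d, -, rfl⟩ := mem_image.1 he
    rw [card_map, card_ed hO]
  · refine EReal.le_of_forall_lt_iff_le.1 fun x hx => ?_
    have hx' : (r - de r : ℝ) < x := EReal.coe_lt_coe_iff.1 hx
    refine tau_le _ _ _ x fun q hq => ?_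
    obtain ⟨c, hc, H⟩ := yes_win hO (datOf r np Ls) hY (θ := x - (r - de r)) (by linarith) q hq
    refine ⟨c, hc, ?_⟩
    filter_upwards [H, eventually_ge_atTop (kF r s np Ls.length)] with n ⟨S, T, h1, h2⟩ hn
    refine ⟨S, T, by rwa [hw n hn], ?_⟩
    rwa [show (r : ℝ) - de r + (x - (r - de r)) = x by ring] at h2
  · obtain ⟨δ, hδ, H⟩ := no_lose hO (datOf r np Ls) hG hN
    have := tau_ge (univ.image fun e => (ed (datOf r np Ls) s e).map enc) r s (δ := δ)
      (δ' := (δ + de r) / 2) (by linarith) fun q hq => by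
        filter_upwards [H q hq, eventually_ge_atTop (kF r s np Ls.length)] with n h1 hn S T hT
        rw [hw n hn]
        exact h1 S T hT
    intro h
    have h2 := EReal.coe_le_coe_iff.1 (this.trans h)
    linarith

theorem not_re_fixed (r s : ℕ) (hr : 2 ≤ r) (hs : r < s) :
    ¬ ∃ f : ℕ × List (List ℕ) → Prop, REPred f ∧ ∀ (k : ℕ) (L : List (List ℕ)),
      (graphOf k L).Nonempty → (∀ e ∈ graphOf k L, e.card = s) →
      (f (k, L) ↔ tau (graphOf k L) r s ≤ ((r - de r : ℝ) : EReal)) := by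
  rintro ⟨f, hf, H⟩
  have : NeZero r := ⟨by omega⟩
  have hO : Ok r s := ⟨hr, hs⟩
  let p : ℕ → Prop := fun n => (Nat.Partrec.Code.eval (Denumerable.ofNat _ n) 0).Dom
  have hp : REPred p := (ComputablePred.halting_problem_re 0).comp (Computable.ofNat _)
  obtain ⟨g0, R0, S0, y, a, b, x, hprs⟩ := exists_prs hp
  let π := prsOf g0 R0 S0 y a b x
  let red : ℕ → ℕ × List (List ℕ) := fun n =>
    (kF r s (npts 4 (π n)) (lines 4 (π n)).length, edgeF r s (npts 4 (π n)) (lines 4 (π n)))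
  have hred : Primrec red := (primrec_graphF r s).comp
    (((primrec_npts 4).comp (primrec_prsOf g0 R0 S0 y a b x)).pair
      ((primrec_lines 4).comp (primrec_prsOf g0 R0 S0 y a b x)))
  have key : ∀ n, f (red n) ↔ ¬ p n := by
    intro n
    obtain ⟨hW, hN, hY⟩ := hprs n
    obtain ⟨h1, h2, h3⟩ := tau_dat hO (npts 4 (π n)) (lines 4 (π n)) (good_datOf r hW)
    have h4 := H _ _ h1.1 h1.2
    exact ⟨fun h' h => h3 (no_of_N le_rfl hW (hN h)) (h4.1 h'),
      fun hn => h4.2 (h2 (yes_of_Y le_rfl hW (hY hn)))⟩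
  have h5 : REPred fun c : Nat.Partrec.Code => f (red (Encodable.encode c)) :=
    hf.comp (hred.to_comp.comp Computable.encode)
  refine ComputablePred.halting_problem_not_re 0 (h5.of_eq fun c => ?_)
  rw [key]
  simp [p]

theorem undecidable_fixed (r s : ℕ) (hr : 2 ≤ r) (hs : r < s) :
    ¬ ∃ f : ℕ × List (List ℕ) → Bool, Computable f ∧ ∀ (k : ℕ) (L : List (List ℕ)),
      (graphOf k L).Nonempty → (∀ e ∈ graphOf k L, e.card = s) →
      (f (k, L) = true ↔ tau (graphOf k L) r s ≤ ((r - de r : ℝ) : EReal)) :=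
  fun ⟨f, hf, H⟩ => not_re_fixed r s hr hs ⟨fun x => f x = true,
    (ComputablePred.computable_iff.2 ⟨f, hf, rfl⟩).to_re, H⟩

lemma de_eq (r : ℕ) : de r = 8 * r / (240 * r * (r + 1) + 1) := by
  unfold de hh qq al
  push_cast
  rw [mul_one_div]
  congr 1
  ring

theorem no_formula (r s : ℕ) (hr : 2 ≤ r) (hs : r < s) :
    ¬ ∃ g : ℕ × List (List ℕ) → ℕ × ℕ, Computable g ∧ ∀ (k : ℕ) (L : List (List ℕ)),
      (graphOf k L).Nonempty → (∀ e ∈ graphOf k L, e.card = s) →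
      tau (graphOf k L) r s = ((((g (k, L)).1 : ℝ) / ((g (k, L)).2 : ℝ) : ℝ) : EReal) := by
  rintro ⟨g, hg, H⟩
  have hp : PrimrecPred fun y : ℕ × ℕ => y.2 = 0 ∨ y.1 * qq r + y.2 * (8 * r) ≤ y.2 * (r * qq r) :=
    (Primrec.eq.comp Primrec.snd (Primrec.const 0)).or (Primrec.nat_le.comp
      (Primrec.nat_add.comp (Primrec.nat_mul.comp Primrec.fst (Primrec.const _))
        (Primrec.nat_mul.comp Primrec.snd (Primrec.const _)))
      (Primrec.nat_mul.comp Primrec.snd (Primrec.const _)))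
  refine undecidable_fixed r s hr hs ⟨fun x => decide ((g x).2 = 0 ∨
    (g x).1 * qq r + (g x).2 * (8 * r) ≤ (g x).2 * (r * qq r)), hp.decide.to_comp.comp hg,
    fun k L h1 h2 => ?_⟩
  rw [H k L h1 h2, EReal.coe_le_coe_iff, decide_eq_true_iff]
  generalize (g (k, L)).1 = a
  generalize (g (k, L)).2 = b
  have q8 : 8 ≤ qq r := by
    have : 1 * 8 ≤ al r * (8 * r) := Nat.mul_le_mul (by unfold al; omega) (by omega)
    unfold qq
    omega
  have q0 : (8 : ℝ) ≤ qq r := by exact_mod_cast q8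
  have e : (r : ℝ) - de r = (r * qq r - 8 * r) / qq r := by
    rw [de, hh]
    field_simp
  have r0 : (0 : ℝ) ≤ r := Nat.cast_nonneg r
  rw [e]
  rcases Nat.eq_zero_or_pos b with rfl | hb
  · simp only [true_or, Nat.cast_zero, div_zero, true_iff]
    exact div_nonneg (by nlinarith) (by linarith)
  · have b0 : (0 : ℝ) < b := by exact_mod_cast hb
    rw [div_le_div_iff₀ b0 (by linarith), or_iff_right hb.ne', ← Nat.cast_le (α := ℝ)]
    push_cast
    constructor <;> intro h <;> linarith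

end Pool.Agent.SemiRandom.Fix
end
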