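import Pool.Agent.K.MP_c53d0e_pr.C2
import Pool.Agent.K.MP_c53d0e_pr.C1

-- part Pool.Agent.P.MP_c53d0e_pr.UC0
section

set_option autoImplicit false
set_option linter.unusedSectionVars false

namespace Pool.Agent.SemiRandom.Und

open Finset

section generic
variable {V E : Type} [DecidableEq V]

/-- A pattern: distinct edges with random parts, latest first. -/
def Valid (ed : E → Finset V) (r : ℕ) (l : List (E × Finset V)) : Prop :=
  (l.map Prod.fst).Nodup ∧ ∀ p ∈ l, p.2 ⊆ ed p.1 ∧ p.2.card = r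

lemma Valid.tail {ed : E → Finset V} {r : ℕ} {p : E × Finset V} {l : List (E × Finset V)}
    (h : Valid ed r (p :: l)) : Valid ed r l :=
  ⟨(List.nodup_cons.1 h.1).2, fun q hq => h.2 q (List.mem_cons_of_mem _ hq)⟩

lemma Valid.right {ed : E → Finset V} {r : ℕ} {qs l : List (E × Finset V)}
    (h : Valid ed r (qs ++ l)) : Valid ed r l := by
  induction qs with
  | nil => exact h
  | cons q qs ih => exact ih h.tail

lemma Valid.notMem {ed : E → Finset V} {r : ℕ} {p : E × Finset V} {l : List (E × Finset V)}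
    (h : Valid ed r (p :: l)) : p.1 ∉ l.map Prod.fst := (List.nodup_cons.1 h.1).1

/-- The counting calculus; `ν l A B` bounds the exponent of the number of values of `B` given
`A` after the edges of `l`. -/
structure Calc (ed : E → Finset V) (r : ℕ) (δ ε : ℝ)
    (ν : List (E × Finset V) → Finset V → Finset V → ℝ) : Prop where
  nonneg : ∀ l A B, 0 ≤ ν l A B
  cap : ∀ l A B, ν l A B ≤ (B \ A).card
  time : ∀ p l A B, ν (p :: l) A B ≤ ν l A B
  mono : ∀ l A A' B B', A' ⊆ A → B ⊆ A ∪ B' → ν l A B ≤ ν l A' B'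
  chain : ∀ l A B B', ν l A (B ∪ B') ≤ ν l A B + ν l (A ∪ B) B'
  step : ∀ p l A B, Valid ed r (p :: l) →
    ν (p :: l) A (B ∪ ed p.1) ≤ ε + max (ν l A (B ∪ p.2) - δ) (ν l (A ∪ ed p.1) B)

open Classical in
/-- Number of played edges with property `F`. -/
noncomputable def cn (F : E → Prop) (l : List (E × Finset V)) : ℕ := l.countP fun p => F p.1

@[simp] lemma cn_nil (F : E → Prop) : cn F ([] : List (E × Finset V)) = 0 := rfl

lemma cn_cons_pos {F : E → Prop} {p : E × Finset V} (l : List (E × Finset V)) (h : F p.1) :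
    cn F (p :: l) = cn F l + 1 := by simp [cn, h]

lemma cn_cons_neg {F : E → Prop} {p : E × Finset V} (l : List (E × Finset V)) (h : ¬ F p.1) :
    cn F (p :: l) = cn F l := by simp [cn, h]

lemma cn_append (F : E → Prop) (l l' : List (E × Finset V)) :
    cn F (l ++ l') = cn F l + cn F l' := by simp [cn]

lemma one_le_cn {F : E → Prop} {l : List (E × Finset V)} : 1 ≤ cn F l ↔ ∃ p ∈ l, F p.1 := by
  simp [cn, Nat.one_le_iff_ne_zero, List.countP_eq_zero]

end generic

structure Par (δ ε ζ : ℝ) : Prop where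
  e0 : 0 ≤ ε
  e1 : ε ≤ ζ
  d0 : 1 / 2 - ζ ≤ δ
  d1 : δ ≤ 1 / 2
  z1 : ζ ≤ 1 / 20

variable {r : ℕ} {P Ln : Type} [Fintype P] [DecidableEq P] [Fintype Ln] [DecidableEq Ln]

/-- Number of played edges of group `g`. -/
noncomputable def cg {V : Type} (g : Gp r P Ln) (l : List (Ed r P Ln × Finset V)) : ℕ :=
  cn (fun e : Ed r P Ln => e.1 = g) l

/-- Number of played edges among the constant and `y` groups. -/
noncomputable def cq {V : Type} (l : List (Ed r P Ln × Finset V)) : ℕ :=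
  cn (fun e : Ed r P Ln => e.1.isQp) l

/-- The static rule. -/
def Stat (I : Inst (r + r) P Ln) (s : ℕ) (η : ℝ)
    (ν : List (Ed r P Ln × Finset (Vx r s P Ln)) → Finset (Vx r s P Ln) → Finset (Vx r s P Ln) → ℝ) :
    Prop :=
  ∀ l A (x y : ℝ), 0 ≤ x → 0 ≤ y → (∀ p, ν l A {Vx.pt p} ≤ x) →
    (∀ e, ν l (A ∪ SRC I e) {Vx.pt (I.tgt e)} ≤ y) →
    ν l A PP ≤ Fintype.card Ln * y + (2 * r - η) * x

end Pool.Agent.SemiRandom.Und
end

-- part Pool.Agent.P.MP_c53d0e_pr.WG0
section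

set_option autoImplicit false
set_option linter.unusedSectionVars false

namespace Pool.Agent.SemiRandom.Fix

open Finset Und

variable {V E : Type} [Fintype V] [DecidableEq V] [Fintype E] [DecidableEq E] {r : ℕ}
  {ed : E → Finset V} {δ ζ : ℝ}

/-- The edges of a pattern. -/
def pl (l : List (E × Finset V)) : Finset E := (l.map Prod.fst).toFinset

lemma mem_pl {l : List (E × Finset V)} {e : E} : e ∈ pl l ↔ ∃ p ∈ l, p.1 = e := by
  simp only [pl, List.mem_toFinset, List.mem_map]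

@[simp] lemma pl_nil : pl ([] : List (E × Finset V)) = ∅ := rfl

@[simp] lemma pl_cons (p : E × Finset V) (l : List (E × Finset V)) :
    pl (p :: l) = insert p.1 (pl l) := by simp [pl]

@[simp] lemma pl_append (l l' : List (E × Finset V)) : pl (l ++ l') = pl l ∪ pl l' := by
  simp [pl]

lemma pl_mono {l l' : List (E × Finset V)} (h : l <:+ l') : pl l ⊆ pl l' := by
  obtain ⟨t, rfl⟩ := h
  rw [pl_append]
  exact subset_union_right

lemma notMem_pl {p : E × Finset V} {l : List (E × Finset V)} (h : Valid ed r (p :: l)) :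
    p.1 ∉ pl l := fun h' => h.notMem (List.mem_toFinset.1 h')

/-- A complete play without bottleneck. -/
structure Play (ed : E → Finset V) (r : ℕ) (δ ζ : ℝ) where
  ν : List (E × Finset V) → Finset V → Finset V → ℝ
  ps : List (E × Finset V)
  key : E → Finset V
  z0 : 0 < ζ
  zd : ζ ≤ δ
  cal : Calc ed r (δ - ζ) ζ ν
  valid : Valid ed r ps
  full : ∀ e, e ∈ pl ps
  hkey : ∀ p ∈ ps, p.2 = key p.1
  nb : ∀ l W, l <:+ ps → (δ - ζ) * (#{e | e ∉ pl l ∧ key e ⊆ W} : ℕ) - ζ < ν l ∅ W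

/-- The error unit. -/
def er (E : Type) [Fintype E] (ζ : ℝ) : ℝ := ζ * (Fintype.card E + 1)

namespace Play
variable (G : Play ed r δ ζ)

include G in
lemma er_pos : 0 < er E ζ := mul_pos G.z0 (by positivity)

include G in
lemma le_er : ζ ≤ er E ζ := le_mul_of_one_le_right G.z0.le (by
  have : (0 : ℝ) ≤ Fintype.card E := Nat.cast_nonneg _
  linarith)

lemma suf_valid {l : List (E × Finset V)} (h : l <:+ G.ps) : Valid ed r l := by
  obtain ⟨t, ht⟩ := h
  exact Valid.right (qs := t) (ht ▸ G.valid)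

lemma mem_ps (e : E) : (e, G.key e) ∈ G.ps := by
  obtain ⟨p, hp, rfl⟩ := mem_pl.1 (G.full e)
  rw [← G.hkey p hp]
  exact hp

lemma key_sub (e : E) : G.key e ⊆ ed e := (G.valid.2 _ (G.mem_ps e)).1

lemma key_card (e : E) : (G.key e).card = r := (G.valid.2 _ (G.mem_ps e)).2

/-- The time just before the edge `e`. -/
lemma before (e : E) : ∃ l, (e, G.key e) :: l <:+ G.ps ∧ l <:+ G.ps ∧ e ∉ pl l := by
  obtain ⟨t, l, h⟩ := List.append_of_mem (G.mem_ps e)
  have h1 : (e, G.key e) :: l <:+ G.ps := ⟨t, h.symm⟩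
  exact ⟨l, h1, (List.suffix_cons _ _).trans h1, notMem_pl (G.suf_valid h1)⟩

lemma length_le {l : List (E × Finset V)} (h : l <:+ G.ps) : ζ * l.length ≤ er E ζ := by
  have h1 : l.length ≤ Fintype.card E := by
    simpa only [List.length_map] using (G.suf_valid h).1.length_le_card
  have h2 : (l.length : ℝ) ≤ Fintype.card E + 1 := by
    have : (l.length : ℝ) ≤ Fintype.card E := by exact_mod_cast h1
    linarith
  exact mul_le_mul_of_nonneg_left h2 G.z0.le

end Play

/-- The static rule for points `pt p`. -/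
def StatG {K : ℕ} {P Ln : Type} [Fintype P] [Fintype Ln] (I : Inst K P Ln) (pt : P → V) (η : ℝ)
    (ν : List (E × Finset V) → Finset V → Finset V → ℝ) : Prop :=
  ∀ l A (x y : ℝ), 0 ≤ x → 0 ≤ y → (∀ p, ν l A {pt p} ≤ x) →
    (∀ e, ν l (A ∪ univ.image fun i => pt (I.src e i)) {pt (I.tgt e)} ≤ y) →
    ν l A (univ.image pt) ≤ Fintype.card Ln * y + (K - η) * x

end Pool.Agent.SemiRandom.Fix
end

-- part Pool.Agent.P.MP_c53d0e_pr.UC1
section

set_option autoImplicit false
set_option linter.unusedSectionVars false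

namespace Pool.Agent.SemiRandom.Und

open Finset

section generic
variable {V E : Type} [DecidableEq V] {ed : E → Finset V} {r : ℕ} {δ ε : ℝ}
  {ν : List (E × Finset V) → Finset V → Finset V → ℝ}

lemma Calc.time_append (H : Calc ed r δ ε ν) (qs l : List (E × Finset V)) (A B : Finset V) :
    ν (qs ++ l) A B ≤ ν l A B := by
  induction qs with
  | nil => exact le_rfl
  | cons q qs ih => exact (H.time q (qs ++ l) A B).trans ih

lemma Calc.empty_le_UC1 (H : Calc ed r δ ε ν) (l : List (E × Finset V)) (A : Finset V) :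
    ν l A ∅ ≤ 0 := by
  have h := H.cap l A ∅
  simpa using h

lemma Calc.subadd (H : Calc ed r δ ε ν) {ι : Type} (I : Finset ι) (l : List (E × Finset V))
    (A : Finset V) (B : ι → Finset V) : ν l A (I.biUnion B) ≤ ∑ i ∈ I, ν l A (B i) := by
  classical
  induction I using Finset.induction_on with
  | empty => simpa using H.empty_le_UC1 l A
  | insert i I hi ih =>
    rw [Finset.biUnion_insert, Finset.sum_insert hi]
    have h1 := H.chain l A (B i) (I.biUnion B)
    have h2 := H.mono l (A ∪ B i) A (I.biUnion B) (I.biUnion B) Finset.subset_union_left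
      Finset.subset_union_right
    linarith

lemma Calc.sub_le (H : Calc ed r δ ε ν) (l : List (E × Finset V)) (A B : Finset V) :
    ν l A B ≤ ∑ v ∈ B, ν l A {v} := by
  have h := H.subadd B l A (fun v => {v})
  rwa [Finset.biUnion_singleton_eq_self] at h

lemma Calc.stepU_UC1 (H : Calc ed r δ ε ν) (A B : Finset V) (p : E × Finset V)
    (l : List (E × Finset V)) (hl : Valid ed r (p :: l)) (hB : B ⊆ ed p.1) :
    ν (p :: l) A B ≤ ε + max (ν l A p.2 - δ) 0 := by
  have h1 := H.step p l A ∅ hl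
  have h2 := H.mono (p :: l) A A B (∅ ∪ ed p.1) le_rfl (by
    intro v hv
    simp only [Finset.empty_union, Finset.mem_union]
    exact Or.inr (hB hv))
  have h3 := H.empty_le_UC1 l (A ∪ ed p.1)
  rw [Finset.empty_union p.2] at h1
  have h4 : max (ν l A p.2 - δ) (ν l (A ∪ ed p.1) ∅) ≤ max (ν l A p.2 - δ) 0 :=
    max_le_max le_rfl h3
  linarith

lemma Calc.lem_aux_UC1 (hδ : 0 ≤ δ) (hε : 0 ≤ ε) (x X : ℝ) (c : ℕ)
    (h : x ≤ max 0 (X - δ * c) + ε * c) :
    ε + max (x - δ) 0 ≤ max 0 (X - δ * ((c + 1 : ℕ) : ℝ)) + ε * ((c + 1 : ℕ) : ℝ) := by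
  have hc : 0 ≤ ε * c := by positivity
  push_cast
  have h0 : (0 : ℝ) ≤ max 0 (X - δ * (c + 1)) := le_max_left _ _
  have h1 : X - δ * (c + 1) ≤ max 0 (X - δ * (c + 1)) := le_max_right _ _
  have h2 : max (x - δ) 0 ≤ max 0 (X - δ * (c + 1)) + ε * c := by
    apply max_le
    · rcases le_total 0 (X - δ * c) with h3 | h3
      · rw [max_eq_right h3] at h; linarith
      · rw [max_eq_left h3] at h; linarith
    · linarith
  linarith

lemma Calc.lemU (H : Calc ed r δ ε ν) (hδ : 0 ≤ δ) (hε : 0 ≤ ε) (F : E → Prop) (A B : Finset V)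
    (hF : ∀ e, F e → B ⊆ ed e ∧ ed e ⊆ A ∪ B) (l : List (E × Finset V)) (hl : Valid ed r l) :
    ν l A B ≤ max 0 (((B \ A).card : ℝ) - δ * cn F l) + ε * cn F l := by
  induction l with
  | nil =>
    have h := H.cap [] A B
    have h1 : ((B \ A).card : ℝ) ≤ max 0 ((B \ A).card : ℝ) := le_max_right _ _
    simpa using h.trans h1
  | cons p l ih =>
    have ih' := ih hl.tail
    by_cases hp : F p.1
    · rw [cn_cons_pos l hp]
      have h1 := H.stepU_UC1 A B p l hl (hF _ hp).1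
      have h2 : ν l A p.2 ≤ ν l A B :=
        H.mono l A A p.2 B le_rfl ((hl.2 p List.mem_cons_self).1.trans (hF _ hp).2)
      exact h1.trans (Calc.lem_aux_UC1 hδ hε _ _ _ (h2.trans ih'))
    · rw [cn_cons_neg l hp]
      exact (H.time p l A B).trans ih'

lemma Calc.lemU' (H : Calc ed r δ ε ν) (hδ : 0 ≤ δ) (hε : 0 ≤ ε) (F : E → Prop) (A B : Finset V)
    (hF : ∀ e, F e → B ⊆ ed e ∧ ed e ⊆ A ∪ B) (l : List (E × Finset V)) (hl : Valid ed r l)
    (h1 : 1 ≤ cn F l) : ν l A B ≤ max 0 ((r : ℝ) - δ * cn F l) + ε * cn F l := by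
  induction l with
  | nil => simp at h1
  | cons p l ih =>
    by_cases hp : F p.1
    · rw [cn_cons_pos l hp]
      have h2 := H.stepU_UC1 A B p l hl (hF _ hp).1
      refine h2.trans (Calc.lem_aux_UC1 hδ hε _ _ _ ?_)
      rcases Nat.eq_zero_or_pos (cn F l) with h0 | h0
      · rw [h0]
        have h3 := H.cap l A p.2
        have h4 : (p.2 \ A).card ≤ r := by
          rw [← (hl.2 p List.mem_cons_self).2]
          exact Finset.card_le_card Finset.sdiff_subset
        have h5 : ((p.2 \ A).card : ℝ) ≤ r := by exact_mod_cast h4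
        have h6 : (r : ℝ) ≤ max 0 (r : ℝ) := le_max_right _ _
        simpa using (h3.trans h5).trans h6
      · have h3 : ν l A p.2 ≤ ν l A B :=
          H.mono l A A p.2 B le_rfl ((hl.2 p List.mem_cons_self).1.trans (hF _ hp).2)
        exact h3.trans (ih hl.tail h0)
    · rw [cn_cons_neg l hp] at h1 ⊢
      exact (H.time p l A B).trans (ih hl.tail h1)

lemma Calc.played_le (H : Calc ed r δ ε ν) (hδ : 0 ≤ δ) (hε : 0 ≤ ε) (l : List (E × Finset V))
    (hl : Valid ed r l) (p : E × Finset V) (hp : p ∈ l) (A : Finset V) :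
    ν l A (ed p.1) ≤ r + ε := by
  induction l with
  | nil => simp at hp
  | cons q l ih =>
    rcases List.mem_cons.1 hp with rfl | hp'
    · have h2 := H.stepU_UC1 A (ed p.1) p l hl le_rfl
      have h3 := H.cap l A p.2
      have h4 : (p.2 \ A).card ≤ r := by
        rw [← (hl.2 p List.mem_cons_self).2]
        exact Finset.card_le_card Finset.sdiff_subset
      have h5 : ((p.2 \ A).card : ℝ) ≤ r := by exact_mod_cast h4
      have h6 : (0 : ℝ) ≤ r := Nat.cast_nonneg r
      have h7 : max (ν l A p.2 - δ) 0 ≤ r := max_le (by linarith) h6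
      linarith
    · exact (H.time q l A _).trans (ih hl.tail hp')

lemma cn_eq_card [Fintype E] [DecidableEq E] (F : E → Prop) [DecidablePred F]
    {l : List (E × Finset V)} (hl : (l.map Prod.fst).Nodup) :
    cn F l = #{e | F e ∧ e ∈ l.map Prod.fst} := by
  induction l with
  | nil => simp
  | cons p l ih =>
    have hn : p.1 ∉ l.map Prod.fst := (List.nodup_cons.1 hl).1
    have ih' := ih (List.nodup_cons.1 hl).2
    by_cases hp : F p.1
    · rw [cn_cons_pos l hp, ih']
      have : (univ.filter fun e => F e ∧ e ∈ (p :: l).map Prod.fst)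
          = insert p.1 (univ.filter fun e => F e ∧ e ∈ l.map Prod.fst) := by
        ext e
        simp only [List.map_cons, List.mem_cons, mem_filter, mem_univ, true_and, mem_insert]
        constructor
        · rintro ⟨h1, h2 | h2⟩
          · exact Or.inl h2
          · exact Or.inr ⟨h1, h2⟩
        · rintro (h1 | ⟨h1, h2⟩)
          · exact ⟨h1 ▸ hp, Or.inl h1⟩
          · exact ⟨h1, Or.inr h2⟩
      rw [this, card_insert_of_notMem]
      simp only [mem_filter, mem_univ, true_and, not_and]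
      exact fun _ => hn
    · rw [cn_cons_neg l hp, ih']
      congr 1
      ext e
      simp only [List.map_cons, List.mem_cons, mem_filter, mem_univ, true_and]
      constructor
      · rintro ⟨h1, h2⟩
        exact ⟨h1, Or.inr h2⟩
      · rintro ⟨h1, h2 | h2⟩
        · exact absurd (h2 ▸ h1) hp
        · exact ⟨h1, h2⟩

end generic

variable {r : ℕ} {P Ln V : Type} [Fintype P] [DecidableEq P] [Fintype Ln] [DecidableEq Ln]
  [DecidableEq V]

lemma card_grp_UC1 (g : Gp r P Ln) : #{e : Ed r P Ln | e.1 = g} = g.M := by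
  have : (univ.filter fun e : Ed r P Ln => e.1 = g)
      = univ.image (fun i : Fin g.M => (⟨g, i⟩ : Ed r P Ln)) := by
    ext ⟨g', i⟩
    simp only [mem_filter, mem_univ, true_and, mem_image]
    constructor
    · rintro rfl
      exact ⟨i, rfl⟩
    · rintro ⟨j, hj⟩
      exact (congrArg Sigma.fst hj).symm
  rw [this, card_image_of_injective _ (fun i j h => eq_of_heq (Sigma.mk.inj h).2)]
  simp

lemma cg_le (g : Gp r P Ln) {l : List (Ed r P Ln × Finset V)} (hl : (l.map Prod.fst).Nodup) :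
    cg g l ≤ g.M := by
  rw [cg, cn_eq_card _ hl, ← card_grp_UC1 g]
  apply card_le_card
  intro e he
  simp only [mem_filter, mem_univ, true_and] at he ⊢
  exact he.1

lemma cg_eq_iff (g : Gp r P Ln) {l : List (Ed r P Ln × Finset V)} (hl : (l.map Prod.fst).Nodup) :
    cg g l = g.M ↔ ∀ e : Ed r P Ln, e.1 = g → e ∈ l.map Prod.fst := by
  have hsub : (univ.filter fun e : Ed r P Ln => e.1 = g ∧ e ∈ l.map Prod.fst)
      ⊆ univ.filter fun e : Ed r P Ln => e.1 = g := by
    intro e he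
    simp only [mem_filter, mem_univ, true_and] at he ⊢
    exact he.1
  rw [cg, cn_eq_card _ hl]
  conv_lhs => rw [← card_grp_UC1 g]
  constructor
  · intro h e he
    have h1 := eq_of_subset_of_card_le hsub h.ge
    have h2 : e ∈ univ.filter fun e : Ed r P Ln => e.1 = g := by simpa using he
    rw [← h1] at h2
    exact (mem_filter.1 h2).2.2
  · intro h
    congr 1
    ext e
    simp only [mem_filter, mem_univ, true_and]
    exact ⟨fun h1 => h1.1, fun h1 => ⟨h1, h e h1⟩⟩

lemma cg_cons_UC1 (g : Gp r P Ln) (p : Ed r P Ln × Finset V) (l : List (Ed r P Ln × Finset V)) :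
    cg g (p :: l) = cg g l + if p.1.1 = g then 1 else 0 := by
  unfold cg
  split_ifs with h
  · exact cn_cons_pos (F := fun e : Ed r P Ln => e.1 = g) l h
  · exact cn_cons_neg (F := fun e : Ed r P Ln => e.1 = g) l h

lemma cq_eq (l : List (Ed r P Ln × Finset V)) : cq l = cg .Q l + ∑ i, cg (.Y i) l := by
  induction l with
  | nil => simp [cq, cg]
  | cons p l ih =>
    simp only [cg_cons_UC1, Finset.sum_add_distrib]
    obtain ⟨⟨g, j⟩, u⟩ := p
    cases g with
    | Q =>
      have h : cq ((⟨Gp.Q, j⟩, u) :: l) = cq l + 1 :=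
        cn_cons_pos (F := fun e : Ed r P Ln => e.1.isQp) l trivial
      rw [h, ih]; simp; omega
    | Y i =>
      have h : cq ((⟨Gp.Y i, j⟩, u) :: l) = cq l + 1 :=
        cn_cons_pos (F := fun e : Ed r P Ln => e.1.isQp) l trivial
      rw [h, ih]; simp; omega
    | U i =>
      have h : cq ((⟨Gp.U i, j⟩, u) :: l) = cq l :=
        cn_cons_neg (F := fun e : Ed r P Ln => e.1.isQp) l (fun h => h)
      rw [h, ih]; simp
    | En i =>
      have h : cq ((⟨Gp.En i, j⟩, u) :: l) = cq l :=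
        cn_cons_neg (F := fun e : Ed r P Ln => e.1.isQp) l (fun h => h)
      rw [h, ih]; simp
    | W i =>
      have h : cq ((⟨Gp.W i, j⟩, u) :: l) = cq l :=
        cn_cons_neg (F := fun e : Ed r P Ln => e.1.isQp) l (fun h => h)
      rw [h, ih]; simp
    | L i =>
      have h : cq ((⟨Gp.L i, j⟩, u) :: l) = cq l :=
        cn_cons_neg (F := fun e : Ed r P Ln => e.1.isQp) l (fun h => h)
      rw [h, ih]; simp
    | T =>
      have h : cq ((⟨Gp.T, j⟩, u) :: l) = cq l :=
        cn_cons_neg (F := fun e : Ed r P Ln => e.1.isQp) l (fun h => h)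
      rw [h, ih]; simp

lemma length_eq_sum_cg (l : List (Ed r P Ln × Finset V)) : l.length = ∑ g, cg g l := by
  induction l with
  | nil => simp [cg]
  | cons p l ih =>
    simp only [cg_cons_UC1, Finset.sum_add_distrib, List.length_cons]
    rw [ih]; simp

/-- Number of unplayed edges. -/
lemma length_left {qs l : List (Ed r P Ln × Finset V)} (hl : ((qs ++ l).map Prod.fst).Nodup)
    (hall : ∀ e, e ∈ (qs ++ l).map Prod.fst) :
    (qs.length : ℝ) = ∑ g : Gp r P Ln, ((g.M : ℝ) - cg g l) := by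
  rw [length_eq_sum_cg qs]
  push_cast
  refine Finset.sum_congr rfl fun g _ => ?_
  have h1 : cg g (qs ++ l) = g.M := (cg_eq_iff g hl).2 fun e _ => hall e
  have h2 : cg g (qs ++ l) = cg g qs + cg g l := cn_append _ _ _
  have h3 : (g.M : ℝ) = cg g qs + cg g l := by rw [← h1, h2]; push_cast; rfl
  linarith

end Pool.Agent.SemiRandom.Und
end

-- part Pool.Agent.P.MP_c53d0e_pr.GA
section

set_option autoImplicit false
set_option linter.unusedSectionVars false

namespace Pool.Agent.SemiRandom.Und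

open Finset

variable {V E : Type} [DecidableEq V] {ed : E → Finset V} {r : ℕ} {δ ε : ℝ}
  {ν : List (E × Finset V) → Finset V → Finset V → ℝ}

/-- Total duty paid by the vertex `v` on the edges of `l`. -/
noncomputable def paid (d : E → V → ℝ) (l : List (E × Finset V)) (v : V) : ℝ :=
  (l.map fun p => d p.1 v).sum

@[simp] lemma paid_nil (d : E → V → ℝ) (v : V) : paid d [] v = 0 := rfl

lemma paid_cons (d : E → V → ℝ) (p : E × Finset V) (l : List (E × Finset V)) (v : V) :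
    paid d (p :: l) v = d p.1 v + paid d l v := by simp [paid]

lemma paid_append (d : E → V → ℝ) (l l' : List (E × Finset V)) (v : V) :
    paid d (l ++ l') v = paid d l v + paid d l' v := by simp [paid]

lemma paid_eq_sum [Fintype E] [DecidableEq E] (d : E → V → ℝ) {l : List (E × Finset V)}
    (hl : (l.map Prod.fst).Nodup) (v : V) :
    paid d l v = ∑ e ∈ univ.filter (fun e => e ∈ l.map Prod.fst), d e v := by
  have h1 : univ.filter (fun e => e ∈ l.map Prod.fst) = (l.map Prod.fst).toFinset := by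
    ext e; simp
  rw [h1, List.sum_toFinset _ hl, List.map_map]
  rfl

/-- A played edge is determined by its random part. -/
lemma Calc.fd (H : Calc ed r δ ε ν) (hδ : 0 ≤ δ) (l : List (E × Finset V)) (hl : Valid ed r l)
    (p : E × Finset V) (hp : p ∈ l) (A B : Finset V) (hA : p.2 ⊆ A) (hB : B ⊆ A ∪ ed p.1) :
    ν l A B ≤ ε := by
  induction l with
  | nil => simp at hp
  | cons q l ih =>
    rcases List.mem_cons.1 hp with rfl | hp'
    · have h1 := H.stepU_UC1 A (ed p.1) p l hl le_rfl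
      have h2 := H.mono (p :: l) A A B (ed p.1) le_rfl hB
      have h3 := H.cap l A p.2
      rw [sdiff_eq_empty_iff_subset.2 hA] at h3
      have h4 : max (ν l A p.2 - δ) 0 ≤ 0 := max_le (by simp at h3; linarith) le_rfl
      linarith
    · exact (H.time q l A B).trans (ih hl.tail hp')

/-- The duty lemma. -/
lemma Calc.lemG (H : Calc ed r δ ε ν) {D ζ : ℝ} (hε : 0 ≤ ε) (hεζ : ε ≤ ζ) (hδ : D - ζ ≤ δ)
    (d : E → V → ℝ) (h0 : ∀ e v, 0 ≤ d e v) (hs : ∀ e v, v ∉ ed e → d e v = 0) (W : Finset V)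
    (ht : ∀ e, ∑ v ∈ W, d e v ≤ D) (l : List (E × Finset V)) (hl : Valid ed r l) (A : Finset V)
    (hk : ∀ p ∈ l, (∃ v ∈ W, d p.1 v ≠ 0) → p.2 ⊆ A ∪ W) :
    ν l A W ≤ ∑ v ∈ W \ A, max 0 (1 - paid d l v) + 2 * ζ * l.length := by
  have hζ : 0 ≤ ζ := hε.trans hεζ
  induction l generalizing A with
  | nil => simpa using H.cap [] A W
  | cons p l ih =>
    have hk' : ∀ q ∈ l, (∃ v ∈ W, d q.1 v ≠ 0) → q.2 ⊆ A ∪ W :=
      fun q hq => hk q (List.mem_cons_of_mem _ hq)
    have i1 := ih hl.tail A hk'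
    rw [List.length_cons]
    push_cast
    by_cases hp : ∃ v ∈ W, d p.1 v ≠ 0
    · have a1 := H.mono (p :: l) A A W (W ∪ ed p.1) le_rfl
        (subset_union_left.trans subset_union_right)
      have a2 := H.step p l A W hl
      have a3 := H.mono l A A (W ∪ p.2) W le_rfl
        (union_subset subset_union_right (hk p List.mem_cons_self hp))
      have a4 : ∑ v ∈ W \ A, max 0 (1 - paid d l v) ≤
          ∑ v ∈ W \ A, max 0 (1 - paid d (p :: l) v) + D := by
        have b1 : ∑ v ∈ W \ A, d p.1 v ≤ D :=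
          (sum_le_sum_of_subset_of_nonneg sdiff_subset fun v _ _ => h0 _ v).trans (ht p.1)
        refine le_trans (sum_le_sum (g := fun v => max 0 (1 - paid d (p :: l) v) + d p.1 v)
          fun v _ => ?_) (by rw [sum_add_distrib]; linarith)
        rw [paid_cons]
        have c1 := le_max_left 0 (1 - (d p.1 v + paid d l v))
        have c2 := le_max_right 0 (1 - (d p.1 v + paid d l v))
        have c3 := h0 p.1 v
        exact max_le (by linarith) (by linarith)
      have i2 := ih hl.tail (A ∪ ed p.1) fun q hq h =>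
        (hk' q hq h).trans (union_subset_union subset_union_left le_rfl)
      have a5 : ∑ v ∈ W \ (A ∪ ed p.1), max 0 (1 - paid d l v) ≤
          ∑ v ∈ W \ A, max 0 (1 - paid d (p :: l) v) := by
        refine le_trans (le_of_eq (sum_congr rfl fun v hv => ?_))
          (sum_le_sum_of_subset_of_nonneg (sdiff_subset_sdiff le_rfl subset_union_left)
            fun v _ _ => le_max_left _ _)
        rw [paid_cons, hs _ v fun h => (mem_sdiff.1 hv).2 (mem_union_right _ h), zero_add]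
      have a6 : max (ν l A (W ∪ p.2) - δ) (ν l (A ∪ ed p.1) W) ≤
          ∑ v ∈ W \ A, max 0 (1 - paid d (p :: l) v) + 2 * ζ * l.length + ζ :=
        max_le (by linarith) (by linarith)
      linarith
    · have a1 : ∑ v ∈ W \ A, max 0 (1 - paid d (p :: l) v) =
          ∑ v ∈ W \ A, max 0 (1 - paid d l v) := by
        refine sum_congr rfl fun v hv => ?_
        have : d p.1 v = 0 := by
          by_contra h
          exact hp ⟨v, (mem_sdiff.1 hv).1, h⟩
        rw [paid_cons, this, zero_add]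
      have a2 := H.time p l A W
      rw [a1]
      linarith

end Pool.Agent.SemiRandom.Und
end

-- part Pool.Agent.P.MP_c53d0e_pr.WG1
section

set_option autoImplicit false
set_option linter.unusedSectionVars false

namespace Pool.Agent.SemiRandom.Fix

open Finset Und

variable {V E : Type} [Fintype V] [DecidableEq V] [Fintype E] [DecidableEq E] {r : ℕ}
  {ed : E → Finset V} {δ ζ : ℝ}

namespace Play
variable (G : Play ed r δ ζ)

/-- Generic rank bound. -/
theorem lemG {l : List (E × Finset V)} (hl : l <:+ G.ps) (A W : Finset V) (d : E → V → ℝ)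
    (d0 : ∀ e v, 0 ≤ d e v) (ds : ∀ e v, d e v ≠ 0 → v ∈ ed e) (dt : ∀ e, ∑ v ∈ W, d e v ≤ δ)
    (dk : ∀ e ∈ pl l, ∀ v ∈ W, d e v ≠ 0 → G.key e ⊆ A ∪ W) :
    G.ν l A W ≤ ∑ v ∈ W \ A, max 0 (1 - ∑ e ∈ pl l, d e v) + 2 * er E ζ := by
  have h := G.cal.lemG (D := δ) (ζ := ζ) G.z0.le le_rfl le_rfl d d0
    (fun e v hv => by_contra fun k => hv (ds e v k)) W dt l (G.suf_valid hl) A
    fun p hp ⟨v, hv, k⟩ => by
      rw [G.hkey p (hl.subset hp)]
      exact dk p.1 (mem_pl.2 ⟨p, hp, rfl⟩) v hv k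
  have e : ∀ v, paid d l v = ∑ e ∈ pl l, d e v := fun v => by
    rw [paid_eq_sum d (G.suf_valid hl).1]
    congr 1
    ext e
    simp only [pl, mem_filter, mem_univ, true_and, List.mem_toFinset]
  simp only [e] at h
  linarith [G.length_le hl]

/-- A played edge is determined by its random part. -/
theorem lemFD {l : List (E × Finset V)} (hl : l <:+ G.ps) {e : E} (he : e ∈ pl l) {A B : Finset V}
    (hA : G.key e ⊆ A) (hB : B ⊆ A ∪ ed e) : G.ν l A B ≤ er E ζ := by
  obtain ⟨p, hp, rfl⟩ := mem_pl.1 he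
  refine (G.cal.fd (sub_nonneg.2 G.zd) l (G.suf_valid hl) p hp A B ?_ hB).trans G.le_er
  rwa [G.hkey p (hl.subset hp)]

/-- One vertex and the edges of `Es` through it. -/
theorem lemV {l : List (E × Finset V)} (hl : l <:+ G.ps) (A : Finset V) (v : V) (Es : Finset E)
    (hE : ∀ e ∈ Es, v ∈ ed e ∧ ed e ⊆ insert v A) :
    G.ν l A {v} ≤ max 0 (1 - δ * (Es ∩ pl l).card) + 2 * er E ζ := by
  have d0 : 0 ≤ δ := G.z0.le.trans G.zd
  have h := G.lemG hl A {v} (fun e w => if e ∈ Es ∧ w = v then δ else 0)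
    (fun e w => by split_ifs; exacts [d0, le_rfl])
    (fun e w k => by
      have k' : e ∈ Es ∧ w = v := by_contra fun a => k (if_neg a)
      exact k'.2 ▸ (hE e k'.1).1)
    (fun e => by rw [sum_singleton]; split_ifs; exacts [le_rfl, d0])
    (fun e _ w _ k => by
      have k' : e ∈ Es ∧ w = v := by_contra fun a => k (if_neg a)
      refine (G.key_sub e).trans ((hE e k'.1).2.trans (le_of_eq ?_))
      rw [union_comm, insert_eq])
  refine h.trans (add_le_add ?_ le_rfl)
  refine (sum_le_sum_of_subset_of_nonneg sdiff_subset fun _ _ _ => le_max_left _ _).trans ?_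
  rw [sum_singleton]
  simp only [and_true]
  rw [sum_ite_mem, sum_const, nsmul_eq_mul, inter_comm, mul_comm]

lemma sub2 (l : List (E × Finset V)) (A B B' : Finset V) :
    G.ν l A (B ∪ B') ≤ G.ν l A B + G.ν l A B' := by
  exact (G.cal.chain l A B B').trans (add_le_add le_rfl
    (G.cal.mono l _ A B' B' subset_union_left subset_union_right))

/-- The first edge with property `Q`. -/
lemma first (Q : E → Prop) {l : List (E × Finset V)} (hl : l <:+ G.ps)
    (h0 : ∀ e ∈ pl l, ¬ Q e) (h1 : ∃ e, Q e) :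
    ∃ e l0, Q e ∧ (e, G.key e) :: l0 <:+ G.ps ∧ l <:+ l0 ∧ ∀ e' ∈ pl l0, ¬ Q e' := by
  have key : ∀ t : List (E × Finset V), (∃ p ∈ t, Q p.1) →
      ∃ p l0, Q p.1 ∧ p :: l0 <:+ t ++ l ∧ l <:+ l0 ∧ ∀ e' ∈ pl l0, ¬ Q e' := by
    intro t
    induction t with
    | nil => simp
    | cons a t ih =>
      intro ha
      by_cases ht : ∃ p ∈ t, Q p.1
      · obtain ⟨p, l0, a1, a2, a3⟩ := ih ht
        exact ⟨p, l0, a1, a2.trans (List.suffix_cons _ _), a3⟩
      · obtain ⟨p, hp, hq⟩ := ha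
        rcases List.mem_cons.1 hp with rfl | hp
        · refine ⟨p, t ++ l, hq, List.suffix_rfl, List.suffix_append _ _, fun e' he' k => ?_⟩
          obtain ⟨p', hp', rfl⟩ := mem_pl.1 he'
          rcases List.mem_append.1 hp' with b | b
          exacts [ht ⟨p', b, k⟩, h0 _ (mem_pl.2 ⟨p', b, rfl⟩) k]
        · exact (ht ⟨p, hp, hq⟩).elim
  obtain ⟨t, ht⟩ := hl
  obtain ⟨e, he⟩ := h1
  have h2 : ∃ p ∈ t, Q p.1 := by
    have a := G.mem_ps e
    rw [← ht] at a
    rcases List.mem_append.1 a with b | b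
    exacts [⟨_, b, he⟩, (h0 e (mem_pl.2 ⟨_, b, rfl⟩) he).elim]
  obtain ⟨p, l0, a1, a2, a3⟩ := key t h2
  rw [ht] at a2
  refine ⟨p.1, l0, a1, ?_, a3⟩
  rw [← G.hkey p (a2.subset List.mem_cons_self)]
  exact a2

end Play

end Pool.Agent.SemiRandom.Fix
end

-- part Pool.Agent.P.MP_c53d0e_pr.WG2
section

set_option autoImplicit false
set_option linter.unusedSectionVars false

namespace Pool.Agent.SemiRandom.Fix

open Finset Und

variable {V E : Type} [Fintype V] [DecidableEq V] [Fintype E] [DecidableEq E] {r : ℕ}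
  {ed : E → Finset V} {δ ζ : ℝ}

/-- Master inequality: gaps of unplayed edges are at most the spare capacity. -/
theorem Play.master (G : Play ed r δ ζ) {l : List (E × Finset V)} (hl : l <:+ G.ps)
    (Q : E → Prop) [DecidablePred Q] (C B U K : Finset V) (hQC : ∀ e, Q e → ed e ⊆ C)
    (hQ : G.ν l ∅ C ≤ δ * (#{e | Q e ∧ e ∉ pl l} : ℕ) + 2 * er E ζ)
    {k0 k1 : ℝ} (h0 : G.ν l C B ≤ k0) (h1 : G.ν l (C ∪ B ∪ U) K ≤ k1)
    (d : E → V → ℝ) (d0 : ∀ e v, 0 ≤ d e v) (ds : ∀ e v, d e v ≠ 0 → v ∈ ed e)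
    (dt : ∀ e, ∑ v ∈ U, d e v ≤ δ) (dl : ∀ v ∈ U, ∑ e, d e v ≤ 1)
    (dQ : ∀ e, Q e → ∀ v ∈ U, d e v = 0)
    (dk : ∀ e ∈ pl l, ∀ v ∈ U, d e v ≠ 0 → G.key e ⊆ C ∪ B ∪ U)
    (dk' : ∀ e ∉ pl l, ∀ v ∈ U, d e v ≠ 0 → G.key e ⊆ C ∪ B ∪ U ∪ K)
    (E0 : Finset E) (hE : ∀ e ∈ E0, e ∉ pl l ∧ ¬ Q e ∧ G.key e ⊆ C ∪ B ∪ U ∪ K) :
    ∑ e ∈ E0, (δ - ∑ v ∈ U, d e v) ≤ ∑ v ∈ U, (1 - ∑ e, d e v) + k0 + k1 + 5 * er E ζ := by
  classical
  set D1 : Finset E := univ.filter fun e => e ∉ pl l ∧ ¬ Q e ∧ G.key e ⊆ C ∪ B ∪ U ∪ K with hD1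
  have mD : ∀ e, e ∈ D1 ↔ e ∉ pl l ∧ ¬ Q e ∧ G.key e ⊆ C ∪ B ∪ U ∪ K := fun e => by simp [hD1]
  set D2 : Finset E := univ.filter fun e => Q e ∧ e ∉ pl l with hD2
  have mD2 : ∀ e, e ∈ D2 ↔ Q e ∧ e ∉ pl l := fun e => by simp [hD2]
  have a1 := G.nb l (C ∪ B ∪ U ∪ K) hl
  have a2 : (univ.filter fun e => e ∉ pl l ∧ G.key e ⊆ C ∪ B ∪ U ∪ K) = D2 ∪ D1 := by
    ext e
    rw [mem_union, mD, mD2, mem_filter]
    refine ⟨fun h => ?_, fun h => ⟨mem_univ _, ?_⟩⟩
    · by_cases hq : Q e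
      · exact Or.inl ⟨hq, h.2.1⟩
      · exact Or.inr ⟨h.2.1, hq, h.2.2⟩
    · rcases h with h | h
      · exact ⟨h.2, ((G.key_sub e).trans (hQC e h.1)).trans
          ((subset_union_left.trans subset_union_left).trans subset_union_left)⟩
      · exact ⟨h.1, h.2.2⟩
  have hdis : Disjoint D2 D1 := disjoint_left.2 fun e h h' => ((mD e).1 h').2.1 ((mD2 e).1 h).1
  have a3 : ((D2.card : ℝ) + D1.card) ≤ Fintype.card E := by
    have := card_le_univ (D2 ∪ D1)
    rw [card_union_of_disjoint hdis] at this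
    exact_mod_cast this
  rw [a2, card_union_of_disjoint hdis] at a1
  have c1 := G.cal.chain l ∅ (C ∪ B ∪ U) K
  have c2 := G.cal.chain l ∅ (C ∪ B) U
  have c3 := G.cal.chain l ∅ C B
  rw [empty_union] at c1 c2 c3
  have g1 := G.lemG hl (C ∪ B) U d d0 ds dt dk
  have res : ∀ v ∈ U, max 0 (1 - ∑ e ∈ pl l, d e v) ≤
      (1 - ∑ e, d e v) + ∑ e ∈ (pl l)ᶜ, d e v := fun v hv => by
    have b1 := sum_add_sum_compl (pl l) fun e => d e v
    have b2 : 0 ≤ ∑ e ∈ (pl l)ᶜ, d e v := sum_nonneg fun e _ => d0 e v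
    have b3 := dl v hv
    exact max_le (by linarith) (by linarith)
  have g2 : ∑ v ∈ U \ (C ∪ B), max 0 (1 - ∑ e ∈ pl l, d e v) ≤
      ∑ v ∈ U, (1 - ∑ e, d e v) + ∑ e ∈ D1, ∑ v ∈ U, d e v := by
    refine (sum_le_sum_of_subset_of_nonneg sdiff_subset fun v _ _ => le_max_left _ _).trans ?_
    refine (sum_le_sum res).trans ?_
    rw [sum_add_distrib, sum_comm (s := U) (t := (pl l)ᶜ)]
    refine add_le_add le_rfl (le_of_eq (sum_subset (fun e he => mem_compl.2 ((mD e).1 he).1)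
      fun e he he' => ?_).symm)
    by_contra hn
    obtain ⟨v, hv, h⟩ := exists_ne_zero_of_sum_ne_zero hn
    exact he' ((mD e).2 ⟨mem_compl.1 he, fun hq => h (dQ e hq v hv),
      dk' e (mem_compl.1 he) v hv h⟩)
  have g3 : ∑ e ∈ E0, (δ - ∑ v ∈ U, d e v) ≤ ∑ e ∈ D1, (δ - ∑ v ∈ U, d e v) :=
    sum_le_sum_of_subset_of_nonneg (fun e he => (mD e).2 (hE e he))
      fun e _ _ => sub_nonneg.2 (dt e)
  rw [sum_sub_distrib (s := D1), sum_const, nsmul_eq_mul] at g3
  have a4 := mul_le_mul_of_nonneg_left a3 G.z0.le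
  have a5 : er E ζ = ζ * Fintype.card E + ζ := by rw [er]; ring
  push_cast at a1
  linarith

end Pool.Agent.SemiRandom.Fix
end

-- part Pool.Agent.P.MP_c53d0e_pr.WN0
section

set_option autoImplicit false
set_option linter.unusedSectionVars false

namespace Pool.Agent.SemiRandom.Fix

open Finset Und

variable {r s N : ℕ} {P Ln : Type} [NeZero r] [Fintype P] [DecidableEq P] [Fintype Ln]
  [DecidableEq Ln] {D : Dat r N P Ln} {ζ : ℝ}

/-- A play on the hypergraph of `D` with small errors. -/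
structure Sm (D : Dat r N P Ln) (s : ℕ) (ζ : ℝ) : Prop where
  ok : Ok r s
  small : 100 * er (Ed r N P Ln) ζ ≤ hh r

/-- An edge among constants has been played. -/
def HasQ (l : List (Ed r N P Ln × Finset (Vx r s N P Ln))) : Prop := ∃ e ∈ pl l, IsQ e

lemma HasQ.mono {l l' : List (Ed r N P Ln × Finset (Vx r s N P Ln))} (h : HasQ l)
    (hl : l <:+ l') : HasQ l' := h.imp fun _ he => ⟨pl_mono hl he.1, he.2⟩

/-- The random part of `F` consists of its payers. -/
def Right (G : Play (ed D s) r (de r) ζ) (F : FD N Ln) : Prop := G.key (eF F) = cvs (PY r F)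

/-- All edges owned by `v` are played. -/
def Own (l : List (Ed r N P Ln × Finset (Vx r s N P Ln))) (v : NV r N P Ln) : Prop :=
  ∀ t, eO v t ∈ pl l

end Pool.Agent.SemiRandom.Fix
end

-- part Pool.Agent.P.MP_c53d0e_pr.WN2
section

set_option autoImplicit false
set_option linter.unusedSectionVars false

namespace Pool.Agent.SemiRandom.Fix

open Finset Und

variable {r s N : ℕ} {P Ln : Type} [NeZero r] [Fintype P] [DecidableEq P] [Fintype Ln]
  [DecidableEq Ln] {D : Dat r N P Ln} {ζ : ℝ}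

/-- The constant that pays for an owned edge. -/
def row_WN2 : Ed r N P Ln → Vx r s N P Ln
  | .inr (.inl y) => cc 0 y.2 0
  | _ => .eta

lemma rows_WN2 (hO : Ok r s) (c : Vx r s N P Ln) : ∃ Ts : Finset (Fin (al r)),
    al r ≤ Ts.card + 21 ∧ ∀ t ∈ Ts, 20 ≤ (t : ℕ) ∧ ∀ l < r, c ≠ cc 0 t l := by
  have h2 := hO.hr
  obtain ⟨t0, h0⟩ : ∃ t0 : ℕ, ∀ t ≤ al r, t ≠ t0 → ∀ l < r, c ≠ cc 0 t l := by
    by_cases h : ∃ t ≤ al r, ∃ l < r, c = cc 0 t l
    · obtain ⟨t, ht, l, hl, rfl⟩ := h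
      exact ⟨t, fun t' ht' k l' hl' e =>
        k ((cc_inj hO ht ht' (by omega) (by omega)).1 e).2.1.symm⟩
    · exact ⟨0, fun t ht _ l hl e => h ⟨t, ht, l, hl, e⟩⟩
  refine ⟨univ.filter fun t => (t : ℕ) ∉ insert t0 (range 20), ?_, fun t ht => ?_⟩
  · have h1 := card_filter_add_card_filter_not (s := (univ : Finset (Fin (al r))))
      fun t => (t : ℕ) ∈ insert t0 (range 20)
    have h3 : #{t : Fin (al r) | (t : ℕ) ∈ insert t0 (range 20)} ≤ #(insert t0 (range 20)) :=
      card_le_card_of_injOn (fun t => (t : ℕ)) (fun t ht => (mem_filter.1 ht).2)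
        fun _ _ _ _ e => Fin.ext e
    have h4 := card_insert_le t0 (range 20)
    rw [card_range] at h4
    rw [card_univ, Fintype.card_fin] at h1
    omega
  · have h1 := (mem_filter.1 ht).2
    rw [mem_insert, mem_range, not_or, not_lt] at h1
    exact ⟨h1.2, h0 t t.2.le h1.1⟩

lemma edges_WN2 (hO : Ok r s) (D : Dat r N P Ln) (F : FD N Ln) (c : Vx r s N P Ln) :
    ∃ Es : Finset (Ed r N P Ln), (r + 1) * al r ≤ Es.card + (r + 1) * 21 ∧
      (∀ e ∈ Es, ¬ IsQ e ∧ row_WN2 e ∈ ed D s e ∧ row_WN2 e ∈ CC.erase c \ ed D s (eF F) ∧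
        ed D s e ⊆ ed D s (eF F) ∪ CC.erase c) ∧
      ∀ v : Vx r s N P Ln, #{e ∈ Es | v = row_WN2 e} ≤ r + 1 := by
  have h2 := hO.hr
  obtain ⟨Ts, h1, hT⟩ := rows_WN2 hO c
  let Vs : Finset (NV r N P Ln) := insert (tgtv D F) (univ.image fun i => .cv (pay F i))
  have hV : Vs.card = r + 1 := by
    rw [card_insert_of_notMem, card_image_of_injective, card_univ, Fintype.card_fin]
    · exact fun i j e => pay_inj F (NV.cv.inj e)
    · intro k
      obtain ⟨i, -, e⟩ := mem_image.1 k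
      exact tgt_ne_pay D F i e.symm
  refine ⟨(Vs ×ˢ Ts).image fun y => eO y.1 y.2, ?_, fun e he => ?_, fun v => ?_⟩
  · rw [card_image_of_injective _ fun y y' e => by simpa [Prod.ext_iff] using e, card_product, hV,
      ← Nat.mul_add]
    exact Nat.mul_le_mul_left _ h1
  · obtain ⟨⟨w, t⟩, hy, rfl⟩ := mem_image.1 he
    obtain ⟨hw, ht⟩ := mem_product.1 hy
    obtain ⟨h3, h4⟩ := hT t ht
    have h5 : ∀ l < r, (cc 0 t l : Vx r s N P Ln) ∈ CC.erase c := fun l hl =>
      mem_erase.2 ⟨(h4 l hl).symm, mem_union_right _ (mem_insert_of_mem (cc_mem_CN _ _ _))⟩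
    refine ⟨id, (mem_ed_O hO D w t _).2 (.inr (.inr (.inr
      ⟨0, by omega, fun _ => par_big _ _ h3, rfl⟩))), mem_sdiff.2 ⟨h5 0 (by omega), fun k => ?_⟩,
      fun v hv => ?_⟩
    · simp [mem_ed_F, row_WN2, cc] at k
    · rcases (mem_ed_O hO D w t v).1 hv with k | rfl | ⟨π, k, -⟩ | ⟨l, hl, -, rfl⟩
      · exact mem_union_left _ (HH_sub_ed D _ k)
      · refine mem_union_left _ ((mem_ed_F D F _).2 (.inr ?_))
        rcases mem_insert.1 hw with k | k
        · exact .inl (congrArg _ k)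
        · obtain ⟨i, -, k⟩ := mem_image.1 k
          exact .inr ⟨i, congrArg _ k.symm⟩
      · rw [par_big _ _ h3] at k
        exact absurd k (by simp)
      · exact mem_union_right _ (h5 l hl)
  · rw [← hV, filter_image]
    refine card_image_le.trans (card_le_card_of_injOn Prod.fst
      (fun y hy => (mem_product.1 (mem_filter.1 hy).1).1) fun y hy y' hy' e => Prod.ext e ?_)
    have h3 := (mem_filter.1 hy).2.symm.trans (mem_filter.1 hy').2
    exact Fin.ext ((cc_inj hO y.2.2.le y'.2.2.le (by omega) (by omega)).1 h3).2.1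

/-- Functional edges come after the first edge among constants. -/
theorem lemZ (hS : Sm D s ζ) (G : Play (ed D s) r (de r) ζ)
    {l : List (Ed r N P Ln × Finset (Vx r s N P Ln))} (hl : l <:+ G.ps) {F : FD N Ln}
    (hF : eF F ∈ pl l) : HasQ l := by
  by_contra hq
  have hO := hS.ok
  obtain ⟨e, l0, he, h1, h2, h3⟩ := G.first IsQ hl (fun e he k => hq ⟨e, he, k⟩)
    ⟨eQ ⟨((0, 0, 0), 0), .inr rfl⟩, trivial⟩
  obtain ⟨x, rfl⟩ : ∃ x, e = eQ x := by
    rcases e with x | x
    · exact ⟨x, rfl⟩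
    · exact he.elim
  obtain ⟨c, hc, hc'⟩ : ∃ c ∈ ed D s (eQ x) \ G.key (eQ x), c ∉ HH := by
    refine exists_mem_notMem_of_card_lt_card ?_
    rw [card_HH, card_sdiff_of_subset (G.key_sub _), card_ed hO, G.key_card]
    have := hO.hs
    omega
  obtain ⟨hc1, hc2⟩ := mem_sdiff.1 hc
  have hcC := ed_Q_sub hO D x hc1
  obtain ⟨Es, e1, e2, e3⟩ := edges_WN2 hO D F c
  set l1 := (eQ x, G.key (eQ x)) :: l0 with hl1
  have hF1 : eF F ∈ pl l1 := by
    rw [pl_cons]
    exact mem_insert_of_mem (pl_mono h2 hF)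
  obtain ⟨b1, b2⟩ := de_bd hO
  have b0 := hh_pos r
  have b3 : 0 < de r := by linarith
  have b4 : (2 : ℝ) ≤ r := by exact_mod_cast hO.hr
  have n1 : G.ν l1 ∅ (ed D s (eF F)) ≤ r + er (Ed r N P Ln) ζ := by
    have k1 := G.cal.chain l1 ∅ (G.key (eF F)) (ed D s (eF F))
    have k2 := G.cal.cap l1 ∅ (G.key (eF F))
    have k3 := G.lemFD h1 hF1 (A := ∅ ∪ G.key (eF F)) (B := ed D s (eF F)) subset_union_right
      subset_union_right
    rw [sdiff_empty, G.key_card] at k2
    rw [union_eq_right.2 (G.key_sub _)] at k1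
    linarith
  have n2 : G.ν l1 (∅ ∪ (ed D s (eF F) ∪ CC.erase c)) {c} ≤ er (Ed r N P Ln) ζ := by
    refine G.lemFD h1 (e := eQ x) (by rw [pl_cons]; exact mem_insert_self _ _) (fun v hv => ?_)
      (singleton_subset_iff.2 (mem_union_right _ hc1))
    exact mem_union_right _ (mem_union_right _ (mem_erase.2
      ⟨fun k => hc2 (k ▸ hv), ed_Q_sub hO D x (G.key_sub _ hv)⟩))
  have n3 : G.ν l1 (∅ ∪ ed D s (eF F)) (CC.erase c) ≤
      (CN : Finset (Vx r s N P Ln)).card - de r * (Es ∩ pl l1).card + 2 * er (Ed r N P Ln) ζ := by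
    rw [empty_union]
    refine (G.lemG h1 _ _ (fun e v => if e ∈ Es ∧ v = row_WN2 e then de r else 0)
      (fun e v => by positivity) (fun e v k => ?_) (fun e => ?_) fun e _ v _ k => ?_).trans ?_
    · obtain ⟨k1, rfl⟩ := (ite_ne_right_iff.1 k).1
      exact (e2 e k1).2.1
    · by_cases k : e ∈ Es
      · simp only [k, true_and, sum_ite_eq']
        split_ifs
        exacts [le_rfl, b3.le]
      · simp [k, b3.le]
    · exact (G.key_sub e).trans (e2 e (ite_ne_right_iff.1 k).1.1).2.2.2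
    · have k1 : ∀ v : Vx r s N P Ln,
          ∑ e ∈ pl l1, (if e ∈ Es ∧ v = row_WN2 e then de r else 0) ≤ 1 := fun v => by
        rw [← sum_filter, sum_const, nsmul_eq_mul]
        have k2 : #{e ∈ pl l1 | e ∈ Es ∧ v = row_WN2 e} ≤ r + 1 :=
          (card_le_card fun e he => mem_filter.2 (mem_filter.1 he).2).trans (e3 v)
        have k3 : (#{e ∈ pl l1 | e ∈ Es ∧ v = row_WN2 e} : ℝ) ≤ r + 1 := by exact_mod_cast k2
        nlinarith
      have k2 : #(CC.erase c \ ed D s (eF F)) ≤ (CN : Finset (Vx r s N P Ln)).card := by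
        have k3 : c ∈ insert Vx.eta CN := (mem_union.1 hcC).resolve_left hc'
        refine (card_le_card (t := (insert Vx.eta CN).erase c) fun v hv => ?_).trans ?_
        · obtain ⟨k4, k5⟩ := mem_sdiff.1 hv
          exact mem_erase.2 ⟨(mem_erase.1 k4).1, (mem_union.1 (mem_erase.1 k4).2).resolve_left
            fun k => k5 (HH_sub_ed D _ k)⟩
        · rw [card_erase_of_mem k3]
          have := card_insert_le Vx.eta (CN : Finset (Vx r s N P Ln))
          omega
      have k3 : ∑ e ∈ pl l1, ∑ v ∈ CC.erase c \ ed D s (eF F),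
          (if e ∈ Es ∧ v = row_WN2 e then de r else 0) = de r * (Es ∩ pl l1).card := by
        rw [sum_congr rfl (g := fun e => if e ∈ Es then de r else 0) fun e _ => ?_, sum_ite_mem,
          sum_const, nsmul_eq_mul, mul_comm, inter_comm]
        by_cases k : e ∈ Es
        · simp only [k, true_and, sum_ite_eq', if_pos (e2 e k).2.2.1, if_true]
        · simp [k]
      rw [sum_congr rfl fun v _ => max_eq_right (sub_nonneg.2 (k1 v)), sum_sub_distrib, sum_comm,
        k3, sum_const, nsmul_eq_mul, mul_one]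
      have k4 : (#(CC.erase c \ ed D s (eF F)) : ℝ) ≤ (CN : Finset (Vx r s N P Ln)).card := by
        exact_mod_cast k2
      linarith
  have n4 := G.nb l1 (ed D s (eF F) ∪ CC.erase c ∪ {c}) h1
  have n5 := G.cal.chain l1 ∅ (ed D s (eF F) ∪ CC.erase c) {c}
  have n6 := G.cal.chain l1 ∅ (ed D s (eF F)) (CC.erase c)
  set U := #{e | e ∉ pl l1 ∧ G.key e ⊆ ed D s (eF F) ∪ CC.erase c ∪ {c}} with hU
  have u1 : U ≤ Fintype.card (Ed r N P Ln) := card_le_univ _
  have u2 : Fintype.card (QE r) + #(Es \ pl l1) ≤ U + 1 := by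
    have k1 : #((univ.image eQ).erase (eQ x : Ed r N P Ln)) + 1 = Fintype.card (QE r) := by
      rw [card_erase_add_one (mem_image_of_mem _ (mem_univ x)),
        card_image_of_injective _ Sum.inl_injective, card_univ]
    rw [← k1, add_right_comm, ← card_union_of_disjoint]
    · refine Nat.succ_le_succ (card_le_card fun e he => mem_filter.2 ⟨mem_univ _, ?_⟩)
      rcases mem_union.1 he with k | k
      · obtain ⟨k2, k3⟩ := mem_erase.1 k
        obtain ⟨y, -, rfl⟩ := mem_image.1 k3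
        refine ⟨fun k4 => ?_, (G.key_sub _).trans ((ed_Q_sub hO D y).trans fun v hv => ?_)⟩
        · rw [pl_cons] at k4
          exact (mem_insert.1 k4).elim k2 fun k5 => h3 _ k5 trivial
        · by_cases k4 : v = c
          · exact mem_union_right _ (mem_singleton.2 k4)
          · exact mem_union_left _ (mem_union_right _ (mem_erase.2 ⟨k4, hv⟩))
      · exact ⟨(mem_sdiff.1 k).2,
          (G.key_sub _).trans ((e2 e (mem_sdiff.1 k).1).2.2.2.trans subset_union_left)⟩
    · refine disjoint_left.2 fun e k1 k2 => ?_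
      obtain ⟨y, -, rfl⟩ := mem_image.1 (mem_erase.1 k1).2
      exact (e2 _ (mem_sdiff.1 k2).1).1 trivial
  have u3 : ((r : ℝ) + 1) * al r ≤ #(Es \ pl l1) + #(Es ∩ pl l1) + (r + 1) * 21 := by
    rw [← card_sdiff_add_card_inter Es (pl l1)] at e1
    exact_mod_cast e1
  have u4 : de r * Fintype.card (QE r) = (CN : Finset (Vx r s N P Ln)).card := by
    have k1 : (Fintype.card (QE r) : ℝ) * (8 * r) = (CN : Finset (Vx r s N P Ln)).card * qq r := by
      exact_mod_cast card_QE (N := N) (P := P) (Ln := Ln) hO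
    rw [de, mul_right_comm, mul_comm (8 * (r : ℝ)), k1, mul_assoc, qq_hh, mul_one]
  have u5 : ζ * U + ζ ≤ er (Ed r N P Ln) ζ := by
    have k1 : (U : ℝ) ≤ Fintype.card (Ed r N P Ln) := by exact_mod_cast u1
    have := mul_le_mul_of_nonneg_left k1 G.z0.le
    rw [er]
    linarith
  have u6 : (Fintype.card (QE r) : ℝ) + #(Es \ pl l1) ≤ U + 1 := by exact_mod_cast u2
  have u7 := mul_le_mul_of_nonneg_left u6 b3.le
  have u8 := mul_le_mul_of_nonneg_left u3 b3.le
  have u9 : de r * (((r : ℝ) + 1) * al r) = (r + 1) * (1 - hh r) := by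
    rw [← al_de r]
    ring
  have v1 := mul_le_mul_of_nonneg_left b1 (show (0 : ℝ) ≤ r + 1 by linarith)
  have v2 := mul_le_mul_of_nonneg_right (show (3 : ℝ) ≤ r + 1 by linarith) b3.le
  have v3 := hS.small
  nlinarith

/-- The time just before a functional edge. -/
theorem beforeF (hS : Sm D s ζ) (G : Play (ed D s) r (de r) ζ) (F : FD N Ln) :
    ∃ l, (eF F, G.key (eF F)) :: l <:+ G.ps ∧ l <:+ G.ps ∧ eF F ∉ pl l ∧ HasQ l := by
  obtain ⟨l, h1, h2, h3⟩ := G.before (eF F)
  obtain ⟨e, he, k⟩ := lemZ hS G h1 (F := F) (by rw [pl_cons]; exact mem_insert_self _ _)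
  rw [pl_cons] at he
  refine ⟨l, h1, h2, h3, e, (mem_insert.1 he).resolve_left ?_, k⟩
  rintro rfl
  exact k

end Pool.Agent.SemiRandom.Fix
end

-- part Pool.Agent.P.MP_c53d0e_pr.WN1
section

set_option autoImplicit false
set_option linter.unusedSectionVars false

namespace Pool.Agent.SemiRandom.Fix

open Finset Und

variable {r s N : ℕ} {P Ln : Type} [NeZero r] [Fintype P] [DecidableEq P] [Fintype Ln]
  [DecidableEq Ln] {D : Dat r N P Ln} {ζ : ℝ}

lemma isQ_WN1 {e : Ed r N P Ln} (h : IsQ e) : ∃ x, e = eQ x := by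
  cases e with
  | inl x => exact ⟨x, rfl⟩
  | inr y => exact h.elim

lemma dnQ_WN1 {e : Ed r N P Ln} {v : Vx r s N P Ln} (hv : v ∈ CC) (h : dn e v ≠ 0) : IsQ e := by
  by_contra hq
  obtain ⟨w, rfl⟩ := dn_notQ hq h
  exact nv_notMem_CC w hv

lemma card_WN1 (hO : Ok r s) :
    de r * (#{e : Ed r N P Ln | IsQ e} : ℕ) = (CN : Finset (Vx r s N P Ln)).card := by
  have h1 : (univ.filter fun e : Ed r N P Ln => IsQ e) =
      univ.map ⟨Sum.inl, Sum.inl_injective⟩ := by
    ext e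
    simp only [mem_filter, mem_univ, true_and, mem_map, Function.Embedding.coeFn_mk]
    exact ⟨fun h => (isQ_WN1 h).imp fun _ h => h.symm, fun ⟨x, h⟩ => h ▸ trivial⟩
  have h2 := card_QE (N := N) (P := P) (Ln := Ln) hO
  rw [h1, card_map, card_univ, de]
  generalize Fintype.card (QE r) = a at h2 ⊢
  generalize (CN : Finset (Vx r s N P Ln)).card = b at h2 ⊢
  have h3 : (a : ℝ) * (8 * r) = b * qq r := by exact_mod_cast h2
  linear_combination hh r * h3 + (b : ℝ) * qq_hh r

lemma cast_WN1 {V : Type} (f : V → ℕ) (U : Finset V) (h : ∑ v ∈ U, f v ≤ 8 * r) :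
    ∑ v ∈ U, (f v : ℝ) * hh r ≤ de r := by
  have h1 : ∑ v ∈ U, (f v : ℝ) ≤ 8 * r := by exact_mod_cast h
  rw [← sum_mul, de]
  exact mul_le_mul_of_nonneg_right h1 (hh_pos r).le

lemma sum_WN1 (hO : Ok r s) (e : Ed r N P Ln) (U : Finset (Vx r s N P Ln)) :
    ∑ v ∈ U, (dn e v : ℝ) * hh r ≤ de r := cast_WN1 (dn e) U (dn_sum_le hO e U)

lemma paid_WN1 {V E : Type} [DecidableEq V] [Fintype E] [DecidableEq E] (d : E → V → ℝ)
    {l : List (E × Finset V)} (hl : (l.map Prod.fst).Nodup) (v : V) :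
    paid d l v + ∑ e ∈ (pl l)ᶜ, d e v = ∑ e, d e v := by
  rw [paid_eq_sum d hl, ← sum_add_sum_compl (pl l)]
  congr 2
  ext e
  simp [pl]

/-- The constants outside an edge, given that edge. -/
lemma rest_WN1 (hO : Ok r s) (G : Play (ed D s) r (de r) ζ)
    {l : List (Ed r N P Ln × Finset (Vx r s N P Ln))} (hl : Valid (ed D s) r l) (x : QE r) :
    G.ν l (ed D s (eQ x)) CC ≤
      de r * (#{e | IsQ e ∧ e ∉ insert (eQ x) (pl l)} : ℕ) + 2 * ζ * l.length := by
  have d0 : ∀ (e : Ed r N P Ln) (v : Vx r s N P Ln), 0 ≤ (dn e v : ℝ) * hh r := fun e v =>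
    mul_nonneg (Nat.cast_nonneg _) (hh_pos r).le
  have ds : ∀ (e : Ed r N P Ln) (v : Vx r s N P Ln), v ∉ ed D s e → dn e v = 0 := fun e v hv =>
    by_contra fun h => hv (key0_sub hO D e (dn_key0 hO D h))
  refine (G.cal.lemG G.z0.le le_rfl le_rfl (fun e v => (dn e v : ℝ) * hh r) d0
    (fun e v hv => by simp [ds e v hv]) CC (fun e => sum_WN1 hO e CC) l hl _
    fun p hp ⟨v, hv, h⟩ => ?_).trans (add_le_add ?_ le_rfl)
  · obtain ⟨y, hy⟩ := isQ_WN1 (dnQ_WN1 (e := p.1) hv fun h0 => h (by simp [h0]))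
    exact ((hl.2 p hp).1.trans (hy ▸ ed_Q_sub hO D y)).trans subset_union_right
  · have h1 : ∀ v ∈ (CC : Finset (Vx r s N P Ln)) \ ed D s (eQ x),
        max 0 (1 - paid (fun e v => (dn e v : ℝ) * hh r) l v) =
          ∑ e with IsQ e ∧ e ∉ insert (eQ x) (pl l), (dn e v : ℝ) * hh r := fun v hv => by
      obtain ⟨h2, h3⟩ := mem_sdiff.1 hv
      obtain ⟨y, rfl⟩ : ∃ y, v = .c y := by
        rcases (mem_CC v).1 h2 with h | h | h
        · exact (h3 (HH_sub_ed D _ ((mem_HH v).2 h))).elim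
        · exact (h3 (h ▸ eta_mem_Q hO D x)).elim
        · exact h
      have h4 : ∑ e : Ed r N P Ln, (dn e (.c y : Vx r s N P Ln) : ℝ) * hh r = 1 := by
        rw [← sum_mul, ← qq_hh r, ← ld_c (N := N) (P := P) (Ln := Ln) hO y, ld, Nat.cast_sum]
      have h5 := paid_WN1 (fun e v => (dn e v : ℝ) * hh r) hl.1 (.c y)
      have h6 : ∑ e with IsQ e ∧ e ∉ insert (eQ x) (pl l),
          (dn e (.c y : Vx r s N P Ln) : ℝ) * hh r =
          ∑ e ∈ (pl l)ᶜ, (dn e (.c y : Vx r s N P Ln) : ℝ) * hh r := by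
        refine sum_subset (fun e he => ?_) fun e he hn => ?_
        · simp only [mem_filter, mem_univ, true_and, mem_insert, not_or, mem_compl] at he ⊢
          exact he.2.2
        · simp only [mem_filter, mem_univ, true_and, mem_insert, not_or, mem_compl] at he hn
          have : dn e (.c y : Vx r s N P Ln) = 0 := by_contra fun h =>
            hn ⟨dnQ_WN1 h2 h, fun h7 => h (h7 ▸ ds _ _ h3), he⟩
          simp [this]
      have h7 := sum_nonneg (s := (pl l)ᶜ) fun e _ => d0 e (.c y)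
      rw [h6, max_eq_right (by linarith)]
      linarith
    rw [sum_congr rfl h1, sum_comm]
    refine (sum_le_sum fun e _ => sum_WN1 hO e _).trans (le_of_eq ?_)
    rw [sum_const, nsmul_eq_mul, mul_comm]

lemma ind_WN1 (hO : Ok r s) (G : Play (ed D s) r (de r) ζ)
    (l : List (Ed r N P Ln × Finset (Vx r s N P Ln))) (hl : Valid (ed D s) r l) (hQ : HasQ l) :
    G.ν l ∅ CC ≤ de r * (#{e | IsQ e ∧ e ∉ pl l} : ℕ) + 2 * ζ * l.length := by
  induction l with
  | nil => obtain ⟨e, he, -⟩ := hQ; simp at he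
  | cons p l ih =>
    have z0 := G.z0
    have l0 : 0 ≤ ζ * l.length := mul_nonneg z0.le (Nat.cast_nonneg _)
    rw [List.length_cons, pl_cons]
    push_cast
    by_cases hp : IsQ p.1
    · obtain ⟨x, hx⟩ := isQ_WN1 hp
      have hC : ed D s p.1 ⊆ CC := hx ▸ ed_Q_sub hO D x
      have hk := hl.2 p List.mem_cons_self
      have c1 : #{e : Ed r N P Ln | IsQ e ∧ e ∉ pl l} =
          #{e : Ed r N P Ln | IsQ e ∧ e ∉ insert p.1 (pl l)} + 1 := by
        rw [← card_insert_of_notMem (a := p.1) (by simp)]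
        refine congrArg card ?_
        ext e
        simp only [mem_filter, mem_univ, true_and, mem_insert, not_or]
        by_cases he : e = p.1
        · simp [he, hp, notMem_pl hl]
        · simp [he]
      by_cases h0 : HasQ l
      · have a1 := ih hl.tail h0
        have a2 := G.cal.step p l ∅ CC hl
        have a3 := rest_WN1 hO G hl.tail x
        rw [union_eq_left.2 hC, union_eq_left.2 (hk.1.trans hC), empty_union] at a2
        rw [← hx] at a3
        rw [c1] at a1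
        push_cast at a1
        have a4 : max (G.ν l ∅ CC - (de r - ζ)) (G.ν l (ed D s p.1) CC) ≤
            de r * (#{e : Ed r N P Ln | IsQ e ∧ e ∉ insert p.1 (pl l)} : ℕ) +
              2 * ζ * l.length + ζ := max_le (by linarith) (by linarith)
        linarith
      · have a1 := G.cal.chain (p :: l) ∅ (ed D s p.1) CC
        have a2 := G.cal.stepU_UC1 ∅ _ p l hl le_rfl
        have a3 := G.cal.cap l ∅ p.2
        have a4 := G.cal.cap (p :: l) (∅ ∪ ed D s p.1) CC
        rw [union_eq_right.2 hC] at a1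
        rw [sdiff_empty, hk.2] at a3
        have a5 : ((CC : Finset (Vx r s N P Ln)) \ (∅ ∪ ed D s p.1)).card + r =
            (CN : Finset (Vx r s N P Ln)).card := by
          have b1 := card_sdiff_add_card_eq_card hC
          have b2 := hO.hs
          rw [card_ed hO, card_CC] at b1
          rw [empty_union]
          omega
        have a6 : #{e : Ed r N P Ln | IsQ e ∧ e ∉ pl l} = #{e : Ed r N P Ln | IsQ e} :=
          congrArg card (filter_congr fun e _ =>
            ⟨fun h => h.1, fun h => ⟨h, fun he => h0 ⟨e, he, h⟩⟩⟩)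
        have a7 := card_WN1 (N := N) (P := P) (Ln := Ln) hO
        rw [← a6, c1, ← a5] at a7
        push_cast at a7
        have a8 : de r ≤ r := by
          have b1 := (de_bd hO).2
          have b2 : (2 : ℝ) ≤ r := by exact_mod_cast hO.hr
          have b3 : 0 ≤ de r := z0.le.trans G.zd
          nlinarith
        have a9 : max (G.ν l ∅ p.2 - (de r - ζ)) 0 ≤ r - de r + ζ :=
          max_le (by linarith) (by linarith)
        linarith
    · have h0 : HasQ l := by
        obtain ⟨e, he, hq⟩ := hQ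
        rw [pl_cons, mem_insert] at he
        exact ⟨e, he.resolve_left fun h => hp (h ▸ hq), hq⟩
      have c1 : #{e : Ed r N P Ln | IsQ e ∧ e ∉ insert p.1 (pl l)} =
          #{e : Ed r N P Ln | IsQ e ∧ e ∉ pl l} :=
        congrArg card (filter_congr fun e _ => and_congr_right fun hq => by
          rw [mem_insert, not_or]
          exact ⟨fun h => h.2, fun h => ⟨fun h1 => hp (h1 ▸ hq), h⟩⟩)
      have a1 := ih hl.tail h0
      have a2 := G.cal.time p l ∅ CC
      rw [c1]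
      linarith

theorem lemQ (hO : Ok r s) (G : Play (ed D s) r (de r) ζ)
    {l : List (Ed r N P Ln × Finset (Vx r s N P Ln))} (hl : l <:+ G.ps) (hQ : HasQ l) :
    G.ν l ∅ CC ≤ de r * (#{e | IsQ e ∧ e ∉ pl l} : ℕ) + 2 * er (Ed r N P Ln) ζ := by
  have h1 := ind_WN1 hO G l (G.suf_valid hl) hQ
  have h2 := G.length_le hl
  linarith

end Pool.Agent.SemiRandom.Fix
end

-- part Pool.Agent.P.MP_c53d0e_pr.WN3
section

set_option autoImplicit false
set_option linter.unusedSectionVars false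

namespace Pool.Agent.SemiRandom.Fix

open Finset Und

variable {r s N : ℕ} {P Ln : Type} [NeZero r] [Fintype P] [DecidableEq P] [Fintype Ln]
  [DecidableEq Ln] {D : Dat r N P Ln} {ζ : ℝ}

lemma ne_WN3 {e : Ed r N P Ln} {v : Vx r s N P Ln} (h : (dn e v : ℝ) * hh r ≠ 0) :
    dn e v ≠ 0 := fun h' => h (by rw [h', Nat.cast_zero, zero_mul])

lemma ds_WN3 (hO : Ok r s) (D : Dat r N P Ln) (e : Ed r N P Ln) (v : Vx r s N P Ln)
    (h : (dn e v : ℝ) * hh r ≠ 0) : v ∈ ed D s e :=
  key0_sub hO D e (dn_key0 hO D (ne_WN3 h))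

lemma dt_WN3 (hO : Ok r s) (U : Finset (Vx r s N P Ln)) (e : Ed r N P Ln) :
    ∑ v ∈ U, (dn e v : ℝ) * hh r ≤ de r := by
  rw [← sum_mul, de]
  refine mul_le_mul_of_nonneg_right ?_ (hh_pos r).le
  exact_mod_cast dn_sum_le hO e U

lemma ld_WN3 (v : Vx r s N P Ln) :
    ∑ e : Ed r N P Ln, (dn e v : ℝ) * hh r = (ld v : ℝ) * hh r := by
  rw [← sum_mul, ld, Nat.cast_sum]

/-- The master inequality for the designed duties. -/
theorem lemM (hO : Ok r s) (G : Play (ed D s) r (de r) ζ)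
    {l : List (Ed r N P Ln × Finset (Vx r s N P Ln))} (hl : l <:+ G.ps) (hQ : HasQ l)
    (X : Finset (Cp r N Ln)) (A B : Finset P) (K : Finset (Vx r s N P Ln))
    (hX : ∀ z ∈ X, IsPay z) (hp : ∀ z ∈ X, ∀ p ∈ rpar D.I z, p ∈ A ∨ p ∈ B)
    {k0 k1 : ℝ} (h0 : G.ν l CC (pts B) ≤ k0) (h1 : G.ν l (CC ∪ pts B ∪ UU X A) K ≤ k1)
    (hk : ∀ F i, pay F i ∈ X → eF F ∈ pl l → G.key (eF F) ⊆ CC ∪ pts B ∪ UU X A)
    (hk' : ∀ F i, pay F i ∈ X → eF F ∉ pl l → G.key (eF F) ⊆ CC ∪ pts B ∪ UU X A ∪ K)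
    (E0 : Finset (Ed r N P Ln)) (g : ℕ)
    (hE : ∀ e ∈ E0, e ∉ pl l ∧ ¬ IsQ e ∧ G.key e ⊆ CC ∪ pts B ∪ UU X A ∪ K ∧
      ∑ v ∈ (UU X A : Finset (Vx r s N P Ln)), dn e v + g ≤ 8 * r) :
    (E0.card : ℝ) * g * hh r ≤ A.card * hh r + k0 + k1 + 5 * er (Ed r N P Ln) ζ := by
  have hsub : ∀ e v, v ∈ (UU X A : Finset (Vx r s N P Ln)) → (dn e v : ℝ) * hh r ≠ 0 →
      G.key e ⊆ CC ∪ pts B ∪ UU X A ∨ ∃ F i, e = eF F ∧ pay F i ∈ X := fun e v hv h => by
    rcases dn_UU hv (ne_WN3 h) with ⟨w, t, rfl, hw⟩ | h'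
    · exact Or.inl ((G.key_sub _).trans (ed_O_sub hO D hp hw t))
    · exact Or.inr h'
  have h := G.master hl IsQ CC (pts B) (UU X A) K
    (fun e he => by
      rcases e with x | y
      · exact ed_Q_sub hO D x
      · exact he.elim)
    (lemQ hO G hl hQ) h0 h1 (fun e v => (dn e v : ℝ) * hh r)
    (fun e v => mul_nonneg (Nat.cast_nonneg _) (hh_pos r).le) (ds_WN3 hO D) (dt_WN3 hO _)
    (fun v _ => by
      rw [ld_WN3, ← qq_hh r]
      exact mul_le_mul_of_nonneg_right (Nat.cast_le.2 (ld_le hO v)) (hh_pos r).le)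
    (fun e he v hv => by
      rcases e with x | y
      · by_contra h
        obtain ⟨c, rfl⟩ := (mem_CN v).1 (dn_Q (ne_WN3 h))
        simp [mem_UU] at hv
      · exact he.elim)
    (fun e he v hv h => by
      rcases hsub e v hv h with h' | ⟨F, i, rfl, h'⟩
      · exact h'
      · exact hk F i h' he)
    (fun e he v hv h => by
      rcases hsub e v hv h with h' | ⟨F, i, rfl, h'⟩
      · exact h'.trans subset_union_left
      · exact hk' F i h' he)
    E0 fun e he => ⟨(hE e he).1, (hE e he).2.1, (hE e he).2.2.1⟩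
  have a1 : ∑ v ∈ (UU X A : Finset (Vx r s N P Ln)),
      (1 - ∑ e : Ed r N P Ln, (dn e v : ℝ) * hh r) = A.card * hh r := by
    rw [← spare_UU hO hX A, Nat.cast_sum, sum_mul]
    refine sum_congr rfl fun v _ => ?_
    rw [ld_WN3, Nat.cast_sub (ld_le hO v), sub_mul, qq_hh]
  have a2 : (E0.card : ℝ) * g * hh r ≤
      ∑ e ∈ E0, (de r - ∑ v ∈ (UU X A : Finset (Vx r s N P Ln)), (dn e v : ℝ) * hh r) := by
    rw [mul_assoc, ← nsmul_eq_mul]
    refine card_nsmul_le_sum _ _ _ fun e he => ?_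
    have b1 : ((∑ v ∈ (UU X A : Finset (Vx r s N P Ln)), dn e v + g : ℕ) : ℝ) ≤ (8 * r : ℕ) :=
      Nat.cast_le.2 (hE e he).2.2.2
    have b2 := mul_le_mul_of_nonneg_right b1 (hh_pos r).le
    push_cast at b2
    rw [← sum_mul, de]
    linarith
  linarith

/-- A point whose edges are played has at most one unit left. -/
theorem low_of_own (hO : Ok r s) (G : Play (ed D s) r (de r) ζ)
    {l : List (Ed r N P Ln × Finset (Vx r s N P Ln))} (hl : l <:+ G.ps) {p : P}
    (h : Own l (.pt p)) : G.ν l CC {.nv (.pt p)} ≤ hh r + 2 * er (Ed r N P Ln) ζ := by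
  have h1 := G.lemV hl CC (.nv (.pt p)) (univ.image fun t => eO (.pt p) t) fun e he => by
    obtain ⟨t, -, rfl⟩ := mem_image.1 he
    refine ⟨(mem_ed_O hO D _ t _).2 (Or.inr (Or.inl rfl)), fun v hv => ?_⟩
    rcases (mem_ed_O hO D _ t _).1 hv with a | a | ⟨π, a, -⟩ | ⟨k, -, -, a⟩
    · exact mem_insert_of_mem (mem_union_left _ a)
    · exact mem_insert.2 (Or.inl a)
    · simp at a
    · exact mem_insert_of_mem (mem_union_right _ (mem_insert_of_mem (a ▸ cc_mem_CN 0 t k)))
  rw [inter_eq_left.2 (fun e he => by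
    obtain ⟨t, -, rfl⟩ := mem_image.1 he
    exact h t), card_image_of_injective _ (fun t t' a => by simpa using a), card_univ,
    Fintype.card_fin] at h1
  have h2 := al_de r
  have h3 : max 0 (1 - de r * (al r : ℝ)) ≤ hh r := max_le (hh_pos r).le (by linarith)
  linarith

/-- A point with little entropy has all its edges played. -/
theorem own_of_low (hS : Sm D s ζ) (G : Play (ed D s) r (de r) ζ)
    {l : List (Ed r N P Ln × Finset (Vx r s N P Ln))} (hl : l <:+ G.ps) (hQ : HasQ l) {p : P}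
    (h : G.ν l CC {.nv (.pt p)} ≤ 3 * hh r) : Own l (.pt p) := by
  intro t
  by_contra ht
  have e1 : (UU ∅ ∅ : Finset (Vx r s N P Ln)) = ∅ := by simp [UU, pts, cvs]
  have e2 : (pts ∅ : Finset (Vx r s N P Ln)) = ∅ := by simp [pts]
  have h1 := lemM hS.ok G hl hQ ∅ ∅ ∅ {.nv (.pt p)} (by simp) (by simp) (k0 := 0)
    (k1 := 3 * hh r) ((G.cal.cap _ _ _).trans (by simp [pts]))
    (by rwa [e1, e2, union_empty, union_empty]) (by simp) (by simp) {eO (.pt p) t} 16
    fun e he => by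
      rw [mem_singleton.1 he, e1, e2, union_empty, union_empty, sum_empty]
      refine ⟨ht, id, (G.key_sub _).trans fun v hv => ?_, by have := hS.ok.hr; omega⟩
      rcases (mem_ed_O hS.ok D _ t _).1 hv with a | a | ⟨π, a, -⟩ | ⟨k, -, -, a⟩
      · exact mem_union_left _ (mem_union_left _ a)
      · exact mem_union_right _ (mem_singleton.2 a)
      · simp at a
      · exact mem_union_left _ (mem_union_right _ (mem_insert_of_mem (a ▸ cc_mem_CN 0 t k)))
  rw [card_singleton, card_empty] at h1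
  push_cast at h1
  linarith [hS.small, hh_pos r]

/-- A finished line determines its target. -/
theorem line_fd (hO : Ok r s) (G : Play (ed D s) r (de r) ζ)
    {l : List (Ed r N P Ln × Finset (Vx r s N P Ln))} (hl : l <:+ G.ps) {e : Ln}
    (hR : Right G (.L e)) (he : eF (.L e) ∈ pl l) (h1 : ∀ i, Own l (.cv (.L e, i)))
    (h2 : ∀ (i : Fin r) (k : Fin 15), (k : ℕ) < 7 → Own l (.tk (.L e, i) k)) :
    G.ν l (CC ∪ pts (Src D e)) {.nv (.pt (D.I.tgt e))} ≤ 3 * er (Ed r N P Ln) ζ := by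
  set X : Finset (Cp r N Ln) := PY r (.L e) with hXd
  have hp : ∀ z ∈ X, ∀ p ∈ rpar D.I z, p ∈ (∅ : Finset P) ∨ p ∈ Src D e :=
    fun z hz p h => Or.inr (rpar_L D hz p h)
  have hc : (cvs X : Finset (Vx r s N P Ln)) ⊆ UU X ∅ := subset_union_right.trans subset_union_left
  have hown : ∀ w : NV r N P Ln, (Vx.nv w : Vx r s N P Ln) ∈ UU X ∅ → Own l w := fun w hw => by
    rcases (mem_UU _ _ _).1 hw with ⟨p, a, -⟩ | ⟨z, a, b⟩ | ⟨z, a, k, b, c⟩
    · simp at a
    · obtain ⟨i, rfl⟩ := (mem_PY _ _).1 a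
      rw [Vx.nv.inj b]
      exact h1 i
    · obtain ⟨i, rfl⟩ := (mem_PY _ _).1 a
      rw [Vx.nv.inj c]
      exact h2 i k b
  have g1 := G.lemG hl (CC ∪ pts (Src D e)) (UU X ∅) (fun e v => (dn e v : ℝ) * hh r)
    (fun e v => mul_nonneg (Nat.cast_nonneg _) (hh_pos r).le) (ds_WN3 hO D) (dt_WN3 hO _)
    fun e' _ v hv h => by
      rcases dn_UU hv (ne_WN3 h) with ⟨w, t, rfl, hw⟩ | ⟨F, i, rfl, h'⟩
      · exact (G.key_sub _).trans (ed_O_sub hO D hp hw t)
      · rw [role_L h', hR]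
        exact hc.trans subset_union_right
  have g2 : ∑ v ∈ (UU X ∅ : Finset (Vx r s N P Ln)) \ (CC ∪ pts (Src D e)),
      max 0 (1 - ∑ e' ∈ pl l, (dn e' v : ℝ) * hh r) = 0 := by
    refine sum_eq_zero fun v hv => ?_
    have hv' := (mem_sdiff.1 hv).1
    have b1 : ∑ e' ∈ pl l, (dn e' v : ℝ) * hh r = ∑ e' : Ed r N P Ln, (dn e' v : ℝ) * hh r := by
      refine sum_subset (subset_univ _) fun e' _ h => ?_
      by_contra h'
      rcases dn_UU hv' (ne_WN3 h') with ⟨w, t, rfl, hw⟩ | ⟨F, i, rfl, h''⟩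
      · exact h (hown w hw t)
      · exact h (role_L h'' ▸ he)
    have b2 : ld v = qq r := by
      rcases (mem_UU _ _ _).1 hv' with ⟨p, a, -⟩ | ⟨z, a, rfl⟩ | ⟨z, a, k, b, rfl⟩
      · simp at a
      · exact ld_cv hO ⟨_, (mem_PY _ _).1 a⟩
      · have := ld_tk hO (P := P) z k
        rwa [if_pos b, add_zero] at this
    rw [b1, ld_WN3, b2, qq_hh, sub_self, max_self]
  have g3 := G.lemFD hl he (A := CC ∪ pts (Src D e) ∪ UU X ∅) (B := {.nv (.pt (D.I.tgt e))})
    (by rw [hR]; exact hc.trans subset_union_right)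
    (singleton_subset_iff.2 (mem_union_right _ ((mem_ed_F D _ _).2 (Or.inr (Or.inl rfl)))))
  have g4 := G.cal.chain l (CC ∪ pts (Src D e)) (UU X ∅) {.nv (.pt (D.I.tgt e))}
  have g5 := G.cal.mono l (CC ∪ pts (Src D e)) _ {.nv (.pt (D.I.tgt e))}
    (UU X ∅ ∪ {.nv (.pt (D.I.tgt e))}) le_rfl (subset_union_right.trans subset_union_right)
  linarith

end Pool.Agent.SemiRandom.Fix
end

-- part Pool.Agent.P.MP_c53d0e_pr.WN4
section

set_option autoImplicit false
set_option linter.unusedSectionVars false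

namespace Pool.Agent.SemiRandom.Fix

open Finset Und

variable {r s N : ℕ} {P Ln : Type} [NeZero r] [Fintype P] [DecidableEq P] [Fintype Ln]
  [DecidableEq Ln] {D : Dat r N P Ln} {ζ : ℝ}

lemma exists_missing (G : Play (ed D s) r (de r) ζ) {F : FD N Ln} (h : ¬ Right G F) :
    ∃ i, (Vx.nv (.cv (pay F i)) : Vx r s N P Ln) ∉ G.key (eF F) := by
  by_contra h'
  refine h (eq_of_subset_of_card_le (fun v hv => ?_) (by rw [G.key_card, card_cvs_PY])).symm
  obtain ⟨z, hz, rfl⟩ := (mem_cvs _ _).1 hv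
  obtain ⟨i, rfl⟩ := (mem_PY _ _).1 hz
  exact by_contra fun k => h' ⟨i, k⟩

/-- A payer outside the random part is fatal. -/
theorem wrong_key (hS : Sm D s ζ) (G : Play (ed D s) r (de r) ζ) (F : FD N Ln) (i : Fin r)
    (hi : (Vx.nv (.cv (pay F i)) : Vx r s N P Ln) ∉ G.key (eF F))
    (X : Finset (Cp r N Ln)) (A : Finset P) (hA : A.card ≤ 7) (hX : ∀ z ∈ X, IsPay z)
    (hp : ∀ z ∈ X, ∀ p ∈ rpar D.I z, p ∈ A) (h1 : pay F i ∉ X)
    (h2 : ∀ i', i' ≠ i → pay F i' ∈ X) (h3 : (Vx.nv (tgtv D F) : Vx r s N P Ln) ∈ UU X A)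
    (h4 : ∀ F' i', pay F' i' ∈ X → F' ≠ F → G.key (eF F') ⊆ CC ∪ UU X A) : False := by
  obtain ⟨l, -, hl, hF, hQ⟩ := beforeF hS G F
  have k : ∀ F' i', pay F' i' ∈ X → G.key (eF F') ⊆ CC ∪ pts ∅ ∪ UU X A := fun F' i' h v hv => by
    have : v ∈ CC ∪ UU X A := by
      by_cases hF' : F' = F
      · subst hF'
        rcases (mem_ed_F D F' v).1 (G.key_sub _ hv) with a | rfl | ⟨j, rfl⟩
        · exact mem_union_left _ (mem_union_left _ a)
        · exact mem_union_right _ h3
        · exact mem_union_right _ ((cv_mem_UU _ _ _).2 (h2 j fun a => hi (a ▸ hv)))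
      · exact h4 F' i' h hF' hv
    simpa only [pts, image_empty, union_empty] using this
  obtain ⟨j, hj⟩ : ∃ j : Fin r, j ≠ i := by
    have : Nontrivial (Fin r) := Fin.nontrivial_iff_two_le.2 hS.ok.hr
    exact exists_ne i
  have h := lemM hS.ok G hl hQ X A ∅ ∅ hX (fun z hz p h => Or.inl (hp z hz p h)) (k0 := 0)
    (k1 := 0) ((G.cal.cap _ _ _).trans (by simp [pts])) ((G.cal.cap _ _ _).trans (by simp))
    (fun F' i' h _ => k F' i' h) (fun F' i' h _ => (k F' i' h).trans subset_union_left)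
    {eF F} 8 fun e he => by
      rw [mem_singleton.1 he]
      exact ⟨hF, id, (k F j (h2 j hj)).trans subset_union_left, gap_F hS.ok F X A h1⟩
  have a1 : (A.card : ℝ) ≤ 7 := by exact_mod_cast hA
  have a2 := mul_le_mul_of_nonneg_right a1 (hh_pos r).le
  rw [card_singleton] at h
  push_cast at h
  linarith [hS.small, hh_pos r]

theorem right_L (hS : Sm D s ζ) (G : Play (ed D s) r (de r) ζ) (e : Ln) : Right G (.L e) := by
  by_contra h
  obtain ⟨i, hi⟩ := exists_missing G h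
  refine wrong_key hS G (.L e) i hi ((PY r (.L e)).erase (pay (.L e) i))
    (insert (D.I.tgt e) (Src D e)) ((card_insert_le _ _).trans (by have := card_Src D e; omega))
    (fun z hz => ⟨_, (mem_PY _ _).1 (mem_of_mem_erase hz)⟩)
    (fun z hz p hp => mem_insert_of_mem (rpar_L D (mem_of_mem_erase hz) p hp)) (notMem_erase _ _)
    (fun i' h' => mem_erase.2 ⟨fun a => h' (pay_inj _ a), (mem_PY _ _).2 ⟨i', rfl⟩⟩)
    ((pt_mem_UU _ _ _).2 (mem_insert_self _ _))
    fun F' i' h1 h2 => (h2 (role_L (mem_of_mem_erase h1))).elim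

end Pool.Agent.SemiRandom.Fix
end

-- part Pool.Agent.P.MP_c53d0e_pr.WN5
section

set_option autoImplicit false
set_option linter.unusedSectionVars false

namespace Pool.Agent.SemiRandom.Fix

open Finset Und

variable {r s N : ℕ} {P Ln : Type} [NeZero r] [Fintype P] [DecidableEq P] [Fintype Ln]
  [DecidableEq Ln] {D : Dat r N P Ln} {ζ : ℝ}

/-- Finished payers of earlier stages. -/
def Old_WN5 (G : Play (ed D s) r (de r) ζ) (k : ℕ) (T : Finset (Cp r N Ln)) (A : Finset P) :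
    Prop := ∀ z ∈ T, IsPay z ∧ (∀ p ∈ rpar D.I z, p ∈ A) ∧ stF z.1 < k ∧
      ∀ F i, z = pay F i → G.key (eF F) ⊆ cvs T

lemma UU_mono_WN5 {X X' : Finset (Cp r N Ln)} {A A' : Finset P} (h : X ⊆ X') (h' : A ⊆ A') :
    (UU X A : Finset (Vx r s N P Ln)) ⊆ UU X' A' := by
  intro v hv
  rw [mem_UU] at hv ⊢
  rcases hv with ⟨p, a, b⟩ | ⟨z, a, b⟩ | ⟨z, a, b⟩
  exacts [Or.inl ⟨p, h' a, b⟩, Or.inr (Or.inl ⟨z, h a, b⟩), Or.inr (Or.inr ⟨z, h a, b⟩)]

lemma cvs_sub_WN5 {X X' : Finset (Cp r N Ln)} (A : Finset P) (h : X ⊆ X') :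
    (cvs X : Finset (Vx r s N P Ln)) ⊆ CC ∪ UU X' A := by
  intro v hv
  obtain ⟨z, hz, rfl⟩ := (mem_cvs _ _).1 hv
  exact mem_union_right _ ((cv_mem_UU _ _ _).2 (h hz))

lemma oldD_WN5 (hS : Sm D s ζ) (G : Play (ed D s) r (de r) ζ) (j : Fin (N + 1)) :
    ∃ T A, A.card ≤ 7 ∧ Bas D ⊆ A ∧ Old_WN5 G (3 + j) T A ∧ ∀ j' : Fin N, j = j'.castSucc →
      (Vx.nv (tgtv D (.D j')) : Vx r s N P Ln) ∈ UU T A := by
  by_cases h : ∃ j' : Fin N, j = j'.castSucc
  · obtain ⟨j', rfl⟩ := h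
    refine ⟨PY r (.L (D.tg j').1), Bas D ∪ Src D (D.tg j').1, (card_union_le _ _).trans
      (by have := card_Bas D; have := card_Src D (D.tg j').1; omega), subset_union_left,
      fun z hz => ⟨⟨_, (mem_PY _ _).1 hz⟩, fun p hp => mem_union_right _ (rpar_L D hz p hp), ?_,
        fun F i e => ?_⟩, fun j'' e => ?_⟩
    · obtain ⟨i, rfl⟩ := (mem_PY _ _).1 hz
      rw [stF_pay]
      show 2 < _
      omega
    · subst e
      have c := role_L hz
      have c' := (right_L hS G (D.tg j').1).le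
      rw [← c] at c' ⊢
      exact c' 
    · rw [← Fin.castSucc_injective _ e]
      exact (cv_mem_UU _ _ _).2 ((mem_PY _ _).2 ⟨(D.tg j').2, rfl⟩)
  · exact ⟨∅, Bas D, (card_Bas D).trans (by omega), le_rfl, fun z hz => by simp at hz,
      fun j' e => (h ⟨j', e⟩).elim⟩

lemma oldE_WN5 (G : Play (ed D s) r (de r) ζ) (j : Fin (N + 1))
    (ih : ∀ j' : Fin N, j = j'.succ → Right G (.E j'.castSucc) ∧ Right G (.D j')) :
    ∃ T, Old_WN5 G (3 + j) T (Bas D) ∧
      (Vx.nv (tgtv D (.E j)) : Vx r s N P Ln) ∈ UU T (Bas D) := by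
  induction j using Fin.cases with
  | zero => exact ⟨∅, fun z hz => by simp at hz, (pt_mem_UU _ _ _).2 ((mem_Bas _ _).2 ⟨0, rfl⟩)⟩
  | succ j =>
    obtain ⟨h1, h2⟩ := ih j rfl
    refine ⟨Blk r j.castSucc, fun z hz => ⟨?_, rpar_Blk D hz, ?_, fun F i e => ?_⟩,
      (cv_mem_UU _ _ _).2 ((mem_Blk _ _).2 (Or.inl (aa_mem_E _)))⟩
    · rcases (mem_Blk _ _).1 hz with a | ⟨j', -, a⟩
      exacts [⟨_, (mem_PY _ _).1 a⟩, ⟨_, (mem_PY _ _).1 a⟩]
    · rw [stF_Blk hz, Fin.val_castSucc, Fin.val_succ]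
      omega
    · obtain ⟨a, b⟩ := role_Blk (e ▸ hz)
      have c : Right G F := by
        rcases a with rfl | ⟨j', a, rfl⟩
        exacts [h1, Fin.castSucc_injective _ a ▸ h2]
      rw [c]
      exact image_subset_image b

lemma shared_WN5 {j : Fin (N + 1)} {F F' : FD N Ln} {i i' : Fin r}
    (hF : F = .E j ∨ ∃ j' : Fin N, j = j'.castSucc ∧ F = .D j') (h : pay F' i' = pay F i)
    (hne : F' ≠ F) : pay F i = aa j := by
  rcases pay_eq h with a | ⟨j0, a, b⟩
  · exact (hne a).elim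
  · rw [← h, a]
    congr 1
    rcases b with ⟨-, rfl⟩ | ⟨-, rfl⟩ <;> rcases hF with c | ⟨j', c, c'⟩
    · exact FD.E.inj c
    · cases c'
    · cases c
    · rw [c, FD.D.inj c']

lemma right_blk_WN5 (hS : Sm D s ζ) (G : Play (ed D s) r (de r) ζ) (j : Fin (N + 1))
    (ih : ∀ j' : Fin N, j = j'.succ → Right G (.E j'.castSucc) ∧ Right G (.D j')) {F : FD N Ln}
    (hF : F = .E j ∨ ∃ j' : Fin N, j = j'.castSucc ∧ F = .D j') : Right G F := by
  by_contra h
  obtain ⟨i, hi⟩ := exists_missing G h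
  obtain ⟨T1, A, hA, hB, o1, t1⟩ := oldD_WN5 hS G j
  obtain ⟨T2, o2, t2⟩ := oldE_WN5 G j ih
  have hFB : PY r F ⊆ Blk r j := fun z hz => (mem_Blk _ _).2 (by
    rcases hF with rfl | ⟨j', a, rfl⟩
    exacts [Or.inl hz, Or.inr ⟨j', a, hz⟩])
  have tg : ∀ F' : FD N Ln, (F' = .E j ∨ ∃ j' : Fin N, j = j'.castSucc ∧ F' = .D j') →
      (Vx.nv (tgtv D F') : Vx r s N P Ln) ∈ UU (T1 ∪ T2) A := by
    rintro F' (rfl | ⟨j', a, rfl⟩)
    exacts [UU_mono_WN5 subset_union_right hB t2, UU_mono_WN5 subset_union_left le_rfl (t1 j' a)]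
  have main : ∀ Y, PY r F ⊆ Y → Y ⊆ Blk r j →
      (∀ F' i', pay F' i' ∈ Y.erase (pay F i) → F' ≠ F →
        G.key (eF F') ⊆ CC ∪ UU (Y.erase (pay F i) ∪ (T1 ∪ T2)) A) → False := by
    intro Y y1 y2 y3
    refine wrong_key hS G F i hi (Y.erase (pay F i) ∪ (T1 ∪ T2)) A hA (fun z hz => ?_)
      (fun z hz p hp => ?_) (fun hz => ?_)
      (fun i' h' => mem_union_left _ (mem_erase.2 ⟨fun a => h' (pay_inj _ a),
        y1 ((mem_PY _ _).2 ⟨i', rfl⟩)⟩))
      (UU_mono_WN5 subset_union_right le_rfl (tg F hF)) fun F' i' h1 h2 => ?_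
    · rcases mem_union.1 hz with a | a
      · rcases (mem_Blk _ _).1 (y2 (mem_of_mem_erase a)) with b | ⟨j', -, b⟩
        exacts [⟨_, (mem_PY _ _).1 b⟩, ⟨_, (mem_PY _ _).1 b⟩]
      · rcases mem_union.1 a with b | b
        exacts [(o1 z b).1, (o2 z b).1]
    · rcases mem_union.1 hz with a | a
      · exact hB (rpar_Blk D (y2 (mem_of_mem_erase a)) p hp)
      · rcases mem_union.1 a with b | b
        exacts [(o1 z b).2.1 p hp, hB ((o2 z b).2.1 p hp)]
    · have c := stF_Blk (hFB ((mem_PY _ _).2 ⟨i, rfl⟩))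
      rcases mem_union.1 hz with a | a
      · exact notMem_erase _ _ a
      · rcases mem_union.1 a with b | b
        exacts [(o1 _ b).2.2.1.ne c, (o2 _ b).2.2.1.ne c]
    · rcases mem_union.1 h1 with a | a
      · exact y3 F' i' a h2
      · rcases mem_union.1 a with b | b
        · exact ((o1 _ b).2.2.2 F' i' rfl).trans
            (cvs_sub_WN5 A (subset_union_left.trans subset_union_right))
        · exact ((o2 _ b).2.2.2 F' i' rfl).trans
            (cvs_sub_WN5 A (subset_union_right.trans subset_union_right))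
  by_cases ha : pay F i = aa j
  · refine main (PY r F) le_rfl hFB fun F' i' h1 h2 => ?_
    obtain ⟨a, b⟩ := mem_erase.1 h1
    obtain ⟨i'', c⟩ := (mem_PY _ _).1 b
    exact (a (c.trans ((shared_WN5 hF c h2).trans ha.symm))).elim
  · refine main (Blk r j) hFB le_rfl fun F' i' h1 h2 v hv => ?_
    obtain ⟨a, b⟩ := role_Blk (mem_of_mem_erase h1)
    rcases (mem_ed_F D F' v).1 (G.key_sub _ hv) with c | rfl | ⟨i'', rfl⟩
    · exact mem_union_left _ (mem_union_left _ c)
    · exact mem_union_right _ (UU_mono_WN5 subset_union_right le_rfl (tg F' a))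
    · exact mem_union_right _ ((cv_mem_UU _ _ _).2 (mem_union_left _ (mem_erase.2
        ⟨fun c => ha (shared_WN5 hF c h2), b ((mem_PY _ _).2 ⟨i'', rfl⟩)⟩)))

/-- One step of the induction along the chain. -/
theorem right_step (hS : Sm D s ζ) (G : Play (ed D s) r (de r) ζ) (j : Fin (N + 1))
    (ih : ∀ j' : Fin N, j = j'.succ → Right G (.E j'.castSucc) ∧ Right G (.D j')) :
    Right G (.E j) ∧ ∀ j' : Fin N, j = j'.castSucc → Right G (.D j') := by
  exact ⟨right_blk_WN5 hS G j ih (Or.inl rfl),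
    fun j' h => right_blk_WN5 hS G j ih (Or.inr ⟨j', h, rfl⟩)⟩

theorem right_all (hS : Sm D s ζ) (G : Play (ed D s) r (de r) ζ) (F : FD N Ln) : Right G F := by
  have key : ∀ j : Fin (N + 1),
      Right G (.E j) ∧ ∀ j' : Fin N, j = j'.castSucc → Right G (.D j') := by
    intro j
    induction j using Fin.induction with
    | zero => exact right_step hS G 0 fun j' h => (Fin.succ_ne_zero j' h.symm).elim
    | succ j ih =>
      refine right_step hS G _ fun j' h => ?_
      rw [← Fin.succ_injective _ h]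
      exact ⟨ih.1, ih.2 j rfl⟩
  cases F with
  | L e => exact right_L hS G e
  | D j => exact (key j.castSucc).2 j rfl
  | E j => exact (key j).1

end Pool.Agent.SemiRandom.Fix
end

-- part Pool.Agent.P.MP_c53d0e_pr.WN6
section

set_option autoImplicit false
set_option linter.unusedSectionVars false

namespace Pool.Agent.SemiRandom.Fix

open Finset Und

variable {r s N : ℕ} {P Ln : Type} [NeZero r] [Fintype P] [DecidableEq P] [Fintype Ln]
  [DecidableEq Ln] {D : Dat r N P Ln} {ζ : ℝ}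

lemma empty_WN6 (G : Play (ed D s) r (de r) ζ)
    (l : List (Ed r N P Ln × Finset (Vx r s N P Ln))) : G.ν l CC (pts ∅) ≤ 0 := by
  have h := G.cal.cap l CC (pts ∅)
  simpa [pts] using h

lemma isPay_WN6 {j : Fin (N + 1)} {z : Cp r N Ln} (h : z ∈ Blk r j) : IsPay z := by
  rcases (mem_Blk j z).1 h with h | ⟨j', -, h⟩
  · obtain ⟨i, hi⟩ := (mem_PY _ _).1 h
    exact ⟨_, i, hi⟩
  · obtain ⟨i, hi⟩ := (mem_PY _ _).1 h
    exact ⟨_, i, hi⟩

lemma key_WN6 (G : Play (ed D s) r (de r) ζ) (hR : ∀ F, Right G F) {F : FD N Ln}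
    {X : Finset (Cp r N Ln)} (A : Finset P) (h : PY r F ⊆ X) :
    G.key (eF F) ⊆ CC ∪ pts ∅ ∪ UU X A := by
  intro v hv
  rw [hR F] at hv
  obtain ⟨z, hz, rfl⟩ := (mem_cvs _ _).1 hv
  exact mem_union_right _ ((cv_mem_UU _ _ _).2 (h hz))

lemma fd_WN6 (G : Play (ed D s) r (de r) ζ) (hR : ∀ F, Right G F)
    {l : List (Ed r N P Ln × Finset (Vx r s N P Ln))} (hl : l <:+ G.ps) {F : FD N Ln}
    (hk : eF F ∈ pl l) {X : Finset (Cp r N Ln)} (A : Finset P) (h : PY r F ⊆ X) :
    G.ν l (CC ∪ pts ∅ ∪ UU X A) {.nv (tgtv D F)} ≤ er (Ed r N P Ln) ζ := by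
  refine G.lemFD hl hk (key_WN6 G hR A h) ?_
  intro v hv
  rw [mem_singleton] at hv
  exact mem_union_right _ ((mem_ed_F D F v).2 (Or.inr (Or.inl hv)))

lemma parents_WN6 (D : Dat r N P Ln) (F : FD N Ln) :
    ∃ A : Finset P, A.card ≤ 6 ∧ Bas D ⊆ A ∧ ∀ z ∈ PY r F, ∀ p ∈ rpar D.I z, p ∈ A := by
  have hB := card_Bas D
  cases F with
  | L e =>
    have h1 := card_Src D e
    have h2 := card_union_le (Bas D) (Src D e)
    exact ⟨Bas D ∪ Src D e, by omega, subset_union_left,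
      fun z hz p hp => mem_union_right _ (rpar_L D hz p hp)⟩
  | D j =>
    exact ⟨Bas D, by omega, Subset.refl _, fun z hz p hp =>
      rpar_Blk D (j := j.castSucc) ((mem_Blk _ z).2 (Or.inr ⟨j, rfl, hz⟩)) p hp⟩
  | E j =>
    exact ⟨Bas D, by omega, Subset.refl _, fun z hz p hp =>
      rpar_Blk D (j := j) ((mem_Blk _ z).2 (Or.inl hz)) p hp⟩

/-- A target that pays in a block edge is the main vertex of that block. -/
lemma main_WN6 {Fk F : FD N Ln} {i : Fin r} (ht : tgtv D Fk = .cv (pay F i)) {j : Fin N}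
    (hF : F = .D j ∨ F = .E j.castSucc) : pay F i = aa j.castSucc := by
  have h0 : (∃ e k, pay F i = (.L e, k)) ∨ ∃ j', pay F i = aa j' := by
    cases Fk with
    | L e => simp [tgtv] at ht
    | D j1 =>
      simp only [tgtv, NV.cv.injEq] at ht
      exact Or.inl ⟨_, _, ht.symm⟩
    | E j1 =>
      induction j1 using Fin.cases with
      | zero => simp [tgtv] at ht
      | succ j2 =>
        simp only [tgtv, Fin.cases_succ, NV.cv.injEq] at ht
        exact Or.inr ⟨_, ht.symm⟩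
  rcases hF with rfl | rfl
  · by_cases hi : (i : ℕ) = 0
    · have : i = 0 := Fin.ext (by simpa using hi)
      subst this
      simp [pay, aa]
    · rcases h0 with ⟨e, k, h⟩ | ⟨j', h⟩ <;> simp [pay, aa, hi] at h
  · rcases h0 with ⟨e, k, h⟩ | ⟨j', h⟩
    · simp [pay] at h
    · simp only [pay, aa, Prod.mk.injEq] at h
      simp [pay, aa, h.2]

lemma only_WN6 {Fk F F' : FD N Ln} {i i' : Fin r} (ht : tgtv D Fk = .cv (pay F i))
    (h : pay F' i' ∈ (PY r F).erase (pay F i)) : F' = F := by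
  obtain ⟨h1, h2⟩ := mem_erase.1 h
  obtain ⟨k, hk⟩ := (mem_PY _ _).1 h2
  rcases pay_eq hk with h3 | ⟨j, h3, h4⟩
  · exact h3
  · exfalso
    apply h1
    rw [h3]
    rcases h4 with h4 | h4
    · exact (main_WN6 ht (Or.inr h4.2)).symm
    · exact (main_WN6 ht (Or.inl h4.2)).symm

/-- An edge cannot be played after one of its payers has been destroyed. -/
theorem role_before (hS : Sm D s ζ) (G : Play (ed D s) r (de r) ζ) (hR : ∀ F, Right G F)
    {l : List (Ed r N P Ln × Finset (Vx r s N P Ln))} (hl : l <:+ G.ps) {j : Fin (N + 1)}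
    {Fk F : FD N Ln} (hk : eF Fk ∈ pl l) (hj : PY r Fk ⊆ Blk r j) {i : Fin r}
    (ht : tgtv D Fk = .cv (pay F i)) (hF : stF F < 3 + j) : eF F ∈ pl l := by
  by_contra hn
  obtain ⟨A, hA, hB, hP⟩ := parents_WN6 D F
  have hz : pay F i ∉ Blk r j ∪ (PY r F).erase (pay F i) := by
    intro h
    rcases mem_union.1 h with h | h
    · have h1 := stF_Blk h
      rw [stF_pay] at h1
      omega
    · exact (mem_erase.1 h).1 rfl
  have hkey : G.key (eF F) ⊆ CC ∪ pts ∅ ∪ UU (Blk r j ∪ (PY r F).erase (pay F i)) A ∪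
      {Vx.nv (.cv (pay F i))} := by
    intro v hv
    rw [hR F] at hv
    obtain ⟨z, hz', rfl⟩ := (mem_cvs _ _).1 hv
    by_cases h : z = pay F i
    · exact mem_union_right _ (by rw [h]; exact mem_singleton_self _)
    · exact mem_union_left _ (mem_union_right _
        ((cv_mem_UU _ _ _).2 (mem_union_right _ (mem_erase.2 ⟨h, hz'⟩))))
  have h1 := fd_WN6 G hR hl hk A (hj.trans (subset_union_left (s₂ := (PY r F).erase (pay F i))))
  rw [ht] at h1
  have hM := lemM hS.ok G hl (lemZ hS G hl hk) (Blk r j ∪ (PY r F).erase (pay F i)) A ∅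
    {Vx.nv (.cv (pay F i))} ?_ ?_ (empty_WN6 G l) h1 ?_ ?_ {eF F} 8 ?_
  · have h2 := hS.small
    have h3 := hh_pos r
    have h4 : (A.card : ℝ) ≤ 6 := by exact_mod_cast hA
    have h5 := mul_le_mul_of_nonneg_right h4 h3.le
    simp only [card_singleton, Nat.cast_one, Nat.cast_ofNat] at hM
    linarith
  · intro z h
    rcases mem_union.1 h with h | h
    · exact isPay_WN6 h
    · obtain ⟨k, hk⟩ := (mem_PY _ _).1 (mem_erase.1 h).2
      exact ⟨F, k, hk⟩
  · intro z h p hp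
    rcases mem_union.1 h with h | h
    · exact Or.inl (hB (rpar_Blk D h p hp))
    · exact Or.inl (hP z (mem_erase.1 h).2 p hp)
  · intro F' i' h hpl
    rcases mem_union.1 h with h | h
    · exact key_WN6 G hR A ((role_Blk h).2.trans subset_union_left)
    · rw [only_WN6 ht h] at hpl
      exact absurd hpl hn
  · intro F' i' h _
    rcases mem_union.1 h with h | h
    · exact (key_WN6 G hR A ((role_Blk h).2.trans subset_union_left)).trans subset_union_left
    · rw [only_WN6 ht h]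
      exact hkey
  · intro e he
    rw [mem_singleton] at he
    subst he
    exact ⟨hn, fun h => h, hkey, gap_F hS.ok F _ A hz⟩

lemma zero_WN6 {X : Finset (Cp r N Ln)} {A : Finset P} {w : NV r N P Ln} (t : Fin (al r))
    (hw : (Vx.nv w : Vx r s N P Ln) ∉ UU X A) :
    ∑ v ∈ (UU X A : Finset (Vx r s N P Ln)), dn (eO w t : Ed r N P Ln) v = 0 := by
  refine sum_eq_zero fun v hv => ?_
  by_contra h
  rcases dn_O h with h | ⟨τ, h1, h2⟩
  · exact hw (h ▸ hv)
  · obtain ⟨z, i, rfl, rfl, -⟩ := ptk_cases h1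
    rw [h2, tk_mem_UU] at hv
    exact hw ((cv_mem_UU _ _ _).2 hv.1)

lemma edO_WN6 (hO : Ok r s) {w : NV r N P Ln} {t : Fin (al r)} {S : Finset (Vx r s N P Ln)}
    (hC : CC ⊆ S) (hw : Vx.nv w ∈ S) (hp : ∀ π, par D.I w t = some π → Vx.nv π ∈ S) :
    ed D s (eO w t) ⊆ S := by
  intro v hv
  rcases (mem_ed_O hO D w t v).1 hv with h | rfl | ⟨π, h, rfl⟩ | ⟨k, -, -, rfl⟩
  · exact hC (mem_union_left _ h)
  · exact hw
  · exact hp π h
  · exact hC (mem_union_right _ (mem_insert_of_mem (cc_mem_CN _ _ _)))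

/-- The master inequality for the block of a played destroyer. -/
lemma blk_WN6 (hS : Sm D s ζ) (G : Play (ed D s) r (de r) ζ) (hR : ∀ F, Right G F)
    {l : List (Ed r N P Ln × Finset (Vx r s N P Ln))} (hl : l <:+ G.ps) (hQ : HasQ l)
    (j : Fin (N + 1)) (K : Finset (Vx r s N P Ln)) {k1 : ℝ}
    (h1 : G.ν l (CC ∪ pts ∅ ∪ UU (Blk r j) (Bas D)) K ≤ k1) (E0 : Finset (Ed r N P Ln))
    (hE : ∀ e ∈ E0, e ∉ pl l ∧ ∃ w t, e = eO w t ∧
      (Vx.nv w : Vx r s N P Ln) ∉ UU (Blk r j) (Bas D) ∧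
      ed D s e ⊆ CC ∪ pts ∅ ∪ UU (Blk r j) (Bas D) ∪ K) :
    (E0.card : ℝ) * de r ≤ 4 * hh r + k1 + 5 * er (Ed r N P Ln) ζ := by
  have hM := lemM hS.ok G hl hQ (Blk r j) (Bas D) ∅ K (fun z h => isPay_WN6 h)
    (fun z h p hp => Or.inl (rpar_Blk D h p hp)) (empty_WN6 G l) h1
    (fun F i h _ => key_WN6 G hR _ (role_Blk h).2)
    (fun F i h _ => (key_WN6 G hR _ (role_Blk h).2).trans subset_union_left) E0 (8 * r) ?_
  · have h3 := hh_pos r
    have h4 : ((Bas D).card : ℝ) ≤ 4 := by exact_mod_cast card_Bas D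
    have h5 := mul_le_mul_of_nonneg_right h4 h3.le
    have h6 : (E0.card : ℝ) * ((8 * r : ℕ) : ℝ) * hh r = E0.card * de r := by
      rw [de]
      push_cast
      ring
    linarith
  · intro e he
    obtain ⟨h2, w, t, rfl, h3, h4⟩ := hE e he
    refine ⟨h2, fun h => h, (G.key_sub _).trans h4, ?_⟩
    rw [zero_WN6 t h3, zero_add]

lemma two_WN6 (hS : Sm D s ζ) (G : Play (ed D s) r (de r) ζ) (hR : ∀ F, Right G F)
    {l : List (Ed r N P Ln × Finset (Vx r s N P Ln))} (hl : l <:+ G.ps) (hQ : HasQ l)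
    (j : Fin (N + 1)) {z : Cp r N Ln} (hz : z ∉ Blk r j)
    (h1 : G.ν l (CC ∪ pts ∅ ∪ UU (Blk r j) (Bas D)) {.nv (.cv z)} ≤ er (Ed r N P Ln) ζ)
    {t : Fin (al r)} {τ : NV r N P Ln} (ht : par D.I (.cv z) t = some τ)
    (hτ : ∀ b, τ ≠ .pt (D.I.bas b)) : eO (.cv z) t ∈ pl l ∧ Own l τ := by
  have hO := hS.ok
  have hc : (∀ t' : ℕ, par D.I τ t' = none) ∧ τ ≠ .cv z ∧
      (Vx.nv τ : Vx r s N P Ln) ∉ UU (Blk r j) (Bas D) := by
    rcases par_cases ht with h | ⟨p, -, rfl⟩
    · obtain ⟨z', i, h2, rfl, -⟩ := ptk_cases h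
      obtain rfl : z = z' := NV.cv.inj h2
      exact ⟨fun t' => par_tk _ _ _ _, by simp, fun h3 => hz ((tk_mem_UU _ _ _ _).1 h3).1⟩
    · refine ⟨fun t' => par_pt _ _ _, by simp, fun h3 => ?_⟩
      obtain ⟨b, rfl⟩ := (mem_Bas _ _).1 ((pt_mem_UU _ _ _).1 h3)
      exact hτ b rfl
  obtain ⟨hc1, hc2, hc3⟩ := hc
  obtain ⟨S, hS'⟩ : ∃ S : Finset (Vx r s N P Ln), S = CC ∪ pts ∅ ∪ UU (Blk r j) (Bas D) :=
    ⟨_, rfl⟩
  have hCS : CC ⊆ S := by
    rw [hS']
    exact subset_union_left.trans subset_union_left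
  obtain ⟨Es, hEs⟩ : ∃ Es : Finset (Ed r N P Ln),
      Es = insert (eO (.cv z) t) (univ.image fun t' => eO τ t') := ⟨_, rfl⟩
  have hmem : ∀ e, e ∈ Es ↔ e = eO (.cv z) t ∨ ∃ t', e = eO τ t' := by
    intro e
    simp only [hEs, mem_insert, mem_image, mem_univ, true_and, eq_comm]
  have hcard : Es.card = al r + 1 := by
    rw [hEs, card_insert_of_notMem, card_image_of_injective, card_univ, Fintype.card_fin]
    · intro a b h
      simpa using h
    · simp only [mem_image, mem_univ, true_and, not_exists]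
      intro t' h
      simp only [Sum.inr.injEq, Sum.inl.injEq, Prod.mk.injEq] at h
      exact hc2 h.1
  have hed : ∀ e ∈ Es, Vx.nv τ ∈ ed D s e ∧
      ed D s e ⊆ insert (Vx.nv τ) (S ∪ {Vx.nv (.cv z)}) := by
    intro e he
    have hC : CC ⊆ insert (Vx.nv τ) (S ∪ {Vx.nv (.cv z)}) :=
      (hCS.trans subset_union_left).trans (subset_insert _ _)
    rcases (hmem e).1 he with rfl | ⟨t', rfl⟩
    · refine ⟨(mem_ed_O hO D _ _ _).2 (Or.inr (Or.inr (Or.inl ⟨τ, ht, rfl⟩))),
        edO_WN6 hO hC (mem_insert_of_mem (mem_union_right _ (mem_singleton_self _))) ?_⟩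
      intro π h
      rw [ht] at h
      obtain rfl := Option.some.inj h
      exact mem_insert_self _ _
    · refine ⟨(mem_ed_O hO D _ _ _).2 (Or.inr (Or.inl rfl)),
        edO_WN6 hO hC (mem_insert_self _ _) ?_⟩
      intro π h
      rw [hc1] at h
      exact absurd h (by simp)
  have hall : Es ⊆ pl l := by
    by_contra hn
    have hk : (Es ∩ pl l).card ≤ al r := by
      have : (Es ∩ pl l).card < Es.card :=
        card_lt_card ⟨inter_subset_left, fun h => hn fun e he => (mem_inter.1 (h he)).2⟩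
      omega
    have hs : (Es \ pl l).card + (Es ∩ pl l).card = al r + 1 := by
      rw [card_sdiff_add_card_inter, hcard]
    have hV := G.lemV hl (S ∪ {Vx.nv (.cv z)}) (Vx.nv τ) Es hed
    have hch := G.cal.chain l S {Vx.nv (.cv z)} {Vx.nv τ}
    rw [← hS'] at h1
    have hd := de_bd hO
    have ha := al_de r
    have hp := hh_pos r
    have hsm := hS.small
    have hk' : ((Es ∩ pl l).card : ℝ) ≤ al r := by exact_mod_cast hk
    have hs' : ((Es \ pl l).card : ℝ) = al r + 1 - (Es ∩ pl l).card := by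
      have : ((Es \ pl l).card : ℝ) + (Es ∩ pl l).card = al r + 1 := by exact_mod_cast hs
      linarith
    have hmul := mul_le_mul_of_nonneg_left hk' (show 0 ≤ de r by linarith [hd.1])
    rw [max_eq_right (by linarith)] at hV
    have hM := blk_WN6 hS G hR hl hQ j ({Vx.nv (.cv z)} ∪ {Vx.nv τ}) (le_refl _)
      (Es \ pl l) ?_
    · rw [hs', ← hS'] at hM
      nlinarith [hd.1]
    · intro e he
      obtain ⟨he1, he2⟩ := mem_sdiff.1 he
      have h5 : ed D s e ⊆ CC ∪ pts ∅ ∪ UU (Blk r j) (Bas D) ∪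
          ({Vx.nv (.cv z)} ∪ {Vx.nv τ}) := by
        rw [← hS']
        intro v hv
        have h6 := (hed e he1).2 hv
        simp only [mem_insert, mem_union, mem_singleton] at h6 ⊢
        tauto
      rcases (hmem e).1 he1 with rfl | ⟨t', rfl⟩
      · exact ⟨he2, _, _, rfl, fun h => hz ((cv_mem_UU _ _ _).1 h), h5⟩
      · exact ⟨he2, _, _, rfl, hc3, h5⟩
  exact ⟨hall ((hmem _).2 (Or.inl rfl)), fun t' => hall ((hmem _).2 (Or.inr ⟨t', rfl⟩))⟩

/-- The edges of a destroyed line payer, of its tokens and of its parent are played. -/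
theorem own_before (hS : Sm D s ζ) (G : Play (ed D s) r (de r) ζ) (hR : ∀ F, Right G F)
    {l : List (Ed r N P Ln × Finset (Vx r s N P Ln))} (hl : l <:+ G.ps) {j : Fin N}
    (hk : eF (.D j) ∈ pl l) :
    Own l (.cv (.L (D.tg j).1, (D.tg j).2)) ∧
      ∀ (t : Fin (al r)) (τ : NV r N P Ln), par D.I (.cv (.L (D.tg j).1, (D.tg j).2)) t = some τ →
        (∀ b, τ ≠ .pt (D.I.bas b)) → Own l τ := by
  have hQ := lemZ hS G hl hk
  have hz : ((.L (D.tg j).1, (D.tg j).2) : Cp r N Ln) ∉ Blk r j.castSucc := by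
    intro h
    have h1 := stF_Blk h
    simp only [stF] at h1
    omega
  have h1 : G.ν l (CC ∪ pts ∅ ∪ UU (Blk r j.castSucc) (Bas D))
      {.nv (.cv (.L (D.tg j).1, (D.tg j).2))} ≤ er (Ed r N P Ln) ζ :=
    fd_WN6 G hR hl hk (Bas D) fun z h => (mem_Blk _ z).2 (Or.inr ⟨j, rfl, h⟩)
  refine ⟨fun t => ?_, fun t τ ht hτ => (two_WN6 hS G hR hl hQ _ hz h1 ht hτ).2⟩
  by_cases hc : ∃ τ : NV r N P Ln,
      par D.I (.cv (.L (D.tg j).1, (D.tg j).2)) t = some τ ∧ ∀ b, τ ≠ .pt (D.I.bas b)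
  · obtain ⟨τ, ht, hτ⟩ := hc
    exact (two_WN6 hS G hR hl hQ _ hz h1 ht hτ).1
  · by_contra hn
    have hM := blk_WN6 hS G hR hl hQ _ _ h1 {eO (.cv (.L (D.tg j).1, (D.tg j).2)) t} ?_
    · have hd := (de_bd hS.ok).1
      have hp := hh_pos r
      have hsm := hS.small
      simp only [card_singleton, Nat.cast_one] at hM
      linarith
    · intro e he
      rw [mem_singleton] at he
      subst he
      refine ⟨hn, _, _, rfl, fun h => hz ((cv_mem_UU _ _ _).1 h), edO_WN6 hS.ok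
        ((subset_union_left.trans subset_union_left).trans subset_union_left)
        (mem_union_right _ (mem_singleton_self _)) fun π h => ?_⟩
      by_contra h2
      refine hc ⟨π, h, fun b hb => h2 ?_⟩
      rw [hb]
      exact mem_union_left _ (mem_union_right _
        ((pt_mem_UU _ _ _).2 ((mem_Bas _ _).2 ⟨b, rfl⟩)))

end Pool.Agent.SemiRandom.Fix
end

-- part Pool.Agent.P.MP_c53d0e_pr.WN7
section

set_option autoImplicit false
set_option linter.unusedSectionVars false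

namespace Pool.Agent.SemiRandom.Fix

open Finset Und

variable {r s N : ℕ} {P Ln : Type} [NeZero r] [Fintype P] [DecidableEq P] [Fintype Ln]
  [DecidableEq Ln] {D : Dat r N P Ln} {ζ : ℝ}

lemma sub_Blk_WN7 (j : Fin (N + 1)) : PY r (.E j : FD N Ln) ⊆ Blk r j := fun z hz =>
  (mem_Blk j z).2 (Or.inl hz)

lemma tgt_succ_WN7 (D : Dat r N P Ln) (j : Fin N) :
    tgtv D (.E j.succ) = .cv (aa j.castSucc) := by
  simp [tgtv]

/-- All destroyers come before the last chain edge. -/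
lemma D_before_WN7 (hS : Sm D s ζ) (G : Play (ed D s) r (de r) ζ)
    {l : List (Ed r N P Ln × Finset (Vx r s N P Ln))}
    (hl : (eF (.E (Fin.last N)), G.key (eF (.E (Fin.last N)))) :: l <:+ G.ps) (j : Fin N) :
    eF (.D j) ∈ pl l := by
  have hR := right_all hS G
  have hE : ∀ j : Fin (N + 1), eF (.E j) ∈
      pl ((eF (.E (Fin.last N)), G.key (eF (.E (Fin.last N)))) :: l) := by
    intro j
    induction j using Fin.reverseInduction with
    | last => simp
    | cast j ih =>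
      refine role_before hS G hR hl (j := j.succ) (i := 0) ih (sub_Blk_WN7 _)
        (tgt_succ_WN7 D j) ?_
      simp [stF]
  have h1 : eF (.D j) ∈ pl ((eF (.E (Fin.last N)), G.key (eF (.E (Fin.last N)))) :: l) := by
    refine role_before hS G hR hl (j := j.succ) (i := 0) (hE j.succ) (sub_Blk_WN7 _) ?_ ?_
    · rw [tgt_succ_WN7]
      simp [pay, aa]
    · simp [stF]
  rw [pl_cons, mem_insert] at h1
  rcases h1 with h1 | h1
  · simp at h1
  · exact h1

/-- Everything is played before the last chain edge. -/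
theorem all_before (hS : Sm D s ζ) (hG : D.Good) (G : Play (ed D s) r (de r) ζ)
    {l : List (Ed r N P Ln × Finset (Vx r s N P Ln))}
    (hl : (eF (.E (Fin.last N)), G.key (eF (.E (Fin.last N)))) :: l <:+ G.ps) :
    (∀ e, eF (.L e) ∈ pl l) ∧ (∀ e i, Own l (.cv (.L e, i))) ∧
      (∀ e (i : Fin r) (k : Fin 15), (k : ℕ) < 7 → Own l (.tk (.L e, i) k)) ∧
      ∀ e i, (∀ b, D.I.src e i ≠ D.I.bas b) → Own l (.pt (D.I.src e i)) := by
  have hR := right_all hS G
  have hl' : l <:+ G.ps := (List.suffix_cons _ _).trans hl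
  have hD := D_before_WN7 hS G hl
  have hown : ∀ (e : Ln) (i : Fin r), Own l (.cv (.L e, i)) ∧
      ∀ (t : Fin (al r)) (τ : NV r N P Ln), par D.I (.cv (.L e, i)) t = some τ →
        (∀ b, τ ≠ .pt (D.I.bas b)) → Own l τ := by
    intro e i
    obtain ⟨j, hj⟩ := hG.surj (e, i)
    have h := own_before hS G hR hl' (hD j)
    rw [hj] at h
    exact h
  refine ⟨fun e => ?_, fun e i => (hown e i).1, fun e i k hk => ?_, fun e i hi => ?_⟩
  · obtain ⟨j, hj⟩ := hG.surj (e, 0)
    refine role_before hS G hR hl' (j := j.castSucc) (i := 0) (hD j)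
      (fun z hz => (mem_Blk _ z).2 (Or.inr ⟨j, rfl, hz⟩)) ?_ ?_
    · simp [tgtv, pay, hj]
    · simp only [stF]
      omega
  · obtain ⟨t, ht⟩ := exists_priv (P := P) ((.L e, i) : Cp r N Ln) k hk
    exact (hown e i).2 t _ (par_of_ptk D.I ht).1 fun b h => by cases h
  · obtain ⟨i', hi'⟩ := src_mem_rpar (N := N) hS.ok D.I e i
    obtain ⟨t, ht⟩ := exists_real D.I _ hi'
    exact (hown e i').2 t _ (ppt_cases ht).2.1 fun b h => hi b (NV.pt.inj h)

/-- The target of a finished line with low sources is low. -/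
lemma low_step_WN7 (hS : Sm D s ζ) (G : Play (ed D s) r (de r) ζ)
    {l : List (Ed r N P Ln × Finset (Vx r s N P Ln))} (hl : l <:+ G.ps) (hQ : HasQ l) {e : Ln}
    (hf : G.ν l (CC ∪ pts (Src D e)) {.nv (.pt (D.I.tgt e))} ≤ 3 * er (Ed r N P Ln) ζ)
    (hs : ∀ i, G.ν l CC {.nv (.pt (D.I.src e i))} ≤ hh r + 2 * er (Ed r N P Ln) ζ) :
    G.ν l CC {.nv (.pt (D.I.tgt e))} ≤ hh r + 2 * er (Ed r N P Ln) ζ := by
  refine low_of_own hS.ok G hl (own_of_low hS G hl hQ ?_)
  have h1 := G.cal.mono l CC CC {.nv (.pt (D.I.tgt e))}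
    (pts (Src D e) ∪ {.nv (.pt (D.I.tgt e))}) le_rfl
    (subset_union_right.trans subset_union_right)
  have h2 := G.cal.chain l CC (pts (Src D e)) {.nv (.pt (D.I.tgt e))}
  have h3 := G.sub2 l CC {.nv (.pt (D.I.src e 0))} {.nv (.pt (D.I.src e 1))}
  have h4 := G.cal.mono l CC CC (pts (Src D e))
    ({.nv (.pt (D.I.src e 0))} ∪ {.nv (.pt (D.I.src e 1))}) le_rfl (by
      intro v hv
      obtain ⟨p, hp, rfl⟩ := (mem_pts _ _).1 hv
      obtain ⟨i, rfl⟩ := (mem_Src D e p).1 hp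
      fin_cases i <;> simp)
  have h5 := hs 0
  have h6 := hs 1
  have h7 := hS.small
  have h8 := G.er_pos
  linarith

theorem no_play (hO : Ok r s) (hG : D.Good) {η : ℝ} (hη0 : 0 < η) (hη1 : η ≤ 1)
    (hζ : 100 * (Fintype.card Ln + 1) * er (Ed r N P Ln) ζ ≤ η * hh r)
    (G : Play (ed D s) r (de r) ζ) (hst : StatG D.I (fun p => Vx.nv (.pt p)) η G.ν) : False := by
  have he := G.er_pos
  have hh0 := hh_pos r
  have hc : (0 : ℝ) ≤ Fintype.card Ln := Nat.cast_nonneg _
  have hce : 0 ≤ (Fintype.card Ln : ℝ) * er (Ed r N P Ln) ζ := mul_nonneg hc he.le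
  have hS : Sm D s ζ := ⟨hO, by nlinarith⟩
  have hR := right_all hS G
  obtain ⟨l, hl1, hl, hn, hQ⟩ := beforeF hS G (.E (Fin.last N))
  obtain ⟨hL, hcv, htk, hsrc⟩ := all_before hS hG G hl1
  have hf : ∀ e, G.ν l (CC ∪ pts (Src D e)) {.nv (.pt (D.I.tgt e))} ≤ 3 * er (Ed r N P Ln) ζ :=
    fun e => line_fd hO G hl (hR _) (hL e) (hcv e) (htk e)
  have s1 : ∀ b, G.ν l CC {.nv (.pt (D.I.bas b))} ≤ hh r + 2 * er (Ed r N P Ln) ζ := by
    intro b
    obtain ⟨e, he1, he2⟩ := hG.cov1 b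
    rw [← he1]
    exact low_step_WN7 hS G hl hQ (hf e) fun i => low_of_own hO G hl (hsrc e i (he2 i))
  have s2 : ∀ p, G.ν l CC {.nv (.pt p)} ≤ hh r + 2 * er (Ed r N P Ln) ζ := by
    intro p
    rcases hG.cov2 p with ⟨b, rfl⟩ | ⟨e, rfl, he2⟩
    · exact s1 b
    · refine low_step_WN7 hS G hl hQ (hf e) fun i => ?_
      obtain ⟨b, hb⟩ := he2 i
      rw [hb]
      exact s1 b
  have h1 := hst l CC (hh r + 2 * er (Ed r N P Ln) ζ) (3 * er (Ed r N P Ln) ζ) (by linarith)
    (by linarith) s2 (fun e => by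
      have h := hf e
      rwa [pts, Src, image_image] at h)
  have h2 := G.cal.mono l CC CC (pts (Bas D)) (univ.image fun p => Vx.nv (.pt p)) le_rfl
    ((image_subset_image (subset_univ _)).trans subset_union_right)
  have h3 : G.ν l (CC ∪ pts (Bas D) ∪ UU (PY r (.E (Fin.last N))) ∅) ∅ ≤ 0 := by
    simpa using G.cal.cap l (CC ∪ pts (Bas D) ∪ UU (PY r (.E (Fin.last N))) ∅) ∅
  have hkey : G.key (eF (.E (Fin.last N))) ⊆
      CC ∪ pts (Bas D) ∪ UU (PY r (.E (Fin.last N))) ∅ := by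
    rw [hR (.E (Fin.last N))]
    intro v hv
    obtain ⟨z, hz, rfl⟩ := (mem_cvs _ _).1 hv
    exact mem_union_right _ ((cv_mem_UU _ _ _).2 hz)
  have hrole : ∀ (F : FD N Ln) (i : Fin r), pay F i ∈ PY r (.E (Fin.last N) : FD N Ln) →
      F = .E (Fin.last N) := by
    intro F i h
    rcases (role_Blk (sub_Blk_WN7 _ h)).1 with h | ⟨j, hj, -⟩
    · exact h
    · exact absurd hj.symm (Fin.castSucc_lt_last j).ne
  have h4 := lemM hO G hl hQ (PY r (.E (Fin.last N))) ∅ (Bas D) ∅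
    (fun z hz => ⟨_, (mem_PY _ z).1 hz⟩)
    (fun z hz p hp => Or.inr (rpar_Blk D (sub_Blk_WN7 _ hz) p hp)) (h2.trans h1) h3
    (fun F i h _ => by rw [hrole F i h]; exact hkey)
    (fun F i h _ => by rw [hrole F i h]; exact hkey.trans subset_union_left)
    {eF (.E (Fin.last N))} 4 (by
      intro e he
      rw [mem_singleton] at he
      subst he
      refine ⟨hn, fun h => h, hkey.trans subset_union_left, ?_⟩
      have h5 := sum_lv (Ln := Ln) hO (.E (Fin.last N))
      rw [if_pos rfl] at h5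
      rw [dn_F_UU, sum_congr rfl fun i _ => if_pos ((mem_PY _ _).2 ⟨i, rfl⟩)]
      exact h5.le)
  simp only [card_singleton, card_empty, Nat.cast_one, Nat.cast_zero, Nat.cast_ofNat] at h4
  have h6 : 0 ≤ η * er (Ed r N P Ln) ζ := mul_nonneg hη0.le he.le
  nlinarith

end Pool.Agent.SemiRandom.Fix
end
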