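import Pool.Agent.K.MP_c53d0e_pr.C1
import Pool.Agent.K.MP_c53d0e_pr.C5

set_option autoImplicit false
set_option linter.unusedSectionVars false

namespace Pool.Agent.SemiRandom.Fix

open Finset Und

section fam
variable {V W : Type} [Fintype V] [DecidableEq V] [Fintype W] [DecidableEq W]

/-- On `F` the values on `A` determine the values on `B`. -/
def Det (F : Finset (V → W)) (A B : Finset V) : Prop :=
  ∀ ψ ∈ F, ∀ ψ' ∈ F, (∀ v ∈ A, ψ v = ψ' v) → ∀ v ∈ B, ψ v = ψ' v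

lemma Det.mono {F F' : Finset (V → W)} {A B : Finset V} (h : Det F A B) (hF : F' ⊆ F) :
    Det F' A B := fun ψ h1 ψ' h2 => h ψ (hF h1) ψ' (hF h2)

/-- Upper bounds after one phase with random part `u`. -/
def RuleU (F F' : Finset (V → W)) (u : Finset V) (L ρ : ℝ) : Prop :=
  ∀ A B, (cnt F' A (B ∪ u) : ℝ) ≤ L * max (ρ * cnt F A (B ∪ u)) (cnt F (A ∪ u) B)

/-- Size of a family: `X` for the old vertices, `ω` for the new ones, error `c`. -/
structure St (F : Finset (V → W)) (New : Finset V) (X : ℝ) (ω : V → ℝ) (c : ℝ) : Prop where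
  lo : Real.exp (X + ∑ v ∈ New, ω v - c) ≤ F.card
  up : ∀ A, Newᶜ ⊆ A → (cnt F A New : ℝ) ≤ Real.exp (c + ∑ v ∈ New \ A, ω v)
  old : (cnt F ∅ Newᶜ : ℝ) ≤ Real.exp X

open Classical in
/-- All placements that agree off `New` with some `Ψ x`. -/
noncomputable def ext {ι : Type} (S : Finset ι) (Ψ : ι → V → W) (New : Finset V) :
    Finset (V → W) := univ.filter fun ψ => ∃ x ∈ S, ∀ v ∉ New, ψ v = Ψ x v

lemma mem_ext {ι : Type} {S : Finset ι} {Ψ : ι → V → W} {New : Finset V} {ψ : V → W} :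
    ψ ∈ ext S Ψ New ↔ ∃ x ∈ S, ∀ v ∉ New, ψ v = Ψ x v := by
  simp only [ext, mem_filter, mem_univ, true_and]

end fam

/-- Loss of one phase. -/
noncomputable def lam (L ε : ℝ) : ℝ := Real.log L + Real.log (4 / ε)

/-- Numeric conditions of a phase of `T` rounds that costs `D`. -/
structure Ph (cV n m r T : ℕ) (D L ε : ℝ) : Prop where
  d0 : 0 < D
  t1 : (T : ℝ) / Fintype.card (RSet n r) ≤ Real.exp (-D)
  t2 : Real.exp (-D) * Fintype.card (RSet n r) ≤ T + 1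
  hL : 2 ≤ L
  e0 : 0 < ε
  e1 : ε ≤ 1
  hU : 4 ^ cV * (m : ℝ) ^ cV * (3 / (2 : ℝ) ^ L) ≤ ε
  m1 : 1 ≤ m

lemma Ph.lam_bd {cV n m r T : ℕ} {D L ε : ℝ} (h : Ph cV n m r T D L ε) :
    0 ≤ Real.log L ∧ 0 ≤ Real.log (4 / ε) ∧ 0 ≤ lam L ε := by
  have a : 0 ≤ Real.log L := Real.log_nonneg (by linarith [h.hL])
  have b : 0 ≤ Real.log (4 / ε) :=
    Real.log_nonneg ((one_le_div h.e0).2 (by linarith [h.e1]))
  exact ⟨a, b, add_nonneg a b⟩

/-- Numeric conditions of the strategy: `M` edges, unit `u`, alphabet `w`, `sz` solutions. -/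
structure Nm (cV M N n m r T w sz : ℕ) (u L ε ka : ℝ) : Prop where
  ph : Ph cV n m r T (8 * r * u) L ε
  u0 : 0 < u
  w1 : 1 ≤ w
  hw : Real.log w ≤ u
  hm : qq r * u + ka ≤ Real.log m
  hka : 8 * lam L ε * M + lam L ε ≤ ka
  s1 : 1 ≤ sz
  fin : 4 * u + (N + 2) * (8 * lam L ε * M) + lam L ε ≤ Real.log sz + ka

section inv
variable {r s N : ℕ} {P Ln : Type} [NeZero r] [Fintype P] [DecidableEq P] [Fintype Ln]
  [DecidableEq Ln] {n m w : ℕ}

/-- The vertices placed in stage `k`. -/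
def Nw (k : ℕ) : Finset (Vx r s N P Ln) := univ.filter fun v => stV v = k

lemma mem_Nw {k : ℕ} {v : Vx r s N P Ln} : v ∈ Nw k ↔ stV v = k := by simp [Nw]

/-- After the stages below `k` every solution in `S` has a placement. -/
def Inv (D : Dat r N P Ln) (κ : Vx r s N P Ln × Fin m ↪ Fin n) (ψ0 : Vx r s N P Ln → Fin m)
    (lab : P → Fin w → Fin m) (S : Finset (P → Fin w)) (Ψ : (P → Fin w) → Vx r s N P Ln → Fin m)
    (k : ℕ) (h : List (RSet n r × Move n r s)) : Prop :=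
  (∀ p, Function.Injective (lab p)) ∧ ∀ x ∈ S, (∀ v ∈ CC, Ψ x v = ψ0 v) ∧
    (∀ p, Ψ x (.nv (.pt p)) = lab p (x p)) ∧ ∀ e, stE e < k → Pres κ h (ed D s e) (Ψ x)

lemma Inv_mono (D : Dat r N P Ln) (κ : Vx r s N P Ln × Fin m ↪ Fin n) (ψ0 : Vx r s N P Ln → Fin m)
    (lab : P → Fin w → Fin m) (S : Finset (P → Fin w)) (Ψ : (P → Fin w) → Vx r s N P Ln → Fin m)
    (k : ℕ) : Mono (Inv D κ ψ0 lab S Ψ k) := fun _ l H =>
  ⟨H.1, fun x hx => ⟨(H.2 x hx).1, (H.2 x hx).2.1, fun e he => ((H.2 x hx).2.2 e he).append l⟩⟩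

/-- The state after the stages below `k`: a subfamily of `S` of size at least `y`. -/
def Stg (D : Dat r N P Ln) (κ : Vx r s N P Ln × Fin m ↪ Fin n) (S : Finset (P → Fin w)) (y : ℝ)
    (k : ℕ) (h : List (RSet n r × Move n r s)) : Prop :=
  ∃ ψ0 lab S' Ψ, S' ⊆ S ∧ y ≤ S'.card ∧ Inv D κ ψ0 lab S' Ψ k h

end inv

end Pool.Agent.SemiRandom.Fix
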